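import Mathlib

set_option autoImplicit false

namespace Pool.Agent.Helpers25.AR

/-- sign -/
def sgn (b : Bool) : ℤ := if b then 1 else -1

/-- l1 norm on the first coordinates -/
def l1 (k : ℕ) (x : ℕ →₀ ℤ) : ℤ := ∑ j ∈ Finset.range (k + 1), |x j|

/-- supported in `[0,k]` -/
def Supp (k : ℕ) (x : ℕ →₀ ℤ) : Prop := ∀ j, k < j → x j = 0

lemma Supp.add {k : ℕ} {x y : ℕ →₀ ℤ} (hx : Supp k x) (hy : Supp k y) : Supp k (x + y) := by
  intro j hj
  rw [Finsupp.add_apply, hx j hj, hy j hj, add_zero]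

lemma Supp.zero (k : ℕ) : Supp k 0 := by
  intro j _; rfl

lemma l1_add (k : ℕ) (x y : ℕ →₀ ℤ) : l1 k (x + y) ≤ l1 k x + l1 k y := by
  unfold l1
  rw [← Finset.sum_add_distrib]
  apply Finset.sum_le_sum
  intro j _
  rw [Finsupp.add_apply]
  exact abs_add_le _ _

lemma l1_nonneg (k : ℕ) (x : ℕ →₀ ℤ) : 0 ≤ l1 k x :=
  Finset.sum_nonneg (fun _ _ => abs_nonneg _)

lemma l1_single_le (k : ℕ) (i : ℕ) (z : ℤ) : l1 k (Finsupp.single i z) ≤ |z| := by
  unfold l1
  by_cases hi : i ∈ Finset.range (k + 1)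
  · rw [Finset.sum_eq_single i]
    · simp
    · intro j _ hj
      rw [Finsupp.single_eq_of_ne hj]; simp
    · intro h; exact absurd hi h
  · rw [Finset.sum_eq_zero]
    · exact abs_nonneg _
    · intro j hj
      rw [Finsupp.single_eq_of_ne]
      · simp
      · intro h; subst h; exact hi hj

lemma reduce (T : Set (ℕ →₀ ℤ)) (hT : ∀ x ∈ T, ∀ y ∈ T, x + y ∈ T) (k : ℕ)
    (u : ℕ → Bool → (ℕ →₀ ℤ)) (N : ℕ → Bool → ℤ) (M : ℤ)
    (hM : ∀ i ≤ k, ∀ b, N i b ≤ M) (huT : ∀ i ≤ k, ∀ b, u i b ∈ T) (hN : ∀ i ≤ k, ∀ b, 1 ≤ N i b)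
    (hsupp : ∀ i ≤ k, ∀ b, Supp k (u i b))
    (herr : ∀ i ≤ k, ∀ b, 2 * l1 k (u i b - Finsupp.single i (sgn b * N i b)) ≤ N i b) (n : ℕ) :
    ∀ x : ℕ →₀ ℤ, Supp k x → l1 k x ≤ n →
      ∃ w, (w = 0 ∨ w ∈ T) ∧ Supp k w ∧ ∀ j ≤ k, |(x + w) j| ≤ M := by
  induction n with
  | zero =>
    intro x hx hl
    refine ⟨0, Or.inl rfl, Supp.zero k, fun j hj => ?_⟩
    have h0 : |x j| ≤ l1 k x :=
      Finset.single_le_sum (f := fun j => |x j|) (fun _ _ => abs_nonneg _) (Finset.mem_range.mpr (by omega))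
    have hM0 := hM j hj true
    have hN0 := hN j hj true
    rw [add_zero]
    push_cast at hl
    linarith
  | succ n ih =>
    intro x hx hl
    by_cases hall : ∀ j ≤ k, |x j| ≤ M
    · exact ⟨0, Or.inl rfl, Supp.zero k, fun j hj => by rw [add_zero]; exact hall j hj⟩
    push Not at hall
    obtain ⟨i, hi, hiM⟩ := hall
    -- choose the sign
    obtain ⟨b, hb⟩ : ∃ b : Bool, |x i + sgn b * N i b| = |x i| - N i b := by
      rcases lt_or_ge (x i) 0 with h | h
      · refine ⟨true, ?_⟩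
        have h1 := hM i hi true
        have h2 := hN i hi true
        rw [abs_of_neg h] at hiM ⊢
        simp only [sgn, if_true, one_mul]
        rw [abs_of_nonpos (by linarith)]; ring
      · refine ⟨false, ?_⟩
        have h1 := hM i hi false
        have h2 := hN i hi false
        rw [abs_of_nonneg h] at hiM ⊢
        simp only [sgn, Bool.false_eq_true, if_false]
        rw [abs_of_nonneg (by linarith)]; ring
    have hmid : l1 k (x + Finsupp.single i (sgn b * N i b)) = l1 k x - N i b := by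
      unfold l1
      have : ∀ j ∈ Finset.range (k + 1), |(x + Finsupp.single i (sgn b * N i b)) j| =
          |x j| + (if j = i then - N i b else 0) := by
        intro j _
        split_ifs with hj
        · subst hj
          rw [Finsupp.add_apply, Finsupp.single_eq_same, hb]; ring
        · rw [Finsupp.add_apply, Finsupp.single_eq_of_ne hj]; simp
      rw [Finset.sum_congr rfl this, Finset.sum_add_distrib, Finset.sum_ite_eq']
      rw [if_pos (Finset.mem_range.mpr (by omega))]; ring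
    have hnew : l1 k (x + u i b) ≤ n := by
      have h1 : x + u i b = (x + Finsupp.single i (sgn b * N i b)) +
          (u i b - Finsupp.single i (sgn b * N i b)) := by abel
      have h2 := l1_add k (x + Finsupp.single i (sgn b * N i b))
        (u i b - Finsupp.single i (sgn b * N i b))
      rw [← h1, hmid] at h2
      have h3 := herr i hi b
      have h4 := hN i hi b
      push_cast at hl
      omega
    obtain ⟨w, hw1, hw2, hw3⟩ := ih (x + u i b) (hx.add (hsupp i hi b)) hnew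
    refine ⟨u i b + w, Or.inr ?_, (hsupp i hi b).add hw2, fun j hj => ?_⟩
    · rcases hw1 with h | h
      · rw [h, add_zero]; exact huT i hi b
      · exact hT _ (huT i hi b) _ h
    · rw [← add_assoc]; exact hw3 j hj

lemma box_finite (k : ℕ) (M : ℤ) : {x : ℕ →₀ ℤ | Supp k x ∧ ∀ j ≤ k, |x j| ≤ M}.Finite := by
  have hfin : (Set.pi Set.univ (fun _ : Fin (k + 1) => Set.Icc (-M) M)).Finite :=
    Set.Finite.pi (fun _ => Set.finite_Icc _ _)
  refine Set.Finite.of_injOn (f := fun (x : ℕ →₀ ℤ) (j : Fin (k + 1)) => x j) ?_ ?_ hfin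
  · intro x hx
    simp only [Set.mem_pi, Set.mem_univ, Set.mem_Icc, forall_true_left]
    intro j
    have := hx.2 j (by omega)
    exact abs_le.mp this
  · intro x hx y hy hxy
    ext j
    by_cases hj : j ≤ k
    · exact congrFun hxy ⟨j, by omega⟩
    · rw [hx.1 j (by omega), hy.1 j (by omega)]

lemma nsmul_mem_T (T : Set (ℕ →₀ ℤ)) (hT : ∀ x ∈ T, ∀ y ∈ T, x + y ∈ T) (v : ℕ →₀ ℤ) (hv : v ∈ T)
    (n : ℕ) : (n + 1) • v ∈ T := by
  induction n with
  | zero => simpa using hv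
  | succ n ih => rw [succ_nsmul]; exact hT _ ih _ hv

lemma neg_mem_T (T : Set (ℕ →₀ ℤ)) (hT : ∀ x ∈ T, ∀ y ∈ T, x + y ∈ T) (k : ℕ)
    (u : ℕ → Bool → (ℕ →₀ ℤ)) (N : ℕ → Bool → ℤ)
    (huT : ∀ i ≤ k, ∀ b, u i b ∈ T) (hN : ∀ i ≤ k, ∀ b, 1 ≤ N i b)
    (hsupp : ∀ i ≤ k, ∀ b, Supp k (u i b))
    (herr : ∀ i ≤ k, ∀ b, 2 * l1 k (u i b - Finsupp.single i (sgn b * N i b)) ≤ N i b)
    (v : ℕ →₀ ℤ) (hv : v ∈ T) (hvs : Supp k v) : -v ∈ T := by
  set M : ℤ := ∑ i ∈ Finset.range (k + 1), ∑ b : Bool, N i b with hMdef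
  have hM : ∀ i ≤ k, ∀ b, N i b ≤ M := by
    intro i hi b
    have h1 : N i b ≤ ∑ b : Bool, N i b :=
      Finset.single_le_sum (f := fun b => N i b) (fun b _ => by have := hN i hi b; omega) (Finset.mem_univ b)
    have h2 : ∑ b : Bool, N i b ≤ M :=
      Finset.single_le_sum (f := fun i => ∑ b : Bool, N i b)
        (fun j hj => Finset.sum_nonneg (fun b _ => by
          have := hN j (by rw [Finset.mem_range] at hj; omega) b; omega))
        (Finset.mem_range.mpr (by omega))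
    exact h1.trans h2
  have hM0 : 0 ≤ M := by
    have h1 := hM 0 (Nat.zero_le _) true
    have h2 := hN 0 (Nat.zero_le _) true
    omega
  have hred : ∀ x : ℕ →₀ ℤ, Supp k x → ∃ w, (w = 0 ∨ w ∈ T) ∧ Supp k w ∧ ∀ j ≤ k, |(x + w) j| ≤ M := by
    intro x hx
    refine reduce T hT k u N M hM huT hN hsupp herr (l1 k x).toNat x hx ?_
    exact Int.self_le_toNat _
  choose! w hw1 hw2 hw3 using hred
  let Z : ℕ → (ℕ →₀ ℤ) := fun t => Nat.rec 0 (fun _ z => z + v + w (z + v)) t
  have hZs : ∀ t, Z (t + 1) = Z t + v + w (Z t + v) := fun t => rfl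
  have hZ0 : Z 0 = 0 := rfl
  have hZsupp : ∀ t, Supp k (Z t) := by
    intro t
    induction t with
    | zero => exact Supp.zero k
    | succ t ih =>
      rw [hZs]
      exact (ih.add hvs).add (hw2 _ (ih.add hvs))
  have hZbox : ∀ t, ∀ j ≤ k, |Z t j| ≤ M := by
    intro t
    cases t with
    | zero => intro j _; rw [hZ0]; simpa using hM0
    | succ t =>
      rw [hZs]
      exact hw3 _ ((hZsupp t).add hvs)
  obtain ⟨s, t, hst, hZst⟩ := Set.Finite.exists_lt_map_eq_of_forall_mem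
    (f := Z) (fun t => (⟨hZsupp t, hZbox t⟩ : Z t ∈ {x : ℕ →₀ ℤ | Supp k x ∧ ∀ j ≤ k, |x j| ≤ M}))
    (box_finite k M)
  have hsum : ∀ d : ℕ, ∃ w', (w' = 0 ∨ w' ∈ T) ∧ Z (s + d) = Z s + d • v + w' := by
    intro d
    induction d with
    | zero => exact ⟨0, Or.inl rfl, by simp⟩
    | succ d ih =>
      obtain ⟨w', hw', he⟩ := ih
      have h1 := hw1 (Z (s + d) + v) ((hZsupp _).add hvs)
      refine ⟨w' + w (Z (s + d) + v), ?_, ?_⟩
      · rcases hw' with h | h
        · rw [h, zero_add]; exact h1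
        · rcases h1 with h2 | h2
          · rw [h2, add_zero]; exact Or.inr h
          · exact Or.inr (hT _ h _ h2)
      · rw [← add_assoc, hZs, succ_nsmul]
        nth_rewrite 1 [he]
        abel
  obtain ⟨w', hw', he⟩ := hsum (t - s)
  have hts : s + (t - s) = t := by omega
  rw [hts, ← hZst] at he
  obtain ⟨d, hd⟩ : ∃ d, t - s = d + 1 := ⟨t - s - 1, by omega⟩
  rw [hd] at he
  have h0 : (d + 1) • v + w' = 0 := by
    have : Z s + ((d + 1) • v + w') = Z s + 0 := by rw [← add_assoc, ← he, add_zero]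
    exact add_left_cancel this
  have hfin : -v = (2 * d + 1) • v + (w' + w') := by
    have e1 : (2 * d + 1) • v + (w' + w') + v = ((d + 1) • v + w') + ((d + 1) • v + w') := by
      rw [add_smul, mul_smul, two_smul, one_smul, add_smul, one_smul]; abel
    rw [h0, add_zero] at e1
    exact neg_eq_of_add_eq_zero_left e1
  rw [hfin]
  rcases hw' with h | h
  · rw [h, add_zero, add_zero]
    exact nsmul_mem_T T hT v hv _
  · exact hT _ (nsmul_mem_T T hT v hv _) _ (hT _ h _ h)

end Pool.Agent.Helpers25.AR
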