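import Pool.Agent.Helpers25.ARProbB

set_option autoImplicit false
open MeasureTheory ProbabilityTheory Filter Topology

namespace Pool.Agent.Helpers25.AR

/-- deterministic times -/
def Q (s : ℕ) : ℕ := 2 ^ (s ^ 2)

lemma Q_pos (s : ℕ) : 0 < Q s := by unfold Q; positivity

lemma Q_mono {s t : ℕ} (h : s ≤ t) : Q s ≤ Q t := by
  unfold Q
  exact Nat.pow_le_pow_right (by norm_num) (Nat.pow_le_pow_left h 2)

lemma Q_double (s : ℕ) : 2 * Q s ≤ Q (s + 1) := by
  unfold Q
  have : s ^ 2 + 1 ≤ (s + 1) ^ 2 := by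
    have h : (s + 1) ^ 2 = s ^ 2 + 2 * s + 1 := by ring
    omega
  calc 2 * 2 ^ (s ^ 2) = 2 ^ (s ^ 2 + 1) := by rw [pow_succ]; ring
    _ ≤ 2 ^ ((s + 1) ^ 2) := Nat.pow_le_pow_right (by norm_num) this

lemma Q_ratio (s : ℕ) : (Q s : ℝ) * (1 / (2 * Q (s + 1))) = (1 / 4) ^ (s + 1) := by
  unfold Q
  push_cast
  have h : (2 : ℝ) * 2 ^ ((s + 1) ^ 2) = 2 ^ (s ^ 2) * 4 ^ (s + 1) := by
    have h4 : (4 : ℝ) ^ (s + 1) = 2 ^ (2 * (s + 1)) := by
      rw [pow_mul]; norm_num
    rw [h4, ← pow_succ', ← pow_add]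
    congr 1
    ring
  rw [h, one_div_pow]
  field_simp

lemma le_Q (s : ℕ) : s ≤ Q s := by
  unfold Q
  rcases Nat.eq_zero_or_pos s with h | h
  · subst h; simp
  · calc s ≤ 2 ^ s := Nat.lt_two_pow_self.le
      _ ≤ 2 ^ (s ^ 2) := Nat.pow_le_pow_right (by norm_num) (by nlinarith)

/-- exactly one step in the time block `s` is `g s b`, the others are in `L s` -/
def hit {G : Type} (L : ℕ → Set G) (g : ℕ → Bool → G) (s : ℕ) (b : Bool) : Set (ℕ → G) :=
  one (Finset.Ico (Q s) (Q (s + 1))) (g s b) (L s)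

/-- the window event -/
def win {G : Type} (L : ℕ → Set G) (g : ℕ → Bool → G) (k : ℕ) : Set (ℕ → G) :=
  {ω | (∀ s ∈ Finset.Ico (4 ^ k) (4 ^ k + (k + 1) ^ 2), ∀ t, t < Q s → ω t ∈ L s) ∧
    ∀ i ∈ Finset.range (k + 1), ∀ b : Bool, ∃ r ∈ Finset.range (k + 1),
      ω ∈ hit L g (4 ^ k + (k + 1) * r + i) b}

section gen
variable {G : Type} [MeasurableSpace G] [DiscreteMeasurableSpace G] (μ : Measure G) [IsProbabilityMeasure μ]
variable (L : ℕ → Set G) (g : ℕ → Bool → G)

lemma hit_prob (hL : ∀ s, 1 ≤ s → 1 - 1 / (2 * (Q (s + 1) : ℝ)) ≤ μ.real (L s))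
    (hg : ∀ s, 1 ≤ s → ∀ b, 1 / (16 * (Q (s + 1) : ℝ)) ≤ μ.real {g s b})
    (hgL : ∀ s b, g s b ∉ L s) (s : ℕ) (hs : 1 ≤ s) (b : Bool) :
    1 / 64 ≤ (Measure.infinitePi (fun _ : ℕ => μ)).real (hit L g s b) := by
  unfold hit
  rw [one_prob μ _ _ _ (hgL s b), Nat.card_Ico]
  set n := Q (s + 1) - Q s with hn
  have hQ1 : (0 : ℝ) < Q (s + 1) := by exact_mod_cast Q_pos _
  have hd := Q_double s
  have hq := Q_pos s
  have hn1 : 1 ≤ n := by omega
  have hnle : (n : ℝ) ≤ Q (s + 1) := by exact_mod_cast Nat.sub_le _ _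
  have hnge : (Q (s + 1) : ℝ) / 2 ≤ n := by
    have : Q (s + 1) ≤ 2 * n := by omega
    have h2 : (Q (s + 1) : ℝ) ≤ 2 * n := by exact_mod_cast this
    linarith
  set x : ℝ := 1 / (2 * (Q (s + 1) : ℝ)) with hx
  have hx0 : 0 < x := by positivity
  have hQge : (1 : ℝ) ≤ Q (s + 1) := by exact_mod_cast Q_pos _
  have hx1 : x ≤ 1 / 2 := by
    rw [hx]
    apply one_div_le_one_div_of_le (by norm_num)
    linarith
  have hpow : 1 / 2 ≤ μ.real (L s) ^ (n - 1) := by
    have h1 : 1 - x ≤ μ.real (L s) := hL s hs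
    have h2 : (1 - x) ^ (n - 1) ≤ μ.real (L s) ^ (n - 1) := pow_le_pow_left₀ (by linarith) h1 _
    have h3 := one_add_mul_le_pow (a := -x) (by linarith) (n - 1)
    have h4 : (1 + -x) = 1 - x := by ring
    rw [h4] at h3
    have h5 : ((n - 1 : ℕ) : ℝ) * x ≤ 1 / 2 := by
      have h6 : ((n - 1 : ℕ) : ℝ) ≤ Q (s + 1) := by
        refine le_trans ?_ hnle
        exact_mod_cast Nat.sub_le _ _
      calc ((n - 1 : ℕ) : ℝ) * x ≤ Q (s + 1) * x := mul_le_mul_of_nonneg_right h6 hx0.le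
        _ = 1 / 2 := by rw [hx]; field_simp
    nlinarith
  have hgs := hg s hs b
  calc (1 : ℝ) / 64 = (Q (s + 1) / 2) * (1 / (16 * (Q (s + 1) : ℝ)) * (1 / 2)) := by
        field_simp; norm_num
    _ ≤ n * (μ.real {g s b} * μ.real (L s) ^ (n - 1)) := by
        gcongr

lemma win_prob (hL : ∀ s, 1 ≤ s → 1 - 1 / (2 * (Q (s + 1) : ℝ)) ≤ μ.real (L s))
    (hg : ∀ s, 1 ≤ s → ∀ b, 1 / (16 * (Q (s + 1) : ℝ)) ≤ μ.real {g s b})
    (hgL : ∀ s b, g s b ∉ L s) (k : ℕ) :
    (Measure.infinitePi (fun _ : ℕ => μ)).real (win L g k)ᶜ ≤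
      ((k + 1 : ℕ) : ℝ) ^ 2 * (1 / 4) ^ (k + 1) + 2 * (((k + 1 : ℕ) : ℝ) * (63 / 64) ^ (k + 1)) := by
  have hk4 : k ≤ 4 ^ k := (Nat.lt_pow_self (by norm_num)).le
  have h4pos : 1 ≤ 4 ^ k := Nat.one_le_pow _ _ (by norm_num)
  have hsub : (win L g k)ᶜ ⊆
      (⋃ s ∈ Finset.Ico (4 ^ k) (4 ^ k + (k + 1) ^ 2), {ω : ℕ → G | ∃ t, t < Q s ∧ ω t ∉ L s}) ∪
      (⋃ i ∈ Finset.range (k + 1), ⋃ b ∈ (Finset.univ : Finset Bool),
        ⋂ r ∈ Finset.range (k + 1), (hit L g (4 ^ k + (k + 1) * r + i) b)ᶜ) := by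
    intro ω hω
    by_contra hcon
    apply hω
    simp only [Set.mem_union, Set.mem_iUnion, Set.mem_iInter, not_or, not_exists,
      Set.mem_ofPred_eq, Set.mem_compl_iff, not_and, not_forall, not_not] at hcon
    obtain ⟨h1, h2⟩ := hcon
    refine ⟨fun s hs t ht => h1 s hs t ht, fun i hi b => ?_⟩
    obtain ⟨r, hr, hr2⟩ := h2 i hi b (Finset.mem_univ b)
    exact ⟨r, hr, hr2⟩
  refine (measureReal_mono hsub).trans ((measureReal_union_le _ _).trans (add_le_add ?_ ?_))
  · refine (measureReal_biUnion_finset_le _ _).trans ?_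
    calc ∑ s ∈ Finset.Ico (4 ^ k) (4 ^ k + (k + 1) ^ 2),
          (Measure.infinitePi (fun _ : ℕ => μ)).real {ω : ℕ → G | ∃ t, t < Q s ∧ ω t ∉ L s}
        ≤ ∑ s ∈ Finset.Ico (4 ^ k) (4 ^ k + (k + 1) ^ 2), (1 / 4 : ℝ) ^ (k + 1) := by
          apply Finset.sum_le_sum
          intro s hs
          rw [Finset.mem_Ico] at hs
          refine (out_prob μ (Q s) (L s) _ (hL s (by omega))).trans ?_
          rw [Q_ratio]
          apply pow_le_pow_of_le_one (by norm_num) (by norm_num)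
          omega
      _ = ((k + 1 : ℕ) : ℝ) ^ 2 * (1 / 4) ^ (k + 1) := by
          rw [Finset.sum_const, Nat.card_Ico, nsmul_eq_mul]
          congr 1
          rw [Nat.add_sub_cancel_left]
          push_cast; ring
  · refine (measureReal_biUnion_finset_le _ _).trans ?_
    calc ∑ i ∈ Finset.range (k + 1), (Measure.infinitePi (fun _ : ℕ => μ)).real
          (⋃ b ∈ (Finset.univ : Finset Bool),
            ⋂ r ∈ Finset.range (k + 1), (hit L g (4 ^ k + (k + 1) * r + i) b)ᶜ)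
        ≤ ∑ i ∈ Finset.range (k + 1), 2 * (63 / 64 : ℝ) ^ (k + 1) := by
          apply Finset.sum_le_sum
          intro i hi
          refine (measureReal_biUnion_finset_le _ _).trans ?_
          calc ∑ b ∈ (Finset.univ : Finset Bool), (Measure.infinitePi (fun _ : ℕ => μ)).real
                (⋂ r ∈ Finset.range (k + 1), (hit L g (4 ^ k + (k + 1) * r + i) b)ᶜ)
              ≤ ∑ b ∈ (Finset.univ : Finset Bool), (63 / 64 : ℝ) ^ (k + 1) := by
                apply Finset.sum_le_sum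
                intro b _
                have hsb := seq_bound μ (fun r => hit L g (4 ^ k + (k + 1) * r + i) b)
                  (fun r => Q (4 ^ k + (k + 1) * r + i)) (fun r => Q (4 ^ k + (k + 1) * r + i + 1))
                  (fun r => Q_mono (by omega))
                  (fun r => Q_mono (by
                    have : (k + 1) * (r + 1) = (k + 1) * r + (k + 1) := by ring
                    omega))
                  (fun r => by
                    have := one_meas (G := G) (Finset.Ico (Q (4 ^ k + (k + 1) * r + i))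
                      (Q (4 ^ k + (k + 1) * r + i + 1))) (g (4 ^ k + (k + 1) * r + i) b)
                      (L (4 ^ k + (k + 1) * r + i))
                    rw [Finset.coe_Ico] at this
                    exact this)
                  (1 / 64)
                  (fun r => hit_prob μ L g hL hg hgL _ (by omega) b) (by norm_num) (k + 1)
                have h := hsb.2
                norm_num at h ⊢
                exact h
            _ = 2 * (63 / 64 : ℝ) ^ (k + 1) := by simp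
      _ = 2 * (((k + 1 : ℕ) : ℝ) * (63 / 64) ^ (k + 1)) := by
          rw [Finset.sum_const, Finset.card_range, nsmul_eq_mul]; ring

lemma win_ae (hL : ∀ s, 1 ≤ s → 1 - 1 / (2 * (Q (s + 1) : ℝ)) ≤ μ.real (L s))
    (hg : ∀ s, 1 ≤ s → ∀ b, 1 / (16 * (Q (s + 1) : ℝ)) ≤ μ.real {g s b})
    (hgL : ∀ s b, g s b ∉ L s) :
    ∀ᵐ ω ∂(Measure.infinitePi (fun _ : ℕ => μ)), ∀ K : ℕ, ∃ k, K ≤ k ∧ ω ∈ win L g k := by
  rw [ae_all_iff]
  intro K
  rw [ae_iff, ← measureReal_eq_zero_iff]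
  apply le_antisymm _ measureReal_nonneg
  have hlim : Tendsto (fun k : ℕ => ((k + 1 : ℕ) : ℝ) ^ 2 * (1 / 4) ^ (k + 1) +
      2 * (((k + 1 : ℕ) : ℝ) * (63 / 64) ^ (k + 1))) atTop (𝓝 (0 + 2 * 0)) := by
    apply Tendsto.add
    · exact (tendsto_pow_const_mul_const_pow_of_lt_one 2 (r := (1 / 4 : ℝ)) (by norm_num)
        (by norm_num)).comp (tendsto_add_atTop_nat 1)
    · apply Tendsto.const_mul
      have := (tendsto_pow_const_mul_const_pow_of_lt_one 1 (r := (63 / 64 : ℝ)) (by norm_num)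
        (by norm_num)).comp (tendsto_add_atTop_nat 1)
      simpa [Function.comp_def] using this
  simp only [mul_zero, add_zero] at hlim
  refine ge_of_tendsto hlim ?_
  filter_upwards [eventually_ge_atTop K] with k hk
  refine le_trans (measureReal_mono ?_) (win_prob μ L g hL hg hgL k)
  intro ω hω hω2
  exact hω ⟨k, hk, hω2⟩

lemma recur_ae [Countable G] :
    ∀ᵐ ω ∂(Measure.infinitePi (fun _ : ℕ => μ)), ∀ x : G, μ {x} ≠ 0 → ∀ n : ℕ, ∃ m, n ≤ m ∧ ω m = x := by
  rw [ae_all_iff]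
  intro x
  by_cases hx : μ {x} = 0
  · exact ae_of_all _ (fun ω h => absurd hx h)
  have hp : 0 < μ.real {x} := by
    rw [measureReal_def]
    exact ENNReal.toReal_pos hx (measure_ne_top _ _)
  have : ∀ᵐ ω ∂(Measure.infinitePi (fun _ : ℕ => μ)), ∀ n : ℕ, ∃ m, n ≤ m ∧ ω m = x := by
    rw [ae_all_iff]
    intro n
    rw [ae_iff, ← measureReal_eq_zero_iff]
    apply le_antisymm _ measureReal_nonneg
    have hp1 : μ.real {x} ≤ 1 := measureReal_le_one
    have hlim : Tendsto (fun R : ℕ => (1 - μ.real {x}) ^ R) atTop (𝓝 0) :=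
      tendsto_pow_atTop_nhds_zero_of_lt_one (by linarith) (by linarith)
    refine ge_of_tendsto' hlim ?_
    intro R
    have hsb := seq_bound μ (fun r => {ω : ℕ → G | ω (n + r) ∈ ({x} : Set G)}) (fun r => n + r) (fun r => n + r + 1)
      (fun r => by omega) (fun r => by omega)
      (fun r => fil_coord (by simp) _) (μ.real {x})
      (fun r => by
        have h2 := Measure.infinitePi_map_eval (fun _ : ℕ => μ) (n + r)
        have h3 : Measure.infinitePi (fun _ : ℕ => μ) {ω : ℕ → G | ω (n + r) ∈ ({x} : Set G)} = μ {x} := by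
          conv_rhs => rw [← h2]
          rw [Measure.map_apply (measurable_pi_apply _) MeasurableSet.of_discrete]
          rfl
        simp only [Measure.real]
        rw [h3]) hp1 R
    refine le_trans (measureReal_mono ?_) hsb.2
    intro ω hω
    simp only [Set.mem_iInter, Set.mem_compl_iff, Set.mem_ofPred_eq, Set.mem_singleton_iff]
    intro r _ hr
    exact hω ⟨n + r, by omega, hr⟩
  filter_upwards [this] with ω h _ n
  exact h n

end gen

end Pool.Agent.Helpers25.AR
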