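import Pool.Agent.Helpers25.ARDefs
import Pool.Agent.Helpers25.ARProbB2
import Pool.Agent.Helpers25.ARDet

set_option autoImplicit false
open MeasureTheory ProbabilityTheory Filter Topology

namespace Pool.Agent.Helpers25.AR

/-- window index of a scale -/
def kap (s : ℕ) : ℕ := Nat.log 4 s

/-- coordinate of a scale -/
def crd (s : ℕ) : ℕ := (s - 4 ^ kap s) % (kap s + 1)

/-- size of a scale -/
def NN : ℕ → ℕ
  | 0 => 1
  | s + 1 => 2 * Q (s + 2) * NN s

/-- a step of scale `s` -/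
noncomputable def step (q : ℕ × Bool × Bool) : ℕ →₀ ℤ :=
  Finsupp.single (crd q.1) (sgn q.2.1 * (if q.2.2 then (NN q.1 : ℤ) else 1))

/-- steps of scale `< s` -/
def LL (s : ℕ) : Set (ℕ →₀ ℤ) := {x | ∃ q : ℕ × Bool × Bool, q.1 < s ∧ x = step q}

/-- the large steps -/
noncomputable def gg (s : ℕ) (b : Bool) : ℕ →₀ ℤ := step (s, b, true)

lemma crd_le (s : ℕ) : crd s ≤ kap s := by
  unfold crd
  exact Nat.lt_succ_iff.mp (Nat.mod_lt _ (Nat.succ_pos _))

lemma kap_mono {s t : ℕ} (h : s ≤ t) : kap s ≤ kap t := Nat.log_mono_right h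

lemma NN_pos (s : ℕ) : 1 ≤ NN s := by
  induction s with
  | zero => exact le_rfl
  | succ s ih =>
    have := Q_pos (s + 2)
    show 1 ≤ 2 * Q (s + 2) * NN s
    nlinarith [Nat.mul_pos (Nat.mul_pos two_pos this) ih]

lemma NN_lt (s : ℕ) : NN s < NN (s + 1) := by
  have := Q_pos (s + 2)
  have h := NN_pos s
  show NN s < 2 * Q (s + 2) * NN s
  nlinarith

lemma NN_strictMono : StrictMono NN := strictMono_nat_of_lt_succ NN_lt

lemma abs_sgn (b : Bool) : |sgn b| = 1 := by
  cases b <;> simp [sgn]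

lemma gg_notMem (s : ℕ) (b : Bool) : gg s b ∉ LL s := by
  rintro ⟨q, hq, he⟩
  unfold gg step at he
  have h1 : ∀ z : ℤ, l1 (crd s) (Finsupp.single (crd s) z) = |z| := by
    intro z
    unfold l1
    rw [Finset.sum_eq_single (crd s)]
    · simp
    · intro j _ hj
      rw [Finsupp.single_eq_of_ne hj]; simp
    · intro h; simp at h
  have h2 := congrArg (l1 (crd s)) he
  have h3 := l1_single_le (crd s) (crd q.1) (sgn q.2.1 * (if q.2.2 then (NN q.1 : ℤ) else 1))
  rw [← h2, h1] at h3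
  rw [abs_mul, abs_mul, abs_sgn, abs_sgn, one_mul, one_mul] at h3
  have h4 : NN q.1 < NN s := NN_strictMono hq
  have h5 := NN_pos q.1
  split_ifs at h3 with hh hh2
  · simp only [Nat.abs_cast] at h3; omega
  · simp only [Nat.abs_cast] at h3
    simp at h3; omega
  · exact absurd rfl hh
  · exact absurd rfl hh

lemma LL_supp (s : ℕ) (x : ℕ →₀ ℤ) (hx : x ∈ LL s) : Supp (kap s) x := by
  obtain ⟨q, hq, rfl⟩ := hx
  intro j hj
  unfold step
  rw [Finsupp.single_eq_of_ne]
  have h1 := crd_le q.1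
  have h2 := kap_mono hq.le
  omega

lemma LL_l1 (s : ℕ) (k : ℕ) (x : ℕ →₀ ℤ) (hx : x ∈ LL s) : 2 * (Q (s + 1) : ℤ) * l1 k x ≤ NN s := by
  obtain ⟨q, hq, rfl⟩ := hx
  cases s with
  | zero => exact absurd hq (Nat.not_lt_zero _)
  | succ s =>
    have h3 := l1_single_le k (crd q.1) (sgn q.2.1 * (if q.2.2 then (NN q.1 : ℤ) else 1))
    rw [abs_mul, abs_sgn, one_mul] at h3
    have h4 : |(if q.2.2 then (NN q.1 : ℤ) else 1)| ≤ NN s := by
      have h5 : NN q.1 ≤ NN s := NN_strictMono.monotone (by omega)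
      have h6 := NN_pos s
      split_ifs
      · simp only [Nat.abs_cast]; exact_mod_cast h5
      · simp only [abs_one]; exact_mod_cast h6
    have h7 : l1 k (step q) ≤ NN s := h3.trans h4
    have h8 : ((NN (s + 1) : ℕ) : ℤ) = 2 * (Q (s + 1 + 1) : ℤ) * NN s := by
      have : NN (s + 1) = 2 * Q (s + 2) * NN s := rfl
      rw [this]; push_cast; rfl
    rw [h8]
    exact mul_le_mul_of_nonneg_left h7 (by positivity)

lemma gg_supp (s : ℕ) (b : Bool) : Supp (kap s) (gg s b) := by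
  intro j hj
  unfold gg step
  rw [Finsupp.single_eq_of_ne]
  have h1 := crd_le s
  simp only
  omega

lemma sum_supp {k : ℕ} {ι : Type} (F : Finset ι) (f : ι → (ℕ →₀ ℤ)) (h : ∀ i ∈ F, Supp k (f i)) :
    Supp k (∑ i ∈ F, f i) := by
  classical
  induction F using Finset.induction_on with
  | empty => simpa using Supp.zero k
  | insert a F ha ih =>
    rw [Finset.sum_insert ha]
    exact (h a (Finset.mem_insert_self _ _)).add (ih (fun i hi => h i (Finset.mem_insert_of_mem hi)))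

lemma sum_l1 {k : ℕ} {ι : Type} (F : Finset ι) (f : ι → (ℕ →₀ ℤ)) :
    l1 k (∑ i ∈ F, f i) ≤ ∑ i ∈ F, l1 k (f i) := by
  classical
  induction F using Finset.induction_on with
  | empty => simp [l1]
  | insert a F ha ih =>
    rw [Finset.sum_insert ha, Finset.sum_insert ha]
    exact (l1_add _ _ _).trans (add_le_add le_rfl ih)

/-- the position at the end of the time block `s` -/
lemma pos_struct (ω : ℕ → (ℕ →₀ ℤ)) (s : ℕ) (b : Bool) (hω : ω ∈ hit LL gg s b)
    (hlow : ∀ t, t < Q s → ω t ∈ LL s) :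
    Supp (kap s) (∑ t ∈ Finset.range (Q (s + 1)), ω t) ∧
    2 * l1 (kap s) ((∑ t ∈ Finset.range (Q (s + 1)), ω t) - Finsupp.single (crd s) (sgn b * NN s)) ≤ NN s := by
  unfold hit one at hω
  simp only [Set.mem_iUnion, Set.mem_ofPred_eq] at hω
  obtain ⟨t0, ht0, hg, hrest⟩ := hω
  have ht0' : t0 ∈ Finset.range (Q (s + 1)) := by
    rw [Finset.mem_Ico] at ht0; exact Finset.mem_range.mpr ht0.2
  have hL : ∀ t ∈ (Finset.range (Q (s + 1))).erase t0, ω t ∈ LL s := by
    intro t ht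
    rw [Finset.mem_erase, Finset.mem_range] at ht
    rcases lt_or_ge t (Q s) with h | h
    · exact hlow t h
    · exact hrest t (Finset.mem_Ico.mpr ⟨h, ht.2⟩) ht.1
  have hsplit : ∑ t ∈ Finset.range (Q (s + 1)), ω t = gg s b +
      ∑ t ∈ (Finset.range (Q (s + 1))).erase t0, ω t := by
    rw [← Finset.add_sum_erase _ _ ht0', hg]
  rw [hsplit]
  constructor
  · exact (gg_supp s b).add (sum_supp _ _ (fun t ht => LL_supp s _ (hL t ht)))
  · have hgg : gg s b = Finsupp.single (crd s) (sgn b * NN s) := by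
      unfold gg step; simp
    rw [hgg, add_sub_cancel_left]
    have h1 := sum_l1 (k := kap s) ((Finset.range (Q (s + 1))).erase t0) ω
    have h2 : (Q (s + 1) : ℤ) * (2 * ∑ t ∈ (Finset.range (Q (s + 1))).erase t0, l1 (kap s) (ω t)) ≤
        Q (s + 1) * NN s := by
      calc (Q (s + 1) : ℤ) * (2 * ∑ t ∈ (Finset.range (Q (s + 1))).erase t0, l1 (kap s) (ω t))
          = ∑ t ∈ (Finset.range (Q (s + 1))).erase t0, 2 * (Q (s + 1) : ℤ) * l1 (kap s) (ω t) := by
            rw [Finset.mul_sum, Finset.mul_sum]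
            apply Finset.sum_congr rfl
            intro t _; ring
        _ ≤ ∑ t ∈ (Finset.range (Q (s + 1))).erase t0, (NN s : ℤ) :=
            Finset.sum_le_sum (fun t ht => LL_l1 s _ _ (hL t ht))
        _ ≤ Q (s + 1) * NN s := by
            rw [Finset.sum_const, nsmul_eq_mul]
            apply mul_le_mul_of_nonneg_right _ (by positivity)
            have := Finset.card_erase_le (s := Finset.range (Q (s + 1))) (a := t0)
            rw [Finset.card_range] at this
            exact_mod_cast this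
    have hQ : (0 : ℤ) < Q (s + 1) := by exact_mod_cast Q_pos _
    have h3 := le_of_mul_le_mul_left h2 hQ
    linarith

lemma sq_le_four_pow (k : ℕ) : (k + 1) ^ 2 ≤ 4 ^ k := by
  have h : k + 1 ≤ 2 ^ k := Nat.lt_two_pow_self
  calc (k + 1) ^ 2 ≤ (2 ^ k) ^ 2 := Nat.pow_le_pow_left h 2
    _ = 4 ^ k := by rw [← pow_mul, mul_comm, pow_mul]; norm_num

lemma scale_lt (k r i : ℕ) (hr : r ≤ k) (hi : i ≤ k) : (k + 1) * r + i < (k + 1) ^ 2 := by
  have : (k + 1) * r ≤ (k + 1) * k := Nat.mul_le_mul_left _ hr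
  have h2 : (k + 1) ^ 2 = (k + 1) * k + (k + 1) := by ring
  omega

lemma kap_scale (k r i : ℕ) (hr : r ≤ k) (hi : i ≤ k) : kap (4 ^ k + (k + 1) * r + i) = k := by
  unfold kap
  rw [Nat.log_eq_iff (Or.inr ⟨by norm_num, by positivity⟩)]
  have h1 := scale_lt k r i hr hi
  have h2 := sq_le_four_pow k
  have h3 : 4 ^ (k + 1) = 4 * 4 ^ k := by ring
  constructor <;> omega

lemma crd_scale (k r i : ℕ) (hr : r ≤ k) (hi : i ≤ k) : crd (4 ^ k + (k + 1) * r + i) = i := by
  unfold crd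
  rw [kap_scale k r i hr hi]
  have : 4 ^ k + (k + 1) * r + i - 4 ^ k = i + (k + 1) * r := by omega
  rw [this, Nat.add_mul_mod_self_left]
  exact Nat.mod_eq_of_lt (by omega)

/-- the deterministic conclusion -/
lemma main_det (ω : ℕ → (ℕ →₀ ℤ)) (h1 : ∀ K : ℕ, ∃ k, K ≤ k ∧ ω ∈ win LL gg k)
    (h2 : ∀ q : ℕ × Bool × Bool, ∀ n : ℕ, ∃ m, n ≤ m ∧ ω m = step q) (n : ℕ)
    (T : Set (ℕ →₀ ℤ)) (hT : ∀ x ∈ T, ∀ y ∈ T, x + y ∈ T)
    (hX : ∀ m, n ≤ m → ∑ t ∈ Finset.range m, ω t ∈ T) : ∀ q : ℕ × Bool × Bool, step q ∈ T := by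
  -- negatives
  have hneg : ∀ m, n ≤ m → -(∑ t ∈ Finset.range m, ω t) ∈ T := by
    intro m hm
    set v := ∑ t ∈ Finset.range m, ω t with hv
    obtain ⟨B, hB⟩ : ∃ B : ℕ, ∀ j, B < j → v j = 0 := by
      refine ⟨v.support.sup id, fun j hj => ?_⟩
      by_contra hne
      have : j ≤ v.support.sup id := Finset.le_sup (f := id) (Finsupp.mem_support_iff.mpr hne)
      omega
    obtain ⟨k, hk, hwin⟩ := h1 (max B n)
    have hkB : B ≤ k := le_trans (le_max_left _ _) hk
    have hkn : n ≤ k := le_trans (le_max_right _ _) hk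
    obtain ⟨hw1, hw2⟩ := hwin
    have hex : ∀ i ≤ k, ∀ b : Bool, ∃ r ≤ k, ω ∈ hit LL gg (4 ^ k + (k + 1) * r + i) b := by
      intro i hi b
      obtain ⟨r, hr, hh⟩ := hw2 i (Finset.mem_range.mpr (by omega)) b
      exact ⟨r, by rw [Finset.mem_range] at hr; omega, hh⟩
    choose! r hr hhit using hex
    have hstr : ∀ i ≤ k, ∀ b, Supp k (∑ t ∈ Finset.range (Q (4 ^ k + (k + 1) * r i b + i + 1)), ω t) ∧
        2 * l1 k ((∑ t ∈ Finset.range (Q (4 ^ k + (k + 1) * r i b + i + 1)), ω t) -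
          Finsupp.single i (sgn b * (NN (4 ^ k + (k + 1) * r i b + i) : ℤ))) ≤
          NN (4 ^ k + (k + 1) * r i b + i) := by
      intro i hi b
      have hp := pos_struct ω (4 ^ k + (k + 1) * r i b + i) b (hhit i hi b) (by
        intro t ht
        refine hw1 _ ?_ t ht
        rw [Finset.mem_Ico]
        have := scale_lt k (r i b) i (hr i hi b) hi
        omega)
      rw [kap_scale k (r i b) i (hr i hi b) hi, crd_scale k (r i b) i (hr i hi b) hi] at hp
      exact hp
    refine neg_mem_T T hT k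
      (fun i b => ∑ t ∈ Finset.range (Q (4 ^ k + (k + 1) * r i b + i + 1)), ω t)
      (fun i b => (NN (4 ^ k + (k + 1) * r i b + i) : ℤ)) ?_ ?_ ?_ ?_ v (hX m hm) ?_
    · intro i hi b
      apply hX
      have h3 := le_Q (4 ^ k + (k + 1) * r i b + i + 1)
      have h4 : k ≤ 4 ^ k := (Nat.lt_pow_self (by norm_num)).le
      omega
    · intro i hi b
      exact_mod_cast NN_pos _
    · intro i hi b
      exact (hstr i hi b).1
    · intro i hi b
      exact (hstr i hi b).2
    · intro j hj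
      exact hB j (by omega)
  intro q
  obtain ⟨m, hm, he⟩ := h2 q n
  have h3 := hT _ (hX (m + 1) (by omega)) _ (hneg m hm)
  rw [Finset.sum_range_succ, he] at h3
  have h4 : (∑ t ∈ Finset.range m, ω t) + step q + -(∑ t ∈ Finset.range m, ω t) = step q := by abel
  rwa [h4] at h3

end Pool.Agent.Helpers25.AR
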