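import Mathlib

set_option autoImplicit false
open MeasureTheory

namespace Pool.Agent.Helpers25.AR

/-- The position `X_n = ζ_1 ζ_2 ⋯ ζ_n` of the walk with steps `ζ_{i+1} = ω i`. -/
def walk {G : Type} [Group G] (ω : ℕ → G) (n : ℕ) : G := ((List.range n).map ω).prod

/-- The semigroup `S_n` generated by `{X_n, X_{n+1}, …}`. -/
def semi {G : Type} [Group G] (ω : ℕ → G) (n : ℕ) : Subsemigroup G :=
  Subsemigroup.closure {g | ∃ m : ℕ, n ≤ m ∧ g = walk ω m}

/-- `μ` is symmetric and its support generates `G` as a group. -/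
def Admissible {G : Type} [Group G] (μ : PMF G) : Prop :=
  (∀ g : G, μ g⁻¹ = μ g) ∧ Subgroup.closure μ.support = ⊤

/-- `(G, μ)` is algebraically recurrent: for every `n ≥ 1`, `S_n = G` almost surely, where
the steps of the walk are i.i.d. with law `μ`. -/
def AlgRecurrent {G : Type} [Group G] (μ : PMF G) : Prop :=
  letI : MeasurableSpace G := ⊤
  ∀ n : ℕ, 1 ≤ n → ∀ᵐ ω ∂(Measure.infinitePi (fun _ : ℕ => μ.toMeasure)), semi ω n = ⊤

end Pool.Agent.Helpers25.AR
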