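import Pool.Agent.Helpers25.ARB

set_option autoImplicit false
open MeasureTheory ProbabilityTheory Filter Topology

namespace Pool.Agent.Helpers25.AR

/-- the free abelian group of countable rank, written multiplicatively -/
abbrev GG := Multiplicative (ℕ →₀ ℤ)

lemma toAdd_walk (ω : ℕ → GG) (n : ℕ) :
    Multiplicative.toAdd (walk ω n) = ∑ t ∈ Finset.range n, Multiplicative.toAdd (ω t) := by
  induction n with
  | zero => simp [walk]
  | succ n ih =>
    rw [Finset.sum_range_succ, ← ih]
    simp [walk, List.range_succ]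

lemma symm_map {P G : Type} [Group G] (p : PMF P) (f : P → G) (e : P ≃ P)
    (he : ∀ q, f (e q) = (f q)⁻¹) (hp : ∀ q, p (e q) = p q) (g : G) :
    (p.map f) g⁻¹ = (p.map f) g := by
  classical
  rw [PMF.map_apply, PMF.map_apply, ← Equiv.tsum_eq e]
  apply tsum_congr
  intro q
  rw [he, hp]
  simp only [inv_inj]

/-- tail function -/
noncomputable def WW (s : ℕ) : ℝ := if s = 0 then 1 else 1 / (2 * (Q (s + 1) : ℝ))

lemma WW_le (s : ℕ) : WW (s + 1) ≤ WW s / 2 := by
  unfold WW
  rw [if_neg (Nat.succ_ne_zero s)]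
  have h1 : (0 : ℝ) < Q (s + 1) := by exact_mod_cast Q_pos _
  have h2 : (0 : ℝ) < Q (s + 1 + 1) := by exact_mod_cast Q_pos _
  have h3 : 2 * (Q (s + 1) : ℝ) ≤ Q (s + 1 + 1) := by exact_mod_cast Q_double (s + 1)
  have h4 : (1 : ℝ) ≤ Q (s + 1) := by exact_mod_cast Q_pos _
  split_ifs with h
  · apply one_div_le_one_div_of_le (by norm_num)
    linarith
  · rw [div_div]
    apply one_div_le_one_div_of_le (by positivity)
    linarith

lemma WW_pos (s : ℕ) : 0 < WW s := by
  unfold WW
  have h2 : (0 : ℝ) < Q (s + 1) := by exact_mod_cast Q_pos _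
  split_ifs <;> positivity

lemma WW_tendsto : Tendsto WW atTop (𝓝 0) := by
  have h : ∀ s, WW s ≤ (1 / 2) ^ s := by
    intro s
    induction s with
    | zero => simp [WW]
    | succ s ih =>
      have := WW_le s
      rw [pow_succ]; linarith
  refine squeeze_zero (fun s => (WW_pos s).le) h ?_
  exact tendsto_pow_atTop_nhds_zero_of_lt_one (by norm_num) (by norm_num)

lemma WW_hasSum : HasSum (fun s => WW s - WW (s + 1)) 1 := by
  rw [hasSum_iff_tendsto_nat_of_nonneg]
  · have h : ∀ n, ∑ s ∈ Finset.range n, (WW s - WW (s + 1)) = 1 - WW n := by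
      intro n
      rw [Finset.sum_range_sub']
      simp [WW]
    simp only [h]
    have := WW_tendsto.const_sub 1
    simpa using this
  · intro s
    have h1 := WW_le s
    have h2 := WW_pos s
    linarith

/-- the parameter law -/
noncomputable def pB : PMF (ℕ × Bool × Bool) :=
  ⟨fun q => ENNReal.ofReal ((WW q.1 - WW (q.1 + 1)) / 4), by
    rw [ENNReal.summable.hasSum_iff, ENNReal.tsum_prod']
    have h0 : ∀ s, 0 ≤ WW s - WW (s + 1) := by
      intro s
      have h1 := WW_le s
      have h2 := WW_pos s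
      linarith
    have h1 : ∀ s : ℕ, ∑' b : Bool × Bool, ENNReal.ofReal ((WW s - WW (s + 1)) / 4) =
        ENNReal.ofReal (WW s - WW (s + 1)) := by
      intro s
      rw [tsum_fintype, Finset.sum_const]
      simp only [Finset.card_univ, Fintype.card_prod, Fintype.card_bool, nsmul_eq_mul]
      rw [← ENNReal.ofReal_natCast, ← ENNReal.ofReal_mul (by positivity)]
      congr 1
      push_cast; ring
    simp only [h1]
    rw [← ENNReal.ofReal_tsum_of_nonneg h0 WW_hasSum.summable, WW_hasSum.tsum_eq, ENNReal.ofReal_one]⟩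

lemma pB_apply (q : ℕ × Bool × Bool) : pB q = ENNReal.ofReal ((WW q.1 - WW (q.1 + 1)) / 4) := rfl

lemma pB_pos (q : ℕ × Bool × Bool) : pB q ≠ 0 := by
  rw [pB_apply]
  have h1 := WW_le q.1
  have h2 := WW_pos q.1
  have : 0 < (WW q.1 - WW (q.1 + 1)) / 4 := by linarith
  exact (ENNReal.ofReal_pos.mpr this).ne'

/-- the law of the algebraically recurrent walk -/
noncomputable def muB : PMF GG := pB.map (fun q => Multiplicative.ofAdd (step q))

lemma muB_symm (g : GG) : muB g⁻¹ = muB g := by
  refine symm_map pB _ ((Equiv.refl ℕ).prodCongr ((Equiv.boolNot).prodCongr (Equiv.refl Bool))) ?_ ?_ g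
  · intro q
    rw [← ofAdd_neg]
    congr 1
    unfold step
    rw [← Finsupp.single_neg]
    obtain ⟨s, b, b'⟩ := q
    cases b <;> cases b' <;> simp [sgn]
  · intro q
    rfl

lemma muB_mem (q : ℕ × Bool × Bool) : Multiplicative.ofAdd (step q) ∈ muB.support := by
  unfold muB
  rw [PMF.mem_support_map_iff]
  exact ⟨q, (PMF.mem_support_iff _ _).mpr (pB_pos q), rfl⟩

lemma closure_top (H : Subgroup GG) (h : ∀ i : ℕ, Multiplicative.ofAdd (Finsupp.single i (1 : ℤ)) ∈ H) :
    H = ⊤ := by
  rw [eq_top_iff]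
  intro x _
  have key : ∀ y : ℕ →₀ ℤ, Multiplicative.ofAdd y ∈ H := by
    intro y
    induction y using Finsupp.induction_linear with
    | zero => exact H.one_mem
    | add f g hf hg => rw [ofAdd_add]; exact H.mul_mem hf hg
    | single i z =>
      have : Finsupp.single i z = z • Finsupp.single i (1 : ℤ) := by
        rw [Finsupp.smul_single, smul_eq_mul, mul_one]
      rw [this, ofAdd_zsmul]
      exact H.zpow_mem (h i) z
  exact key (Multiplicative.toAdd x)

lemma muB_gen : Subgroup.closure muB.support = ⊤ := by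
  apply closure_top
  intro i
  apply Subgroup.subset_closure
  have h := muB_mem (4 ^ i + (i + 1) * 0 + i, true, false)
  have h2 : step (4 ^ i + (i + 1) * 0 + i, true, false) = Finsupp.single i 1 := by
    unfold step
    simp only
    rw [crd_scale i 0 i (Nat.zero_le _) le_rfl]
    simp [sgn]
  rwa [h2] at h

lemma muB_admissible : Admissible muB := ⟨muB_symm, muB_gen⟩

instance : Countable GG := inferInstanceAs (Countable (ℕ →₀ ℤ))

/-- steps of scale `< s` -/
def LG (s : ℕ) : Set GG := {x | Multiplicative.toAdd x ∈ LL s}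

/-- the large steps -/
noncomputable def gG (s : ℕ) (b : Bool) : GG := Multiplicative.ofAdd (gg s b)

lemma gG_notMem (s : ℕ) (b : Bool) : gG s b ∉ LG s := gg_notMem s b

lemma win_toAdd (ω : ℕ → GG) (k : ℕ) (h : ω ∈ win LG gG k) :
    (fun t => Multiplicative.toAdd (ω t)) ∈ win LL gg k := by
  refine ⟨fun s hs t ht => h.1 s hs t ht, fun i hi b => ?_⟩
  obtain ⟨r, hr, hh⟩ := h.2 i hi b
  refine ⟨r, hr, ?_⟩
  unfold hit one at hh ⊢
  simp only [Set.mem_iUnion, Set.mem_ofPred_eq] at hh ⊢
  obtain ⟨t, ht, h1, h2⟩ := hh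
  refine ⟨t, ht, ?_, fun t' ht' hne => h2 t' ht' hne⟩
  rw [h1]; rfl

theorem muB_AR : AlgRecurrent muB := by
  let _ : MeasurableSpace GG := ⊤
  have : DiscreteMeasurableSpace GG := ⟨fun _ => trivial⟩
  intro n _
  have hreal : ∀ S : Set GG, muB.toMeasure.real S = (pB.toOuterMeasure
      ((fun q => Multiplicative.ofAdd (step q)) ⁻¹' S)).toReal := by
    intro S
    rw [Measure.real, PMF.toMeasure_apply_eq_toOuterMeasure]
    unfold muB
    rw [PMF.toOuterMeasure_map_apply]
  have hfin : ∀ S : Set (ℕ × Bool × Bool), pB.toOuterMeasure S ≠ ⊤ := by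
    intro S
    have h1 : pB.toOuterMeasure S ≤ pB.toOuterMeasure Set.univ := pB.toOuterMeasure.mono (Set.subset_univ _)
    have h2 : pB.toOuterMeasure Set.univ = 1 := by
      rw [PMF.toOuterMeasure_apply_eq_one_iff]; exact Set.subset_univ _
    rw [h2] at h1
    exact ne_top_of_le_ne_top ENNReal.one_ne_top h1
  have hw0 : ∀ s, 0 ≤ (WW s - WW (s + 1)) / 4 := by
    intro s
    have h1 := WW_le s
    have h2 := WW_pos s
    linarith
  have hL : ∀ s, 1 ≤ s → 1 - 1 / (2 * (Q (s + 1) : ℝ)) ≤ muB.toMeasure.real (LG s) := by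
    intro s hs
    rw [hreal]
    have hsub : ((Finset.range s ×ˢ (Finset.univ : Finset (Bool × Bool)) : Finset _) : Set (ℕ × Bool × Bool)) ⊆
        (fun q => Multiplicative.ofAdd (step q)) ⁻¹' (LG s) := by
      intro q hq
      rw [Finset.mem_coe, Finset.mem_product, Finset.mem_range] at hq
      exact ⟨q, hq.1, rfl⟩
    have h1 := pB.toOuterMeasure.mono hsub
    have h2 := ENNReal.toReal_mono (hfin _) h1
    refine le_trans (le_of_eq ?_) h2
    have h6 : pB.toOuterMeasure.measureOf
        ((Finset.range s ×ˢ (Finset.univ : Finset (Bool × Bool)) : Finset _) : Set (ℕ × Bool × Bool)) =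
        ∑ q ∈ (Finset.range s ×ˢ (Finset.univ : Finset (Bool × Bool)) : Finset _), pB q :=
      PMF.toOuterMeasure_apply_finset _ _
    rw [h6, ENNReal.toReal_sum (fun q _ => PMF.apply_ne_top _ _),
      Finset.sum_product]
    have h3 : ∀ r ∈ Finset.range s, ∑ y : Bool × Bool, (pB (r, y)).toReal = WW r - WW (r + 1) := by
      intro r _
      have : ∀ y ∈ (Finset.univ : Finset (Bool × Bool)), (pB (r, y)).toReal = (WW r - WW (r + 1)) / 4 := by
        intro y _
        rw [pB_apply, ENNReal.toReal_ofReal (hw0 r)]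
      rw [Finset.sum_congr rfl this, Finset.sum_const]
      simp only [Finset.card_univ, Fintype.card_prod, Fintype.card_bool, nsmul_eq_mul]
      push_cast; ring
    rw [Finset.sum_congr rfl h3, Finset.sum_range_sub']
    unfold WW
    rw [if_pos rfl, if_neg (by omega)]
  have hg : ∀ s, 1 ≤ s → ∀ b, 1 / (16 * (Q (s + 1) : ℝ)) ≤ muB.toMeasure.real {gG s b} := by
    intro s hs b
    rw [hreal]
    have hsub : ({(s, b, true)} : Set (ℕ × Bool × Bool)) ⊆
        (fun q => Multiplicative.ofAdd (step q)) ⁻¹' {gG s b} := by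
      intro q hq
      rw [Set.mem_singleton_iff] at hq
      subst hq
      rfl
    have h1 := pB.toOuterMeasure.mono hsub
    have h2 := ENNReal.toReal_mono (hfin _) h1
    refine le_trans ?_ h2
    have h6 : pB.toOuterMeasure.measureOf {(s, b, true)} = pB (s, b, true) :=
      PMF.toOuterMeasure_apply_singleton _ _
    rw [h6, pB_apply, ENNReal.toReal_ofReal (hw0 s)]
    have h3 := WW_le s
    have h4 : WW s = 1 / (2 * (Q (s + 1) : ℝ)) := by
      unfold WW
      rw [if_neg (by omega)]
    have h5 : (1 : ℝ) / (16 * (Q (s + 1) : ℝ)) = WW s / 8 := by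
      rw [h4, div_div]; congr 1; ring
    rw [h5]; linarith
  have h1 := win_ae (G := GG) muB.toMeasure LG gG hL hg gG_notMem
  have h2 := recur_ae (G := GG) muB.toMeasure
  filter_upwards [h1, h2] with ω hω1 hω2
  -- the semigroup
  have hstep : ∀ q : ℕ × Bool × Bool, ∀ n : ℕ, ∃ m, n ≤ m ∧ Multiplicative.toAdd (ω m) = step q := by
    intro q n
    have hne : muB.toMeasure {Multiplicative.ofAdd (step q)} ≠ 0 := by
      rw [PMF.toMeasure_apply_singleton _ _ (MeasurableSet.of_discrete)]
      exact (PMF.mem_support_iff _ _).mp (muB_mem q)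
    obtain ⟨m, hm, he⟩ := hω2 _ hne n
    exact ⟨m, hm, by rw [he]; rfl⟩
  have hmain := main_det (fun t => Multiplicative.toAdd (ω t))
    (fun K => by obtain ⟨k, hk, hk2⟩ := hω1 K; exact ⟨k, hk, win_toAdd ω k hk2⟩) hstep n {x : ℕ →₀ ℤ | Multiplicative.ofAdd x ∈ semi ω n}
    (fun x hx y hy => by
      rw [Set.mem_ofPred_eq] at hx hy ⊢
      rw [ofAdd_add]
      exact (semi ω n).mul_mem hx hy)
    (fun m hm => by
      rw [Set.mem_ofPred_eq]
      rw [← toAdd_walk ω m]
      exact Subsemigroup.subset_closure ⟨m, hm, rfl⟩)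
  -- the set of x with x, -x in the semigroup is a subgroup
  have hone : (1 : GG) ∈ semi ω n := by
    have ha := hmain (0, true, false)
    have hb := hmain (0, false, false)
    rw [Set.mem_ofPred_eq] at ha hb
    have hc := (semi ω n).mul_mem ha hb
    rw [← ofAdd_add] at hc
    have : step (0, true, false) + step (0, false, false) = 0 := by
      unfold step
      rw [← Finsupp.single_add]
      simp [sgn]
    rw [this] at hc
    exact hc
  let H : Subgroup GG :=
    { carrier := {x | x ∈ semi ω n ∧ x⁻¹ ∈ semi ω n}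
      mul_mem' := by
        rintro a b ⟨ha, ha'⟩ ⟨hb, hb'⟩
        refine ⟨(semi ω n).mul_mem ha hb, ?_⟩
        rw [mul_inv]
        exact (semi ω n).mul_mem ha' hb'
      one_mem' := ⟨hone, by rw [inv_one]; exact hone⟩
      inv_mem' := by
        rintro a ⟨ha, ha'⟩
        exact ⟨ha', by rw [inv_inv]; exact ha⟩ }
  have hH : H = ⊤ := by
    apply closure_top
    intro i
    have ha := hmain (4 ^ i + (i + 1) * 0 + i, true, false)
    have hb := hmain (4 ^ i + (i + 1) * 0 + i, false, false)
    rw [Set.mem_ofPred_eq] at ha hb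
    have e1 : step (4 ^ i + (i + 1) * 0 + i, true, false) = Finsupp.single i 1 := by
      unfold step
      simp only
      rw [crd_scale i 0 i (Nat.zero_le _) le_rfl]
      simp [sgn]
    have e2 : step (4 ^ i + (i + 1) * 0 + i, false, false) = -Finsupp.single i 1 := by
      unfold step
      simp only
      rw [crd_scale i 0 i (Nat.zero_le _) le_rfl, ← Finsupp.single_neg]
      simp [sgn]
    rw [e1] at ha
    rw [e2] at hb
    exact ⟨ha, hb⟩
  rw [eq_top_iff]
  intro x _
  have : x ∈ H := by rw [hH]; trivial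
  exact this.1

end Pool.Agent.Helpers25.AR
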