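import Mathlib

set_option autoImplicit false
open MeasureTheory ProbabilityTheory Filter Topology

namespace Pool.Agent.Helpers25.AR

/-- time thresholds -/
def mm (k : ℕ) : ℕ := (k + 3) * 2 ^ (k + 1)

lemma mm_pos (k : ℕ) : 0 < mm k := by unfold mm; positivity

lemma mm_lt (k : ℕ) : mm k < mm (k + 1) := by
  unfold mm
  have h : 2 ^ (k + 1 + 1) = 2 * 2 ^ (k + 1) := by ring
  have h2 : 0 < 2 ^ (k + 1) := by positivity
  rw [h]
  nlinarith

lemma mm_strictMono : StrictMono mm := strictMono_nat_of_lt_succ mm_lt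

/-- masses of the blocks -/
noncomputable def cc (k : ℕ) : ℝ := 1 / 2 / 2 ^ k

/-- parameter of the geometric law in block `k` -/
noncomputable def ee (k : ℕ) : ℝ := 1 / (2 ^ (k + 3) * (mm (k + 1) : ℝ) ^ 2)

lemma cc_pos (k : ℕ) : 0 < cc k := by unfold cc; positivity

lemma cc_le (k : ℕ) : cc k ≤ 1 := by
  unfold cc
  rw [div_div]
  apply div_le_one_of_le₀ _ (by positivity)
  have : (1 : ℝ) ≤ 2 ^ k := one_le_pow₀ (by norm_num)
  linarith

lemma ee_pos (k : ℕ) : 0 < ee k := by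
  unfold ee
  have : (0 : ℝ) < mm (k + 1) := by exact_mod_cast mm_pos _
  positivity

lemma ee_lt (k : ℕ) : ee k < 1 := by
  unfold ee
  have h : (1 : ℝ) ≤ mm (k + 1) := by exact_mod_cast mm_pos _
  have h1 : (1 : ℝ) < 2 ^ (k + 3) := one_lt_pow₀ (by norm_num) (by omega)
  have h2 : (1 : ℝ) ≤ (mm (k + 1) : ℝ) ^ 2 := one_le_pow₀ h
  rw [div_lt_one (by positivity)]
  nlinarith

lemma pow_cc (k : ℕ) : (1 - cc k) ^ (mm k) ≤ (1 / 2) ^ (k + 3) := by
  have h1 : 1 - cc k ≤ Real.exp (-(cc k)) := by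
    have := Real.add_one_le_exp (-(cc k)); linarith
  have h0 : 0 ≤ 1 - cc k := by have := cc_le k; linarith
  have h2 : (1 - cc k) ^ (mm k) ≤ Real.exp (-(cc k)) ^ (mm k) := pow_le_pow_left₀ h0 h1 _
  have h3 : Real.exp (-(cc k)) ^ (mm k) = Real.exp (-1) ^ (k + 3) := by
    rw [← Real.exp_nat_mul, ← Real.exp_nat_mul]
    congr 1
    unfold cc mm
    have : (2 : ℝ) ^ k ≠ 0 := by positivity
    push_cast
    rw [pow_succ]
    field_simp
  have h4 : Real.exp (-1) ≤ 1 / 2 := by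
    rw [Real.exp_neg]
    have := Real.add_one_le_exp 1
    rw [inv_eq_one_div]
    apply one_div_le_one_div_of_le (by norm_num)
    linarith
  rw [h3] at h2
  exact h2.trans (pow_le_pow_left₀ (Real.exp_pos _).le h4 _)

/-- the good event -/
def Good {G : Type} (B : ℕ → Set G) (C : ℕ → ℕ → Set G) (ω : ℕ → G) : Prop :=
  (∀ k, ∃ t, t < mm k ∧ ω t ∈ B k) ∧
  (∀ k s t, s < t → t < mm (k + 1) → ∀ i, ω s ∈ C k i → ω t ∉ C k i) ∧
  (∀ t, ∃ k i, ω t ∈ C k i)

lemma good_prob {G : Type} [MeasurableSpace G] [DiscreteMeasurableSpace G] (μ : Measure G)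
    [IsProbabilityMeasure μ] (B : ℕ → Set G) (C : ℕ → ℕ → Set G)
    (hB : ∀ k, μ (B k)ᶜ ≤ ENNReal.ofReal (1 - cc k))
    (hC : ∀ k i, μ (C k i) ≤ ENNReal.ofReal (ee k)) (hCs : ∀ k, ∑' i, μ (C k i) ≤ 1)
    (hcov : μ (⋃ k, ⋃ i, C k i)ᶜ = 0) :
    ¬ ∀ᵐ ω ∂(Measure.infinitePi (fun _ : ℕ => μ)), ¬ Good B C ω := by
  intro hae
  set P := Measure.infinitePi (fun _ : ℕ => μ) with hP
  have hcoord : ∀ (t : ℕ) (X : Set G), P {ω | ω t ∈ X} = μ X := by
    intro t X
    have h2 := Measure.infinitePi_map_eval (fun _ : ℕ => μ) t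
    conv_rhs => rw [← h2]
    rw [Measure.map_apply (measurable_pi_apply _) MeasurableSet.of_discrete]
    rfl
  let D1 : ℕ → Set (ℕ → G) := fun k => Set.pi (Finset.range (mm k) : Set ℕ) (fun _ => (B k)ᶜ)
  let D2 : ℕ → Set (ℕ → G) := fun k => ⋃ s ∈ Finset.range (mm (k + 1)), ⋃ t ∈ (Finset.range (mm (k + 1))).erase s,
    ⋃ i, {ω | ω s ∈ C k i ∧ ω t ∈ C k i}
  let D3 : Set (ℕ → G) := ⋃ t : ℕ, {ω | ω t ∈ (⋃ k, ⋃ i, C k i)ᶜ}
  have hcover : {ω | ¬ Good B C ω} ⊆ ((⋃ k, D1 k) ∪ (⋃ k, D2 k)) ∪ D3 := by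
    intro ω hω
    by_contra hcon
    apply hω
    simp only [Set.mem_union, Set.mem_iUnion, not_or, not_exists, D1, D2, D3, Set.mem_pi,
      Finset.mem_coe, Finset.mem_range, Set.mem_compl_iff, Set.mem_ofPred_eq, not_forall, not_not,
      Finset.mem_erase, not_and, exists_prop] at hcon
    obtain ⟨⟨h1, h2⟩, h3⟩ := hcon
    refine ⟨h1, fun k s t hst ht i hs hC' => ?_, fun t => ?_⟩
    · exact h2 k s (by omega) t ⟨by omega, ht⟩ i hs hC'
    · exact h3 t
  have hD1 : ∀ k, P (D1 k) ≤ ENNReal.ofReal ((1 / 2) ^ (k + 3)) := by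
    intro k
    simp only [D1]
    rw [hP, Measure.infinitePi_pi _ (fun _ _ => MeasurableSet.of_discrete), Finset.prod_const,
      Finset.card_range]
    calc μ (B k)ᶜ ^ mm k ≤ ENNReal.ofReal (1 - cc k) ^ mm k := pow_le_pow_left' (hB k) _
      _ = ENNReal.ofReal ((1 - cc k) ^ mm k) := by
          rw [ENNReal.ofReal_pow]; have := cc_le k; linarith
      _ ≤ ENNReal.ofReal ((1 / 2) ^ (k + 3)) := ENNReal.ofReal_le_ofReal (pow_cc k)
  have hpair : ∀ k s t, s ≠ t → P (⋃ i, {ω | ω s ∈ C k i ∧ ω t ∈ C k i}) ≤ ENNReal.ofReal (ee k) := by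
    intro k s t hst
    refine (measure_iUnion_le _).trans ?_
    have h1 : ∀ i, P {ω | ω s ∈ C k i ∧ ω t ∈ C k i} = μ (C k i) * μ (C k i) := by
      intro i
      have h2 : {ω : ℕ → G | ω s ∈ C k i ∧ ω t ∈ C k i} =
          Set.pi (({s, t} : Finset ℕ) : Set ℕ) (fun _ => C k i) := by
        ext ω; simp
      rw [h2, hP, Measure.infinitePi_pi _ (fun _ _ => MeasurableSet.of_discrete),
        Finset.prod_pair hst]
    simp only [h1]
    calc ∑' i, μ (C k i) * μ (C k i) ≤ ∑' i, ENNReal.ofReal (ee k) * μ (C k i) :=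
          ENNReal.tsum_le_tsum (fun i => mul_le_mul_left (hC k i) _)
      _ = ENNReal.ofReal (ee k) * ∑' i, μ (C k i) := ENNReal.tsum_mul_left
      _ ≤ ENNReal.ofReal (ee k) * 1 := mul_le_mul_right (hCs k) _
      _ = ENNReal.ofReal (ee k) := mul_one _
  have hD2 : ∀ k, P (D2 k) ≤ ENNReal.ofReal ((1 / 2) ^ (k + 3)) := by
    intro k
    simp only [D2]
    refine (measure_biUnion_finset_le _ _).trans ?_
    calc ∑ s ∈ Finset.range (mm (k + 1)), P (⋃ t ∈ (Finset.range (mm (k + 1))).erase s,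
          ⋃ i, {ω | ω s ∈ C k i ∧ ω t ∈ C k i})
        ≤ ∑ s ∈ Finset.range (mm (k + 1)), (mm (k + 1) : ENNReal) * ENNReal.ofReal (ee k) := by
          apply Finset.sum_le_sum
          intro s _
          refine (measure_biUnion_finset_le _ _).trans ?_
          calc ∑ t ∈ (Finset.range (mm (k + 1))).erase s, P (⋃ i, {ω | ω s ∈ C k i ∧ ω t ∈ C k i})
              ≤ ∑ t ∈ (Finset.range (mm (k + 1))).erase s, ENNReal.ofReal (ee k) := by
                apply Finset.sum_le_sum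
                intro t ht
                exact hpair k s t (Finset.ne_of_mem_erase ht).symm
            _ = (((Finset.range (mm (k + 1))).erase s).card : ENNReal) * ENNReal.ofReal (ee k) := by
                rw [Finset.sum_const, nsmul_eq_mul]
            _ ≤ (mm (k + 1) : ENNReal) * ENNReal.ofReal (ee k) := by
                apply mul_le_mul_left
                have := Finset.card_erase_le (s := Finset.range (mm (k + 1))) (a := s)
                rw [Finset.card_range] at this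
                exact_mod_cast this
      _ = ENNReal.ofReal ((1 / 2) ^ (k + 3)) := by
          rw [Finset.sum_const, Finset.card_range, nsmul_eq_mul]
          have h1 : (mm (k + 1) : ENNReal) = ENNReal.ofReal (mm (k + 1) : ℝ) := by
            rw [ENNReal.ofReal_natCast]
          rw [h1, ← ENNReal.ofReal_mul (by positivity), ← ENNReal.ofReal_mul (by positivity)]
          congr 1
          unfold ee
          have h2 : (mm (k + 1) : ℝ) ≠ 0 := by
            have := mm_pos (k + 1)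
            positivity
          rw [one_div_pow]
          field_simp
  have hD3 : P D3 = 0 := by
    simp only [D3]
    rw [measure_iUnion_null_iff]
    intro t
    rw [hcoord]; exact hcov
  have hsum : ∑' k : ℕ, ENNReal.ofReal ((1 / 2 : ℝ) ^ (k + 3)) = ENNReal.ofReal (1 / 4) := by
    have hs : HasSum (fun k : ℕ => (1 / 2 : ℝ) ^ (k + 3)) (1 / 4) := by
      have := (hasSum_geometric_of_lt_one (r := (1 / 2 : ℝ)) (by norm_num) (by norm_num)).mul_left ((1 / 2 : ℝ) ^ 3)
      norm_num at this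
      refine (this.congr_fun ?_)
      intro k
      rw [pow_add]; norm_num; ring
    rw [← ENNReal.ofReal_tsum_of_nonneg (fun k => by positivity) hs.summable, hs.tsum_eq]
  have hall : P {ω | ¬ Good B C ω} ≤ ENNReal.ofReal (1 / 2) := by
    calc P {ω | ¬ Good B C ω} ≤ P (((⋃ k, D1 k) ∪ (⋃ k, D2 k)) ∪ D3) := measure_mono hcover
      _ ≤ P ((⋃ k, D1 k) ∪ (⋃ k, D2 k)) + P D3 := measure_union_le _ _
      _ ≤ (P (⋃ k, D1 k) + P (⋃ k, D2 k)) + 0 := by
          rw [hD3]; exact add_le_add (measure_union_le _ _) le_rfl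
      _ ≤ (∑' k, P (D1 k) + ∑' k, P (D2 k)) + 0 :=
          add_le_add (add_le_add (measure_iUnion_le _) (measure_iUnion_le _)) le_rfl
      _ ≤ (∑' k : ℕ, ENNReal.ofReal ((1 / 2 : ℝ) ^ (k + 3)) + ∑' k : ℕ, ENNReal.ofReal ((1 / 2 : ℝ) ^ (k + 3))) + 0 :=
          add_le_add (add_le_add (ENNReal.tsum_le_tsum hD1) (ENNReal.tsum_le_tsum hD2)) le_rfl
      _ = ENNReal.ofReal (1 / 2) := by
          rw [hsum, add_zero, ← ENNReal.ofReal_add (by norm_num) (by norm_num)]; norm_num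
  have hone : P {ω | ¬ Good B C ω} = 1 := by
    have := (prob_compl_eq_zero_iff₀ (μ := P) (s := {ω | ¬ Good B C ω}) ?_).mp ?_
    · exact this
    · exact NullMeasurableSet.of_compl (NullMeasurableSet.of_null (ae_iff.mp hae))
    · exact ae_iff.mp hae
  rw [hone] at hall
  have : ENNReal.ofReal (1 / 2) < 1 := by
    rw [← ENNReal.ofReal_one]
    exact (ENNReal.ofReal_lt_ofReal_iff (by norm_num)).mpr (by norm_num)
  exact absurd hall (not_le.mpr this)

end Pool.Agent.Helpers25.AR
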