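import Pool.Agent.Helpers25.ARMu
import Pool.Agent.Helpers25.ARProbA

set_option autoImplicit false
open MeasureTheory ProbabilityTheory Filter Topology

namespace Pool.Agent.Helpers25.AR

/-- a step: plus or minus a basis vector -/
noncomputable def stepA (q : ℕ × ℕ × Bool) : ℕ →₀ ℤ := Finsupp.single (Nat.pair q.1 q.2.1) (sgn q.2.2)

/-- weights -/
def bb : ℕ → ℤ
  | 0 => 0
  | k + 1 => mm (k + 1) * bb k + 1

lemma bb_nonneg (k : ℕ) : 0 ≤ bb k := by
  induction k with
  | zero => exact le_rfl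
  | succ k ih =>
    show 0 ≤ (mm (k + 1) : ℤ) * bb k + 1
    positivity

lemma bb_mono_succ (k : ℕ) : bb k ≤ bb (k + 1) := by
  show bb k ≤ (mm (k + 1) : ℤ) * bb k + 1
  have h1 := bb_nonneg k
  have h2 : (1 : ℤ) ≤ mm (k + 1) := by exact_mod_cast mm_pos _
  nlinarith

lemma bb_mono {j k : ℕ} (h : j ≤ k) : bb j ≤ bb k := monotone_nat_of_le_succ bb_mono_succ h

lemma exists_level (n : ℕ) (hn : mm 0 ≤ n) : ∃ k, mm k ≤ n ∧ n < mm (k + 1) := by
  classical
  have hex : ∃ k, n < mm (k + 1) := ⟨n, lt_of_lt_of_le (Nat.lt_succ_self n) (mm_strictMono.id_le (n + 1))⟩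
  refine ⟨Nat.find hex, ?_, Nat.find_spec hex⟩
  rcases Nat.eq_zero_or_pos (Nat.find hex) with h | h
  · rw [h]; exact hn
  · have h2 := Nat.find_min hex (m := Nat.find hex - 1) (by omega)
    rw [Nat.sub_add_cancel h] at h2
    omega

lemma sgn_mul_self (b : Bool) : sgn b * sgn b = 1 := by cases b <;> simp [sgn]

/-- the coordinate used by a parameter -/
def co (q : ℕ × ℕ × Bool) : ℕ := Nat.pair q.1 q.2.1

/-- sign of the first use of a coordinate -/
noncomputable def sig (q : ℕ → ℕ × ℕ × Bool) (j : ℕ) : ℤ :=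
  open Classical in if h : ∃ t, co (q t) = j then sgn (q (Nat.find h)).2.2 else 1

lemma abs_sig (q : ℕ → ℕ × ℕ × Bool) (j : ℕ) : |sig q j| = 1 := by
  unfold sig
  split_ifs
  · exact abs_sgn _
  · simp

lemma sig_first (q : ℕ → ℕ × ℕ × Bool) (t : ℕ) (h : ∀ s < t, co (q s) ≠ co (q t)) :
    sig q (co (q t)) = sgn (q t).2.2 := by
  classical
  unfold sig
  have hex : ∃ s, co (q s) = co (q t) := ⟨t, rfl⟩
  rw [dif_pos hex]
  have : Nat.find hex = t := by
    rw [Nat.find_eq_iff]
    exact ⟨rfl, fun s hs => h s hs⟩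
  rw [this]

/-- the random linear functional -/
noncomputable def phi (q : ℕ → ℕ × ℕ × Bool) : (ℕ →₀ ℤ) →+ ℤ :=
  Finsupp.liftAddHom (fun j => (AddMonoidHom.mulRight (sig q j * bb (j.unpair.1 + 1))))

lemma phi_step (q : ℕ → ℕ × ℕ × Bool) (t : ℕ) :
    phi q (stepA (q t)) = sgn (q t).2.2 * (sig q (co (q t)) * bb ((q t).1 + 1)) := by
  unfold phi stepA
  rw [Finsupp.liftAddHom_apply_single]
  simp [co]

lemma phi_ge (q : ℕ → ℕ × ℕ × Bool) (t : ℕ) : -bb ((q t).1 + 1) ≤ phi q (stepA (q t)) := by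
  rw [phi_step]
  have h : |sgn (q t).2.2 * (sig q (co (q t)) * bb ((q t).1 + 1))| = bb ((q t).1 + 1) := by
    rw [abs_mul, abs_mul, abs_sgn, abs_sig, one_mul, one_mul, abs_of_nonneg (bb_nonneg _)]
  have := neg_abs_le (sgn (q t).2.2 * (sig q (co (q t)) * bb ((q t).1 + 1)))
  rw [h] at this
  exact this

lemma phi_first (q : ℕ → ℕ × ℕ × Bool) (t : ℕ) (h : ∀ s < t, co (q s) ≠ co (q t)) :
    phi q (stepA (q t)) = bb ((q t).1 + 1) := by
  rw [phi_step, sig_first q t h, ← mul_assoc, sgn_mul_self, one_mul]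

lemma phi_pos (q : ℕ → ℕ × ℕ × Bool) (h1 : ∀ k, ∃ t, t < mm k ∧ (q t).1 = k)
    (h2 : ∀ s t, s < t → t < mm ((q t).1 + 1) → co (q s) ≠ co (q t)) (n : ℕ) (hn : mm 0 ≤ n) :
    0 < phi q (∑ t ∈ Finset.range n, stepA (q t)) := by
  obtain ⟨k, hk1, hk2⟩ := exists_level n hn
  rw [map_sum]
  have hlow : ∀ t ∈ Finset.range n, -bb k ≤ phi q (stepA (q t)) := by
    intro t ht
    rw [Finset.mem_range] at ht
    rcases lt_or_ge (q t).1 k with h | h
    · have h3 := phi_ge q t
      have h4 : bb ((q t).1 + 1) ≤ bb k := bb_mono (by omega)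
      linarith
    · have h5 : t < mm ((q t).1 + 1) := by
        have : mm (k + 1) ≤ mm ((q t).1 + 1) := mm_strictMono.monotone (by omega)
        omega
      rw [phi_first q t (fun s hs => h2 s t hs h5)]
      have h6 := bb_nonneg ((q t).1 + 1)
      have h7 := bb_nonneg k
      linarith
  obtain ⟨t0, ht0, hq0⟩ := h1 k
  have ht0n : t0 ∈ Finset.range n := Finset.mem_range.mpr (by omega)
  rw [← Finset.add_sum_erase _ _ ht0n]
  have h8 : phi q (stepA (q t0)) = bb (k + 1) := by
    have h9 : t0 < mm ((q t0).1 + 1) := by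
      rw [hq0]
      have := mm_lt k
      omega
    rw [phi_first q t0 (fun s hs => h2 s t0 hs h9), hq0]
  rw [h8]
  have h10 : ∑ t ∈ (Finset.range n).erase t0, phi q (stepA (q t)) ≥ -((n : ℤ) * bb k) := by
    calc ∑ t ∈ (Finset.range n).erase t0, phi q (stepA (q t))
        ≥ ∑ t ∈ (Finset.range n).erase t0, (-bb k) :=
          Finset.sum_le_sum (fun t ht => hlow t (Finset.mem_of_mem_erase ht))
      _ = -((((Finset.range n).erase t0).card : ℤ) * bb k) := by
          rw [Finset.sum_const, nsmul_eq_mul]; ring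
      _ ≥ -((n : ℤ) * bb k) := by
          have h11 := Finset.card_erase_le (s := Finset.range n) (a := t0)
          rw [Finset.card_range] at h11
          have h12 : (((Finset.range n).erase t0).card : ℤ) ≤ n := by exact_mod_cast h11
          have := mul_le_mul_of_nonneg_right h12 (bb_nonneg k)
          linarith
  have h13 : bb (k + 1) = (mm (k + 1) : ℤ) * bb k + 1 := rfl
  have h14 : (n : ℤ) * bb k ≤ (mm (k + 1) : ℤ) * bb k := by
    apply mul_le_mul_of_nonneg_right _ (bb_nonneg k)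
    exact_mod_cast hk2.le
  rw [h13]
  linarith

lemma gk_hasSum (k : ℕ) : HasSum (fun i : ℕ => ee k * (1 - ee k) ^ i) 1 := by
  have h1 := ee_pos k
  have h2 := ee_lt k
  have := (hasSum_geometric_of_lt_one (r := 1 - ee k) (by linarith) (by linarith)).mul_left (ee k)
  have h3 : ee k * (1 - (1 - ee k))⁻¹ = 1 := by
    rw [sub_sub_cancel]; exact mul_inv_cancel₀ h1.ne'
  rwa [h3] at this

lemma mass_nonneg (k i : ℕ) : 0 ≤ cc k * (ee k * (1 - ee k) ^ i) := by
  have h1 := ee_pos k
  have h2 := ee_lt k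
  have h3 := cc_pos k
  have h4 : 0 ≤ 1 - ee k := by linarith
  positivity

lemma inner_sum (k : ℕ) : ∑' y : ℕ × Bool, ENNReal.ofReal (cc k * (ee k * (1 - ee k) ^ y.1) / 2) =
    ENNReal.ofReal (cc k) := by
  rw [ENNReal.tsum_prod']
  have h1 : ∀ i : ℕ, ∑' _b : Bool, ENNReal.ofReal (cc k * (ee k * (1 - ee k) ^ i) / 2) =
      ENNReal.ofReal (cc k * (ee k * (1 - ee k) ^ i)) := by
    intro i
    rw [tsum_fintype, Finset.sum_const]
    simp only [Finset.card_univ, Fintype.card_bool, nsmul_eq_mul]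
    rw [← ENNReal.ofReal_natCast, ← ENNReal.ofReal_mul (by positivity)]
    congr 1
    push_cast; ring
  simp only [h1]
  have hs := (gk_hasSum k).mul_left (cc k)
  rw [mul_one] at hs
  rw [← ENNReal.ofReal_tsum_of_nonneg (fun i => mass_nonneg k i) hs.summable, hs.tsum_eq]

/-- the parameter law -/
noncomputable def pA : PMF (ℕ × ℕ × Bool) :=
  ⟨fun q => ENNReal.ofReal (cc q.1 * (ee q.1 * (1 - ee q.1) ^ q.2.1) / 2), by
    rw [ENNReal.summable.hasSum_iff, ENNReal.tsum_prod']
    simp only [inner_sum]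
    have hs : HasSum cc 1 := by
      have := hasSum_geometric_two' (1 : ℝ)
      exact this
    rw [← ENNReal.ofReal_tsum_of_nonneg (fun k => (cc_pos k).le) hs.summable, hs.tsum_eq,
      ENNReal.ofReal_one]⟩

lemma pA_apply (q : ℕ × ℕ × Bool) :
    pA q = ENNReal.ofReal (cc q.1 * (ee q.1 * (1 - ee q.1) ^ q.2.1) / 2) := rfl

lemma pA_pos (q : ℕ × ℕ × Bool) : pA q ≠ 0 := by
  rw [pA_apply]
  have h1 := ee_pos q.1
  have h2 := ee_lt q.1
  have h3 := cc_pos q.1
  have h4 : 0 < 1 - ee q.1 := by linarith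
  have : 0 < cc q.1 * (ee q.1 * (1 - ee q.1) ^ q.2.1) / 2 := by positivity
  exact (ENNReal.ofReal_pos.mpr this).ne'

/-- the law of the walk which is not algebraically recurrent -/
noncomputable def nuA : PMF GG := pA.map (fun q => Multiplicative.ofAdd (stepA q))

lemma stepA_inj {q q' : ℕ × ℕ × Bool} (h : stepA q = stepA q') : q = q' := by
  unfold stepA at h
  have hne : ∀ b : Bool, sgn b ≠ 0 := by intro b; cases b <;> simp [sgn]
  rw [Finsupp.single_eq_single_iff] at h
  rcases h with ⟨h1, h2⟩ | ⟨h1, _⟩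
  · have h3 := Nat.pair_eq_pair.mp h1
    obtain ⟨k, i, b⟩ := q
    obtain ⟨k', i', b'⟩ := q'
    simp only at h2 h3
    have h4 : b = b' := by
      cases b <;> cases b' <;> simp [sgn] at h2 ⊢
    rw [h3.1, h3.2, h4]
  · exact absurd h1 (hne _)

/-- the coordinate classes -/
def CG (k i : ℕ) : Set GG := {x | ∃ b, Multiplicative.toAdd x = stepA (k, i, b)}

/-- the blocks -/
def BG (k : ℕ) : Set GG := {x | ∃ i b, Multiplicative.toAdd x = stepA (k, i, b)}

lemma pre_BG (k : ℕ) : (fun q => Multiplicative.ofAdd (stepA q)) ⁻¹' (BG k) = {q | q.1 = k} := by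
  ext q
  constructor
  · rintro ⟨i, b, h⟩
    have := stepA_inj (q := q) (q' := (k, i, b)) h
    rw [this]; rfl
  · intro h
    refine ⟨q.2.1, q.2.2, ?_⟩
    have h' : q.1 = k := h
    rw [← h']; rfl

lemma pre_CG (k i : ℕ) : (fun q => Multiplicative.ofAdd (stepA q)) ⁻¹' (CG k i) =
    (({(k, i, true), (k, i, false)} : Finset (ℕ × ℕ × Bool)) : Set (ℕ × ℕ × Bool)) := by
  ext q
  constructor
  · rintro ⟨b, h⟩
    have := stepA_inj (q := q) (q' := (k, i, b)) h
    rw [this]
    cases b <;> simp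
  · intro h
    simp only [Finset.coe_insert, Finset.coe_singleton, Set.mem_insert_iff, Set.mem_singleton_iff] at h
    rcases h with h | h
    · exact ⟨true, by rw [h]; rfl⟩
    · exact ⟨false, by rw [h]; rfl⟩

lemma nuA_symm (g : GG) : nuA g⁻¹ = nuA g := by
  refine symm_map pA _ ((Equiv.refl ℕ).prodCongr ((Equiv.refl ℕ).prodCongr Equiv.boolNot)) ?_ ?_ g
  · intro q
    rw [← ofAdd_neg]
    congr 1
    unfold stepA
    rw [← Finsupp.single_neg]
    obtain ⟨s, b, b'⟩ := q
    cases b' <;> simp [sgn]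
  · intro q
    rfl

lemma nuA_mem (q : ℕ × ℕ × Bool) : Multiplicative.ofAdd (stepA q) ∈ nuA.support := by
  unfold nuA
  rw [PMF.mem_support_map_iff]
  exact ⟨q, (PMF.mem_support_iff _ _).mpr (pA_pos q), rfl⟩

lemma nuA_admissible : Admissible nuA := by
  refine ⟨nuA_symm, ?_⟩
  apply closure_top
  intro j
  apply Subgroup.subset_closure
  have h := nuA_mem (j.unpair.1, j.unpair.2, true)
  have h2 : stepA (j.unpair.1, j.unpair.2, true) = Finsupp.single j 1 := by
    unfold stepA
    simp [sgn]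
  rwa [h2] at h

theorem nuA_not_AR : ¬ AlgRecurrent nuA := by
  intro hAR
  let _ : MeasurableSpace GG := ⊤
  have : DiscreteMeasurableSpace GG := ⟨fun _ => trivial⟩
  have hAR6 := hAR (mm 0) (mm_pos 0)
  have hmeas : ∀ S : Set GG, nuA.toMeasure S = pA.toOuterMeasure
      ((fun q => Multiplicative.ofAdd (stepA q)) ⁻¹' S) := by
    intro S
    rw [PMF.toMeasure_apply_eq_toOuterMeasure]
    unfold nuA
    rw [PMF.toOuterMeasure_map_apply]
  have hBG : ∀ k, nuA.toMeasure (BG k) = ENNReal.ofReal (cc k) := by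
    intro k
    rw [hmeas, pre_BG, PMF.toOuterMeasure_apply, ENNReal.tsum_prod', tsum_eq_single k]
    · rw [← inner_sum k]
      apply tsum_congr
      intro y
      rw [Set.indicator_of_mem (by rfl)]
      rfl
    · intro k' hk'
      rw [ENNReal.tsum_eq_zero]
      intro y
      rw [Set.indicator_of_notMem]
      exact hk'
  have hCG : ∀ k i, nuA.toMeasure (CG k i) = ENNReal.ofReal (cc k * (ee k * (1 - ee k) ^ i)) := by
    intro k i
    rw [hmeas, pre_CG, PMF.toOuterMeasure_apply_finset, Finset.sum_pair (by simp), pA_apply, pA_apply]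
    simp only
    have h0 := mass_nonneg k i
    rw [← ENNReal.ofReal_add (by positivity) (by positivity)]
    congr 1; ring
  refine good_prob (G := GG) nuA.toMeasure BG CG ?_ ?_ ?_ ?_ ?_
  · intro k
    rw [prob_compl_eq_one_sub MeasurableSet.of_discrete, hBG,
      ENNReal.ofReal_sub _ (cc_pos k).le, ENNReal.ofReal_one]
  · intro k i
    rw [hCG]
    apply ENNReal.ofReal_le_ofReal
    have h1 := ee_pos k
    have h2 := ee_lt k
    have h3 := cc_pos k
    have h4 := cc_le k
    have h5 : (1 - ee k) ^ i ≤ 1 := pow_le_one₀ (by linarith) (by linarith)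
    have h6 : 0 ≤ (1 - ee k) ^ i := pow_nonneg (by linarith) _
    calc cc k * (ee k * (1 - ee k) ^ i) ≤ 1 * (ee k * 1) := by gcongr
      _ = ee k := by ring
  · intro k
    simp only [hCG]
    have hs := (gk_hasSum k).mul_left (cc k)
    rw [mul_one] at hs
    rw [← ENNReal.ofReal_tsum_of_nonneg (fun i => mass_nonneg k i) hs.summable, hs.tsum_eq,
      ← ENNReal.ofReal_one]
    exact ENNReal.ofReal_le_ofReal (cc_le k)
  · rw [hmeas]
    have : (fun q => Multiplicative.ofAdd (stepA q)) ⁻¹' (⋃ k, ⋃ i, CG k i)ᶜ = ∅ := by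
      rw [Set.eq_empty_iff_forall_notMem]
      intro q hq
      apply hq
      simp only [Set.mem_iUnion]
      exact ⟨q.1, q.2.1, q.2.2, rfl⟩
    rw [this]
    exact measure_empty
  · filter_upwards [hAR6] with ω hω hgood
    obtain ⟨g1, g2, g3⟩ := hgood
    have hq : ∀ t, ∃ q : ℕ × ℕ × Bool, Multiplicative.toAdd (ω t) = stepA q := by
      intro t
      obtain ⟨k, i, b, h⟩ := g3 t
      exact ⟨(k, i, b), h⟩
    choose q hq using hq
    have h1 : ∀ k, ∃ t, t < mm k ∧ (q t).1 = k := by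
      intro k
      obtain ⟨t, ht, i, b, h⟩ := g1 k
      refine ⟨t, ht, ?_⟩
      rw [hq t] at h
      rw [stepA_inj h]
    have h2 : ∀ s t, s < t → t < mm ((q t).1 + 1) → co (q s) ≠ co (q t) := by
      intro s t hst ht he
      have h3 := Nat.pair_eq_pair.mp he
      refine g2 (q t).1 s t hst ht (q t).2.1 ⟨(q s).2.2, ?_⟩ ⟨(q t).2.2, ?_⟩
      · rw [hq s, ← h3.1, ← h3.2]
      · rw [hq t]
    have hpos : ∀ x ∈ semi ω (mm 0), 0 < phi q (Multiplicative.toAdd x) := by
      intro x hx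
      unfold semi at hx
      induction hx using Subsemigroup.closure_induction with
      | mem x hx =>
        obtain ⟨m, hm, rfl⟩ := hx
        rw [toAdd_walk]
        have : ∑ t ∈ Finset.range m, Multiplicative.toAdd (ω t) = ∑ t ∈ Finset.range m, stepA (q t) :=
          Finset.sum_congr rfl (fun t _ => hq t)
        rw [this]
        exact phi_pos q h1 h2 m hm
      | mul x y _ _ hx hy =>
        rw [toAdd_mul, map_add]
        exact add_pos hx hy
    have h0 := hpos 1 (by rw [hω]; trivial)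
    rw [toAdd_one, map_zero] at h0
    exact lt_irrefl _ h0

end Pool.Agent.Helpers25.AR
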