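import Mathlib

set_option autoImplicit false
open MeasureTheory ProbabilityTheory Filter Topology

namespace Pool.Agent.Helpers25.AR

/-- exactly one coordinate in `B` is `g`, all others are in `L` -/
def one {G : Type} (B : Finset ℕ) (g : G) (L : Set G) : Set (ℕ → G) :=
  ⋃ t ∈ B, {ω | ω t = g ∧ ∀ t' ∈ B, t' ≠ t → ω t' ∈ L}

section gen
variable {G : Type} [MeasurableSpace G]

/-- sigma-algebra of the coordinates in `S` -/
@[reducible]
def fil (G : Type) [MeasurableSpace G] (S : Set ℕ) : MeasurableSpace (ℕ → G) :=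
  ⨆ i ∈ S, MeasurableSpace.comap (fun ω : ℕ → G => ω i) inferInstance

lemma fil_mono {S T : Set ℕ} (h : S ⊆ T) : fil G S ≤ fil G T :=
  biSup_mono h

lemma fil_le (S : Set ℕ) : fil G S ≤ MeasurableSpace.pi := by
  refine iSup₂_le ?_
  intro i _
  exact (measurable_pi_apply i).comap_le

lemma fil_coord [DiscreteMeasurableSpace G] {S : Set ℕ} {i : ℕ} (hi : i ∈ S) (X : Set G) :
    MeasurableSet[fil G S] {ω : ℕ → G | ω i ∈ X} := by
  have h1 : MeasurableSpace.comap (fun ω : ℕ → G => ω i) inferInstance ≤ fil G S :=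
    le_iSup₂_of_le i hi le_rfl
  apply h1
  exact ⟨X, MeasurableSet.of_discrete, rfl⟩

variable (μ : Measure G) [IsProbabilityMeasure μ]

lemma indep_fil {S T : Set ℕ} (hST : Disjoint S T) (D E : Set (ℕ → G))
    (hD : MeasurableSet[fil G S] D) (hE : MeasurableSet[fil G T] E) :
    Measure.infinitePi (fun _ : ℕ => μ) (D ∩ E) =
      Measure.infinitePi (fun _ : ℕ => μ) D * Measure.infinitePi (fun _ : ℕ => μ) E := by
  have h1 : iIndepFun (fun (i : ℕ) (ω : ℕ → G) => ω i) (Measure.infinitePi (fun _ : ℕ => μ)) :=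
    iIndepFun_infinitePi (P := fun _ : ℕ => μ) (X := fun _ (x : G) => x) (fun _ => measurable_id)
  have h2 := indep_iSup_of_disjoint (fun i => (measurable_pi_apply i).comap_le) h1.iIndep hST
  exact (Indep_iff _ _ _).mp h2 D E hD hE

lemma seq_bound (E : ℕ → Set (ℕ → G)) (a b : ℕ → ℕ) (hab : ∀ r, a r ≤ b r)
    (hba : ∀ r, b r ≤ a (r + 1)) (hE : ∀ r, MeasurableSet[fil G (Set.Ico (a r) (b r))] (E r))
    (c : ℝ) (hc : ∀ r, c ≤ (Measure.infinitePi (fun _ : ℕ => μ)).real (E r)) (hc1 : c ≤ 1) (R : ℕ) :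
    MeasurableSet[fil G (Set.Iio (a R))] (⋂ r ∈ Finset.range R, (E r)ᶜ) ∧
    (Measure.infinitePi (fun _ : ℕ => μ)).real (⋂ r ∈ Finset.range R, (E r)ᶜ) ≤ (1 - c) ^ R := by
  induction R with
  | zero => simp
  | succ R ih =>
    have haR : a R ≤ a (R + 1) := (hab R).trans (hba R)
    obtain ⟨ih1, ih2⟩ := ih
    have hEq : (⋂ r ∈ Finset.range (R + 1), (E r)ᶜ) = (⋂ r ∈ Finset.range R, (E r)ᶜ) ∩ (E R)ᶜ := by
      rw [Finset.range_add_one, Finset.set_biInter_insert, Set.inter_comm]
    have hEm : MeasurableSet[fil G (Set.Ico (a R) (b R))] (E R)ᶜ := (hE R).compl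
    rw [hEq]
    constructor
    · apply MeasurableSet.inter
      · exact fil_mono (Set.Iio_subset_Iio haR) _ ih1
      · exact fil_mono (fun x hx => lt_of_lt_of_le hx.2 (hba R)) _ hEm
    · have hind := indep_fil μ (S := Set.Iio (a R)) (T := Set.Ico (a R) (b R))
        (Set.disjoint_left.mpr (fun x hx hx2 => absurd hx (not_lt.mpr hx2.1))) _ _ ih1 hEm
      have hreal : (Measure.infinitePi (fun _ : ℕ => μ)).real ((⋂ r ∈ Finset.range R, (E r)ᶜ) ∩ (E R)ᶜ) =
        (Measure.infinitePi (fun _ : ℕ => μ)).real (⋂ r ∈ Finset.range R, (E r)ᶜ) *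
        (Measure.infinitePi (fun _ : ℕ => μ)).real (E R)ᶜ := by
        simp only [Measure.real]
        rw [hind, ENNReal.toReal_mul]
      rw [hreal, pow_succ]
      have hcompl : (Measure.infinitePi (fun _ : ℕ => μ)).real (E R)ᶜ ≤ 1 - c := by
        rw [probReal_compl_eq_one_sub (fil_le _ _ (hE R))]
        have := hc R
        linarith
      exact mul_le_mul ih2 hcompl measureReal_nonneg (pow_nonneg (by linarith) _)

lemma one_meas [DiscreteMeasurableSpace G] (B : Finset ℕ) (g : G) (L : Set G) :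
    MeasurableSet[fil G (B : Set ℕ)] (one B g L) := by
  apply Finset.measurableSet_biUnion
  intro t ht
  have : {ω : ℕ → G | ω t = g ∧ ∀ t' ∈ B, t' ≠ t → ω t' ∈ L} =
      {ω | ω t ∈ ({g} : Set G)} ∩ ⋂ t' ∈ B.erase t, {ω | ω t' ∈ L} := by
    ext ω
    simp only [Set.mem_ofPred_eq, Set.mem_inter_iff, Set.mem_singleton_iff, Set.mem_iInter,
      Finset.mem_erase]
    constructor
    · rintro ⟨h1, h2⟩
      exact ⟨h1, fun t' h => h2 t' h.2 h.1⟩
    · rintro ⟨h1, h2⟩
      exact ⟨h1, fun t' h h' => h2 t' ⟨h', h⟩⟩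
  rw [this]
  apply MeasurableSet.inter
  · exact fil_coord (Finset.mem_coe.mpr ht) _
  · apply Finset.measurableSet_biInter
    intro t' ht'
    exact fil_coord (Finset.mem_coe.mpr (Finset.mem_of_mem_erase ht')) _

lemma one_prob [DiscreteMeasurableSpace G] (B : Finset ℕ) (g : G) (L : Set G) (hg : g ∉ L) :
    (Measure.infinitePi (fun _ : ℕ => μ)).real (one B g L) =
      B.card * (μ.real {g} * μ.real L ^ (B.card - 1)) := by
  unfold one
  have hbox : ∀ t ∈ B, Measure.infinitePi (fun _ : ℕ => μ)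
      {ω : ℕ → G | ω t = g ∧ ∀ t' ∈ B, t' ≠ t → ω t' ∈ L} = μ {g} * μ L ^ (B.card - 1) := by
    intro t ht
    have : {ω : ℕ → G | ω t = g ∧ ∀ t' ∈ B, t' ≠ t → ω t' ∈ L} =
        Set.pi (B : Set ℕ) (fun t' => if t' = t then {g} else L) := by
      ext ω
      simp only [Set.mem_ofPred_eq, Set.mem_pi, Finset.mem_coe]
      constructor
      · rintro ⟨h1, h2⟩ t' ht'
        split_ifs with h
        · rw [h]; exact h1
        · exact h2 t' ht' h
      · intro h
        refine ⟨?_, fun t' ht' hne => ?_⟩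
        · have := h t ht
          simpa using this
        · have := h t' ht'
          rwa [if_neg hne] at this
    rw [this, Measure.infinitePi_pi _ (fun i _ => MeasurableSet.of_discrete),
      ← Finset.mul_prod_erase B _ ht, if_pos rfl]
    congr 1
    rw [Finset.prod_congr rfl (g := fun _ => μ L), Finset.prod_const, Finset.card_erase_of_mem ht]
    intro x hx
    rw [if_neg (Finset.ne_of_mem_erase hx)]
  have hd : (B : Set ℕ).PairwiseDisjoint
      (fun t => {ω : ℕ → G | ω t = g ∧ ∀ t' ∈ B, t' ≠ t → ω t' ∈ L}) := by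
    intro t ht s hs hts
    rw [Function.onFun, Set.disjoint_left]
    rintro ω ⟨h1, _⟩ ⟨_, h4⟩
    have := h4 t ht hts
    rw [h1] at this
    exact hg this
  have hm : ∀ t ∈ B, MeasurableSet {ω : ℕ → G | ω t = g ∧ ∀ t' ∈ B, t' ≠ t → ω t' ∈ L} := by
    intro t ht
    have : {ω : ℕ → G | ω t = g ∧ ∀ t' ∈ B, t' ≠ t → ω t' ∈ L} =
        Set.pi (B : Set ℕ) (fun t' => if t' = t then {g} else L) := by
      ext ω
      simp only [Set.mem_ofPred_eq, Set.mem_pi, Finset.mem_coe]
      constructor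
      · rintro ⟨h1, h2⟩ t' ht'
        split_ifs with h
        · rw [h]; exact h1
        · exact h2 t' ht' h
      · intro h
        refine ⟨?_, fun t' ht' hne => ?_⟩
        · have := h t ht
          simpa using this
        · have := h t' ht'
          rwa [if_neg hne] at this
    rw [this]
    exact MeasurableSet.pi B.countable_toSet (fun _ _ => MeasurableSet.of_discrete)
  simp only [Measure.real]
  rw [measure_biUnion_finset hd hm, Finset.sum_congr rfl hbox, Finset.sum_const, nsmul_eq_mul,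
    ENNReal.toReal_mul, ENNReal.toReal_mul, ENNReal.toReal_pow, ENNReal.toReal_natCast]

/-- the probability that some coordinate `< Q` is outside `L` -/
lemma out_prob [DiscreteMeasurableSpace G] (Q : ℕ) (L : Set G) (w : ℝ) (hL : 1 - w ≤ μ.real L) :
    (Measure.infinitePi (fun _ : ℕ => μ)).real {ω : ℕ → G | ∃ t, t < Q ∧ ω t ∉ L} ≤ Q * w := by
  have : {ω : ℕ → G | ∃ t, t < Q ∧ ω t ∉ L} = ⋃ t ∈ Finset.range Q, {ω : ℕ → G | ω t ∈ Lᶜ} := by
    ext ω; simp
  rw [this]
  refine (measureReal_biUnion_finset_le _ _).trans ?_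
  have hcoord : ∀ t ∈ Finset.range Q, (Measure.infinitePi (fun _ : ℕ => μ)).real {ω : ℕ → G | ω t ∈ Lᶜ} ≤ w := by
    intro t _
    have h1 : Measure.infinitePi (fun _ : ℕ => μ) {ω : ℕ → G | ω t ∈ Lᶜ} = μ Lᶜ := by
      have h2 := Measure.infinitePi_map_eval (fun _ : ℕ => μ) t
      rw [← h2, Measure.map_apply (measurable_pi_apply t) MeasurableSet.of_discrete]
      rw [h2]; rfl
    simp only [Measure.real]
    rw [h1]
    have h3 := probReal_compl_eq_one_sub (μ := μ) (s := L) MeasurableSet.of_discrete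
    simp only [Measure.real] at h3 hL
    rw [h3]; linarith
  calc ∑ t ∈ Finset.range Q, (Measure.infinitePi (fun _ : ℕ => μ)).real {ω : ℕ → G | ω t ∈ Lᶜ}
      ≤ ∑ t ∈ Finset.range Q, w := Finset.sum_le_sum hcoord
    _ = Q * w := by simp

end gen

end Pool.Agent.Helpers25.AR
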