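import Mathlib
import Pool.Agent.H13.Fm.Basic

set_option autoImplicit false

namespace Pool.Agent.Helpers25.FS

open Pool.Agent.Results.MP_4f47f1_al H13.Fm

/-- quotient by a larger subgroup -/
theorem mem_quot (F : Formation) {X P : Type} [Group X] [Finite X] [Group P] [Finite P]
    (α : X →* P) (hα : Function.Surjective α) (hP : F.mem P) (N : Subgroup X) [N.Normal]
    (hN : α.ker ≤ N) : F.mem (X ⧸ N) :=
  mem_of_ker_le F (QuotientGroup.mk' N) (QuotientGroup.mk'_surjective N) α.ker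
    (by rw [QuotientGroup.ker_mk']; exact hN)
    (F.iso _ _ ⟨(QuotientGroup.quotientKerEquivOfSurjective α hα).symm⟩ hP)

theorem mem_mono (F : Formation) {X : Type} [Group X] [Finite X] (N N' : Subgroup X) [N.Normal]
    [N'.Normal] (h : N ≤ N') (hN : F.mem (X ⧸ N)) : F.mem (X ⧸ N') :=
  mem_quot F (QuotientGroup.mk' N) (QuotientGroup.mk'_surjective N) hN N'
    (by rw [QuotientGroup.ker_mk']; exact h)

theorem mem_of_bot (F : Formation) {X : Type} [Group X] [Finite X] (N : Subgroup X) [N.Normal]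
    (h : N ≤ ⊥) (hN : F.mem (X ⧸ N)) : F.mem X :=
  mem_of_ker_le F (MonoidHom.id X) Function.surjective_id N (fun x hx => by
    have := Subgroup.mem_bot.1 (h hx)
    rw [this]; exact one_mem _) hN

/-- the retraction onto a complement of a normal subgroup -/
theorem retr {A : Type} [Group A] (V S : Subgroup A) [V.Normal] (h1 : V ⊔ S = ⊤)
    (h2 : V ⊓ S = ⊥) : ∃ ρ : A →* A, (∀ a, ρ a ∈ S) ∧ (∀ a, (ρ a)⁻¹ * a ∈ V) := by
  let m : S →* A ⧸ V := (QuotientGroup.mk' V).comp S.subtype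
  have hm : Function.Bijective m := by
    constructor
    · rw [injective_iff_map_eq_one]
      intro s hs
      have hsV : (s : A) ∈ V := (QuotientGroup.eq_one_iff (s : A)).1 hs
      have : (s : A) ∈ V ⊓ S := ⟨hsV, s.2⟩
      rw [h2, Subgroup.mem_bot] at this
      exact Subtype.ext this
    · intro q
      obtain ⟨a, rfl⟩ := QuotientGroup.mk'_surjective V q
      have ha : a ∈ V ⊔ S := by rw [h1]; exact Subgroup.mem_top a
      obtain ⟨v, hv, s, hs, rfl⟩ := Subgroup.mem_sup_of_normal_left.1 ha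
      refine ⟨⟨s, hs⟩, ?_⟩
      change (QuotientGroup.mk' V) s = (QuotientGroup.mk' V) (v * s)
      rw [map_mul]
      have : (QuotientGroup.mk' V) v = 1 := (QuotientGroup.eq_one_iff v).2 hv
      rw [this, one_mul]
  let e : S ≃* A ⧸ V := MulEquiv.ofBijective m hm
  refine ⟨S.subtype.comp (e.symm.toMonoidHom.comp (QuotientGroup.mk' V)), fun a => ?_, fun a => ?_⟩
  · exact (e.symm (QuotientGroup.mk' V a)).2
  · have h3 : e (e.symm (QuotientGroup.mk' V a)) = QuotientGroup.mk' V a := e.apply_symm_apply _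
    have h4 : (QuotientGroup.mk' V) ((e.symm (QuotientGroup.mk' V a) : S) : A) =
        QuotientGroup.mk' V a := h3
    exact QuotientGroup.eq.1 h4

/-- the group of pairs congruent modulo `K` -/
def prs {A : Type} [Group A] (K : Subgroup A) [K.Normal] : Subgroup (A × A) where
  carrier := {p | p.1⁻¹ * p.2 ∈ K}
  one_mem' := by simp
  mul_mem' := by
    rintro ⟨a, b⟩ ⟨a', b'⟩ h h'
    have h : a⁻¹ * b ∈ K := h
    have h' : a'⁻¹ * b' ∈ K := h'
    have h2 := K.mul_mem (Subgroup.Normal.conj_mem ‹K.Normal› _ h a'⁻¹) h'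
    have e : a'⁻¹ * (a⁻¹ * b) * a'⁻¹⁻¹ * (a'⁻¹ * b') = (a * a')⁻¹ * (b * b') := by group
    rw [e] at h2
    exact h2
  inv_mem' := by
    rintro ⟨a, b⟩ h
    have h : a⁻¹ * b ∈ K := h
    have h2 := Subgroup.Normal.conj_mem ‹K.Normal› _ (K.inv_mem h) a
    have e : a * (a⁻¹ * b)⁻¹ * a⁻¹ = (a⁻¹)⁻¹ * b⁻¹ := by group
    rw [e] at h2
    exact h2

/-- Barnes–Kegel argument -/
theorem bk (F : Formation) {A B : Type} [Group A] [Finite A] [Group B] [Finite B]
    (K X : Subgroup A) [K.Normal] [X.Normal] (hF : F.mem (A ⧸ X)) (β : A →* B)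
    (hβ : Function.Surjective β) (V S C : Subgroup B) (hV : V = K.map β) [V.Normal]
    (hcomm : ∀ u ∈ V, ∀ v ∈ V, u * v = v * u) (h1 : V ⊔ S = ⊤) (h2 : V ⊓ S = ⊥)
    (hX1 : ∀ x ∈ X, x ∈ K → β x = 1) (hX2 : ∀ x ∈ X, ∀ v ∈ V, β x * v = v * β x)
    (hC : ∀ b, b ∈ S → (∀ v ∈ V, b * v = v * b) → b ∈ C) [C.Normal] : F.mem (B ⧸ C) := by
  obtain ⟨ρ, hρ1, hρ2⟩ := retr V S h1 h2
  have hKV : ∀ k ∈ K, β k ∈ V := fun k hk => by rw [hV]; exact ⟨k, hk, rfl⟩
  let θ : prs K →* B :=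
    { toFun := fun p => ρ (β p.1.1) * β (p.1.1⁻¹ * p.1.2)
      map_one' := by simp
      map_mul' := by
        rintro ⟨⟨a, b⟩, h⟩ ⟨⟨a', b'⟩, h'⟩
        have h : a⁻¹ * b ∈ K := h
        have hv := hKV _ h
        obtain ⟨r, hr⟩ : ∃ r, r = ρ (β a') := ⟨_, rfl⟩
        obtain ⟨x, hx⟩ : ∃ x, x = β a' := ⟨_, rfl⟩
        obtain ⟨w, hw⟩ : ∃ w, w = r⁻¹ * x := ⟨_, rfl⟩
        have hwV : w ∈ V := by rw [hw, hr, hx]; exact hρ2 _
        obtain ⟨v, hv'⟩ : ∃ v, v = β (a⁻¹ * b) := ⟨_, rfl⟩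
        have hvV : v ∈ V := by rw [hv']; exact hv
        have hy : r⁻¹ * v * r ∈ V := by
          have := Subgroup.Normal.conj_mem ‹V.Normal› _ hvV r⁻¹
          simpa using this
        have hxw : x = r * w := by rw [hw]; group
        have key : v * r = r * (x⁻¹ * v * x) := by
          have e1 : r * (x⁻¹ * v * x) = r * (w⁻¹ * ((r⁻¹ * v * r) * w)) := by
            rw [hxw]; group
          rw [e1, hcomm _ hy _ hwV]
          group
        change ρ (β (a * a')) * β ((a * a')⁻¹ * (b * b')) =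
          (ρ (β a) * β (a⁻¹ * b)) * (ρ (β a') * β (a'⁻¹ * b'))
        have e2 : β ((a * a')⁻¹ * (b * b')) = (x⁻¹ * v * x) * β (a'⁻¹ * b') := by
          rw [hx, hv', ← map_inv, ← map_mul, ← map_mul, ← map_mul]
          congr 1
          group
        rw [e2, map_mul, map_mul, ← hv', ← hr]
        calc ρ (β a) * r * (x⁻¹ * v * x * β (a'⁻¹ * b')) =
              ρ (β a) * (r * (x⁻¹ * v * x)) * β (a'⁻¹ * b') := by group
          _ = ρ (β a) * (v * r) * β (a'⁻¹ * b') := by rw [key]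
          _ = _ := by group }
  have hθ : ∀ p : prs K, θ p = ρ (β p.1.1) * β (p.1.1⁻¹ * p.1.2) := fun _ => rfl
  let p1 : prs K →* A ⧸ X := (QuotientGroup.mk' X).comp ((MonoidHom.fst A A).comp (prs K).subtype)
  let p2 : prs K →* A ⧸ X := (QuotientGroup.mk' X).comp ((MonoidHom.snd A A).comp (prs K).subtype)
  have diag : ∀ a : A, (a, a) ∈ prs K := fun a => by
    change a⁻¹ * a ∈ K
    simp
  have s1 : Function.Surjective p1 := by
    intro q
    obtain ⟨a, rfl⟩ := QuotientGroup.mk'_surjective X q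
    exact ⟨⟨(a, a), diag a⟩, rfl⟩
  have s2 : Function.Surjective p2 := by
    intro q
    obtain ⟨a, rfl⟩ := QuotientGroup.mk'_surjective X q
    exact ⟨⟨(a, a), diag a⟩, rfl⟩
  refine mem_of_ker_le F ((QuotientGroup.mk' C).comp θ) ?_ (p1.ker ⊓ p2.ker) ?_
    (mem_sub F p1 p2 s1 s2 hF hF)
  · intro q
    obtain ⟨b, rfl⟩ := QuotientGroup.mk'_surjective C q
    obtain ⟨a, rfl⟩ := hβ b
    have h3 : (ρ (β a))⁻¹ * β a ∈ V := hρ2 _
    rw [hV] at h3
    obtain ⟨k, hk, hk'⟩ := h3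
    refine ⟨⟨(a, a * k), ?_⟩, ?_⟩
    · change a⁻¹ * (a * k) ∈ K
      rw [inv_mul_cancel_left]; exact hk
    · change QuotientGroup.mk' C (ρ (β a) * β (a⁻¹ * (a * k))) = QuotientGroup.mk' C (β a)
      rw [inv_mul_cancel_left, hk', mul_inv_cancel_left]
  · rintro ⟨⟨a, b⟩, hab⟩ ⟨ha, hb⟩
    have ha : a ∈ X := (QuotientGroup.eq_one_iff a).1 ha
    have hb : b ∈ X := (QuotientGroup.eq_one_iff b).1 hb
    have h3 : β (a⁻¹ * b) = 1 := hX1 _ (X.mul_mem (X.inv_mem ha) hb) hab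
    rw [MonoidHom.mem_ker]
    change QuotientGroup.mk' C (ρ (β a) * β (a⁻¹ * b)) = 1
    rw [h3, mul_one]
    apply (QuotientGroup.eq_one_iff _).2
    apply hC _ (hρ1 _)
    intro v hv
    have hw := hρ2 (β a)
    obtain ⟨w, hw'⟩ : ∃ w, w = (ρ (β a))⁻¹ * β a := ⟨_, rfl⟩
    rw [← hw'] at hw
    have e : ρ (β a) = β a * w⁻¹ := by rw [hw']; group
    have hcw : w⁻¹ * v = v * w⁻¹ := hcomm _ (V.inv_mem hw) _ hv
    rw [e]
    calc β a * w⁻¹ * v = β a * (w⁻¹ * v) := by group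
      _ = (β a * v) * w⁻¹ := by rw [hcw]; group
      _ = v * (β a * w⁻¹) := by rw [hX2 a ha v hv]; group

end Pool.Agent.Helpers25.FS
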