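import Mathlib
import Pool.Agent.Helpers25.FormBK

set_option autoImplicit false

namespace Pool.Agent.Helpers25.FS

open Pool.Agent.Results.MP_4f47f1_al H13.Fm

/-- saturated classes -/
def Sat (F : Formation) : Prop :=
  ∀ (G : Type) [Group G] [Finite G], F.mem (G ⧸ frattini G) → F.mem G

/-- The step for a minimal normal abelian subgroup `V = β(K₀)`. -/
theorem abelian_step (F₁ F₂ H : Formation) (hH : Sat H) (hinf : F₁ ⊓ F₂ = H)
    {X B : Type} [Group X] [Finite X] [Group B] [Finite B] (K Y : Subgroup X) [K.Normal]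
    [Y.Normal] (hY : F₁.mem (X ⧸ Y)) (hB : F₂.mem B) (β : X →* B) (hβ : Function.Surjective β)
    (V : Subgroup B) (hV : V = K.map β) [V.Normal] (hcomm : ∀ u ∈ V, ∀ v ∈ V, u * v = v * u)
    (hmin : ∀ W : Subgroup B, W.Normal → W ≤ V → W = ⊥ ∨ W = V)
    (hX1 : ∀ x ∈ Y, x ∈ K → β x = 1) (hX2 : ∀ x ∈ Y, ∀ v ∈ V, β x * v = v * β x)
    (hHV : H.mem (B ⧸ V)) : H.mem B := by
  by_cases hfr : V ≤ frattini B
  · exact hH B (mem_mono H V (frattini B) hfr hHV)
  · have : ∃ S : Subgroup B, IsCoatom S ∧ ¬ V ≤ S := by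
      by_contra hcon
      push Not at hcon
      apply hfr
      unfold frattini Order.radical
      exact le_iInf₂ fun S hS => hcon S hS
    obtain ⟨S, hS, hVS⟩ := this
    have h1 : V ⊔ S = ⊤ := by
      apply hS.2
      rw [lt_iff_le_and_ne]
      refine ⟨le_sup_right, fun h => hVS ?_⟩
      rw [h]; exact le_sup_left
    have dec : ∀ g : B, ∃ v ∈ V, ∃ s ∈ S, v * s = g := by
      intro g
      have hg : g ∈ V ⊔ S := by rw [h1]; exact Subgroup.mem_top g
      exact Subgroup.mem_sup_of_normal_left.1 hg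
    have hN : (V ⊓ S).Normal := by
      constructor
      rintro w ⟨hw1, hw2⟩ g
      obtain ⟨v, hv, s, hs, rfl⟩ := dec g
      have h3 : s * w * s⁻¹ ∈ V := Subgroup.Normal.conj_mem ‹V.Normal› _ hw1 s
      have h4 : s * w * s⁻¹ ∈ S := S.mul_mem (S.mul_mem hs hw2) (S.inv_mem hs)
      have h5 : v * (s * w * s⁻¹) = (s * w * s⁻¹) * v := hcomm _ hv _ h3
      have e : v * s * w * (v * s)⁻¹ = s * w * s⁻¹ := by
        calc v * s * w * (v * s)⁻¹ = v * (s * w * s⁻¹) * v⁻¹ := by group
          _ = (s * w * s⁻¹) * v * v⁻¹ := by rw [h5]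
          _ = s * w * s⁻¹ := by group
      rw [e]
      exact ⟨h3, h4⟩
    have h2 : V ⊓ S = ⊥ := by
      rcases hmin _ hN inf_le_left with h | h
      · exact h
      · exact absurd (inf_eq_left.1 h) hVS
    obtain ⟨C, hCdef⟩ : ∃ C, C = S ⊓ Subgroup.centralizer (V : Set B) := ⟨_, rfl⟩
    have hCmem : ∀ c, c ∈ C ↔ c ∈ S ∧ ∀ v ∈ V, c * v = v * c := by
      intro c
      rw [hCdef, Subgroup.mem_inf, Subgroup.mem_centralizer_iff]
      constructor
      · rintro ⟨h3, h4⟩
        exact ⟨h3, fun v hv => (h4 v hv).symm⟩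
      · rintro ⟨h3, h4⟩
        exact ⟨h3, fun v hv => (h4 v hv).symm⟩
    have hCN : C.Normal := by
      constructor
      intro c hc g
      obtain ⟨hc1, hc2⟩ := (hCmem c).1 hc
      obtain ⟨v, hv, s, hs, rfl⟩ := dec g
      obtain ⟨c', hc'⟩ : ∃ c', c' = s * c * s⁻¹ := ⟨_, rfl⟩
      have h3 : c' ∈ S := by rw [hc']; exact S.mul_mem (S.mul_mem hs hc1) (S.inv_mem hs)
      have h4 : ∀ u ∈ V, c' * u = u * c' := by
        intro u hu
        have h5 : s⁻¹ * u * s ∈ V := by
          have := Subgroup.Normal.conj_mem ‹V.Normal› _ hu s⁻¹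
          simpa using this
        have h6 := hc2 _ h5
        rw [hc']
        calc s * c * s⁻¹ * u = s * (c * (s⁻¹ * u * s)) * s⁻¹ := by group
          _ = s * ((s⁻¹ * u * s) * c) * s⁻¹ := by rw [h6]
          _ = u * (s * c * s⁻¹) := by group
      have e : v * s * c * (v * s)⁻¹ = c' := by
        have h5 := h4 v hv
        calc v * s * c * (v * s)⁻¹ = v * c' * v⁻¹ := by rw [hc']; group
          _ = c' * v * v⁻¹ := by rw [h5]
          _ = c' := by group
      rw [e]
      exact (hCmem c').2 ⟨h3, h4⟩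
    have g1 : F₁.mem (B ⧸ C) := bk F₁ K Y hY β hβ V S C hV hcomm h1 h2 hX1 hX2
      (fun b hb1 hb2 => (hCmem b).2 ⟨hb1, hb2⟩)
    have g2 : F₂.mem (B ⧸ C) := F₂.quot B C hB
    have g3 : H.mem (B ⧸ C) := by rw [← hinf, mem_inf]; exact ⟨g1, g2⟩
    have g4 := H.sub B V C hHV g3
    refine mem_of_bot H (V ⊓ C) ?_ g4
    rw [← h2]
    exact inf_le_inf_left V (by rw [hCdef]; exact inf_le_left)

theorem core (F₁ F₂ H : Formation) (hH : Sat H) (hinf : F₁ ⊓ F₂ = H)
    {G : Type} [Group G] [Finite G] (hG : F₁.mem (G ⧸ frattini G))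
    (ih : ∀ L : Subgroup G, ∀ [L.Normal], L ≠ ⊥ → F₁.mem (G ⧸ L)) (n : ℕ) :
    ∀ (X : Type) [Group X] [Finite X], Nat.card X = n → ∀ f : X →* G, Function.Surjective f →
      ∀ (N₁ N₂ : Subgroup X) [N₁.Normal] [N₂.Normal], N₁ ⊓ N₂ = ⊥ → F₁.mem (X ⧸ N₂) →
      F₂.mem (X ⧸ N₁) → F₁.mem G := by
  induction n using Nat.strong_induction_on with
  | _ n IH =>
    intro X _ _ hn f hf N₁ N₂ _ _ h12 hF1 hF2
    have imF : ∀ {Z : Type} [Group Z] [Finite Z], F₁.mem Z → F₂.mem Z → H.mem Z := by
      intro Z _ _ h1 h2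
      rw [← hinf, mem_inf]; exact ⟨h1, h2⟩
    have hHF1 : ∀ {Z : Type} [Group Z] [Finite Z], H.mem Z → F₁.mem Z := by
      intro Z _ _ h
      rw [← hinf, mem_inf] at h; exact h.1
    -- reduction step
    have red : ∀ D : Subgroup X, D.Normal → D ≤ f.ker → (D ≤ N₁ ∨ D ≤ N₂) → D ≠ ⊥ → F₁.mem G := by
      intro D hD hDf hDN hD0
      have := hD
      have hm := QuotientGroup.mk'_surjective D
      have a1 : (N₁.map (QuotientGroup.mk' D)).Normal := Subgroup.Normal.map ‹_› _ hm
      have a2 : (N₂.map (QuotientGroup.mk' D)).Normal := Subgroup.Normal.map ‹_› _ hm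
      have hcard : Nat.card (X ⧸ D) < n := by
        rw [← hn]
        have h3 := Subgroup.card_eq_card_quotient_mul_card_subgroup D
        have h4 : 1 < Nat.card D := (Subgroup.one_lt_card_iff_ne_bot D).2 hD0
        have h5 : 0 < Nat.card (X ⧸ D) := Nat.card_pos
        rw [h3]
        nlinarith
      refine IH _ hcard (X ⧸ D) rfl (QuotientGroup.lift D f hDf) ?_ (N₁.map (QuotientGroup.mk' D))
        (N₂.map (QuotientGroup.mk' D)) ?_ ?_ ?_
      · intro g
        obtain ⟨x, rfl⟩ := hf g
        exact ⟨QuotientGroup.mk x, rfl⟩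
      · rw [eq_bot_iff]
        rintro _ ⟨⟨x, hx, rfl⟩, ⟨y, hy, hxy⟩⟩
        have h3 : x⁻¹ * y ∈ D := by
          have : (QuotientGroup.mk' D) x = (QuotientGroup.mk' D) y := hxy.symm
          exact QuotientGroup.eq.1 this
        rw [Subgroup.mem_bot]
        rcases hDN with h | h
        · have h4 : y ∈ N₁ := by
            have := N₁.mul_mem hx (h h3)
            rwa [mul_inv_cancel_left] at this
          have h5 : y ∈ N₁ ⊓ N₂ := ⟨h4, hy⟩
          rw [h12, Subgroup.mem_bot] at h5
          rw [← hxy, h5, map_one]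
        · have h4 : x ∈ N₂ := by
            have := N₂.mul_mem hy (N₂.inv_mem (h h3))
            have e : y * (x⁻¹ * y)⁻¹ = x := by group
            rwa [e] at this
          have h5 : x ∈ N₁ ⊓ N₂ := ⟨hx, h4⟩
          rw [h12, Subgroup.mem_bot] at h5
          rw [h5, map_one]
      · refine mem_of_ker_le F₁ ((QuotientGroup.mk' _).comp (QuotientGroup.mk' D)) ?_ N₂ ?_ hF1
        · exact (QuotientGroup.mk'_surjective _).comp hm
        · intro x hx
          rw [MonoidHom.mem_ker]
          exact (QuotientGroup.eq_one_iff _).2 ⟨x, hx, rfl⟩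
      · refine mem_of_ker_le F₂ ((QuotientGroup.mk' _).comp (QuotientGroup.mk' D)) ?_ N₁ ?_ hF2
        · exact (QuotientGroup.mk'_surjective _).comp hm
        · intro x hx
          rw [MonoidHom.mem_ker]
          exact (QuotientGroup.eq_one_iff _).2 ⟨x, hx, rfl⟩
    by_cases hk1 : f.ker ⊓ N₁ = ⊥
    swap
    · exact red _ inferInstance inf_le_left (Or.inl inf_le_right) hk1
    by_cases hk2 : f.ker ⊓ N₂ = ⊥
    swap
    · exact red _ inferInstance inf_le_left (Or.inr inf_le_right) hk2
    -- commutation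
    have hc1 : ∀ k ∈ f.ker, ∀ y ∈ N₁, k * y = y * k := fun k hk y hy =>
      Subgroup.commute_of_normal_of_disjoint f.ker N₁ inferInstance inferInstance
        (disjoint_iff.2 hk1) k y hk hy
    have hc2 : ∀ k ∈ f.ker, ∀ y ∈ N₂, k * y = y * k := fun k hk y hy =>
      Subgroup.commute_of_normal_of_disjoint f.ker N₂ inferInstance inferInstance
        (disjoint_iff.2 hk2) k y hk hy
    have hc12 : ∀ k ∈ f.ker, ∀ y ∈ N₁ ⊔ N₂, k * y = y * k := by
      intro k hk y hy
      obtain ⟨u, hu, v, hv, rfl⟩ := Subgroup.mem_sup_of_normal_right.1 hy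
      calc k * (u * v) = (k * u) * v := by group
        _ = u * (k * v) := by rw [hc1 k hk u hu]; group
        _ = u * v * k := by rw [hc2 k hk v hv]; group
    by_cases hN1 : N₁ = ⊥
    · have h3 : F₂.mem X := mem_of_bot F₂ N₁ hN1.le hF2
      have h4 : F₂.mem G := mem_of_surj F₂ f hf h3
      have h5 : H.mem (G ⧸ frattini G) := imF hG (F₂.quot G _ h4)
      exact hHF1 (hH G h5)
    · -- `N₁` is nontrivial
      have b1 : (N₁.map f).Normal := Subgroup.Normal.map ‹_› _ hf
      have hL : N₁.map f ≠ ⊥ := by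
        intro h
        apply hN1
        rw [← hk1, eq_comm, inf_eq_right]
        intro x hx
        have : f x ∈ N₁.map f := ⟨x, hx, rfl⟩
        rw [h, Subgroup.mem_bot] at this
        exact this
      have hGL := ih (N₁.map f) hL
      have hA : H.mem (X ⧸ (N₁ ⊔ f.ker)) := by
        apply imF
        · refine mem_quot F₁ ((QuotientGroup.mk' (N₁.map f)).comp f)
            ((QuotientGroup.mk'_surjective _).comp hf) hGL _ ?_
          intro x hx
          have h3 : f x ∈ N₁.map f := (QuotientGroup.eq_one_iff _).1 hx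
          obtain ⟨y, hy, hxy⟩ := h3
          have h4 : y⁻¹ * x ∈ f.ker := by
            rw [MonoidHom.mem_ker, map_mul, map_inv, hxy]; simp
          have h5 := Subgroup.mul_mem_sup hy h4
          rwa [mul_inv_cancel_left] at h5
        · exact mem_mono F₂ N₁ _ le_sup_left hF2
      have hBB : H.mem (X ⧸ (N₁ ⊔ N₂)) :=
        imF (mem_mono F₁ N₂ _ le_sup_right hF1) (mem_mono F₂ N₁ _ le_sup_left hF2)
      -- minimal `T`
      let P : Subgroup X → Prop := fun T => ∃ _ : T.Normal, N₁ ≤ T ∧ H.mem (X ⧸ T)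
      obtain ⟨T, hT⟩ := (Set.toFinite {T | P T}).exists_minimal ⟨N₁ ⊔ N₂, inferInstance,
        le_sup_left, hBB⟩
      obtain ⟨hTn, hT1, hT2⟩ := hT.prop
      have hTmin : ∀ Y, P Y → T ≤ Y := by
        rintro Y ⟨hYn, hY1, hY2⟩
        have h3 : P (T ⊓ Y) := ⟨inferInstance, le_inf hT1 hY1, H.sub X T Y hT2 hY2⟩
        exact (hT.le_of_le h3 inf_le_left).trans inf_le_right
      have hTK : T ≤ N₁ ⊔ f.ker := hTmin _ ⟨inferInstance, le_sup_left, hA⟩
      have hTN : T ≤ N₁ ⊔ N₂ := hTmin _ ⟨inferInstance, le_sup_left, hBB⟩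
      -- decomposition of `T`
      obtain ⟨K₀, hK₀⟩ : ∃ K₀, K₀ = T ⊓ f.ker := ⟨_, rfl⟩
      have hK₀n : K₀.Normal := by rw [hK₀]; infer_instance
      have hK₀T : K₀ ≤ T := by rw [hK₀]; exact inf_le_left
      have hK₀K : K₀ ≤ f.ker := by rw [hK₀]; exact inf_le_right
      have hTdec : ∀ t ∈ T, ∃ y ∈ N₁, ∃ k ∈ K₀, y * k = t := by
        intro t ht
        obtain ⟨y, hy, k, hk, hyk⟩ := Subgroup.mem_sup_of_normal_right.1 (hTK ht)
        refine ⟨y, hy, k, ?_, hyk⟩
        rw [hK₀]
        refine ⟨?_, hk⟩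
        have : k = y⁻¹ * t := by rw [← hyk]; group
        rw [this]
        exact T.mul_mem (T.inv_mem (hT1 hy)) ht
      by_cases hK₀0 : K₀ = ⊥
      · have hTN1 : T ≤ N₁ := by
          intro t ht
          obtain ⟨y, hy, k, hk, rfl⟩ := hTdec t ht
          rw [hK₀0, Subgroup.mem_bot] at hk
          rw [hk, mul_one]; exact hy
        have h3 : F₁.mem (X ⧸ N₁) := hHF1 (mem_mono H T N₁ hTN1 hT2)
        have h4 := F₁.sub X N₁ N₂ h3 hF1
        exact mem_of_surj F₁ f hf (mem_of_bot F₁ _ h12.le h4)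
      · exfalso
        obtain ⟨K₁, hK₁⟩ := (Set.toFinite {K₁ : Subgroup X | K₁.Normal ∧ K₁ < K₀}).exists_maximal
          ⟨⊥, inferInstance, bot_lt_iff_ne_bot.2 hK₀0⟩
        obtain ⟨hK₁n, hK₁lt⟩ := hK₁.prop
        have hK₁le : K₁ ≤ K₀ := hK₁lt.le
        obtain ⟨B, hB⟩ : ∃ B, B = N₁ ⊔ K₁ := ⟨_, rfl⟩
        have hBn : B.Normal := by rw [hB]; infer_instance
        have hKB : ∀ x ∈ K₀, x ∈ B → x ∈ K₁ := by
          intro x hx hxB
          rw [hB] at hxB
          obtain ⟨y, hy, k, hk, rfl⟩ := Subgroup.mem_sup_of_normal_right.1 hxB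
          have h3 : y ∈ f.ker ⊓ N₁ := by
            refine ⟨?_, hy⟩
            have := f.ker.mul_mem (hK₀K hx) (f.ker.inv_mem (hK₀K (hK₁le hk)))
            rwa [mul_inv_cancel_right] at this
          rw [hk1, Subgroup.mem_bot] at h3
          rw [h3, one_mul]; exact hk
        have hm := QuotientGroup.mk'_surjective B
        have hVn : (K₀.map (QuotientGroup.mk' B)).Normal := Subgroup.Normal.map ‹_› _ hm
        have hKcomm : ∀ x ∈ f.ker, ∀ k ∈ K₀, x * k = k * x := fun x hx k hk =>
          hc12 x hx k (hTN (hK₀T hk))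
        have hHB : H.mem (X ⧸ B) := by
          refine abelian_step F₁ F₂ H hH hinf K₀ (N₂ ⊔ K₁) (mem_mono F₁ N₂ _ le_sup_left hF1)
            (mem_mono F₂ N₁ _ (by rw [hB]; exact le_sup_left) hF2) (QuotientGroup.mk' B) hm
            (K₀.map (QuotientGroup.mk' B)) rfl ?_ ?_ ?_ ?_ ?_
          · rintro _ ⟨x, hx, rfl⟩ _ ⟨y, hy, rfl⟩
            rw [← map_mul, ← map_mul, hKcomm x (hK₀K hx) y hy]
          · intro W hWn hW
            have := hWn
            have hWc : ((W.comap (QuotientGroup.mk' B)) ⊓ K₀).Normal := inferInstance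
            by_cases hW' : (W.comap (QuotientGroup.mk' B)) ⊓ K₀ = K₀
            · right
              apply le_antisymm hW
              rintro _ ⟨x, hx, rfl⟩
              have : x ∈ (W.comap (QuotientGroup.mk' B)) ⊓ K₀ := by rw [hW']; exact hx
              exact this.1
            · left
              have hlt : (W.comap (QuotientGroup.mk' B)) ⊓ K₀ < K₀ :=
                lt_of_le_of_ne inf_le_right hW'
              have hsub : K₁ ≤ (W.comap (QuotientGroup.mk' B)) ⊓ K₀ := by
                refine le_inf ?_ hK₁le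
                intro x hx
                have : (QuotientGroup.mk' B) x = 1 :=
                  (QuotientGroup.eq_one_iff x).2 (by rw [hB]; exact Subgroup.mem_sup_right hx)
                rw [Subgroup.mem_comap, this]; exact one_mem _
              have hle := hK₁.le_of_ge ⟨hWc, hlt⟩ hsub
              rw [eq_bot_iff]
              intro w hw
              obtain ⟨x, hx, rfl⟩ := hW hw
              have h3 : x ∈ K₁ := hle ⟨hw, hx⟩
              rw [Subgroup.mem_bot]
              exact (QuotientGroup.eq_one_iff x).2 (by rw [hB]; exact Subgroup.mem_sup_right h3)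
          · intro x hx hxK
            obtain ⟨y, hy, k, hk, rfl⟩ := Subgroup.mem_sup_of_normal_right.1 hx
            have h3 : y ∈ f.ker ⊓ N₂ := by
              refine ⟨?_, hy⟩
              have := f.ker.mul_mem (hK₀K hxK) (f.ker.inv_mem (hK₀K (hK₁le hk)))
              rwa [mul_inv_cancel_right] at this
            rw [hk2, Subgroup.mem_bot] at h3
            rw [h3, one_mul]
            exact (QuotientGroup.eq_one_iff k).2 (by rw [hB]; exact Subgroup.mem_sup_right hk)
          · rintro x hx _ ⟨z, hz, rfl⟩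
            obtain ⟨y, hy, k, hk, rfl⟩ := Subgroup.mem_sup_of_normal_right.1 hx
            rw [← map_mul, ← map_mul]
            congr 1
            have h3 : z * y = y * z := hc2 z (hK₀K hz) y hy
            have h4 : k * z = z * k := hKcomm k (hK₀K (hK₁le hk)) z hz
            calc y * k * z = y * (k * z) := by group
              _ = (y * z) * k := by rw [h4]; group
              _ = z * (y * k) := by rw [← h3]; group
          · refine mem_of_ker_le H ((QuotientGroup.mk' _).comp (QuotientGroup.mk' B))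
              ((QuotientGroup.mk'_surjective _).comp hm) T ?_ hT2
            intro t ht
            obtain ⟨y, hy, k, hk, rfl⟩ := hTdec t ht
            rw [MonoidHom.mem_ker]
            apply (QuotientGroup.eq_one_iff _).2
            refine ⟨k, hk, ?_⟩
            rw [map_mul]
            have : (QuotientGroup.mk' B) y = 1 :=
              (QuotientGroup.eq_one_iff y).2 (by rw [hB]; exact Subgroup.mem_sup_left hy)
            rw [this, one_mul]
        have hTB : T ≤ B := hTmin B ⟨hBn, by rw [hB]; exact le_sup_left, hHB⟩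
        exact absurd (fun x hx => hKB x hx (hTB (hK₀T hx)) : K₀ ≤ K₁) hK₁lt.not_ge

theorem sat_left (F₁ F₂ H M : Formation) (hH : Sat H) (hM : Sat M) (hinf : F₁ ⊓ F₂ = H)
    (hsup : F₁ ⊔ F₂ = M) : Sat F₁ := by
  have key : ∀ n : ℕ, ∀ (G : Type) [Group G] [Finite G], Nat.card G = n →
      F₁.mem (G ⧸ frattini G) → F₁.mem G := by
    intro n
    induction n using Nat.strong_induction_on with
    | _ n IH =>
      intro G _ _ hn hG
      by_cases hF2 : F₂ = ⊥
      · have : F₁ = M := by rw [← hsup, hF2, sup_bot_eq]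
        rw [this] at hG ⊢
        exact hM G hG
      have hF1 : F₁ ≠ ⊥ := by
        intro h
        rw [h] at hG
        exact not_mem_bot hG
      have hMG : M.mem G := hM G ((by rw [← hsup]; exact le_sup_left : F₁ ≤ M) _ hG)
      rw [← hsup] at hMG
      obtain ⟨X, U, V, _, _, _, _, _, _, f, φ, ψ, h1, h2, h3, h4, h5, h6⟩ := J_of_sup hF1 hF2 hMG
      refine core F₁ F₂ H hH hinf hG ?_ (Nat.card X) X rfl f h1 ψ.ker φ.ker
        (by rw [inf_comm]; exact h6) ?_ ?_
      · intro L hLn hL
        have hcard : Nat.card (G ⧸ L) < n := by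
          rw [← hn]
          have h7 := Subgroup.card_eq_card_quotient_mul_card_subgroup L
          have h8 : 1 < Nat.card L := (Subgroup.one_lt_card_iff_ne_bot L).2 hL
          have h9 : 0 < Nat.card (G ⧸ L) := Nat.card_pos
          rw [h7]
          nlinarith
        refine IH _ hcard (G ⧸ L) rfl ?_
        refine mem_of_ker_le F₁ ((QuotientGroup.mk' (frattini (G ⧸ L))).comp (QuotientGroup.mk' L))
          ((QuotientGroup.mk'_surjective _).comp (QuotientGroup.mk'_surjective _)) (frattini G) ?_ hG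
        intro x hx
        have h7 := frattini_le_comap_frattini_of_surjective (QuotientGroup.mk'_surjective L) hx
        rw [MonoidHom.mem_ker]
        exact (QuotientGroup.eq_one_iff _).2 h7
      · exact mem_quot F₁ φ h2 h4 φ.ker le_rfl
      · exact mem_quot F₂ ψ h3 h5 ψ.ker le_rfl
  intro G _ _ hG
  exact key _ G rfl hG

end Pool.Agent.Helpers25.FS
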