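import Mathlib

/-!
# An infinite finitely generated torsion group (the Gupta–Sidki 3-group)
-/

namespace Pool.Agent.Helpers25.GS

open Equiv

abbrev Z := ZMod 3

/-- rotation of the first letter -/
def Af (j : Z) : List Z → List Z
  | [] => []
  | x :: w => (x + j) :: w

/-- the directed generator -/
def Tf (e : Z) : List Z → List Z
  | [] => []
  | x :: w => if x = 0 then x :: Af e w else if x = 1 then x :: Af (-e) w else x :: Tf e w

theorem c3 (x : Z) : x = 0 ∨ x = 1 ∨ x = 2 := by revert x; decide
theorem c2 (i : Z) (hi : ¬ i = 0) : i = 1 ∨ i = 2 := by revert i; decide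
theorem t3 (e : Z) : e + e + e = 0 := by revert e; decide
theorem t4 (x i : Z) : x + i + i + i = x := by revert x i; decide
theorem kk (x k : Z) (h : (if x = k then 0 else if x = k + 1 then 0 else 1) = 1) : k = x - 2 := by
  revert x k; decide

theorem Af_add (i j : Z) (w : List Z) : Af i (Af j w) = Af (i + j) w := by
  cases w with
  | nil => rfl
  | cons x w => simp only [Af]; congr 1; ring

theorem Af_zero (w : List Z) : Af 0 w = w := by
  cases w with
  | nil => rfl
  | cons x w => simp [Af]

theorem Tf_add (i j : Z) (w : List Z) : Tf i (Tf j w) = Tf (i + j) w := by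
  induction w with
  | nil => rfl
  | cons x w ih =>
    by_cases h0 : x = 0
    · simp [Tf, h0, Af_add]
    · by_cases h1 : x = 1
      · simp [Tf, h1, Af_add, add_comm]
      · simp [Tf, h0, h1, ih]

theorem Tf_zero (w : List Z) : Tf 0 w = w := by
  induction w with
  | nil => rfl
  | cons x w ih =>
    by_cases h0 : x = 0
    · simp [Tf, h0, Af_zero]
    · by_cases h1 : x = 1
      · simp [Tf, h1, Af_zero]
      · simp [Tf, h0, h1, ih]

abbrev P := Perm (List Z)

def A (j : Z) : P where
  toFun := Af j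
  invFun := Af (-j)
  left_inv w := by rw [Af_add]; simp [Af_zero]
  right_inv w := by rw [Af_add]; simp [Af_zero]

def T (e : Z) : P where
  toFun := Tf e
  invFun := Tf (-e)
  left_inv w := by rw [Tf_add]; simp [Tf_zero]
  right_inv w := by rw [Tf_add]; simp [Tf_zero]

theorem A_apply (j : Z) (w : List Z) : A j w = Af j w := rfl
theorem T_apply (j : Z) (w : List Z) : T j w = Tf j w := rfl

theorem A_mul (i j : Z) : A i * A j = A (i + j) := by
  ext1 w; exact Af_add i j w
theorem T_mul (i j : Z) : T i * T j = T (i + j) := by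
  ext1 w; exact Tf_add i j w
theorem A_zero : A 0 = 1 := by ext1 w; exact Af_zero w
theorem T_zero : T 0 = 1 := by ext1 w; exact Tf_zero w

theorem A_inv (i : Z) : (A i)⁻¹ = A (-i) := by
  rw [inv_eq_iff_mul_eq_one, A_mul]; simp [A_zero]
theorem T_inv (i : Z) : (T i)⁻¹ = T (-i) := by
  rw [inv_eq_iff_mul_eq_one, T_mul]; simp [T_zero]

/-- the generators `s_k^e` -/
def S (k e : Z) : P := A k * T e * A (-k)

theorem S_inv (k e : Z) : (S k e)⁻¹ = S k (-e) := by
  simp [S, mul_inv_rev, A_inv, T_inv, mul_assoc]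

theorem S_mul (k e f : Z) : S k e * S k f = S k (e + f) := by
  have h : A (-k) * A k = 1 := by rw [A_mul]; simp [A_zero]
  calc S k e * S k f = A k * T e * (A (-k) * A k) * T f * A (-k) := by simp only [S, mul_assoc]
    _ = S k (e + f) := by rw [h, mul_one, mul_assoc (A k), T_mul]; rfl

theorem S_zero (k : Z) : S k 0 = 1 := by
  simp [S, T_zero, A_mul, A_zero]

theorem S_conj (j k e : Z) : A j * S k e * A (-j) = S (k + j) e := by
  simp only [S]
  rw [show A j * (A k * T e * A (-k)) * A (-j) = (A j * A k) * T e * (A (-k) * A (-j)) by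
    simp only [mul_assoc], A_mul, A_mul]
  rw [add_comm j k, show -k + -j = -(k + j) by ring]

/-- products of the `s_k^e` -/
def E : List (Z × Z) → P
  | [] => 1
  | p :: l => S p.1 p.2 * E l

theorem E_append (l l' : List (Z × Z)) : E (l ++ l') = E l * E l' := by
  induction l with
  | nil => simp [E]
  | cons p l ih => simp [E, ih, mul_assoc]

theorem E_conj (j : Z) (l : List (Z × Z)) :
    ∃ l', l'.length = l.length ∧ A j * E l * A (-j) = E l' := by
  induction l with
  | nil => exact ⟨[], rfl, by simp [E, A_mul, A_zero]⟩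
  | cons p l ih =>
    obtain ⟨l', h1, h2⟩ := ih
    refine ⟨(p.1 + j, p.2) :: l', by simp [h1], ?_⟩
    have h : A (-j) * A j = 1 := by rw [A_mul]; simp [A_zero]
    simp only [E]
    rw [← h2, ← S_conj]
    calc A j * (S p.1 p.2 * E l) * A (-j) = A j * S p.1 p.2 * 1 * E l * A (-j) := by
          simp only [mul_assoc, one_mul]
      _ = _ := by rw [← h]; simp only [mul_assoc]

theorem E_inv (l : List (Z × Z)) : ∃ l', (E l)⁻¹ = E l' := by
  induction l with
  | nil => exact ⟨[], by simp [E]⟩
  | cons p l ih =>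
    obtain ⟨l', h⟩ := ih
    refine ⟨l' ++ [(p.1, -p.2)], ?_⟩
    rw [E_append]
    simp [E, mul_inv_rev, h, S_inv]

/-- elements of `T`-length `n` and `a`-exponent `i` -/
def R (n : ℕ) (i : Z) (g : P) : Prop := ∃ l : List (Z × Z), l.length = n ∧ g = A i * E l

theorem R_A (j : Z) : R 0 j (A j) := ⟨[], rfl, by simp [E]⟩
theorem R_T (e : Z) : R 1 0 (T e) := ⟨[(0, e)], rfl, by simp [E, S, A_zero]⟩
theorem R_one : R 0 0 1 := ⟨[], rfl, by simp [E, A_zero]⟩

theorem R_mul {n m : ℕ} {i j : Z} {g h : P} (hg : R n i g) (hh : R m j h) :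
    R (n + m) (i + j) (g * h) := by
  obtain ⟨l, hl, rfl⟩ := hg
  obtain ⟨l', hl', rfl⟩ := hh
  obtain ⟨l'', h1, h2⟩ := E_conj (-j) l
  refine ⟨l'' ++ l', by simp [h1, hl, hl'], ?_⟩
  rw [E_append, ← h2, ← A_mul, neg_neg]
  have h : A j * A (-j) = 1 := by rw [A_mul]; simp [A_zero]
  calc A i * E l * (A j * E l') = A i * 1 * E l * (A j * E l') := by rw [mul_one]
    _ = _ := by rw [← h]; simp only [mul_assoc]

/-- sections -/
def sl (x : Z) (p : Z × Z) : P :=
  if x = p.1 then A p.2 else if x = p.1 + 1 then A (-p.2) else T p.2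

def sec (x : Z) : List (Z × Z) → P
  | [] => 1
  | p :: l => sl x p * sec x l

def cl (x : Z) (p : Z × Z) : ℕ := if x = p.1 then 0 else if x = p.1 + 1 then 0 else 1
def el (x : Z) (p : Z × Z) : Z := if x = p.1 then p.2 else if x = p.1 + 1 then -p.2 else 0

def cnt (x : Z) : List (Z × Z) → ℕ
  | [] => 0
  | p :: l => cl x p + cnt x l

def ex (x : Z) : List (Z × Z) → Z
  | [] => 0
  | p :: l => el x p + ex x l

theorem R_sl (x : Z) (p : Z × Z) : R (cl x p) (el x p) (sl x p) := by
  unfold cl el sl
  split_ifs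
  · exact R_A _
  · exact R_A _
  · exact R_T _

theorem R_sec (x : Z) (l : List (Z × Z)) : R (cnt x l) (ex x l) (sec x l) := by
  induction l with
  | nil => exact R_one
  | cons p l ih => exact R_mul (R_sl x p) ih

theorem cl_sum (p : Z × Z) : cl 0 p + cl 1 p + cl 2 p = 1 := by
  obtain ⟨k, e⟩ := p
  revert k e; decide

theorem el_sum (p : Z × Z) : el 0 p + el 1 p + el 2 p = 0 := by
  obtain ⟨k, e⟩ := p
  revert k e; decide

theorem cnt_sum (l : List (Z × Z)) : cnt 0 l + cnt 1 l + cnt 2 l = l.length := by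
  induction l with
  | nil => rfl
  | cons p l ih =>
    have := cl_sum p
    simp only [cnt, List.length_cons]
    omega

theorem ex_sum (l : List (Z × Z)) : ex 0 l + ex 1 l + ex 2 l = 0 := by
  induction l with
  | nil => rfl
  | cons p l ih =>
    have := el_sum p
    simp only [ex]
    linear_combination ih + this

theorem S_cons (k e x : Z) (w : List Z) : S k e (x :: w) = x :: sl x (k, e) w := by
  change Af k (Tf e (Af (-k) (x :: w))) = _
  simp only [Af, Tf, sl]
  by_cases h0 : x = k
  · subst h0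
    simp [Af, A_apply]
  · by_cases h1 : x = k + 1
    · have h1' : x + -k = 1 := by linear_combination h1
      simp only [h1', if_true]
      rw [if_neg (by decide : ¬ (1 : Z) = 0), if_neg h0, if_pos h1, h1]
      change ((1 : Z) + k) :: Af (-e) w = (k + 1) :: Af (-e) w
      rw [add_comm (1 : Z) k]
    · have h0' : ¬ (x + -k = 0) := fun h => h0 (by linear_combination h)
      have h1' : ¬ (x + -k = 1) := fun h => h1 (by linear_combination h)
      simp [h0, h1, h0', h1', T_apply]

theorem E_cons (l : List (Z × Z)) (x : Z) (w : List Z) : E l (x :: w) = x :: sec x l w := by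
  induction l generalizing w with
  | nil => rfl
  | cons p l ih =>
    change S p.1 p.2 (E l (x :: w)) = _
    rw [ih, S_cons]
    rfl

theorem S_nil (k e : Z) : S k e [] = [] := rfl
theorem E_nil (l : List (Z × Z)) : E l [] = [] := by
  induction l with
  | nil => rfl
  | cons p l ih =>
    change S p.1 p.2 (E l []) = _
    rw [ih]; rfl

def Tor (g : P) : Prop := ∃ n : ℕ, 0 < n ∧ g ^ n = 1

theorem tor_of_pow {g : P} (k : ℕ) (hk : 0 < k) (h : Tor (g ^ k)) : Tor g := by
  obtain ⟨n, hn, h⟩ := h
  exact ⟨k * n, Nat.mul_pos hk hn, by rw [pow_mul, h]⟩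

theorem tor_of_sec (g : P) (s : Z → P) (h0 : g [] = []) (h : ∀ x w, g (x :: w) = x :: s x w)
    (hs : ∀ x, Tor (s x)) : Tor g := by
  choose N hN hs' using hs
  have hpow : ∀ n : ℕ, ∀ x w, (g ^ n) (x :: w) = x :: (s x ^ n) w := by
    intro n
    induction n with
    | zero => intro x w; rfl
    | succ n ih =>
      intro x w
      rw [pow_succ', pow_succ', Perm.mul_apply, ih, h]
      rfl
  have hpow0 : ∀ n : ℕ, (g ^ n) [] = [] := by
    intro n
    induction n with
    | zero => rfl
    | succ n ih => rw [pow_succ', Perm.mul_apply, ih, h0]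
  refine ⟨∏ x, N x, Finset.prod_pos fun x _ => hN x, ?_⟩
  ext1 w
  cases w with
  | nil => exact hpow0 _
  | cons x w =>
    rw [hpow]
    have : s x ^ (∏ x, N x) = 1 := by
      obtain ⟨c, hc⟩ := Finset.dvd_prod_of_mem N (Finset.mem_univ x)
      rw [hc, pow_mul, hs', one_pow]
    rw [this]; rfl

/-- if the section at `x` has full length, all `k` are equal -/
theorem full {x : Z} {l : List (Z × Z)} (h : cnt x l = l.length) :
    ∃ e, E l = S (x - 2) e := by
  have hle : ∀ l : List (Z × Z), cnt x l ≤ l.length := by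
    intro l
    have := cnt_sum l
    have hx := c3 x
    rcases hx with rfl | rfl | rfl <;> omega
  induction l with
  | nil => exact ⟨0, by rw [S_zero]; rfl⟩
  | cons p l ih =>
    have h1 := hle l
    have h2 : cl x p ≤ 1 := by unfold cl; split_ifs <;> simp
    simp only [cnt, List.length_cons] at h
    obtain ⟨e, he⟩ := ih (by omega)
    have hc : cl x p = 1 := by omega
    have hk : p.1 = x - 2 := by
      obtain ⟨k, f⟩ := p
      exact kk x k hc
    refine ⟨p.2 + e, ?_⟩
    simp only [E]
    rw [he, hk, S_mul]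

theorem tor_main (n : ℕ) : ∀ (i : Z) (g : P), R n i g → Tor g := by
  induction n using Nat.strong_induction_on with
  | _ n ih =>
    have hP : ∀ l : List (Z × Z), l.length = n → Tor (E l) := by
      intro l hl
      by_cases hf : ∃ x, cnt x l = l.length
      · obtain ⟨x, hx⟩ := hf
        obtain ⟨e, he⟩ := full hx
        rw [he]
        refine ⟨3, by norm_num, ?_⟩
        rw [pow_succ, pow_two, S_mul, S_mul]
        have := t3 e
        rw [this, S_zero]
      · push Not at hf
        refine tor_of_sec (E l) (fun x => sec x l) (E_nil l) (fun x w => E_cons l x w) ?_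
        intro x
        refine ih (cnt x l) ?_ _ _ (R_sec x l)
        have h1 := cnt_sum l
        have h2 := hf x
        have hx := c3 x
        rcases hx with rfl | rfl | rfl <;> omega
    intro i g hg
    by_cases hi : i = 0
    · obtain ⟨l, hl, rfl⟩ := hg
      rw [hi, A_zero, one_mul]
      exact hP l hl
    · obtain ⟨l, hl, rfl⟩ := hg
      apply tor_of_pow 3 (by norm_num)
      have hc : ∀ x w, (A i * E l) (x :: w) = (x + i) :: sec x l w := by
        intro x w
        rw [Perm.mul_apply, E_cons]; rfl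
      refine tor_of_sec _ (fun x => sec (x + i + i) l * (sec (x + i) l * sec x l)) ?_ ?_ ?_
      · have h0 : (A i * E l) [] = [] := by rw [Perm.mul_apply, E_nil]; rfl
        rw [pow_succ, pow_two, Perm.mul_apply, Perm.mul_apply, h0, h0, h0]
      · intro x w
        rw [pow_succ, pow_two, Perm.mul_apply, Perm.mul_apply, hc, hc, hc]
        have := t4 x i
        rw [this]; rfl
      · intro x
        have hR := R_mul (R_sec (x + i + i) l) (R_mul (R_sec (x + i) l) (R_sec x l))
        have h1 : cnt (x + i + i) l + (cnt (x + i) l + cnt x l) = n := by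
          have h := cnt_sum l
          rw [hl] at h
          rw [← h]
          have hx := c3 x
          have hi' := c2 i hi
          rcases hx with rfl | rfl | rfl <;> rcases hi' with rfl | rfl
          · rw [show (0 + 1 + 1 : Z) = 2 by decide, show (0 + 1 : Z) = 1 by decide]; ring
          · rw [show (0 + 2 + 2 : Z) = 1 by decide, show (0 + 2 : Z) = 2 by decide]; ring
          · rw [show (1 + 1 + 1 : Z) = 0 by decide, show (1 + 1 : Z) = 2 by decide]; ring
          · rw [show (1 + 2 + 2 : Z) = 2 by decide, show (1 + 2 : Z) = 0 by decide]; ring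
          · rw [show (2 + 1 + 1 : Z) = 1 by decide, show (2 + 1 : Z) = 0 by decide]; ring
          · rw [show (2 + 2 + 2 : Z) = 0 by decide, show (2 + 2 : Z) = 1 by decide]; ring
        have h2 : ex (x + i + i) l + (ex (x + i) l + ex x l) = 0 := by
          rw [← ex_sum l]
          have hx := c3 x
          have hi' := c2 i hi
          rcases hx with rfl | rfl | rfl <;> rcases hi' with rfl | rfl
          · rw [show (0 + 1 + 1 : Z) = 2 by decide, show (0 + 1 : Z) = 1 by decide]; ring
          · rw [show (0 + 2 + 2 : Z) = 1 by decide, show (0 + 2 : Z) = 2 by decide]; ring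
          · rw [show (1 + 1 + 1 : Z) = 0 by decide, show (1 + 1 : Z) = 2 by decide]; ring
          · rw [show (1 + 2 + 2 : Z) = 2 by decide, show (1 + 2 : Z) = 0 by decide]; ring
          · rw [show (2 + 1 + 1 : Z) = 1 by decide, show (2 + 1 : Z) = 0 by decide]; ring
          · rw [show (2 + 2 + 2 : Z) = 0 by decide, show (2 + 2 : Z) = 1 by decide]; ring
        rw [h1, h2] at hR
        obtain ⟨l', hl', he⟩ := hR
        change Tor (sec (x + i + i) l * (sec (x + i) l * sec x l))
        rw [he, A_zero, one_mul]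
        exact hP l' hl'

/-- the generating set -/
def gens : Set P := {A 1, T 1}

abbrev G : Subgroup P := Subgroup.closure gens

theorem mem_R {g : P} (hg : g ∈ G) : ∃ n i, R n i g := by
  induction hg using Subgroup.closure_induction with
  | mem x hx =>
    rcases hx with rfl | hx
    · exact ⟨0, 1, R_A 1⟩
    · rw [Set.mem_singleton_iff] at hx
      subst hx
      exact ⟨1, 0, R_T 1⟩
  | one => exact ⟨0, 0, R_one⟩
  | mul x y _ _ hx hy =>
    obtain ⟨n, i, hx⟩ := hx
    obtain ⟨m, j, hy⟩ := hy
    exact ⟨_, _, R_mul hx hy⟩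
  | inv x _ hx =>
    obtain ⟨n, i, l, hl, rfl⟩ := hx
    obtain ⟨l', h⟩ := E_inv l
    rw [mul_inv_rev, h, A_inv]
    have h1 : R l'.length 0 (E l') := ⟨l', rfl, by rw [A_zero, one_mul]⟩
    exact ⟨_, _, R_mul h1 (R_A (-i))⟩

theorem A_mem (j : Z) : A j ∈ G := by
  have h1 : A 1 ∈ G := Subgroup.subset_closure (Or.inl rfl)
  have hj : j = 0 ∨ j = 1 ∨ j = 2 := by revert j; decide
  rcases hj with rfl | rfl | rfl
  · rw [A_zero]; exact one_mem _
  · exact h1
  · have : A 2 = A 1 * A 1 := by rw [A_mul]; rfl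
    rw [this]; exact mul_mem h1 h1

theorem T_mem : T 1 ∈ G := Subgroup.subset_closure (Or.inr rfl)

/-- elements of `G` fixing the first letters -/
def N : Set P := {g | g ∈ G ∧ ∀ x w, ∃ w', g (x :: w) = x :: w'}

theorem lift {g : P} (hg : g ∈ G) : ∃ h ∈ N, ∀ w, h (2 :: w) = 2 :: g w := by
  induction hg using Subgroup.closure_induction with
  | mem x hx =>
    rcases hx with rfl | hx
    · refine ⟨S 2 1, ⟨?_, ?_⟩, ?_⟩
      · exact mul_mem (mul_mem (A_mem _) T_mem) (A_mem _)
      · intro x w; exact ⟨_, S_cons 2 1 x w⟩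
      · intro w; rw [S_cons]; simp [sl]
    · rw [Set.mem_singleton_iff] at hx
      subst hx
      refine ⟨S 0 1, ⟨?_, ?_⟩, ?_⟩
      · exact mul_mem (mul_mem (A_mem _) T_mem) (A_mem _)
      · intro x w; exact ⟨_, S_cons 0 1 x w⟩
      · intro w; rw [S_cons]
        have h1 : ¬ ((2 : Z) = 0) := by decide
        have h2 : ¬ ((2 : Z) = 0 + 1) := by decide
        simp only [sl, h1, h2, if_false]
  | one => exact ⟨1, ⟨one_mem _, fun x w => ⟨w, rfl⟩⟩, fun w => rfl⟩
  | mul x y _ _ hx hy =>
    obtain ⟨h, hh, hx⟩ := hx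
    obtain ⟨k, hk, hy⟩ := hy
    refine ⟨h * k, ⟨mul_mem hh.1 hk.1, ?_⟩, ?_⟩
    · intro z w
      obtain ⟨w', h1⟩ := hk.2 z w
      obtain ⟨w'', h2⟩ := hh.2 z w'
      exact ⟨w'', by rw [Perm.mul_apply, h1, h2]⟩
    · intro w
      rw [Perm.mul_apply, hy, hx]; rfl
  | inv x _ hx =>
    obtain ⟨h, hh, hx⟩ := hx
    refine ⟨h⁻¹, ⟨inv_mem hh.1, ?_⟩, ?_⟩
    · intro z w
      rcases hw : h⁻¹ (z :: w) with _ | ⟨y, w'⟩
      · exfalso
        rw [Perm.inv_eq_iff_eq] at hw
        have h0 : h [] = [] := by
          obtain ⟨n, i, l, hl, rfl⟩ := mem_R hh.1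
          rw [Perm.mul_apply, E_nil]; rfl
        rw [h0] at hw
        exact absurd hw (by simp)
      · rw [Perm.inv_eq_iff_eq] at hw
        obtain ⟨w'', h1⟩ := hh.2 y w'
        rw [h1] at hw
        have : z = y := (List.cons.inj hw).1
        exact ⟨w', by rw [this]⟩
    · intro w
      rw [Perm.inv_eq_iff_eq, hx]
      simp

theorem G_infinite : Infinite G := by
  by_contra hfin
  rw [not_infinite_iff_finite] at hfin
  have hG : (G : Set P).Finite := Set.toFinite _
  choose! f hfN hf using fun g (hg : g ∈ (G : Set P)) => lift hg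
  have h1 : (G : Set P).ncard ≤ N.ncard := by
    refine Set.ncard_le_ncard_of_injOn f (fun g hg => hfN g hg) ?_ (hG.subset fun g hg => hg.1)
    intro g hg h hh hgh
    ext1 w
    have h2 := hf g hg w
    have h3 := hf h hh w
    rw [hgh, h3] at h2
    exact ((List.cons.inj h2).2).symm
  have h2 : N.ncard < (G : Set P).ncard := by
    refine Set.ncard_lt_ncard ?_ hG
    refine ⟨fun g hg => hg.1, fun hsub => ?_⟩
    have h3 := hsub (A_mem 1)
    obtain ⟨w', h4⟩ := h3.2 0 []
    have h5 : (A 1) (0 :: []) = [(0 : Z) + 1] := rfl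
    rw [h5] at h4
    have := (List.cons.inj h4).1
    exact absurd this (by decide)
  omega

theorem exists_fg_infinite_torsion : ∃ (H : Type) (_ : Group H) (S : Finset H),
    Subgroup.closure (S : Set H) = ⊤ ∧ Infinite H ∧ ∀ h : H, ∃ n : ℕ, 0 < n ∧ h ^ n = 1 := by
  have hfin : (((↑) : G → P) ⁻¹' gens).Finite := by
    refine Set.Finite.preimage (Subtype.val_injective.injOn) ?_
    unfold gens; exact Set.toFinite _
  refine ⟨G, inferInstance, hfin.toFinset, ?_, G_infinite, ?_⟩
  · rw [Set.Finite.coe_toFinset]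
    exact Subgroup.closure_closure_coe_preimage
  · intro h
    obtain ⟨n, i, hR⟩ := mem_R h.2
    obtain ⟨m, hm, h1⟩ := tor_main n i _ hR
    exact ⟨m, hm, by ext1; simpa using h1⟩

end Pool.Agent.Helpers25.GS
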