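import Pool.Agent.Helpers25.IBKey

open Metric Set Filter Topology Module

set_option linter.unusedSectionVars false
set_option linter.unusedSimpArgs false

noncomputable section

namespace Pool.Agent.Helpers25.IB

variable {E : Type*} [NormedAddCommGroup E] [InnerProductSpace ℝ E]

def wid (n : E) (T : Finset E) : ℝ := mx T n + mx T (-n)

theorem wid_neg (n : E) (T : Finset E) : wid (-n) T = wid n T := by
  unfold wid; rw [neg_neg]; ring

theorem wid_nonneg (n : E) {T : Finset E} (hT : T.Nonempty) : 0 ≤ wid n T := by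
  obtain ⟨y, hy⟩ := hT
  have h1 := le_mx hy n
  have h2 := le_mx hy (-n)
  rw [inner_neg_right] at h2
  unfold wid; linarith

theorem bet_eq_wid (a b : E) (T : Finset E) : bet a b T = wid a (arg T b) - wid a (arg T (-b)) :=
  rfl

open Classical in
def Dif (V : Finset E) : Finset E := ((V ×ˢ V).image (fun p => p.1 - p.2)).erase 0

theorem mem_Dif {V : Finset E} {d : E} : d ∈ Dif V ↔ d ≠ 0 ∧ ∃ y ∈ V, ∃ y' ∈ V, y - y' = d := by
  classical
  simp only [Dif, Finset.mem_erase, Finset.mem_image, Finset.mem_product, Prod.exists]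
  constructor
  · rintro ⟨h, y, y', ⟨h1, h2⟩, e⟩
    exact ⟨h, y, h1, y', h2, e⟩
  · rintro ⟨h, y, h1, y', h2, e⟩
    exact ⟨h, y, y', ⟨h1, h2⟩, e⟩

/-- if the differences have the same products with `u` and `u'`, same argmax -/
theorem arg_congr {T : Finset E} {u u' : E}
    (h : ∀ y ∈ T, ∀ y' ∈ T, (inner ℝ (y - y') u : ℝ) = inner ℝ (y - y') u') :
    arg T u = arg T u' := by
  ext y
  rw [mem_arg, mem_arg]
  constructor
  · rintro ⟨hy, e⟩
    refine ⟨hy, (mx_eq hy rfl ?_).symm⟩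
    intro z hz
    have h1 := le_mx hz u
    have h2 := h z hz y hy
    rw [inner_sub_left, inner_sub_left] at h2
    linarith
  · rintro ⟨hy, e⟩
    refine ⟨hy, (mx_eq hy rfl ?_).symm⟩
    intro z hz
    have h1 := le_mx hz u'
    have h2 := h z hz y hy
    rw [inner_sub_left, inner_sub_left] at h2
    linarith

theorem mx_congr {T : Finset E} {u u' : E}
    (h : ∀ y ∈ T, ∀ y' ∈ T, (inner ℝ (y - y') u : ℝ) = inner ℝ (y - y') u') {y : E}
    (hy : y ∈ T) : mx T u - inner ℝ y u = mx T u' - inner ℝ y u' := by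
  obtain ⟨z, hz⟩ := arg_nonempty ⟨y, hy⟩ u
  have hz' := hz
  rw [arg_congr h] at hz'
  have h1 := mem_arg.1 hz
  have h2 := mem_arg.1 hz'
  have h3 := h z h1.1 y hy
  rw [inner_sub_left, inner_sub_left] at h3
  rw [← h1.2, ← h2.2]; linarith

theorem wid_congr {T : Finset E} {u u' : E}
    (h : ∀ y ∈ T, ∀ y' ∈ T, (inner ℝ (y - y') u : ℝ) = inner ℝ (y - y') u') :
    wid u T = wid u' T := by
  by_cases hT : T.Nonempty
  · obtain ⟨y, hy⟩ := hT
    have h1 := mx_congr h hy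
    have h2 := mx_congr (u := -u) (u' := -u') (fun y hy y' hy' => by
      rw [inner_neg_right, inner_neg_right, h y hy y' hy']) hy
    rw [inner_neg_right, inner_neg_right] at h2
    unfold wid; linarith
  · unfold wid mx
    simp [hT]

theorem wid_smul (T : Finset E) (l : ℝ) (n : E) : wid (l • n) T = |l| * wid n T := by
  unfold wid
  rcases le_total 0 l with h | h
  · rw [abs_of_nonneg h, ← smul_neg, mx_smul T h, mx_smul T h]; ring
  · rw [abs_of_nonpos h]
    have e1 : l • n = (-l) • (-n) := by simp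
    have e2 : -(l • n) = (-l) • n := by simp
    rw [e1, mx_smul T (by linarith), ← e1, e2, mx_smul T (by linarith)]; ring

theorem arg_local {V : Finset E} (hV : V.Nonempty) (w : E) (P : Submodule ℝ E)
    (h : ∀ y ∈ arg V w, ∀ y' ∈ arg V w, ∀ u ∈ P, (inner ℝ (y - y') u : ℝ) = 0) :
    ∀ᶠ z in 𝓝 w, z - w ∈ P → arg V z = arg V w := by
  filter_upwards [arg_usc hV w] with z hz hP
  refine le_antisymm hz ?_
  intro y hy
  obtain ⟨y', hy'⟩ := arg_nonempty hV z
  have h2 := h y hy y' (hz hy') (z - w) hP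
  have h3 := (mem_arg.1 hy).2
  have h4 := (mem_arg.1 (hz hy')).2
  rw [mem_arg]
  refine ⟨arg_subset _ _ hy, ?_⟩
  rw [← (mem_arg.1 hy').2]
  rw [inner_sub_left, inner_sub_right, inner_sub_right] at h2
  linarith

theorem ev_ne (d w v : E) (h : (inner ℝ d w : ℝ) ≠ 0 ∨ (inner ℝ d v : ℝ) ≠ 0) :
    ∀ᶠ ε in 𝓝[>] (0:ℝ), (inner ℝ d (w + ε • v) : ℝ) ≠ 0 := by
  by_cases h0 : (inner ℝ d w : ℝ) = 0
  · have h1 : (inner ℝ d v : ℝ) ≠ 0 := by
      rcases h with h | h
      · exact absurd h0 h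
      · exact h
    filter_upwards [self_mem_nhdsWithin] with ε hε
    have hε' : (0:ℝ) < ε := hε
    rw [inner_add_right, inner_smul_right, h0, zero_add]
    exact mul_ne_zero hε'.ne' h1
  · have hc : Continuous (fun ε : ℝ => (inner ℝ d (w + ε • v) : ℝ)) := by fun_prop
    have ht := hc.tendsto 0
    have h2 : (inner ℝ d (w + (0:ℝ) • v) : ℝ) ≠ 0 := by simpa using h0
    exact nhdsWithin_le_nhds (ht.eventually_ne h2)

theorem exists_generic (P : Submodule ℝ E) (S : Finset E)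
    (hS : ∀ d ∈ S, ∃ v ∈ P, (inner ℝ d v : ℝ) ≠ 0) : ∃ v ∈ P, ∀ d ∈ S, (inner ℝ d v : ℝ) ≠ 0 := by
  classical
  induction S using Finset.induction_on with
  | empty => exact ⟨0, P.zero_mem, by simp⟩
  | insert d S hd ih =>
    obtain ⟨v, hv, hvS⟩ := ih (fun d' hd' => hS d' (Finset.mem_insert_of_mem hd'))
    obtain ⟨v', hv', hvd⟩ := hS d (Finset.mem_insert_self _ _)
    have key : ∀ᶠ ε in 𝓝[>] (0:ℝ), ∀ d' ∈ insert d S, (inner ℝ d' (v + ε • v') : ℝ) ≠ 0 := by
      rw [Finset.eventually_all]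
      intro d' hd'
      rcases Finset.mem_insert.1 hd' with rfl | h
      · exact ev_ne _ _ _ (Or.inr hvd)
      · exact ev_ne _ _ _ (Or.inl (hvS d' h))
    obtain ⟨ε, hε⟩ := key.exists
    exact ⟨v + ε • v', P.add_mem hv (P.smul_mem _ hv'), hε⟩

/-- points on a generic line meet the arrangement one flat at a time -/
theorem nice_line (V : Finset E) (P0 : Submodule ℝ E) (w0 w1 : E)
    (h0 : ∀ d ∈ Dif V, (inner ℝ d w0 : ℝ) = 0 → d ∈ P0)
    (h1 : ∀ d1 ∈ Dif V, ∀ d2 ∈ Dif V, d1 ∉ P0 → d2 ∉ P0 ⊔ Submodule.span ℝ {d1} →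
      (inner ℝ ((inner ℝ d1 w0 : ℝ) • d2 - (inner ℝ d2 w0 : ℝ) • d1) w1 : ℝ) ≠ 0)
    (t : ℝ) (d1 : E) (hd1 : d1 ∈ Dif V) (d2 : E) (hd2 : d2 ∈ Dif V) (hn : d1 ∉ P0)
    (e1 : (inner ℝ d1 (w0 + t • (w1 - w0)) : ℝ) = 0)
    (e2 : (inner ℝ d2 (w0 + t • (w1 - w0)) : ℝ) = 0) : d2 ∈ P0 ⊔ Submodule.span ℝ {d1} := by
  by_contra hcon
  have h := h1 d1 hd1 d2 hd2 hn hcon
  rw [inner_add_right, inner_smul_right, inner_sub_right] at e1 e2
  rw [inner_sub_left, inner_smul_left, inner_smul_left] at h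
  simp only [conj_trivial] at h
  by_cases ht : t = 0
  · rw [ht, zero_mul, add_zero] at e1
    exact hn (h0 d1 hd1 e1)
  · apply h
    have : t * (inner ℝ d1 w0 * inner ℝ d2 w1 - inner ℝ d2 w0 * inner ℝ d1 w1 : ℝ) = 0 := by
      linear_combination (inner ℝ d1 w0 : ℝ) * e2 - (inner ℝ d2 w0 : ℝ) * e1
    rcases mul_eq_zero.1 this with h | h
    · exact absurd h ht
    · exact h

variable [FiniteDimensional ℝ E]

def KeyProp (V : Finset E) : Prop :=
  ∀ a b : E, ON a b → ∀ w0 ∈ Wd a b, w0 ≠ 0 →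
    (∀ y ∈ arg V w0, ∀ y' ∈ arg V w0, ∀ w ∈ Wd a b, (inner ℝ (y - y') w : ℝ) = 0) →
    bet a b (arg V w0) = 0

theorem mem_Wd' {a b x : E} : x ∈ Wd a b ↔ inner ℝ a x = (0:ℝ) ∧ inner ℝ b x = (0:ℝ) := by
  rw [Wd, Submodule.mem_orthogonal]
  constructor
  · intro h
    exact ⟨h a (Submodule.subset_span (by simp)), h b (Submodule.subset_span (by simp))⟩
  · rintro ⟨h1, h2⟩ u hu
    obtain ⟨s, t, rfl⟩ := Submodule.mem_span_pair.1 hu
    rw [inner_add_left, inner_smul_left, inner_smul_left, h1, h2]; simp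

theorem local_wid {V : Finset E} (hkey : KeyProp V) (n : E) (hn : ‖n‖ = 1) (w u : E)
    (hw : (inner ℝ n w : ℝ) = 0) (hu : (inner ℝ n u : ℝ) = 0) (hw0 : w ≠ 0)
    (hspan : ∀ d1 ∈ Dif V, ∀ d2 ∈ Dif V, (inner ℝ d1 w : ℝ) = 0 → (inner ℝ d2 w : ℝ) = 0 →
      d1 ∉ Submodule.span ℝ {n} → d2 ∈ Submodule.span ℝ {n} ⊔ Submodule.span ℝ {d1}) :
    wid n (arg (arg V w) u) = wid n (arg (arg V w) (-u)) := by
  set T := arg V w with hT
  have hdif : ∀ y ∈ T, ∀ y' ∈ T, y - y' ≠ 0 → y - y' ∈ Dif V ∧ (inner ℝ (y - y') w : ℝ) = 0 := by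
    intro y hy y' hy' hne
    refine ⟨mem_Dif.2 ⟨hne, y, arg_subset _ _ hy, y', arg_subset _ _ hy', rfl⟩, ?_⟩
    rw [inner_sub_left, (mem_arg.1 hy).2, (mem_arg.1 hy').2, sub_self]
  by_cases hA : ∀ y ∈ T, ∀ y' ∈ T, y - y' ∈ Submodule.span ℝ {n}
  · have h1 : ∀ v : E, (inner ℝ n v : ℝ) = 0 → arg T v = T := by
      intro v hv
      have := arg_congr (T := T) (u := v) (u' := 0) (by
        intro y hy y' hy'
        obtain ⟨c, hc⟩ := Submodule.mem_span_singleton.1 (hA y hy y' hy')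
        rw [← hc, inner_smul_left, hv, inner_zero_right]; simp)
      rw [this, arg_zero]
    rw [h1 u hu, h1 (-u) (by rw [inner_neg_right, hu, neg_zero])]
  · push Not at hA
    obtain ⟨y1, hy1, y2, hy2, hd1⟩ := hA
    set d1 := y1 - y2 with hd1def
    have hd10 : d1 ≠ 0 := by
      intro h; rw [h] at hd1; exact hd1 (Submodule.zero_mem _)
    obtain ⟨hd1D, hd1w⟩ := hdif y1 hy1 y2 hy2 hd10
    have hnn : (inner ℝ n n : ℝ) = 1 := by rw [real_inner_self_eq_norm_sq, hn]; norm_num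
    set m0 := d1 - (inner ℝ n d1 : ℝ) • n with hm0
    have hm00 : m0 ≠ 0 := by
      intro h
      apply hd1
      rw [Submodule.mem_span_singleton]
      exact ⟨inner ℝ n d1, (sub_eq_zero.1 h).symm⟩
    have hm0n : ‖m0‖ ≠ 0 := norm_ne_zero_iff.2 hm00
    set m := ‖m0‖⁻¹ • m0 with hm
    have hnm0 : (inner ℝ n m0 : ℝ) = 0 := by
      rw [hm0, inner_sub_right, inner_smul_right, hnn]; ring
    have hON : ON n m := by
      refine ⟨hn, ?_, ?_⟩
      · rw [hm, norm_smul, norm_inv, norm_norm, inv_mul_cancel₀ hm0n]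
      · rw [hm, inner_smul_right, hnm0, mul_zero]
    have hd1e : d1 = ‖m0‖ • m + (inner ℝ n d1 : ℝ) • n := by
      rw [hm, smul_smul, mul_inv_cancel₀ hm0n, one_smul, hm0]; abel
    have hwm : (inner ℝ m w : ℝ) = 0 := by
      rw [hm, inner_smul_left, hm0, inner_sub_left, inner_smul_left, hd1w, hw]; simp
    clear_value m
    have hrep : ∀ y ∈ T, ∀ y' ∈ T, ∃ α β : ℝ, y - y' = α • n + β • m := by
      intro y hy y' hy'
      by_cases hne : y - y' = 0
      · exact ⟨0, 0, by rw [hne]; simp⟩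
      · obtain ⟨h1, h2⟩ := hdif y hy y' hy' hne
        have h3 := hspan d1 hd1D (y - y') h1 hd1w h2 hd1
        obtain ⟨p, hp, q, hq, e⟩ := Submodule.mem_sup.1 h3
        obtain ⟨c, rfl⟩ := Submodule.mem_span_singleton.1 hp
        obtain ⟨c', rfl⟩ := Submodule.mem_span_singleton.1 hq
        refine ⟨c + c' * (inner ℝ n d1 : ℝ), c' * ‖m0‖, ?_⟩
        have h5 : c' • d1 = c' • (‖m0‖ • m + (inner ℝ n d1 : ℝ) • n) := congrArg _ hd1e
        rw [← e, h5]
        module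
    have hwW : w ∈ Wd n m := by
      rw [mem_Wd']
      exact ⟨hw, hwm⟩
    have hgen : ∀ y ∈ arg V w, ∀ y' ∈ arg V w, ∀ x ∈ Wd n m, (inner ℝ (y - y') x : ℝ) = 0 := by
      intro y hy y' hy' x hx
      obtain ⟨α, β, e⟩ := hrep y hy y' hy'
      have hx' := mem_Wd'.1 hx
      rw [e, inner_add_left, inner_smul_left, inner_smul_left, hx'.1, hx'.2]; simp
    have hb := hkey n m hON w hwW hw0 hgen
    rw [bet_eq_wid] at hb
    have hb' : wid n (arg T m) = wid n (arg T (-m)) := by linarith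
    have hmm : (inner ℝ m m : ℝ) = 1 := by rw [real_inner_self_eq_norm_sq, hON.hb]; norm_num
    have hc : ∀ v : E, (inner ℝ n v : ℝ) = 0 → arg T v = arg T ((inner ℝ m v : ℝ) • m) := by
      intro v hv
      refine arg_congr ?_
      intro y hy y' hy'
      obtain ⟨α, β, e⟩ := hrep y hy y' hy'
      rw [e, inner_add_left, inner_smul_left, inner_smul_left, inner_add_left, inner_smul_left,
        inner_smul_left, inner_smul_right, inner_smul_right, hv, hON.hab, hmm]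
      simp
    rw [hc u hu, hc (-u) (by rw [inner_neg_right, hu, neg_zero]), inner_neg_right]
    rcases lt_trichotomy (inner ℝ m u : ℝ) 0 with h | h | h
    · rw [show (inner ℝ m u : ℝ) • m = (-(inner ℝ m u : ℝ)) • (-m) by simp,
        arg_smul T (by linarith), arg_smul T (by linarith)]
      exact hb'.symm
    · rw [h]; simp
    · rw [show (-(inner ℝ m u : ℝ)) • m = ((inner ℝ m u : ℝ)) • (-m) by simp,
        arg_smul T h, arg_smul T h]
      exact hb'

end Pool.Agent.Helpers25.IB
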