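import Pool.Agent.Helpers25.IBCombA

open Metric Set Filter Topology Module

set_option linter.unusedSectionVars false
set_option linter.unusedSimpArgs false

noncomputable section

namespace Pool.Agent.Helpers25.IB

theorem two_sided {P : ℝ → Prop} (h1 : ∀ᶠ ε in 𝓝[>] (0:ℝ), P ε)
    (h2 : ∀ᶠ ε in 𝓝[>] (0:ℝ), P (-ε)) (t : ℝ) : ∀ᶠ s in 𝓝[≠] t, P (s - t) := by
  obtain ⟨δ1, hδ1, h1'⟩ := mem_nhdsGT_iff_exists_Ioo_subset.1 h1
  obtain ⟨δ2, hδ2, h2'⟩ := mem_nhdsGT_iff_exists_Ioo_subset.1 h2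
  rw [eventually_nhdsWithin_iff]
  have hδ1' : (0:ℝ) < δ1 := hδ1
  have hδ2' : (0:ℝ) < δ2 := hδ2
  filter_upwards [Metric.ball_mem_nhds t (lt_min hδ1' hδ2')] with s hs hne
  rw [Metric.mem_ball, Real.dist_eq] at hs
  have hs1 := lt_of_lt_of_le hs (min_le_left _ _)
  have hs2 := lt_of_lt_of_le hs (min_le_right _ _)
  rcases lt_or_gt_of_ne (show s ≠ t from hne) with h | h
  · have : t - s ∈ Ioo 0 δ2 := by
      rw [abs_of_neg (by linarith)] at hs2
      exact ⟨by linarith, by linarith⟩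
    have := h2' this
    simpa using this
  · have : s - t ∈ Ioo 0 δ1 := by
      rw [abs_of_pos (by linarith)] at hs1
      exact ⟨by linarith, by linarith⟩
    exact h1' this

theorem const_of_local (g : ℝ → ℝ) (hloc : ∀ t, ∃ c, ∀ᶠ s in 𝓝[≠] t, g s = c)
    (h0 : ∀ᶠ s in 𝓝[≠] (0:ℝ), g s = g 0) (h1 : ∀ᶠ s in 𝓝[≠] (1:ℝ), g s = g 1) : g 0 = g 1 := by
  choose c hc using hloc
  have hcl : IsLocallyConstant c := by
    rw [IsLocallyConstant.iff_eventually_eq]
    intro t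
    have h2 := hc t
    rw [← eventually_eventually_nhdsWithin] at h2
    have h3 : ∀ᶠ s in 𝓝[≠] t, c s = c t := by
      filter_upwards [h2, self_mem_nhdsWithin] with s hs hne
      have h4 : ∀ᶠ x in 𝓝 s, g x = c t := by
        rwa [IsOpen.nhdsWithin_eq isOpen_compl_singleton hne] at hs
      have h5 := hc s
      obtain ⟨x, hx1, hx2⟩ := ((h4.filter_mono nhdsWithin_le_nhds).and h5).exists
      rw [← hx2, ← hx1]
    rw [eventually_nhdsWithin_iff] at h3
    filter_upwards [h3] with s hs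
    by_cases h : s = t
    · rw [h]
    · exact hs h
  have h01 : c 0 = c 1 := hcl.apply_eq_of_preconnectedSpace 0 1
  obtain ⟨x, hx1, hx2⟩ := (h0.and (hc 0)).exists
  obtain ⟨z, hz1, hz2⟩ := (h1.and (hc 1)).exists
  rw [← hx1, hx2, ← hz1, hz2, h01]

variable {E : Type*} [NormedAddCommGroup E] [InnerProductSpace ℝ E] [FiniteDimensional ℝ E]

def GenH (V : Finset E) (n w : E) : Prop :=
  (inner ℝ n w : ℝ) = 0 ∧ ∀ d ∈ Dif V, (inner ℝ d w : ℝ) = 0 → d ∈ Submodule.span ℝ {n}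

theorem GenH_arg {V : Finset E} {n w : E} (h : GenH V n w) :
    ∀ y ∈ arg V w, ∀ y' ∈ arg V w, y - y' ∈ Submodule.span ℝ {n} := by
  intro y hy y' hy'
  by_cases hne : y - y' = 0
  · rw [hne]; exact Submodule.zero_mem _
  · refine h.2 _ (mem_Dif.2 ⟨hne, y, arg_subset _ _ hy, y', arg_subset _ _ hy', rfl⟩) ?_
    rw [inner_sub_left, (mem_arg.1 hy).2, (mem_arg.1 hy').2, sub_self]

theorem GenH_local {V : Finset E} (hV : V.Nonempty) {n w : E} (h : GenH V n w) :
    ∀ᶠ z in 𝓝 w, z - w ∈ (Submodule.span ℝ {n})ᗮ → arg V z = arg V w := by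
  refine arg_local hV w _ ?_
  intro y hy y' hy' u hu
  have h1 := GenH_arg h y hy y' hy'
  obtain ⟨c, hc⟩ := Submodule.mem_span_singleton.1 h1
  rw [Submodule.mem_orthogonal_singleton_iff_inner_right] at hu
  rw [← hc, inner_smul_left, hu, mul_zero]

theorem big {V : Finset E} (hV : V.Nonempty) (hsym : ∀ y ∈ V, -y ∈ V) (c0 : ℝ) (hc0 : 0 < c0)
    (hlow : ∀ x, c0 * ‖x‖ ≤ mx V x) (hdim : 3 ≤ finrank ℝ E) (x y : E) :
    ∃ d ∈ Dif V, d ∉ Submodule.span ℝ {x} ⊔ Submodule.span ℝ {y} := by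
  classical
  by_contra hcon
  push Not at hcon
  have hS : Submodule.span ℝ {x} ⊔ Submodule.span ℝ {y} = Submodule.span ℝ ({x, y} : Set E) := by
    rw [Submodule.span_insert]
  have hf : finrank ℝ (Submodule.span ℝ ({x, y} : Set E)) ≤ 2 := by
    have := finrank_span_finset_le_card (R := ℝ) ({x, y} : Finset E)
    rw [Set.finrank] at this
    have h2 : (({x, y} : Finset E) : Set E) = ({x, y} : Set E) := by simp
    rw [h2] at this
    exact this.trans Finset.card_le_two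
  have h3 := Submodule.finrank_add_finrank_orthogonal (Submodule.span ℝ ({x, y} : Set E))
  have h4 : 0 < finrank ℝ (Submodule.span ℝ ({x, y} : Set E))ᗮ := by omega
  have h5 : Nontrivial (Submodule.span ℝ ({x, y} : Set E))ᗮ := Module.nontrivial_of_finrank_pos h4
  obtain ⟨z, hz⟩ := exists_ne (0 : (Submodule.span ℝ ({x, y} : Set E))ᗮ)
  have hz' : (z : E) ≠ 0 := by simpa using hz
  have h6 : mx V (z : E) ≤ 0 := by
    refine mx_le hV ?_
    intro v hv
    by_cases hv0 : v = 0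
    · rw [hv0, inner_zero_left]
    · have h7 : v - (-v) ∈ Dif V := mem_Dif.2 ⟨by
        intro h
        apply hv0
        have : (2:ℝ) • v = 0 := by rw [two_smul]; rw [sub_neg_eq_add] at h; exact h
        exact (smul_eq_zero.1 this).resolve_left (by norm_num), v, hv, -v, hsym v hv, rfl⟩
      have h8 := hcon _ h7
      rw [hS] at h8
      have h9 := (Submodule.mem_orthogonal _ _).1 z.2 _ h8
      rw [inner_sub_left, inner_neg_left] at h9
      linarith
  have := hlow (z : E)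
  have h10 : 0 < c0 * ‖(z : E)‖ := mul_pos hc0 (norm_pos_iff.2 hz')
  linarith

theorem wid_const_nice {V : Finset E} (hV : V.Nonempty) (hsym : ∀ y ∈ V, -y ∈ V) (c0 : ℝ)
    (hc0 : 0 < c0) (hlow : ∀ x, c0 * ‖x‖ ≤ mx V x) (hdim : 3 ≤ finrank ℝ E)
    (hkey : KeyProp V) (n : E) (hn : ‖n‖ = 1) (w0 w1 : E) (g0 : GenH V n w0) (g1 : GenH V n w1)
    (hnice : ∀ d1 ∈ Dif V, ∀ d2 ∈ Dif V, d1 ∉ Submodule.span ℝ {n} →
      d2 ∉ Submodule.span ℝ {n} ⊔ Submodule.span ℝ {d1} →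
      (inner ℝ ((inner ℝ d1 w0 : ℝ) • d2 - (inner ℝ d2 w0 : ℝ) • d1) w1 : ℝ) ≠ 0) :
    wid n (arg V w0) = wid n (arg V w1) := by
  have hline := nice_line V (Submodule.span ℝ {n}) w0 w1 g0.2 hnice
  have hu : (inner ℝ n (w1 - w0) : ℝ) = 0 := by rw [inner_sub_right, g0.1, g1.1, sub_zero]
  have hw : ∀ t : ℝ, (inner ℝ n (w0 + t • (w1 - w0)) : ℝ) = 0 := by
    intro t; rw [inner_add_right, inner_smul_right, g0.1, hu]; ring
  have hne : ∀ t : ℝ, w0 + t • (w1 - w0) ≠ 0 := by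
    intro t h
    obtain ⟨d1, hd1, hd1'⟩ := big hV hsym c0 hc0 hlow hdim n 0
    have hd1'' : d1 ∉ Submodule.span ℝ {n} := by
      intro h'; exact hd1' (Submodule.mem_sup_left h')
    obtain ⟨d2, hd2, hd2'⟩ := big hV hsym c0 hc0 hlow hdim n d1
    exact hd2' (hline t d1 hd1 d2 hd2 hd1'' (by rw [h, inner_zero_right])
      (by rw [h, inner_zero_right]))
  set g : ℝ → ℝ := fun t => wid n (arg V (w0 + t • (w1 - w0))) with hg
  have hloc : ∀ t, ∃ c, ∀ᶠ s in 𝓝[≠] t, g s = c := by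
    intro t
    refine ⟨wid n (arg (arg V (w0 + t • (w1 - w0))) (w1 - w0)), ?_⟩
    have hlw := local_wid hkey n hn (w0 + t • (w1 - w0)) (w1 - w0) (hw t) hu (hne t)
      (fun d1 hd1 d2 hd2 e1 e2 hn1 => hline t d1 hd1 d2 hd2 hn1 e1 e2)
    have h1 := loc1 hV (w0 + t • (w1 - w0)) (w1 - w0)
    have h2 := loc1 hV (w0 + t • (w1 - w0)) (-(w1 - w0))
    have h3 := two_sided (P := fun ε => wid n (arg V (w0 + t • (w1 - w0) + ε • (w1 - w0))) =
        wid n (arg (arg V (w0 + t • (w1 - w0))) (w1 - w0)))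
      (by filter_upwards [h1] with ε hε; rw [hε])
      (by
        filter_upwards [h2] with ε hε
        rw [smul_neg, ← neg_smul] at hε
        rw [hε, hlw]) t
    filter_upwards [h3] with s hs
    rw [hg]
    simp only
    rw [← hs, add_assoc, ← add_smul]
    congr 3
    ring_nf
  have hend : ∀ w : E, GenH V n w → ∀ u : E, (inner ℝ n u : ℝ) = 0 → ∀ t0 : ℝ,
      ∀ᶠ s in 𝓝[≠] t0, arg V (w + (s - t0) • u) = arg V w := by
    intro w hw u hu t0
    have h1 : Tendsto (fun s : ℝ => w + (s - t0) • u) (𝓝 t0) (𝓝 w) := by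
      have hc : Continuous (fun s : ℝ => w + (s - t0) • u) := by fun_prop
      have := hc.tendsto t0
      simpa using this
    have h2 := h1.eventually (GenH_local hV hw)
    refine nhdsWithin_le_nhds ?_
    filter_upwards [h2] with s hs
    refine hs ?_
    rw [Submodule.mem_orthogonal_singleton_iff_inner_right, add_sub_cancel_left,
      inner_smul_right, hu, mul_zero]
  have e0 : g 0 = wid n (arg V w0) := by simp [hg]
  have e1 : g 1 = wid n (arg V w1) := by simp [hg]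
  rw [← e0, ← e1]
  refine const_of_local g hloc ?_ ?_
  · filter_upwards [hend w0 g0 (w1 - w0) hu 0] with s hs
    rw [e0, hg]
    simp only
    rw [sub_zero] at hs
    rw [hs]
  · filter_upwards [hend w1 g1 (w1 - w0) hu 1] with s hs
    rw [e1, hg]
    simp only
    have : w0 + s • (w1 - w0) = w1 + (s - 1) • (w1 - w0) := by
      rw [sub_smul, one_smul]; abel
    rw [this, hs]

theorem exists_perp (n d : E) (hn : ‖n‖ = 1) (hd : d ∉ Submodule.span ℝ {n}) :
    ∃ v ∈ (Submodule.span ℝ {n})ᗮ, (inner ℝ d v : ℝ) ≠ 0 := by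
  have hnn : (inner ℝ n n : ℝ) = 1 := by rw [real_inner_self_eq_norm_sq, hn]; norm_num
  refine ⟨d - (inner ℝ n d : ℝ) • n, ?_, ?_⟩
  · rw [Submodule.mem_orthogonal_singleton_iff_inner_right, inner_sub_right, inner_smul_right,
      hnn]; ring
  · have h1 : d - (inner ℝ n d : ℝ) • n ≠ 0 := by
      intro h
      apply hd
      rw [Submodule.mem_span_singleton]
      exact ⟨inner ℝ n d, (sub_eq_zero.1 h).symm⟩
    have h2 : (inner ℝ d (d - (inner ℝ n d : ℝ) • n) : ℝ) =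
        inner ℝ (d - (inner ℝ n d : ℝ) • n) (d - (inner ℝ n d : ℝ) • n) := by
      rw [inner_sub_left (x := d), inner_smul_left]
      have : (inner ℝ n (d - (inner ℝ n d : ℝ) • n) : ℝ) = 0 := by
        rw [inner_sub_right, inner_smul_right, hnn]; ring
      rw [this]; simp
    rw [h2]
    exact inner_self_ne_zero.2 h1

theorem wid_const {V : Finset E} (hV : V.Nonempty) (hsym : ∀ y ∈ V, -y ∈ V) (c0 : ℝ)
    (hc0 : 0 < c0) (hlow : ∀ x, c0 * ‖x‖ ≤ mx V x) (hdim : 3 ≤ finrank ℝ E)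
    (hkey : KeyProp V) (n : E) (hn : ‖n‖ = 1) (w0 w1 : E) (g0 : GenH V n w0) (g1 : GenH V n w1) :
    wid n (arg V w0) = wid n (arg V w1) := by
  classical
  set S : Finset E := ((Dif V ×ˢ Dif V).filter (fun p => p.1 ∉ Submodule.span ℝ {n} ∧
    p.2 ∉ Submodule.span ℝ {n} ⊔ Submodule.span ℝ {p.1})).image
      (fun p => (inner ℝ p.1 w0 : ℝ) • p.2 - (inner ℝ p.2 w0 : ℝ) • p.1) with hS
  have hSp : ∀ d ∈ S, ∃ v ∈ (Submodule.span ℝ {n})ᗮ, (inner ℝ d v : ℝ) ≠ 0 := by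
    intro d hd
    simp only [hS, Finset.mem_image, Finset.mem_filter, Finset.mem_product, Prod.exists] at hd
    obtain ⟨d1, d2, ⟨⟨hd1, hd2⟩, hn1, hn2⟩, rfl⟩ := hd
    refine exists_perp n _ hn ?_
    intro hcon
    apply hn2
    have hne : (inner ℝ d1 w0 : ℝ) ≠ 0 := fun h => hn1 (g0.2 d1 hd1 h)
    have : d2 = (inner ℝ d1 w0 : ℝ)⁻¹ • ((inner ℝ d1 w0 : ℝ) • d2 - (inner ℝ d2 w0 : ℝ) • d1) +
        ((inner ℝ d1 w0 : ℝ)⁻¹ * (inner ℝ d2 w0 : ℝ)) • d1 := by
      rw [smul_sub, smul_smul, inv_mul_cancel₀ hne, one_smul, smul_smul]; abel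
    rw [this]
    exact Submodule.add_mem_sup (Submodule.smul_mem _ _ hcon)
      (Submodule.smul_mem _ _ (Submodule.mem_span_singleton_self d1))
  obtain ⟨v, hv, hvS⟩ := exists_generic _ S hSp
  have ev1 : ∀ᶠ ε in 𝓝[>] (0:ℝ), ∀ d ∈ Dif V, d ∉ Submodule.span ℝ {n} →
      (inner ℝ d (w1 + ε • v) : ℝ) ≠ 0 := by
    rw [Finset.eventually_all]
    intro d hd
    by_cases h : d ∈ Submodule.span ℝ {n}
    · exact Eventually.of_forall fun _ h' => absurd h h'
    · have h1 : (inner ℝ d w1 : ℝ) ≠ 0 := fun h' => h (g1.2 d hd h')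
      filter_upwards [ev_ne d w1 v (Or.inl h1)] with ε hε _ using hε
  have ev2 : ∀ᶠ ε in 𝓝[>] (0:ℝ), ∀ d ∈ S, (inner ℝ d (w1 + ε • v) : ℝ) ≠ 0 := by
    rw [Finset.eventually_all]
    intro d hd
    exact ev_ne d w1 v (Or.inr (hvS d hd))
  have ev3 : ∀ᶠ ε in 𝓝[>] (0:ℝ), arg V (w1 + ε • v) = arg V w1 := by
    have hc : Continuous (fun ε : ℝ => w1 + ε • v) := by fun_prop
    have ht : Tendsto (fun ε : ℝ => w1 + ε • v) (𝓝 0) (𝓝 w1) := by
      have := hc.tendsto 0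
      simpa using this
    refine nhdsWithin_le_nhds ?_
    filter_upwards [ht.eventually (GenH_local hV g1)] with ε hε
    refine hε ?_
    rw [add_sub_cancel_left]
    exact Submodule.smul_mem _ _ hv
  obtain ⟨ε, h1, h2, h3⟩ := (ev1.and (ev2.and ev3)).exists
  rw [Submodule.mem_orthogonal_singleton_iff_inner_right] at hv
  have g1' : GenH V n (w1 + ε • v) := by
    refine ⟨by rw [inner_add_right, inner_smul_right, g1.1, hv]; ring, ?_⟩
    intro d hd hd0
    by_contra hcon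
    exact h1 d hd hcon hd0
  rw [← h3]
  refine wid_const_nice hV hsym c0 hc0 hlow hdim hkey n hn w0 _ g0 g1' ?_
  intro d1 hd1 d2 hd2 hn1 hn2
  refine h2 _ ?_
  simp only [hS, Finset.mem_image, Finset.mem_filter, Finset.mem_product, Prod.exists]
  exact ⟨d1, d2, ⟨⟨hd1, hd2⟩, hn1, hn2⟩, rfl⟩

end Pool.Agent.Helpers25.IB
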