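import Pool.Agent.Helpers25.IBCombB

open Metric Set Filter Topology Module

set_option linter.unusedSectionVars false
set_option linter.unusedSimpArgs false

noncomputable section

namespace Pool.Agent.Helpers25.IB

theorem affine_of_local (ρ : ℝ → ℝ)
    (h : ∀ t, ∃ A : ℝ, ∀ᶠ τ in 𝓝 (0:ℝ), ρ (t + τ) = ρ t + τ * A) :
    ρ (1 / 2) = (ρ 0 + ρ 1) / 2 := by
  choose A hA using h
  have hA' : ∀ t, ∀ᶠ s in 𝓝 t, ρ s = ρ t + (s - t) * A t := by
    intro t
    have h1 : Tendsto (fun s : ℝ => s - t) (𝓝 t) (𝓝 0) := by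
      have hc : Continuous (fun s : ℝ => s - t) := by fun_prop
      have := hc.tendsto t
      simpa using this
    filter_upwards [h1.eventually (hA t)] with s hs
    rw [add_sub_cancel] at hs
    exact hs
  have hlin : ∀ t s0, HasDerivAt (fun s => ρ t + (s - t) * A t) (A t) s0 := by
    intro t s0
    have h1 : HasDerivAt (fun s : ℝ => s - t) 1 s0 := (hasDerivAt_id s0).sub_const t
    have h2 := (h1.mul_const (A t)).const_add (ρ t)
    simpa using h2
  have hd : ∀ t, HasDerivAt ρ (A t) t := by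
    intro t
    exact (hlin t t).congr_of_eventuallyEq (hA' t)
  have hcl : IsLocallyConstant A := by
    rw [IsLocallyConstant.iff_eventually_eq]
    intro t
    have h1 := hA' t
    rw [← eventually_eventually_nhds] at h1
    filter_upwards [h1] with s hs
    have h2 : HasDerivAt ρ (A t) s := (hlin t s).congr_of_eventuallyEq hs
    exact (hd s).unique h2
  have hconst : ∀ t, A t = A 0 := fun t => hcl.apply_eq_of_preconnectedSpace t 0
  have hz : ∀ x y : ℝ, ρ x - x * A 0 = ρ y - y * A 0 := by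
    intro x y
    have hdiff : ∀ t, HasDerivAt (fun s => ρ s - s * A 0) 0 t := by
      intro t
      have h1 : HasDerivAt (fun s : ℝ => s * A 0) (1 * A 0) t := (hasDerivAt_id t).mul_const _
      have h2 := (hd t).sub h1
      rw [hconst t] at h2
      have h3 : A 0 - 1 * A 0 = 0 := by ring
      rw [h3] at h2
      exact h2
    exact is_const_of_deriv_eq_zero (f := fun s => ρ s - s * A 0)
      (fun t => (hdiff t).differentiableAt) (fun t => (hdiff t).deriv) x y
  have h1 := hz 0 (1/2)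
  have h2 := hz 1 (1/2)
  linarith

variable {E : Type*} [NormedAddCommGroup E] [InnerProductSpace ℝ E]

def Kink (f : E → ℝ) (x u : E) (k : ℝ) : Prop :=
  ∃ A : ℝ, ∀ᶠ τ in 𝓝 (0:ℝ), f (x + τ • u) = f x + τ * A + |τ| * k

theorem Kink.add {f g : E → ℝ} {x u : E} {k l : ℝ} (hf : Kink f x u k) (hg : Kink g x u l) :
    Kink (fun z => f z + g z) x u (k + l) := by
  obtain ⟨A, hA⟩ := hf
  obtain ⟨B, hB⟩ := hg
  refine ⟨A + B, ?_⟩
  filter_upwards [hA, hB] with τ h1 h2
  rw [h1, h2]; ring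

theorem Kink.const_mul {f : E → ℝ} {x u : E} {k : ℝ} (c : ℝ) (hf : Kink f x u k) :
    Kink (fun z => c * f z) x u (c * k) := by
  obtain ⟨A, hA⟩ := hf
  refine ⟨c * A, ?_⟩
  filter_upwards [hA] with τ h1
  rw [h1]; ring

theorem Kink.sum {ι : Type*} (S : Finset ι) {f : ι → E → ℝ} {x u : E} {k : ι → ℝ}
    (hf : ∀ i ∈ S, Kink (f i) x u (k i)) :
    Kink (fun z => ∑ i ∈ S, f i z) x u (∑ i ∈ S, k i) := by
  classical
  induction S using Finset.induction_on with
  | empty => exact ⟨0, Eventually.of_forall fun τ => by simp⟩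
  | insert i S hi ih =>
    simp only [Finset.sum_insert hi]
    exact (hf i (Finset.mem_insert_self _ _)).add
      (ih fun j hj => hf j (Finset.mem_insert_of_mem hj))

theorem two_sided0 {P : ℝ → Prop} (h1 : ∀ᶠ ε in 𝓝[>] (0:ℝ), P ε)
    (h2 : ∀ᶠ ε in 𝓝[>] (0:ℝ), P (-ε)) (h0 : P 0) : ∀ᶠ s in 𝓝 (0:ℝ), P s := by
  have h3 := two_sided h1 h2 0
  rw [eventually_nhdsWithin_iff] at h3
  filter_upwards [h3] with s hs
  by_cases h : s = 0
  · rw [h]; exact h0
  · have := hs h
    rwa [sub_zero] at this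

theorem kink_mx {V : Finset E} (hV : V.Nonempty) (x u : E) :
    Kink (mx V) x u (1 / 2 * wid u (arg V x)) := by
  refine ⟨1 / 2 * (mx (arg V x) u - mx (arg V x) (-u)), ?_⟩
  refine two_sided0 (P := fun τ => mx V (x + τ • u) = mx V x +
    τ * (1 / 2 * (mx (arg V x) u - mx (arg V x) (-u))) + |τ| * (1 / 2 * wid u (arg V x))) ?_ ?_ ?_
  · filter_upwards [loc1_val hV x u, self_mem_nhdsWithin] with ε h hε
    have hε' : (0:ℝ) < ε := hε
    rw [h, abs_of_pos hε', wid]; ring
  · filter_upwards [loc1_val hV x (-u), self_mem_nhdsWithin] with ε h hε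
    have hε' : (0:ℝ) < ε := hε
    rw [smul_neg, ← neg_smul] at h
    rw [h, abs_neg, abs_of_pos hε', wid]; ring
  · simp

theorem kink_abs (n x u : E) : Kink (fun z => |(inner ℝ n z : ℝ)|) x u
    (if (inner ℝ n x : ℝ) = 0 then |(inner ℝ n u : ℝ)| else 0) := by
  have hc : Continuous (fun τ : ℝ => (inner ℝ n (x + τ • u) : ℝ)) := by fun_prop
  have ht : Tendsto (fun τ : ℝ => (inner ℝ n (x + τ • u) : ℝ)) (𝓝 0) (𝓝 (inner ℝ n x)) := by
    have := hc.tendsto 0
    simpa using this
  rcases lt_trichotomy (inner ℝ n x : ℝ) 0 with h | h | h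
  · refine ⟨-(inner ℝ n u : ℝ), ?_⟩
    rw [if_neg h.ne]
    filter_upwards [ht.eventually_lt_const h] with τ hτ
    rw [abs_of_neg hτ, abs_of_neg h, inner_add_right, inner_smul_right]; ring
  · refine ⟨0, Eventually.of_forall fun τ => ?_⟩
    rw [if_pos h]
    simp only
    rw [inner_add_right, inner_smul_right, h, zero_add, abs_mul]; simp
  · refine ⟨(inner ℝ n u : ℝ), ?_⟩
    rw [if_neg h.ne']
    filter_upwards [ht.eventually_const_lt h] with τ hτ
    rw [abs_of_pos hτ, abs_of_pos h, inner_add_right, inner_smul_right]; ring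

open Classical in
def NN (V : Finset E) : Finset E := (Dif V).image (fun d => ‖d‖⁻¹ • d)

variable [FiniteDimensional ℝ E]

open Classical in
def cc (V : Finset E) (n : E) : ℝ := if h : ∃ w, GenH V n w then wid n (arg V h.choose) else 0

theorem cc_nonneg {V : Finset E} (hV : V.Nonempty) (n : E) : 0 ≤ cc V n := by
  unfold cc
  split_ifs with h
  · exact wid_nonneg n (arg_nonempty hV _)
  · exact le_refl 0

def rr (V : Finset E) (x : E) : ℝ :=
  mx V x + (-(1 / 4)) * ∑ n ∈ NN V, cc V n * |(inner ℝ n x : ℝ)|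

theorem Dif_neg {V : Finset E} {d : E} (hd : d ∈ Dif V) : -d ∈ Dif V := by
  obtain ⟨h0, y, hy, y', hy', e⟩ := mem_Dif.1 hd
  exact mem_Dif.2 ⟨neg_ne_zero.2 h0, y', hy', y, hy, by rw [← e]; abel⟩

theorem kink_rr {V : Finset E} (hV : V.Nonempty) (hsym : ∀ y ∈ V, -y ∈ V) (c0 : ℝ)
    (hc0 : 0 < c0) (hlow : ∀ x, c0 * ‖x‖ ≤ mx V x) (hdim : 3 ≤ finrank ℝ E)
    (hkey : KeyProp V) (x u : E)
    (hflat : ∀ d1 ∈ Dif V, ∀ d2 ∈ Dif V, (inner ℝ d1 x : ℝ) = 0 → (inner ℝ d2 x : ℝ) = 0 →
      d2 ∈ Submodule.span ℝ {d1}) : Kink (rr V) x u 0 := by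
  classical
  have h1 := kink_mx hV x u
  have h2 : Kink (fun z => ∑ n ∈ NN V, cc V n * |(inner ℝ n z : ℝ)|) x u
      (∑ n ∈ NN V, cc V n * (if (inner ℝ n x : ℝ) = 0 then |(inner ℝ n u : ℝ)| else 0)) :=
    Kink.sum (NN V) (fun n _ => (kink_abs n x u).const_mul (cc V n))
  have h3 := h1.add (h2.const_mul (-(1/4)))
  have h4 : 1 / 2 * wid u (arg V x) + -(1 / 4) *
      (∑ n ∈ NN V, cc V n * (if (inner ℝ n x : ℝ) = 0 then |(inner ℝ n u : ℝ)| else 0)) = 0 := by
    by_cases hd : ∃ d ∈ Dif V, (inner ℝ d x : ℝ) = 0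
    · obtain ⟨d, hd, hdx⟩ := hd
      have hd0 : ‖d‖ ≠ 0 := norm_ne_zero_iff.2 (mem_Dif.1 hd).1
      set n0 := ‖d‖⁻¹ • d with hn0
      have hn0n : ‖n0‖ = 1 := by
        rw [hn0, norm_smul, norm_inv, norm_norm, inv_mul_cancel₀ hd0]
      have hspan : ∀ z, z ∈ Submodule.span ℝ {d} → z ∈ Submodule.span ℝ {n0} := by
        intro z hz
        obtain ⟨c, rfl⟩ := Submodule.mem_span_singleton.1 hz
        rw [Submodule.mem_span_singleton]
        refine ⟨c * ‖d‖, ?_⟩
        rw [hn0, smul_smul, mul_assoc, mul_inv_cancel₀ hd0, mul_one]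
      have hgen : GenH V n0 x := by
        refine ⟨by rw [hn0, inner_smul_left, hdx]; simp, ?_⟩
        intro d' hd' e
        exact hspan _ (hflat d hd d' hd' hdx e)
      have hgen' : GenH V (-n0) x := by
        refine ⟨by rw [inner_neg_left, hgen.1, neg_zero], ?_⟩
        intro d' hd' e
        have := hgen.2 d' hd' e
        rw [Submodule.mem_span_singleton] at this ⊢
        obtain ⟨c, hc⟩ := this
        exact ⟨-c, by rw [← hc]; simp⟩
      have hcc : ∀ n, ‖n‖ = 1 → GenH V n x → cc V n = wid n (arg V x) := by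
        intro n hn hg
        unfold cc
        rw [dif_pos ⟨x, hg⟩]
        exact wid_const hV hsym c0 hc0 hlow hdim hkey n hn _ _
          (Exists.choose_spec (⟨x, hg⟩ : ∃ w, GenH V n w)) hg
      have hfil : (NN V).filter (fun n => (inner ℝ n x : ℝ) = 0) = {n0, -n0} := by
        ext n
        simp only [Finset.mem_filter, Finset.mem_insert, Finset.mem_singleton, NN,
          Finset.mem_image]
        constructor
        · rintro ⟨⟨d', hd', rfl⟩, e⟩
          have hd'0 : ‖d'‖ ≠ 0 := norm_ne_zero_iff.2 (mem_Dif.1 hd').1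
          rw [inner_smul_left] at e
          have e' : (inner ℝ d' x : ℝ) = 0 := by
            rcases mul_eq_zero.1 e with h | h
            · exfalso; simp at h; exact hd'0 (by simpa using h)
            · exact h
          have h5 := hgen.2 d' hd' e'
          obtain ⟨c, hc⟩ := Submodule.mem_span_singleton.1 h5
          have hnorm : ‖d'‖ = |c| := by rw [← hc, norm_smul, hn0n, mul_one, Real.norm_eq_abs]
          have hc0' : c ≠ 0 := by
            intro h; rw [h, abs_zero] at hnorm; exact hd'0 hnorm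
          rcases lt_or_gt_of_ne hc0' with h | h
          · right
            rw [hnorm, abs_of_neg h, ← hc, smul_smul]
            have : (-c)⁻¹ * c = -1 := by
              rw [inv_neg, neg_mul, inv_mul_cancel₀ hc0']
            rw [this, neg_one_smul]
          · left
            rw [hnorm, abs_of_pos h, ← hc, smul_smul, inv_mul_cancel₀ hc0', one_smul]
        · rintro (rfl | rfl)
          · exact ⟨⟨d, hd, rfl⟩, hgen.1⟩
          · refine ⟨⟨-d, Dif_neg hd, ?_⟩, hgen'.1⟩
            rw [norm_neg, smul_neg]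
      have hne : n0 ≠ -n0 := by
        intro h
        have : (2:ℝ) • n0 = 0 := by rw [two_smul]; nth_rewrite 2 [h]; abel
        have h6 := (smul_eq_zero.1 this).resolve_left (by norm_num)
        rw [h6, norm_zero] at hn0n
        exact zero_ne_one hn0n
      have hsum : (∑ n ∈ NN V, cc V n * (if (inner ℝ n x : ℝ) = 0 then |(inner ℝ n u : ℝ)| else 0))
          = 2 * (wid n0 (arg V x) * |(inner ℝ n0 u : ℝ)|) := by
        have e1 : ∀ n ∈ NN V, cc V n * (if (inner ℝ n x : ℝ) = 0 then |(inner ℝ n u : ℝ)| else 0) =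
            if (inner ℝ n x : ℝ) = 0 then cc V n * |(inner ℝ n u : ℝ)| else 0 := by
          intro n _
          split_ifs <;> simp
        rw [Finset.sum_congr rfl e1, ← Finset.sum_filter, hfil, Finset.sum_pair hne,
          hcc n0 hn0n hgen, hcc (-n0) (by rw [norm_neg]; exact hn0n) hgen', wid_neg,
          inner_neg_left, abs_neg]
        ring
      have hw : wid u (arg V x) = |(inner ℝ n0 u : ℝ)| * wid n0 (arg V x) := by
        clear_value n0
        rw [← wid_smul]
        refine wid_congr ?_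
        intro y hy y' hy'
        obtain ⟨c, hc⟩ := Submodule.mem_span_singleton.1 (GenH_arg hgen y hy y' hy')
        rw [← hc, inner_smul_left, inner_smul_left, inner_smul_right,
          real_inner_self_eq_norm_sq, hn0n]
        simp
      rw [hsum, hw]; ring
    · push Not at hd
      have hs : (∑ n ∈ NN V, cc V n * (if (inner ℝ n x : ℝ) = 0 then |(inner ℝ n u : ℝ)| else 0))
          = 0 := by
        refine Finset.sum_eq_zero fun n hn => ?_
        simp only [NN, Finset.mem_image] at hn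
        obtain ⟨d, hdD, rfl⟩ := hn
        have hd0 : ‖d‖ ≠ 0 := norm_ne_zero_iff.2 (mem_Dif.1 hdD).1
        rw [if_neg, mul_zero]
        rw [inner_smul_left]
        refine mul_ne_zero ?_ (hd d hdD)
        simpa using hd0
      have hw : wid u (arg V x) = 0 := by
        have : wid u (arg V x) = wid 0 (arg V x) := by
          refine wid_congr ?_
          intro y hy y' hy'
          by_cases hne : y - y' = 0
          · rw [hne, inner_zero_left, inner_zero_left]
          · exfalso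
            refine hd (y - y') (mem_Dif.2 ⟨hne, y, arg_subset _ _ hy, y', arg_subset _ _ hy', rfl⟩) ?_
            rw [inner_sub_left, (mem_arg.1 hy).2, (mem_arg.1 hy').2, sub_self]
        rw [this]; unfold wid; rw [neg_zero, mx_zero]; ring
      rw [hs, hw]; ring
  rw [h4] at h3
  exact h3

theorem rr_continuous (V : Finset E) : Continuous (rr V) := by
  have := mx_continuous V
  unfold rr
  fun_prop

theorem rr_zero (V : Finset E) : rr V 0 = 0 := by
  unfold rr; rw [mx_zero]; simp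

theorem rr_neg {V : Finset E} (hsym : ∀ y ∈ V, -y ∈ V) (x : E) : rr V (-x) = rr V x := by
  unfold rr; rw [mx_neg hsym]; simp

theorem rr_generic {V : Finset E} (hV : V.Nonempty) (hsym : ∀ y ∈ V, -y ∈ V) (c0 : ℝ)
    (hc0 : 0 < c0) (hlow : ∀ x, c0 * ‖x‖ ≤ mx V x) (hdim : 3 ≤ finrank ℝ E)
    (hkey : KeyProp V) (x0 : E) (hx0 : ∀ d ∈ Dif V, (inner ℝ d x0 : ℝ) ≠ 0) : rr V x0 = 0 := by
  classical
  set S : Finset E := ((Dif V ×ˢ Dif V).filter (fun p => p.2 ∉ Submodule.span ℝ {p.1})).image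
      (fun p => (inner ℝ p.1 x0 : ℝ) • p.2 - (inner ℝ p.2 x0 : ℝ) • p.1) with hS
  have hSp : ∀ d ∈ S, ∃ v ∈ (⊤ : Submodule ℝ E), (inner ℝ d v : ℝ) ≠ 0 := by
    intro d hd
    simp only [hS, Finset.mem_image, Finset.mem_filter, Finset.mem_product, Prod.exists] at hd
    obtain ⟨d1, d2, ⟨⟨hd1, hd2⟩, hn2⟩, rfl⟩ := hd
    refine ⟨_, Submodule.mem_top, inner_self_ne_zero.2 ?_⟩
    intro hcon
    apply hn2
    rw [Submodule.mem_span_singleton]
    refine ⟨(inner ℝ d1 x0 : ℝ)⁻¹ * (inner ℝ d2 x0 : ℝ), ?_⟩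
    rw [mul_smul, ← sub_eq_zero.1 hcon, smul_smul, inv_mul_cancel₀ (hx0 d1 hd1), one_smul]
  obtain ⟨v, -, hvS⟩ := exists_generic _ S hSp
  have ev2 : ∀ᶠ ε in 𝓝[>] (0:ℝ), ∀ d ∈ S, (inner ℝ d (-x0 + ε • v) : ℝ) ≠ 0 := by
    rw [Finset.eventually_all]
    intro d hd
    exact ev_ne d (-x0) v (Or.inr (hvS d hd))
  have hmid : ∀ᶠ ε in 𝓝[>] (0:ℝ), rr V ((ε / 2) • v) = (rr V x0 + rr V (-x0 + ε • v)) / 2 := by
    filter_upwards [ev2] with ε hε
    have hline := nice_line V ⊥ x0 (-x0 + ε • v)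
      (fun d hd h => absurd h (hx0 d hd)) (by
        intro d1 hd1 d2 hd2 hn1 hn2
        rw [bot_sup_eq] at hn2
        refine hε _ ?_
        simp only [hS, Finset.mem_image, Finset.mem_filter, Finset.mem_product, Prod.exists]
        exact ⟨d1, d2, ⟨⟨hd1, hd2⟩, hn2⟩, rfl⟩)
    have h1 := affine_of_local (fun t => rr V (x0 + t • ((-x0 + ε • v) - x0))) (by
      intro t
      obtain ⟨A, hA⟩ := kink_rr hV hsym c0 hc0 hlow hdim hkey
        (x0 + t • ((-x0 + ε • v) - x0)) ((-x0 + ε • v) - x0) (by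
          intro d1 hd1 d2 hd2 e1 e2
          have := hline t d1 hd1 d2 hd2 (by
            rw [Submodule.mem_bot]; exact (mem_Dif.1 hd1).1) e1 e2
          rwa [bot_sup_eq] at this)
      refine ⟨A, ?_⟩
      filter_upwards [hA] with τ hτ
      rw [add_smul, ← add_assoc, hτ]; ring)
    simp only [zero_smul, add_zero, one_smul] at h1
    have e1 : x0 + (1 / 2 : ℝ) • ((-x0 + ε • v) - x0) = (ε / 2) • v := by module
    have e2 : x0 + ((-x0 + ε • v) - x0) = -x0 + ε • v := by abel
    rw [e1, e2] at h1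
    exact h1
  have hc := rr_continuous V
  have ht1 : Tendsto (fun ε : ℝ => rr V ((ε / 2) • v)) (𝓝[>] 0) (𝓝 (rr V 0)) := by
    have h1 : Continuous (fun ε : ℝ => rr V ((ε / 2) • v)) := by fun_prop
    have h2 := h1.tendsto 0
    simp only [zero_div, zero_smul] at h2
    exact h2.mono_left nhdsWithin_le_nhds
  have ht2 : Tendsto (fun ε : ℝ => (rr V x0 + rr V (-x0 + ε • v)) / 2) (𝓝[>] 0)
      (𝓝 ((rr V x0 + rr V (-x0)) / 2)) := by
    have h1 : Continuous (fun ε : ℝ => (rr V x0 + rr V (-x0 + ε • v)) / 2) := by fun_prop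
    have h2 := h1.tendsto 0
    simp only [zero_smul, add_zero] at h2
    exact h2.mono_left nhdsWithin_le_nhds
  have h3 := tendsto_nhds_unique (ht1.congr' hmid) ht2
  rw [rr_zero, rr_neg hsym] at h3
  linarith

theorem rr_eq_zero {V : Finset E} (hV : V.Nonempty) (hsym : ∀ y ∈ V, -y ∈ V) (c0 : ℝ)
    (hc0 : 0 < c0) (hlow : ∀ x, c0 * ‖x‖ ≤ mx V x) (hdim : 3 ≤ finrank ℝ E)
    (hkey : KeyProp V) (x : E) : rr V x = 0 := by
  obtain ⟨v, -, hv⟩ := exists_generic (⊤ : Submodule ℝ E) (Dif V)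
    (fun d hd => ⟨d, Submodule.mem_top, inner_self_ne_zero.2 (mem_Dif.1 hd).1⟩)
  have ev : ∀ᶠ ε in 𝓝[>] (0:ℝ), ∀ d ∈ Dif V, (inner ℝ d (x + ε • v) : ℝ) ≠ 0 := by
    rw [Finset.eventually_all]
    intro d hd
    exact ev_ne d x v (Or.inr (hv d hd))
  have hz : ∀ᶠ ε in 𝓝[>] (0:ℝ), rr V (x + ε • v) = 0 := by
    filter_upwards [ev] with ε hε
    exact rr_generic hV hsym c0 hc0 hlow hdim hkey _ hε
  have hc := rr_continuous V
  have ht1 : Tendsto (fun ε : ℝ => rr V (x + ε • v)) (𝓝[>] 0) (𝓝 (rr V x)) := by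
    have h1 : Continuous (fun ε : ℝ => rr V (x + ε • v)) := by fun_prop
    have h2 := h1.tendsto 0
    simp only [zero_smul, add_zero] at h2
    exact h2.mono_left nhdsWithin_le_nhds
  exact tendsto_nhds_unique (ht1.congr' hz) tendsto_const_nhds

/-- **Combinatorial theorem**: under the key property, the support function of `V` is that of a
zonotope. -/
theorem zonotope_rep {V : Finset E} (hV : V.Nonempty) (hsym : ∀ y ∈ V, -y ∈ V) (c0 : ℝ)
    (hc0 : 0 < c0) (hlow : ∀ x, c0 * ‖x‖ ≤ mx V x) (hdim : 3 ≤ finrank ℝ E)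
    (hkey : KeyProp V) : ∃ (N : ℕ) (v : Fin N → E), ∀ x, mx V x = ∑ i, |(inner ℝ (v i) x : ℝ)| := by
  classical
  refine ⟨(NN V).card, fun i => ((1 / 4) * cc V ((NN V).equivFin.symm i : E)) •
    ((NN V).equivFin.symm i : E), fun x => ?_⟩
  have h1 := rr_eq_zero hV hsym c0 hc0 hlow hdim hkey x
  unfold rr at h1
  have h2 : mx V x = ∑ n ∈ NN V, |(inner ℝ (((1 / 4) * cc V n) • n) x : ℝ)| := by
    have : ∀ n ∈ NN V, |(inner ℝ (((1 / 4) * cc V n) • n) x : ℝ)| =
        (1 / 4) * (cc V n * |(inner ℝ n x : ℝ)|) := by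
      intro n _
      rw [inner_smul_left, abs_mul]
      simp only [conj_trivial]
      rw [abs_of_nonneg (mul_nonneg (by norm_num) (cc_nonneg hV n))]; ring
    rw [Finset.sum_congr rfl this, ← Finset.mul_sum]
    linarith
  rw [h2, ← Finset.sum_coe_sort]
  exact (Equiv.sum_comp (NN V).equivFin.symm
    (fun n : NN V => |(inner ℝ (((1 / 4) * cc V (n : E)) • (n : E)) x : ℝ)|)).symm

end Pool.Agent.Helpers25.IB
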