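import Pool.Agent.Helpers25.IBTest

open MeasureTheory Metric Set Filter Topology Measure Module

set_option linter.unusedSectionVars false
set_option linter.unusedSimpArgs false

noncomputable section

namespace Pool.Agent.Helpers25.IB

variable {E : Type*} [NormedAddCommGroup E] [InnerProductSpace ℝ E] [FiniteDimensional ℝ E]
  [MeasurableSpace E] [BorelSpace E]

abbrev Wd (a b : E) : Submodule ℝ E := (Submodule.span ℝ {a, b})ᗮ

theorem mem_Wd {a b x : E} : x ∈ Wd a b ↔ inner ℝ a x = (0:ℝ) ∧ inner ℝ b x = (0:ℝ) := by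
  rw [Wd, Submodule.mem_orthogonal]
  constructor
  · intro h
    exact ⟨h a (Submodule.subset_span (by simp)), h b (Submodule.subset_span (by simp))⟩
  · rintro ⟨h1, h2⟩ u hu
    obtain ⟨s, t, rfl⟩ := Submodule.mem_span_pair.1 hu
    rw [inner_add_left, inner_smul_left, inner_smul_left, h1, h2]; simp

structure ON (a b : E) : Prop where
  ha : ‖a‖ = 1
  hb : ‖b‖ = 1
  hab : inner ℝ a b = (0:ℝ)

def iota (a b : E) (p : ℝ × ℝ × Wd a b) : E := p.1 • a + p.2.1 • b + (p.2.2 : E)

theorem inner_iota {a b : E} (h : ON a b) (p q : ℝ × ℝ × Wd a b) :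
    inner ℝ (iota a b p) (iota a b q) = p.1 * q.1 + p.2.1 * q.2.1 + inner ℝ p.2.2 q.2.2 := by
  have h1 := mem_Wd.1 p.2.2.2
  have h2 := mem_Wd.1 q.2.2.2
  have h1a : inner ℝ (p.2.2 : E) a = (0:ℝ) := by rw [real_inner_comm]; exact h1.1
  have h1b : inner ℝ (p.2.2 : E) b = (0:ℝ) := by rw [real_inner_comm]; exact h1.2
  have haa : inner ℝ a a = (1:ℝ) := by rw [real_inner_self_eq_norm_sq, h.ha]; norm_num
  have hbb : inner ℝ b b = (1:ℝ) := by rw [real_inner_self_eq_norm_sq, h.hb]; norm_num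
  have hba : inner ℝ b a = (0:ℝ) := by rw [real_inner_comm]; exact h.hab
  simp only [iota, inner_add_left, inner_add_right, inner_smul_left, inner_smul_right,
    h1.1, h1.2, h2.1, h2.2, h1a, h1b, haa, hbb, hba, h.hab, Submodule.coe_inner]
  simp
  ring

theorem norm_iota_sq {a b : E} (h : ON a b) (p : ℝ × ℝ × Wd a b) :
    ‖iota a b p‖ ^ 2 = p.1 ^ 2 + p.2.1 ^ 2 + ‖p.2.2‖ ^ 2 := by
  rw [← real_inner_self_eq_norm_sq, inner_iota h, real_inner_self_eq_norm_sq]; ring

theorem iota_surj {a b : E} (h : ON a b) : Function.Surjective (iota a b) := by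
  intro x
  have haa : inner ℝ a a = (1:ℝ) := by rw [real_inner_self_eq_norm_sq, h.ha]; norm_num
  have hbb : inner ℝ b b = (1:ℝ) := by rw [real_inner_self_eq_norm_sq, h.hb]; norm_num
  have hba : inner ℝ b a = (0:ℝ) := by rw [real_inner_comm]; exact h.hab
  refine ⟨(inner ℝ a x, inner ℝ b x, ⟨x - (inner ℝ a x : ℝ) • a - (inner ℝ b x : ℝ) • b, ?_⟩), ?_⟩
  · rw [mem_Wd]
    simp only [inner_sub_right, inner_smul_right, haa, hbb, hba, h.hab]
    simp
  · simp only [iota]
    abel

def isoL0 (a b : E) (h : ON a b) : WithLp 2 (ℝ × WithLp 2 (ℝ × Wd a b)) →ₗᵢ[ℝ] E where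
  toFun := fun p => iota a b (p.fst, p.snd.fst, p.snd.snd)
  map_add' := by
    intro p q
    simp only [iota, WithLp.add_fst, WithLp.add_snd, Submodule.coe_add, add_smul]
    abel
  map_smul' := by
    intro c p
    simp only [iota, WithLp.smul_fst, WithLp.smul_snd, Submodule.coe_smul, smul_add,
      smul_eq_mul, mul_smul, RingHom.id_apply]
  norm_map' := by
    intro p
    have h1 := norm_iota_sq h (p.fst, p.snd.fst, p.snd.snd)
    have h2 := WithLp.prod_norm_sq_eq_of_L2 p
    have h3 := WithLp.prod_norm_sq_eq_of_L2 p.snd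
    have h4 : ‖iota a b (p.fst, p.snd.fst, p.snd.snd)‖ ^ 2 = ‖p‖ ^ 2 := by
      rw [h1, h2, h3]
      simp only [Real.norm_eq_abs, sq_abs]
      ring
    exact (sq_eq_sq₀ (norm_nonneg _) (norm_nonneg _)).1 h4

def isoL (a b : E) (h : ON a b) : WithLp 2 (ℝ × WithLp 2 (ℝ × Wd a b)) ≃ₗᵢ[ℝ] E :=
  LinearIsometryEquiv.ofSurjective (isoL0 a b h)
    (by
      intro x
      obtain ⟨p, hp⟩ := iota_surj h x
      exact ⟨WithLp.toLp 2 (p.1, WithLp.toLp 2 (p.2.1, p.2.2)), hp⟩)

theorem iota_eq (a b : E) (h : ON a b) : iota a b =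
    (isoL a b h) ∘ (WithLp.toLp 2) ∘ (Prod.map id (WithLp.toLp 2)) := by
  funext p
  rfl

theorem iota_cont (a b : E) : Continuous (iota a b) := by
  unfold iota
  fun_prop

theorem iota_mp {a b : E} (h : ON a b) : MeasurePreserving (iota a b) volume volume := by
  rw [iota_eq a b h]
  refine (isoL a b h).measurePreserving.comp ?_
  refine (WithLp.volume_preserving_toLp (U := ℝ) (V := WithLp 2 (ℝ × Wd a b))).comp ?_
  exact (MeasurePreserving.id (volume : Measure ℝ)).prod
    (WithLp.volume_preserving_toLp (U := ℝ) (V := Wd a b))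

theorem iota_inj {a b : E} (h : ON a b) : Function.Injective (iota a b) := by
  rw [iota_eq a b h]
  refine (isoL a b h).injective.comp ?_
  refine (WithLp.toLp_injective 2).comp ?_
  exact Function.Injective.prodMap Function.injective_id (WithLp.toLp_injective 2)

theorem iota_emb {a b : E} (h : ON a b) : MeasurableEmbedding (iota a b) :=
  (iota_cont a b).measurableEmbedding (iota_inj h)

theorem integral_iota {a b : E} (h : ON a b) (f : E → ℝ) :
    ∫ x, f x = ∫ p, f (iota a b p) :=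
  ((iota_mp h).integral_comp (iota_emb h) f).symm

end Pool.Agent.Helpers25.IB
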