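import Mathlib

open MeasureTheory Metric Set

noncomputable section

namespace Pool.Agent.Helpers25.IB

/-- Euclidean space `ℝ^n`. -/
abbrev Rn (n : ℕ) : Type := EuclideanSpace ℝ (Fin n)

section
variable {E : Type} [NormedAddCommGroup E] [InnerProductSpace ℝ E] [FiniteDimensional ℝ E]
  [MeasurableSpace E] [BorelSpace E]

/-- The hyperplane `v^⊥`. -/
def perp (v : E) : Submodule ℝ E := (Submodule.span ℝ {v})ᗮ

/-- The spherical Radon transform `Rf(v)`, the integral of `f` over the unit sphere of `v^⊥`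
(with its surface measure). -/
def radon (f : E → ℝ) (v : E) : ℝ :=
  ∫ u : sphere (0 : perp v) 1, f (u : perp v) ∂(volume : Measure (perp v)).toSphere

/-- The radial function `ρ_K(u) = sup {t ≥ 0 : t u ∈ K}`. -/
def radial (K : Set E) (u : E) : ℝ := sSup {t : ℝ | 0 ≤ t ∧ t • u ∈ K}

/-- Origin-symmetric star bodies: compact, symmetric, star-shaped with respect to the origin,
with positive radial function, continuous on the unit sphere. -/
structure IsSymmStarBody (K : Set E) : Prop where
  compact : IsCompact K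
  symm : ∀ x ∈ K, -x ∈ K
  star : ∀ x ∈ K, ∀ t ∈ Icc (0 : ℝ) 1, t • x ∈ K
  radial_pos : ∀ u : E, ‖u‖ = 1 → 0 < radial K u
  radial_cont : ContinuousOn (radial K) (sphere 0 1)

/-- Intersection bodies: `ρ_K = R μ` for a finite nonnegative even Borel measure `μ` on the
unit sphere, i.e. `∫ ρ_K f dσ = ∫ R f dμ` for all even `f` continuous on the sphere. -/
def IsIntersectionBody (K : Set E) : Prop :=
  IsSymmStarBody K ∧ ∃ μ : Measure (sphere (0 : E) 1), IsFiniteMeasure μ ∧
    μ.map (fun u => -u) = μ ∧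
    ∀ f : E → ℝ, ContinuousOn f (sphere 0 1) → (∀ u, f (-u) = f u) →
      ∫ u, radial K u * f u ∂(volume : Measure E).toSphere = ∫ v, radon f v ∂μ

/-- Polytopes: convex hulls of finitely many points, with nonempty interior. -/
def IsPolytope (K : Set E) : Prop :=
  (∃ S : Finset E, K = convexHull ℝ (S : Set E)) ∧ (interior K).Nonempty

/-- `v_1, …, v_N` span the whole space. -/
def Spanning {N : ℕ} (v : Fin N → E) : Prop := Submodule.span ℝ (range v) = ⊤

/-- The zonotope `Σ [-v_i, v_i]`. -/
def zonotope {N : ℕ} (v : Fin N → E) : Set E :=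
  {z | ∃ c : Fin N → ℝ, (∀ i, |c i| ≤ 1) ∧ z = ∑ i, c i • v i}

/-- The polar body. -/
def polarBody (Z : Set E) : Set E := {y | ∀ x ∈ Z, inner ℝ x y ≤ 1}

end

end Pool.Agent.Helpers25.IB
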