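import Pool.Agent.Helpers25.IBKappa

open MeasureTheory Metric Set Filter Topology Measure Module

set_option linter.unusedSectionVars false
set_option linter.unusedSimpArgs false

noncomputable section

namespace Pool.Agent.Helpers25.IB

variable {E : Type*} [NormedAddCommGroup E] [InnerProductSpace ℝ E] [FiniteDimensional ℝ E]
  [MeasurableSpace E] [BorelSpace E] {a b : E}

theorem measurableSet_arg (V T : Finset E) (hT : T ⊆ V) : MeasurableSet {w : E | arg V w = T} := by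
  classical
  have h : {w : E | arg V w = T} = ⋂ y ∈ V, {w : E | inner ℝ y w = mx V w ↔ y ∈ T} := by
    ext w
    simp only [mem_setOf_eq, mem_iInter]
    constructor
    · intro h y hy
      rw [← h, mem_arg]
      exact ⟨fun e => ⟨hy, e⟩, fun e => e.2⟩
    · intro h
      ext y
      rw [mem_arg]
      constructor
      · rintro ⟨h1, h2⟩
        exact (h y h1).1 h2
      · intro h1
        exact ⟨hT h1, (h y (hT h1)).2 h1⟩
  rw [h]
  refine Finset.measurableSet_biInter V fun y _ => ?_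
  have hm : MeasurableSet {w : E | (inner ℝ y w : ℝ) = mx V w} :=
    measurableSet_eq_fun (Continuous.measurable (by fun_prop)) (mx_continuous V).measurable
  by_cases hy : y ∈ T
  · simpa [hy] using hm
  · simp only [hy, iff_false]
    exact hm.compl

theorem measurable_arg (V : Finset E) (F : Finset E → ℝ) :
    Measurable (fun w : E => F (arg V w)) := by
  classical
  have h : (fun w : E => F (arg V w)) =
      fun w : E => ∑ T ∈ V.powerset, if arg V w = T then F T else 0 := by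
    funext w
    rw [Finset.sum_ite_eq, if_pos (Finset.mem_powerset.2 (arg_subset V w))]
  rw [h]
  refine Finset.measurable_sum _ fun T hT => ?_
  exact Measurable.ite (measurableSet_arg V T (Finset.mem_powerset.1 hT)) measurable_const
    measurable_const

theorem bound_arg (V : Finset E) (F : Finset E → ℝ) (w : E) :
    |F (arg V w)| ≤ ∑ T ∈ V.powerset, |F T| :=
  Finset.single_le_sum (f := fun T => |F T|) (fun i _ => abs_nonneg _)
    (Finset.mem_powerset.2 (arg_subset V w))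

def Gc (η : Wd a b) (w : Wd a b) : ℂ :=
  (Real.exp (-(‖w‖ ^ 2 / 2)) : ℂ) * Complex.exp (((inner ℝ w η : ℝ) : ℂ) * Complex.I)

theorem Gc_cont (η : Wd a b) : Continuous (Gc η) := by
  unfold Gc; fun_prop

theorem norm_Gc (η w : Wd a b) : ‖Gc η w‖ = Real.exp (-(‖w‖ ^ 2 / 2)) := by
  rw [Gc, norm_mul, Complex.norm_exp_ofReal_mul_I, mul_one, Complex.norm_real,
    Real.norm_of_nonneg (Real.exp_pos _).le]

/-- weight function -/
def wt (V : Finset E) (F : Finset E → ℝ) (w : Wd a b) : ℝ :=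
  F (arg V (w : E)) * ((mx V (w : E))⁻¹ * (mx V (w : E))⁻¹)

theorem wt_meas (V : Finset E) (F : Finset E → ℝ) : Measurable (wt (a := a) (b := b) V F) := by
  have h1 : Measurable (fun w : Wd a b => F (arg V (w : E))) :=
    (measurable_arg V F).comp measurable_subtype_coe
  have h2 : Measurable (fun w : Wd a b => (mx V (w : E))⁻¹) :=
    ((mx_continuous V).measurable.comp measurable_subtype_coe).inv
  exact h1.mul (h2.mul h2)

theorem Gc_wt_int (hW : 3 ≤ finrank ℝ (Wd a b)) (V : Finset E)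
    (c0 : ℝ) (hc0 : 0 < c0) (hlow : ∀ x, c0 * ‖x‖ ≤ mx V x)
    (F : Finset E → ℝ) (η : Wd a b) :
    Integrable (fun w : Wd a b => Gc η w * ((wt V F w : ℝ) : ℂ)) := by
  set M : ℝ := ∑ T ∈ V.powerset, |F T|
  have hM : 0 ≤ M := Finset.sum_nonneg fun _ _ => abs_nonneg _
  have i2 := gaussW_int (Wd a b) hW 2 (by norm_num) (M * (c0⁻¹ * c0⁻¹))
  refine i2.mono' ?_ ?_
  · exact (Gc_cont η).aestronglyMeasurable.mul
      (Complex.measurable_ofReal.comp (wt_meas V F)).aestronglyMeasurable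
  · have hnt : Nontrivial (Wd a b) := Module.nontrivial_of_finrank_pos (R := ℝ) (by omega)
    have hne : ∀ᵐ w : Wd a b, w ≠ 0 := by
      have : (volume : Measure (Wd a b)) {0} = 0 := measure_singleton 0
      rw [ae_iff]; simp
    filter_upwards [hne] with w hw
    rw [norm_mul, norm_Gc, Complex.norm_real, wt, norm_mul, norm_mul, Real.norm_eq_abs,
      Real.norm_eq_abs]
    have hw' : 0 < ‖w‖ := norm_pos_iff.2 hw
    have h1 : 0 < c0 * ‖w‖ := mul_pos hc0 hw'
    have h2 : c0 * ‖w‖ ≤ mx V (w : E) := hlow (w : E)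
    have h3 : 0 < mx V (w : E) := lt_of_lt_of_le h1 h2
    have h4 : |(mx V (w : E))⁻¹| ≤ c0⁻¹ * ‖w‖⁻¹ := by
      rw [abs_of_pos (inv_pos.2 h3), ← mul_inv]
      exact inv_anti₀ h1 h2
    have h5 := bound_arg V F (w : E)
    have h6 : |F (arg V (w : E))| * (|(mx V (w : E))⁻¹| * |(mx V (w : E))⁻¹|) ≤
        M * ((c0⁻¹ * ‖w‖⁻¹) * (c0⁻¹ * ‖w‖⁻¹)) := by
      have : 0 ≤ |(mx V (w : E))⁻¹| := abs_nonneg _
      gcongr
    refine mul_le_mul_of_nonneg_left (h6.trans (le_of_eq ?_)) (Real.exp_pos _).le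
    ring

theorem Psi_eq (η : Wd a b) (q : ℝ × Wd a b) : Psi η q = Dlt Kf q.1 * Gc η q.2 := rfl

theorem trip (η : Wd a b) (m : ℝ → ℝ) (hm : Integrable (fun s => dg s * m s)) (χ : ℝ → ℝ)
    (hχ : Integrable (fun t => Dlt Kf t * (χ t : ℂ))) (β : Wd a b → ℝ)
    (hβ : Integrable (fun w => Gc η w * (β w : ℂ))) :
    Integrable (fun p : ℝ × ℝ × Wd a b =>
      (dg p.1 * m p.1) * (Psi η p.2 * ((χ p.2.1 * β p.2.2 : ℝ) : ℂ)).re) ∧
    ∫ p : ℝ × ℝ × Wd a b,
      (dg p.1 * m p.1) * (Psi η p.2 * ((χ p.2.1 * β p.2.2 : ℝ) : ℂ)).re =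
      (∫ s, dg s * m s) * ((∫ t, Dlt Kf t * (χ t : ℂ)) * (∫ w, Gc η w * (β w : ℂ))).re := by
  have hi : Integrable (fun q : ℝ × Wd a b => (Dlt Kf q.1 * (χ q.1 : ℂ)) *
      (Gc η q.2 * (β q.2 : ℂ))) := hχ.mul_prod hβ
  have hre := integral_re hi
  have hi2 : Integrable (fun q : ℝ × Wd a b => (Psi η q * ((χ q.1 * β q.2 : ℝ) : ℂ)).re) := by
    refine hi.re.congr (Eventually.of_forall fun q => ?_)
    show ((Dlt Kf q.1 * (χ q.1 : ℂ)) * (Gc η q.2 * (β q.2 : ℂ))).re = _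
    simp only [Psi_eq]; push_cast
    congr 1; ring
  refine ⟨hm.mul_prod hi2, ?_⟩
  have h1 := integral_prod_mul (μ := (volume : Measure ℝ)) (ν := (volume : Measure (ℝ × Wd a b)))
    (fun s => dg s * m s) (fun q : ℝ × Wd a b => (Psi η q * ((χ q.1 * β q.2 : ℝ) : ℂ)).re)
  have h2 := integral_prod_mul (μ := (volume : Measure ℝ)) (ν := (volume : Measure (Wd a b)))
    (fun t => Dlt Kf t * (χ t : ℂ)) (fun w : Wd a b => Gc η w * (β w : ℂ))
  refine h1.trans ?_
  congr 1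
  rw [← h2]
  refine Eq.trans ?_ hre
  refine integral_congr_ae (Eventually.of_forall fun q => ?_)
  show _ = ((Dlt Kf q.1 * (χ q.1 : ℂ)) * (Gc η q.2 * (β q.2 : ℂ))).re
  simp only
  rw [Psi_eq]; push_cast
  congr 1; ring

theorem int_add4 {α : Type*} [MeasurableSpace α] (μ : Measure α) (f1 f2 f3 f4 : α → ℝ)
    (h1 : Integrable f1 μ) (h2 : Integrable f2 μ) (h3 : Integrable f3 μ) (h4 : Integrable f4 μ) :
    ∫ x, f1 x + f2 x + f3 x + f4 x ∂μ =
      ∫ x, f1 x ∂μ + ∫ x, f2 x ∂μ + ∫ x, f3 x ∂μ + ∫ x, f4 x ∂μ := by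
  have h12 : Integrable (fun x => f1 x + f2 x) μ := h1.add h2
  have h123 : Integrable (fun x => f1 x + f2 x + f3 x) μ := h12.add h3
  rw [integral_add h123 h4, integral_add h12 h3, integral_add h1 h2]

/-- difference of the two kink sizes -/
def bet (a b : E) (T : Finset E) : ℝ :=
  (mx (arg T b) a + mx (arg T b) (-a)) - (mx (arg T (-b)) a + mx (arg T (-b)) (-a))

def IH (V : Finset E) (η : Wd a b) : ℂ := ∫ w : Wd a b, Gc η w * ((wt V (bet a b) w : ℝ) : ℂ)

theorem IH_im_nonpos (hab : ON a b) (hW : 3 ≤ finrank ℝ (Wd a b)) (hdim : 2 ≤ finrank ℝ E)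
    (V : Finset E) (hV : V.Nonempty) (c0 : ℝ) (hc0 : 0 < c0) (hlow : ∀ x, c0 * ‖x‖ ≤ mx V x)
    (hg : PosProp (fun x : E => (mx V x)⁻¹)) (η : Wd a b) :
    (IH V η).im ≤ 0 := by
  have hJ := J_nonneg hab hW hdim V hV c0 hc0 hlow hg η
  have iq := mul_chi_int DltKf_int chip_meas chip_bound
  have iq' := mul_chi_int (χ := fun t => chip (-t)) DltKf_int (chip_meas.comp measurable_neg)
    (fun t => chip_bound (-t))
  set F1 : Finset E → ℝ := fun T => mx (arg T b) a
  set F2 : Finset E → ℝ := fun T => mx (arg T b) (-a)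
  set F3 : Finset E → ℝ := fun T => mx (arg T (-b)) a
  set F4 : Finset E → ℝ := fun T => mx (arg T (-b)) (-a)
  have g1 := Gc_wt_int hW V c0 hc0 hlow F1 η
  have g2 := Gc_wt_int hW V c0 hc0 hlow F2 η
  have g3 := Gc_wt_int hW V c0 hc0 hlow F3 η
  have g4 := Gc_wt_int hW V c0 hc0 hlow F4 η
  obtain ⟨t1, v1⟩ := trip η (fun s => max s 0) kap_int chip iq (wt V F1) g1
  obtain ⟨t2, v2⟩ := trip η (fun s => max (-s) 0) kap_int' chip iq (wt V F2) g2
  obtain ⟨t3, v3⟩ := trip η (fun s => max s 0) kap_int (fun t => chip (-t)) iq' (wt V F3) g3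
  obtain ⟨t4, v4⟩ := trip η (fun s => max (-s) 0) kap_int' (fun t => chip (-t)) iq' (wt V F4) g4
  have hae : ∀ᵐ p : ℝ × ℝ × Wd a b,
      -(mx (arg (arg V (p.2.2 : E)) (p.2.1 • b)) (p.1 • a)) *
        ((mx V (p.2.2 : E))⁻¹ * (mx V (p.2.2 : E))⁻¹) * (Phi η p).re =
      -((((dg p.1 * max p.1 0) * (Psi η p.2 * ((chip p.2.1 * wt V F1 p.2.2 : ℝ) : ℂ)).re +
        (dg p.1 * max (-p.1) 0) * (Psi η p.2 * ((chip p.2.1 * wt V F2 p.2.2 : ℝ) : ℂ)).re) +
        (dg p.1 * max p.1 0) * (Psi η p.2 * ((chip (-p.2.1) * wt V F3 p.2.2 : ℝ) : ℂ)).re) +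
        (dg p.1 * max (-p.1) 0) * (Psi η p.2 * ((chip (-p.2.1) * wt V F4 p.2.2 : ℝ) : ℂ)).re) := by
    have hne : ∀ᵐ p : ℝ × ℝ × Wd a b, p.2.1 ≠ 0 := by
      have h1 : ∀ᵐ t : ℝ, t ≠ 0 := by rw [ae_iff]; simp
      have h2 : ∀ᵐ q : ℝ × Wd a b, q.1 ≠ 0 :=
        (Measure.quasiMeasurePreserving_fst (μ := (volume : Measure ℝ))
          (ν := (volume : Measure (Wd a b)))).ae h1
      exact (Measure.quasiMeasurePreserving_snd (μ := (volume : Measure ℝ))
          (ν := (volume : Measure (ℝ × Wd a b)))).ae h2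
    filter_upwards [hne] with p hp
    have hs : ∀ T : Finset E, mx T (p.1 • a) = max p.1 0 * mx T a + max (-p.1) 0 * mx T (-a) := by
      intro T
      rcases le_total 0 p.1 with h | h
      · rw [mx_smul T h, max_eq_left h, max_eq_right (by linarith)]; ring
      · rw [show p.1 • a = (-p.1) • (-a) by simp, mx_smul T (by linarith), max_eq_right h,
          max_eq_left (by linarith)]; ring
    simp only [Complex.re_mul_ofReal, Phi_re, wt, F1, F2, F3, F4, hs]
    rcases lt_or_gt_of_ne hp with h | h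
    · have e1 : arg (arg V (p.2.2 : E)) (p.2.1 • b) = arg (arg V (p.2.2 : E)) (-b) := by
        rw [show p.2.1 • b = (-p.2.1) • (-b) by simp, arg_smul _ (by linarith)]
      have e2 : chip p.2.1 = 0 := by unfold chip; rw [if_neg (by linarith)]
      have e3 : chip (-p.2.1) = 1 := by unfold chip; rw [if_pos (by linarith)]
      rw [e1, e2, e3]; ring
    · have e1 : arg (arg V (p.2.2 : E)) (p.2.1 • b) = arg (arg V (p.2.2 : E)) b := by
        rw [arg_smul _ h]
      have e2 : chip p.2.1 = 1 := by unfold chip; rw [if_pos h]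
      have e3 : chip (-p.2.1) = 0 := by unfold chip; rw [if_neg (by linarith)]
      rw [e1, e2, e3]; ring
  rw [integral_congr_ae hae, integral_neg, int_add4 _ _ _ _ _ t1 t2 t3 t4,
    v1, v2, v3, v4, kap_eq'] at hJ
  change 0 ≤ -(kap * (qq * ∫ w, Gc η w * ((wt V F1 w : ℝ) : ℂ)).re +
    kap * (qq * ∫ w, Gc η w * ((wt V F2 w : ℝ) : ℂ)).re +
    kap * (qm * ∫ w, Gc η w * ((wt V F3 w : ℝ) : ℂ)).re +
    kap * (qm * ∫ w, Gc η w * ((wt V F4 w : ℝ) : ℂ)).re) at hJ
  have hqm : qm = -qq := by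
    have := qq_add
    exact eq_neg_of_add_eq_zero_right this
  have hIH : IH V η = (∫ w, Gc η w * ((wt V F1 w : ℝ) : ℂ)) + (∫ w, Gc η w * ((wt V F2 w : ℝ) : ℂ))
      - (∫ w, Gc η w * ((wt V F3 w : ℝ) : ℂ)) - (∫ w, Gc η w * ((wt V F4 w : ℝ) : ℂ)) := by
    have g12 : Integrable (fun w => Gc η w * ((wt V F1 w : ℝ) : ℂ) +
      Gc η w * ((wt V F2 w : ℝ) : ℂ)) := g1.add g2
    have g123 : Integrable (fun w => Gc η w * ((wt V F1 w : ℝ) : ℂ) +
      Gc η w * ((wt V F2 w : ℝ) : ℂ) - Gc η w * ((wt V F3 w : ℝ) : ℂ)) := g12.sub g3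
    rw [← integral_add g1 g2, ← integral_sub g12 g3, ← integral_sub g123 g4, IH]
    refine integral_congr_ae (Eventually.of_forall fun w => ?_)
    simp only [wt, bet, F1, F2, F3, F4]
    push_cast
    ring
  rw [hqm] at hJ
  have hqre := qq_re
  have hqim := qq_im
  have hk := kap_neg
  have h5 : (IH V η).im = (∫ w, Gc η w * ((wt V F1 w : ℝ) : ℂ)).im +
      (∫ w, Gc η w * ((wt V F2 w : ℝ) : ℂ)).im
      - (∫ w, Gc η w * ((wt V F3 w : ℝ) : ℂ)).im - (∫ w, Gc η w * ((wt V F4 w : ℝ) : ℂ)).im := by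
    rw [hIH]; simp
  simp only [neg_mul, Complex.neg_re, Complex.mul_re, hqre, zero_mul, zero_sub] at hJ
  have h6 : 0 ≤ (kap * qq.im) * (IH V η).im := by
    rw [h5]; nlinarith [hJ]
  have h7 : kap * qq.im < 0 := mul_neg_of_neg_of_pos hk hqim
  by_contra hcon
  push Not at hcon
  have := mul_neg_of_neg_of_pos h7 hcon
  linarith

end Pool.Agent.Helpers25.IB
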