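import Pool.Agent.Helpers25.IBCoord

open MeasureTheory Metric Set Filter Topology Measure Module

set_option linter.unusedSectionVars false
set_option linter.unusedSimpArgs false

noncomputable section

namespace Pool.Agent.Helpers25.IB

theorem cov {X : Type*} [NormedAddCommGroup X] [NormedSpace ℝ X] [FiniteDimensional ℝ X]
    [MeasurableSpace X] [BorelSpace X] (μ : Measure X) [μ.IsAddHaarMeasure] (S : X ≃ₗ[ℝ] X) :
    ∃ C : ℝ, 0 < C ∧ ∀ F : X → ℝ, ∫ x, F (S x) ∂μ = C * ∫ x, F x ∂μ := by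
  have hdet : LinearMap.det (S : X →ₗ[ℝ] X) ≠ 0 := (LinearEquiv.isUnit_det' S).ne_zero
  refine ⟨|(LinearMap.det (S : X →ₗ[ℝ] X))⁻¹|, abs_pos.2 (inv_ne_zero hdet), fun F => ?_⟩
  have hemb : MeasurableEmbedding (S : X → X) :=
    (S.toContinuousLinearEquiv.toHomeomorph).measurableEmbedding
  have h1 := hemb.integral_map (μ := μ) F
  rw [← h1]
  have h2 := Measure.map_linearMap_addHaar_eq_smul_addHaar μ hdet
  have h3 : Measure.map (S : X → X) μ =
      ENNReal.ofReal |(LinearMap.det (S : X →ₗ[ℝ] X))⁻¹| • μ := h2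
  rw [h3, integral_smul_measure, ENNReal.toReal_ofReal (abs_nonneg _), smul_eq_mul]

variable {E : Type*} [NormedAddCommGroup E] [InnerProductSpace ℝ E] [FiniteDimensional ℝ E]
  [MeasurableSpace E] [BorelSpace E]

instance haar3 : ((volume : Measure ℝ).prod
    ((volume : Measure ℝ).prod (volume : Measure E))).IsAddHaarMeasure := by
  have : MeasurableAdd (ℝ × E) := inferInstance
  have : SFinite ((volume : Measure ℝ).prod (volume : Measure E)) := inferInstance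
  have : ((volume : Measure ℝ).prod (volume : Measure E)).IsAddHaarMeasure := inferInstance
  exact Measure.prod.instIsAddHaarMeasure _ _

def PosProp (g : E → ℝ) : Prop :=
  ∀ φ : E → ℝ, Continuous φ → (∀ x, φ (-x) = φ x) →
    (∃ C : ℝ, ∀ x, |φ x| ≤ C * Real.exp (-(1 / 4 * ‖x‖ ^ 2))) →
    (∀ v : E, ‖v‖ = 1 → 0 ≤ ∫ x : (Submodule.span ℝ {v})ᗮ, φ x) → 0 ≤ ∫ x, g x * φ x

section
variable {a b : E}

def GG (ω : ℝ × ℝ × Wd a b) : ℝ :=
  ((1 - Real.cos ω.1) * gam ω.1) *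
    (((1 - Real.cos ω.2.1) * gam (ω.2.1 - 1)) * Real.exp (-(‖ω.2.2‖ ^ 2 / 2)))

def Phi (η : Wd a b) (p : ℝ × ℝ × Wd a b) : ℂ :=
  Dlt gamC p.1 * (Dlt Kf p.2.1 *
    ((Real.exp (-(‖p.2.2‖ ^ 2 / 2)) : ℂ) * Complex.exp (((inner ℝ p.2.2 η : ℝ) : ℂ) * Complex.I)))

theorem GG_nonneg (ω : ℝ × ℝ × Wd a b) : 0 ≤ GG ω := by
  unfold GG
  have h1 := Real.cos_le_one ω.1
  have h2 := Real.cos_le_one ω.2.1
  have h3 := (gam_pos ω.1).le
  have h4 := (gam_pos (ω.2.1 - 1)).le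
  exact mul_nonneg (mul_nonneg (by linarith) h3)
    (mul_nonneg (mul_nonneg (by linarith) h4) (Real.exp_pos _).le)

theorem oneSubCos_int {k : ℝ → ℝ} (hk : Integrable k) :
    Integrable (fun α : ℝ => (1 - Real.cos α) * k α) := by
  refine hk.bdd_mul (c := 2) (Continuous.aestronglyMeasurable (by fun_prop)) ?_
  refine Eventually.of_forall fun α => ?_
  rw [Real.norm_eq_abs, abs_le]
  constructor <;> linarith [Real.cos_le_one α, Real.neg_one_le_cos α]

theorem gauss_int' (X : Type*) [NormedAddCommGroup X] [InnerProductSpace ℝ X]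
    [FiniteDimensional ℝ X] [MeasurableSpace X] [BorelSpace X] :
    Integrable (fun x : X => Real.exp (-(‖x‖ ^ 2 / 2))) := by
  refine (gauss_int X (1/2) (by norm_num)).congr (Eventually.of_forall fun x => ?_)
  simp only
  congr 1; ring

theorem GG_int : Integrable (GG : ℝ × ℝ × Wd a b → ℝ) := by
  have h1 : Integrable (fun α : ℝ => (1 - Real.cos α) * gam α) := oneSubCos_int gam_int
  have h2 : Integrable (fun α : ℝ => (1 - Real.cos α) * gam (α - 1)) :=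
    oneSubCos_int (gam_int.comp_sub_right 1)
  have h3 := gauss_int' (Wd a b)
  exact h1.mul_prod (h2.mul_prod h3)

theorem GG_cont : Continuous (GG : ℝ × ℝ × Wd a b → ℝ) := by
  have h1 := gam_cont
  unfold GG
  fun_prop

theorem rep (a b : E) : ∃ c : ℝ, 0 < c ∧ ∀ (η : Wd a b) (p : ℝ × ℝ × Wd a b),
    ∫ ω : ℝ × ℝ × Wd a b, (GG ω : ℂ) * Complex.exp (((ω.1 * p.1 + ω.2.1 * p.2.1 +
      inner ℝ (ω.2.2 + η) p.2.2 : ℝ) : ℂ) * Complex.I) = (c : ℂ) * Phi η p := by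
  obtain ⟨c1, hc1, h1⟩ := gauss_ftR
  obtain ⟨c2, hc2, h2⟩ := gauss_ft (Wd a b)
  refine ⟨c1 * (c1 * c2), by positivity, fun η p => ?_⟩
  have e : ∀ ω : ℝ × ℝ × Wd a b, (GG ω : ℂ) * Complex.exp (((ω.1 * p.1 + ω.2.1 * p.2.1 +
      inner ℝ (ω.2.2 + η) p.2.2 : ℝ) : ℂ) * Complex.I) =
      ((((1 - Real.cos ω.1) * gam ω.1 : ℝ) : ℂ) *
        Complex.exp (((ω.1 * p.1 : ℝ) : ℂ) * Complex.I)) *
      ((fun q : ℝ × Wd a b => ((((1 - Real.cos q.1) * gam (q.1 - 1) : ℝ) : ℂ) *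
        Complex.exp (((q.1 * p.2.1 : ℝ) : ℂ) * Complex.I)) *
      ((Real.exp (-(‖q.2‖ ^ 2 / 2)) : ℂ) *
        Complex.exp (((inner ℝ q.2 p.2.2 : ℝ) : ℂ) * Complex.I) *
        Complex.exp (((inner ℝ η p.2.2 : ℝ) : ℂ) * Complex.I))) ω.2) := by
    intro ω
    have : ((ω.1 * p.1 + ω.2.1 * p.2.1 + inner ℝ (ω.2.2 + η) p.2.2 : ℝ) : ℂ) * Complex.I =
        ((ω.1 * p.1 : ℝ) : ℂ) * Complex.I + (((ω.2.1 * p.2.1 : ℝ) : ℂ) * Complex.I +
        (((inner ℝ ω.2.2 p.2.2 : ℝ) : ℂ) * Complex.I +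
          ((inner ℝ η p.2.2 : ℝ) : ℂ) * Complex.I)) := by
      rw [inner_add_left]; push_cast; ring
    rw [this, Complex.exp_add, Complex.exp_add, Complex.exp_add]
    simp only [GG]
    push_cast
    ring
  have hkey : ∫ ω : ℝ × ℝ × Wd a b, (GG ω : ℂ) * Complex.exp (((ω.1 * p.1 + ω.2.1 * p.2.1 +
      inner ℝ (ω.2.2 + η) p.2.2 : ℝ) : ℂ) * Complex.I) =
      (∫ α : ℝ, (((1 - Real.cos α) * gam α : ℝ) : ℂ) *
        Complex.exp (((α * p.1 : ℝ) : ℂ) * Complex.I)) *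
      ((∫ β : ℝ, (((1 - Real.cos β) * gam (β - 1) : ℝ) : ℂ) *
        Complex.exp (((β * p.2.1 : ℝ) : ℂ) * Complex.I)) *
      (∫ w : Wd a b, (Real.exp (-(‖w‖ ^ 2 / 2)) : ℂ) *
        Complex.exp (((inner ℝ w p.2.2 : ℝ) : ℂ) * Complex.I) *
        Complex.exp (((inner ℝ η p.2.2 : ℝ) : ℂ) * Complex.I))) := by
    rw [integral_congr_ae (Eventually.of_forall e)]
    have i1 := integral_prod_mul (μ := (volume : Measure ℝ)) (ν := (volume : Measure (Wd a b)))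
      (fun β : ℝ => (((1 - Real.cos β) * gam (β - 1) : ℝ) : ℂ) *
        Complex.exp (((β * p.2.1 : ℝ) : ℂ) * Complex.I))
      (fun w : Wd a b => (Real.exp (-(‖w‖ ^ 2 / 2)) : ℂ) *
        Complex.exp (((inner ℝ w p.2.2 : ℝ) : ℂ) * Complex.I) *
        Complex.exp (((inner ℝ η p.2.2 : ℝ) : ℂ) * Complex.I))
    have i2 := integral_prod_mul (μ := (volume : Measure ℝ))
      (ν := (volume : Measure (ℝ × Wd a b)))
      (fun α : ℝ => (((1 - Real.cos α) * gam α : ℝ) : ℂ) *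
        Complex.exp (((α * p.1 : ℝ) : ℂ) * Complex.I))
      (fun q : ℝ × Wd a b => ((((1 - Real.cos q.1) * gam (q.1 - 1) : ℝ) : ℂ) *
        Complex.exp (((q.1 * p.2.1 : ℝ) : ℂ) * Complex.I)) *
      ((Real.exp (-(‖q.2‖ ^ 2 / 2)) : ℂ) *
        Complex.exp (((inner ℝ q.2 p.2.2 : ℝ) : ℂ) * Complex.I) *
        Complex.exp (((inner ℝ η p.2.2 : ℝ) : ℂ) * Complex.I)))
    rw [← i1]
    exact i2
  rw [hkey, delta_ft gam gam_int gamC c1 h1,
    delta_ft (fun β => gam (β - 1)) (gam_int.comp_sub_right 1) Kf c1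
      (fun s => gauss_ftR' c1 h1 s), integral_mul_const, h2]
  rw [Phi, real_inner_comm p.2.2 η]
  push_cast
  ring

theorem rep_re {c : ℝ} {η : Wd a b} {p : ℝ × ℝ × Wd a b}
    (h : ∫ ω : ℝ × ℝ × Wd a b, (GG ω : ℂ) * Complex.exp (((ω.1 * p.1 + ω.2.1 * p.2.1 +
      inner ℝ (ω.2.2 + η) p.2.2 : ℝ) : ℂ) * Complex.I) = (c : ℂ) * Phi η p) :
    ∫ ω : ℝ × ℝ × Wd a b, GG ω * Real.cos (ω.1 * p.1 + ω.2.1 * p.2.1 +
      inner ℝ (ω.2.2 + η) p.2.2) = c * (Phi η p).re := by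
  have hi : Integrable (fun ω : ℝ × ℝ × Wd a b => (GG ω : ℂ) *
      Complex.exp (((ω.1 * p.1 + ω.2.1 * p.2.1 +
      inner ℝ (ω.2.2 + η) p.2.2 : ℝ) : ℂ) * Complex.I)) := by
    have h1 : Integrable (fun ω : ℝ × ℝ × Wd a b => (GG ω : ℂ)) := GG_int.ofReal
    refine h1.mul_bdd (c := 1) (Continuous.aestronglyMeasurable ?_) ?_
    · fun_prop
    · refine Eventually.of_forall fun α => ?_
      rw [Complex.norm_exp_ofReal_mul_I]
  have h2 := integral_re hi
  rw [h] at h2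
  have h3 : RCLike.re ((c : ℂ) * Phi η p) = c * (Phi η p).re := by
    show ((c : ℂ) * Phi η p).re = _
    rw [Complex.re_ofReal_mul]
  rw [h3] at h2
  rw [← h2]
  refine integral_congr_ae (Eventually.of_forall fun ω => ?_)
  show _ = ((GG ω : ℂ) * Complex.exp (((ω.1 * p.1 + ω.2.1 * p.2.1 +
      inner ℝ (ω.2.2 + η) p.2.2 : ℝ) : ℂ) * Complex.I)).re
  rw [Complex.re_ofReal_mul, Complex.exp_ofReal_mul_I_re]

theorem Phi_bound (η : Wd a b) (p : ℝ × ℝ × Wd a b) :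
    ‖Phi η p‖ ≤ (C0 * Real.exp (-(1 / 4 * p.1 ^ 2))) * ((C0 * Real.exp (-(1 / 4 * p.2.1 ^ 2))) *
      Real.exp (-(‖p.2.2‖ ^ 2 / 2))) := by
  unfold Phi
  rw [norm_mul, norm_mul, norm_mul, Complex.norm_exp_ofReal_mul_I, mul_one, Complex.norm_real,
    Real.norm_of_nonneg (Real.exp_pos _).le]
  have h1 := Dlt_bound (f := gamC) (fun s => (norm_gamC s).le) p.1
  have h2 := Dlt_bound (f := Kf) (fun s => (norm_Kf s).le) p.2.1
  have hC : 0 ≤ C0 := by unfold C0; positivity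
  have h3 : 0 ≤ C0 * Real.exp (-(1 / 4 * p.1 ^ 2)) := mul_nonneg hC (Real.exp_pos _).le
  gcongr

theorem Phi_bound' (η : Wd a b) (p : ℝ × ℝ × Wd a b) :
    ‖Phi η p‖ ≤ C0 ^ 2 * Real.exp (-(1 / 4 * (p.1 ^ 2 + p.2.1 ^ 2 + ‖p.2.2‖ ^ 2))) := by
  refine (Phi_bound η p).trans ?_
  have h1 : Real.exp (-(‖p.2.2‖ ^ 2 / 2)) ≤ Real.exp (-(1 / 4 * ‖p.2.2‖ ^ 2)) := by
    apply Real.exp_le_exp.2
    nlinarith [sq_nonneg ‖p.2.2‖]
  have h2 : Real.exp (-(1 / 4 * (p.1 ^ 2 + p.2.1 ^ 2 + ‖p.2.2‖ ^ 2))) =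
      Real.exp (-(1 / 4 * p.1 ^ 2)) * (Real.exp (-(1 / 4 * p.2.1 ^ 2)) *
        Real.exp (-(1 / 4 * ‖p.2.2‖ ^ 2))) := by
    rw [← Real.exp_add, ← Real.exp_add]; congr 1; ring
  rw [h2]
  have hC : 0 ≤ C0 := by unfold C0; positivity
  calc _ ≤ (C0 * Real.exp (-(1 / 4 * p.1 ^ 2))) * ((C0 * Real.exp (-(1 / 4 * p.2.1 ^ 2))) *
      Real.exp (-(1 / 4 * ‖p.2.2‖ ^ 2))) := by gcongr
    _ = _ := by ring

def Seq (ε : ℝ) (hε : ε ≠ 0) : (ℝ × ℝ × Wd a b) ≃ₗ[ℝ] (ℝ × ℝ × Wd a b) where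
  toFun p := (p.1 / ε ^ 2, p.2.1 / ε, p.2.2)
  invFun p := (ε ^ 2 * p.1, ε * p.2.1, p.2.2)
  map_add' p q := by
    simp only [Prod.fst_add, Prod.snd_add, Prod.mk_add_mk, add_div]
  map_smul' c p := by
    simp only [Prod.smul_fst, Prod.smul_snd, Prod.smul_mk, smul_eq_mul, RingHom.id_apply,
      mul_div_assoc]
  left_inv p := by
    simp only
    ext <;> simp <;> field_simp
  right_inv p := by
    simp only
    ext <;> simp <;> field_simp

theorem Keps_nonneg (hab : ON a b) (g : E → ℝ) (hg : PosProp g) (hdim : 2 ≤ finrank ℝ E)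
    (η : Wd a b) {ε : ℝ} (hε : 0 < ε) (hε1 : ε ≤ 1) :
    0 ≤ ∫ p : ℝ × ℝ × Wd a b,
      g (iota a b (ε ^ 2 * p.1, ε * p.2.1, p.2.2)) * (Phi η p).re := by
  obtain ⟨c, hc, hrep⟩ := rep a b
  set ξ : ℝ × ℝ × Wd a b → E := fun ω => iota a b (ω.1 / ε ^ 2, ω.2.1 / ε, ω.2.2 + η) with hξ
  have hξc : Continuous ξ := by
    have := iota_cont a b
    refine this.comp ?_
    fun_prop
  set φ : E → ℝ := fun x => ∫ ω, GG ω * Real.cos (inner ℝ x (ξ ω)) with hφ
  have hφι : ∀ p : ℝ × ℝ × Wd a b, φ (iota a b p) =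
      c * (Phi η (p.1 / ε ^ 2, p.2.1 / ε, p.2.2)).re := by
    intro p
    rw [← rep_re (hrep η (p.1 / ε ^ 2, p.2.1 / ε, p.2.2))]
    simp only [hφ, hξ]
    refine integral_congr_ae (Eventually.of_forall fun ω => ?_)
    simp only [inner_iota hab]
    rw [real_inner_comm p.2.2 (ω.2.2 + η)]
    congr 2
    ring
  have hφc : Continuous φ := by
    refine continuous_of_dominated (bound := GG) ?_ ?_ GG_int ?_
    · intro x
      have := (GG_cont (a := a) (b := b))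
      exact Continuous.aestronglyMeasurable (by fun_prop)
    · intro x
      refine Eventually.of_forall fun ω => ?_
      rw [norm_mul, Real.norm_of_nonneg (GG_nonneg ω), Real.norm_eq_abs]
      calc GG ω * |Real.cos (inner ℝ x (ξ ω))| ≤ GG ω * 1 := by
            have := GG_nonneg ω
            have := Real.abs_cos_le_one (inner ℝ x (ξ ω))
            gcongr
        _ = GG ω := mul_one _
    · refine Eventually.of_forall fun ω => ?_
      fun_prop
  have hφe : ∀ x, φ (-x) = φ x := by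
    intro x
    simp only [hφ, inner_neg_left, Real.cos_neg]
  have hφb : ∃ C : ℝ, ∀ x, |φ x| ≤ C * Real.exp (-(1 / 4 * ‖x‖ ^ 2)) := by
    refine ⟨c * C0 ^ 2, fun x => ?_⟩
    obtain ⟨p, rfl⟩ := iota_surj hab x
    rw [hφι p, abs_mul, abs_of_pos hc, norm_iota_sq hab, mul_assoc]
    refine mul_le_mul_of_nonneg_left ?_ hc.le
    refine (Complex.abs_re_le_norm _).trans ((Phi_bound' η _).trans ?_)
    refine mul_le_mul_of_nonneg_left ?_ (sq_nonneg _)
    apply Real.exp_le_exp.2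
    have h1 : p.1 ^ 2 ≤ (p.1 / ε ^ 2) ^ 2 := by
      rw [div_pow]
      rw [le_div_iff₀ (by positivity)]
      have : (ε ^ 2) ^ 2 ≤ 1 := by
        have : ε ^ 2 ≤ 1 := pow_le_one₀ hε.le hε1
        exact pow_le_one₀ (by positivity) this
      nlinarith [sq_nonneg p.1]
    have h2 : p.2.1 ^ 2 ≤ (p.2.1 / ε) ^ 2 := by
      rw [div_pow]
      rw [le_div_iff₀ (by positivity)]
      have : ε ^ 2 ≤ 1 := pow_le_one₀ hε.le hε1
      nlinarith [sq_nonneg p.2.1]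
    simp only
    linarith
  have hφp : ∀ v : E, ‖v‖ = 1 → 0 ≤ ∫ x : (Submodule.span ℝ {v})ᗮ, φ x := by
    intro v hv
    have hv0 : v ≠ 0 := by
      intro h; rw [h, norm_zero] at hv; exact zero_ne_one hv
    have hfr : finrank ℝ (Submodule.span ℝ {v})ᗮ = finrank ℝ E - 1 := by
      have h1 := Submodule.finrank_add_finrank_orthogonal (Submodule.span ℝ {v})
      rw [finrank_span_singleton hv0] at h1
      omega
    have hnt2 : Nontrivial (Submodule.span ℝ {v})ᗮ := by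
      have : 0 < finrank ℝ (Submodule.span ℝ {v})ᗮ := by rw [hfr]; omega
      exact Module.nontrivial_of_finrank_pos this
    obtain ⟨C, hC⟩ := hφb
    have hi : Integrable (fun x : (Submodule.span ℝ {v})ᗮ => φ (x : E)) := by
      refine ((gauss_int (Submodule.span ℝ {v})ᗮ (1/4) (by norm_num)).const_mul C).mono'
        (hφc.comp continuous_subtype_val).aestronglyMeasurable ?_
      exact Eventually.of_forall fun x => hC x
    refine hyper_pos volume GG GG_nonneg GG_int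
      (fun ω => (Submodule.span ℝ {v})ᗮ.orthogonalProjectionOnto (ξ ω)) ?_ _ hi ?_
    · exact (((Submodule.span ℝ {v})ᗮ.orthogonalProjectionOnto).continuous.comp hξc).measurable
    · intro x
      simp only [hφ]
      refine integral_congr_ae (Eventually.of_forall fun ω => ?_)
      simp only
      rw [Submodule.inner_orthogonalProjectionOnto_eq_of_mem_left]
  have hpos := hg φ hφc hφe hφb hφp
  rw [integral_iota hab] at hpos
  obtain ⟨C, hC, hcov⟩ := cov ((volume : Measure ℝ).prod ((volume : Measure ℝ).prod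
    (volume : Measure (Wd a b)))) (Seq ε hε.ne')
  rw [← Measure.volume_eq_prod, ← Measure.volume_eq_prod] at hcov
  have h5 := hcov (fun p => g (iota a b (ε ^ 2 * p.1, ε * p.2.1, p.2.2)) * (Phi η p).re)
  have h6 : ∫ p : ℝ × ℝ × Wd a b, g (iota a b p) * φ (iota a b p) =
      c * ∫ p : ℝ × ℝ × Wd a b,
        (fun p => g (iota a b (ε ^ 2 * p.1, ε * p.2.1, p.2.2)) * (Phi η p).re)
          (Seq (a := a) (b := b) ε hε.ne' p) := by
    rw [← integral_const_mul]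
    refine integral_congr_ae (Eventually.of_forall fun p => ?_)
    simp only [hφι, Seq, LinearEquiv.coe_mk, LinearMap.coe_mk, AddHom.coe_mk]
    have e1 : ε ^ 2 * (p.1 / ε ^ 2) = p.1 := by field_simp
    have e2 : ε * (p.2.1 / ε) = p.2.1 := by field_simp
    rw [e1, e2]
    ring
  rw [h6, h5] at hpos
  have h7 := (mul_pos hc hC)
  rw [← mul_assoc] at hpos
  exact nonneg_of_mul_nonneg_right (by linarith [hpos]) h7

end

end Pool.Agent.Helpers25.IB
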