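import Mathlib

open MeasureTheory Metric Set Filter Topology Measure Module

noncomputable section

namespace Pool.Agent.Helpers25.IB

section
variable {X : Type*} [NormedAddCommGroup X] [InnerProductSpace ℝ X] [FiniteDimensional ℝ X]
  [MeasurableSpace X] [BorelSpace X]

theorem gauss_cos_nonneg (δ : ℝ) (hδ : 0 < δ) (ξ : X) :
    0 ≤ ∫ x : X, Real.cos (inner ℝ x ξ) * Real.exp (-(δ * ‖x‖ ^ 2)) := by
  have hb : (0:ℝ) < (δ : ℂ).re := by simpa using hδ
  have h := GaussianFourier.integral_cexp_neg_mul_sq_norm_add (V := X) (b := (δ : ℂ)) hb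
    Complex.I ξ
  have hi := GaussianFourier.integrable_cexp_neg_mul_sq_norm_add (V := X) (b := (δ : ℂ)) hb
    Complex.I ξ
  have hre := integral_re hi
  rw [h] at hre
  have e1 : ∀ x : X, RCLike.re (Complex.exp (-(δ:ℂ) * (‖x‖:ℂ) ^ 2 + Complex.I * (inner ℝ ξ x : ℝ)))
      = Real.cos (inner ℝ x ξ) * Real.exp (-(δ * ‖x‖ ^ 2)) := by
    intro x
    have : (-(δ:ℂ) * (‖x‖:ℂ) ^ 2 + Complex.I * (inner ℝ ξ x : ℝ)) =
        ((-(δ * ‖x‖ ^ 2) : ℝ) : ℂ) + ((inner ℝ x ξ : ℝ) : ℂ) * Complex.I := by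
      rw [real_inner_comm x ξ]; push_cast; ring
    rw [this]
    show (Complex.exp _).re = _
    rw [Complex.exp_add, ← Complex.ofReal_exp, Complex.re_ofReal_mul, Complex.exp_ofReal_mul_I_re]
    ring
  simp only [e1] at hre
  rw [hre]
  have e2 : (((Real.pi : ℂ) / (δ:ℂ)) ^ ((finrank ℝ X : ℂ) / 2) *
      Complex.exp (Complex.I ^ 2 * (‖ξ‖:ℂ) ^ 2 / (4 * (δ:ℂ)))) =
      (((Real.pi / δ) ^ ((finrank ℝ X : ℝ) / 2) * Real.exp (-‖ξ‖ ^ 2 / (4 * δ)) : ℝ) : ℂ) := by
    push_cast
    rw [Complex.I_sq, Complex.ofReal_cpow (by positivity)]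
    push_cast
    congr 2
    ring
  rw [e2]
  show 0 ≤ (((Real.pi / δ) ^ ((finrank ℝ X : ℝ) / 2) * Real.exp (-‖ξ‖ ^ 2 / (4 * δ)) : ℝ) : ℂ).re
  rw [Complex.ofReal_re]
  positivity

theorem hyper_pos [Nontrivial X] {Ω : Type*} [MeasurableSpace Ω] (ν : Measure Ω) [SFinite ν]
    (g : Ω → ℝ)
    (hg : ∀ ω, 0 ≤ g ω) (hgi : Integrable g ν) (ξ : Ω → X) (hξ : Measurable ξ) (φ : X → ℝ)
    (hφ : Integrable φ) (hrep : ∀ x, φ x = ∫ ω, g ω * Real.cos (inner ℝ x (ξ ω)) ∂ν) :
    0 ≤ ∫ x, φ x := by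
  have hIδ : ∀ δ : ℝ, 0 < δ → 0 ≤ ∫ x, φ x * Real.exp (-(δ * ‖x‖ ^ 2)) := by
    intro δ hδ
    have hgauss : Integrable (fun x : X => Real.exp (-(δ * ‖x‖ ^ 2))) := by
      have := GaussianFourier.integrable_cexp_neg_mul_sq_norm_add (V := X) (b := (δ : ℂ))
        (by simpa using hδ) 0 0
      have h2 := this.norm
      refine h2.congr (Eventually.of_forall fun x => ?_)
      simp only [inner_zero_left, Complex.ofReal_zero, mul_zero, add_zero]
      rw [Complex.norm_exp]
      congr 1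
      have : (-(δ:ℂ) * (‖x‖:ℂ) ^ 2) = ((-(δ * ‖x‖ ^ 2) : ℝ) : ℂ) := by push_cast; ring
      rw [this, Complex.ofReal_re]
    have hprod : Integrable (Function.uncurry fun (x : X) (ω : Ω) =>
        g ω * Real.cos (inner ℝ x (ξ ω)) * Real.exp (-(δ * ‖x‖ ^ 2))) (volume.prod ν) := by
      have hb : Integrable (fun p : X × Ω => Real.exp (-(δ * ‖p.1‖ ^ 2)) * g p.2)
          (volume.prod ν) := hgauss.mul_prod hgi
      refine hb.mono' ?_ ?_
      · have hg1 : AEStronglyMeasurable (fun p : X × Ω => g p.2) (volume.prod ν) :=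
          hgi.aestronglyMeasurable.comp_snd
        have hm : Measurable (fun p : X × Ω => Real.cos (inner ℝ p.1 (ξ p.2)) *
            Real.exp (-(δ * ‖p.1‖ ^ 2))) := by
          have : Measurable (fun p : X × Ω => (inner ℝ p.1 (ξ p.2) : ℝ)) :=
            measurable_fst.inner (hξ.comp measurable_snd)
          have h3 : Measurable (fun p : X × Ω => Real.exp (-(δ * ‖p.1‖ ^ 2))) := by
            have : Measurable (fun p : X × Ω => ‖p.1‖) := measurable_fst.norm
            fun_prop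
          exact (Real.measurable_cos.comp this).mul h3
        have := hg1.mul hm.aestronglyMeasurable
        refine this.congr (Eventually.of_forall fun p => ?_)
        simp only [Function.uncurry, Pi.mul_apply]
        ring
      · refine Eventually.of_forall fun p => ?_
        simp only [Function.uncurry]
        rw [norm_mul, norm_mul, Real.norm_of_nonneg (hg _), Real.norm_of_nonneg (Real.exp_pos _).le,
          Real.norm_eq_abs]
        have h1 := Real.abs_cos_le_one (inner ℝ p.1 (ξ p.2))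
        have h2 := hg p.2
        have h3 := (Real.exp_pos (-(δ * ‖p.1‖ ^ 2))).le
        calc g p.2 * |Real.cos (inner ℝ p.1 (ξ p.2))| * Real.exp (-(δ * ‖p.1‖ ^ 2))
            ≤ g p.2 * 1 * Real.exp (-(δ * ‖p.1‖ ^ 2)) := by gcongr
          _ = _ := by ring
    have e : ∫ x, φ x * Real.exp (-(δ * ‖x‖ ^ 2)) =
        ∫ x : X, ∫ ω, g ω * Real.cos (inner ℝ x (ξ ω)) * Real.exp (-(δ * ‖x‖ ^ 2)) ∂ν := by
      refine integral_congr_ae (Eventually.of_forall fun x => ?_)
      simp only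
      rw [hrep x, ← integral_mul_const]
    rw [e, integral_integral_swap hprod]
    refine integral_nonneg fun ω => ?_
    simp only [Pi.zero_apply]
    have : ∫ x : X, g ω * Real.cos (inner ℝ x (ξ ω)) * Real.exp (-(δ * ‖x‖ ^ 2)) =
        g ω * ∫ x : X, Real.cos (inner ℝ x (ξ ω)) * Real.exp (-(δ * ‖x‖ ^ 2)) := by
      rw [← integral_const_mul]
      refine integral_congr_ae (Eventually.of_forall fun x => ?_)
      simp only; ring
    rw [this]
    exact mul_nonneg (hg ω) (gauss_cos_nonneg δ hδ (ξ ω))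
  have hlim : Tendsto (fun k : ℕ => ∫ x, φ x * Real.exp (-((1 / ((k:ℝ) + 1)) * ‖x‖ ^ 2)))
      atTop (𝓝 (∫ x, φ x)) := by
    refine tendsto_integral_of_dominated_convergence (fun x => |φ x|) ?_ hφ.abs ?_ ?_
    · intro k
      exact hφ.aestronglyMeasurable.mul (Continuous.aestronglyMeasurable (by fun_prop))
    · intro k
      refine Eventually.of_forall fun x => ?_
      rw [norm_mul, Real.norm_of_nonneg (Real.exp_pos _).le, Real.norm_eq_abs]
      have : Real.exp (-((1 / ((k:ℝ) + 1)) * ‖x‖ ^ 2)) ≤ 1 := by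
        rw [Real.exp_le_one_iff]
        have : 0 ≤ (1 / ((k:ℝ) + 1)) * ‖x‖ ^ 2 := by positivity
        linarith
      calc |φ x| * _ ≤ |φ x| * 1 := by gcongr
        _ = |φ x| := mul_one _
    · refine Eventually.of_forall fun x => ?_
      have h1 : Tendsto (fun k : ℕ => 1 / ((k:ℝ) + 1)) atTop (𝓝 0) :=
        tendsto_one_div_add_atTop_nhds_zero_nat
      have h2 : Tendsto (fun k : ℕ => φ x * Real.exp (-((1 / ((k:ℝ) + 1)) * ‖x‖ ^ 2))) atTop
          (𝓝 (φ x * Real.exp (-(0 * ‖x‖ ^ 2)))) := by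
        refine Tendsto.const_mul _ ?_
        exact (Real.continuous_exp.tendsto _).comp ((h1.mul_const _).neg)
      simpa using h2
  refine ge_of_tendsto' hlim fun k => hIδ _ (by positivity)

end

end Pool.Agent.Helpers25.IB
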