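import Pool.Agent.Helpers25.IBLimit

open MeasureTheory Metric Set Filter Topology Measure Module

set_option linter.unusedSectionVars false
set_option linter.unusedSimpArgs false

noncomputable section

namespace Pool.Agent.Helpers25.IB

/-! ### one-dimensional constants -/

theorem gam_neg (s : ℝ) : gam (-s) = gam s := by unfold gam; simp

theorem dg_neg (s : ℝ) : dg (-s) = dg s := by
  unfold dg
  rw [gam_neg, show -s + 1 = -(s - 1) by ring, show -s - 1 = -(s + 1) by ring, gam_neg, gam_neg]
  ring

theorem dg_bound (s : ℝ) : |dg s| ≤ C0 * Real.exp (-(1 / 4 * s ^ 2)) := by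
  have := Dlt_bound (f := gamC) (fun s => (norm_gamC s).le) s
  rwa [Dlt_gamC, Complex.norm_real, Real.norm_eq_abs] at this

theorem dg_cont : Continuous dg := by
  have := gam_cont
  unfold dg; fun_prop

/-- integrability of linear-growth functions against Gaussians -/
theorem lin_int (f : ℝ → ℝ) (hf : Continuous f) (C : ℝ)
    (hb : ∀ s, |f s| ≤ C * Real.exp (-(1 / 4 * s ^ 2)))
    (m : ℝ → ℝ) (hm : Continuous m) (hmb : ∀ s, |m s| ≤ |s| + 1) :
    Integrable (fun s => f s * m s) := by
  have i0 := (gaussR_int 0).const_mul C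
  have i1 := (gaussR_int 1).const_mul C
  refine (i1.add i0).mono' (hf.mul hm).aestronglyMeasurable (Eventually.of_forall fun s => ?_)
  rw [norm_mul, Real.norm_eq_abs, Real.norm_eq_abs]
  have h1 := hb s
  have h2 := hmb s
  have h3 : |f s| * |m s| ≤ (C * Real.exp (-(1 / 4 * s ^ 2))) * (|s| + 1) :=
    mul_le_mul h1 h2 (abs_nonneg _) ((abs_nonneg _).trans h1)
  refine h3.trans (le_of_eq ?_)
  simp only [Pi.add_apply, pow_one, pow_zero]
  ring

theorem pos_part_bound (c : ℝ) (hc : |c| ≤ 1) (s : ℝ) : |max (s + c) 0| ≤ |s| + 1 := by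
  rw [abs_of_nonneg (le_max_right _ _)]
  rcases max_cases (s + c) 0 with ⟨h, _⟩ | ⟨h, _⟩
  · rw [h]; linarith [le_abs_self s, le_abs_self c]
  · rw [h]; positivity

theorem gam_bound (s : ℝ) : |gam s| ≤ 1 * Real.exp (-(1 / 4 * s ^ 2)) := by
  rw [abs_of_pos (gam_pos s), one_mul]
  unfold gam
  apply Real.exp_le_exp.2
  nlinarith [sq_nonneg s]

def kap : ℝ := ∫ s, dg s * max s 0

theorem kap_int : Integrable (fun s => dg s * max s 0) := by
  refine lin_int dg dg_cont C0 dg_bound _ (by fun_prop) ?_
  intro s
  simpa using pos_part_bound 0 (by simp) s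

theorem kap_int' : Integrable (fun s => dg s * max (-s) 0) := by
  refine lin_int dg dg_cont C0 dg_bound _ (by fun_prop) ?_
  intro s
  have := pos_part_bound 0 (by simp) (-s)
  simpa using this

theorem kap_eq' : ∫ s, dg s * max (-s) 0 = kap := by
  rw [kap, ← integral_neg_eq_self]
  refine integral_congr_ae (Eventually.of_forall fun s => ?_)
  simp only [dg_neg, neg_neg]

theorem kap_neg : kap < 0 := by
  have hI : ∀ c : ℝ, |c| ≤ 1 → Integrable (fun s => gam s * max (s + c) 0) := by
    intro c hc
    exact lin_int gam gam_cont 1 gam_bound _ (by fun_prop) (pos_part_bound c hc)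
  have i0 : Integrable (fun s => gam s * max s 0) := by simpa using hI 0 (by simp)
  have i1 := hI (-1) (by simp)
  have i2 := hI 1 (by simp)
  have s1 : ∫ s, gam (s + 1) * max s 0 = ∫ s, gam s * max (s + -1) 0 := by
    rw [← integral_add_right_eq_self (fun s => gam s * max (s + -1) 0) 1]
    refine integral_congr_ae (Eventually.of_forall fun s => ?_)
    simp only
    congr 2; ring
  have s2 : ∫ s, gam (s - 1) * max s 0 = ∫ s, gam s * max (s + 1) 0 := by
    rw [← integral_sub_right_eq_self (fun s => gam s * max (s + 1) 0) 1]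
    refine integral_congr_ae (Eventually.of_forall fun s => ?_)
    simp only
    congr 2; ring
  have j1 : Integrable (fun s => gam (s + 1) * max s 0) := by
    have := i1.comp_add_right 1
    refine this.congr (Eventually.of_forall fun s => ?_)
    simp only
    congr 2; ring
  have j2 : Integrable (fun s => gam (s - 1) * max s 0) := by
    have := i2.comp_sub_right 1
    refine this.congr (Eventually.of_forall fun s => ?_)
    simp only
    congr 2; ring
  have e1 : kap = ∫ s, gam s * max s 0 - 1 / 2 * (gam (s + 1) * max s 0)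
      - 1 / 2 * (gam (s - 1) * max s 0) := by
    rw [kap]
    refine integral_congr_ae (Eventually.of_forall fun s => ?_)
    simp only [dg]; ring
  have k1 : Integrable (fun s => 1 / 2 * (gam (s + 1) * max s 0)) := j1.const_mul _
  have k2 : Integrable (fun s => 1 / 2 * (gam (s - 1) * max s 0)) := j2.const_mul _
  have k3 : Integrable (fun s => gam s * max s 0 - 1 / 2 * (gam (s + 1) * max s 0)) := i0.sub k1
  have e2 : kap = ∫ s, gam s * max s 0 - 1 / 2 * (gam s * max (s + -1) 0)
      - 1 / 2 * (gam s * max (s + 1) 0) := by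
    have l1 : Integrable (fun s => 1 / 2 * (gam s * max (s + -1) 0)) := i1.const_mul _
    have l2 : Integrable (fun s => 1 / 2 * (gam s * max (s + 1) 0)) := i2.const_mul _
    have l3 : Integrable (fun s => gam s * max s 0 - 1 / 2 * (gam s * max (s + -1) 0)) :=
      i0.sub l1
    rw [e1, integral_sub k3 k2, integral_sub i0 k1, integral_const_mul, integral_const_mul, s1, s2,
      integral_sub l3 l2, integral_sub i0 l1, integral_const_mul, integral_const_mul]
  have hpos : 0 < ∫ s, gam s * (1 / 2 * max (s + -1) 0 + 1 / 2 * max (s + 1) 0 - max s 0) := by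
    refine Continuous.integral_pos_of_hasCompactSupport_nonneg_nonzero (x := 0) ?_ ?_ ?_ ?_
    · have := gam_cont; fun_prop
    · refine HasCompactSupport.intro (isCompact_Icc (a := (-1:ℝ)) (b := 1)) fun s hs => ?_
      have : s < -1 ∨ 1 < s := by
        by_contra hcon
        push Not at hcon
        exact hs ⟨hcon.1, hcon.2⟩
      rcases this with h | h
      · rw [max_eq_right (by linarith : s + -1 ≤ 0), max_eq_right (by linarith : s + 1 ≤ 0),
          max_eq_right (by linarith : s ≤ 0)]; ring
      · rw [max_eq_left (by linarith : 0 ≤ s + -1), max_eq_left (by linarith : 0 ≤ s + 1),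
          max_eq_left (by linarith : 0 ≤ s)]; ring
    · intro s
      simp only [Pi.zero_apply]
      refine mul_nonneg (gam_pos s).le ?_
      rcases le_total s 0 with h | h
      · rw [max_eq_right h]
        have := le_max_right (s + -1) 0
        have := le_max_right (s + 1) 0
        linarith
      · rw [max_eq_left h]
        have := le_max_left (s + -1) 0
        have := le_max_left (s + 1) 0
        linarith
    · have : gam 0 ≠ 0 := (gam_pos 0).ne'
      simp only [zero_add]
      rw [max_eq_right (by norm_num : (-1:ℝ) ≤ 0), max_eq_left (by norm_num : (0:ℝ) ≤ 1), max_self]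
      simpa using this
  have e3 : kap = -∫ s, gam s * (1 / 2 * max (s + -1) 0 + 1 / 2 * max (s + 1) 0 - max s 0) := by
    rw [e2, ← integral_neg]
    refine integral_congr_ae (Eventually.of_forall fun s => ?_)
    simp only; ring
  rw [e3]; linarith

/-! ### the constant q -/

def chip (t : ℝ) : ℝ := if 0 < t then 1 else 0

theorem chip_meas : Measurable chip :=
  Measurable.ite measurableSet_Ioi measurable_const measurable_const

theorem chip_bound (t : ℝ) : |chip t| ≤ 1 := by
  unfold chip; split_ifs <;> simp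

theorem Kf_int : Integrable Kf := by
  have h := gam_int
  refine Integrable.mono' h Kf_cont.aestronglyMeasurable (Eventually.of_forall fun s => ?_)
  rw [norm_Kf]

theorem mul_chi_int {f : ℝ → ℂ} (hf : Integrable f) {χ : ℝ → ℝ} (hχ : Measurable χ)
    (hb : ∀ t, |χ t| ≤ 1) : Integrable (fun t => f t * (χ t : ℂ)) := by
  refine hf.mul_bdd (c := 1) ((Complex.measurable_ofReal.comp hχ).aestronglyMeasurable) ?_
  refine Eventually.of_forall fun t => ?_
  rw [Complex.norm_real]; exact hb t

theorem DltKf_int : Integrable (Dlt Kf) := by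
  have h1 : Integrable (fun s => (1 / 2 : ℂ) * Kf (s + 1)) := (Kf_int.comp_add_right 1).const_mul _
  have h2 : Integrable (fun s => (1 / 2 : ℂ) * Kf (s - 1)) := (Kf_int.comp_sub_right 1).const_mul _
  have h3 : Integrable (fun s => Kf s - (1 / 2 : ℂ) * Kf (s + 1)) := Kf_int.sub h1
  exact h3.sub h2

theorem DltKf_integral : ∫ t, Dlt Kf t = 0 := by
  have h1 : Integrable (fun s => (1 / 2 : ℂ) * Kf (s + 1)) := (Kf_int.comp_add_right 1).const_mul _
  have h2 : Integrable (fun s => (1 / 2 : ℂ) * Kf (s - 1)) := (Kf_int.comp_sub_right 1).const_mul _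
  have h3 : Integrable (fun s => Kf s - (1 / 2 : ℂ) * Kf (s + 1)) := Kf_int.sub h1
  unfold Dlt
  rw [integral_sub h3 h2, integral_sub Kf_int h1, integral_const_mul, integral_const_mul,
    integral_add_right_eq_self, integral_sub_right_eq_self]
  ring

def qq : ℂ := ∫ t, Dlt Kf t * (chip t : ℂ)

def qm : ℂ := ∫ t, Dlt Kf t * (chip (-t) : ℂ)

theorem qq_add : qq + qm = 0 := by
  have i1 := mul_chi_int DltKf_int chip_meas chip_bound
  have i2 := mul_chi_int (χ := fun t => chip (-t)) DltKf_int (chip_meas.comp measurable_neg)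
    (fun t => chip_bound (-t))
  rw [qq, qm, ← integral_add i1 i2, ← DltKf_integral]
  refine integral_congr_ae ?_
  have : ∀ᵐ t : ℝ, t ≠ 0 := by
    rw [ae_iff]; simp
  filter_upwards [this] with t ht
  rw [← mul_add, ← Complex.ofReal_add]
  have : chip t + chip (-t) = 1 := by
    unfold chip
    rcases lt_or_gt_of_ne ht with h | h
    · rw [if_neg (by linarith), if_pos (by linarith)]; ring
    · rw [if_pos h, if_neg (by linarith)]; ring
  rw [this]; simp

theorem Kf_neg (t : ℝ) : Kf (-t) = (starRingEnd ℂ) (Kf t) := by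
  unfold Kf
  rw [gam_neg, map_mul, Complex.conj_ofReal, ← Complex.exp_conj, map_mul, Complex.conj_ofReal,
    Complex.conj_I]
  push_cast
  congr 2; ring

theorem DltKf_neg (t : ℝ) : Dlt Kf (-t) = (starRingEnd ℂ) (Dlt Kf t) := by
  unfold Dlt
  rw [show -t + 1 = -(t - 1) by ring, show -t - 1 = -(t + 1) by ring, Kf_neg, Kf_neg, Kf_neg]
  simp only [map_sub, map_mul, map_div₀, map_one, map_ofNat]
  ring

theorem qm_conj : qm = (starRingEnd ℂ) qq := by
  rw [qm, qq, ← integral_conj, ← integral_neg_eq_self]
  refine integral_congr_ae (Eventually.of_forall fun t => ?_)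
  simp only [neg_neg, DltKf_neg, map_mul, Complex.conj_ofReal]

theorem qq_re : qq.re = 0 := by
  have h := qq_add
  rw [qm_conj] at h
  have := congrArg Complex.re h
  simp at this
  linarith

theorem qq_im : 0 < qq.im := by
  have i0 := mul_chi_int Kf_int chip_meas chip_bound
  have i1 := mul_chi_int (χ := fun t => chip (t - 1)) Kf_int
    (chip_meas.comp (measurable_id.sub_const 1)) (fun t => chip_bound _)
  have i2 := mul_chi_int (χ := fun t => chip (t + 1)) Kf_int
    (chip_meas.comp (measurable_id.add_const 1)) (fun t => chip_bound _)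
  have s1 : ∫ t, Kf (t + 1) * (chip t : ℂ) = ∫ t, Kf t * (chip (t - 1) : ℂ) := by
    rw [← integral_add_right_eq_self (fun t => Kf t * (chip (t - 1) : ℂ)) 1]
    refine integral_congr_ae (Eventually.of_forall fun s => ?_)
    simp only [add_sub_cancel_right]
  have s2 : ∫ t, Kf (t - 1) * (chip t : ℂ) = ∫ t, Kf t * (chip (t + 1) : ℂ) := by
    rw [← integral_sub_right_eq_self (fun t => Kf t * (chip (t + 1) : ℂ)) 1]
    refine integral_congr_ae (Eventually.of_forall fun s => ?_)
    simp only [sub_add_cancel]
  have j1 : Integrable (fun t => Kf (t + 1) * (chip t : ℂ)) :=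
    mul_chi_int (Kf_int.comp_add_right 1) chip_meas chip_bound
  have j2 : Integrable (fun t => Kf (t - 1) * (chip t : ℂ)) :=
    mul_chi_int (Kf_int.comp_sub_right 1) chip_meas chip_bound
  have k1 : Integrable (fun t => (1 / 2 : ℂ) * (Kf (t + 1) * (chip t : ℂ))) := j1.const_mul _
  have k2 : Integrable (fun t => (1 / 2 : ℂ) * (Kf (t - 1) * (chip t : ℂ))) := j2.const_mul _
  have k3 : Integrable (fun t => Kf t * (chip t : ℂ) - (1 / 2 : ℂ) * (Kf (t + 1) * (chip t : ℂ))) :=
    i0.sub k1
  have l1 : Integrable (fun t => (1 / 2 : ℂ) * (Kf t * (chip (t - 1) : ℂ))) := i1.const_mul _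
  have l2 : Integrable (fun t => (1 / 2 : ℂ) * (Kf t * (chip (t + 1) : ℂ))) := i2.const_mul _
  have l3 : Integrable (fun t => Kf t * (chip t : ℂ) - (1 / 2 : ℂ) * (Kf t * (chip (t - 1) : ℂ))) :=
    i0.sub l1
  have e2 : qq = ∫ t, Kf t * (chip t : ℂ) - (1 / 2 : ℂ) * (Kf t * (chip (t - 1) : ℂ))
      - (1 / 2 : ℂ) * (Kf t * (chip (t + 1) : ℂ)) := by
    have e1 : qq = ∫ t, Kf t * (chip t : ℂ) - (1 / 2 : ℂ) * (Kf (t + 1) * (chip t : ℂ))
        - (1 / 2 : ℂ) * (Kf (t - 1) * (chip t : ℂ)) := by
      rw [qq]
      refine integral_congr_ae (Eventually.of_forall fun t => ?_)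
      simp only [Dlt]; ring
    rw [e1, integral_sub k3 k2, integral_sub i0 k1, integral_const_mul, integral_const_mul, s1, s2,
      integral_sub l3 l2, integral_sub i0 l1, integral_const_mul, integral_const_mul]
  have him := integral_im (l3.sub l2)
  have e3 : qq.im = ∫ t, Real.sin t * gam t *
      (chip t - 1 / 2 * chip (t - 1) - 1 / 2 * chip (t + 1)) := by
    rw [e2]
    refine him.symm.trans ?_
    refine integral_congr_ae (Eventually.of_forall fun t => ?_)
    have : (Kf t * (chip t : ℂ) - (1 / 2 : ℂ) * (Kf t * (chip (t - 1) : ℂ)))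
      - (1 / 2 : ℂ) * (Kf t * (chip (t + 1) : ℂ)) =
      ((gam t * (chip t - 1 / 2 * chip (t - 1) - 1 / 2 * chip (t + 1)) : ℝ) : ℂ) *
        Complex.exp (t * Complex.I) := by
      unfold Kf; push_cast; ring
    simp only [Pi.sub_apply]
    show (Kf t * (chip t : ℂ) - (1 / 2 : ℂ) * (Kf t * (chip (t - 1) : ℂ))
      - (1 / 2 : ℂ) * (Kf t * (chip (t + 1) : ℂ))).im = _
    rw [this, Complex.im_ofReal_mul, Complex.exp_ofReal_mul_I_im]
    ring
  have hint : Integrable (fun t => Real.sin t * gam t *
      (chip t - 1 / 2 * chip (t - 1) - 1 / 2 * chip (t + 1))) := by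
    have := (l3.sub l2).im
    refine this.congr (Eventually.of_forall fun t => ?_)
    have : (Kf t * (chip t : ℂ) - (1 / 2 : ℂ) * (Kf t * (chip (t - 1) : ℂ)))
      - (1 / 2 : ℂ) * (Kf t * (chip (t + 1) : ℂ)) =
      ((gam t * (chip t - 1 / 2 * chip (t - 1) - 1 / 2 * chip (t + 1)) : ℝ) : ℂ) *
        Complex.exp (t * Complex.I) := by
      unfold Kf; push_cast; ring
    simp only [Pi.sub_apply]
    show (Kf t * (chip t : ℂ) - (1 / 2 : ℂ) * (Kf t * (chip (t - 1) : ℂ))
      - (1 / 2 : ℂ) * (Kf t * (chip (t + 1) : ℂ))).im = _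
    rw [this, Complex.im_ofReal_mul, Complex.exp_ofReal_mul_I_im]
    ring
  rw [e3]
  have hnn : ∀ t, 0 ≤ Real.sin t * gam t *
      (chip t - 1 / 2 * chip (t - 1) - 1 / 2 * chip (t + 1)) := by
    intro t
    have hg := (gam_pos t).le
    by_cases h1 : 1 < t
    · unfold chip
      rw [if_pos (by linarith), if_pos (by linarith), if_pos (by linarith)]
      norm_num
    · by_cases h2 : 0 < t
      · unfold chip
        rw [if_pos h2, if_neg (by linarith), if_pos (by linarith)]
        have : 0 ≤ Real.sin t := Real.sin_nonneg_of_nonneg_of_le_pi h2.le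
          (by linarith [Real.pi_gt_three])
        have := mul_nonneg this hg
        linarith
      · by_cases h3 : -1 < t
        · unfold chip
          rw [if_neg h2, if_neg (by linarith), if_pos (by linarith)]
          have : Real.sin t ≤ 0 := Real.sin_nonpos_of_nonpos_of_neg_pi_le (by linarith)
            (by linarith [Real.pi_gt_three])
          have := mul_nonpos_of_nonpos_of_nonneg this hg
          linarith
        · unfold chip
          rw [if_neg h2, if_neg (by linarith), if_neg (by linarith)]
          norm_num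
  rw [integral_pos_iff_support_of_nonneg hnn hint]
  have : Ioo (0:ℝ) 1 ⊆ Function.support (fun t => Real.sin t * gam t *
      (chip t - 1 / 2 * chip (t - 1) - 1 / 2 * chip (t + 1))) := by
    intro t ht
    rw [Function.mem_support]
    unfold chip
    rw [if_pos ht.1, if_neg (by linarith [ht.2]), if_pos (by linarith [ht.1])]
    have h1 : 0 < Real.sin t := Real.sin_pos_of_pos_of_lt_pi ht.1
      (by linarith [Real.pi_gt_three, ht.2])
    have := mul_pos h1 (gam_pos t)
    have h3 : Real.sin t * gam t * (1 - 1 / 2 * 0 - 1 / 2 * 1) = Real.sin t * gam t * (1 / 2) := by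
      ring
    rw [h3]
    positivity
  refine lt_of_lt_of_le ?_ (measure_mono this)
  simp

end Pool.Agent.Helpers25.IB
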