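import Pool.Agent.Helpers25.IBFour

open MeasureTheory Metric Set Filter Topology Measure Module

open scoped FourierTransform

set_option linter.unusedSectionVars false
set_option linter.unusedSimpArgs false

noncomputable section

namespace Pool.Agent.Helpers25.IB

section ng
variable {E : Type*} [NormedAddCommGroup E] [InnerProductSpace ℝ E]

open Classical in
def ng (T : Finset E) : Finset E := T.image (fun y => -y)

theorem mem_ng {T : Finset E} {y : E} : y ∈ ng T ↔ -y ∈ T := by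
  classical
  simp only [ng, Finset.mem_image]
  constructor
  · rintro ⟨z, hz, rfl⟩; simpa using hz
  · intro h; exact ⟨-y, h, by simp⟩

theorem mx_ng (T : Finset E) (x : E) : mx (ng T) x = mx T (-x) := by
  classical
  by_cases hT : T.Nonempty
  · obtain ⟨y, hy, e⟩ := exists_mx hT (-x)
    refine mx_eq (y := -y) ?_ ?_ ?_
    · rw [mem_ng]; simpa using hy
    · rw [← e]; simp
    · intro z hz
      have := le_mx (mem_ng.1 hz) (-x)
      simpa using this
  · rw [Finset.not_nonempty_iff_eq_empty] at hT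
    subst hT
    simp [ng, mx]

theorem arg_ng (T : Finset E) (x : E) : arg (ng T) x = ng (arg T (-x)) := by
  ext y
  rw [mem_arg, mem_ng, mem_ng, mem_arg, mx_ng]
  simp

theorem ng_self {V : Finset E} (h : ∀ y ∈ V, -y ∈ V) : ng V = V := by
  ext y
  rw [mem_ng]
  constructor
  · intro hy; simpa using h _ hy
  · exact h y

theorem mx_neg {V : Finset E} (h : ∀ y ∈ V, -y ∈ V) (x : E) : mx V (-x) = mx V x := by
  rw [← mx_ng, ng_self h]

theorem arg_neg {V : Finset E} (h : ∀ y ∈ V, -y ∈ V) (x : E) : arg V (-x) = ng (arg V x) := by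
  conv_lhs => rw [← ng_self h]
  rw [arg_ng, neg_neg]

theorem bet_ng (a b : E) (T : Finset E) : bet a b (ng T) = - bet a b T := by
  unfold bet
  rw [arg_ng, arg_ng, mx_ng, mx_ng, mx_ng, mx_ng]
  simp only [neg_neg]
  ring

end ng

variable {E : Type*} [NormedAddCommGroup E] [InnerProductSpace ℝ E] [FiniteDimensional ℝ E]
  [MeasurableSpace E] [BorelSpace E] {a b : E}

theorem Gc_neg_right (η w : Wd a b) : Gc (-η) w = (starRingEnd ℂ) (Gc η w) := by
  unfold Gc
  rw [map_mul, Complex.conj_ofReal, ← Complex.exp_conj, map_mul, Complex.conj_ofReal,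
    Complex.conj_I, inner_neg_right]
  push_cast
  congr 2; ring

theorem Gc_neg_neg (η w : Wd a b) : Gc (-η) (-w) = Gc η w := by
  unfold Gc
  rw [inner_neg_neg, norm_neg]

theorem IH_conj (V : Finset E) (η : Wd a b) : IH V (-η) = (starRingEnd ℂ) (IH V η) := by
  rw [IH, IH, ← integral_conj]
  refine integral_congr_ae (Eventually.of_forall fun w => ?_)
  simp only [Gc_neg_right, map_mul, Complex.conj_ofReal]

theorem IH_odd (V : Finset E) (hsym : ∀ y ∈ V, -y ∈ V) (η : Wd a b) :
    IH V (-η) = -(IH V η) := by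
  rw [IH, IH, ← integral_neg, ← integral_neg_eq_self]
  refine integral_congr_ae (Eventually.of_forall fun w => ?_)
  simp only [Gc_neg_neg]
  have : wt V (bet a b) (-w) = - wt V (bet a b) w := by
    unfold wt
    rw [Submodule.coe_neg, arg_neg hsym, mx_neg hsym, bet_ng]
    ring
  rw [this]; push_cast; ring

theorem IH_zero (hab : ON a b) (hW : 3 ≤ finrank ℝ (Wd a b)) (hdim : 2 ≤ finrank ℝ E)
    (V : Finset E) (hV : V.Nonempty) (hsym : ∀ y ∈ V, -y ∈ V)
    (c0 : ℝ) (hc0 : 0 < c0) (hlow : ∀ x, c0 * ‖x‖ ≤ mx V x)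
    (hg : PosProp (fun x : E => (mx V x)⁻¹)) (η : Wd a b) :
    IH V η = 0 := by
  have h1 := IH_im_nonpos hab hW hdim V hV c0 hc0 hlow hg η
  have h2 := IH_im_nonpos hab hW hdim V hV c0 hc0 hlow hg (-η)
  have h3 := IH_conj V η
  have h4 := IH_odd V hsym η
  rw [h4] at h2 h3
  apply Complex.ext
  · have := congrArg Complex.re h3
    simp at this
    simp only [Complex.zero_re]; linarith
  · simp at h2
    simp only [Complex.zero_im]; linarith

/-- **Key lemma.** At a generic point `w0` of `{a,b}^⊥`, the kink of `h` across `a^⊥` is the same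
on both sides of `b^⊥`. -/
theorem bet_eq_zero (hab : ON a b) (hW : 3 ≤ finrank ℝ (Wd a b)) (hdim : 2 ≤ finrank ℝ E)
    (V : Finset E) (hV : V.Nonempty) (hsym : ∀ y ∈ V, -y ∈ V)
    (c0 : ℝ) (hc0 : 0 < c0) (hlow : ∀ x, c0 * ‖x‖ ≤ mx V x)
    (hg : PosProp (fun x : E => (mx V x)⁻¹)) (w0 : E) (hw0 : w0 ∈ Wd a b) (hne : w0 ≠ 0)
    (hgen : ∀ y ∈ arg V w0, ∀ y' ∈ arg V w0, ∀ w ∈ Wd a b, inner ℝ (y - y') w = (0:ℝ)) :
    bet a b (arg V w0) = 0 := by
  set f : Wd a b → ℂ := fun w => Gc 0 w * ((wt V (bet a b) w : ℝ) : ℂ) with hf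
  have hfi : Integrable f := Gc_wt_int hW V c0 hc0 hlow (bet a b) 0
  have hfour : 𝓕 f = 0 := by
    funext ξ
    rw [Real.fourier_eq']
    have h0 := IH_zero hab hW hdim V hV hsym c0 hc0 hlow hg ((-2 * Real.pi) • ξ)
    rw [IH] at h0
    rw [Pi.zero_apply, ← h0]
    refine integral_congr_ae (Eventually.of_forall fun w => ?_)
    simp only [hf, Gc, inner_smul_right, smul_eq_mul, inner_zero_right, Complex.ofReal_zero,
      zero_mul, Complex.exp_zero, mul_one]
    ring
  have hlocal : ∀ᶠ w : Wd a b in 𝓝 (⟨w0, hw0⟩ : Wd a b), arg V (w : E) = arg V w0 := by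
    have h1 : ∀ᶠ w : Wd a b in 𝓝 (⟨w0, hw0⟩ : Wd a b), arg V (w : E) ⊆ arg V w0 :=
      (continuous_subtype_val.tendsto (⟨w0, hw0⟩ : Wd a b)).eventually (arg_usc hV w0)
    filter_upwards [h1] with w hw
    refine le_antisymm hw ?_
    intro y hy
    obtain ⟨y', hy'⟩ := arg_nonempty hV (w : E)
    have h2 := hgen y hy y' (hw hy') w w.2
    rw [inner_sub_left] at h2
    rw [mem_arg]
    refine ⟨arg_subset _ _ hy, ?_⟩
    rw [← (mem_arg.1 hy').2]; linarith
  have hpos : 0 < mx V w0 := by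
    have := hlow w0
    have h2 : 0 < c0 * ‖w0‖ := mul_pos hc0 (norm_pos_iff.2 hne)
    linarith
  have hcont : ContinuousAt f ⟨w0, hw0⟩ := by
    have hc2 : ContinuousAt (fun w : Wd a b => Gc 0 w * (((bet a b (arg V w0) *
        ((mx V (w : E))⁻¹ * (mx V (w : E))⁻¹) : ℝ)) : ℂ)) ⟨w0, hw0⟩ := by
      have h1 : ContinuousAt (fun w : Wd a b => (mx V (w : E))) ⟨w0, hw0⟩ :=
        ((mx_continuous V).comp continuous_subtype_val).continuousAt
      have h2 : ContinuousAt (fun w : Wd a b => (mx V (w : E))⁻¹) ⟨w0, hw0⟩ :=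
        h1.inv₀ hpos.ne'
      exact ((Gc_cont 0).continuousAt).mul
        (Complex.continuous_ofReal.continuousAt.comp ((h2.mul h2).const_mul _))
    refine hc2.congr ?_
    filter_upwards [hlocal] with w hw
    simp only [hf, wt, hw]
  have hinv := hfi.fourierInv_fourier_eq (by rw [hfour]; exact integrable_zero _ _ _) hcont
  rw [hfour] at hinv
  have hz : f ⟨w0, hw0⟩ = 0 := by
    rw [← hinv]
    rw [Real.fourierInv_eq']
    simp
  rw [hf] at hz
  simp only [mul_eq_zero, Complex.ofReal_eq_zero] at hz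
  rcases hz with h | h
  · exfalso
    have := norm_Gc (a := a) (b := b) 0 ⟨w0, hw0⟩
    rw [h, norm_zero] at this
    exact (Real.exp_pos _).ne this
  · rw [wt] at h
    have h3 : ((mx V w0)⁻¹ * (mx V w0)⁻¹) ≠ 0 := by positivity
    exact (mul_eq_zero.1 h).resolve_right h3

end Pool.Agent.Helpers25.IB
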