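import Mathlib

open Set Filter Topology

noncomputable section

namespace Pool.Agent.Helpers25.IB

variable {E : Type*} [NormedAddCommGroup E] [InnerProductSpace ℝ E]

open Classical in
/-- support function of a finite set -/
def mx (S : Finset E) (x : E) : ℝ :=
  if h : S.Nonempty then S.sup' h (fun y => inner ℝ y x) else 0

open Classical in
/-- the set of maximisers -/
def arg (S : Finset E) (x : E) : Finset E := S.filter (fun y => inner ℝ y x = mx S x)

theorem mem_arg {S : Finset E} {x y : E} : y ∈ arg S x ↔ y ∈ S ∧ inner ℝ y x = mx S x := by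
  classical
  simp [arg]

theorem arg_subset (S : Finset E) (x : E) : arg S x ⊆ S := by
  classical
  exact Finset.filter_subset _ _

theorem le_mx {S : Finset E} {y : E} (hy : y ∈ S) (x : E) : inner ℝ y x ≤ mx S x := by
  classical
  have h : S.Nonempty := ⟨y, hy⟩
  rw [mx, dif_pos h]
  exact Finset.le_sup' (fun y => inner ℝ y x) hy

theorem exists_mx {S : Finset E} (hS : S.Nonempty) (x : E) :
    ∃ y ∈ S, inner ℝ y x = mx S x := by
  classical
  rw [mx, dif_pos hS]
  obtain ⟨y, hy, h⟩ := Finset.exists_mem_eq_sup' hS (fun y => inner ℝ y x)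
  exact ⟨y, hy, h.symm⟩

theorem arg_nonempty {S : Finset E} (hS : S.Nonempty) (x : E) : (arg S x).Nonempty := by
  obtain ⟨y, hy, h⟩ := exists_mx hS x
  exact ⟨y, mem_arg.2 ⟨hy, h⟩⟩

theorem mx_le {S : Finset E} (hS : S.Nonempty) {x : E} {c : ℝ}
    (h : ∀ y ∈ S, inner ℝ y x ≤ c) : mx S x ≤ c := by
  obtain ⟨y, hy, e⟩ := exists_mx hS x
  rw [← e]; exact h y hy

theorem mx_eq {S : Finset E} {x y : E} {c : ℝ} (hy : y ∈ S) (e : inner ℝ y x = c)
    (h : ∀ z ∈ S, inner ℝ z x ≤ c) : mx S x = c :=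
  le_antisymm (mx_le ⟨y, hy⟩ h) (e ▸ le_mx hy x)

theorem mx_smul (S : Finset E) {t : ℝ} (ht : 0 ≤ t) (x : E) : mx S (t • x) = t * mx S x := by
  classical
  by_cases hS : S.Nonempty
  · obtain ⟨y, hy, e⟩ := exists_mx hS x
    refine mx_eq hy ?_ ?_
    · rw [inner_smul_right, e]
    · intro z hz
      rw [inner_smul_right]
      exact mul_le_mul_of_nonneg_left (le_mx hz x) ht
  · simp [mx, hS]

theorem arg_smul (S : Finset E) {t : ℝ} (ht : 0 < t) (x : E) : arg S (t • x) = arg S x := by
  ext y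
  rw [mem_arg, mem_arg, mx_smul S ht.le, inner_smul_right]
  constructor
  · rintro ⟨h1, h2⟩
    exact ⟨h1, mul_left_cancel₀ ht.ne' h2⟩
  · rintro ⟨h1, h2⟩
    exact ⟨h1, by rw [h2]⟩

theorem mx_zero (S : Finset E) : mx S 0 = 0 := by
  have := mx_smul S (le_refl (0:ℝ)) (0 : E)
  simpa using this

theorem mx_continuous (S : Finset E) : Continuous (mx S) := by
  classical
  by_cases hS : S.Nonempty
  · have : mx S = fun x => S.sup' hS (fun y => inner ℝ y x) := by
      funext x; rw [mx, dif_pos hS]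
    rw [this]
    exact Continuous.finset_sup'_apply hS (fun y _ => by fun_prop)
  · have : mx S = fun _ => 0 := by
      funext x; rw [mx, dif_neg hS]
    rw [this]; exact continuous_const

/-- Lipschitz bound. -/
theorem mx_sub_le (S : Finset E) (x z : E) :
    mx S (x + z) - mx S x ≤ (∑ y ∈ S, ‖y‖) * ‖z‖ := by
  classical
  by_cases hS : S.Nonempty
  · obtain ⟨y, hy, e⟩ := exists_mx hS (x + z)
    have h1 : inner ℝ y x ≤ mx S x := le_mx hy x
    have h2 : inner ℝ y z ≤ ‖y‖ * ‖z‖ := real_inner_le_norm y z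
    have h3 : ‖y‖ ≤ ∑ y ∈ S, ‖y‖ := Finset.single_le_sum (fun i _ => norm_nonneg i) hy
    have h4 := mul_le_mul_of_nonneg_right h3 (norm_nonneg z)
    rw [← e, inner_add_right]; linarith
  · simp [mx, hS]
    have : S = ∅ := Finset.not_nonempty_iff_eq_empty.1 hS
    simp [this]

theorem abs_mx_sub_le (S : Finset E) (x z : E) :
    |mx S (x + z) - mx S x| ≤ (∑ y ∈ S, ‖y‖) * ‖z‖ := by
  rw [abs_le]
  constructor
  · have := mx_sub_le S (x + z) (-z)
    rw [norm_neg, add_neg_cancel_right] at this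
    linarith
  · exact mx_sub_le S x z

/-- local structure at order two -/
theorem loc2 {S : Finset E} (hS : S.Nonempty) (x a b : E) :
    ∀ᶠ ε in 𝓝[>] (0:ℝ), arg S (x + ε • a + ε ^ 2 • b) = arg (arg (arg S x) a) b := by
  classical
  -- pick a maximiser at all levels
  have hA := arg_nonempty hS x
  have hB := arg_nonempty hA a
  obtain ⟨y0, hy0, e0⟩ := exists_mx hB b
  have h0 := (mem_arg.1 hy0)
  have h00 := mem_arg.1 h0.1
  -- for each y not in the iterated argmax: strict inequality
  have key : ∀ y ∈ S, y ∉ arg (arg (arg S x) a) b → ∀ᶠ ε in 𝓝[>] (0:ℝ),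
      inner ℝ y (x + ε • a + ε ^ 2 • b) < inner ℝ y0 (x + ε • a + ε ^ 2 • b) := by
    intro y hy hn
    have expand : ∀ (z : E) (ε : ℝ), inner ℝ z (x + ε • a + ε ^ 2 • b) =
        inner ℝ z x + ε * inner ℝ z a + ε ^ 2 * inner ℝ z b := by
      intro z ε
      rw [inner_add_right, inner_add_right, inner_smul_right, inner_smul_right]
    by_cases h1 : y ∈ arg S x
    · by_cases h2 : y ∈ arg (arg S x) a
      · have h3 : inner ℝ y b < inner ℝ y0 b := by
          rw [e0]
          refine lt_of_le_of_ne (le_mx h2 b) ?_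
          intro e
          exact hn (mem_arg.2 ⟨h2, e⟩)
        have h4 : inner ℝ y x = inner ℝ y0 x := by
          rw [(mem_arg.1 h1).2, h00.2]
        have h5 : inner ℝ y a = inner ℝ y0 a := by
          rw [(mem_arg.1 h2).2, h0.2]
        filter_upwards [self_mem_nhdsWithin] with ε hε
        have hε' : (0:ℝ) < ε := hε
        rw [expand, expand, h4, h5]
        have : ε ^ 2 * inner ℝ y b < ε ^ 2 * inner ℝ y0 b :=
          mul_lt_mul_of_pos_left h3 (by positivity)
        linarith
      · have h3 : inner ℝ y a < inner ℝ y0 a := by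
          rw [h0.2]
          refine lt_of_le_of_ne (le_mx h1 a) ?_
          intro e
          exact h2 (mem_arg.2 ⟨h1, e⟩)
        have h4 : inner ℝ y x = inner ℝ y0 x := by
          rw [(mem_arg.1 h1).2, h00.2]
        -- eventually inner y a + ε inner y b < inner y0 a + ε inner y0 b
        have hc : ∀ᶠ ε in 𝓝 (0:ℝ), inner ℝ y a + ε * inner ℝ y b
            < inner ℝ y0 a + ε * inner ℝ y0 b := by
          have hl : Tendsto (fun ε : ℝ => inner ℝ y a + ε * inner ℝ y b) (𝓝 0)
              (𝓝 (inner ℝ y a + 0 * inner ℝ y b)) := by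
            apply Continuous.tendsto; fun_prop
          have hr : Tendsto (fun ε : ℝ => inner ℝ y0 a + ε * inner ℝ y0 b) (𝓝 0)
              (𝓝 (inner ℝ y0 a + 0 * inner ℝ y0 b)) := by
            apply Continuous.tendsto; fun_prop
          apply hl.eventually_lt hr
          simpa using h3
        filter_upwards [self_mem_nhdsWithin, nhdsWithin_le_nhds hc] with ε hε h
        have hε' : (0:ℝ) < ε := hε
        rw [expand, expand, h4]
        have := mul_lt_mul_of_pos_left h hε'
        nlinarith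
    · have h3 : inner ℝ y x < inner ℝ y0 x := by
        rw [h00.2]
        refine lt_of_le_of_ne (le_mx hy x) ?_
        intro e
        exact h1 (mem_arg.2 ⟨hy, e⟩)
      have hc : ∀ᶠ ε in 𝓝 (0:ℝ), inner ℝ y (x + ε • a + ε ^ 2 • b)
          < inner ℝ y0 (x + ε • a + ε ^ 2 • b) := by
        have hl : Tendsto (fun ε : ℝ => inner ℝ y (x + ε • a + ε ^ 2 • b)) (𝓝 0)
            (𝓝 (inner ℝ y (x + (0:ℝ) • a + (0:ℝ) ^ 2 • b))) := by
          apply Continuous.tendsto; fun_prop
        have hr : Tendsto (fun ε : ℝ => inner ℝ y0 (x + ε • a + ε ^ 2 • b)) (𝓝 0)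
            (𝓝 (inner ℝ y0 (x + (0:ℝ) • a + (0:ℝ) ^ 2 • b))) := by
          apply Continuous.tendsto; fun_prop
        apply hl.eventually_lt hr
        simpa using h3
      exact nhdsWithin_le_nhds hc
  have key2 : ∀ᶠ ε in 𝓝[>] (0:ℝ), ∀ y ∈ S, y ∉ arg (arg (arg S x) a) b →
      inner ℝ y (x + ε • a + ε ^ 2 • b) < inner ℝ y0 (x + ε • a + ε ^ 2 • b) := by
    rw [Finset.eventually_all]
    intro y hy
    by_cases hn : y ∈ arg (arg (arg S x) a) b
    · exact Eventually.of_forall fun _ h => absurd hn h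
    · filter_upwards [key y hy hn] with ε h _ using h
  filter_upwards [key2] with ε hε
  -- all elements of the iterated argmax have equal inner products
  have heq : ∀ y ∈ arg (arg (arg S x) a) b, inner ℝ y (x + ε • a + ε ^ 2 • b) =
      inner ℝ y0 (x + ε • a + ε ^ 2 • b) := by
    intro y hy
    have h1 := mem_arg.1 hy
    have h2 := mem_arg.1 h1.1
    have h3 := mem_arg.1 h2.1
    rw [inner_add_right, inner_add_right, inner_smul_right, inner_smul_right,
      inner_add_right, inner_add_right, inner_smul_right, inner_smul_right,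
      h1.2, h2.2, h3.2, e0, h0.2, h00.2]
  have hmx : mx S (x + ε • a + ε ^ 2 • b) = inner ℝ y0 (x + ε • a + ε ^ 2 • b) := by
    refine mx_eq h00.1 rfl ?_
    intro z hz
    by_cases hn : z ∈ arg (arg (arg S x) a) b
    · exact (heq z hn).le
    · exact (hε z hz hn).le
  ext y
  rw [mem_arg, hmx]
  constructor
  · rintro ⟨hy, e⟩
    by_contra hn
    exact absurd e (hε y hy hn).ne
  · intro hy
    exact ⟨arg_subset _ _ (arg_subset _ _ (arg_subset _ _ hy)), heq y hy⟩

theorem loc2_val {S : Finset E} (hS : S.Nonempty) (x a b : E) :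
    ∀ᶠ ε in 𝓝[>] (0:ℝ), mx S (x + ε • a + ε ^ 2 • b) =
      mx S x + ε * mx (arg S x) a + ε ^ 2 * mx (arg (arg S x) a) b := by
  filter_upwards [loc2 hS x a b] with ε hε
  obtain ⟨y0, hy0⟩ := arg_nonempty (arg_nonempty (arg_nonempty hS x) a) b
  have h1 := mem_arg.1 hy0
  have h2 := mem_arg.1 h1.1
  have h3 := mem_arg.1 h2.1
  rw [← hε] at hy0
  rw [← (mem_arg.1 hy0).2, inner_add_right, inner_add_right, inner_smul_right, inner_smul_right,
    h1.2, h2.2, h3.2]

theorem arg_zero (S : Finset E) : arg S 0 = S := by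
  ext y
  rw [mem_arg, mx_zero, inner_zero_right]
  simp

theorem loc1 {S : Finset E} (hS : S.Nonempty) (x a : E) :
    ∀ᶠ ε in 𝓝[>] (0:ℝ), arg S (x + ε • a) = arg (arg S x) a := by
  filter_upwards [loc2 hS x a 0] with ε hε
  simpa [arg_zero] using hε

theorem loc1_val {S : Finset E} (hS : S.Nonempty) (x a : E) :
    ∀ᶠ ε in 𝓝[>] (0:ℝ), mx S (x + ε • a) = mx S x + ε * mx (arg S x) a := by
  filter_upwards [loc2_val hS x a 0] with ε hε
  simpa [mx_zero] using hε

/-- upper semicontinuity of the argmax -/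
theorem arg_usc {S : Finset E} (hS : S.Nonempty) (x : E) :
    ∀ᶠ z in 𝓝 x, arg S z ⊆ arg S x := by
  classical
  obtain ⟨y0, hy0, e0⟩ := exists_mx hS x
  have key : ∀ᶠ z in 𝓝 x, ∀ y ∈ S, y ∉ arg S x → inner ℝ y z < inner ℝ y0 z := by
    rw [Finset.eventually_all]
    intro y hy
    by_cases hn : y ∈ arg S x
    · exact Eventually.of_forall fun _ h => absurd hn h
    · have h3 : inner ℝ y x < inner ℝ y0 x := by
        rw [e0]
        refine lt_of_le_of_ne (le_mx hy x) ?_
        intro e
        exact hn (mem_arg.2 ⟨hy, e⟩)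
      have hl : Tendsto (fun z : E => (inner ℝ y z : ℝ)) (𝓝 x) (𝓝 (inner ℝ y x)) := by
        apply Continuous.tendsto; fun_prop
      have hr : Tendsto (fun z : E => (inner ℝ y0 z : ℝ)) (𝓝 x) (𝓝 (inner ℝ y0 x)) := by
        apply Continuous.tendsto; fun_prop
      filter_upwards [hl.eventually_lt hr h3] with z hz _ using hz
  filter_upwards [key] with z hz y hy
  by_contra hn
  have h1 := hz y (arg_subset _ _ hy) hn
  have h2 := le_mx hy0 z
  rw [(mem_arg.1 hy).2] at h1
  linarith

end Pool.Agent.Helpers25.IB
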