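import Pool.Agent.Helpers25.IBDefs

open MeasureTheory Metric Set Filter Topology Measure Module

noncomputable section

namespace Pool.Agent.Helpers25.IB

section polar
variable {X : Type*} [NormedAddCommGroup X] [NormedSpace ℝ X] [FiniteDimensional ℝ X]
  [MeasurableSpace X] [BorelSpace X] [Nontrivial X] (μ : Measure X) [μ.IsAddHaarMeasure]

theorem integral_volumeIoiPow (k : ℕ) (g : ℝ → ℝ) :
    ∫ r : Ioi (0:ℝ), g r ∂(volumeIoiPow k) = ∫ r in Ioi (0:ℝ), r ^ k * g r := by
  simp only [Measure.volumeIoiPow, ENNReal.ofReal]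
  rw [integral_withDensity_eq_integral_smul,
    integral_subtype_comap measurableSet_Ioi fun a ↦ Real.toNNReal (a ^ k) • g a,
    setIntegral_congr_fun measurableSet_Ioi fun x hx ↦ ?_]
  · rw [NNReal.smul_def, Real.coe_toNNReal _ (pow_nonneg (mem_Ioi.1 hx).le _), smul_eq_mul]
  · exact (measurable_subtype_coe.pow_const _).real_toNNReal

theorem polar (F : X → ℝ) (hF : Integrable F μ) :
    ∫ x, F x ∂μ = ∫ u : sphere (0:X) 1,
      (∫ r in Ioi (0:ℝ), r ^ (finrank ℝ X - 1) * F (r • (u:X))) ∂μ.toSphere := by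
  have hmp := μ.measurePreserving_homeomorphUnitSphereProd
  have hemb := (homeomorphUnitSphereProd X).measurableEmbedding
  have hcomp : ∀ x : ({(0:X)}ᶜ : Set X), F x.1 =
      (fun p : sphere (0:X) 1 × Ioi (0:ℝ) => F (p.2.1 • p.1.1)) (homeomorphUnitSphereProd X x) := by
    intro x
    have hx : (x : X) ≠ 0 := x.2
    have hx' : ‖(x : X)‖ ≠ 0 := norm_ne_zero_iff.2 hx
    simp [homeomorphUnitSphereProd_apply_snd_coe, homeomorphUnitSphereProd_apply_fst_coe,
      smul_smul, hx']
  have h1 : ∫ x, F x ∂μ = ∫ x : ({(0:X)}ᶜ : Set X), F x.1 ∂(μ.comap (↑)) := by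
    rw [integral_subtype_comap (measurableSet_singleton _).compl F, restrict_compl_singleton]
  have h2 : ∫ x : ({(0:X)}ᶜ : Set X), F x.1 ∂(μ.comap (↑)) =
      ∫ p : sphere (0:X) 1 × Ioi (0:ℝ), F (p.2.1 • p.1.1)
        ∂(μ.toSphere.prod (.volumeIoiPow (finrank ℝ X - 1))) := by
    rw [← hmp.integral_comp hemb]
    exact integral_congr_ae (Eventually.of_forall hcomp)
  have hint : Integrable (fun p : sphere (0:X) 1 × Ioi (0:ℝ) => F (p.2.1 • p.1.1))
      (μ.toSphere.prod (.volumeIoiPow (finrank ℝ X - 1))) := by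
    rw [← hmp.integrable_comp_emb hemb]
    have : Integrable (fun x : ({(0:X)}ᶜ : Set X) => F x.1) (μ.comap (↑)) := by
      have h3 : IntegrableOn F ({(0:X)}ᶜ : Set X) μ := hF.integrableOn
      rw [integrableOn_iff_comap_subtypeVal (measurableSet_singleton _).compl] at h3
      exact h3
    exact this.congr (Eventually.of_forall hcomp)
  rw [h1, h2, integral_prod _ hint]
  refine integral_congr_ae (Eventually.of_forall fun u => ?_)
  exact integral_volumeIoiPow _ (fun r => F (r • (u:X)))

end polar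

theorem integrableOn_gauss (k : ℕ) (C b : ℝ) (hb : 0 < b) :
    IntegrableOn (fun r : ℝ => r ^ k * (C * Real.exp (-(b * r ^ 2)))) (Ioi 0) := by
  have h := integrableOn_rpow_mul_exp_neg_mul_sq hb (s := (k : ℝ))
    (by have : (0:ℝ) ≤ k := Nat.cast_nonneg k
        linarith)
  have h2 := h.const_mul C
  refine (integrableOn_congr_fun ?_ measurableSet_Ioi).1 h2
  intro r hr
  simp only [Real.rpow_natCast, neg_mul]
  ring

theorem integrable_gauss_norm {X : Type*} [NormedAddCommGroup X] [NormedSpace ℝ X]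
    [FiniteDimensional ℝ X]
    [MeasurableSpace X] [BorelSpace X] [Nontrivial X] (μ : Measure X) [μ.IsAddHaarMeasure]
    (C b : ℝ) (hb : 0 < b) :
    Integrable (fun x : X => C * Real.exp (-(b * ‖x‖ ^ 2))) μ := by
  have := (integrable_fun_norm_addHaar μ (f := fun r => C * Real.exp (-(b * r ^ 2)))).2
    (by simpa [smul_eq_mul] using integrableOn_gauss (finrank ℝ X - 1) C b hb)
  exact this

theorem integrable_of_gauss_bound {X : Type*} [NormedAddCommGroup X] [NormedSpace ℝ X]
    [FiniteDimensional ℝ X]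
    [MeasurableSpace X] [BorelSpace X] [Nontrivial X] (μ : Measure X) [μ.IsAddHaarMeasure]
    (C b : ℝ) (hb : 0 < b) (φ : X → ℝ) (hφ : Continuous φ)
    (h : ∀ x, |φ x| ≤ C * Real.exp (-(b * ‖x‖ ^ 2))) : Integrable φ μ :=
  (integrable_gauss_norm μ C b hb).mono' hφ.aestronglyMeasurable (Eventually.of_forall h)

theorem pos_of_radon {E : Type} [NormedAddCommGroup E] [InnerProductSpace ℝ E]
    [FiniteDimensional ℝ E] [MeasurableSpace E] [BorelSpace E]
    (hn : 2 ≤ finrank ℝ E) (ρ : E → ℝ)
    (μ : Measure (sphere (0 : E) 1))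
    (hμ : ∀ f : E → ℝ, ContinuousOn f (sphere 0 1) → (∀ u, f (-u) = f u) →
      ∫ u, ρ u * f u ∂((volume : Measure E).toSphere) = ∫ v, radon f v ∂μ)
    (g : E → ℝ) (hg : ∀ r > 0, ∀ u : sphere (0 : E) 1, g (r • (u : E)) = r⁻¹ * ρ u)
    (φ : E → ℝ) (hφc : Continuous φ) (hφe : ∀ x, φ (-x) = φ x)
    (C b : ℝ) (hb : 0 < b) (hφb : ∀ x, |φ x| ≤ C * Real.exp (-(b * ‖x‖ ^ 2)))
    (hint : Integrable (fun x => g x * φ x))
    (hφp : ∀ v : E, ‖v‖ = 1 → 0 ≤ ∫ x : (Submodule.span ℝ {v})ᗮ, φ x) :
    0 ≤ ∫ x, g x * φ x := by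
  have hnt : Nontrivial E := Module.nontrivial_of_finrank_pos (R := ℝ) (by omega)
  set n := finrank ℝ E with hndef
  set f : E → ℝ := fun u =>
    ∫ r in Ioi (0:ℝ), r ^ (n - 2) * φ (r • (u : E)) with hf
  have hfc : ContinuousOn f (sphere 0 1) := by
    rw [continuousOn_iff_continuous_domRestrict]
    have : Continuous (fun u : sphere (0 : E) 1 => f u) := by
      refine continuous_of_dominated
        (bound := fun r => r ^ (n-2) * (C * Real.exp (-(b * r ^ 2))))
        ?_ ?_ (integrableOn_gauss (n-2) C b hb) ?_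
      · intro u
        apply Continuous.aestronglyMeasurable
        fun_prop
      · intro u
        refine (ae_restrict_iff' measurableSet_Ioi).2 (Eventually.of_forall fun r hr => ?_)
        have hr' : (0:ℝ) < r := hr
        rw [norm_mul, Real.norm_of_nonneg (pow_nonneg hr'.le _)]
        refine mul_le_mul_of_nonneg_left ?_ (pow_nonneg hr'.le _)
        have := hφb (r • (u : E))
        rwa [norm_smul, norm_eq_of_mem_sphere u, Real.norm_of_nonneg hr'.le, mul_one] at this
      · refine Eventually.of_forall fun r => ?_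
        fun_prop
    exact this
  have hfe : ∀ u, f (-u) = f u := by
    intro u
    simp only [hf, smul_neg, hφe]
  have hL : ∫ x, g x * φ x = ∫ u, ρ u * f u ∂((volume : Measure E).toSphere) := by
    rw [polar volume _ hint]
    refine integral_congr_ae (Eventually.of_forall fun u => ?_)
    simp only [hf]
    rw [← integral_const_mul]
    refine setIntegral_congr_fun measurableSet_Ioi fun r hr => ?_
    have hr' : (0:ℝ) < r := hr
    rw [hg r hr', ← hndef]
    have : r ^ (n - 1) = r ^ (n - 2) * r := by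
      rw [← pow_succ]; congr 1; omega
    rw [this]
    field_simp
  rw [hL, hμ f hfc hfe]
  refine integral_nonneg fun v => ?_
  -- compute the radon transform
  have hv : ‖(v : E)‖ = 1 := norm_eq_of_mem_sphere v
  have hv0 : (v : E) ≠ 0 := by
    intro h; rw [h, norm_zero] at hv; exact zero_ne_one hv
  have hfr : finrank ℝ (Submodule.span ℝ {(v : E)})ᗮ = n - 1 := by
    have h1 := Submodule.finrank_add_finrank_orthogonal (Submodule.span ℝ {(v : E)})
    rw [finrank_span_singleton hv0] at h1
    omega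
  have hnt2 : Nontrivial (Submodule.span ℝ {(v : E)})ᗮ := by
    have : 0 < finrank ℝ (Submodule.span ℝ {(v : E)})ᗮ := by rw [hfr]; omega
    exact Module.nontrivial_of_finrank_pos this
  have hi : Integrable (fun x : (Submodule.span ℝ {(v : E)})ᗮ => φ (x : E)) := by
    refine integrable_of_gauss_bound volume C b hb _ (hφc.comp continuous_subtype_val) ?_
    intro x
    exact hφb x
  have hR : radon f v = ∫ x : (Submodule.span ℝ {(v : E)})ᗮ, φ x := by
    rw [polar volume _ hi, radon]
    refine integral_congr_ae (Eventually.of_forall fun u => ?_)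
    simp only [hf, hfr]
    rfl
  show 0 ≤ radon f v
  rw [hR]
  exact hφp v hv

end Pool.Agent.Helpers25.IB
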