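import Pool.Agent.Helpers25.IBFun
import Pool.Agent.Helpers25.IBMax
import Pool.Agent.Helpers25.IBPos

open MeasureTheory Metric Set Filter Topology Measure Module

set_option linter.unusedSectionVars false
set_option linter.unusedSimpArgs false

noncomputable section

namespace Pool.Agent.Helpers25.IB

variable {E : Type*} [NormedAddCommGroup E] [InnerProductSpace ℝ E] [FiniteDimensional ℝ E]
  [MeasurableSpace E] [BorelSpace E] {a b : E}

def dg (s : ℝ) : ℝ := gam s - 1 / 2 * gam (s + 1) - 1 / 2 * gam (s - 1)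

theorem Dlt_gamC (s : ℝ) : Dlt gamC s = (dg s : ℂ) := by
  unfold Dlt gamC dg; push_cast; ring

def Psi (η : Wd a b) (q : ℝ × Wd a b) : ℂ :=
  Dlt Kf q.1 *
    ((Real.exp (-(‖q.2‖ ^ 2 / 2)) : ℂ) * Complex.exp (((inner ℝ q.2 η : ℝ) : ℂ) * Complex.I))

theorem Phi_eq (η : Wd a b) (p : ℝ × ℝ × Wd a b) : Phi η p = (dg p.1 : ℂ) * Psi η p.2 := by
  rw [Phi, Dlt_gamC, Psi]

theorem Phi_re (η : Wd a b) (p : ℝ × ℝ × Wd a b) : (Phi η p).re = dg p.1 * (Psi η p.2).re := by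
  rw [Phi_eq, Complex.re_ofReal_mul]

theorem dg_int : ∫ s, dg s = 0 := by
  unfold dg
  have h1 : Integrable (fun s => 1 / 2 * gam (s + 1)) := (gam_int.comp_add_right 1).const_mul _
  have h2 : Integrable (fun s => 1 / 2 * gam (s - 1)) := (gam_int.comp_sub_right 1).const_mul _
  have h3 : Integrable (fun s => gam s - 1 / 2 * gam (s + 1)) := gam_int.sub h1
  rw [integral_sub h3 h2, integral_sub gam_int h1, integral_const_mul,
    integral_const_mul, integral_add_right_eq_self, integral_sub_right_eq_self]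
  ring

theorem Psi_cont (η : Wd a b) : Continuous (Psi η) := by
  have h := Dlt_cont Kf_cont
  unfold Psi
  fun_prop

theorem Phi_cont (η : Wd a b) : Continuous (Phi η) := by
  have h := Dlt_cont Kf_cont
  have h2 := Dlt_cont gamC_cont
  unfold Phi
  fun_prop

theorem gaussR_int (s : ℕ) : Integrable (fun x : ℝ => |x| ^ s * Real.exp (-(1 / 4 * x ^ 2))) := by
  have h := (integrable_fun_norm_addHaar (volume : Measure ℝ)
    (f := fun r => r ^ s * Real.exp (-(1 / 4 * r ^ 2)))).2 (by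
      have := integrableOn_gauss s 1 (1/4) (by norm_num)
      simpa using this)
  simpa using h

theorem gaussW_int (X : Type*) [NormedAddCommGroup X] [InnerProductSpace ℝ X]
    [FiniteDimensional ℝ X] [MeasurableSpace X] [BorelSpace X] (hX : 3 ≤ finrank ℝ X)
    (k : ℕ) (hk : k ≤ 2) (C : ℝ) :
    Integrable (fun x : X => Real.exp (-(‖x‖ ^ 2 / 2)) * (C * (‖x‖⁻¹) ^ k)) := by
  have hnt : Nontrivial X := Module.nontrivial_of_finrank_pos (R := ℝ) (by omega)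
  have h := (integrable_fun_norm_addHaar (volume : Measure X)
    (f := fun r => Real.exp (-(r ^ 2 / 2)) * (C * (r⁻¹) ^ k))).2 (by
      have := integrableOn_gauss (finrank ℝ X - 1 - k) C (1/2) (by norm_num)
      refine (integrableOn_congr_fun ?_ measurableSet_Ioi).1 this
      intro r hr
      have hr' : (0:ℝ) < r := hr
      simp only [smul_eq_mul]
      have e1 : r ^ (finrank ℝ X - 1) = r ^ (finrank ℝ X - 1 - k) * r ^ k := by
        rw [← pow_add]; congr 1; omega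
      have e2 : Real.exp (-(1 / 2 * r ^ 2)) = Real.exp (-(r ^ 2 / 2)) := by congr 1; ring
      rw [e1, e2, inv_pow]
      field_simp)
  exact h

theorem ae_W_ne_zero (hW : 1 ≤ finrank ℝ (Wd a b)) :
    ∀ᵐ p : ℝ × ℝ × Wd a b, p.2.2 ≠ 0 := by
  have hnt : Nontrivial (Wd a b) := Module.nontrivial_of_finrank_pos (R := ℝ) (by omega)
  have h1 : ∀ᵐ w : Wd a b, w ≠ 0 := by
    have : (volume : Measure (Wd a b)) {0} = 0 := measure_singleton 0
    rw [ae_iff]; simp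
  have h2 : ∀ᵐ q : ℝ × Wd a b, q.2 ≠ 0 :=
    (Measure.quasiMeasurePreserving_snd (μ := (volume : Measure ℝ))
      (ν := (volume : Measure (Wd a b)))).ae h1
  exact (Measure.quasiMeasurePreserving_snd (μ := (volume : Measure ℝ))
      (ν := (volume : Measure (ℝ × Wd a b)))).ae h2

theorem norm_iota_ge (hab : ON a b) (p : ℝ × ℝ × Wd a b) : ‖p.2.2‖ ≤ ‖iota a b p‖ := by
  have := norm_iota_sq hab p
  have h2 : ‖p.2.2‖ ^ 2 ≤ ‖iota a b p‖ ^ 2 := by
    nlinarith [sq_nonneg p.1, sq_nonneg p.2.1]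
  exact (sq_le_sq₀ (norm_nonneg _) (norm_nonneg _)).1 h2

theorem J_nonneg (hab : ON a b) (hW : 3 ≤ finrank ℝ (Wd a b)) (hdim : 2 ≤ finrank ℝ E)
    (V : Finset E) (hV : V.Nonempty) (c0 : ℝ) (hc0 : 0 < c0) (hlow : ∀ x, c0 * ‖x‖ ≤ mx V x)
    (hg : PosProp (fun x : E => (mx V x)⁻¹)) (η : Wd a b) :
    0 ≤ ∫ p : ℝ × ℝ × Wd a b,
      -(mx (arg (arg V (p.2.2 : E)) (p.2.1 • b)) (p.1 • a)) *
        ((mx V (p.2.2 : E))⁻¹ * (mx V (p.2.2 : E))⁻¹) * (Phi η p).re := by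
  set L : ℝ := ∑ y ∈ V, ‖y‖ with hL
  have hL0 : 0 ≤ L := Finset.sum_nonneg fun y _ => norm_nonneg y
  have hC : 0 ≤ C0 := by unfold C0; positivity
  -- lower bounds
  have hlow2 : ∀ p : ℝ × ℝ × Wd a b, c0 * ‖p.2.2‖ ≤ mx V (iota a b p) := fun p =>
    (mul_le_mul_of_nonneg_left (norm_iota_ge hab p) hc0.le).trans (hlow _)
  have hinv : ∀ p : ℝ × ℝ × Wd a b, p.2.2 ≠ 0 → 0 < mx V (iota a b p) ∧
      (mx V (iota a b p))⁻¹ ≤ c0⁻¹ * ‖p.2.2‖⁻¹ := by
    intro p hp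
    have h1 : 0 < c0 * ‖p.2.2‖ := mul_pos hc0 (norm_pos_iff.2 hp)
    have h2 := hlow2 p
    refine ⟨lt_of_lt_of_le h1 h2, ?_⟩
    rw [← mul_inv]
    exact inv_anti₀ h1 h2
  -- the functions
  set x1 : ℝ → (ℝ × ℝ × Wd a b) → E := fun ε p => iota a b (ε ^ 2 * p.1, ε * p.2.1, p.2.2)
  set x2 : ℝ → (ℝ × ℝ × Wd a b) → E := fun ε p => iota a b (0, ε * p.2.1, p.2.2)
  have hx1c : ∀ ε, Continuous (x1 ε) := fun ε => (iota_cont a b).comp (by fun_prop)
  have hx2c : ∀ ε, Continuous (x2 ε) := fun ε => (iota_cont a b).comp (by fun_prop)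
  have hmeas : ∀ (x : (ℝ × ℝ × Wd a b) → E), Continuous x →
      AEStronglyMeasurable (fun p => (mx V (x p))⁻¹ * (Phi η p).re)
        (volume : Measure (ℝ × ℝ × Wd a b)) := by
    intro x hx
    have h1 : Measurable (fun p => (mx V (x p))⁻¹) :=
      (((mx_continuous V).comp hx).measurable).inv
    have h2 : Continuous (fun p => (Phi η p).re) := Complex.continuous_re.comp (Phi_cont η)
    exact (h1.mul h2.measurable).aestronglyMeasurable
  have hInt : ∀ (x : (ℝ × ℝ × Wd a b) → E), Continuous x →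
      (∀ p, p.2.2 ≠ 0 → 0 < mx V (x p) ∧ (mx V (x p))⁻¹ ≤ c0⁻¹ * ‖p.2.2‖⁻¹) →
      Integrable (fun p => (mx V (x p))⁻¹ * (Phi η p).re)
        (volume : Measure (ℝ × ℝ × Wd a b)) := by
    intro x hx hb
    have hbi : Integrable (fun p : ℝ × ℝ × Wd a b => (C0 * Real.exp (-(1 / 4 * p.1 ^ 2))) *
        ((C0 * Real.exp (-(1 / 4 * p.2.1 ^ 2))) *
          (Real.exp (-(‖p.2.2‖ ^ 2 / 2)) * (c0⁻¹ * (‖p.2.2‖⁻¹) ^ 1)))) := by
      have i1 : Integrable (fun s : ℝ => C0 * Real.exp (-(1 / 4 * s ^ 2))) := by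
        have := (gaussR_int 0).const_mul C0
        simpa using this
      have i2 := gaussW_int (Wd a b) hW 1 (by norm_num) c0⁻¹
      exact i1.mul_prod (i1.mul_prod i2)
    refine hbi.mono' (hmeas x hx) ?_
    filter_upwards [ae_W_ne_zero (a := a) (b := b) (by omega)] with p hp
    obtain ⟨h1, h2⟩ := hb p hp
    rw [norm_mul, Real.norm_of_nonneg (inv_nonneg.2 h1.le), Real.norm_eq_abs]
    have h3 := (Complex.abs_re_le_norm (Phi η p)).trans (Phi_bound η p)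
    have h4 : (mx V (x p))⁻¹ * |(Phi η p).re| ≤ (c0⁻¹ * ‖p.2.2‖⁻¹) *
      ((C0 * Real.exp (-(1 / 4 * p.1 ^ 2))) * ((C0 * Real.exp (-(1 / 4 * p.2.1 ^ 2))) *
      Real.exp (-(‖p.2.2‖ ^ 2 / 2)))) := by
      refine mul_le_mul h2 h3 (abs_nonneg _) ?_
      positivity
    refine h4.trans (le_of_eq ?_)
    ring
  have hI1 : ∀ ε, Integrable (fun p => (mx V (x1 ε p))⁻¹ * (Phi η p).re)
      (volume : Measure (ℝ × ℝ × Wd a b)) := fun ε =>
    hInt (x1 ε) (hx1c ε) (fun p hp => hinv (ε ^ 2 * p.1, ε * p.2.1, p.2.2) hp)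
  have hI2 : ∀ ε, Integrable (fun p => (mx V (x2 ε p))⁻¹ * (Phi η p).re)
      (volume : Measure (ℝ × ℝ × Wd a b)) := fun ε =>
    hInt (x2 ε) (hx2c ε) (fun p hp => hinv (0, ε * p.2.1, p.2.2) hp)
  -- the second integral vanishes
  have hzero : ∀ ε, ∫ p, (mx V (x2 ε p))⁻¹ * (Phi η p).re
      ∂(volume : Measure (ℝ × ℝ × Wd a b)) = 0 := by
    intro ε
    have e : ∀ p : ℝ × ℝ × Wd a b, (mx V (x2 ε p))⁻¹ * (Phi η p).re = dg p.1 *
        ((fun q : ℝ × Wd a b => (mx V (iota a b (0, ε * q.1, q.2)))⁻¹ * (Psi η q).re) p.2) := by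
      intro p
      simp only [x2]
      rw [Phi_re]; ring
    rw [integral_congr_ae (Eventually.of_forall e)]
    have := integral_prod_mul (μ := (volume : Measure ℝ)) (ν := (volume : Measure (ℝ × Wd a b)))
      dg (fun q : ℝ × Wd a b => (mx V (iota a b (0, ε * q.1, q.2)))⁻¹ * (Psi η q).re)
    rw [dg_int, zero_mul] at this
    exact this
  set F : ℝ → (ℝ × ℝ × Wd a b) → ℝ := fun ε p =>
    (ε ^ 2)⁻¹ * ((mx V (x1 ε p))⁻¹ * (Phi η p).re - (mx V (x2 ε p))⁻¹ * (Phi η p).re) with hF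
  have hFpos : ∀ᶠ ε in 𝓝[>] (0:ℝ), 0 ≤ ∫ p, F ε p := by
    have : ∀ᶠ ε in 𝓝[>] (0:ℝ), ε ≤ 1 := nhdsWithin_le_nhds (Iic_mem_nhds (by norm_num))
    filter_upwards [self_mem_nhdsWithin, this] with ε hε hε1
    have hε' : (0:ℝ) < ε := hε
    rw [hF]
    simp only
    rw [integral_const_mul, integral_sub (hI1 ε) (hI2 ε), hzero ε, sub_zero]
    exact mul_nonneg (by positivity) (Keps_nonneg hab _ hg hdim η hε' hε1)
  have hdct : Tendsto (fun ε => ∫ p, F ε p) (𝓝[>] (0:ℝ)) (𝓝 (∫ p : ℝ × ℝ × Wd a b,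
      -(mx (arg (arg V (p.2.2 : E)) (p.2.1 • b)) (p.1 • a)) *
        ((mx V (p.2.2 : E))⁻¹ * (mx V (p.2.2 : E))⁻¹) * (Phi η p).re)) := by
    refine tendsto_integral_filter_of_dominated_convergence
      (fun p : ℝ × ℝ × Wd a b => (C0 * (|p.1| ^ 1 * Real.exp (-(1 / 4 * p.1 ^ 2)))) *
        ((C0 * Real.exp (-(1 / 4 * p.2.1 ^ 2))) *
          (Real.exp (-(‖p.2.2‖ ^ 2 / 2)) * ((L * (c0⁻¹ * c0⁻¹)) * (‖p.2.2‖⁻¹) ^ 2)))) ?_ ?_ ?_ ?_
    · refine Eventually.of_forall fun ε => ?_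
      exact ((hI1 ε).sub (hI2 ε)).aestronglyMeasurable.const_mul _
    · filter_upwards [self_mem_nhdsWithin] with ε hε
      have hε' : (0:ℝ) < ε := hε
      filter_upwards [ae_W_ne_zero (a := a) (b := b) (by omega)] with p hp
      obtain ⟨h1, h2⟩ := hinv (ε ^ 2 * p.1, ε * p.2.1, p.2.2) hp
      obtain ⟨h3, h4⟩ := hinv (0, ε * p.2.1, p.2.2) hp
      have hdiff : |mx V (x2 ε p) - mx V (x1 ε p)| ≤ L * (ε ^ 2 * |p.1|) := by
        have e1 : x1 ε p = x2 ε p + (ε ^ 2 * p.1) • a := by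
          simp only [x1, x2, iota, zero_smul, zero_add]; abel
        rw [e1, abs_sub_comm]
        refine (abs_mx_sub_le V (x2 ε p) _).trans ?_
        rw [norm_smul, hab.ha, mul_one, Real.norm_eq_abs, abs_mul, abs_of_pos (by positivity :
          (0:ℝ) < ε ^ 2)]
      have e2 : F ε p = (ε ^ 2)⁻¹ * ((mx V (x2 ε p) - mx V (x1 ε p)) *
          ((mx V (x1 ε p))⁻¹ * (mx V (x2 ε p))⁻¹)) * (Phi η p).re := by
        simp only [hF]
        have h1' : mx V (x1 ε p) ≠ 0 := h1.ne'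
        have h3' : mx V (x2 ε p) ≠ 0 := h3.ne'
        field_simp
      rw [e2, norm_mul, norm_mul, norm_mul, norm_mul, Real.norm_eq_abs, Real.norm_eq_abs,
        Real.norm_eq_abs, Real.norm_eq_abs, Real.norm_eq_abs,
        abs_of_pos (inv_pos.2 h1 : 0 < (mx V (x1 ε p))⁻¹),
        abs_of_pos (inv_pos.2 h3 : 0 < (mx V (x2 ε p))⁻¹),
        abs_of_pos (by positivity : 0 < (ε ^ 2)⁻¹)]
      have h5 := (Complex.abs_re_le_norm (Phi η p)).trans (Phi_bound η p)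
      have h2' : (mx V (x1 ε p))⁻¹ ≤ c0⁻¹ * ‖p.2.2‖⁻¹ := h2
      have h4' : (mx V (x2 ε p))⁻¹ ≤ c0⁻¹ * ‖p.2.2‖⁻¹ := h4
      have h1' : 0 ≤ (mx V (x1 ε p))⁻¹ := inv_nonneg.2 h1.le
      have h3' : 0 ≤ (mx V (x2 ε p))⁻¹ := inv_nonneg.2 h3.le
      have h6 : (ε ^ 2)⁻¹ * (|mx V (x2 ε p) - mx V (x1 ε p)| *
          ((mx V (x1 ε p))⁻¹ * (mx V (x2 ε p))⁻¹)) ≤
          (ε ^ 2)⁻¹ * ((L * (ε ^ 2 * |p.1|)) *
            ((c0⁻¹ * ‖p.2.2‖⁻¹) * (c0⁻¹ * ‖p.2.2‖⁻¹))) := by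
        gcongr
      have h7 : (ε ^ 2)⁻¹ * ((L * (ε ^ 2 * |p.1|)) *
            ((c0⁻¹ * ‖p.2.2‖⁻¹) * (c0⁻¹ * ‖p.2.2‖⁻¹))) = L * |p.1| *
            ((c0⁻¹ * ‖p.2.2‖⁻¹) * (c0⁻¹ * ‖p.2.2‖⁻¹)) := by
        field_simp
      rw [h7] at h6
      have h8 := mul_le_mul h6 h5 (abs_nonneg _) (by positivity)
      refine h8.trans (le_of_eq ?_)
      ring
    · have i1 : Integrable (fun s : ℝ => C0 * Real.exp (-(1 / 4 * s ^ 2))) := by
        have := (gaussR_int 0).const_mul C0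
        simpa using this
      have i2 := (gaussR_int 1).const_mul C0
      have i3 := gaussW_int (Wd a b) hW 2 (by norm_num) (L * (c0⁻¹ * c0⁻¹))
      exact i2.mul_prod (i1.mul_prod i3)
    · filter_upwards [ae_W_ne_zero (a := a) (b := b) (by omega)] with p hp
      set A := mx (arg V (p.2.2 : E)) (p.2.1 • b)
      set B := mx (arg (arg V (p.2.2 : E)) (p.2.1 • b)) (p.1 • a)
      have hx1e : ∀ ε, x1 ε p = (p.2.2 : E) + ε • (p.2.1 • b) + ε ^ 2 • (p.1 • a) := by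
        intro ε
        simp only [x1, iota, smul_smul]; abel
      have hx2e : ∀ ε, x2 ε p = (p.2.2 : E) + ε • (p.2.1 • b) := by
        intro ε
        simp only [x2, iota, smul_smul, zero_smul, zero_add]; abel
      have hl1 : Tendsto (fun ε => mx V (x1 ε p)) (𝓝[>] (0:ℝ)) (𝓝 (mx V (p.2.2 : E))) := by
        have h1 : Continuous (fun ε : ℝ => mx V (x1 ε p)) := by
          simp only [hx1e]
          exact (mx_continuous V).comp (by fun_prop)
        have h2 := h1.tendsto 0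
        simp only [hx1e] at h2 ⊢
        simp only [zero_smul, add_zero, ne_eq, OfNat.ofNat_ne_zero, not_false_eq_true,
          zero_pow] at h2
        exact h2.mono_left nhdsWithin_le_nhds
      have hl2 : Tendsto (fun ε => mx V (x2 ε p)) (𝓝[>] (0:ℝ)) (𝓝 (mx V (p.2.2 : E))) := by
        have h1 : Continuous (fun ε : ℝ => mx V (x2 ε p)) := by
          simp only [hx2e]
          exact (mx_continuous V).comp (by fun_prop)
        have h2 := h1.tendsto 0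
        simp only [hx2e] at h2 ⊢
        simp only [zero_smul, add_zero] at h2
        exact h2.mono_left nhdsWithin_le_nhds
      have hw0 : 0 < mx V (p.2.2 : E) := by
        have := hlow (p.2.2 : E)
        have h2 : 0 < c0 * ‖(p.2.2 : E)‖ := mul_pos hc0 (norm_pos_iff.2 (by
          simpa using hp))
        linarith
      have hlim : Tendsto (fun ε => -B * ((mx V (x1 ε p))⁻¹ * (mx V (x2 ε p))⁻¹) * (Phi η p).re)
          (𝓝[>] (0:ℝ)) (𝓝 (-B * ((mx V (p.2.2 : E))⁻¹ * (mx V (p.2.2 : E))⁻¹) *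
            (Phi η p).re)) :=
        (((hl1.inv₀ hw0.ne').mul (hl2.inv₀ hw0.ne')).const_mul (-B)).mul_const _
      refine hlim.congr' ?_
      filter_upwards [self_mem_nhdsWithin, loc2_val hV (p.2.2 : E) (p.2.1 • b) (p.1 • a),
        loc1_val hV (p.2.2 : E) (p.2.1 • b)] with ε hε hv2 hv1
      have hε' : (0:ℝ) < ε := hε
      obtain ⟨h1, -⟩ := hinv (ε ^ 2 * p.1, ε * p.2.1, p.2.2) hp
      obtain ⟨h3, -⟩ := hinv (0, ε * p.2.1, p.2.2) hp
      have h1' : mx V (x1 ε p) ≠ 0 := h1.ne'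
      have h3' : mx V (x2 ε p) ≠ 0 := h3.ne'
      have hd : mx V (x2 ε p) - mx V (x1 ε p) = - (ε ^ 2 * B) := by
        rw [hx1e, hx2e, hv2, hv1]; ring
      have e2 : F ε p = (ε ^ 2)⁻¹ * ((mx V (x2 ε p) - mx V (x1 ε p)) *
          ((mx V (x1 ε p))⁻¹ * (mx V (x2 ε p))⁻¹)) * (Phi η p).re := by
        simp only [hF]
        field_simp
      rw [e2, hd]
      field_simp
  exact ge_of_tendsto hdct hFpos

end Pool.Agent.Helpers25.IB
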