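import Pool.Agent.Helpers25.IBCombC

open MeasureTheory Metric Set Filter Topology Module

set_option linter.unusedSectionVars false
set_option linter.unusedSimpArgs false

noncomputable section

namespace Pool.Agent.Helpers25.IB

variable {E : Type} [NormedAddCommGroup E] [InnerProductSpace ℝ E] [FiniteDimensional ℝ E]
  [MeasurableSpace E] [BorelSpace E]

theorem zero_mem_interior {K : Set E} (hc : Convex ℝ K) (hs : ∀ x ∈ K, -x ∈ K)
    (hi : (interior K).Nonempty) : (0 : E) ∈ interior K := by
  obtain ⟨x, hx⟩ := hi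
  have hneg : -x ∈ interior K := by
    have h1 : (Homeomorph.neg E) '' (interior K) ⊆ K := by
      rintro _ ⟨y, hy, rfl⟩
      exact hs y (interior_subset hy)
    have h2 : IsOpen ((Homeomorph.neg E) '' (interior K)) :=
      (Homeomorph.neg E).isOpenMap _ isOpen_interior
    exact interior_maximal h1 h2 ⟨x, hx, rfl⟩
  have := hc.interior hx hneg (by norm_num : (0:ℝ) ≤ 1/2) (by norm_num : (0:ℝ) ≤ 1/2) (by norm_num)
  simpa using this

/-- extreme points of an H-polytope are finite in number -/
theorem finite_extreme (S : Finset E) :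
    (extremePoints ℝ {y : E | ∀ x ∈ S, inner ℝ x y ≤ (1:ℝ)}).Finite := by
  classical
  set P : Set E := {y : E | ∀ x ∈ S, inner ℝ x y ≤ (1:ℝ)} with hP
  refine Set.Finite.of_finite_image (f := fun y => S.filter (fun x => inner ℝ x y = (1:ℝ)))
    ?_ ?_
  · refine (S.powerset.finite_toSet).subset ?_
    rintro _ ⟨y, -, rfl⟩
    simp only [Finset.coe_powerset, Set.mem_preimage, Set.mem_powerset_iff, Finset.coe_subset]
    exact Finset.filter_subset _ _
  · intro y hy y' hy' heq
    by_contra hne
    have hyP : y ∈ P := hy.1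
    have hy'P : y' ∈ P := hy'.1
    have hact : ∀ x ∈ S, inner ℝ x y = (1:ℝ) → inner ℝ x y' = (1:ℝ) := by
      intro x hx h
      have : x ∈ S.filter (fun x => inner ℝ x y = (1:ℝ)) := Finset.mem_filter.2 ⟨hx, h⟩
      have heq' : S.filter (fun x => inner ℝ x y = (1:ℝ)) =
        S.filter (fun x => inner ℝ x y' = (1:ℝ)) := heq
      rw [heq'] at this
      exact (Finset.mem_filter.1 this).2
    -- small perturbation
    have hev : ∀ᶠ ε in 𝓝[>] (0:ℝ), y - ε • (y' - y) ∈ P := by
      have : ∀ᶠ ε in 𝓝[>] (0:ℝ), ∀ x ∈ S, inner ℝ x (y - ε • (y' - y)) ≤ (1:ℝ) := by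
        rw [Finset.eventually_all]
        intro x hx
        by_cases h : inner ℝ x y = (1:ℝ)
        · refine Eventually.of_forall fun ε => ?_
          rw [inner_sub_right, inner_smul_right, inner_sub_right, h, hact x hx h]; simp
        · have hlt : inner ℝ x y < (1:ℝ) := lt_of_le_of_ne (hyP x hx) h
          have hc : Continuous (fun ε : ℝ => (inner ℝ x (y - ε • (y' - y)) : ℝ)) := by fun_prop
          have ht := hc.tendsto 0
          have h0 : (inner ℝ x (y - (0:ℝ) • (y' - y)) : ℝ) < 1 := by simpa using hlt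
          exact nhdsWithin_le_nhds ((ht.eventually_lt_const h0).mono fun _ h => h.le)
      exact this
    obtain ⟨ε, hεP, hε⟩ := (hev.and self_mem_nhdsWithin).exists
    have hε' : (0:ℝ) < ε := hε
    have hseg : y ∈ openSegment ℝ (y - ε • (y' - y)) y' := by
      refine ⟨1 / (1 + ε), ε / (1 + ε), by positivity, by positivity, by field_simp, ?_⟩
      have h1 : (1 + ε) ≠ 0 := by positivity
      have : (1 / (1 + ε)) • (y - ε • (y' - y)) + (ε / (1 + ε)) • y' =
          ((1 / (1 + ε)) * (1 + ε)) • y := by module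
      rw [this]
      field_simp
      simp
    have := (mem_extremePoints.1 hy).2 _ hεP _ hy'P hseg
    exact hne this.2.symm

theorem polytope_rep {K : Set E} (hP : IsPolytope K) (hK : IsSymmStarBody K) :
    ∃ (V : Finset E) (c0 : ℝ), V.Nonempty ∧ (∀ y ∈ V, -y ∈ V) ∧ 0 < c0 ∧
      (∀ x, c0 * ‖x‖ ≤ mx V x) ∧ (∀ x, x ∈ K ↔ mx V x ≤ 1) := by
  classical
  obtain ⟨⟨S, hS⟩, hint⟩ := hP
  have hconv : Convex ℝ K := by rw [hS]; exact convex_convexHull ℝ _
  have h0 := zero_mem_interior hconv hK.symm hint
  obtain ⟨r, hr, hball⟩ := Metric.isOpen_iff.1 isOpen_interior 0 h0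
  have hballK : ball (0 : E) r ⊆ K := hball.trans interior_subset
  have h0K : (0 : E) ∈ K := interior_subset h0
  set P : Set E := {y : E | ∀ x ∈ S, inner ℝ x y ≤ (1:ℝ)} with hPdef
  have hPK : ∀ y, y ∈ P ↔ ∀ x ∈ K, inner ℝ x y ≤ (1:ℝ) := by
    intro y
    constructor
    · intro hy x hx
      rw [hS] at hx
      have hcv : Convex ℝ {x : E | inner ℝ x y ≤ (1:ℝ)} := by
        have : {x : E | inner ℝ x y ≤ (1:ℝ)} = {x : E | (innerSL ℝ y) x ≤ 1} := by
          ext x; simp [real_inner_comm]
        rw [this]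
        exact convex_halfSpace_le (innerSL ℝ y).isLinear 1
      exact convexHull_min (fun x hx => hy x hx) hcv hx
    · intro hy x hx
      exact hy x (by rw [hS]; exact subset_convexHull ℝ _ hx)
  have hPclosed : IsClosed P := by
    have : P = ⋂ x ∈ S, {y : E | inner ℝ x y ≤ (1:ℝ)} := by
      ext y; simp [hPdef]
    rw [this]
    exact isClosed_biInter fun x _ => isClosed_le (by fun_prop) continuous_const
  have hPconv : Convex ℝ P := by
    intro y hy z hz a b ha hb hab x hx
    rw [inner_add_right, inner_smul_right, inner_smul_right]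
    have h1 := hy x hx
    have h2 := hz x hx
    nlinarith
  have hPbd : P ⊆ closedBall 0 (2 / r) := by
    intro y hy
    rw [mem_closedBall_zero_iff]
    by_cases hy0 : y = 0
    · rw [hy0, norm_zero]; positivity
    have hyn : 0 < ‖y‖ := norm_pos_iff.2 hy0
    have hx : ((r / 2) / ‖y‖) • y ∈ K := by
      apply hballK
      rw [mem_ball_zero_iff, norm_smul, Real.norm_of_nonneg (by positivity)]
      have : r / 2 / ‖y‖ * ‖y‖ = r / 2 := by field_simp
      rw [this]; linarith
    have := (hPK y).1 hy _ hx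
    rw [inner_smul_left, real_inner_self_eq_norm_sq] at this
    simp only [conj_trivial] at this
    have h3 : r / 2 / ‖y‖ * ‖y‖ ^ 2 = r / 2 * ‖y‖ := by field_simp
    rw [h3] at this
    rw [le_div_iff₀ hr]
    linarith
  have hPcomp : IsCompact P :=
    (isCompact_closedBall (0 : E) (2 / r)).of_isClosed_subset hPclosed hPbd
  have hfin := finite_extreme S
  have hKM := closure_convexHull_extremePoints hPcomp hPconv
  set V0 : Finset E := hfin.toFinset with hV0
  have hV0c : (V0 : Set E) = extremePoints ℝ P := by simp [hV0, hPdef]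
  have hPV0 : P = convexHull ℝ (V0 : Set E) := by
    rw [← hKM, hV0c, IsClosed.closure_eq]
    have : (extremePoints ℝ P).Finite := hfin
    exact this.isClosed_convexHull (𝕜 := ℝ)
  have hV0P : ∀ y ∈ V0, y ∈ P := by
    intro y hy
    rw [hPV0]; exact subset_convexHull ℝ _ hy
  have hV0ne : V0.Nonempty := by
    have h0P : (0 : E) ∈ P := by intro x _; simp
    rw [hPV0] at h0P
    have : (convexHull ℝ (V0 : Set E)).Nonempty := ⟨0, h0P⟩
    rw [convexHull_nonempty_iff] at this
    exact this
  set V : Finset E := V0 ∪ ng V0 with hV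
  have hVne : V.Nonempty := by
    obtain ⟨y, hy⟩ := hV0ne
    exact ⟨y, Finset.mem_union_left _ hy⟩
  have hVsym : ∀ y ∈ V, -y ∈ V := by
    intro y hy
    rcases Finset.mem_union.1 hy with h | h
    · exact Finset.mem_union_right _ (mem_ng.2 (by simpa using h))
    · exact Finset.mem_union_left _ (mem_ng.1 h)
  have hmem : ∀ x, x ∈ K ↔ mx V x ≤ 1 := by
    intro x
    constructor
    · intro hx
      refine mx_le hVne ?_
      intro y hy
      rcases Finset.mem_union.1 hy with h | h
      · have := (hPK y).1 (hV0P y h) x hx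
        rwa [real_inner_comm] at this
      · have := (hPK (-y)).1 (hV0P _ (mem_ng.1 h)) (-x) (hK.symm x hx)
        rw [inner_neg_neg, real_inner_comm] at this
        exact this
    · intro hx
      by_contra hxK
      obtain ⟨f, u, hf1, hf2⟩ := geometric_hahn_banach_closed_point hconv hK.compact.isClosed hxK
      have hu : 0 < u := by simpa using hf1 0 h0K
      set z := (InnerProductSpace.toDual ℝ E).symm f with hz
      have hzf : ∀ a, inner ℝ z a = f a := fun a => InnerProductSpace.toDual_symm_apply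
      have hyP : u⁻¹ • z ∈ P := by
        rw [hPK]
        intro a ha
        rw [inner_smul_right, real_inner_comm, hzf]
        have := hf1 a ha
        rw [inv_mul_le_iff₀ hu]; linarith
      have hyx : 1 < inner ℝ (u⁻¹ • z) x := by
        rw [inner_smul_left, hzf]
        simp only [conj_trivial]
        rw [lt_inv_mul_iff₀ hu]; linarith
      rw [hPV0] at hyP
      have hcv : Convex ℝ {y : E | inner ℝ y x ≤ mx V x} := by
        have : {y : E | inner ℝ y x ≤ mx V x} = {y : E | (innerSL ℝ x) y ≤ mx V x} := by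
          ext y; simp [real_inner_comm]
        rw [this]
        exact convex_halfSpace_le (innerSL ℝ x).isLinear _
      have h5 : inner ℝ (u⁻¹ • z) x ≤ mx V x :=
        convexHull_min (s := (V0 : Set E)) (fun y hy => le_mx (Finset.mem_union_left _ hy) x)
          hcv hyP
      linarith
  -- lower bound
  obtain ⟨R, hR⟩ := hK.compact.isBounded.subset_closedBall (0 : E)
  have hR' : ∀ x ∈ K, ‖x‖ ≤ max R 1 := fun x hx => by
    have := hR hx
    rw [mem_closedBall_zero_iff] at this
    exact this.trans (le_max_left _ _)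
  have hM : 0 < max R 1 := lt_of_lt_of_le one_pos (le_max_right _ _)
  refine ⟨V, (max R 1)⁻¹, hVne, hVsym, by positivity, ?_, hmem⟩
  intro x
  by_cases hx0 : x = 0
  · rw [hx0, norm_zero, mx_zero, mul_zero]
  have hxn : 0 < ‖x‖ := norm_pos_iff.2 hx0
  have hpos : 0 < mx V x := by
    by_contra hcon
    push Not at hcon
    have h1 : ((max R 1 + 1) / ‖x‖) • x ∈ K := by
      rw [hmem, mx_smul V (by positivity)]
      have : (max R 1 + 1) / ‖x‖ * mx V x ≤ 0 :=
        mul_nonpos_of_nonneg_of_nonpos (by positivity) hcon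
      linarith
    have h2 := hR' _ h1
    rw [norm_smul, Real.norm_of_nonneg (by positivity)] at h2
    have : (max R 1 + 1) / ‖x‖ * ‖x‖ = max R 1 + 1 := by field_simp
    rw [this] at h2
    linarith
  have h1 : (mx V x)⁻¹ • x ∈ K := by
    rw [hmem, mx_smul V (by positivity), inv_mul_cancel₀ hpos.ne']
  have h2 := hR' _ h1
  rw [norm_smul, Real.norm_of_nonneg (by positivity)] at h2
  rw [inv_mul_le_iff₀ hM]
  rw [inv_mul_le_iff₀ hpos] at h2
  linarith

theorem radial_eq {K : Set E} {V : Finset E} (hmem : ∀ x, x ∈ K ↔ mx V x ≤ 1)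
    (u : E) (hu : 0 < mx V u) : radial K u = (mx V u)⁻¹ := by
  have : {t : ℝ | 0 ≤ t ∧ t • u ∈ K} = Icc 0 (mx V u)⁻¹ := by
    ext t
    constructor
    · rintro ⟨h1, h2⟩
      rw [hmem, mx_smul V h1] at h2
      refine ⟨h1, ?_⟩
      rwa [← one_div, le_div_iff₀ hu]
    · rintro ⟨h1, h2⟩
      refine ⟨h1, ?_⟩
      rw [hmem, mx_smul V h1]
      rwa [← one_div, le_div_iff₀ hu] at h2
  rw [radial, this, csSup_Icc (by positivity)]

theorem main (hn : 5 ≤ finrank ℝ E) (K : Set E) (hP : IsPolytope K)
    (hI : IsIntersectionBody K) :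
    ∃ (N : ℕ) (v : Fin N → E), Spanning v ∧ K = polarBody (zonotope v) := by
  obtain ⟨hK, μ, hμf, hμs, hμ⟩ := hI
  obtain ⟨V, c0, hV, hsym, hc0, hlow, hmem⟩ := polytope_rep hP hK
  obtain ⟨n, hfr⟩ : ∃ n, finrank ℝ E = n := ⟨_, rfl⟩
  rw [hfr] at hn
  have hpos : ∀ x, x ≠ 0 → 0 < mx V x := fun x hx => by
    have h1 := hlow x
    have h2 : 0 < c0 * ‖x‖ := mul_pos hc0 (norm_pos_iff.2 hx)
    linarith
  have hnt : Nontrivial E := Module.nontrivial_of_finrank_pos (R := ℝ) (by rw [hfr]; omega)
  have hPos : PosProp (fun x : E => (mx V x)⁻¹) := by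
    intro φ hφc hφe hφb hφp
    obtain ⟨C, hC⟩ := hφb
    refine pos_of_radon (by omega) (fun u => radial K u) μ hμ (fun x => (mx V x)⁻¹) ?_ φ hφc hφe
      C (1/4) (by norm_num) hC ?_ hφp
    · intro r hr u
      have hu0 : (u : E) ≠ 0 := by
        intro h
        have := norm_eq_of_mem_sphere u
        rw [h, norm_zero] at this
        exact zero_ne_one this
      rw [mx_smul V (le_of_lt hr), radial_eq hmem _ (hpos _ hu0), mul_inv]
    · have hb : Integrable (fun x : E => (c0⁻¹ * ‖x‖⁻¹) *
          (C * Real.exp (-(1 / 4 * ‖x‖ ^ 2)))) := by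
        refine (integrable_fun_norm_addHaar (volume : Measure E)
          (f := fun r => (c0⁻¹ * r⁻¹) * (C * Real.exp (-(1 / 4 * r ^ 2))))).2 ?_
        have := integrableOn_gauss (n - 2) (c0⁻¹ * C) (1/4) (by norm_num)
        refine (integrableOn_congr_fun ?_ measurableSet_Ioi).1 this
        intro r hr
        have hr' : (0:ℝ) < r := hr
        simp only [smul_eq_mul]
        have e1 : r ^ (finrank ℝ E - 1) = r ^ (n - 2) * r := by
          rw [hfr, ← pow_succ]; congr 1; omega
        rw [e1]
        field_simp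
      refine hb.mono' ?_ ?_
      · exact ((mx_continuous V).measurable.inv.mul hφc.measurable).aestronglyMeasurable
      · refine Eventually.of_forall fun x => ?_
        rw [norm_mul, Real.norm_eq_abs, Real.norm_eq_abs]
        by_cases hx : x = 0
        · rw [hx, mx_zero]; simp
        have h1 := hlow x
        have h2 : 0 < c0 * ‖x‖ := mul_pos hc0 (norm_pos_iff.2 hx)
        have h3 : |(mx V x)⁻¹| ≤ c0⁻¹ * ‖x‖⁻¹ := by
          rw [abs_of_pos (inv_pos.2 (hpos x hx)), ← mul_inv]
          exact inv_anti₀ h2 h1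
        exact mul_le_mul h3 (hC x) (abs_nonneg _) (by positivity)
  have hkey : KeyProp V := by
    intro a b hab w0 hw0 hne hgen
    have hW : 3 ≤ finrank ℝ (Wd a b) := by
      classical
      have h1 := Submodule.finrank_add_finrank_orthogonal (Submodule.span ℝ ({a, b} : Set E))
      have hf : finrank ℝ (Submodule.span ℝ ({a, b} : Set E)) ≤ 2 := by
        have := finrank_span_finset_le_card (R := ℝ) ({a, b} : Finset E)
        rw [Set.finrank] at this
        have h2 : (({a, b} : Finset E) : Set E) = ({a, b} : Set E) := by simp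
        rw [h2] at this
        exact this.trans Finset.card_le_two
      have h3 : finrank ℝ (Wd a b) =
        finrank ℝ (Submodule.span ℝ ({a, b} : Set E))ᗮ := rfl
      rw [hfr] at h1
      omega
    exact bet_eq_zero hab hW (by rw [hfr]; omega) V hV hsym c0 hc0 hlow hPos w0 hw0 hne hgen
  obtain ⟨N, v, hv⟩ := zonotope_rep hV hsym c0 hc0 hlow (by rw [hfr]; omega) hkey
  refine ⟨N, v, ?_, ?_⟩
  · unfold Spanning
    rw [← Submodule.orthogonal_eq_bot_iff, Submodule.eq_bot_iff]
    intro z hz
    by_contra hz0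
    have h1 := hpos z hz0
    rw [hv z] at h1
    have : ∑ i, |(inner ℝ (v i) z : ℝ)| = 0 := by
      refine Finset.sum_eq_zero fun i _ => ?_
      rw [(Submodule.mem_orthogonal _ _).1 hz (v i) (Submodule.subset_span ⟨i, rfl⟩), abs_zero]
    linarith
  · ext x
    rw [hmem, hv]
    constructor
    · intro h z hz
      obtain ⟨c, hc, rfl⟩ := hz
      rw [sum_inner]
      refine le_trans (Finset.sum_le_sum fun i _ => ?_) h
      rw [inner_smul_left]
      simp only [conj_trivial]
      calc c i * inner ℝ (v i) x ≤ |c i * inner ℝ (v i) x| := le_abs_self _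
        _ = |c i| * |(inner ℝ (v i) x : ℝ)| := abs_mul _ _
        _ ≤ 1 * |(inner ℝ (v i) x : ℝ)| := by
            have := hc i
            gcongr
        _ = _ := one_mul _
    · intro h
      have := h (∑ i, (SignType.sign (inner ℝ (v i) x : ℝ) : ℝ) • v i)
        ⟨fun i => (SignType.sign (inner ℝ (v i) x : ℝ) : ℝ), fun i => by
          rcases lt_trichotomy (inner ℝ (v i) x : ℝ) 0 with h | h | h
          · simp [h]
          · simp [h]
          · simp [h], rfl⟩
      rw [sum_inner] at this
      refine le_trans (le_of_eq ?_) this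
      refine Finset.sum_congr rfl fun i _ => ?_
      rw [inner_smul_left]
      simp only [conj_trivial]
      rw [sign_mul_self]

end Pool.Agent.Helpers25.IB
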