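import Pool.Agent.Helpers25.IBHyper

open MeasureTheory Metric Set Filter Topology Measure Module

noncomputable section

namespace Pool.Agent.Helpers25.IB

def gam (s : ℝ) : ℝ := Real.exp (-(s ^ 2 / 2))

def Dlt (f : ℝ → ℂ) (s : ℝ) : ℂ := f s - (1 / 2) * f (s + 1) - (1 / 2) * f (s - 1)

def gamC (s : ℝ) : ℂ := (gam s : ℂ)

def Kf (t : ℝ) : ℂ := Complex.exp (t * Complex.I) * gam t

theorem gam_pos (s : ℝ) : 0 < gam s := Real.exp_pos _

theorem gam_cont : Continuous gam := by unfold gam; fun_prop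

theorem gamC_cont : Continuous gamC := by
  unfold gamC; exact Complex.continuous_ofReal.comp gam_cont

theorem Kf_cont : Continuous Kf := by
  unfold Kf
  have := Complex.continuous_ofReal.comp gam_cont
  exact (by fun_prop : Continuous fun t : ℝ => Complex.exp (t * Complex.I)).mul this

theorem Dlt_cont {f : ℝ → ℂ} (hf : Continuous f) : Continuous (Dlt f) := by
  unfold Dlt; fun_prop

theorem norm_gamC (s : ℝ) : ‖gamC s‖ = gam s := by
  rw [gamC, Complex.norm_real, Real.norm_of_nonneg (gam_pos s).le]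

theorem norm_Kf (s : ℝ) : ‖Kf s‖ = gam s := by
  rw [Kf, norm_mul, Complex.norm_exp_ofReal_mul_I, one_mul, Complex.norm_real,
    Real.norm_of_nonneg (gam_pos s).le]

def C0 : ℝ := 1 + Real.exp (1 / 2)

theorem Dlt_bound {f : ℝ → ℂ} (hf : ∀ s, ‖f s‖ ≤ gam s) (s : ℝ) :
    ‖Dlt f s‖ ≤ C0 * Real.exp (-(1 / 4 * s ^ 2)) := by
  have h1 : ‖f s‖ ≤ Real.exp (-(1 / 4 * s ^ 2)) := by
    refine (hf s).trans ?_
    unfold gam
    apply Real.exp_le_exp.2
    nlinarith [sq_nonneg s]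
  have h2 : ‖f (s + 1)‖ ≤ Real.exp (1 / 2) * Real.exp (-(1 / 4 * s ^ 2)) := by
    refine (hf _).trans ?_
    unfold gam
    rw [← Real.exp_add]
    apply Real.exp_le_exp.2
    nlinarith [sq_nonneg (s / 2 + 1)]
  have h3 : ‖f (s - 1)‖ ≤ Real.exp (1 / 2) * Real.exp (-(1 / 4 * s ^ 2)) := by
    refine (hf _).trans ?_
    unfold gam
    rw [← Real.exp_add]
    apply Real.exp_le_exp.2
    nlinarith [sq_nonneg (s / 2 - 1)]
  have h4 : ‖(1 / 2 : ℂ) * f (s + 1)‖ = 1 / 2 * ‖f (s + 1)‖ := by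
    rw [norm_mul]; norm_num
  have h5 : ‖(1 / 2 : ℂ) * f (s - 1)‖ = 1 / 2 * ‖f (s - 1)‖ := by
    rw [norm_mul]; norm_num
  calc ‖Dlt f s‖ ≤ ‖f s‖ + ‖(1 / 2 : ℂ) * f (s + 1)‖ + ‖(1 / 2 : ℂ) * f (s - 1)‖ := by
        unfold Dlt
        refine (norm_sub_le _ _).trans ?_
        gcongr
        exact norm_sub_le _ _
    _ ≤ _ := by
        rw [h4, h5]; unfold C0
        nlinarith

section ft
variable {X : Type*} [NormedAddCommGroup X] [InnerProductSpace ℝ X] [FiniteDimensional ℝ X]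
  [MeasurableSpace X] [BorelSpace X]

theorem gauss_ft (X : Type*) [NormedAddCommGroup X] [InnerProductSpace ℝ X]
    [FiniteDimensional ℝ X] [MeasurableSpace X] [BorelSpace X] :
    ∃ c : ℝ, 0 < c ∧ ∀ ξ : X,
    ∫ x : X, (Real.exp (-(‖x‖ ^ 2 / 2)) : ℂ) * Complex.exp (((inner ℝ x ξ : ℝ) : ℂ) * Complex.I) =
      (c : ℂ) * (Real.exp (-(‖ξ‖ ^ 2 / 2)) : ℂ) := by
  refine ⟨(Real.pi / (1 / 2)) ^ ((finrank ℝ X : ℝ) / 2), by positivity, fun ξ => ?_⟩
  have hb : (0:ℝ) < (((1/2 : ℝ)) : ℂ).re := by simp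
  have h := GaussianFourier.integral_cexp_neg_mul_sq_norm_add (V := X) (b := ((1/2 : ℝ) : ℂ)) hb
    Complex.I ξ
  have e1 : ∀ x : X, (Real.exp (-(‖x‖ ^ 2 / 2)) : ℂ) *
      Complex.exp (((inner ℝ x ξ : ℝ) : ℂ) * Complex.I)
      = Complex.exp (-(((1/2 : ℝ)) : ℂ) * (‖x‖:ℂ) ^ 2 + Complex.I * (inner ℝ ξ x : ℝ)) := by
    intro x
    rw [Complex.ofReal_exp, ← Complex.exp_add, real_inner_comm x ξ]
    congr 1
    push_cast; ring
  rw [integral_congr_ae (Eventually.of_forall e1), h, Complex.ofReal_cpow (by positivity)]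
  push_cast
  rw [Complex.I_sq]
  congr 2
  ring

theorem gauss_int (X : Type*) [NormedAddCommGroup X] [InnerProductSpace ℝ X]
    [FiniteDimensional ℝ X] [MeasurableSpace X] [BorelSpace X] (δ : ℝ) (hδ : 0 < δ) :
    Integrable (fun x : X => Real.exp (-(δ * ‖x‖ ^ 2))) := by
  have := GaussianFourier.integrable_cexp_neg_mul_sq_norm_add (V := X) (b := (δ : ℂ))
    (by simpa using hδ) 0 0
  have h2 := this.norm
  refine h2.congr (Eventually.of_forall fun x => ?_)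
  simp only [inner_zero_left, Complex.ofReal_zero, mul_zero, add_zero]
  rw [Complex.norm_exp]
  congr 1
  have : (-(δ:ℂ) * (‖x‖:ℂ) ^ 2) = ((-(δ * ‖x‖ ^ 2) : ℝ) : ℂ) := by push_cast; ring
  rw [this, Complex.ofReal_re]

theorem gam_int : Integrable gam := by
  have := gauss_int ℝ (1/2) (by norm_num)
  refine this.congr (Eventually.of_forall fun x => ?_)
  simp only [gam, Real.norm_eq_abs, sq_abs]
  congr 1; ring

theorem gauss_ftR : ∃ c : ℝ, 0 < c ∧ ∀ s : ℝ,
    ∫ α : ℝ, (gam α : ℂ) * Complex.exp (((α * s : ℝ) : ℂ) * Complex.I) = (c : ℂ) * gamC s := by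
  obtain ⟨c, hc, h⟩ := gauss_ft ℝ
  refine ⟨c, hc, fun s => ?_⟩
  have := h s
  simp only [Real.norm_eq_abs, sq_abs] at this
  rw [gamC, gam, ← this]
  refine integral_congr_ae (Eventually.of_forall fun x => ?_)
  simp only [gam]
  congr 4
  simp [mul_comm]

theorem gauss_ftR' (c : ℝ) (hc : ∀ s : ℝ,
    ∫ α : ℝ, (gam α : ℂ) * Complex.exp (((α * s : ℝ) : ℂ) * Complex.I) = (c : ℂ) * gamC s) (s : ℝ) :
    ∫ α : ℝ, (gam (α - 1) : ℂ) * Complex.exp (((α * s : ℝ) : ℂ) * Complex.I) =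
      (c : ℂ) * Kf s := by
  have h1 : ∫ α : ℝ, (gam (α - 1) : ℂ) * Complex.exp (((α * s : ℝ) : ℂ) * Complex.I) =
      ∫ α : ℝ, (gam α : ℂ) * Complex.exp ((((α + 1) * s : ℝ) : ℂ) * Complex.I) := by
    rw [← integral_add_right_eq_self (fun α : ℝ => (gam (α - 1) : ℂ) *
      Complex.exp (((α * s : ℝ) : ℂ) * Complex.I)) 1]
    simp only [add_sub_cancel_right]
  rw [h1]
  have h2 : ∀ α : ℝ, (gam α : ℂ) * Complex.exp ((((α + 1) * s : ℝ) : ℂ) * Complex.I) =
      Complex.exp (s * Complex.I) *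
        ((gam α : ℂ) * Complex.exp (((α * s : ℝ) : ℂ) * Complex.I)) := by
    intro α
    have : (((α + 1) * s : ℝ) : ℂ) * Complex.I = s * Complex.I + ((α * s : ℝ) : ℂ) * Complex.I := by
      push_cast; ring
    rw [this, Complex.exp_add]; ring
  rw [integral_congr_ae (Eventually.of_forall h2), integral_const_mul, hc, Kf, gamC]
  ring

theorem delta_ft (k : ℝ → ℝ) (hk : Integrable k) (K : ℝ → ℂ) (c : ℂ)
    (hK : ∀ s : ℝ, ∫ α : ℝ, (k α : ℂ) * Complex.exp (((α * s : ℝ) : ℂ) * Complex.I) = c * K s)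
    (s : ℝ) :
    ∫ α : ℝ, (((1 - Real.cos α) * k α : ℝ) : ℂ) * Complex.exp (((α * s : ℝ) : ℂ) * Complex.I) =
      c * Dlt K s := by
  have hint : ∀ s : ℝ, Integrable (fun α : ℝ => (k α : ℂ) *
      Complex.exp (((α * s : ℝ) : ℂ) * Complex.I)) := by
    intro s
    have h1 : Integrable (fun α : ℝ => (k α : ℂ)) := hk.ofReal
    refine h1.mul_bdd (c := 1) (Continuous.aestronglyMeasurable (by fun_prop)) ?_
    refine Eventually.of_forall fun α => ?_
    rw [Complex.norm_exp_ofReal_mul_I]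
  have e : ∀ α : ℝ, (((1 - Real.cos α) * k α : ℝ) : ℂ) *
      Complex.exp (((α * s : ℝ) : ℂ) * Complex.I) =
      (k α : ℂ) * Complex.exp (((α * s : ℝ) : ℂ) * Complex.I)
      - (1 / 2) * ((k α : ℂ) * Complex.exp (((α * (s + 1) : ℝ) : ℂ) * Complex.I))
      - (1 / 2) * ((k α : ℂ) * Complex.exp (((α * (s - 1) : ℝ) : ℂ) * Complex.I)) := by
    intro α
    have h1 : (((α * (s + 1) : ℝ) : ℂ) * Complex.I) =
        ((α * s : ℝ) : ℂ) * Complex.I + α * Complex.I := by push_cast; ring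
    have h2 : (((α * (s - 1) : ℝ) : ℂ) * Complex.I) =
        ((α * s : ℝ) : ℂ) * Complex.I + (-(α:ℂ)) * Complex.I := by push_cast; ring
    rw [h1, h2, Complex.exp_add, Complex.exp_add]
    push_cast
    rw [Complex.cos]
    ring
  rw [integral_congr_ae (Eventually.of_forall e), integral_sub, integral_sub,
    integral_const_mul, integral_const_mul, hK, hK, hK, Dlt]
  · ring
  · exact hint s
  · exact (hint _).const_mul _
  · exact (hint s).sub ((hint _).const_mul _)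
  · exact (hint _).const_mul _

end ft

end Pool.Agent.Helpers25.IB
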