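import Mathlib

namespace Pool.Agent.Helpers25.Parikh

open Set Pointwise AddSubmonoid

/-! ### Arden's lemma and elimination -/

section elim

variable {V : Type} [AddCommMonoid V] (sz : V →+ ℕ) (hsz : ∀ x, sz x = 0 → x = 0)

include hsz in
theorem arden (D E X : Set V) (h0 : (0 : V) ∉ D) (hX : X = E ∪ (D + X)) :
    X = (closure D : Set V) + E := by
  have hDX : ∀ d ∈ D, ∀ x ∈ X, d + x ∈ X := by
    intro d hd x hx
    rw [hX]
    exact Or.inr (Set.add_mem_add hd hx)
  have hEX : E ⊆ X := by
    rw [hX]; exact subset_union_left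
  apply subset_antisymm
  · intro x
    induction hn : sz x using Nat.strong_induction_on generalizing x with
    | _ n ih =>
      intro hx
      rw [hX] at hx
      rcases hx with hx | hx
      · exact ⟨0, zero_mem _, x, hx, zero_add x⟩
      · obtain ⟨d, hd, x', hx', rfl⟩ := hx
        have hd0 : sz d ≠ 0 := fun h => h0 (by rw [← hsz d h]; exact hd)
        have hlt : sz x' < n := by
          rw [← hn, map_add]; omega
        obtain ⟨s, hs, e, he, hse⟩ := ih _ hlt rfl hx'
        refine ⟨d + s, add_mem (subset_closure hd) hs, e, he, ?_⟩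
        simp only at hse ⊢
        rw [← hse, add_assoc]
  · rintro _ ⟨s, hs, e, he, rfl⟩
    have key : ∀ x ∈ X, s + x ∈ X := by
      refine closure_induction (motive := fun s _ => ∀ x ∈ X, s + x ∈ X) ?_ ?_ ?_ hs
      · intro d hd x hx; exact hDX d hd x hx
      · intro x hx; rwa [zero_add]
      · intro a b _ _ iha ihb x hx
        rw [add_assoc]; exact iha _ (ihb x hx)
    exact key e (hEX he)

include hsz in
theorem elim {σ : Type} [DecidableEq σ] (T : Finset σ) :
    ∀ (B : σ → Set V) (C : σ → σ → Set V) (X : σ → Set V),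
      (∀ p, IsSemilinearSet (B p)) → (∀ p q, IsSemilinearSet (C p q)) →
      (∀ p q, (0 : V) ∉ C p q) →
      (∀ p ∈ T, X p = B p ∪ ⋃ q ∈ T, (C p q + X q)) → ∀ p ∈ T, IsSemilinearSet (X p) := by
  induction T using Finset.induction_on with
  | empty => intro B C X _ _ _ _ p hp; simp at hp
  | insert r T hr ih =>
    intro B C X hB hC h0 hX
    have hXr := hX r (Finset.mem_insert_self r T)
    rw [Finset.set_biUnion_insert] at hXr
    have hA : X r = (closure (C r r) : Set V) + (B r ∪ ⋃ q ∈ T, (C r q + X q)) := by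
      apply arden sz hsz _ _ _ (h0 r r)
      conv_lhs => rw [hXr]
      rw [union_comm (C r r + X r), ← union_assoc]
    have hcl : IsSemilinearSet (closure (C r r) : Set V) := (hC r r).closure
    have ih' := ih (fun p => B p ∪ (C p r + ((closure (C r r) : Set V) + B r)))
      (fun p q => C p q ∪ (C p r + ((closure (C r r) : Set V) + C r q))) X
      (fun p => (hB p).union ((hC p r).add (hcl.add (hB r))))
      (fun p q => (hC p q).union ((hC p r).add (hcl.add (hC r q)))) ?_ ?_
    · intro p hp
      rcases Finset.mem_insert.mp hp with rfl | hp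
      · rw [hA]
        refine hcl.add ((hB p).union (IsSemilinearSet.biUnion_finset fun q hq => ?_))
        exact (hC p q).add (ih' q hq)
      · exact ih' p hp
    · rintro p q (h | h)
      · exact h0 p q h
      · obtain ⟨c, hc, x, _, hcx⟩ := h
        have hc0 : sz c ≠ 0 := fun h => h0 p r (by rw [← hsz c h]; exact hc)
        have := congrArg sz hcx
        simp only [map_add, map_zero] at this
        omega
    · intro p hp
      have h1 := hX p (Finset.mem_insert_of_mem hp)
      rw [Finset.set_biUnion_insert, hA] at h1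
      rw [h1]
      ext x
      simp only [mem_union, mem_iUnion, Set.mem_add, exists_prop]
      constructor
      · rintro (h | ⟨c, hc, y, ⟨s, hs, e, (he | ⟨q, hq, c', hc', x', hx', rfl⟩), rfl⟩, rfl⟩ |
          ⟨q, hq, c, hc, x', hx', rfl⟩)
        · exact Or.inl (Or.inl h)
        · exact Or.inl (Or.inr ⟨c, hc, s + e, ⟨s, hs, e, he, rfl⟩, rfl⟩)
        · refine Or.inr ⟨q, hq, c + (s + c'), Or.inr ⟨c, hc, s + c', ⟨s, hs, c', hc', rfl⟩, rfl⟩,
            x', hx', ?_⟩
          simp only [add_assoc]
        · exact Or.inr ⟨q, hq, c, Or.inl hc, x', hx', rfl⟩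
      · rintro ((h | ⟨c, hc, y, ⟨s, hs, e, he, rfl⟩, rfl⟩) |
          ⟨q, hq, _, (hc | ⟨c, hc, y, ⟨s, hs, c', hc', rfl⟩, rfl⟩), x', hx', rfl⟩)
        · exact Or.inl h
        · exact Or.inr (Or.inl ⟨c, hc, s + e, ⟨s, hs, e, Or.inl he, rfl⟩, rfl⟩)
        · exact Or.inr (Or.inr ⟨q, hq, _, hc, x', hx', rfl⟩)
        · refine Or.inr (Or.inl ⟨c, hc, s + (c' + x'), ⟨s, hs, c' + x',
            Or.inr ⟨q, hq, c', hc', x', hx', rfl⟩, rfl⟩, ?_⟩)
          simp only [add_assoc]

end elim

/-! ### Parikh's theorem for automata -/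

section parikh

variable {A : Type} [Finite A]

open Classical in
/-- The Parikh vector. -/
noncomputable def pv (w : List A) : A → ℕ := fun a => w.count a

theorem pv_nil : pv ([] : List A) = 0 := by
  funext a; simp [pv]

open Classical in
theorem pv_cons (a : A) (w : List A) : pv (a :: w) = Pi.single a 1 + pv w := by
  funext b
  simp only [pv, List.count_cons, Pi.add_apply, Pi.single_apply]
  by_cases h : a = b
  · subst h; simp; ring
  · simp [h, Ne.symm h]

theorem pv_append (u w : List A) : pv (u ++ w) = pv u + pv w := by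
  funext b
  simp [pv, List.count_append]

/-- The sum of the entries. -/
noncomputable def tot (A : Type) [Finite A] : (A → ℕ) →+ ℕ :=
  letI := Fintype.ofFinite A
  { toFun := fun x => ∑ a, x a
    map_zero' := by simp
    map_add' := fun x y => by simp [Finset.sum_add_distrib] }

theorem tot_eq_zero (x : A → ℕ) (h : tot A x = 0) : x = 0 := by
  letI := Fintype.ofFinite A
  have h' : ∑ a, x a = 0 := h
  funext a
  exact (Finset.sum_eq_zero_iff.mp h') a (Finset.mem_univ a)

theorem parikh {σ : Type} [Finite σ] (M : DFA A σ) :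
    IsSemilinearSet {x : A → ℕ | ∃ v ∈ M.accepts, pv v = x} := by
  classical
  letI := Fintype.ofFinite σ
  let X : σ → Set (A → ℕ) := fun p => {x | ∃ v, M.evalFrom p v ∈ M.accept ∧ pv v = x}
  let B : σ → Set (A → ℕ) := fun p => if p ∈ M.accept then {0} else ∅
  let C : σ → σ → Set (A → ℕ) := fun p q => {x | ∃ a, M.step p a = q ∧ x = Pi.single a 1}
  have h := elim (tot A) tot_eq_zero (Finset.univ : Finset σ) B C X ?_ ?_ ?_ ?_ M.start
    (Finset.mem_univ _)
  · exact h
  · intro p
    by_cases hp : p ∈ M.accept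
    · simp only [B, if_pos hp]; exact IsSemilinearSet.singleton 0
    · simp only [B, if_neg hp]; exact IsSemilinearSet.empty
  · intro p q
    apply IsSemilinearSet.of_finite
    apply Set.Finite.subset (Set.finite_range fun a : A => (Pi.single a 1 : A → ℕ))
    rintro x ⟨a, _, rfl⟩
    exact ⟨a, rfl⟩
  · rintro p q ⟨a, _, ha⟩
    have := congrFun ha a
    simp at this
  · intro p _
    ext x
    simp only [X, B, C, mem_union, mem_iUnion, Set.mem_add, mem_ofPred_eq, exists_prop]
    constructor
    · rintro ⟨v, hv, rfl⟩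
      cases v with
      | nil =>
        left
        rw [DFA.evalFrom_nil] at hv
        rw [if_pos hv, pv_nil]
        rfl
      | cons a v =>
        right
        rw [DFA.evalFrom_cons] at hv
        exact ⟨M.step p a, Finset.mem_univ _, _, ⟨a, rfl, rfl⟩, pv v, ⟨v, hv, rfl⟩, (pv_cons a v).symm⟩
    · rintro (h | ⟨q, _, _, ⟨a, rfl, rfl⟩, _, ⟨v, hv, rfl⟩, rfl⟩)
      · by_cases hp : p ∈ M.accept
        · rw [if_pos hp] at h
          exact ⟨[], hp, by rw [pv_nil]; exact h.symm⟩
        · rw [if_neg hp] at h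
          exact absurd h (Set.notMem_empty x)
      · exact ⟨a :: v, by rw [DFA.evalFrom_cons]; exact hv, pv_cons a v⟩

end parikh

end Pool.Agent.Helpers25.Parikh
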