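import Pool.Agent.Helpers25.ParikhA

namespace Pool.Agent.Helpers25.Parikh

open Set Pointwise AddSubmonoid

/-! ### Affine preimages -/

theorem affine_preimage {M N : Type} [AddCommMonoid M] [AddCommMonoid N] [AddMonoid.FG M]
    {S : Set N} (hS : IsSemilinearSet S) (z : N) (f : M →+ N) :
    IsSemilinearSet {x : M | z + f x ∈ S} := by
  let g : M × ℕ →+ N :=
    { toFun := fun p => p.2 • z + f p.1
      map_zero' := by simp
      map_add' := fun p q => by
        simp only [Prod.snd_add, Prod.fst_add, map_add, add_smul]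
        abel }
  have h1 : IsSemilinearSet (g ⁻¹' S) := hS.preimage g
  have h2 : IsSemilinearSet ({p : M × ℕ | p.2 = 1}) := by
    have := isSemilinearSet_setOfPred_eq (M := M × ℕ) (0 : ℕ) 1 (AddMonoidHom.snd M ℕ)
      (0 : M × ℕ →+ ℕ)
    simpa using this
  have h3 := (h1.inter h2).image (AddMonoidHom.fst M ℕ)
  convert h3 using 1
  ext x
  constructor
  · intro h
    refine ⟨(x, 1), ⟨?_, rfl⟩, rfl⟩
    have h' : z + f x ∈ S := h
    simpa [g] using h'
  · rintro ⟨⟨x', n⟩, ⟨h, hn⟩, hx⟩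
    have hn' : n = 1 := hn
    have hx' : x' = x := hx
    subst hn'; subst hx'
    have h' : g (x', 1) ∈ S := h
    have : z + f x' ∈ S := by simpa [g] using h'
    exact this

/-- The set where membership changes. -/
theorem semilinear_xor {M : Type} [AddCommMonoid M] [AddMonoid.FG M] {S T : Set M}
    (hS : IsSemilinearSet S) (hT : IsSemilinearSet T) :
    IsSemilinearSet {x : M | ¬ (x ∈ S ↔ x ∈ T)} := by
  have h := (hS.sdiff hT).union (hT.sdiff hS)
  convert h using 1
  ext x
  simp only [mem_ofPred_eq, mem_union, mem_sdiff]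
  tauto

/-! ### Rays -/

theorem exists_ray {M : Type} [AddCommMonoid M] {S : Set M} (hS : IsSemilinearSet S)
    (f : M →+ ℕ) (hunb : ∀ B : ℕ, ∃ x ∈ S, B < f x) :
    ∃ y v : M, 1 ≤ f v ∧ ∀ n : ℕ, y + n • v ∈ S := by
  obtain ⟨F, hF, hlin, rfl⟩ := hS
  by_contra hcon
  push Not at hcon
  -- every linear piece has constant `f`
  have hconst : ∀ t ∈ F, ∃ c, ∀ x ∈ t, f x = c := by
    intro t ht
    obtain ⟨a, P, hP, rfl⟩ := hlin t ht
    by_cases hex : ∃ p ∈ P, 1 ≤ f p
    · obtain ⟨p, hp, hfp⟩ := hex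
      obtain ⟨n, hn⟩ := hcon a p hfp
      exact absurd (mem_sUnion.mpr ⟨_, ht, ⟨n • p, nsmul_mem (subset_closure hp) n, rfl⟩⟩) hn
    · push Not at hex
      refine ⟨f a, ?_⟩
      rintro _ ⟨s, hs, rfl⟩
      have : f s = 0 := by
        refine closure_induction (motive := fun s _ => f s = 0) ?_ ?_ ?_ hs
        · intro p hp; have := hex p hp; omega
        · exact map_zero f
        · intro a b _ _ ha hb; rw [map_add, ha, hb]
      simp [this]
  choose! c hc using hconst
  obtain ⟨x, ⟨t, ht, hxt⟩, hx⟩ := hunb (∑ t ∈ hF.toFinset, c t)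
  have h1 := hc t ht x hxt
  have h2 : c t ≤ ∑ t ∈ hF.toFinset, c t :=
    Finset.single_le_sum (fun _ _ => Nat.zero_le _) (hF.mem_toFinset.mpr ht)
  omega

/-! ### Universal period -/

theorem ult_of_closed (X : Set ℕ) (a : ℕ) (ha : 1 ≤ a) (hX : ∀ m ∈ X, m + a ∈ X) :
    ∃ K, ∀ m ≥ K, (m ∈ X ↔ m + a ∈ X) := by
  classical
  have h : ∀ ρ : ℕ, ∃ K, (∃ m ∈ X, m % a = ρ) → K ∈ X ∧ K % a = ρ := by
    intro ρ
    by_cases hex : ∃ m ∈ X, m % a = ρ
    · obtain ⟨m, hm⟩ := hex
      exact ⟨m, fun _ => hm⟩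
    · exact ⟨0, fun h => absurd h hex⟩
  choose K hK using h
  refine ⟨∑ ρ ∈ Finset.range a, K ρ, fun m hm => ⟨hX m, fun h => ?_⟩⟩
  obtain ⟨h1, h2⟩ := hK (m % a) ⟨m + a, h, by simp⟩
  have h3 : K (m % a) ≤ m := le_trans (Finset.single_le_sum (f := K) (fun _ _ => Nat.zero_le _)
    (Finset.mem_range.mpr (Nat.mod_lt _ ha))) hm
  have h4 : ∀ j : ℕ, K (m % a) + j * a ∈ X := by
    intro j
    induction j with
    | zero => simpa using h1
    | succ j ih => have := hX _ ih; rwa [add_assoc, ← Nat.succ_mul] at this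
  have h5 : ∃ j, m = K (m % a) + j * a := by
    have h6 : a ∣ m - K (m % a) := (Nat.modEq_iff_dvd' h3).mp h2
    obtain ⟨j, hj⟩ := h6
    exact ⟨j, by rw [mul_comm j a, ← hj]; omega⟩
  obtain ⟨j, hj⟩ := h5
  rw [hj]
  exact h4 j

/-- Eventually periodic with period `d` in the second coordinate. -/
def Per {M : Type} (S : Set (M × ℕ)) (d : ℕ) : Prop :=
  ∀ x : M, ∃ K, ∀ m ≥ K, ((x, m) ∈ S ↔ (x, m + d) ∈ S)

theorem Per.mul {M : Type} {S : Set (M × ℕ)} {d : ℕ} (h : Per S d) (e : ℕ) : Per S (d * e) := by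
  intro x
  obtain ⟨K, hK⟩ := h x
  refine ⟨K, fun m hm => ?_⟩
  induction e with
  | zero => simp
  | succ e ih =>
    rw [ih, hK (m + d * e) (by omega), Nat.mul_succ, add_assoc]

theorem exists_per {M : Type} [AddCommMonoid M] (sz : M →+ ℕ) (hsz : ∀ x, sz x = 0 → x = 0)
    {S : Set (M × ℕ)} (hS : IsSemilinearSet S) : ∃ d, 1 ≤ d ∧ Per S d := by
  obtain ⟨F, hF, hlin, rfl⟩ := hS
  induction F, hF using Set.Finite.induction_on with
  | empty => exact ⟨1, le_rfl, fun x => ⟨0, fun m _ => by simp⟩⟩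
  | @insert t F _ _ ih =>
    obtain ⟨d, hd, hper⟩ := ih (fun u hu => hlin u (mem_insert_of_mem _ hu))
    have ht : ∃ e, 1 ≤ e ∧ Per t e := by
      obtain ⟨c, P, hP, rfl⟩ := hlin t (mem_insert _ _)
      by_cases hex : ∃ a, 1 ≤ a ∧ ((0, a) : M × ℕ) ∈ P
      · obtain ⟨a, ha, haP⟩ := hex
        refine ⟨a, ha, fun x => ?_⟩
        refine ult_of_closed {m | (x, m) ∈ (c +ᵥ (closure P : Set (M × ℕ)))} a ha ?_
        rintro m ⟨s, hs, hsm⟩
        refine ⟨s + (0, a), add_mem hs (subset_closure haP), ?_⟩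
        simp only [vadd_eq_add] at hsm ⊢
        rw [← add_assoc, hsm]
        simp
      · push Not at hex
        refine ⟨1, le_rfl, fun x => ?_⟩
        obtain ⟨B, hB⟩ : ∃ B : ℕ, ∀ p ∈ P, p.2 ≤ B := by
          refine ⟨∑ p ∈ hP.toFinset, p.2, fun p hp => ?_⟩
          exact Finset.single_le_sum (f := fun p : M × ℕ => p.2) (fun _ _ => Nat.zero_le _)
            (hP.mem_toFinset.mpr hp)
        have hP' : ∀ s ∈ closure P, s.2 ≤ B * sz s.1 := by
          intro s hs
          refine closure_induction (motive := fun s _ => s.2 ≤ B * sz s.1) ?_ ?_ ?_ hs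
          · intro p hp
            by_cases h0 : sz p.1 = 0
            · have h1 : p.1 = 0 := hsz _ h0
              have h2 : p.2 = 0 := by
                by_contra hne
                apply hex p.2 (by omega)
                rw [← h1]
                exact hp
              omega
            · have := hB p hp
              nlinarith [Nat.one_le_iff_ne_zero.mpr h0]
          · simp
          · intro a b _ _ ha hb
            simp only [Prod.snd_add, Prod.fst_add, map_add, mul_add]
            omega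
        have hbd : ∀ m, (x, m) ∈ (c +ᵥ (closure P : Set (M × ℕ))) → m ≤ c.2 + B * sz x := by
          rintro m ⟨s, hs, hsm⟩
          simp only [vadd_eq_add] at hsm
          have h1 := hP' s hs
          have h2 : c.1 + s.1 = x := congrArg Prod.fst hsm
          have h3 : c.2 + s.2 = m := congrArg Prod.snd hsm
          have h4 : sz c.1 + sz s.1 = sz x := by rw [← map_add, h2]
          nlinarith
        refine ⟨c.2 + B * sz x + 1, fun m hm => ⟨fun h => ?_, fun h => ?_⟩⟩
        · have := hbd m h; omega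
        · have := hbd _ h; omega
    obtain ⟨e, he, hpere⟩ := ht
    refine ⟨d * e, Nat.mul_pos hd he, fun x => ?_⟩
    obtain ⟨K1, hK1⟩ := hper.mul e x
    obtain ⟨K2, hK2⟩ := hpere.mul d x
    refine ⟨K1 + K2, fun m hm => ?_⟩
    rw [sUnion_insert]
    simp only [mem_union]
    rw [hK1 m (by omega), hK2 m (by omega), mul_comm e d]

end Pool.Agent.Helpers25.Parikh
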