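import Pool.Agent.Helpers25.ParikhB

namespace Pool.Agent.Helpers25.Parikh

open Set Pointwise AddSubmonoid

/-! ### Recognizable sets give regular languages -/

section rec

variable {A : Type} [Finite A] [DecidableEq A]

/-- Reduction of a number. -/
def red (N d n : ℕ) : ℕ := if n < N then n else N + (n - N) % d

theorem red_lt (N d n : ℕ) (hd : 1 ≤ d) : red N d n < N + d := by
  unfold red
  split_ifs
  · omega
  · have := Nat.mod_lt (n - N) hd
    omega

theorem red_add (N d a b : ℕ) : red N d (red N d a + b) = red N d (a + b) := by
  unfold red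
  by_cases h : a < N
  · rw [if_pos h]
  · rw [if_neg h, if_neg (by omega), if_neg (by omega)]
    have h1 : N + (a - N) % d + b - N = (a - N) % d + b := by omega
    have h2 : a + b - N = (a - N) + b := by omega
    rw [h1, h2, Nat.mod_add_mod]

theorem mem_iff_red (S : Set (A → ℕ)) (N d : A → ℕ) (hd : ∀ i, 1 ≤ d i)
    (h : ∀ i (x : A → ℕ), N i ≤ x i → (x ∈ S ↔ x + Pi.single i (d i) ∈ S)) (x : A → ℕ) :
    x ∈ S ↔ (fun i => red (N i) (d i) (x i)) ∈ S := by
  induction hn : tot A x using Nat.strong_induction_on generalizing x with
  | _ n ih =>
    by_cases hx : ∀ i, red (N i) (d i) (x i) = x i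
    · have : (fun i => red (N i) (d i) (x i)) = x := funext hx
      rw [this]
    · push Not at hx
      obtain ⟨i, hi⟩ := hx
      have hNi : N i + d i ≤ x i := by
        by_contra hcon
        apply hi
        unfold red
        split_ifs with h1
        · rfl
        · rw [Nat.mod_eq_of_lt (by omega)]; omega
      let x' : A → ℕ := Function.update x i (x i - d i)
      have hx' : x' + Pi.single i (d i) = x := by
        funext j
        by_cases hj : j = i
        · subst hj; simp [x']; omega
        · simp [x', hj]
      have hlt : tot A x' < n := by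
        rw [← hn, ← hx', map_add]
        have : tot A (Pi.single i (d i)) ≠ 0 := by
          intro h0
          have := congrFun (tot_eq_zero _ h0) i
          have hdi := hd i
          simp at this
          omega
        omega
      have h1 := h i x' (by simp [x']; omega)
      rw [hx'] at h1
      rw [← h1, ih _ hlt x' rfl]
      have h2 : (fun j => red (N j) (d j) (x' j)) = fun j => red (N j) (d j) (x j) := by
        funext j
        by_cases hj : j = i
        · subst hj
          simp only [x', Function.update_self]
          unfold red
          rw [if_neg (by omega), if_neg (by omega)]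
          have : x j - N j = (x j - d j - N j) + d j := by omega
          rw [this, Nat.add_mod_right]
        · simp [x', hj]
      rw [h2]

theorem regular_of_rec (S : Set (A → ℕ)) (N d : A → ℕ) (hd : ∀ i, 1 ≤ d i)
    (h : ∀ i (x : A → ℕ), N i ≤ x i → (x ∈ S ↔ x + Pi.single i (d i) ∈ S)) (L : Language A)
    (hL : ∀ w, w ∈ L ↔ pv w ∈ S) :
    ∃ (σ : Type) (_ : Finite σ) (M : DFA A σ), ∀ w : List A, w ∈ L ↔ w ∈ M.accepts := by
  classical
  letI := Fintype.ofFinite A
  have hfin : Set.Finite (Set.range L.leftQuotient) := by
    let ρ : List A → (∀ i, Fin (N i + d i)) := fun u i =>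
      ⟨red (N i) (d i) (pv u i), red_lt _ _ _ (hd i)⟩
    have hfac : ∀ u v, ρ u = ρ v → L.leftQuotient u = L.leftQuotient v := by
      intro u v huv
      have h1 : ∀ i, red (N i) (d i) (pv u i) = red (N i) (d i) (pv v i) := fun i =>
        congrArg Fin.val (congrFun huv i)
      ext w
      rw [Language.mem_leftQuotient, Language.mem_leftQuotient, hL, hL, pv_append, pv_append,
        mem_iff_red S N d hd h, mem_iff_red S N d hd h (pv v + pv w)]
      have : (fun i => red (N i) (d i) ((pv u + pv w) i)) =
          fun i => red (N i) (d i) ((pv v + pv w) i) := by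
        funext i
        simp only [Pi.add_apply]
        rw [← red_add, h1, red_add]
      rw [this]
    have : Set.range L.leftQuotient ⊆
        (fun r => if hr : ∃ u, ρ u = r then L.leftQuotient hr.choose else L) '' Set.univ := by
      rintro _ ⟨u, rfl⟩
      refine ⟨ρ u, trivial, ?_⟩
      have hex : ∃ v, ρ v = ρ u := ⟨u, rfl⟩
      simp only [dif_pos hex]
      exact hfac _ _ hex.choose_spec
    exact Set.Finite.subset (Set.Finite.image _ Set.finite_univ) this
  obtain ⟨σ, hσ, M, hM⟩ := Language.IsRegular.of_finite_range_leftQuotient hfin
  exact ⟨σ, Finite.of_fintype σ, M, fun w => by rw [hM]⟩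

end rec

end Pool.Agent.Helpers25.Parikh
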