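import Pool.Agent.Helpers25.ParikhC

namespace Pool.Agent.Helpers25.Parikh

open Set Pointwise AddSubmonoid

section lang

variable {A : Type} [Finite A]

theorem exists_word (x : A → ℕ) : ∃ w : List A, pv w = x := by
  classical
  letI := Fintype.ofFinite A
  refine ⟨(∑ a, Multiset.replicate (x a) a).toList, ?_⟩
  funext b
  unfold pv
  rw [← Multiset.coe_count, Multiset.coe_toList, Multiset.count_sum']
  simp [Multiset.count_replicate]

/-- A word with given Parikh vector. -/
noncomputable def wd (x : A → ℕ) : List A := (exists_word x).choose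

theorem pv_wd (x : A → ℕ) : pv (wd x) = x := (exists_word x).choose_spec

/-- The automaton: first a letter `(i, 3)`, then letters `(i, j)` with `j ≠ 3`. -/
def aut : DFA (Bool × Fin 4) (Option (Option Bool)) where
  step s c := match s with
    | none => if c.2 = 3 then some (some c.1) else some none
    | some none => some none
    | some (some i) => if c.1 = i ∧ c.2 ≠ 3 then some (some i) else some none
  start := none
  accept := {s | ∃ i, s = some (some i)}

theorem aut_dead (w : List (Bool × Fin 4)) : aut.evalFrom (some none) w = some none := by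
  induction w with
  | nil => rfl
  | cons c w ih => rw [DFA.evalFrom_cons]; exact ih

theorem aut_mode (i : Bool) (w : List (Bool × Fin 4)) :
    aut.evalFrom (some (some i)) w ∈ aut.accept ↔ ∀ c ∈ w, c.1 = i ∧ c.2 ≠ 3 := by
  induction w with
  | nil => simp [aut]
  | cons c w ih =>
    rw [DFA.evalFrom_cons]
    by_cases h : c.1 = i ∧ c.2 ≠ 3
    · have : aut.step (some (some i)) c = some (some i) := if_pos h
      rw [this, ih]
      simp [h]
    · have : aut.step (some (some i)) c = some none := if_neg h
      rw [this, aut_dead]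
      constructor
      · rintro ⟨j, hj⟩
        simp at hj
      · intro h'
        exact absurd (h' c List.mem_cons_self) h

theorem aut_accepts (w : List (Bool × Fin 4)) :
    w ∈ aut.accepts ↔ ∃ i u, w = (i, 3) :: u ∧ ∀ c ∈ u, c.1 = i ∧ c.2 ≠ 3 := by
  rw [DFA.mem_accepts]
  cases w with
  | nil =>
    constructor
    · rintro ⟨i, hi⟩
      have : (none : Option (Option Bool)) = some (some i) := hi
      simp at this
    · rintro ⟨i, u, h, _⟩
      simp at h
  | cons c w =>
    change aut.evalFrom aut.start (c :: w) ∈ _ ↔ _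
    rw [DFA.evalFrom_cons]
    by_cases h : c.2 = 3
    · have : aut.step aut.start c = some (some c.1) := if_pos h
      rw [this, aut_mode]
      constructor
      · intro h'
        exact ⟨c.1, w, by rw [← h], h'⟩
      · rintro ⟨i, u, hcu, hu⟩
        obtain ⟨rfl, rfl⟩ := List.cons.inj hcu
        exact hu
    · have : aut.step aut.start c = some none := if_neg h
      rw [this, aut_dead]
      constructor
      · rintro ⟨j, hj⟩
        simp at hj
      · rintro ⟨i, u, hcu, _⟩
        obtain ⟨rfl, rfl⟩ := List.cons.inj hcu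
        exact absurd rfl h

variable (z α β γ : A → ℕ)

/-- The Parikh vector of the image of a letter. -/
def gv (c : Bool × Fin 4) : A → ℕ :=
  if c.2 = 3 then z else if c.2 = 2 then γ else
    if (c.2 = 0) = (c.1 = false) then α else β

/-- The morphism `g`. -/
noncomputable def gm (c : Bool × Fin 4) : List A := wd (gv z α β γ c)

/-- The morphism `h`. -/
def hm (c : Bool × Fin 4) : List (Fin 2) :=
  if c.2 = 0 then [0] else if c.2 = 1 then [1] else []

theorem pv_gm (u : List (Bool × Fin 4)) (i : Bool) (hu : ∀ c ∈ u, c.1 = i ∧ c.2 ≠ 3) :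
    ∃ s : ℕ, pv (u.flatMap (gm z α β γ)) =
      (u.flatMap hm).count 0 • (if i = false then α else β) +
      (u.flatMap hm).count 1 • (if i = false then β else α) + s • γ := by
  induction u with
  | nil => exact ⟨0, by simp [pv_nil]⟩
  | cons c u ih =>
    obtain ⟨s, hs⟩ := ih fun c hc => hu c (List.mem_cons_of_mem _ hc)
    obtain ⟨h1, h2⟩ := hu c List.mem_cons_self
    obtain ⟨i', j⟩ := c
    simp only at h1 h2
    subst h1
    rw [List.flatMap_cons, List.flatMap_cons, pv_append, List.count_append, List.count_append, hs,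
      gm, pv_wd]
    fin_cases j
    · refine ⟨s, ?_⟩
      cases i' <;> simp [gv, hm, add_smul] <;> abel
    · refine ⟨s, ?_⟩
      cases i' <;> simp [gv, hm, add_smul] <;> abel
    · refine ⟨s + 1, ?_⟩
      cases i' <;> simp [gv, hm, add_smul] <;> abel
    · exact absurd rfl h2

theorem build (x : List (Fin 2)) (i : Bool) (s : ℕ) :
    ∃ u : List (Bool × Fin 4), (∀ c ∈ u, c.1 = i ∧ c.2 ≠ 3) ∧ u.flatMap hm = x ∧
      pv (u.flatMap (gm z α β γ)) =
      x.count 0 • (if i = false then α else β) +
      x.count 1 • (if i = false then β else α) + s • γ := by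
  induction x with
  | nil =>
    refine ⟨List.replicate s (i, 2), ?_, ?_, ?_⟩
    · intro c hc
      rw [List.eq_of_mem_replicate hc]
      exact ⟨rfl, by change (2 : Fin 4) ≠ 3; decide⟩
    · induction s with
      | zero => rfl
      | succ s ih => rw [List.replicate_succ, List.flatMap_cons, ih]; rfl
    · simp only [List.count_nil, zero_smul, zero_add]
      induction s with
      | zero => simp [pv_nil]
      | succ s ih =>
        rw [List.replicate_succ, List.flatMap_cons, pv_append, ih, gm, pv_wd, succ_nsmul']
        rfl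
  | cons j x ih =>
    obtain ⟨u, hu, hux, hpv⟩ := ih
    refine ⟨(i, if j = 0 then 0 else 1) :: u, ?_, ?_, ?_⟩
    · intro c hc
      rcases List.mem_cons.mp hc with rfl | hc
      · refine ⟨rfl, ?_⟩
        fin_cases j <;> simp
      · exact hu c hc
    · rw [List.flatMap_cons, hux]
      fin_cases j <;> rfl
    · rw [List.flatMap_cons, pv_append, hpv, gm, pv_wd]
      fin_cases j <;> cases i <;> simp [gv, add_smul] <;> abel

theorem lang (S : Set (A → ℕ)) (L : Language A) (hL : ∀ w, w ∈ L ↔ pv w ∈ S)
    (h : ∀ p q : ℕ, p ≠ q ↔ ((∃ s : ℕ, z + (p • α + q • β + s • γ) ∈ S) ∨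
      (∃ s : ℕ, z + (p • β + q • α + s • γ) ∈ S))) :
    ∃ (C : Type) (_ : Finite C) (g : C → List A) (h : C → List (Fin 2))
        (τ : Type) (_ : Finite τ) (M : DFA C τ),
        ∀ x : List (Fin 2),
          (∃ m n : ℕ, m ≠ n ∧ x.Perm (List.replicate m (0 : Fin 2) ++ List.replicate n (1 : Fin 2))) ↔
            ∃ w : List C, w ∈ M.accepts ∧ w.flatMap g ∈ L ∧ w.flatMap h = x := by
  refine ⟨Bool × Fin 4, inferInstance, gm z α β γ, hm, Option (Option Bool), inferInstance, aut,
    fun x => ?_⟩
  have hx : (∃ m n : ℕ, m ≠ n ∧ x.Perm (List.replicate m (0 : Fin 2) ++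
      List.replicate n (1 : Fin 2))) ↔ x.count 0 ≠ x.count 1 := by
    constructor
    · rintro ⟨m, n, hmn, hp⟩
      rw [hp.count_eq, hp.count_eq]
      simpa [List.count_append, List.count_replicate] using hmn
    · intro hne
      refine ⟨x.count 0, x.count 1, hne, ?_⟩
      rw [List.perm_iff_count]
      intro a
      fin_cases a <;> simp [List.count_append, List.count_replicate]
  rw [hx, h]
  constructor
  · rintro (⟨s, hs⟩ | ⟨s, hs⟩)
    · obtain ⟨u, hu, hux, hpv⟩ := build z α β γ x false s
      refine ⟨(false, 3) :: u, (aut_accepts _).mpr ⟨false, u, rfl, hu⟩, ?_, ?_⟩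
      · rw [hL, List.flatMap_cons, pv_append, hpv, gm, pv_wd]
        simpa [gv] using hs
      · rw [List.flatMap_cons, hux]; rfl
    · obtain ⟨u, hu, hux, hpv⟩ := build z α β γ x true s
      refine ⟨(true, 3) :: u, (aut_accepts _).mpr ⟨true, u, rfl, hu⟩, ?_, ?_⟩
      · rw [hL, List.flatMap_cons, pv_append, hpv, gm, pv_wd]
        simpa [gv] using hs
      · rw [List.flatMap_cons, hux]; rfl
  · rintro ⟨w, hw, hwL, hwx⟩
    obtain ⟨i, u, rfl, hu⟩ := (aut_accepts w).mp hw
    obtain ⟨s, hs⟩ := pv_gm z α β γ u i hu
    have hux : u.flatMap hm = x := by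
      rw [List.flatMap_cons] at hwx
      exact hwx
    rw [hL, List.flatMap_cons, pv_append, hs, gm, pv_wd, hux] at hwL
    cases i
    · left
      exact ⟨s, by simpa [gv] using hwL⟩
    · right
      exact ⟨s, by simpa [gv] using hwL⟩

end lang

end Pool.Agent.Helpers25.Parikh
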