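import Pool.Agent.Helpers25.ParikhD

namespace Pool.Agent.Helpers25.Parikh

open Set Pointwise AddSubmonoid

/-- The hom `(n, m) ↦ n • u + m • v`. -/
def lin2 {N : Type} [AddCommMonoid N] (u v : N) : ℕ × ℕ →+ N where
  toFun p := p.1 • u + p.2 • v
  map_zero' := by simp
  map_add' p q := by
    simp only [Prod.fst_add, Prod.snd_add, add_smul]
    abel

/-- Points not in `T` with everything above in `T`. -/
def top (T : Set (ℕ × ℕ)) : Set (ℕ × ℕ) := {p | p ∉ T ∧ ∀ j, (p.1, p.2 + 1 + j) ∈ T}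

theorem semilinear_top {T : Set (ℕ × ℕ)} (hT : IsSemilinearSet T) : IsSemilinearSet (top T) := by
  let f : (ℕ × ℕ) × ℕ →+ ℕ × ℕ :=
    { toFun := fun p => (p.1.1, p.1.2 + p.2)
      map_zero' := by simp
      map_add' := fun p q => by
        ext
        · simp
        · simp only [Prod.snd_add, Prod.fst_add]; ring }
  have h1 : IsSemilinearSet {p : (ℕ × ℕ) × ℕ | ((0, 1) : ℕ × ℕ) + f p ∈ Tᶜ} :=
    affine_preimage hT.compl (0, 1) f
  have h2 := (h1.image (AddMonoidHom.fst (ℕ × ℕ) ℕ)).compl.inter hT.compl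
  convert h2 using 1
  ext p
  constructor
  · rintro ⟨h3, h4⟩
    refine ⟨?_, h3⟩
    rintro ⟨⟨p', j⟩, hj, hp⟩
    have hp' : p' = p := hp
    subst hp'
    apply hj
    have h5 := h4 j
    have h6 : ((0, 1) : ℕ × ℕ) + f (p', j) = (p'.1, p'.2 + 1 + j) := by
      ext
      · simp [f]
      · simp [f]; ring
    rw [h6]
    exact h5
  · rintro ⟨h3, h4⟩
    refine ⟨h4, fun j => ?_⟩
    by_contra hcon
    apply h3
    refine ⟨(p, j), ?_, rfl⟩
    have h6 : ((0, 1) : ℕ × ℕ) + f (p, j) = (p.1, p.2 + 1 + j) := by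
      ext
      · simp [f]
      · simp [f]; ring
    change ((0, 1) : ℕ × ℕ) + f (p, j) ∈ Tᶜ
    rw [h6]
    exact hcon

/-- A ray on the top boundary. -/
theorem ray_top {T : Set (ℕ × ℕ)} (hT : IsSemilinearSet T)
    (hunb : ∀ B : ℕ, ∃ p ∈ top T, B < p.2) :
    ∃ n0 m0 k l : ℕ, 1 ≤ l ∧ ∀ t : ℕ, (n0 + t * k, m0 + t * l) ∉ T ∧
      ∀ m, m0 + t * l < m → (n0 + t * k, m) ∈ T := by
  obtain ⟨y, v, hv, h⟩ := exists_ray (semilinear_top hT) (AddMonoidHom.snd ℕ ℕ) hunb
  refine ⟨y.1, y.2, v.1, v.2, hv, fun t => ?_⟩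
  obtain ⟨h1, h2⟩ := h t
  refine ⟨h1, fun m hm => ?_⟩
  have h3 := h2 (m - (y.2 + t * v.2) - 1)
  have h4 : ((y + t • v).1, (y + t • v).2 + 1 + (m - (y.2 + t * v.2) - 1)) =
      (y.1 + t * v.1, m) := by
    ext
    · simp
    · simp; omega
  rw [h4] at h3
  exact h3

theorem final (A : Type) [Finite A] (L : Language A)
    (h1 : ∃ (σ : Type) (_ : Finite σ) (M : DFA A σ),
          ∀ w : List A, w ∈ L ↔ ∃ v : List A, v ∈ M.accepts ∧ w.Perm v)
    (h2 : ¬ ∃ (σ : Type) (_ : Finite σ) (M : DFA A σ),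
          ∀ w : List A, w ∈ L ↔ w ∈ M.accepts) :
      ∃ (C : Type) (_ : Finite C) (g : C → List A) (h : C → List (Fin 2))
        (τ : Type) (_ : Finite τ) (M : DFA C τ),
        ∀ x : List (Fin 2),
          (∃ m n : ℕ, m ≠ n ∧ x.Perm (List.replicate m (0 : Fin 2) ++ List.replicate n (1 : Fin 2))) ↔
            ∃ w : List C, w ∈ M.accepts ∧ w.flatMap g ∈ L ∧ w.flatMap h = x := by
  classical
  letI := Fintype.ofFinite A
  obtain ⟨σ, hσ, M, hM⟩ := h1
  set S : Set (A → ℕ) := {x | ∃ v ∈ M.accepts, pv v = x} with hSdef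
  have hS : IsSemilinearSet S := parikh M
  have hL : ∀ w, w ∈ L ↔ pv w ∈ S := by
    intro w
    rw [hM]
    constructor
    · rintro ⟨v, hv, hp⟩
      exact ⟨v, hv, funext fun a => (hp.count_eq a).symm⟩
    · rintro ⟨v, hv, hp⟩
      exact ⟨v, hv, (List.perm_iff_count.mpr fun a => congrFun hp a).symm⟩
  -- the universal periods
  have hper : ∀ i : A, ∃ d, 1 ≤ d ∧ ∀ x : A → ℕ, ∃ K, ∀ m ≥ K,
      (x + m • Pi.single i 1 ∈ S ↔ x + (m + d) • Pi.single i 1 ∈ S) := by
    intro i
    let f : (A → ℕ) × ℕ →+ (A → ℕ) :=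
      { toFun := fun p => p.1 + p.2 • Pi.single i 1
        map_zero' := by simp
        map_add' := fun p q => by
          simp only [Prod.fst_add, Prod.snd_add, add_smul]
          abel }
    obtain ⟨d, hd, hp⟩ := exists_per (tot A) tot_eq_zero (hS.preimage f)
    exact ⟨d, hd, fun x => hp x⟩
  choose d hd hper using hper
  have hsingle : ∀ i, (Pi.single i (d i) : A → ℕ) = d i • Pi.single i 1 := by
    intro i
    rw [← Pi.single_smul]; simp
  -- some direction has unboundedly many changes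
  obtain ⟨i, hi⟩ : ∃ i, ∀ N : ℕ, ∃ x : A → ℕ, N < x i ∧
      ¬ (x ∈ S ↔ x + Pi.single i (d i) ∈ S) := by
    by_contra hcon
    push Not at hcon
    choose N hN using hcon
    apply h2
    refine regular_of_rec S (fun i => N i + 1) d hd (fun i x hx => ?_) L hL
    have := hN i x (by omega)
    tauto
  set C : Set (A → ℕ) := {x | ¬ (x ∈ S ↔ x ∈ {x | d i • (Pi.single i 1 : A → ℕ) + x ∈ S})} with hC
  have hCs : IsSemilinearSet C :=
    semilinear_xor hS (affine_preimage hS (d i • (Pi.single i 1 : A → ℕ)) (AddMonoidHom.id _))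
  obtain ⟨y, v, hv, hray⟩ := exists_ray hCs (Pi.evalAddMonoidHom (fun _ => ℕ) i) (by
    intro B
    obtain ⟨x, hx, hxS⟩ := hi B
    refine ⟨x, ?_, hx⟩
    intro hcon
    apply hxS
    rw [hsingle, add_comm]
    exact hcon)
  have hvi : 1 ≤ v i := hv
  -- the planar section
  let e : A → ℕ := Pi.single i 1
  let v' : A → ℕ := d i • Function.update v i 0
  let T : Set (ℕ × ℕ) := {p | y + lin2 v' (d i • e) p ∈ S}
  have hT : IsSemilinearSet T := affine_preimage hS y (lin2 v' (d i • e))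
  have hvv : ∀ n : ℕ, y + (n * d i) • v = y + lin2 v' (d i • e) (n, n * v i) := by
    intro n
    funext j
    by_cases hj : j = i
    · subst hj
      simp [lin2, v', e]
      ring
    · simp [lin2, v', e, hj]
      ring
  have hchange : ∀ n : ℕ, ¬ ((n, n * v i) ∈ T ↔ (n, n * v i + 1) ∈ T) := by
    intro n hcon
    have h3 := hray (n * d i)
    apply h3
    have h4 : (n, n * v i) ∈ T ↔ y + (n * d i) • v ∈ S := by
      rw [hvv]; rfl
    have h5 : (n, n * v i + 1) ∈ T ↔ d i • (Pi.single i 1 : A → ℕ) + (y + (n * d i) • v) ∈ S := by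
      rw [hvv]
      have : y + lin2 v' (d i • e) (n, n * v i + 1) =
          d i • (Pi.single i 1 : A → ℕ) + (y + lin2 v' (d i • e) (n, n * v i)) := by
        simp only [lin2, AddMonoidHom.coe_mk, ZeroHom.coe_mk, add_smul, one_smul, e]
        abel
      rw [← this]; rfl
    rw [h4, h5] at hcon
    exact hcon
  have hconst : ∀ n : ℕ, ∃ K, ∀ m ≥ K, ((n, m) ∈ T ↔ (n, m + 1) ∈ T) := by
    intro n
    obtain ⟨K, hK⟩ := hper i (y + n • v')
    refine ⟨K, fun m hm => ?_⟩
    have h3 := hK (m * d i) (le_trans hm (Nat.le_mul_of_pos_right m (hd i)))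
    have h4 : ∀ m : ℕ, (n, m) ∈ T ↔ y + n • v' + (m * d i) • (Pi.single i 1 : A → ℕ) ∈ S := by
      intro m
      have : y + lin2 v' (d i • e) (n, m) =
          y + n • v' + (m * d i) • (Pi.single i 1 : A → ℕ) := by
        simp only [lin2, AddMonoidHom.coe_mk, ZeroHom.coe_mk, e, mul_smul]
        abel
      rw [← this]; rfl
    rw [h4, h4, h3, Nat.succ_mul]
  -- the last change
  have hlast : ∀ n : ℕ, ∃ m, n * v i ≤ m ∧ ((n, m) ∈ top T ∨ (n, m) ∈ top Tᶜ) := by
    intro n
    obtain ⟨K, hK⟩ := hconst n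
    have hex : ∃ m, m ≤ n * v i + K + 1 ∧ n * v i ≤ m ∧ ¬ ((n, m) ∈ T ↔ (n, m + 1) ∈ T) :=
      ⟨n * v i, by omega, le_rfl, hchange n⟩
    have hbd : ∃ m, (n * v i ≤ m ∧ ¬ ((n, m) ∈ T ↔ (n, m + 1) ∈ T)) ∧
        ∀ m' > m, ((n, m') ∈ T ↔ (n, m' + 1) ∈ T) := by
      let F : Finset ℕ := (Finset.range (n * v i + K + 2)).filter
        fun m => n * v i ≤ m ∧ ¬ ((n, m) ∈ T ↔ (n, m + 1) ∈ T)
      have hF : F.Nonempty := by
        obtain ⟨m, h3, h4⟩ := hex
        exact ⟨m, Finset.mem_filter.mpr ⟨Finset.mem_range.mpr (by omega), h4⟩⟩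
      refine ⟨F.max' hF, (Finset.mem_filter.mp (F.max'_mem hF)).2, fun m' hm' => ?_⟩
      by_contra hcon
      have h5 := (Finset.mem_filter.mp (F.max'_mem hF)).2.1
      have h6 : m' < K := by
        by_contra h7
        exact hcon (hK m' (by omega))
      have h7 : m' ∈ F := Finset.mem_filter.mpr ⟨Finset.mem_range.mpr (by omega), by omega, hcon⟩
      have := F.le_max' m' h7
      omega
    obtain ⟨m, ⟨h3, h4⟩, h5⟩ := hbd
    have h6 : ∀ j, ((n, m + 1) ∈ T ↔ (n, m + 1 + j) ∈ T) := by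
      intro j
      induction j with
      | zero => rfl
      | succ j ih => rw [ih]; exact h5 _ (by omega)
    refine ⟨m, h3, ?_⟩
    by_cases h7 : (n, m) ∈ T
    · right
      refine ⟨by simpa using h7, fun j => ?_⟩
      simp only [mem_compl_iff]
      rw [← h6]
      tauto
    · left
      refine ⟨h7, fun j => ?_⟩
      rw [← h6]
      tauto
  have hcases : (∀ B : ℕ, ∃ p ∈ top T, B < p.2) ∨ (∀ B : ℕ, ∃ p ∈ top Tᶜ, B < p.2) := by
    by_contra hcon
    push Not at hcon
    obtain ⟨⟨B1, hB1⟩, ⟨B2, hB2⟩⟩ := hcon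
    obtain ⟨m, hm, h3⟩ := hlast (B1 + B2 + 1)
    have h4 : B1 + B2 + 1 ≤ m := le_trans (Nat.le_mul_of_pos_right _ hvi) hm
    rcases h3 with h3 | h3
    · have := hB1 _ h3; simp only at this; omega
    · have := hB2 _ h3; simp only at this; omega
  rcases hcases with hc | hc
  · -- above the ray everything is in `T`, the ray is not
    obtain ⟨n0, m0, k, l, hl, hray⟩ := ray_top hT hc
    apply lang (y + (n0 • v' + m0 • (d i • e))) (k • v' + (l + 1) • (d i • e))
      (k • v' + (l - 1) • (d i • e)) 0 S L hL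
    have key : ∀ p q s : ℕ, (y + (n0 • v' + m0 • (d i • e)) + (p • (k • v' + (l + 1) • (d i • e)) +
        q • (k • v' + (l - 1) • (d i • e)) + s • 0) ∈ S ↔
        (n0 + (p + q) * k, m0 + ((l + 1) * p + (l - 1) * q)) ∈ T) := by
      intro p q s
      have : y + lin2 v' (d i • e) (n0 + (p + q) * k, m0 + ((l + 1) * p + (l - 1) * q)) =
        y + (n0 • v' + m0 • (d i • e)) + (p • (k • v' + (l + 1) • (d i • e)) +
        q • (k • v' + (l - 1) • (d i • e)) + s • 0) := by
        funext j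
        simp [lin2]
        ring
      rw [← this]; rfl
    have key2 : ∀ p q : ℕ, q < p →
        (n0 + (p + q) * k, m0 + ((l + 1) * p + (l - 1) * q)) ∈ T := by
      intro p q hpq
      apply (hray (p + q)).2
      obtain ⟨l', rfl⟩ : ∃ l', l = l' + 1 := ⟨l - 1, by omega⟩
      simp only [Nat.add_sub_cancel]
      nlinarith
    have key3 : ∀ p : ℕ, (n0 + (p + p) * k, m0 + ((l + 1) * p + (l - 1) * p)) ∉ T := by
      intro p
      have h3 := (hray (p + p)).1
      obtain ⟨l', rfl⟩ : ∃ l', l = l' + 1 := ⟨l - 1, by omega⟩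
      have h4 : m0 + ((l' + 1 + 1) * p + (l' + 1 - 1) * p) = m0 + (p + p) * (l' + 1) := by
        simp only [Nat.add_sub_cancel]; ring
      rw [h4]; exact h3
    intro p q
    have hswap : ∀ s : ℕ, p • (k • v' + (l - 1) • (d i • e)) + q • (k • v' + (l + 1) • (d i • e)) +
        s • (0 : A → ℕ) = q • (k • v' + (l + 1) • (d i • e)) + p • (k • v' + (l - 1) • (d i • e)) +
        s • (0 : A → ℕ) := by
      intro s; abel
    simp only [hswap, key]
    constructor
    · intro hne
      rcases Nat.lt_or_gt_of_ne hne with hlt | hgt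
      · right; exact ⟨0, key2 q p hlt⟩
      · left; exact ⟨0, key2 p q hgt⟩
    · rintro (⟨_, h⟩ | ⟨_, h⟩) rfl
      · exact key3 p h
      · exact key3 p h
  · -- above the ray nothing is in `T`, the ray is
    obtain ⟨n0, m0, k, l, hl, hray⟩ := ray_top hT.compl hc
    simp only [mem_compl_iff, not_not] at hray
    apply lang (y + (n0 • v' + (m0 + l) • (d i • e))) (k • v') (l • (d i • e)) (d i • e) S L hL
    have key : ∀ p q s : ℕ, (y + (n0 • v' + (m0 + l) • (d i • e)) + (p • (k • v') +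
        q • (l • (d i • e)) + s • (d i • e)) ∈ S ↔
        (n0 + p * k, m0 + l + q * l + s) ∈ T) := by
      intro p q s
      have : y + lin2 v' (d i • e) (n0 + p * k, m0 + l + q * l + s) =
        y + (n0 • v' + (m0 + l) • (d i • e)) + (p • (k • v') +
        q • (l • (d i • e)) + s • (d i • e)) := by
        funext j
        simp [lin2]
        ring
      rw [← this]; rfl
    have key2 : ∀ p q : ℕ, (∃ s, (n0 + p * k, m0 + l + q * l + s) ∈ T) ↔ q < p := by
      intro p q
      constructor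
      · rintro ⟨s, hs⟩
        by_contra hcon
        apply (hray p).2 _ _ hs
        nlinarith
      · intro hqp
        refine ⟨p * l - (q + 1) * l, ?_⟩
        have h3 : (q + 1) * l ≤ p * l := Nat.mul_le_mul_right l hqp
        have h4 : m0 + l + q * l + (p * l - (q + 1) * l) = m0 + p * l := by
          have : (q + 1) * l = l + q * l := by ring
          omega
        rw [h4]
        exact (hray p).1
    intro p q
    have hswap : ∀ s : ℕ, p • (l • (d i • e)) + q • (k • v') + s • (d i • e) =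
        q • (k • v') + p • (l • (d i • e)) + s • (d i • e) := by
      intro s; abel
    simp only [hswap, key, key2]
    omega

end Pool.Agent.Helpers25.Parikh
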