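import Mathlib

/-! Trigonometric and harmonic sum lemmas for log-correlated random polynomials. -/

namespace Pool.Agent.Helpers25.RM

open Finset Real

/-- Abel summation for `cos (k α + β) / k`. -/
lemma abel_cos (α β : ℝ) (hs : sin (α / 2) ≠ 0) (A B : ℕ) (hAB : A ≤ B) :
    |∑ k ∈ Ioc A B, cos (k * α + β) / k| ≤ 1 / (|sin (α / 2)| * (A + 1)) := by
  set s := |sin (α / 2)| with hsdef
  have hspos : 0 < s := abs_pos.mpr hs
  set T : ℕ → ℝ := fun k => sin ((k + 1 / 2) * α + β) / (2 * sin (α / 2)) with hT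
  have hTb : ∀ k, |T k| ≤ 1 / (2 * s) := by
    intro k
    rw [hT]
    simp only
    rw [abs_div, abs_mul, abs_two]
    apply div_le_div_of_nonneg_right (abs_sin_le_one _) (by positivity)
  have hcos : ∀ k : ℕ, cos (((k + 1 : ℕ) : ℝ) * α + β) = T (k + 1) - T k := by
    intro k
    rw [hT]
    simp only
    rw [← sub_div, eq_div_iff (by simpa using hs)]
    have e1 : sin ((((k + 1 : ℕ) : ℝ) + 1 / 2) * α + β) =
        sin ((((k + 1 : ℕ) : ℝ) * α + β) + α / 2) := by congr 1; ring
    have e2 : sin (((k : ℝ) + 1 / 2) * α + β) =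
        sin ((((k + 1 : ℕ) : ℝ) * α + β) - α / 2) := by congr 1; push_cast; ring
    rw [e1, e2, sin_add, sin_sub]
    ring
  have key : ∀ B, A ≤ B →
      |(∑ k ∈ Ioc A B, cos (k * α + β) / k) - T B / (B + 1)| ≤
        1 / (2 * s) * (2 / (A + 1) - 1 / (B + 1)) := by
    intro B hB
    induction B, hB using Nat.le_induction with
    | base =>
      simp only [Finset.Ioc_self, Finset.sum_empty, zero_sub, abs_neg]
      rw [abs_div, abs_of_pos (by positivity : (0 : ℝ) < (A : ℝ) + 1)]
      have := hTb A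
      have h2 : (2 / ((A : ℝ) + 1) - 1 / (A + 1)) = 1 / (A + 1) := by ring
      rw [h2, mul_one_div]
      exact div_le_div_of_nonneg_right this (by positivity)
    | succ B hB ih =>
      rw [← Finset.insert_Ioc_right_eq_Ioc_add_one (by omega), Finset.sum_insert (by simp)]
      rw [hcos B]
      have e : (T (B + 1) - T B) / ((B + 1 : ℕ) : ℝ) +
          (∑ k ∈ Ioc A B, cos (k * α + β) / k) - T (B + 1) / (((B + 1 : ℕ) : ℝ) + 1) =
          ((∑ k ∈ Ioc A B, cos (k * α + β) / k) - T B / (B + 1)) +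
            T (B + 1) * (1 / ((B : ℝ) + 1) - 1 / ((B : ℝ) + 2)) := by
        push_cast
        have h1 : (B : ℝ) + 1 ≠ 0 := by positivity
        have h2 : (B : ℝ) + 2 ≠ 0 := by positivity
        have h3 : (B : ℝ) + 1 + 1 ≠ 0 := by positivity
        generalize (∑ k ∈ Ioc A B, cos (k * α + β) / k) = S
        field_simp
        ring
      rw [e]
      have hpos : 0 ≤ 1 / ((B : ℝ) + 1) - 1 / ((B : ℝ) + 2) := by
        rw [sub_nonneg]
        apply one_div_le_one_div_of_le (by positivity) (by linarith)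
      calc _ ≤ |(∑ k ∈ Ioc A B, cos (k * α + β) / k) - T B / (B + 1)| +
            |T (B + 1) * (1 / ((B : ℝ) + 1) - 1 / ((B : ℝ) + 2))| := abs_add_le _ _
        _ ≤ 1 / (2 * s) * (2 / (A + 1) - 1 / (B + 1)) +
            1 / (2 * s) * (1 / ((B : ℝ) + 1) - 1 / ((B : ℝ) + 2)) := by
            rw [abs_mul, abs_of_nonneg hpos]
            exact add_le_add ih (mul_le_mul_of_nonneg_right (hTb _) hpos)
        _ = _ := by push_cast; ring
  have h1 := key B hAB
  have h2 : |T B / (B + 1)| ≤ 1 / (2 * s) * (1 / (B + 1)) := by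
    rw [abs_div, abs_of_pos (by positivity : (0 : ℝ) < (B : ℝ) + 1), mul_one_div]
    exact div_le_div_of_nonneg_right (hTb B) (by positivity)
  calc |∑ k ∈ Ioc A B, cos (k * α + β) / k|
      = |((∑ k ∈ Ioc A B, cos (k * α + β) / k) - T B / (B + 1)) + T B / (B + 1)| := by
        rw [sub_add_cancel]
    _ ≤ _ := abs_add_le _ _
    _ ≤ 1 / (2 * s) * (2 / (A + 1) - 1 / (B + 1)) + 1 / (2 * s) * (1 / (B + 1)) :=
        add_le_add h1 h2
    _ = 1 / (s * (A + 1)) := by
        have h1 : (A : ℝ) + 1 ≠ 0 := by positivity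
        have h2 : (B : ℝ) + 1 ≠ 0 := by positivity
        field_simp
        ring

/-- `∑_{k ≤ n} 1/k ≤ 1 + log n`. -/
lemma sum_Ioc_le (n : ℕ) : ∑ k ∈ Ioc 0 n, 1 / (k : ℝ) ≤ 1 + log n := by
  have h := harmonic_le_one_add_log n
  rw [harmonic_eq_sum_Icc] at h
  push_cast at h
  have e : Ioc 0 n = Icc 1 n := by ext k; simp; omega
  rw [e]
  simpa [one_div] using h

lemma le_sum_Ioc (n : ℕ) : log n ≤ ∑ k ∈ Ioc 0 n, 1 / (k : ℝ) := by
  rcases Nat.eq_zero_or_pos n with rfl | hn
  · simp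
  have h := log_add_one_le_harmonic n
  rw [harmonic_eq_sum_Icc] at h
  push_cast at h
  have e : Ioc 0 n = Icc 1 n := by ext k; simp; omega
  rw [e]
  have : log n ≤ log ((n : ℝ) + 1) := by
    apply log_le_log (by exact_mod_cast hn) (by linarith)
  simp only [one_div]
  linarith

/-- `∑_{m < k ≤ n} 1/k`. -/
noncomputable def hh (m n : ℕ) : ℝ := ∑ k ∈ Ioc m n, 1 / (k : ℝ)

lemma hh_nonneg (m n : ℕ) : 0 ≤ hh m n := Finset.sum_nonneg (fun _ _ => by positivity)

lemma hh_self (m : ℕ) : hh m m = 0 := by simp [hh]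

lemma hh_add {a b c : ℕ} (h1 : a ≤ b) (h2 : b ≤ c) : hh a b + hh b c = hh a c := by
  unfold hh
  exact Finset.sum_Ioc_consecutive _ h1 h2

lemma hh_le_log {m n : ℕ} (hm : 0 < m) (hmn : m ≤ n) : hh m n ≤ log (n / m) := by
  induction n, hmn using Nat.le_induction with
  | base => simp [hh_self]
  | succ n hn ih =>
    have hn0 : (0 : ℝ) < n := by exact_mod_cast (lt_of_lt_of_le hm hn)
    have hm0 : (0 : ℝ) < m := by exact_mod_cast hm
    rw [← hh_add hn (Nat.le_succ n)]
    have e : hh n (n + 1) = 1 / ((n : ℝ) + 1) := by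
      unfold hh
      rw [← Finset.insert_Ioc_right_eq_Ioc_add_one (by omega)]
      simp
    rw [e]
    have h1 : log (((n + 1 : ℕ) : ℝ) / m) = log ((n : ℝ) / m) + log (((n : ℝ) + 1) / n) := by
      rw [← log_mul (by positivity) (by positivity)]
      congr 1
      push_cast
      field_simp
    rw [h1]
    have h2 : 1 / ((n : ℝ) + 1) ≤ log (((n : ℝ) + 1) / n) := by
      have h3 : log ((n : ℝ) / (n + 1)) ≤ (n : ℝ) / (n + 1) - 1 :=
        log_le_sub_one_of_pos (by positivity)
      have h4 : log (((n : ℝ) + 1) / n) = - log ((n : ℝ) / (n + 1)) := by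
        rw [← log_inv, inv_div]
      rw [h4]
      have h5 : (n : ℝ) / (n + 1) - 1 = - (1 / ((n : ℝ) + 1)) := by field_simp; ring
      linarith
    linarith

lemma hh_lower {m n : ℕ} (hm : 0 < m) (hmn : m ≤ n) : log n - log m - 1 ≤ hh m n := by
  have h1 := hh_add (Nat.zero_le m) hmn
  have h2 : hh 0 m ≤ 1 + log m := sum_Ioc_le m
  have h3 : log n ≤ hh 0 n := le_sum_Ioc n
  linarith

/-- a dyadic block has harmonic mass at least `1/2`. -/
lemma hh_dyadic {j i : ℕ} (hji : j ≤ i) : ((i : ℝ) - j) / 2 ≤ hh (2 ^ j) (2 ^ i) := by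
  induction i, hji using Nat.le_induction with
  | base => simp [hh_self]
  | succ i hi ih =>
    rw [← hh_add (Nat.pow_le_pow_right (by norm_num) hi)
      (Nat.pow_le_pow_right (by norm_num) (Nat.le_succ i))]
    have : (1 : ℝ) / 2 ≤ hh (2 ^ i) (2 ^ (i + 1)) := by
      unfold hh
      calc (1 : ℝ) / 2 = ∑ k ∈ Ioc (2 ^ i) (2 ^ (i + 1)), 1 / (2 ^ (i + 1) : ℝ) := by
            rw [Finset.sum_const, Nat.card_Ioc, nsmul_eq_mul, Nat.cast_sub
              (Nat.pow_le_pow_right (by norm_num) (Nat.le_succ i))]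
            push_cast
            rw [pow_succ]
            field_simp
            ring
        _ ≤ _ := by
            apply Finset.sum_le_sum
            intro k hk
            rw [Finset.mem_Ioc] at hk
            have hk0 : (0 : ℝ) < k := by
              exact_mod_cast (lt_of_le_of_lt (Nat.zero_le _) hk.1)
            apply one_div_le_one_div_of_le hk0
            exact_mod_cast hk.2
    push_cast
    linarith

/-- upper bound, valid for all `A ≤ B`. -/
lemma sum_cos_le (α β : ℝ) (hs : sin (α / 2) ≠ 0) (A B : ℕ) :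
    ∑ k ∈ Ioc A B, cos (k * α + β) / k ≤ 2 + log (1 / |sin (α / 2)|) := by
  set s := |sin (α / 2)| with hsdef
  have hspos : 0 < s := abs_pos.mpr hs
  have hs1 : s ≤ 1 := abs_sin_le_one _
  have h1s : 1 ≤ 1 / s := by rw [le_div_iff₀ hspos]; linarith
  have hlog : 0 ≤ log (1 / s) := log_nonneg h1s
  set m := ⌊1 / s⌋₊ with hm
  have hm1 : 1 ≤ m := by rw [hm, Nat.one_le_floor_iff]; exact h1s
  have hmle : (m : ℝ) ≤ 1 / s := Nat.floor_le (by positivity)
  have hmlt : 1 / s < m + 1 := Nat.lt_floor_add_one _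
  -- bound for the part up to m
  have part1 : ∀ C, C ≤ m → ∑ k ∈ Ioc A C, cos (k * α + β) / k ≤ 1 + log (1 / s) := by
    intro C hC
    calc ∑ k ∈ Ioc A C, cos (k * α + β) / k ≤ ∑ k ∈ Ioc A C, 1 / (k : ℝ) := by
          apply Finset.sum_le_sum
          intro k _
          exact div_le_div_of_nonneg_right (cos_le_one _) (by positivity)
      _ ≤ ∑ k ∈ Ioc 0 m, 1 / (k : ℝ) := by
          apply Finset.sum_le_sum_of_subset_of_nonneg
          · intro k hk
            simp only [Finset.mem_Ioc] at hk ⊢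
            omega
          · intro k _ _
            positivity
      _ ≤ 1 + log m := sum_Ioc_le m
      _ ≤ 1 + log (1 / s) := by
          have : log m ≤ log (1 / s) := log_le_log (by exact_mod_cast hm1) hmle
          linarith
  have part2 : ∀ C, m ≤ C → C ≤ B → ∑ k ∈ Ioc C B, cos (k * α + β) / k ≤ 1 := by
    intro C hmC hCB
    have h := (abs_le.mp (abel_cos α β hs C B hCB)).2
    refine h.trans ?_
    rw [div_le_one (by positivity)]
    have h3 : (m : ℝ) ≤ C := by exact_mod_cast hmC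
    have h4 : 1 < (m + 1) * s := by rwa [div_lt_iff₀ hspos] at hmlt
    have : (m + 1) * s ≤ (C + 1) * s := by
      apply mul_le_mul_of_nonneg_right _ hspos.le
      linarith
    linarith [mul_comm s ((C : ℝ) + 1)]
  rcases le_total B m with hBm | hmB
  · have := part1 B hBm
    linarith
  · rcases le_total A m with hAm | hmA
    · rw [← Finset.sum_Ioc_consecutive _ hAm hmB]
      have h1 := part1 m le_rfl
      have h2 := part2 m le_rfl hmB
      linarith
    · rcases le_total A B with hAB | hBA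
      · have h2 := part2 A hmA hAB
        linarith
      · rw [Finset.Ioc_eq_empty (by omega)]
        simp only [Finset.sum_empty]
        linarith

/-- lower bound for the sine on `[1,2]`. -/
lemma half_le_sin {x : ℝ} (h1 : 1 ≤ x) (h2 : x ≤ 2) : 1 / 2 ≤ sin x := by
  have hpi3 := pi_gt_three
  have hpi4 := pi_lt_four
  rcases le_total x (π / 2) with h | h
  · have := mul_le_sin (by linarith : 0 ≤ x) h
    have h3 : 1 / 2 ≤ 2 / π * x := by
      rw [div_mul_eq_mul_div, le_div_iff₀ pi_pos]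
      linarith
    linarith
  · rw [← sin_pi_sub]
    have hx : π - x ≤ π / 2 := by linarith
    have := mul_le_sin (by linarith : 0 ≤ π - x) hx
    have h3 : 1 / 2 ≤ 2 / π * (π - x) := by
      rw [div_mul_eq_mul_div, le_div_iff₀ pi_pos]
      have := pi_gt_d2
      linarith
    linarith

/-- Jordan for small angles: `|τ|/4 ≤ |sin (τ/2)|` for `|τ| ≤ 1`. -/
lemma quarter_le_sin {τ : ℝ} (h : |τ| ≤ 1) : |τ| / 4 ≤ |sin (τ / 2)| := by
  have hpi4 := pi_lt_four
  have hpi3 := pi_gt_three
  have key : ∀ x : ℝ, 0 ≤ x → x ≤ 1 → x / 4 ≤ sin (x / 2) := by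
    intro x h0 h1
    have := mul_le_sin (by linarith : 0 ≤ x / 2) (by linarith)
    refine le_trans ?_ this
    rw [div_mul_eq_mul_div, le_div_iff₀ pi_pos]
    nlinarith
  rcases le_total 0 τ with h0 | h0
  · rw [abs_of_nonneg h0] at h ⊢
    exact (key τ h0 h).trans (le_abs_self _)
  · rw [abs_of_nonpos h0] at h ⊢
    have := key (-τ) (by linarith) h
    have e : sin (-τ / 2) = - sin (τ / 2) := by rw [neg_div, sin_neg]
    rw [e] at this
    exact this.trans (neg_le_abs _)

/-- `∑_{1 ≤ d ≤ D} d^{κ-1} ≤ D^κ / κ`. -/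
lemma sum_rpow_le {κ : ℝ} (h0 : 0 < κ) (h1 : κ ≤ 1) (D : ℕ) :
    ∑ d ∈ Ioc 0 D, (d : ℝ) ^ (κ - 1) ≤ (D : ℝ) ^ κ / κ := by
  induction D with
  | zero => simp [zero_rpow h0.ne']
  | succ D ih =>
    rw [← Finset.insert_Ioc_right_eq_Ioc_add_one (by omega), Finset.sum_insert (by simp)]
    have hD : (0 : ℝ) < ((D + 1 : ℕ) : ℝ) := by positivity
    have key : (D : ℝ) ^ κ ≤ ((D + 1 : ℕ) : ℝ) ^ κ - κ * ((D + 1 : ℕ) : ℝ) ^ (κ - 1) := by
      have e : (D : ℝ) = ((D + 1 : ℕ) : ℝ) * (1 + (-(1 / ((D + 1 : ℕ) : ℝ)))) := by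
        push_cast
        field_simp
        ring
      have hle : 1 / ((D + 1 : ℕ) : ℝ) ≤ 1 := by
        rw [div_le_one hD]
        push_cast
        linarith [(Nat.cast_nonneg D : (0 : ℝ) ≤ D)]
      have hB := rpow_one_add_le_one_add_mul_self (s := -(1 / ((D + 1 : ℕ) : ℝ)))
        (by linarith) h0.le h1
      calc (D : ℝ) ^ κ = ((D + 1 : ℕ) : ℝ) ^ κ * (1 + (-(1 / ((D + 1 : ℕ) : ℝ)))) ^ κ := by
            rw [← mul_rpow hD.le (by linarith), ← e]
        _ ≤ ((D + 1 : ℕ) : ℝ) ^ κ * (1 + κ * (-(1 / ((D + 1 : ℕ) : ℝ)))) := by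
            apply mul_le_mul_of_nonneg_left hB (by positivity)
        _ = _ := by
            rw [rpow_sub_one hD.ne']
            ring
    have : (D : ℝ) ^ κ / κ ≤ (((D + 1 : ℕ) : ℝ) ^ κ - κ * ((D + 1 : ℕ) : ℝ) ^ (κ - 1)) / κ :=
      div_le_div_of_nonneg_right key h0.le
    have e2 : (((D + 1 : ℕ) : ℝ) ^ κ - κ * ((D + 1 : ℕ) : ℝ) ^ (κ - 1)) / κ =
        ((D + 1 : ℕ) : ℝ) ^ κ / κ - ((D + 1 : ℕ) : ℝ) ^ (κ - 1) := by
      field_simp
    linarith

/-- `(i - j) + (j - i)`: the distance of natural numbers. -/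
lemma sum_dist_le (f : ℕ → ℝ) (hf : ∀ d, 0 ≤ f d) (n i : ℕ) (hi : i < n) :
    ∑ j ∈ range n, f ((i - j) + (j - i)) ≤ 2 * ∑ d ∈ range n, f d := by
  have h1 : ∑ j ∈ range n, f ((i - j) + (j - i)) =
      ∑ j ∈ range (i + 1), f ((i - j) + (j - i)) +
        ∑ j ∈ Ico (i + 1) n, f ((i - j) + (j - i)) := by
    rw [Finset.range_eq_Ico, Finset.range_eq_Ico, Finset.sum_Ico_consecutive _ (by omega) (by omega)]
  have h2 : ∑ j ∈ range (i + 1), f ((i - j) + (j - i)) = ∑ j ∈ range (i + 1), f j := by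
    rw [← Finset.sum_range_reflect]
    apply Finset.sum_congr rfl
    intro j hj
    rw [Finset.mem_range] at hj
    congr 1
    omega
  have h3 : ∑ j ∈ Ico (i + 1) n, f ((i - j) + (j - i)) = ∑ l ∈ range (n - (i + 1)), f (l + 1) := by
    rw [Finset.sum_Ico_eq_sum_range]
    apply Finset.sum_congr rfl
    intro j hj
    congr 1
    omega
  have h4 : ∑ j ∈ range (i + 1), f j ≤ ∑ d ∈ range n, f d := by
    apply Finset.sum_le_sum_of_subset_of_nonneg
    · intro k hk; simp only [Finset.mem_range] at hk ⊢; omega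
    · intro k _ _; exact hf k
  have h5 : ∑ l ∈ range (n - (i + 1)), f (l + 1) ≤ ∑ d ∈ range n, f d := by
    have : ∑ l ∈ range (n - (i + 1)), f (l + 1) ≤ ∑ l ∈ range (n - (i + 1) + 1), f l := by
      rw [Finset.sum_range_succ']
      linarith [hf 0]
    refine this.trans ?_
    apply Finset.sum_le_sum_of_subset_of_nonneg
    · intro k hk; simp only [Finset.mem_range] at hk ⊢; omega
    · intro k _ _; exact hf k
  linarith

/-- sum of the cosecant over the shifted grid. -/
lemma sum_csc_le (N' : ℕ) (hN : 0 < N') :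
    ∑ j ∈ range (2 * N'), 1 / |sin ((2 * j + 1) * π / (2 * N'))| ≤
      4 * N' * (1 + log N') := by
  have hN0 : (0 : ℝ) < N' := by exact_mod_cast hN
  set f : ℕ → ℝ := fun j => 1 / |sin ((2 * j + 1) * π / (2 * N'))| with hf
  have hsplit : ∑ j ∈ range (2 * N'), f j =
      ∑ j ∈ range N', f j + ∑ j ∈ range N', f (N' + j) := by
    rw [two_mul, Finset.sum_range_add]
  have hper : ∀ j, f (N' + j) = f j := by
    intro j
    simp only [hf]
    have : (2 * ((N' + j : ℕ) : ℝ) + 1) * π / (2 * N') = (2 * j + 1) * π / (2 * N') + π := by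
      push_cast
      field_simp
      ring
    rw [this, sin_add_pi, abs_neg]
  have hbd : ∀ j ∈ range N', f j ≤ N' * (1 / ((j : ℝ) + 1)) +
      N' * (1 / (((N' - 1 - j : ℕ) : ℝ) + 1)) := by
    intro j hj
    rw [Finset.mem_range] at hj
    have hjN : (j : ℝ) + 1 ≤ N' := by exact_mod_cast hj
    set x := (2 * (j : ℝ) + 1) * π / (2 * N') with hx
    have hx0 : 0 < x := by positivity
    have hj0 : (0 : ℝ) ≤ j := Nat.cast_nonneg j
    have hxpi : x < π := by
      rw [hx, div_lt_iff₀ (by positivity)]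
      have := pi_pos
      nlinarith
    have hcast : (((N' - 1 - j : ℕ) : ℝ)) = N' - 1 - j := by
      rw [Nat.cast_sub (by omega), Nat.cast_sub (by omega)]
      simp
    have hspos : 0 < sin x := sin_pos_of_pos_of_lt_pi hx0 hxpi
    simp only [hf]
    rw [abs_of_pos hspos]
    have hA : 0 ≤ N' * (1 / ((j : ℝ) + 1)) := by positivity
    have hB : 0 ≤ N' * (1 / (((N' - 1 - j : ℕ) : ℝ) + 1)) := by positivity
    rcases le_total x (π / 2) with h | h
    · have h1 := mul_le_sin hx0.le h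
      have h2 : 2 / π * x = (2 * j + 1) / N' := by
        rw [hx]; field_simp
      have h3 : ((j : ℝ) + 1) / N' ≤ sin x := by
        rw [h2] at h1
        refine le_trans ?_ h1
        apply div_le_div_of_nonneg_right _ hN0.le
        linarith
      have h4 : 1 / sin x ≤ N' * (1 / ((j : ℝ) + 1)) := by
        calc 1 / sin x ≤ 1 / (((j : ℝ) + 1) / N') :=
              one_div_le_one_div_of_le (by positivity) h3
          _ = _ := by field_simp
      linarith
    · have h1 := mul_le_sin (by linarith : 0 ≤ π - x) (by linarith)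
      rw [sin_pi_sub] at h1
      have h2 : 2 / π * (π - x) = (2 * (N' - 1 - j) + 1) / N' := by
        rw [hx]; field_simp; ring
      have h3 : (((N' - 1 - j : ℕ) : ℝ) + 1) / N' ≤ sin x := by
        rw [h2] at h1
        refine le_trans ?_ h1
        apply div_le_div_of_nonneg_right _ hN0.le
        rw [hcast]
        linarith
      have h4 : 1 / sin x ≤ N' * (1 / (((N' - 1 - j : ℕ) : ℝ) + 1)) := by
        calc 1 / sin x ≤ 1 / ((((N' - 1 - j : ℕ) : ℝ) + 1) / N') :=
              one_div_le_one_div_of_le (by positivity) h3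
          _ = _ := by field_simp
      linarith
  have hH : ∑ j ∈ range N', 1 / ((j : ℝ) + 1) ≤ 1 + log N' := by
    have := sum_Ioc_le N'
    have e : ∑ k ∈ Ioc 0 N', 1 / (k : ℝ) = ∑ j ∈ range N', 1 / ((j : ℝ) + 1) := by
      rw [Finset.sum_bij' (fun k _ => k - 1) (fun j _ => j + 1)]
      · intro a ha; simp only [Finset.mem_Ioc] at ha; simp only [Finset.mem_range]; omega
      · intro a ha; simp only [Finset.mem_range] at ha; simp only [Finset.mem_Ioc]; omega
      · intro a ha; simp only [Finset.mem_Ioc] at ha; omega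
      · intro a ha; simp
      · intro a ha
        simp only [Finset.mem_Ioc] at ha
        rw [Nat.cast_sub (by omega)]
        simp
    linarith
  have hR : ∑ j ∈ range N', 1 / ((((N' - 1 - j : ℕ)) : ℝ) + 1) = ∑ j ∈ range N', 1 / ((j : ℝ) + 1) :=
    Finset.sum_range_reflect (fun j => 1 / ((j : ℝ) + 1)) N'
  have hone : ∑ j ∈ range N', f j ≤ 2 * (N' * (1 + log N')) := by
    calc ∑ j ∈ range N', f j ≤ ∑ j ∈ range N', (N' * (1 / ((j : ℝ) + 1)) +
          N' * (1 / (((N' - 1 - j : ℕ) : ℝ) + 1))) := Finset.sum_le_sum hbd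
      _ = N' * ∑ j ∈ range N', 1 / ((j : ℝ) + 1) + N' * ∑ j ∈ range N', 1 / ((j : ℝ) + 1) := by
          rw [Finset.sum_add_distrib, ← Finset.mul_sum, ← Finset.mul_sum, hR]
      _ ≤ _ := by nlinarith
  rw [hsplit]
  simp only [hper]
  linarith

end Pool.Agent.Helpers25.RM
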