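import Mathlib
import Pool.Agent.Helpers25.RMTrig

/-! Moment generating function bounds. -/

namespace Pool.Agent.Helpers25.RM

open Finset MeasureTheory ProbabilityTheory

lemma exp_taylor (y : ℝ) : |Real.exp y - 1 - y - y ^ 2 / 2| ≤ |y| ^ 3 * Real.exp |y| := by
  have h := Complex.norm_exp_sub_sum_le_norm_mul_exp (y : ℂ) 3
  rw [Complex.norm_real] at h
  have e : Complex.exp (y : ℂ) - ∑ m ∈ range 3, (y : ℂ) ^ m / (m.factorial : ℂ) =
      ((Real.exp y - 1 - y - y ^ 2 / 2 : ℝ) : ℂ) := by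
    simp only [Finset.sum_range_succ, Finset.sum_range_zero]
    push_cast
    simp [Nat.factorial]
    ring
  rw [e, Complex.norm_real] at h
  exact h

variable {Ω : Type*} [MeasurableSpace Ω] {μ : Measure Ω} [IsProbabilityMeasure μ]

theorem mgf_bounds {X : Ω → ℝ} (hX : Measurable X)
    {c : ℝ} (hc : 0 < c) (hint : Integrable (fun ω => Real.exp (c * |X ω|)) μ)
    (h1 : ∫ ω, X ω ∂μ = 0) (h2 : ∫ ω, X ω ^ 2 ∂μ = 1) :
    ∃ t0 > 0, ∃ C1 ≥ 0, ∀ t : ℝ, |t| ≤ t0 → Integrable (fun ω => Real.exp (t * X ω)) μ ∧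
      Real.exp (t ^ 2 / 2 - C1 * |t| ^ 3) ≤ ∫ ω, Real.exp (t * X ω) ∂μ ∧
      ∫ ω, Real.exp (t * X ω) ∂μ ≤ Real.exp (t ^ 2 / 2 + C1 * |t| ^ 3) := by
  set E := ∫ ω, Real.exp (c * |X ω|) ∂μ with hE
  set A : ℝ := 48 / c ^ 3 with hA
  have hA0 : 0 < A := by positivity
  have hE0 : 0 ≤ E := integral_nonneg (fun ω => (Real.exp_pos _).le)
  set K : ℝ := A * E with hK
  have hK0 : 0 ≤ K := by positivity
  -- integrability of X and X^2
  have hXi : Integrable X μ := by
    refine Integrable.mono' (hint.const_mul (1 / c)) hX.aestronglyMeasurable ?_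
    filter_upwards with ω
    rw [Real.norm_eq_abs]
    have := Real.add_one_le_exp (c * |X ω|)
    rw [div_mul_eq_mul_div, le_div_iff₀ hc]
    linarith
  have hX2i : Integrable (fun ω => X ω ^ 2) μ := by
    refine Integrable.mono' (hint.const_mul (2 / c ^ 2)) (hX.pow_const 2).aestronglyMeasurable ?_
    filter_upwards with ω
    rw [Real.norm_eq_abs, abs_of_nonneg (sq_nonneg _)]
    have := Real.pow_div_factorial_le_exp (x := c * |X ω|) (by positivity) 2
    rw [div_mul_eq_mul_div, le_div_iff₀ (by positivity)]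
    have h3 : (c * |X ω|) ^ 2 = X ω ^ 2 * c ^ 2 := by rw [mul_pow, sq_abs]; ring
    rw [h3] at this
    norm_num [Nat.factorial] at this
    linarith
  refine ⟨min (min 1 (c / 2)) (1 / (K + 1)), by positivity, K + 1, by positivity, ?_⟩
  intro t ht
  have ht1 : |t| ≤ 1 := ht.trans ((min_le_left _ _).trans (min_le_left _ _))
  have htc : |t| ≤ c / 2 := ht.trans ((min_le_left _ _).trans (min_le_right _ _))
  have htK : |t| ≤ 1 / (K + 1) := ht.trans (min_le_right _ _)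
  have hti : Integrable (fun ω => Real.exp (t * X ω)) μ := by
    refine Integrable.mono' hint (by fun_prop) ?_
    filter_upwards with ω
    rw [Real.norm_eq_abs, abs_of_pos (Real.exp_pos _)]
    apply Real.exp_le_exp.mpr
    calc t * X ω ≤ |t * X ω| := le_abs_self _
      _ = |t| * |X ω| := abs_mul _ _
      _ ≤ c * |X ω| := mul_le_mul_of_nonneg_right (by linarith) (abs_nonneg _)
  have hpt : ∀ ω, |Real.exp (t * X ω) - 1 - t * X ω - (t * X ω) ^ 2 / 2| ≤
      |t| ^ 3 * (A * Real.exp (c * |X ω|)) := by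
    intro ω
    refine (exp_taylor _).trans ?_
    set x := |X ω| with hx
    have hx0 : 0 ≤ x := abs_nonneg _
    have h3 : x ^ 3 ≤ A * Real.exp (c / 2 * x) := by
      have := Real.pow_div_factorial_le_exp (x := c / 2 * x) (by positivity) 3
      norm_num [Nat.factorial] at this
      rw [hA]
      have h4 : (c / 2 * x) ^ 3 / 6 * (48 / c ^ 3) = x ^ 3 := by
        field_simp
        ring
      calc x ^ 3 = (c / 2 * x) ^ 3 / 6 * (48 / c ^ 3) := h4.symm
        _ ≤ Real.exp (c / 2 * x) * (48 / c ^ 3) := mul_le_mul_of_nonneg_right this (by positivity)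
        _ = _ := by ring
    have h5 : Real.exp |t * X ω| ≤ Real.exp (c / 2 * x) := by
      apply Real.exp_le_exp.mpr
      rw [abs_mul]
      exact mul_le_mul_of_nonneg_right htc hx0
    have h6 : |t * X ω| ^ 3 = |t| ^ 3 * x ^ 3 := by rw [abs_mul, mul_pow]
    rw [h6]
    have h7 : Real.exp (c * x) = Real.exp (c / 2 * x) * Real.exp (c / 2 * x) := by
      rw [← Real.exp_add]; congr 1; ring
    rw [h7]
    calc |t| ^ 3 * x ^ 3 * Real.exp |t * X ω|
        ≤ |t| ^ 3 * (A * Real.exp (c / 2 * x)) * Real.exp (c / 2 * x) := by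
          apply mul_le_mul _ h5 (Real.exp_pos _).le (by positivity)
          exact mul_le_mul_of_nonneg_left h3 (by positivity)
      _ = _ := by ring
  have hrem : |∫ ω, Real.exp (t * X ω) ∂μ - 1 - t ^ 2 / 2| ≤ K * |t| ^ 3 := by
    have hi1 : Integrable (fun ω => Real.exp (t * X ω) - 1 - t * X ω - (t * X ω) ^ 2 / 2) μ := by
      have : (fun ω => Real.exp (t * X ω) - 1 - t * X ω - (t * X ω) ^ 2 / 2) =
          (fun ω => Real.exp (t * X ω) - 1 - t * X ω - t ^ 2 / 2 * (X ω) ^ 2) := by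
        funext ω; ring
      rw [this]
      exact ((hti.sub (integrable_const 1)).sub (hXi.const_mul t)).sub (hX2i.const_mul _)
    have e : ∫ ω, (Real.exp (t * X ω) - 1 - t * X ω - (t * X ω) ^ 2 / 2) ∂μ =
        ∫ ω, Real.exp (t * X ω) ∂μ - 1 - t ^ 2 / 2 := by
      have e1 : (fun ω => Real.exp (t * X ω) - 1 - t * X ω - (t * X ω) ^ 2 / 2) =
          (fun ω => Real.exp (t * X ω) - 1 - t * X ω - t ^ 2 / 2 * (X ω) ^ 2) := by
        funext ω; ring
      have q1 : ∫ ω, (Real.exp (t * X ω) - 1) ∂μ = ∫ ω, Real.exp (t * X ω) ∂μ - 1 := by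
        rw [integral_sub hti (integrable_const 1)]
        simp
      have q2 : ∫ ω, (Real.exp (t * X ω) - 1 - t * X ω) ∂μ = ∫ ω, Real.exp (t * X ω) ∂μ - 1 := by
        have := integral_sub (hti.sub (integrable_const 1)) (hXi.const_mul t)
        simp only [Pi.sub_apply] at this
        rw [this, q1, integral_const_mul, h1]
        ring
      have q3 := integral_sub ((hti.sub (integrable_const 1)).sub (hXi.const_mul t))
        (hX2i.const_mul (t ^ 2 / 2))
      simp only [Pi.sub_apply] at q3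
      rw [e1, q3, q2, integral_const_mul, h2]
      ring
    rw [← e]
    calc |∫ ω, (Real.exp (t * X ω) - 1 - t * X ω - (t * X ω) ^ 2 / 2) ∂μ|
        ≤ ∫ ω, |Real.exp (t * X ω) - 1 - t * X ω - (t * X ω) ^ 2 / 2| ∂μ :=
          abs_integral_le_integral_abs
      _ ≤ ∫ ω, |t| ^ 3 * (A * Real.exp (c * |X ω|)) ∂μ :=
          integral_mono hi1.abs ((hint.const_mul A).const_mul _) hpt
      _ = K * |t| ^ 3 := by
          rw [integral_const_mul, integral_const_mul, hK, hE]; ring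
  refine ⟨hti, ?_, ?_⟩
  · -- lower bound
    set v := t ^ 2 / 2 - (K + 1) * |t| ^ 3 with hv
    have h3 : (K + 1) * |t| ≤ 1 := by
      rw [le_div_iff₀ (by positivity)] at htK
      linarith
    have ht2 : t ^ 2 = |t| ^ 2 := (sq_abs t).symm
    have ht0 : 0 ≤ |t| := abs_nonneg t
    have hKt : (K + 1) * |t| ^ 3 ≤ |t| ^ 2 := by
      calc (K + 1) * |t| ^ 3 = ((K + 1) * |t|) * |t| ^ 2 := by ring
        _ ≤ 1 * |t| ^ 2 := mul_le_mul_of_nonneg_right h3 (by positivity)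
        _ = |t| ^ 2 := one_mul _
    have hKt0 : 0 ≤ (K + 1) * |t| ^ 3 := by positivity
    have hvabs : |v| ≤ |t| ^ 2 := by
      rw [abs_le]
      constructor
      · rw [hv, ht2]; nlinarith [sq_nonneg |t|]
      · rw [hv, ht2]; nlinarith [sq_nonneg |t|]
    have hv1 : |v| ≤ 1 := hvabs.trans (by nlinarith)
    have hexp : Real.exp v ≤ 1 + v + v ^ 2 := by
      have := Real.abs_exp_sub_one_sub_id_le hv1
      have := (abs_le.mp this).2
      linarith
    have hv2 : v ^ 2 ≤ |t| ^ 3 := by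
      have : v ^ 2 ≤ (|t| ^ 2) ^ 2 := by
        rw [← sq_abs v]
        exact pow_le_pow_left₀ (abs_nonneg _) hvabs 2
      have h4 : (|t| ^ 2) ^ 2 = |t| ^ 3 * |t| := by ring
      have h5 : |t| ^ 3 * |t| ≤ |t| ^ 3 * 1 := mul_le_mul_of_nonneg_left ht1 (by positivity)
      linarith
    have hlow := (abs_le.mp hrem).1
    have : v = t ^ 2 / 2 - K * |t| ^ 3 - |t| ^ 3 := by rw [hv]; ring
    linarith
  · have hup := (abs_le.mp hrem).2
    have h4 := Real.add_one_le_exp (t ^ 2 / 2 + (K + 1) * |t| ^ 3)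
    have h5 : 0 ≤ |t| ^ 3 := by positivity
    nlinarith

lemma sum_inv_sqrt_cube {m n : ℕ} (hm : 0 < m) (hmn : m ≤ n) :
    ∑ k ∈ Ioc m n, (1 / √(k : ℝ)) ^ 3 ≤ 2 / √(m : ℝ) - 2 / √(n : ℝ) := by
  induction n, hmn using Nat.le_induction with
  | base => simp
  | succ n hn ih =>
    rw [← Finset.insert_Ioc_right_eq_Ioc_add_one (by omega), Finset.sum_insert (by simp)]
    have hn0 : (0 : ℝ) < n := by exact_mod_cast (lt_of_lt_of_le hm hn)
    set a := √(n : ℝ) with ha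
    set b := √(((n + 1 : ℕ) : ℝ)) with hb
    have ha0 : 0 < a := Real.sqrt_pos.mpr hn0
    have hb0 : 0 < b := Real.sqrt_pos.mpr (by positivity)
    have hab : a ≤ b := Real.sqrt_le_sqrt (by push_cast; linarith)
    have ha2 : a ^ 2 = n := Real.sq_sqrt hn0.le
    have hb2 : b ^ 2 = n + 1 := by rw [hb, Real.sq_sqrt (by positivity)]; push_cast; ring
    have hdiff : (b - a) * (b + a) = 1 := by nlinarith
    have key : (1 / b) ^ 3 ≤ 2 / a - 2 / b := by
      have e : 2 / a - 2 / b = 2 / (a * b * (a + b)) := by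
        rw [div_sub_div _ _ ha0.ne' hb0.ne', div_eq_div_iff (by positivity) (by positivity)]
        have : (b - a) = 1 / (b + a) := by
          rw [eq_div_iff (by positivity)]; exact hdiff
        have h7 : 2 * b - a * 2 = 2 * (b - a) := by ring
        calc (2 * b - a * 2) * (a * b * (a + b)) = 2 * ((b - a) * (b + a)) * (a * b) := by ring
          _ = 2 * (a * b) := by rw [hdiff]; ring
      rw [e, one_div, inv_pow, ← one_div]
      rw [div_le_div_iff₀ (by positivity) (by positivity)]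
      nlinarith [mul_pos ha0 hb0, mul_le_mul_of_nonneg_right hab hb0.le,
        mul_le_mul hab hab ha0.le hb0.le, mul_le_mul_of_nonneg_left hab (mul_pos ha0 hb0).le,
        mul_nonneg hb0.le (mul_nonneg (sub_nonneg.mpr hab) (add_pos hb0 ha0).le)]
    linarith

/-- `∑_{m0<k≤n} b_k ξ_k / √k`. -/
noncomputable def SS (ξ : ℕ → Ω → ℝ) (m0 n : ℕ) (b : ℕ → ℝ) (ω : Ω) : ℝ :=
  ∑ k ∈ Ioc m0 n, b k * (ξ k ω / √(k : ℝ))

/-- `∑_{m0<k≤n} b_k / k`. -/
noncomputable def TT (m0 n : ℕ) (b : ℕ → ℝ) : ℝ := ∑ k ∈ Ioc m0 n, b k / (k : ℝ)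

/-- the only property of the coefficients that is used. -/
def GoodFam (μ : Measure Ω) (ξ : ℕ → Ω → ℝ) : Prop :=
  ∀ r > 0, ∃ m1 : ℕ, ∀ m0 ≥ m1, ∀ n, ∀ b : ℕ → ℝ, (∀ k, |b k| ≤ 6) →
    Integrable (fun ω => Real.exp (SS ξ m0 n b ω)) μ ∧
    Real.exp (TT m0 n (fun k => b k ^ 2) / 2 - r) ≤ ∫ ω, Real.exp (SS ξ m0 n b ω) ∂μ ∧
    ∫ ω, Real.exp (SS ξ m0 n b ω) ∂μ ≤ Real.exp (TT m0 n (fun k => b k ^ 2) / 2 + r)

theorem goodFam_of_iid {ξ : ℕ → Ω → ℝ} (hm : ∀ k, Measurable (ξ (k + 1)))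
    (hind : iIndepFun (fun k => ξ (k + 1)) μ)
    (hid : ∀ k, IdentDistrib (ξ (k + 1)) (ξ 1) μ μ)
    {c : ℝ} (hc : 0 < c) (hint : Integrable (fun ω => Real.exp (c * |ξ 1 ω|)) μ)
    (h1 : ∫ ω, ξ 1 ω ∂μ = 0) (h2 : ∫ ω, ξ 1 ω ^ 2 ∂μ = 1) : GoodFam μ ξ := by
  obtain ⟨t0, ht0, C1, hC1, hb⟩ := mgf_bounds (hm 0) hc hint h1 h2
  have hbk : ∀ k, 1 ≤ k → ∀ t : ℝ, |t| ≤ t0 → Integrable (fun ω => Real.exp (t * ξ k ω)) μ ∧
      Real.exp (t ^ 2 / 2 - C1 * |t| ^ 3) ≤ ∫ ω, Real.exp (t * ξ k ω) ∂μ ∧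
      ∫ ω, Real.exp (t * ξ k ω) ∂μ ≤ Real.exp (t ^ 2 / 2 + C1 * |t| ^ 3) := by
    intro k hk t ht
    have hmeas : Measurable (fun x : ℝ => Real.exp (t * x)) := by fun_prop
    have hidk : IdentDistrib (ξ k) (ξ 1) μ μ := by
      obtain ⟨k', rfl⟩ : ∃ k', k = k' + 1 := ⟨k - 1, by omega⟩
      exact hid k'
    have hI : IdentDistrib (fun ω => Real.exp (t * ξ k ω)) (fun ω => Real.exp (t * ξ 1 ω)) μ μ :=
      hidk.comp hmeas
    obtain ⟨i1, i2, i3⟩ := hb t ht
    refine ⟨hI.integrable_iff.mpr i1, ?_, ?_⟩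
    · rw [hI.integral_eq]; exact i2
    · rw [hI.integral_eq]; exact i3
  intro r hr
  obtain ⟨m1, hm1⟩ := exists_nat_gt (max ((6 / t0) ^ 2) ((432 * C1 / r) ^ 2))
  refine ⟨m1 + 1, ?_⟩
  intro m0 hm0 n b hb6
  have hm0r : (m1 : ℝ) + 1 ≤ m0 := by exact_mod_cast hm0
  have hm0pos : (0 : ℝ) < m0 := by
    have : (0 : ℝ) ≤ m1 := Nat.cast_nonneg _
    linarith
  have hm0n : 0 < m0 := by exact_mod_cast hm0pos
  set a : ℕ → ℝ := fun k => b k / √(k : ℝ) with ha
  have hsq : 6 / t0 ≤ √(m0 : ℝ) := by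
    apply Real.le_sqrt_of_sq_le
    have := (le_max_left _ _).trans_lt hm1
    linarith
  have hsq2 : 432 * C1 / r ≤ √(m0 : ℝ) := by
    apply Real.le_sqrt_of_sq_le
    have := (le_max_right _ _).trans_lt hm1
    linarith
  have hsm : 0 < √(m0 : ℝ) := Real.sqrt_pos.mpr hm0pos
  have hat : ∀ k ∈ Ioc m0 n, |a k| ≤ t0 := by
    intro k hk
    rw [Finset.mem_Ioc] at hk
    have hk0 : (0 : ℝ) < k := by exact_mod_cast (lt_trans hm0n hk.1)
    have hsk : √(m0 : ℝ) ≤ √(k : ℝ) := Real.sqrt_le_sqrt (by exact_mod_cast hk.1.le)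
    have hskp : 0 < √(k : ℝ) := Real.sqrt_pos.mpr hk0
    rw [ha]
    simp only
    rw [abs_div, abs_of_pos hskp, div_le_iff₀ hskp]
    calc |b k| ≤ 6 := hb6 k
      _ = t0 * (6 / t0) := by field_simp
      _ ≤ t0 * √(k : ℝ) := mul_le_mul_of_nonneg_left (hsq.trans hsk) ht0.le
  have hcube : C1 * ∑ k ∈ Ioc m0 n, |a k| ^ 3 ≤ r := by
    rcases le_total m0 n with hmn | hmn
    · have h3 : ∑ k ∈ Ioc m0 n, |a k| ^ 3 ≤ 216 * ∑ k ∈ Ioc m0 n, (1 / √(k : ℝ)) ^ 3 := by
        rw [Finset.mul_sum]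
        apply Finset.sum_le_sum
        intro k hk
        rw [ha]
        simp only
        rw [abs_div, abs_of_nonneg (Real.sqrt_nonneg _), div_pow, div_pow, one_pow]
        rw [mul_one_div]
        apply div_le_div_of_nonneg_right _ (by positivity)
        calc |b k| ^ 3 ≤ 6 ^ 3 := pow_le_pow_left₀ (abs_nonneg _) (hb6 k) 3
          _ = 216 := by norm_num
      have h4 := sum_inv_sqrt_cube hm0n hmn
      have h5 : 0 ≤ 2 / √(n : ℝ) := by positivity
      have h6 : ∑ k ∈ Ioc m0 n, |a k| ^ 3 ≤ 432 / √(m0 : ℝ) := by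
        have : (432 : ℝ) / √(m0 : ℝ) = 216 * (2 / √(m0 : ℝ)) := by ring
        rw [this]
        nlinarith
      calc C1 * ∑ k ∈ Ioc m0 n, |a k| ^ 3 ≤ C1 * (432 / √(m0 : ℝ)) :=
            mul_le_mul_of_nonneg_left h6 hC1
        _ = (432 * C1) / √(m0 : ℝ) := by ring
        _ ≤ r := by
            rw [div_le_iff₀ hsm]
            rw [div_le_iff₀ hr] at hsq2
            linarith
    · rw [Finset.Ioc_eq_empty (by omega)]
      simp [hr.le]
  -- identify the sums
  have hSS : ∀ ω, SS ξ m0 n b ω = ∑ k ∈ Ioc m0 n, a k * ξ k ω := by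
    intro ω
    unfold SS
    apply Finset.sum_congr rfl
    intro k _
    rw [ha]
    simp only
    ring
  have hTT : TT m0 n (fun k => b k ^ 2) = ∑ k ∈ Ioc m0 n, a k ^ 2 := by
    unfold TT
    apply Finset.sum_congr rfl
    intro k _
    rw [ha]
    simp only
    rw [div_pow, Real.sq_sqrt (Nat.cast_nonneg k)]
  set X : ℕ → Ω → ℝ := fun k ω => a (k + 1) * ξ (k + 1) ω with hX
  have hXind : iIndepFun X μ := hind.comp (fun k x => a (k + 1) * x) (fun k => by fun_prop)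
  have hXm : ∀ k, Measurable (X k) := fun k => (hm k).const_mul _
  have hIoc : Ioc m0 n = Ico (m0 + 1) (n + 1) := by
    ext k; simp only [Finset.mem_Ioc, Finset.mem_Ico]; omega
  have hsumX : ∀ ω, SS ξ m0 n b ω = (∑ k ∈ Ico m0 n, X k) ω := by
    intro ω
    rw [hSS, Finset.sum_apply, hIoc, ← Finset.sum_Ico_add']
  have hmgf := hXind.mgf_sum (t := 1) hXm (Ico m0 n)
  have hexpSS : (∫ ω, Real.exp (SS ξ m0 n b ω) ∂μ) = ∏ k ∈ Ioc m0 n, ∫ ω, Real.exp (a k * ξ k ω) ∂μ := by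
    have e1 : (∫ ω, Real.exp (SS ξ m0 n b ω) ∂μ) = mgf (∑ k ∈ Ico m0 n, X k) μ 1 := by
      unfold mgf
      congr 1
      funext ω
      simp only [hsumX, one_mul]
    rw [e1, hmgf, hIoc, ← Finset.prod_Ico_add']
    apply Finset.prod_congr rfl
    intro k _
    unfold mgf
    congr 1
    funext ω
    simp only [one_mul, hX]
  refine ⟨?_, ?_, ?_⟩
  · have := hXind.integrable_exp_mul_sum (t := 1) hXm (s := Ico m0 n) (by
      intro k hk
      simp only [one_mul, hX]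
      have hk' : k + 1 ∈ Ioc m0 n := by
        rw [Finset.mem_Ico] at hk
        rw [Finset.mem_Ioc]
        omega
      exact (hbk (k + 1) (by omega) (a (k + 1)) (hat (k + 1) hk')).1)
    refine this.congr ?_
    filter_upwards with ω
    rw [hsumX, one_mul]
  · rw [hexpSS, hTT]
    calc Real.exp ((∑ k ∈ Ioc m0 n, a k ^ 2) / 2 - r)
        ≤ Real.exp (∑ k ∈ Ioc m0 n, (a k ^ 2 / 2 - C1 * |a k| ^ 3)) := by
          apply Real.exp_le_exp.mpr
          rw [Finset.sum_sub_distrib, ← Finset.mul_sum, ← Finset.sum_div]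
          linarith
      _ = ∏ k ∈ Ioc m0 n, Real.exp (a k ^ 2 / 2 - C1 * |a k| ^ 3) := Real.exp_sum _ _
      _ ≤ _ := by
          apply Finset.prod_le_prod
          · intro k _; exact (Real.exp_pos _).le
          · intro k hk
            exact (hbk k (by rw [Finset.mem_Ioc] at hk; omega) (a k) (hat k hk)).2.1
  · rw [hexpSS, hTT]
    calc _ ≤ ∏ k ∈ Ioc m0 n, Real.exp (a k ^ 2 / 2 + C1 * |a k| ^ 3) := by
          apply Finset.prod_le_prod
          · intro k _; exact integral_nonneg (fun ω => (Real.exp_pos _).le)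
          · intro k hk
            exact (hbk k (by rw [Finset.mem_Ioc] at hk; omega) (a k) (hat k hk)).2.2
      _ = Real.exp (∑ k ∈ Ioc m0 n, (a k ^ 2 / 2 + C1 * |a k| ^ 3)) := (Real.exp_sum _ _).symm
      _ ≤ _ := by
          apply Real.exp_le_exp.mpr
          rw [Finset.sum_add_distrib, ← Finset.mul_sum, ← Finset.sum_div]
          linarith

end Pool.Agent.Helpers25.RM
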