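import Mathlib

/-! A sampling inequality for polynomials on the unit circle and a finite net of directions. -/

namespace Pool.Agent.Helpers25.RM

open Finset Complex

/-- orthogonality on a rotated grid of `N`-th roots of unity. -/
lemma orth {N : ℕ} (hN : 0 < N) {ζ u : ℂ} (hζ : IsPrimitiveRoot ζ N) (hu : ‖u‖ = 1)
    {p q : ℕ} (hp : p < N) (hq : q < N) :
    ∑ j ∈ range N, (u * ζ ^ j) ^ p * (starRingEnd ℂ (u * ζ ^ j)) ^ q =
      if p = q then (N : ℂ) else 0 := by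
  have hζ1 : ‖ζ‖ = 1 := hζ.norm'_eq_one hN.ne'
  have huu : u * starRingEnd ℂ u = 1 := by
    rw [mul_conj, normSq_eq_norm_sq, hu]; simp
  have hzz : ζ * starRingEnd ℂ ζ = 1 := by
    rw [mul_conj, normSq_eq_norm_sq, hζ1]; simp
  split_ifs with hpq
  · subst hpq
    have : ∀ j ∈ range N, (u * ζ ^ j) ^ p * (starRingEnd ℂ (u * ζ ^ j)) ^ p = 1 := by
      intro j _
      rw [← mul_pow]
      have : (u * ζ ^ j) * (starRingEnd ℂ (u * ζ ^ j)) = 1 := by
        rw [map_mul, map_pow]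
        calc u * ζ ^ j * (starRingEnd ℂ u * starRingEnd ℂ ζ ^ j)
            = (u * starRingEnd ℂ u) * (ζ * starRingEnd ℂ ζ) ^ j := by rw [mul_pow]; ring
          _ = 1 := by rw [huu, hzz]; simp
      rw [this, one_pow]
    rw [Finset.sum_congr rfl this]
    simp
  · set ρ := ζ ^ p * (starRingEnd ℂ ζ) ^ q with hρ
    have hρN : ρ ^ N = 1 := by
      rw [hρ, mul_pow, ← pow_mul, ← pow_mul, mul_comm p N, mul_comm q N, pow_mul, pow_mul,
        ← map_pow, hζ.pow_eq_one]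
      simp
    have hρ1 : ρ ≠ 1 := by
      intro h
      have h2 : ρ * ζ ^ q = ζ ^ p := by
        rw [hρ, mul_assoc, ← mul_pow, mul_comm (starRingEnd ℂ ζ) ζ, hzz, one_pow, mul_one]
      rw [h, one_mul] at h2
      exact hpq (hζ.pow_inj hq hp h2).symm
    have hgs : ∑ j ∈ range N, ρ ^ j = 0 := by
      have := mul_geom_sum ρ N
      rw [hρN, sub_self] at this
      rcases mul_eq_zero.mp this with h | h
      · exact absurd (sub_eq_zero.mp h) hρ1
      · exact h
    have : ∀ j ∈ range N, (u * ζ ^ j) ^ p * (starRingEnd ℂ (u * ζ ^ j)) ^ q =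
        (u ^ p * (starRingEnd ℂ u) ^ q) * ρ ^ j := by
      intro j _
      rw [hρ, map_mul, map_pow, mul_pow, mul_pow, mul_pow, ← pow_mul, ← pow_mul, ← pow_mul,
        ← pow_mul, mul_comm j p, mul_comm j q]
      ring
    rw [Finset.sum_congr rfl this, ← Finset.mul_sum, hgs, mul_zero]

/-- the Dirichlet sum. -/
noncomputable def DD (z w : ℂ) (q : ℕ) : ℂ := ∑ a ∈ range q, (starRingEnd ℂ z * w) ^ a

lemma parseval {N : ℕ} (hN : 0 < N) {ζ u z : ℂ} (hζ : IsPrimitiveRoot ζ N) (hu : ‖u‖ = 1)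
    (hz : ‖z‖ = 1) {q : ℕ} (hq : q ≤ N) :
    ∑ j ∈ range N, ‖DD z (u * ζ ^ j) q‖ ^ 2 = N * q := by
  have hzz : z * starRingEnd ℂ z = 1 := by
    rw [mul_conj, normSq_eq_norm_sq, hz]; simp
  have h : ((∑ j ∈ range N, ‖DD z (u * ζ ^ j) q‖ ^ 2 : ℝ) : ℂ) = ((N * q : ℝ) : ℂ) := by
    push_cast
    have : ∀ j ∈ range N, ((‖DD z (u * ζ ^ j) q‖ : ℂ)) ^ 2 =
        ∑ a ∈ range q, ∑ b ∈ range q, (starRingEnd ℂ z) ^ a * z ^ b *
          ((u * ζ ^ j) ^ a * (starRingEnd ℂ (u * ζ ^ j)) ^ b) := by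
      intro j _
      rw [← Complex.mul_conj' , DD, map_sum, Finset.sum_mul_sum]
      apply Finset.sum_congr rfl
      intro a _
      apply Finset.sum_congr rfl
      intro b _
      rw [map_pow, map_mul, Complex.conj_conj, mul_pow, mul_pow]
      ring
    rw [Finset.sum_congr rfl this, Finset.sum_comm]
    have h2 : ∀ a ∈ range q, ∑ j ∈ range N, ∑ b ∈ range q, (starRingEnd ℂ z) ^ a * z ^ b *
          ((u * ζ ^ j) ^ a * (starRingEnd ℂ (u * ζ ^ j)) ^ b) = N := by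
      intro a ha
      rw [Finset.mem_range] at ha
      rw [Finset.sum_comm]
      have h3 : ∀ b ∈ range q, ∑ j ∈ range N, (starRingEnd ℂ z) ^ a * z ^ b *
          ((u * ζ ^ j) ^ a * (starRingEnd ℂ (u * ζ ^ j)) ^ b) = if a = b then (N : ℂ) else 0 := by
        intro b hb
        rw [Finset.mem_range] at hb
        rw [← Finset.mul_sum, orth hN hζ hu (by omega) (by omega)]
        split_ifs with hab
        · subst hab
          rw [← mul_pow, mul_comm (starRingEnd ℂ z) z, hzz, one_pow, one_mul]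
        · rw [mul_zero]
      rw [Finset.sum_congr rfl h3, Finset.sum_ite_eq]
      simp [ha]
    rw [Finset.sum_congr rfl h2]
    simp [mul_comm]
  exact_mod_cast h

lemma reproduce {n m N : ℕ} (hm : 0 < m) (hN : n + m ≤ N) {ζ u : ℂ}
    (hζ : IsPrimitiveRoot ζ N) (hu : ‖u‖ = 1) (c : ℕ → ℂ) {z : ℂ} (hz : ‖z‖ = 1) :
    ∑ j ∈ range N, (∑ k ∈ range (n + 1), c k * (u * ζ ^ j) ^ k) *
      (DD z (u * ζ ^ j) m * starRingEnd ℂ (DD z (u * ζ ^ j) (n + m))) =
      N * m * ∑ k ∈ range (n + 1), c k * z ^ k := by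
  have hN0 : 0 < N := by omega
  have hzz : z * starRingEnd ℂ z = 1 := by
    rw [mul_conj, normSq_eq_norm_sq, hz]; simp
  have h1 : ∀ j ∈ range N, (∑ k ∈ range (n + 1), c k * (u * ζ ^ j) ^ k) *
      (DD z (u * ζ ^ j) m * starRingEnd ℂ (DD z (u * ζ ^ j) (n + m))) =
      ∑ k ∈ range (n + 1), ∑ a ∈ range m, ∑ b ∈ range (n + m),
        (c k * (starRingEnd ℂ z) ^ a * z ^ b) *
          ((u * ζ ^ j) ^ (k + a) * (starRingEnd ℂ (u * ζ ^ j)) ^ b) := by
    intro j _
    rw [DD, DD, map_sum, Finset.sum_mul_sum, Finset.sum_mul_sum]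
    apply Finset.sum_congr rfl
    intro k _
    apply Finset.sum_congr rfl
    intro a _
    rw [Finset.mul_sum]
    apply Finset.sum_congr rfl
    intro b _
    rw [map_pow, map_mul, Complex.conj_conj, mul_pow, mul_pow, pow_add]
    ring
  rw [Finset.sum_congr rfl h1, Finset.sum_comm, Finset.mul_sum]
  apply Finset.sum_congr rfl
  intro k hk
  rw [Finset.mem_range] at hk
  rw [Finset.sum_comm]
  have h2 : ∀ a ∈ range m, ∑ j ∈ range N, ∑ b ∈ range (n + m),
        (c k * (starRingEnd ℂ z) ^ a * z ^ b) *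
          ((u * ζ ^ j) ^ (k + a) * (starRingEnd ℂ (u * ζ ^ j)) ^ b) = N * (c k * z ^ k) := by
    intro a ha
    rw [Finset.mem_range] at ha
    rw [Finset.sum_comm]
    have h3 : ∀ b ∈ range (n + m), ∑ j ∈ range N,
        (c k * (starRingEnd ℂ z) ^ a * z ^ b) *
          ((u * ζ ^ j) ^ (k + a) * (starRingEnd ℂ (u * ζ ^ j)) ^ b) =
          if k + a = b then (N : ℂ) * (c k * z ^ k) else 0 := by
      intro b hb
      rw [Finset.mem_range] at hb
      rw [← Finset.mul_sum, orth hN0 hζ hu (by omega) (by omega)]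
      split_ifs with hab
      · subst hab
        have : (starRingEnd ℂ z) ^ a * z ^ (k + a) = z ^ k := by
          rw [pow_add, mul_comm (z ^ k), ← mul_assoc, ← mul_pow, mul_comm (starRingEnd ℂ z) z, hzz,
            one_pow, one_mul]
        calc c k * (starRingEnd ℂ z) ^ a * z ^ (k + a) * N
            = c k * ((starRingEnd ℂ z) ^ a * z ^ (k + a)) * N := by ring
          _ = _ := by rw [this]; ring
      · rw [mul_zero]
    rw [Finset.sum_congr rfl h3, Finset.sum_ite_eq]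
    rw [if_pos (by rw [Finset.mem_range]; omega)]
  rw [Finset.sum_congr rfl h2]
  simp only [sum_const, card_range, nsmul_eq_mul]
  ring

/-- Sampling inequality: the maximum modulus of a polynomial of degree `≤ n` on the unit circle is
controlled by its values on `N ≥ n + m` equidistributed points. -/
theorem sampling {n m N : ℕ} (hm : 0 < m) (hN : n + m ≤ N) {ζ u : ℂ}
    (hζ : IsPrimitiveRoot ζ N) (hu : ‖u‖ = 1) (c : ℕ → ℂ) {B : ℝ} (hB : 0 ≤ B)
    (hR : ∀ j ∈ range N, ‖∑ k ∈ range (n + 1), c k * (u * ζ ^ j) ^ k‖ ≤ B)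
    {z : ℂ} (hz : ‖z‖ = 1) :
    ‖∑ k ∈ range (n + 1), c k * z ^ k‖ ≤ B * √(1 + n / m) := by
  have hN0 : 0 < N := by omega
  have hNr : (0 : ℝ) < N := by exact_mod_cast hN0
  have hmr : (0 : ℝ) < m := by exact_mod_cast hm
  have hrep := reproduce hm hN hζ hu c hz
  set R := ∑ k ∈ range (n + 1), c k * z ^ k with hRdef
  have h1 : (N : ℝ) * m * ‖R‖ ≤ B * (√(N * m) * √(N * ((n + m : ℕ) : ℝ))) := by
    calc (N : ℝ) * m * ‖R‖ = ‖(N : ℂ) * m * R‖ := by
          rw [norm_mul, norm_mul, Complex.norm_natCast, Complex.norm_natCast]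
      _ = ‖∑ j ∈ range N, (∑ k ∈ range (n + 1), c k * (u * ζ ^ j) ^ k) *
          (DD z (u * ζ ^ j) m * starRingEnd ℂ (DD z (u * ζ ^ j) (n + m)))‖ := by rw [hrep]
      _ ≤ ∑ j ∈ range N, ‖(∑ k ∈ range (n + 1), c k * (u * ζ ^ j) ^ k) *
          (DD z (u * ζ ^ j) m * starRingEnd ℂ (DD z (u * ζ ^ j) (n + m)))‖ := norm_sum_le _ _
      _ ≤ ∑ j ∈ range N, B * (‖DD z (u * ζ ^ j) m‖ * ‖DD z (u * ζ ^ j) (n + m)‖) := by
          apply Finset.sum_le_sum
          intro j hj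
          rw [norm_mul, norm_mul, Complex.norm_conj]
          exact mul_le_mul_of_nonneg_right (hR j hj) (by positivity)
      _ = B * ∑ j ∈ range N, ‖DD z (u * ζ ^ j) m‖ * ‖DD z (u * ζ ^ j) (n + m)‖ := by
          rw [Finset.mul_sum]
      _ ≤ B * (√(∑ j ∈ range N, ‖DD z (u * ζ ^ j) m‖ ^ 2) *
            √(∑ j ∈ range N, ‖DD z (u * ζ ^ j) (n + m)‖ ^ 2)) :=
          mul_le_mul_of_nonneg_left (Real.sum_mul_le_sqrt_mul_sqrt _ _ _) hB
      _ = _ := by
          rw [parseval hN0 hζ hu hz (by omega), parseval hN0 hζ hu hz hN]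
  have h2 : √((N : ℝ) * m) * √(N * ((n + m : ℕ) : ℝ)) = N * m * √(1 + n / m) := by
    rw [← Real.sqrt_mul (by positivity)]
    have : (N : ℝ) * m * (N * ((n + m : ℕ) : ℝ)) = (N * m) ^ 2 * (1 + n / m) := by
      push_cast
      field_simp
      ring
    rw [this, Real.sqrt_mul (by positivity), Real.sqrt_sq (by positivity)]
  rw [h2] at h1
  have h3 : (N : ℝ) * m * ‖R‖ ≤ N * m * (B * √(1 + n / m)) := by linarith
  exact le_of_mul_le_mul_left h3 (by positivity)

/-- a finite net of directions. -/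
lemma exists_net {η : ℝ} (hη : 0 < η) : ∃ F : Finset ℂ, (∀ v ∈ F, ‖v‖ = 1) ∧
    ∀ w : ℂ, ∃ v ∈ F, (1 - η) * ‖w‖ ≤ (starRingEnd ℂ v * w).re := by
  obtain ⟨t, hts, htf, htc⟩ := (isCompact_sphere (0 : ℂ) 1).finite_cover_balls hη
  have key : ∀ x : ℂ, ‖x‖ = 1 → ∃ v ∈ t, 1 - η ≤ (starRingEnd ℂ v * x).re := by
    intro x hx
    have hx' : x ∈ Metric.sphere (0 : ℂ) 1 := by simpa using hx
    obtain ⟨v, hv, hxv⟩ := Set.mem_iUnion₂.mp (htc hx')
    refine ⟨v, hv, ?_⟩
    have hv1 : ‖v‖ = 1 := by simpa using hts hv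
    have hvv : starRingEnd ℂ v * v = 1 := by
      rw [mul_comm, mul_conj, normSq_eq_norm_sq, hv1]; simp
    have e : starRingEnd ℂ v * x = 1 + starRingEnd ℂ v * (x - v) := by
      rw [mul_sub, hvv]; ring
    rw [e, add_re, one_re]
    have h1 : |(starRingEnd ℂ v * (x - v)).re| ≤ ‖starRingEnd ℂ v * (x - v)‖ := abs_re_le_norm _
    rw [norm_mul, Complex.norm_conj, hv1, one_mul] at h1
    rw [Metric.mem_ball, dist_eq_norm] at hxv
    have := (abs_le.mp h1).1
    linarith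
  refine ⟨htf.toFinset, ?_, ?_⟩
  · intro v hv
    rw [Set.Finite.mem_toFinset] at hv
    simpa using hts hv
  · intro w
    by_cases hw : w = 0
    · obtain ⟨v, hv, _⟩ := key 1 (by simp)
      exact ⟨v, by rwa [Set.Finite.mem_toFinset], by simp [hw]⟩
    · have hw0 : 0 < ‖w‖ := norm_pos_iff.mpr hw
      obtain ⟨v, hv, h⟩ := key (w / (‖w‖ : ℂ)) (by
        rw [norm_div, Complex.norm_real, norm_norm, div_self hw0.ne'])
      refine ⟨v, by rwa [Set.Finite.mem_toFinset], ?_⟩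
      have e : starRingEnd ℂ v * w = (‖w‖ : ℂ) * (starRingEnd ℂ v * (w / (‖w‖ : ℂ))) := by
        have : (‖w‖ : ℂ) ≠ 0 := by exact_mod_cast hw0.ne'
        field_simp
      rw [e, re_ofReal_mul, mul_comm]
      exact mul_le_mul_of_nonneg_left h hw0.le

end Pool.Agent.Helpers25.RM
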