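import Mathlib
import Pool.Agent.Helpers25.RMTrig
import Pool.Agent.Helpers25.RMSample
import Pool.Agent.Helpers25.RMMgf

/-! The upper bound. -/

namespace Pool.Agent.Helpers25.RM

open Finset MeasureTheory ProbabilityTheory Filter
open scoped Topology

set_option linter.unusedSectionVars false

variable {Ω : Type*} [MeasurableSpace Ω] {μ : Measure Ω} [IsProbabilityMeasure μ]

lemma SS_smul (ξ : ℕ → Ω → ℝ) (m0 n : ℕ) (b : ℕ → ℝ) (t : ℝ) (ω : Ω) :
    SS ξ m0 n (fun k => t * b k) ω = t * SS ξ m0 n b ω := by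
  unfold SS
  rw [Finset.mul_sum]
  apply Finset.sum_congr rfl
  intro k _
  ring

/-- the modulus through the directions. -/
lemma re_eq_SS (ξ : ℕ → Ω → ℝ) (m0 n : ℕ) (θ φ : ℝ) (ω : Ω) :
    (starRingEnd ℂ (Complex.exp (φ * Complex.I)) *
      ∑ k ∈ Ioc m0 n, ((ξ k ω / √(k : ℝ) : ℝ) : ℂ) * (Complex.exp (θ * Complex.I)) ^ k).re =
      SS ξ m0 n (fun k => Real.cos (k * θ - φ)) ω := by
  unfold SS
  rw [Finset.mul_sum, Complex.re_sum]
  apply Finset.sum_congr rfl
  intro k _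
  have e : starRingEnd ℂ (Complex.exp (φ * Complex.I)) *
      (((ξ k ω / √(k : ℝ) : ℝ) : ℂ) * (Complex.exp (θ * Complex.I)) ^ k) =
      ((ξ k ω / √(k : ℝ) : ℝ) : ℂ) * Complex.exp (((k * θ - φ : ℝ) : ℂ) * Complex.I) := by
    rw [← Complex.exp_conj, ← Complex.exp_nat_mul, map_mul, Complex.conj_ofReal, Complex.conj_I]
    have : Complex.exp (((k * θ - φ : ℝ) : ℂ) * Complex.I) =
        Complex.exp (φ * -Complex.I) * Complex.exp (k * (θ * Complex.I)) := by
      rw [← Complex.exp_add]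
      congr 1
      push_cast
      ring
    rw [this]
    ring
  rw [e, Complex.re_ofReal_mul, Complex.exp_ofReal_mul_I_re]
  ring

/-- Chernoff bound at a single point and a single direction. -/
lemma chernoff {ξ : ℕ → Ω → ℝ} {m0 n : ℕ} {r : ℝ} (hn : 1 ≤ n)
    (hG : ∀ b : ℕ → ℝ, (∀ k, |b k| ≤ 6) →
    Integrable (fun ω => Real.exp (SS ξ m0 n b ω)) μ ∧
    Real.exp (TT m0 n (fun k => b k ^ 2) / 2 - r) ≤ ∫ ω, Real.exp (SS ξ m0 n b ω) ∂μ ∧
    ∫ ω, Real.exp (SS ξ m0 n b ω) ∂μ ≤ Real.exp (TT m0 n (fun k => b k ^ 2) / 2 + r))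
    (θ φ : ℝ) (hθ : Real.sin θ ≠ 0) (t : ℝ) :
    μ.real {ω | t ≤ SS ξ m0 n (fun k => Real.cos (k * θ - φ)) ω} ≤
      Real.exp (-2 * t + 3 + r) * n * (1 / |Real.sin θ|) := by
  set b : ℕ → ℝ := fun k => 2 * Real.cos (k * θ - φ) with hb
  have hb6 : ∀ k, |b k| ≤ 6 := by
    intro k
    rw [hb]
    simp only
    rw [abs_mul, abs_two]
    have := Real.abs_cos_le_one (k * θ - φ)
    linarith
  obtain ⟨hi, -, hu⟩ := hG b hb6
  have hSS : ∀ ω, SS ξ m0 n b ω = 2 * SS ξ m0 n (fun k => Real.cos (k * θ - φ)) ω :=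
    fun ω => SS_smul ξ m0 n _ 2 ω
  have hset : {ω | t ≤ SS ξ m0 n (fun k => Real.cos (k * θ - φ)) ω} =
      {ω | Real.exp (2 * t) ≤ Real.exp (SS ξ m0 n b ω)} := by
    ext ω
    simp only [Set.mem_ofPred_eq, Real.exp_le_exp, hSS]
    constructor <;> intro h <;> linarith
  have hmk := mul_meas_ge_le_integral_of_nonneg
    (ae_of_all μ (fun ω => (Real.exp_pos (SS ξ m0 n b ω)).le)) hi (Real.exp (2 * t))
  rw [← hset] at hmk
  have hTT : TT m0 n (fun k => b k ^ 2) / 2 ≤ 3 + Real.log n + Real.log (1 / |Real.sin θ|) := by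
    have e : TT m0 n (fun k => b k ^ 2) / 2 = hh m0 n +
        ∑ k ∈ Ioc m0 n, Real.cos (k * (2 * θ) + (-(2 * φ))) / k := by
      unfold TT hh
      rw [← Finset.sum_add_distrib, Finset.sum_div]
      apply Finset.sum_congr rfl
      intro k _
      have : Real.cos (k * (2 * θ) + (-(2 * φ))) = 2 * Real.cos (k * θ - φ) ^ 2 - 1 := by
        rw [← Real.cos_two_mul]
        congr 1
        ring
      rw [this, hb]
      ring
    rw [e]
    have h1 : hh m0 n ≤ 1 + Real.log n := by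
      refine le_trans ?_ (sum_Ioc_le n)
      unfold hh
      apply Finset.sum_le_sum_of_subset_of_nonneg
      · intro k hk
        simp only [Finset.mem_Ioc] at hk ⊢
        omega
      · intro k _ _
        positivity
    have h2 : 2 * θ / 2 = θ := by ring
    have h3 := sum_cos_le (2 * θ) (-(2 * φ)) (by rw [h2]; exact hθ) m0 n
    rw [h2] at h3
    linarith
  have hfin : ∫ ω, Real.exp (SS ξ m0 n b ω) ∂μ ≤
      Real.exp (3 + r) * n * (1 / |Real.sin θ|) := by
    refine hu.trans ?_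
    have hs0 : 0 < |Real.sin θ| := abs_pos.mpr hθ
    have hn0 : (0 : ℝ) < n := by exact_mod_cast hn
    calc Real.exp (TT m0 n (fun k => b k ^ 2) / 2 + r)
        ≤ Real.exp ((3 + r) + Real.log n + Real.log (1 / |Real.sin θ|)) := by
          apply Real.exp_le_exp.mpr
          linarith
      _ = _ := by
          rw [Real.exp_add, Real.exp_add, Real.exp_log hn0, Real.exp_log (by positivity)]
  have hexp : Real.exp (-2 * t + 3 + r) = Real.exp (3 + r) * (Real.exp (2 * t))⁻¹ := by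
    rw [← Real.exp_neg, ← Real.exp_add]
    congr 1
    ring
  have hpos := Real.exp_pos (2 * t)
  have h5 : μ.real {ω | t ≤ SS ξ m0 n (fun k => Real.cos (k * θ - φ)) ω} ≤
      (Real.exp (2 * t))⁻¹ * (Real.exp (3 + r) * n * (1 / |Real.sin θ|)) := by
    rw [← div_eq_inv_mul, le_div_iff₀ hpos]
    linarith
  rw [hexp]
  calc _ ≤ _ := h5
    _ = _ := by ring

theorem upper {ξ : ℕ → Ω → ℝ} (hG : GoodFam μ ξ) {ε : ℝ} (hε : 0 < ε) (hε1 : ε ≤ 1 / 2) :
    ∃ m0 : ℕ, Tendsto (fun n : ℕ => μ.real {ω | ∃ z : ℂ, ‖z‖ = 1 ∧ (1 + ε) ^ 3 * Real.log n <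
      ‖∑ k ∈ Ioc m0 n, ((ξ k ω / √(k : ℝ) : ℝ) : ℂ) * z ^ k‖}) atTop (𝓝 0) := by
  obtain ⟨m0, hm0⟩ := hG 1 one_pos
  refine ⟨m0, ?_⟩
  obtain ⟨F, hF1, hF⟩ := exists_net (η := ε / 2) (by positivity)
  obtain ⟨L, hL⟩ := exists_nat_gt (1 / ε)
  have hLr : (0 : ℝ) < L := lt_trans (by positivity) hL
  have hL0 : 0 < L := by exact_mod_cast hLr
  -- the bound
  set K : ℝ := (F.card : ℝ) * (Real.exp 4 * (4 * (L + 1))) with hK
  have hbound : ∀ n : ℕ, 1 ≤ n → μ.real {ω | ∃ z : ℂ, ‖z‖ = 1 ∧ (1 + ε) ^ 3 * Real.log n <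
      ‖∑ k ∈ Ioc m0 n, ((ξ k ω / √(k : ℝ) : ℝ) : ℂ) * z ^ k‖} ≤
      K * ((n : ℝ) ^ (-(2 * ε)) * (1 + Real.log (L + 1) + 1 / ε * (n : ℝ) ^ ε)) := by
    intro n hn
    have hnr : (0 : ℝ) < n := by exact_mod_cast hn
    have hn1 : (1 : ℝ) ≤ n := by exact_mod_cast hn
    have hlogn : 0 ≤ Real.log n := Real.log_nonneg hn1
    set N' := (L + 1) * n with hN'
    have hN'0 : 0 < N' := by positivity
    set t := (1 + ε) * Real.log n with ht
    set θ : ℕ → ℝ := fun j => (2 * j + 1) * Real.pi / (2 * N') with hθ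
    set u : ℂ := Complex.exp ((Real.pi / (2 * N') : ℝ) * Complex.I) with hu
    set ζ : ℂ := Complex.exp (2 * Real.pi * Complex.I / ((2 * N' : ℕ) : ℂ)) with hζdef
    have hζ : IsPrimitiveRoot ζ (2 * N') := Complex.isPrimitiveRoot_exp (2 * N') (by positivity)
    have hu1 : ‖u‖ = 1 := Complex.norm_exp_ofReal_mul_I _
    have hgrid : ∀ j : ℕ, u * ζ ^ j = Complex.exp ((θ j : ℝ) * Complex.I) := by
      intro j
      rw [hu, hζdef, ← Complex.exp_nat_mul, ← Complex.exp_add, hθ]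
      congr 1
      push_cast
      have : (N' : ℂ) ≠ 0 := by exact_mod_cast hN'0.ne'
      have h3 : (L : ℂ) + 1 ≠ 0 := by exact_mod_cast (Nat.succ_ne_zero L)
      have h4 : (n : ℂ) ≠ 0 := by exact_mod_cast hnr.ne'
      field_simp
      ring
    have hsin : ∀ j : ℕ, Real.sin (θ j) ≠ 0 := by
      intro j h
      rw [Real.sin_eq_zero_iff] at h
      obtain ⟨q, hq⟩ := h
      rw [hθ] at hq
      simp only at hq
      have hN'r : (0 : ℝ) < N' := by exact_mod_cast hN'0
      rw [eq_div_iff (by positivity)] at hq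
      have h2 : (q : ℝ) * (2 * N') = 2 * j + 1 := by
        have := Real.pi_pos
        have h3 : (q * (2 * N') - (2 * j + 1)) * Real.pi = 0 := by linarith
        rcases mul_eq_zero.mp h3 with h4 | h4
        · linarith
        · exact absurd h4 this.ne'
      have h3 : q * (2 * (N' : ℤ)) = 2 * (j : ℤ) + 1 := by exact_mod_cast h2
      have h4 : 2 * (q * (N' : ℤ)) = 2 * (j : ℤ) + 1 := by rw [← h3]; ring
      generalize q * (N' : ℤ) = x at h4
      omega
    -- angles of the directions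
    have hφ : ∀ v ∈ F, ∃ φ : ℝ, Complex.exp (φ * Complex.I) = v := by
      intro v hv
      exact (Complex.norm_eq_one_iff v).mp (hF1 v hv)
    choose! φ hφ using hφ
    -- inclusion
    have hincl : {ω | ∃ z : ℂ, ‖z‖ = 1 ∧ (1 + ε) ^ 3 * Real.log n <
        ‖∑ k ∈ Ioc m0 n, ((ξ k ω / √(k : ℝ) : ℝ) : ℂ) * z ^ k‖} ⊆
        ⋃ p ∈ F ×ˢ range (2 * N'), {ω | t ≤ SS ξ m0 n (fun k => Real.cos (k * θ p.2 - φ p.1)) ω} := by
      rintro ω ⟨z, hz, hbig⟩
      by_contra hcon
      simp only [Set.mem_iUnion, Set.mem_ofPred_eq, not_exists, Finset.mem_product] at hcon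
      have hpt : ∀ v ∈ F, ∀ j ∈ range (2 * N'),
          SS ξ m0 n (fun k => Real.cos (k * θ j - φ v)) ω < t := by
        intro v hv j hj
        exact lt_of_not_ge (hcon (v, j) ⟨hv, hj⟩)
      set c : ℕ → ℂ := fun k => if m0 < k then ((ξ k ω / √(k : ℝ) : ℝ) : ℂ) else 0 with hc
      have hsum : ∀ w : ℂ, ∑ k ∈ range (n + 1), c k * w ^ k =
          ∑ k ∈ Ioc m0 n, ((ξ k ω / √(k : ℝ) : ℝ) : ℂ) * w ^ k := by
        intro w
        have : Ioc m0 n = (range (n + 1)).filter (fun k => m0 < k) := by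
          ext k; simp; omega
        rw [this, Finset.sum_filter]
        apply Finset.sum_congr rfl
        intro k _
        rw [hc]
        simp only
        split_ifs <;> simp
      have hR : ∀ j ∈ range (2 * N'), ‖∑ k ∈ range (n + 1), c k * (u * ζ ^ j) ^ k‖ ≤
          (1 + ε) ^ 2 * Real.log n := by
        intro j hj
        rw [hsum, hgrid]
        set w := ∑ k ∈ Ioc m0 n, ((ξ k ω / √(k : ℝ) : ℝ) : ℂ) *
          Complex.exp ((θ j : ℝ) * Complex.I) ^ k with hw
        obtain ⟨v, hv, hvw⟩ := hF w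
        have h1 := hpt v hv j hj
        rw [← hφ v hv, hw, re_eq_SS] at hvw
        have h2 : (1 - ε / 2) * ‖w‖ ≤ (1 + ε) * Real.log n := hvw.trans h1.le
        have h3 : 1 ≤ (1 + ε) * (1 - ε / 2) := by nlinarith
        have hw0 : 0 ≤ ‖w‖ := norm_nonneg _
        calc ‖w‖ ≤ ((1 + ε) * (1 - ε / 2)) * ‖w‖ := by nlinarith
          _ = (1 + ε) * ((1 - ε / 2) * ‖w‖) := by ring
          _ ≤ (1 + ε) * ((1 + ε) * Real.log n) := mul_le_mul_of_nonneg_left h2 (by positivity)
          _ = _ := by ring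
      have hsamp := sampling (n := n) (m := L * n) (N := 2 * N') (by positivity)
        (by rw [hN']; nlinarith [Nat.zero_le (L * n)]) hζ hu1 c (by positivity) hR hz
      rw [hsum] at hsamp
      have hsq : √(1 + (n : ℝ) / ((L * n : ℕ) : ℝ)) ≤ 1 + ε := by
        rw [Real.sqrt_le_left (by positivity)]
        have h5 : (n : ℝ) / ((L * n : ℕ) : ℝ) = 1 / L := by
          push_cast
          field_simp
        rw [h5]
        have h6 : 1 / (L : ℝ) ≤ ε := by
          rw [div_le_iff₀ hLr]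
          rw [div_lt_iff₀ hε] at hL
          linarith
        nlinarith
      have h7 : (1 + ε) ^ 2 * Real.log n * √(1 + (n : ℝ) / ((L * n : ℕ) : ℝ)) ≤
          (1 + ε) ^ 2 * Real.log n * (1 + ε) := mul_le_mul_of_nonneg_left hsq (by positivity)
      have h8 : (1 + ε) ^ 2 * Real.log n * (1 + ε) = (1 + ε) ^ 3 * Real.log n := by ring
      linarith
    calc μ.real _ ≤ μ.real (⋃ p ∈ F ×ˢ range (2 * N'),
          {ω | t ≤ SS ξ m0 n (fun k => Real.cos (k * θ p.2 - φ p.1)) ω}) :=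
          measureReal_mono hincl (measure_ne_top _ _)
      _ ≤ ∑ p ∈ F ×ˢ range (2 * N'),
          μ.real {ω | t ≤ SS ξ m0 n (fun k => Real.cos (k * θ p.2 - φ p.1)) ω} :=
          measureReal_biUnion_finset_le _ _
      _ ≤ ∑ p ∈ F ×ˢ range (2 * N'), Real.exp (-2 * t + 3 + 1) * n * (1 / |Real.sin (θ p.2)|) := by
          apply Finset.sum_le_sum
          intro p _
          exact chernoff hn (hm0 m0 le_rfl n) (θ p.2) (φ p.1) (hsin p.2) t
      _ = (F.card : ℝ) * (Real.exp (-2 * t + 3 + 1) * n *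
            ∑ j ∈ range (2 * N'), 1 / |Real.sin (θ j)|) := by
          rw [Finset.sum_product]
          simp only [← Finset.mul_sum, Finset.sum_const, nsmul_eq_mul]
          ring
      _ ≤ (F.card : ℝ) * (Real.exp (-2 * t + 3 + 1) * n * (4 * N' * (1 + Real.log N'))) := by
          apply mul_le_mul_of_nonneg_left _ (Nat.cast_nonneg _)
          apply mul_le_mul_of_nonneg_left _ (by positivity)
          exact sum_csc_le N' hN'0
      _ ≤ K * ((n : ℝ) ^ (-(2 * ε)) * (1 + Real.log (L + 1) + 1 / ε * (n : ℝ) ^ ε)) := by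
          have hN'cast : (N' : ℝ) = (L + 1) * n := by rw [hN']; push_cast; ring
          have hlogN' : Real.log N' = Real.log (L + 1) + Real.log n := by
            rw [hN'cast, Real.log_mul (by positivity) hnr.ne']
          have hexp : Real.exp (-2 * t + 3 + 1) = Real.exp 4 * (n : ℝ) ^ (-(2 * ε)) / (n ^ 2) := by
            have : -2 * t + 3 + 1 = 4 + Real.log n * (-(2 * ε)) - 2 * Real.log n := by
              rw [ht]; ring
            rw [this, Real.exp_sub, Real.exp_add, Real.rpow_def_of_pos hnr]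
            congr 1
            rw [two_mul, Real.exp_add, Real.exp_log hnr, sq]
          have hlog2 : Real.log n ≤ 1 / ε * (n : ℝ) ^ ε := by
            have := Real.log_le_rpow_div hnr.le hε
            rw [one_div_mul_eq_div]
            exact this
          rw [hexp, hlogN', hK, hN'cast]
          have e : (F.card : ℝ) * (Real.exp 4 * (n : ℝ) ^ (-(2 * ε)) / n ^ 2 * n *
              (4 * ((L + 1) * n) * (1 + (Real.log (L + 1) + Real.log n)))) =
              (F.card : ℝ) * (Real.exp 4 * (4 * (L + 1))) * ((n : ℝ) ^ (-(2 * ε)) *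
                (1 + Real.log (L + 1) + Real.log n)) := by
            field_simp
            ring
          rw [e]
          apply mul_le_mul_of_nonneg_left _ (by positivity)
          apply mul_le_mul_of_nonneg_left _ (by positivity)
          linarith
  -- the limit
  have hlim : Tendsto (fun n : ℕ => K * ((n : ℝ) ^ (-(2 * ε)) *
      (1 + Real.log (L + 1) + 1 / ε * (n : ℝ) ^ ε))) atTop (𝓝 0) := by
    have h1 : Tendsto (fun n : ℕ => (n : ℝ) ^ (-(2 * ε))) atTop (𝓝 0) :=
      (tendsto_rpow_neg_atTop (by positivity)).comp tendsto_natCast_atTop_atTop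
    have h2 : Tendsto (fun n : ℕ => (n : ℝ) ^ (-ε)) atTop (𝓝 0) :=
      (tendsto_rpow_neg_atTop hε).comp tendsto_natCast_atTop_atTop
    have h3 : Tendsto (fun n : ℕ => K * ((1 + Real.log (L + 1)) * (n : ℝ) ^ (-(2 * ε)) +
        1 / ε * (n : ℝ) ^ (-ε))) atTop (𝓝 (K * ((1 + Real.log (L + 1)) * 0 + 1 / ε * 0))) :=
      ((h1.const_mul _).add (h2.const_mul _)).const_mul K
    simp only [mul_zero, add_zero] at h3
    refine h3.congr' ?_
    filter_upwards [eventually_ge_atTop 1] with n hn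
    have hnr : (0 : ℝ) < n := by exact_mod_cast hn
    have e : (n : ℝ) ^ (-(2 * ε)) * (n : ℝ) ^ ε = (n : ℝ) ^ (-ε) := by
      rw [← Real.rpow_add hnr]; congr 1; ring
    rw [← e]
    ring
  refine squeeze_zero' (Eventually.of_forall fun n => measureReal_nonneg) ?_ hlim
  filter_upwards [eventually_ge_atTop 1] with n hn
  exact hbound n hn

end Pool.Agent.Helpers25.RM
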