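import Mathlib
import Pool.Agent.Helpers25.RMTrig
import Pool.Agent.Helpers25.RMMgf
import Pool.Agent.Helpers25.RMUpper

/-! The lower bound: exponential tilts. -/

namespace Pool.Agent.Helpers25.RM

open Finset MeasureTheory ProbabilityTheory Filter
open scoped Topology

set_option linter.unusedSectionVars false

variable {Ω : Type*} [MeasurableSpace Ω] {μ : Measure Ω} [IsProbabilityMeasure μ]

lemma SS_split (ξ : ℕ → Ω → ℝ) {m0 m n : ℕ} (h1 : m0 ≤ m) (h2 : m ≤ n) (p q : ℕ → ℝ) (ω : Ω) :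
    SS ξ m0 m p ω + SS ξ m n q ω = SS ξ m0 n (fun k => if k ≤ m then p k else q k) ω := by
  unfold SS
  rw [← Finset.sum_Ioc_consecutive _ h1 h2]
  congr 1
  · apply Finset.sum_congr rfl
    intro k hk
    rw [Finset.mem_Ioc] at hk
    simp only [if_pos hk.2]
  · apply Finset.sum_congr rfl
    intro k hk
    rw [Finset.mem_Ioc] at hk
    simp only [if_neg (show ¬ k ≤ m by omega)]

lemma SS_add (ξ : ℕ → Ω → ℝ) (m n : ℕ) (p q : ℕ → ℝ) (ω : Ω) :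
    SS ξ m n (fun k => p k + q k) ω = SS ξ m n p ω + SS ξ m n q ω := by
  unfold SS
  rw [← Finset.sum_add_distrib]
  apply Finset.sum_congr rfl
  intro k _
  ring

lemma SS_cons (ξ : ℕ → Ω → ℝ) {m0 m n : ℕ} (h1 : m0 ≤ m) (h2 : m ≤ n) (p : ℕ → ℝ) (ω : Ω) :
    SS ξ m0 m p ω + SS ξ m n p ω = SS ξ m0 n p ω := by
  unfold SS
  exact Finset.sum_Ioc_consecutive _ h1 h2

lemma SS_self (ξ : ℕ → Ω → ℝ) (m : ℕ) (p : ℕ → ℝ) (ω : Ω) : SS ξ m m p ω = 0 := by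
  simp [SS]

lemma TT_split {m0 m n : ℕ} (h1 : m0 ≤ m) (h2 : m ≤ n) (p q : ℕ → ℝ) :
    TT m0 n (fun k => (if k ≤ m then p k else q k) ^ 2) =
      TT m0 m (fun k => p k ^ 2) + TT m n (fun k => q k ^ 2) := by
  unfold TT
  rw [← Finset.sum_Ioc_consecutive _ h1 h2]
  congr 1
  · apply Finset.sum_congr rfl
    intro k hk
    rw [Finset.mem_Ioc] at hk
    simp only [if_pos hk.2]
  · apply Finset.sum_congr rfl
    intro k hk
    rw [Finset.mem_Ioc] at hk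
    simp only [if_neg (show ¬ k ≤ m by omega)]

lemma TT_cons {m0 m n : ℕ} (h1 : m0 ≤ m) (h2 : m ≤ n) (p : ℕ → ℝ) :
    TT m0 m p + TT m n p = TT m0 n p := by
  unfold TT
  exact Finset.sum_Ioc_consecutive _ h1 h2

lemma TT_smul (m n : ℕ) (x : ℝ) (p : ℕ → ℝ) : TT m n (fun k => x * p k) = x * TT m n p := by
  unfold TT
  rw [Finset.mul_sum]
  apply Finset.sum_congr rfl
  intro k _
  ring

lemma TT_add (m n : ℕ) (p q : ℕ → ℝ) : TT m n (fun k => p k + q k) = TT m n p + TT m n q := by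
  unfold TT
  rw [← Finset.sum_add_distrib]
  apply Finset.sum_congr rfl
  intro k _
  ring

lemma TT_congr {m n : ℕ} {p q : ℕ → ℝ} (h : ∀ k, p k = q k) : TT m n p = TT m n q := by
  unfold TT
  apply Finset.sum_congr rfl
  intro k _
  rw [h]

/-- property for fixed `m0, n, r`. -/
def Hyp (μ : Measure Ω) (ξ : ℕ → Ω → ℝ) (m0 n : ℕ) (r : ℝ) : Prop :=
  ∀ b : ℕ → ℝ, (∀ k, |b k| ≤ 6) →
    Integrable (fun ω => Real.exp (SS ξ m0 n b ω)) μ ∧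
    Real.exp (TT m0 n (fun k => b k ^ 2) / 2 - r) ≤ ∫ ω, Real.exp (SS ξ m0 n b ω) ∂μ ∧
    ∫ ω, Real.exp (SS ξ m0 n b ω) ∂μ ≤ Real.exp (TT m0 n (fun k => b k ^ 2) / 2 + r)

lemma block_bound {ξ : ℕ → Ω → ℝ} {m0 m n : ℕ} {r : ℝ} (H : Hyp μ ξ m0 n r)
    (h1 : m0 ≤ m) (h2 : m ≤ n) {p q : ℕ → ℝ} (hp : ∀ k, |p k| ≤ 6) (hq : ∀ k, |q k| ≤ 6) :
    Integrable (fun ω => Real.exp (SS ξ m0 m p ω + SS ξ m n q ω)) μ ∧
    ∫ ω, Real.exp (SS ξ m0 m p ω + SS ξ m n q ω) ∂μ ≤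
      Real.exp ((TT m0 m (fun k => p k ^ 2) + TT m n (fun k => q k ^ 2)) / 2 + r) := by
  have hb : ∀ k, |(if k ≤ m then p k else q k)| ≤ 6 := by
    intro k
    split_ifs
    · exact hp k
    · exact hq k
  obtain ⟨h3, -, h5⟩ := H _ hb
  simp only [SS_split ξ h1 h2]
  refine ⟨h3, ?_⟩
  rw [TT_split h1 h2] at h5
  exact h5

noncomputable def EE (μ : Measure Ω) (ξ : ℕ → Ω → ℝ) (m0 n : ℕ) (γ θ : ℝ) : ℝ :=
  ∫ ω, Real.exp (SS ξ m0 n (fun k => γ * Real.cos (k * θ)) ω) ∂μ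

noncomputable def WW (μ : Measure Ω) (ξ : ℕ → Ω → ℝ) (m0 n : ℕ) (γ θ : ℝ) (ω : Ω) : ℝ :=
  Real.exp (SS ξ m0 n (fun k => γ * Real.cos (k * θ)) ω) * (EE μ ξ m0 n γ θ)⁻¹

/-- `∑ cos²(kθ)/k`. -/
noncomputable def VV (m n : ℕ) (θ : ℝ) : ℝ := TT m n (fun k => Real.cos (k * θ) ^ 2)

/-- `∑ cos(kθ)cos(kθ')/k`. -/
noncomputable def CC (m n : ℕ) (θ θ' : ℝ) : ℝ := TT m n (fun k => Real.cos (k * θ) * Real.cos (k * θ'))

lemma coef_bd {x θ : ℝ} (hx : |x| ≤ 3) (k : ℕ) : |x * Real.cos (k * θ)| ≤ 6 := by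
  rw [abs_mul]
  have h1 := Real.abs_cos_le_one (k * θ)
  have h2 := abs_nonneg x
  have h3 := abs_nonneg (Real.cos (k * θ))
  nlinarith

lemma EE_lower {ξ : ℕ → Ω → ℝ} {m0 n : ℕ} {r : ℝ} (H : Hyp μ ξ m0 n r) {γ : ℝ} (hγ : |γ| ≤ 3)
    (θ : ℝ) : Real.exp (γ ^ 2 * VV m0 n θ / 2 - r) ≤ EE μ ξ m0 n γ θ := by
  have h := (H (fun k => γ * Real.cos (k * θ)) (fun k => coef_bd hγ k)).2.1
  have e : TT m0 n (fun k => (γ * Real.cos (k * θ)) ^ 2) = γ ^ 2 * VV m0 n θ := by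
    unfold VV
    rw [← TT_smul]
    exact TT_congr (fun k => by ring)
  rw [e] at h
  exact h

lemma EE_pos {ξ : ℕ → Ω → ℝ} {m0 n : ℕ} {r : ℝ} (H : Hyp μ ξ m0 n r) {γ : ℝ} (hγ : |γ| ≤ 3)
    (θ : ℝ) : 0 < EE μ ξ m0 n γ θ := lt_of_lt_of_le (Real.exp_pos _) (EE_lower H hγ θ)

lemma EE_inv_le {ξ : ℕ → Ω → ℝ} {m0 n : ℕ} {r : ℝ} (H : Hyp μ ξ m0 n r) {γ : ℝ} (hγ : |γ| ≤ 3)
    (θ : ℝ) : (EE μ ξ m0 n γ θ)⁻¹ ≤ Real.exp (-(γ ^ 2 * VV m0 n θ / 2) + r) := by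
  have h := EE_lower H hγ θ
  have h2 : Real.exp (-(γ ^ 2 * VV m0 n θ / 2) + r) =
      (Real.exp (γ ^ 2 * VV m0 n θ / 2 - r))⁻¹ := by
    rw [← Real.exp_neg]; congr 1; ring
  rw [h2]
  exact inv_anti₀ (Real.exp_pos _) h

lemma WW_pos {ξ : ℕ → Ω → ℝ} {m0 n : ℕ} {r : ℝ} (H : Hyp μ ξ m0 n r) {γ : ℝ} (hγ : |γ| ≤ 3)
    (θ : ℝ) (ω : Ω) : 0 < WW μ ξ m0 n γ θ ω :=
  mul_pos (Real.exp_pos _) (inv_pos.mpr (EE_pos H hγ θ))

lemma WW_int {ξ : ℕ → Ω → ℝ} {m0 n : ℕ} {r : ℝ} (H : Hyp μ ξ m0 n r) {γ : ℝ} (hγ : |γ| ≤ 3)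
    (θ : ℝ) : Integrable (WW μ ξ m0 n γ θ) μ ∧ ∫ ω, WW μ ξ m0 n γ θ ω ∂μ = 1 := by
  have h := (H (fun k => γ * Real.cos (k * θ)) (fun k => coef_bd hγ k)).1
  refine ⟨h.mul_const _, ?_⟩
  unfold WW
  rw [integral_mul_const]
  exact mul_inv_cancel₀ (EE_pos H hγ θ).ne'

lemma tilt1 {ξ : ℕ → Ω → ℝ} {m0 m n : ℕ} {r : ℝ} (H : Hyp μ ξ m0 n r) (h1 : m0 ≤ m) (h2 : m ≤ n)
    {γ s : ℝ} (hγ : |γ| ≤ 2) (hs : |s| ≤ 1) (θ : ℝ) :
    Integrable (fun ω => WW μ ξ m0 n γ θ ω *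
      Real.exp (s * SS ξ m0 m (fun k => Real.cos (k * θ)) ω)) μ ∧
    ∫ ω, WW μ ξ m0 n γ θ ω * Real.exp (s * SS ξ m0 m (fun k => Real.cos (k * θ)) ω) ∂μ ≤
      Real.exp ((γ * s + s ^ 2 / 2) * VV m0 m θ + 2 * r) := by
  have hγ3 : |γ| ≤ 3 := by linarith
  have hγs : |γ + s| ≤ 3 := (abs_add_le _ _).trans (by linarith)
  obtain ⟨i1, i2⟩ := block_bound H h1 h2 (p := fun k => (γ + s) * Real.cos (k * θ))
    (q := fun k => γ * Real.cos (k * θ)) (fun k => coef_bd hγs k) (fun k => coef_bd hγ3 k)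
  have e : ∀ ω, WW μ ξ m0 n γ θ ω * Real.exp (s * SS ξ m0 m (fun k => Real.cos (k * θ)) ω) =
      Real.exp (SS ξ m0 m (fun k => (γ + s) * Real.cos (k * θ)) ω +
        SS ξ m n (fun k => γ * Real.cos (k * θ)) ω) * (EE μ ξ m0 n γ θ)⁻¹ := by
    intro ω
    unfold WW
    rw [← SS_cons ξ h1 h2, SS_smul, SS_smul, SS_smul, mul_right_comm, ← Real.exp_add]
    congr 2
    ring
  simp only [e]
  refine ⟨i1.mul_const _, ?_⟩
  rw [integral_mul_const]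
  have e1 : TT m0 m (fun k => ((γ + s) * Real.cos (k * θ)) ^ 2) = (γ + s) ^ 2 * VV m0 m θ := by
    unfold VV
    rw [← TT_smul]
    exact TT_congr (fun k => by ring)
  have e2 : TT m n (fun k => (γ * Real.cos (k * θ)) ^ 2) = γ ^ 2 * VV m n θ := by
    unfold VV
    rw [← TT_smul]
    exact TT_congr (fun k => by ring)
  rw [e1, e2] at i2
  have e3 : VV m0 n θ = VV m0 m θ + VV m n θ := (TT_cons h1 h2 _).symm
  have h5 := EE_inv_le H hγ3 θ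
  calc _ ≤ Real.exp (((γ + s) ^ 2 * VV m0 m θ + γ ^ 2 * VV m n θ) / 2 + r) *
        Real.exp (-(γ ^ 2 * VV m0 n θ / 2) + r) :=
        mul_le_mul i2 h5 (inv_pos.mpr (EE_pos H hγ3 θ)).le (Real.exp_pos _).le
    _ = _ := by
        rw [← Real.exp_add, e3]
        congr 1
        ring

lemma tilt2 {ξ : ℕ → Ω → ℝ} {m0 m n : ℕ} {r : ℝ} (H : Hyp μ ξ m0 n r) (h1 : m0 ≤ m) (h2 : m ≤ n)
    {γ : ℝ} (hγ : |γ| ≤ 2) (θ θ' : ℝ) :
    Integrable (fun ω => WW μ ξ m0 n γ θ ω * WW μ ξ m0 n γ θ' ω *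
      Real.exp (-γ * SS ξ m0 m (fun k => Real.cos (k * θ)) ω)) μ ∧
    ∫ ω, WW μ ξ m0 n γ θ ω * WW μ ξ m0 n γ θ' ω *
      Real.exp (-γ * SS ξ m0 m (fun k => Real.cos (k * θ)) ω) ∂μ ≤
      Real.exp (γ ^ 2 * CC m n θ θ' - γ ^ 2 * VV m0 m θ / 2 + 3 * r) := by
  have hγ3 : |γ| ≤ 3 := by linarith
  obtain ⟨i1, i2⟩ := block_bound H h1 h2 (p := fun k => γ * Real.cos (k * θ'))
    (q := fun k => γ * (Real.cos (k * θ) + Real.cos (k * θ'))) (fun k => coef_bd hγ3 k)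
    (fun k => by
      rw [abs_mul]
      have h3 := Real.abs_cos_le_one (k * θ)
      have h4 := Real.abs_cos_le_one (k * θ')
      have h5 := abs_add_le (Real.cos (k * θ)) (Real.cos (k * θ'))
      have h6 := abs_nonneg γ
      have h7 := abs_nonneg (Real.cos (k * θ) + Real.cos (k * θ'))
      nlinarith)
  have e : ∀ ω, WW μ ξ m0 n γ θ ω * WW μ ξ m0 n γ θ' ω *
      Real.exp (-γ * SS ξ m0 m (fun k => Real.cos (k * θ)) ω) =
      Real.exp (SS ξ m0 m (fun k => γ * Real.cos (k * θ')) ω +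
        SS ξ m n (fun k => γ * (Real.cos (k * θ) + Real.cos (k * θ'))) ω) *
        ((EE μ ξ m0 n γ θ)⁻¹ * (EE μ ξ m0 n γ θ')⁻¹) := by
    intro ω
    unfold WW
    have e0 : SS ξ m n (fun k => γ * (Real.cos (k * θ) + Real.cos (k * θ'))) ω =
        γ * SS ξ m n (fun k => Real.cos (k * θ)) ω + γ * SS ξ m n (fun k => Real.cos (k * θ')) ω := by
      rw [SS_smul, SS_add]; ring
    rw [e0, ← SS_cons ξ h1 h2 (fun k => γ * Real.cos (k * θ)),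
      ← SS_cons ξ h1 h2 (fun k => γ * Real.cos (k * θ')), SS_smul, SS_smul, SS_smul, SS_smul]
    have e5 : ∀ A B C E1 E2 : ℝ, Real.exp A * E1 * (Real.exp B * E2) * Real.exp C =
        Real.exp (A + B + C) * (E1 * E2) := by
      intro A B C E1 E2
      rw [Real.exp_add, Real.exp_add]
      ring
    rw [e5]
    congr 2
    ring
  simp only [e]
  refine ⟨i1.mul_const _, ?_⟩
  rw [integral_mul_const]
  have e1 : TT m0 m (fun k => (γ * Real.cos (k * θ')) ^ 2) = γ ^ 2 * VV m0 m θ' := by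
    unfold VV
    rw [← TT_smul]
    exact TT_congr (fun k => by ring)
  have e2 : TT m n (fun k => (γ * (Real.cos (k * θ) + Real.cos (k * θ'))) ^ 2) =
      γ ^ 2 * (VV m n θ + (VV m n θ' + 2 * CC m n θ θ')) := by
    unfold VV CC
    rw [← TT_smul m n 2, ← TT_add, ← TT_add, ← TT_smul]
    exact TT_congr (fun k => by ring)
  rw [e1, e2] at i2
  have e3 : ∀ x, VV m0 n x = VV m0 m x + VV m n x := fun x => (TT_cons h1 h2 _).symm
  have h5 := EE_inv_le H hγ3 θ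
  have h6 := EE_inv_le H hγ3 θ'
  have p5 := (inv_pos.mpr (EE_pos H hγ3 θ)).le
  have p6 := (inv_pos.mpr (EE_pos H hγ3 θ')).le
  calc _ ≤ Real.exp ((γ ^ 2 * VV m0 m θ' + γ ^ 2 * (VV m n θ + (VV m n θ' + 2 * CC m n θ θ'))) / 2
          + r) * (Real.exp (-(γ ^ 2 * VV m0 n θ / 2) + r) *
            Real.exp (-(γ ^ 2 * VV m0 n θ' / 2) + r)) :=
        mul_le_mul i2 (mul_le_mul h5 h6 p6 (Real.exp_pos _).le) (mul_nonneg p5 p6)
          (Real.exp_pos _).le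
    _ = _ := by
        rw [← Real.exp_add, ← Real.exp_add, e3, e3]
        congr 1
        ring

/-! ### covariance estimates -/

lemma sum_cos_sigma {θ θ' : ℝ} (h1 : 1 ≤ θ) (h2 : θ ≤ 2) (h1' : 1 ≤ θ') (h2' : θ' ≤ 2)
    {m n : ℕ} (hmn : m ≤ n) :
    |∑ k ∈ Ioc m n, Real.cos (k * (θ + θ') + 0) / k| ≤ 2 / ((m : ℝ) + 1) := by
  have hs : 1 / 2 ≤ Real.sin ((θ + θ') / 2) := half_le_sin (by linarith) (by linarith)
  have hs0 : 0 < Real.sin ((θ + θ') / 2) := by linarith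
  refine (abel_cos (θ + θ') 0 hs0.ne' m n hmn).trans ?_
  rw [abs_of_pos hs0, div_le_div_iff₀ (by positivity) (by positivity)]
  have : (0 : ℝ) < (m : ℝ) + 1 := by positivity
  nlinarith

lemma VV_bounds {θ : ℝ} (h1 : 1 ≤ θ) (h2 : θ ≤ 2) {m n : ℕ} (hmn : m ≤ n) :
    hh m n / 2 - 1 ≤ VV m n θ ∧ VV m n θ ≤ hh m n / 2 + 1 := by
  have e : VV m n θ = hh m n / 2 + (∑ k ∈ Ioc m n, Real.cos (k * (θ + θ) + 0) / k) / 2 := by
    unfold VV TT hh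
    rw [Finset.sum_div, Finset.sum_div, ← Finset.sum_add_distrib]
    apply Finset.sum_congr rfl
    intro k _
    have : Real.cos (k * (θ + θ) + 0) = 2 * Real.cos (k * θ) ^ 2 - 1 := by
      rw [← Real.cos_two_mul]
      congr 1
      ring
    rw [this]
    ring
  have h := sum_cos_sigma h1 h2 h1 h2 hmn
  have h3 : 2 / ((m : ℝ) + 1) ≤ 2 := by
    rw [div_le_iff₀ (by positivity)]
    have : (0 : ℝ) ≤ m := Nat.cast_nonneg m
    linarith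
  have h4 := abs_le.mp (h.trans h3)
  rw [e]
  constructor <;> linarith [h4.1, h4.2]

lemma CC_eq (m n : ℕ) (θ θ' : ℝ) : CC m n θ θ' =
    (∑ k ∈ Ioc m n, Real.cos (k * (θ - θ') + 0) / k) / 2 +
    (∑ k ∈ Ioc m n, Real.cos (k * (θ + θ') + 0) / k) / 2 := by
  unfold CC TT
  rw [Finset.sum_div, Finset.sum_div, ← Finset.sum_add_distrib]
  apply Finset.sum_congr rfl
  intro k _
  have h1 : Real.cos (k * (θ - θ') + 0) =
      Real.cos (k * θ) * Real.cos (k * θ') + Real.sin (k * θ) * Real.sin (k * θ') := by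
    rw [← Real.cos_sub]; congr 1; ring
  have h2 : Real.cos (k * (θ + θ') + 0) =
      Real.cos (k * θ) * Real.cos (k * θ') - Real.sin (k * θ) * Real.sin (k * θ') := by
    rw [← Real.cos_add]; congr 1; ring
  rw [h1, h2]
  ring

lemma CC_bound {θ θ' : ℝ} (h1 : 1 ≤ θ) (h2 : θ ≤ 2) (h1' : 1 ≤ θ') (h2' : θ' ≤ 2)
    {m n : ℕ} (hmn : m ≤ n) (hτ : θ - θ' ≠ 0) :
    CC m n θ θ' ≤ (2 / |θ - θ'| + 1) / ((m : ℝ) + 1) := by
  have hτ1 : |θ - θ'| ≤ 1 := by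
    rw [abs_le]; constructor <;> linarith
  have hq := quarter_le_sin hτ1
  have hτ0 : 0 < |θ - θ'| := abs_pos.mpr hτ
  have hs0 : 0 < |Real.sin ((θ - θ') / 2)| := lt_of_lt_of_le (by positivity) hq
  have hA := (abs_le.mp (abel_cos (θ - θ') 0 (abs_pos.mp hs0) m n hmn)).2
  have hB := (abs_le.mp (sum_cos_sigma h1 h2 h1' h2' hmn)).2
  have hm : (0 : ℝ) < (m : ℝ) + 1 := by positivity
  have hA2 : 1 / (|Real.sin ((θ - θ') / 2)| * ((m : ℝ) + 1)) ≤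
      1 / (|θ - θ'| / 4 * ((m : ℝ) + 1)) := by
    apply one_div_le_one_div_of_le (by positivity)
    exact mul_le_mul_of_nonneg_right hq hm.le
  have e : (2 / |θ - θ'| + 1) / ((m : ℝ) + 1) =
      (1 / (|θ - θ'| / 4 * ((m : ℝ) + 1))) / 2 + (2 / ((m : ℝ) + 1)) / 2 := by
    field_simp
    ring
  rw [CC_eq, e]
  linarith

lemma CC_le_hh (m n : ℕ) (θ θ' : ℝ) : CC m n θ θ' ≤ hh m n := by
  unfold CC TT hh
  apply Finset.sum_le_sum
  intro k _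
  apply div_le_div_of_nonneg_right _ (Nat.cast_nonneg k)
  have h3 := Real.abs_cos_le_one (k * θ)
  have h4 := Real.abs_cos_le_one (k * θ')
  calc Real.cos (k * θ) * Real.cos (k * θ') ≤ |Real.cos (k * θ) * Real.cos (k * θ')| := le_abs_self _
    _ = |Real.cos (k * θ)| * |Real.cos (k * θ')| := abs_mul _ _
    _ ≤ 1 * 1 := mul_le_mul h3 h4 (abs_nonneg _) zero_le_one
    _ = 1 := one_mul 1

end Pool.Agent.Helpers25.RM
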