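import Mathlib
import Pool.Agent.Helpers25.RMTrig
import Pool.Agent.Helpers25.RMMgf
import Pool.Agent.Helpers25.RMLowerA

/-! The lower bound: truncated moments. -/

namespace Pool.Agent.Helpers25.RM

open Finset MeasureTheory ProbabilityTheory Filter
open scoped Topology

set_option linter.unusedSectionVars false
set_option maxHeartbeats 2000000

variable {Ω : Type*} [MeasurableSpace Ω] {μ : Measure Ω} [IsProbabilityMeasure μ]

lemma SS_meas {ξ : ℕ → Ω → ℝ} (hξ : ∀ k, Measurable (ξ k)) (m n : ℕ) (b : ℕ → ℝ) :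
    Measurable (SS ξ m n b) := by
  unfold SS
  apply Finset.measurable_sum
  intro k _
  exact ((hξ k).div_const _).const_mul _

/-- the barrier event. -/
def AA (ξ : ℕ → Ω → ℝ) (κ b : ℝ) (j0 n : ℕ) (θ : ℝ) : Set Ω :=
  {ω | (∀ i ∈ Icc j0 (Nat.log 2 n), SS ξ (2 ^ j0) (2 ^ i) (fun k => Real.cos (k * θ)) ω ≤
      (1 - κ / 2) * hh (2 ^ j0) (2 ^ i) + b) ∧
    (1 - 3 * κ / 2) * hh (2 ^ j0) n ≤ SS ξ (2 ^ j0) n (fun k => Real.cos (k * θ)) ω}

lemma AA_meas {ξ : ℕ → Ω → ℝ} (hξ : ∀ k, Measurable (ξ k)) (κ b : ℝ) (j0 n : ℕ) (θ : ℝ) :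
    MeasurableSet (AA ξ κ b j0 n θ) := by
  have e : AA ξ κ b j0 n θ = (⋂ i ∈ Icc j0 (Nat.log 2 n),
      {ω | SS ξ (2 ^ j0) (2 ^ i) (fun k => Real.cos (k * θ)) ω ≤
      (1 - κ / 2) * hh (2 ^ j0) (2 ^ i) + b}) ∩
      {ω | (1 - 3 * κ / 2) * hh (2 ^ j0) n ≤ SS ξ (2 ^ j0) n (fun k => Real.cos (k * θ)) ω} := by
    ext ω
    simp only [AA, Set.mem_ofPred_eq, Set.mem_inter_iff, Set.mem_iInter]
  rw [e]
  apply MeasurableSet.inter
  · apply Finset.measurableSet_biInter
    intro i _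
    exact measurableSet_le (SS_meas hξ _ _ _) measurable_const
  · exact measurableSet_le measurable_const (SS_meas hξ _ _ _)

lemma geom_Icc_le {q : ℝ} (h0 : 0 ≤ q) (h1 : q < 1) (j J : ℕ) :
    ∑ i ∈ Icc j J, q ^ (i - j) ≤ 1 / (1 - q) := by
  have e : Icc j J = Ico j (J + 1) := by
    ext k; simp only [Finset.mem_Icc, Finset.mem_Ico]; omega
  rw [e, Finset.sum_Ico_eq_sum_range]
  have e2 : ∀ i ∈ range (J + 1 - j), q ^ (j + i - j) = q ^ i := by
    intro i _
    rw [Nat.add_sub_cancel_left]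
  rw [Finset.sum_congr rfl e2, le_div_iff₀ (by linarith)]
  have := geom_sum_mul q (J + 1 - j)
  have h3 : 0 ≤ q ^ (J + 1 - j) := by positivity
  nlinarith

lemma first_moment {ξ : ℕ → Ω → ℝ} (hξ : ∀ k, Measurable (ξ k)) {κ b δ r : ℝ} {j0 n : ℕ}
    (hκ : 0 < κ) (hκ1 : κ ≤ 1 / 2) (hr1 : r ≤ 1)
    (H : Hyp μ ξ (2 ^ j0) n r) (hn : 2 ^ j0 ≤ n)
    (hb : Real.exp (4 - κ * b) * (1 / (1 - Real.exp (-(κ ^ 2 / 8)))) ≤ δ / 2)
    (hn2 : Real.exp (4 - κ ^ 2 / 4 * hh (2 ^ j0) n) ≤ δ / 2)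
    {θ : ℝ} (h1 : 1 ≤ θ) (h2 : θ ≤ 2) :
    1 - δ ≤ ∫ ω, (AA ξ κ b j0 n θ).indicator (WW μ ξ (2 ^ j0) n (2 * (1 - κ)) θ) ω ∂μ := by
  set γ : ℝ := 2 * (1 - κ) with hγdef
  have hγ2 : |γ| ≤ 2 := by rw [abs_le]; constructor <;> linarith
  have hγ3 : |γ| ≤ 3 := by linarith
  have hκabs : |κ| ≤ 1 := by rw [abs_le]; constructor <;> linarith
  have hnκabs : |-κ| ≤ 1 := by rw [abs_neg]; exact hκabs
  set W := WW μ ξ (2 ^ j0) n γ θ with hW
  set S : ℕ → Ω → ℝ := fun m => SS ξ (2 ^ j0) m (fun k => Real.cos (k * θ)) with hS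
  obtain ⟨hWi, hW1⟩ := WW_int H hγ3 θ
  have hWpos : ∀ ω, 0 < W ω := fun ω => WW_pos H hγ3 θ ω
  set I := Icc j0 (Nat.log 2 n) with hI
  have hIle : ∀ i ∈ I, 2 ^ i ≤ n := by
    intro i hi
    rw [hI, Finset.mem_Icc] at hi
    have hn0 : n ≠ 0 := by
      have : 0 < 2 ^ j0 := by positivity
      omega
    exact (Nat.pow_le_pow_right (by norm_num) hi.2).trans (Nat.pow_log_le_self 2 hn0)
  have hIge : ∀ i ∈ I, 2 ^ j0 ≤ 2 ^ i := by
    intro i hi
    rw [hI, Finset.mem_Icc] at hi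
    exact Nat.pow_le_pow_right (by norm_num) hi.1
  set c : ℕ → ℝ := fun i => Real.exp (-(κ * ((1 - κ / 2) * hh (2 ^ j0) (2 ^ i) + b))) with hc
  set d : ℝ := Real.exp (κ * ((1 - 3 * κ / 2) * hh (2 ^ j0) n)) with hd
  have hint1 : ∀ i ∈ I, Integrable (fun ω => W ω * Real.exp (κ * S (2 ^ i) ω)) μ := by
    intro i hi
    exact (tilt1 H (hIge i hi) (hIle i hi) hγ2 hκabs θ).1
  have hint2 : Integrable (fun ω => W ω * Real.exp (-κ * S n ω)) μ :=
    (tilt1 H hn le_rfl hγ2 hnκabs θ).1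
  set g : Ω → ℝ := fun ω => W ω - ∑ i ∈ I, (W ω * Real.exp (κ * S (2 ^ i) ω)) * c i -
    (W ω * Real.exp (-κ * S n ω)) * d with hg
  have hsumint : Integrable (fun ω => ∑ i ∈ I, (W ω * Real.exp (κ * S (2 ^ i) ω)) * c i) μ :=
    integrable_finsetSum _ (fun i hi => (hint1 i hi).mul_const _)
  have hWsub : Integrable (fun ω => W ω - ∑ i ∈ I, (W ω * Real.exp (κ * S (2 ^ i) ω)) * c i) μ :=
    hWi.sub hsumint
  have hgint : Integrable g μ := hWsub.sub (hint2.mul_const d)
  have hIndint : Integrable ((AA ξ κ b j0 n θ).indicator W) μ :=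
    hWi.indicator (AA_meas hξ κ b j0 n θ)
  have hpt : ∀ ω, g ω ≤ (AA ξ κ b j0 n θ).indicator W ω := by
    intro ω
    have hnn1 : ∀ i ∈ I, 0 ≤ (W ω * Real.exp (κ * S (2 ^ i) ω)) * c i := fun i _ =>
      mul_nonneg (mul_nonneg (hWpos ω).le (Real.exp_pos _).le) (Real.exp_pos _).le
    have hnn : 0 ≤ ∑ i ∈ I, (W ω * Real.exp (κ * S (2 ^ i) ω)) * c i := Finset.sum_nonneg hnn1
    have hnn2 : 0 ≤ (W ω * Real.exp (-κ * S n ω)) * d :=
      mul_nonneg (mul_nonneg (hWpos ω).le (Real.exp_pos _).le) (Real.exp_pos _).le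
    by_cases hω : ω ∈ AA ξ κ b j0 n θ
    · rw [Set.indicator_of_mem hω]
      rw [hg]
      simp only
      linarith
    · rw [Set.indicator_of_notMem hω]
      have hω' : (∃ i ∈ I, (1 - κ / 2) * hh (2 ^ j0) (2 ^ i) + b < S (2 ^ i) ω) ∨
          S n ω < (1 - 3 * κ / 2) * hh (2 ^ j0) n := by
        by_contra hcon
        push Not at hcon
        exact hω ⟨hcon.1, hcon.2⟩
      rw [hg]
      simp only
      rcases hω' with ⟨i, hi, hlt⟩ | hlt
      · have h3 : W ω ≤ (W ω * Real.exp (κ * S (2 ^ i) ω)) * c i := by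
          have : 1 ≤ Real.exp (κ * S (2 ^ i) ω) * c i := by
            rw [hc]
            simp only
            rw [← Real.exp_add]
            apply Real.one_le_exp
            nlinarith
          calc W ω = W ω * 1 := (mul_one _).symm
            _ ≤ W ω * (Real.exp (κ * S (2 ^ i) ω) * c i) :=
              mul_le_mul_of_nonneg_left this (hWpos ω).le
            _ = _ := by ring
        have h4 := Finset.single_le_sum hnn1 hi
        linarith
      · have h3 : W ω ≤ (W ω * Real.exp (-κ * S n ω)) * d := by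
          have : 1 ≤ Real.exp (-κ * S n ω) * d := by
            rw [hd, ← Real.exp_add]
            apply Real.one_le_exp
            nlinarith
          calc W ω = W ω * 1 := (mul_one _).symm
            _ ≤ W ω * (Real.exp (-κ * S n ω) * d) :=
              mul_le_mul_of_nonneg_left this (hWpos ω).le
            _ = _ := by ring
        linarith
  have hgval : ∫ ω, g ω ∂μ = 1 - ∑ i ∈ I, (∫ ω, W ω * Real.exp (κ * S (2 ^ i) ω) ∂μ) * c i -
      (∫ ω, W ω * Real.exp (-κ * S n ω) ∂μ) * d := by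
    rw [hg]
    have q1 := integral_sub hWsub (hint2.mul_const d)
    have q2 := integral_sub hWi hsumint
    rw [q1, q2, integral_finsetSum _ (fun i hi => (hint1 i hi).mul_const _), hW1,
      integral_mul_const]
    simp only [integral_mul_const]
  set q : ℝ := Real.exp (-(κ ^ 2 / 8)) with hq
  have hq0 : 0 ≤ q := (Real.exp_pos _).le
  have hq1 : q < 1 := by
    rw [hq]
    rw [Real.exp_lt_one_iff]
    have : 0 < κ ^ 2 := by positivity
    linarith
  have hb1 : ∀ i ∈ I, (∫ ω, W ω * Real.exp (κ * S (2 ^ i) ω) ∂μ) * c i ≤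
      Real.exp (4 - κ * b) * q ^ (i - j0) := by
    intro i hi
    have ht := (tilt1 H (hIge i hi) (hIle i hi) hγ2 hκabs θ).2
    have hV := (VV_bounds h1 h2 (hIge i hi)).2
    have hiI := hi
    rw [hI, Finset.mem_Icc] at hiI
    have hh1 := hh_dyadic hiI.1
    set h := hh (2 ^ j0) (2 ^ i) with hh'
    have hcast : ((i - j0 : ℕ) : ℝ) = (i : ℝ) - j0 := by rw [Nat.cast_sub hiI.1]
    have hqpow : q ^ (i - j0) = Real.exp (-(κ ^ 2 / 8) * ((i : ℝ) - j0)) := by
      rw [hq, ← Real.exp_nat_mul, hcast]; congr 1; ring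
    rw [hqpow, ← Real.exp_add]
    calc _ ≤ Real.exp ((γ * κ + κ ^ 2 / 2) * VV (2 ^ j0) (2 ^ i) θ + 2 * r) * c i :=
          mul_le_mul_of_nonneg_right ht (Real.exp_pos _).le
      _ = Real.exp ((γ * κ + κ ^ 2 / 2) * VV (2 ^ j0) (2 ^ i) θ + 2 * r +
            -(κ * ((1 - κ / 2) * h + b))) := by
          rw [hc]
          simp only
          rw [← Real.exp_add]
      _ ≤ _ := by
          apply Real.exp_le_exp.mpr
          have hcoef : 0 ≤ γ * κ + κ ^ 2 / 2 := by rw [hγdef]; nlinarith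
          have h5 : (γ * κ + κ ^ 2 / 2) * VV (2 ^ j0) (2 ^ i) θ ≤
              (γ * κ + κ ^ 2 / 2) * (h / 2 + 1) := mul_le_mul_of_nonneg_left hV hcoef
          have h6 : (γ * κ + κ ^ 2 / 2) * (h / 2 + 1) - κ * ((1 - κ / 2) * h + b) =
              -(κ ^ 2 / 4) * h + (2 * κ - 3 / 2 * κ ^ 2) - κ * b := by rw [hγdef]; ring
          have h7 : -(κ ^ 2 / 4) * h ≤ -(κ ^ 2 / 8) * ((i : ℝ) - j0) := by nlinarith [sq_nonneg κ]
          have h8 : 2 * κ - 3 / 2 * κ ^ 2 ≤ 1 := by nlinarith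
          linarith
  have hb2 : (∫ ω, W ω * Real.exp (-κ * S n ω) ∂μ) * d ≤
      Real.exp (4 - κ ^ 2 / 4 * hh (2 ^ j0) n) := by
    have ht := (tilt1 H hn le_rfl hγ2 hnκabs θ).2
    have hV := (VV_bounds h1 h2 hn).1
    set h := hh (2 ^ j0) n with hh'
    calc _ ≤ Real.exp ((γ * -κ + (-κ) ^ 2 / 2) * VV (2 ^ j0) n θ + 2 * r) * d :=
          mul_le_mul_of_nonneg_right ht (Real.exp_pos _).le
      _ = Real.exp ((γ * -κ + (-κ) ^ 2 / 2) * VV (2 ^ j0) n θ + 2 * r +
            κ * ((1 - 3 * κ / 2) * h)) := by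
          rw [hd, ← Real.exp_add]
      _ ≤ _ := by
          apply Real.exp_le_exp.mpr
          have hcoef : 0 ≤ -(γ * -κ + (-κ) ^ 2 / 2) := by rw [hγdef]; nlinarith
          have h5 : -(γ * -κ + (-κ) ^ 2 / 2) * (h / 2 - 1) ≤
              -(γ * -κ + (-κ) ^ 2 / 2) * VV (2 ^ j0) n θ := mul_le_mul_of_nonneg_left hV hcoef
          have h6 : (γ * -κ + (-κ) ^ 2 / 2) * (h / 2 - 1) + κ * ((1 - 3 * κ / 2) * h) =
              -(κ ^ 2 / 4) * h + (2 * κ - 5 / 2 * κ ^ 2) := by rw [hγdef]; ring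
          have h8 : 2 * κ - 5 / 2 * κ ^ 2 ≤ 1 := by nlinarith
          linarith
  have hsum : ∑ i ∈ I, (∫ ω, W ω * Real.exp (κ * S (2 ^ i) ω) ∂μ) * c i ≤ δ / 2 := by
    calc _ ≤ ∑ i ∈ I, Real.exp (4 - κ * b) * q ^ (i - j0) := Finset.sum_le_sum hb1
      _ = Real.exp (4 - κ * b) * ∑ i ∈ I, q ^ (i - j0) := by rw [Finset.mul_sum]
      _ ≤ Real.exp (4 - κ * b) * (1 / (1 - q)) :=
          mul_le_mul_of_nonneg_left (geom_Icc_le hq0 hq1 _ _) (Real.exp_pos _).le
      _ ≤ δ / 2 := hb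
  calc 1 - δ ≤ ∫ ω, g ω ∂μ := by rw [hgval]; linarith
    _ ≤ _ := integral_mono hgint hIndint hpt

/-- the pair function. -/
noncomputable def GG (κ b ρ : ℝ) (j0 n d : ℕ) : ℝ :=
  (if (d : ℝ) < ρ * n then Real.exp 15 else 0) +
  (if d * 2 ^ j0 < n then Real.exp (25 + 2 * b) *
    ((n : ℝ) / (max d 1 * 2 ^ j0)) ^ (1 - κ) else 0)

lemma GG_nonneg (κ b ρ : ℝ) (j0 n d : ℕ) : 0 ≤ GG κ b ρ j0 n d := by
  unfold GG
  apply add_nonneg
  · split_ifs
    · exact (Real.exp_pos _).le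
    · exact le_rfl
  · split_ifs
    · positivity
    · exact le_rfl

lemma pair_bound {ξ : ℕ → Ω → ℝ} (hξ : ∀ k, Measurable (ξ k)) {κ b ρ r : ℝ} {j0 n : ℕ}
    (hκ : 0 < κ) (hκ1 : κ ≤ 1 / 2) (hb : 0 ≤ b) (hr : 0 ≤ r) (hr1 : r ≤ 1) (hρ : 0 < ρ) (hρ1 : ρ ≤ 1)
    (H : Hyp μ ξ (2 ^ j0) n r) (hn : 2 ^ j0 ≤ n) {i j : ℕ} (hi : i < n) (hj : j < n) :
    Integrable (fun ω => (AA ξ κ b j0 n (1 + i / n)).indicator
        (WW μ ξ (2 ^ j0) n (2 * (1 - κ)) (1 + i / n)) ω *
      (AA ξ κ b j0 n (1 + j / n)).indicator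
        (WW μ ξ (2 ^ j0) n (2 * (1 - κ)) (1 + j / n)) ω) μ ∧
    ∫ ω, (AA ξ κ b j0 n (1 + i / n)).indicator
        (WW μ ξ (2 ^ j0) n (2 * (1 - κ)) (1 + i / n)) ω *
      (AA ξ κ b j0 n (1 + j / n)).indicator
        (WW μ ξ (2 ^ j0) n (2 * (1 - κ)) (1 + j / n)) ω ∂μ ≤
      Real.exp (12 / (ρ * 2 ^ j0) + 3 * r) + GG κ b ρ j0 n ((i - j) + (j - i)) := by
  set γ : ℝ := 2 * (1 - κ) with hγdef
  have hγ0 : 0 ≤ γ := by linarith
  have hγle : γ ≤ 2 := by linarith
  have hγ2 : |γ| ≤ 2 := by rw [abs_le]; constructor <;> linarith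
  have hγ3 : |γ| ≤ 3 := by linarith
  have hγsq : γ ^ 2 ≤ 4 := by nlinarith
  have hn0 : (0 : ℝ) < n := by
    have : 0 < 2 ^ j0 := by positivity
    exact_mod_cast (by omega : 0 < n)
  set m0 : ℕ := 2 ^ j0 with hm0
  have hm0pos : 0 < m0 := by positivity
  have hm0r : (0 : ℝ) < m0 := by exact_mod_cast hm0pos
  set θ : ℝ := 1 + i / n with hθ
  set θ' : ℝ := 1 + j / n with hθ'
  have hθ1 : 1 ≤ θ := by rw [hθ]; have : 0 ≤ (i : ℝ) / n := by positivity
                         linarith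
  have hθ1' : 1 ≤ θ' := by rw [hθ']; have : 0 ≤ (j : ℝ) / n := by positivity
                           linarith
  have hθ2 : θ ≤ 2 := by
    rw [hθ]
    have : (i : ℝ) / n ≤ 1 := by rw [div_le_one hn0]; exact_mod_cast hi.le
    linarith
  have hθ2' : θ' ≤ 2 := by
    rw [hθ']
    have : (j : ℝ) / n ≤ 1 := by rw [div_le_one hn0]; exact_mod_cast hj.le
    linarith
  set d : ℕ := (i - j) + (j - i) with hd
  have hdabs : |θ - θ'| = (d : ℝ) / n := by
    have e : θ - θ' = ((i : ℝ) - j) / n := by rw [hθ, hθ']; ring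
    rw [e, abs_div, abs_of_pos hn0]
    congr 1
    rcases le_total i j with h | h
    · have : d = j - i := by omega
      rw [this, Nat.cast_sub h, abs_sub_comm, abs_of_nonneg]
      have : (i : ℝ) ≤ j := by exact_mod_cast h
      linarith
    · have : d = i - j := by omega
      rw [this, Nat.cast_sub h, abs_of_nonneg]
      have : (j : ℝ) ≤ i := by exact_mod_cast h
      linarith
  set W := WW μ ξ m0 n γ θ with hW
  set W' := WW μ ξ m0 n γ θ' with hW'
  have hWpos : ∀ ω, 0 < W ω := fun ω => WW_pos H hγ3 θ ω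
  have hWpos' : ∀ ω, 0 < W' ω := fun ω => WW_pos H hγ3 θ' ω
  set A := AA ξ κ b j0 n θ with hA
  set A' := AA ξ κ b j0 n θ' with hA'
  -- untruncated pair
  obtain ⟨hp1, hp2⟩ := tilt2 H le_rfl hn hγ2 θ θ'
  have hWW : Integrable (fun ω => W ω * W' ω) μ := by
    refine hp1.congr ?_
    filter_upwards with ω
    rw [SS_self]
    simp [hW, hW']
  have hWWb : ∫ ω, W ω * W' ω ∂μ ≤ Real.exp (γ ^ 2 * CC m0 n θ θ' + 3 * r) := by
    have e1 : ∫ ω, W ω * W' ω ∂μ = ∫ ω, WW μ ξ m0 n γ θ ω * WW μ ξ m0 n γ θ' ω *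
      Real.exp (-γ * SS ξ m0 m0 (fun k => Real.cos (k * θ)) ω) ∂μ := by
      congr 1
      funext ω
      rw [SS_self]
      simp [hW, hW']
    have e2 : VV m0 m0 θ = 0 := by simp [VV, TT]
    rw [e1]
    refine hp2.trans (le_of_eq ?_)
    rw [e2]
    congr 1
    ring
  have hmeas : AEStronglyMeasurable (fun ω => A.indicator W ω * A'.indicator W' ω) μ := by
    have hWm := (WW_int H hγ3 θ).1.aestronglyMeasurable
    have hWm' := (WW_int H hγ3 θ').1.aestronglyMeasurable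
    exact (hWm.indicator (AA_meas hξ κ b j0 n θ)).mul (hWm'.indicator (AA_meas hξ κ b j0 n θ'))
  have hindle : ∀ ω, A.indicator W ω ≤ W ω := fun ω =>
    Set.indicator_le_self' (fun _ _ => (hWpos ω).le) ω
  have hindle' : ∀ ω, A'.indicator W' ω ≤ W' ω := fun ω =>
    Set.indicator_le_self' (fun _ _ => (hWpos' ω).le) ω
  have hind0 : ∀ ω, 0 ≤ A.indicator W ω := fun ω =>
    Set.indicator_nonneg (fun x _ => (hWpos x).le) ω
  have hind0' : ∀ ω, 0 ≤ A'.indicator W' ω := fun ω =>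
    Set.indicator_nonneg (fun x _ => (hWpos' x).le) ω
  have hle : ∀ ω, A.indicator W ω * A'.indicator W' ω ≤ W ω * W' ω := fun ω =>
    mul_le_mul (hindle ω) (hindle' ω) (hind0' ω) (hWpos ω).le
  have hintg : Integrable (fun ω => A.indicator W ω * A'.indicator W' ω) μ := by
    refine Integrable.mono' hWW hmeas ?_
    filter_upwards with ω
    rw [Real.norm_eq_abs, abs_of_nonneg (mul_nonneg (hind0 ω) (hind0' ω))]
    exact hle ω
  refine ⟨hintg, ?_⟩
  have hle2 : ∫ ω, A.indicator W ω * A'.indicator W' ω ∂μ ≤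
      Real.exp (γ ^ 2 * CC m0 n θ θ' + 3 * r) :=
    (integral_mono hintg hWW hle).trans hWWb
  have hE1pos : 0 < Real.exp (12 / (ρ * m0) + 3 * r) := Real.exp_pos _
  have hm0cast : ((2 : ℝ) ^ j0) = (m0 : ℝ) := by rw [hm0]; push_cast; ring
  rw [hm0cast]
  unfold GG
  rw [hm0cast]
  by_cases hcase : d * m0 < n
  · -- close pairs
    rw [← hm0, if_pos hcase]
    have hfirst : 0 ≤ (if (d : ℝ) < ρ * n then Real.exp 15 else 0) := by
      split_ifs
      · exact (Real.exp_pos _).le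
      · exact le_rfl
    set D : ℕ := max d 1 with hD
    have hD1 : 1 ≤ D := le_max_right _ _
    have hDm0 : m0 * D ≤ n := by
      rcases Nat.eq_zero_or_pos d with h0 | h0
      · have : D = 1 := by omega
        rw [this]; omega
      · have : D = d := by omega
        rw [this, mul_comm]; exact hcase.le
    set x : ℕ := n / D with hx
    have hx1 : m0 ≤ x := by rw [hx, Nat.le_div_iff_mul_le (by omega)]; exact hDm0
    have hx0 : x ≠ 0 := by omega
    set l : ℕ := Nat.log 2 x with hl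
    have hxn : x ≤ n := Nat.div_le_self _ _
    have hll : l ≤ Nat.log 2 n := Nat.log_mono_right hxn
    have hjl : j0 ≤ l := by
      rw [hl]
      exact Nat.le_log_of_pow_le (by norm_num) (by rw [← hm0]; exact hx1)
    set m : ℕ := 2 ^ l with hm
    have hmx : m ≤ x := Nat.pow_log_le_self 2 hx0
    have hx2m : x < 2 * m := by
      have := Nat.lt_pow_succ_log_self (b := 2) (by norm_num) x
      rw [← hl, pow_succ] at this
      omega
    have hm0m : m0 ≤ m := Nat.pow_le_pow_right (by norm_num) hjl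
    have hmn : m ≤ n := hmx.trans hxn
    have hmpos : 0 < m := by positivity
    have hmr : (0 : ℝ) < m := by exact_mod_cast hmpos
    have hDr : (0 : ℝ) < D := by exact_mod_cast (by omega : 0 < D)
    have hmD : (m : ℝ) ≤ n / D := by
      rw [le_div_iff₀ hDr]
      have : m * D ≤ n := (Nat.mul_le_mul_right D hmx).trans (Nat.div_mul_le_self n D)
      exact_mod_cast this
    have hn2mD : (n : ℝ) < 2 * m * D := by
      have : n < 2 * m * D := by
        rw [hx, Nat.div_lt_iff_lt_mul (by omega)] at hx2m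
        exact hx2m
      exact_mod_cast this
    have hCC : CC m n θ θ' ≤ 5 := by
      rcases Nat.eq_zero_or_pos d with h0 | h0
      · have hD' : D = 1 := by omega
        rw [hD'] at hn2mD
        have h3 := (CC_le_hh m n θ θ').trans (hh_le_log hmpos hmn)
        have h4 : Real.log (n / m) ≤ Real.log 2 := by
          apply Real.log_le_log (by positivity)
          rw [div_le_iff₀ hmr]
          push_cast at hn2mD
          linarith
        have h5 := Real.log_two_lt_d9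
        linarith
      · have hD' : D = d := by omega
        have hdr : (0 : ℝ) < d := by exact_mod_cast h0
        have hτ : θ - θ' ≠ 0 := by
          intro h
          rw [h, abs_zero] at hdabs
          have : 0 < (d : ℝ) / n := by positivity
          linarith
        have h3 := CC_bound hθ1 hθ2 hθ1' hθ2' hmn hτ
        refine h3.trans ?_
        rw [hdabs, div_le_iff₀ (by positivity)]
        have h4 : 2 / ((d : ℝ) / n) ≤ 4 * m := by
          rw [div_div_eq_mul_div, div_le_iff₀ hdr]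
          rw [hD'] at hn2mD
          linarith
        linarith
    obtain ⟨ht1, ht2⟩ := tilt2 H hm0m hmn hγ2 θ θ'
    set S := SS ξ m0 m (fun k => Real.cos (k * θ)) with hS
    set h := hh m0 m with hh'
    have hptw : ∀ ω, A.indicator W ω * A'.indicator W' ω ≤
        Real.exp (γ * ((1 - κ / 2) * h + b)) * (W ω * W' ω * Real.exp (-γ * S ω)) := by
      intro ω
      by_cases hω : ω ∈ A
      · have hbar : S ω ≤ (1 - κ / 2) * h + b := by
          have := hω.1 l (by rw [Finset.mem_Icc]; exact ⟨hjl, hll⟩)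
          exact this
        have h1e : 1 ≤ Real.exp (γ * ((1 - κ / 2) * h + b)) * Real.exp (-γ * S ω) := by
          rw [← Real.exp_add]
          apply Real.one_le_exp
          nlinarith
        have hWW0 : 0 ≤ W ω * W' ω := mul_nonneg (hWpos ω).le (hWpos' ω).le
        calc A.indicator W ω * A'.indicator W' ω ≤ W ω * W' ω := hle ω
          _ = W ω * W' ω * 1 := (mul_one _).symm
          _ ≤ W ω * W' ω * (Real.exp (γ * ((1 - κ / 2) * h + b)) * Real.exp (-γ * S ω)) :=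
              mul_le_mul_of_nonneg_left h1e hWW0
          _ = _ := by ring
      · rw [Set.indicator_of_notMem hω, zero_mul]
        have := (hWpos ω).le
        have := (hWpos' ω).le
        positivity
    have hI := integral_mono hintg (ht1.const_mul (Real.exp (γ * ((1 - κ / 2) * h + b)))) hptw
    rw [integral_const_mul] at hI
    have hV := (VV_bounds hθ1 hθ2 hm0m).1
    have hh0 : 0 ≤ h := hh_nonneg _ _
    have hfinal : Real.exp (γ * ((1 - κ / 2) * h + b)) *
        Real.exp (γ ^ 2 * CC m n θ θ' - γ ^ 2 * VV m0 m θ / 2 + 3 * r) ≤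
        Real.exp (25 + 2 * b) * Real.exp ((1 - κ) * h) := by
      rw [← Real.exp_add, ← Real.exp_add]
      apply Real.exp_le_exp.mpr
      have h5 : γ ^ 2 * CC m n θ θ' ≤ 20 := by
        have : γ ^ 2 * CC m n θ θ' ≤ γ ^ 2 * 5 := mul_le_mul_of_nonneg_left hCC (sq_nonneg γ)
        linarith
      have h6 : γ ^ 2 * (h / 2 - 1) ≤ γ ^ 2 * VV m0 m θ := mul_le_mul_of_nonneg_left hV (sq_nonneg γ)
      have h7 : γ * ((1 - κ / 2) * h + b) - γ ^ 2 * (h / 2 - 1) / 2 =
          (1 - κ) * h + γ * b + γ ^ 2 / 2 := by rw [hγdef]; ring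
      have h8 : γ * b ≤ 2 * b := mul_le_mul_of_nonneg_right hγle hb
      linarith
    have hpow : Real.exp ((1 - κ) * h) ≤ ((n : ℝ) / (D * m0)) ^ (1 - κ) := by
      have h5 : h ≤ Real.log (n / (D * m0)) := by
        refine (hh_le_log hm0pos hm0m).trans ?_
        apply Real.log_le_log (by positivity)
        rw [div_le_div_iff₀ hm0r (by positivity)]
        rw [le_div_iff₀ hDr] at hmD
        nlinarith
      rw [Real.rpow_def_of_pos (by positivity)]
      apply Real.exp_le_exp.mpr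
      rw [mul_comm (Real.log _)]
      exact mul_le_mul_of_nonneg_left h5 (by linarith)
    calc _ ≤ Real.exp (γ * ((1 - κ / 2) * h + b)) *
          Real.exp (γ ^ 2 * CC m n θ θ' - γ ^ 2 * VV m0 m θ / 2 + 3 * r) :=
          hI.trans (mul_le_mul_of_nonneg_left ht2 (Real.exp_pos _).le)
      _ ≤ Real.exp (25 + 2 * b) * Real.exp ((1 - κ) * h) := hfinal
      _ ≤ Real.exp (25 + 2 * b) * ((n : ℝ) / (D * m0)) ^ (1 - κ) :=
          mul_le_mul_of_nonneg_left hpow (Real.exp_pos _).le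
      _ ≤ _ := by linarith
  · rw [← hm0, if_neg hcase, add_zero]
    push Not at hcase
    have hd0 : 0 < d := by
      rcases Nat.eq_zero_or_pos d with h0 | h0
      · rw [h0] at hcase
        omega
      · exact h0
    have hdr : (0 : ℝ) < d := by exact_mod_cast hd0
    have hτ : θ - θ' ≠ 0 := by
      intro h
      rw [h, abs_zero] at hdabs
      have : 0 < (d : ℝ) / n := by positivity
      linarith
    have h3 := CC_bound hθ1 hθ2 hθ1' hθ2' hn hτ
    rw [hdabs] at h3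
    have hrn : (n : ℝ) ≤ d * m0 := by exact_mod_cast hcase
    by_cases hρd : (d : ℝ) < ρ * n
    · rw [if_pos hρd]
      have h4 : CC m0 n θ θ' ≤ 2 := by
        refine h3.trans ?_
        rw [div_le_iff₀ (by positivity)]
        have h5 : 2 / ((d : ℝ) / n) ≤ 2 * m0 := by
          rw [div_div_eq_mul_div, div_le_iff₀ hdr]
          linarith
        linarith
      have h5 : γ ^ 2 * CC m0 n θ θ' ≤ 8 := by
        have : γ ^ 2 * CC m0 n θ θ' ≤ γ ^ 2 * 2 := mul_le_mul_of_nonneg_left h4 (sq_nonneg γ)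
        linarith
      have h6 : Real.exp (γ ^ 2 * CC m0 n θ θ' + 3 * r) ≤ Real.exp 15 := by
        apply Real.exp_le_exp.mpr
        linarith
      linarith
    · rw [if_neg hρd, add_zero]
      push Not at hρd
      refine hle2.trans ?_
      apply Real.exp_le_exp.mpr
      have h4 : CC m0 n θ θ' ≤ 3 / (ρ * m0) := by
        refine h3.trans ?_
        have h5 : 2 / ((d : ℝ) / n) ≤ 2 / ρ := by
          apply div_le_div_of_nonneg_left (by norm_num) hρ
          rw [le_div_iff₀ hn0]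
          linarith
        calc (2 / ((d : ℝ) / n) + 1) / ((m0 : ℝ) + 1) ≤ (2 / ρ + 1 / ρ) / ((m0 : ℝ) + 1) := by
              apply div_le_div_of_nonneg_right _ (by positivity)
              have : 1 ≤ 1 / ρ := by rw [le_div_iff₀ hρ]; linarith
              linarith
          _ ≤ (2 / ρ + 1 / ρ) / (m0 : ℝ) := by
              apply div_le_div_of_nonneg_left (by positivity) hm0r (by linarith)
          _ = 3 / (ρ * m0) := by
              field_simp
              ring
      have h6 : γ ^ 2 * CC m0 n θ θ' ≤ 4 * (3 / (ρ * m0)) := by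
        have : γ ^ 2 * CC m0 n θ θ' ≤ γ ^ 2 * (3 / (ρ * m0)) :=
          mul_le_mul_of_nonneg_left h4 (sq_nonneg γ)
        have h7 : γ ^ 2 * (3 / (ρ * m0)) ≤ 4 * (3 / (ρ * m0)) :=
          mul_le_mul_of_nonneg_right hγsq (by positivity)
        linarith
      have h8 : 4 * (3 / (ρ * (m0 : ℝ))) = 12 / (ρ * m0) := by ring
      linarith

/-- summing the pair function. -/
lemma sum_GG_le {κ b ρ : ℝ} {j0 n : ℕ} (hκ : 0 < κ) (hκ1 : κ ≤ 1 / 2) (hρ : 0 < ρ)
    (hn : 2 ^ j0 ≤ n) :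
    ∑ d ∈ range n, GG κ b ρ j0 n d ≤ Real.exp 15 * (ρ * n + 1) +
      Real.exp (25 + 2 * b) * (((n : ℝ) / 2 ^ j0) ^ (1 - κ) + (n : ℝ) / 2 ^ j0 / κ) := by
  set m0 : ℕ := 2 ^ j0 with hm0
  have hm0pos : 0 < m0 := by positivity
  have hm0r : (0 : ℝ) < m0 := by exact_mod_cast hm0pos
  have hm0cast : ((2 : ℝ) ^ j0) = (m0 : ℝ) := by rw [hm0]; push_cast; ring
  have hn0 : 0 < n := by omega
  have hnr : (0 : ℝ) < n := by exact_mod_cast hn0
  unfold GG
  rw [hm0cast, Finset.sum_add_distrib]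
  apply add_le_add
  · rw [← Finset.sum_filter, Finset.sum_const, nsmul_eq_mul, mul_comm]
    apply mul_le_mul_of_nonneg_left _ (Real.exp_pos _).le
    have hsub : (range n).filter (fun d : ℕ => (d : ℝ) < ρ * n) ⊆ range (⌊ρ * n⌋₊ + 1) := by
      intro d hd
      rw [Finset.mem_filter] at hd
      rw [Finset.mem_range]
      have : d ≤ ⌊ρ * n⌋₊ := Nat.le_floor hd.2.le
      omega
    have hcard := Finset.card_le_card hsub
    rw [Finset.card_range] at hcard
    have h1 : (((range n).filter (fun d : ℕ => (d : ℝ) < ρ * n)).card : ℝ) ≤ (⌊ρ * n⌋₊ : ℝ) + 1 := by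
      exact_mod_cast hcard
    have h2 : (⌊ρ * n⌋₊ : ℝ) ≤ ρ * n := Nat.floor_le (by positivity)
    linarith
  · rw [← Finset.sum_filter, ← Finset.mul_sum]
    apply mul_le_mul_of_nonneg_left _ (Real.exp_pos _).le
    set X : ℝ := (n : ℝ) / m0 with hX
    have hX0 : 0 < X := by positivity
    set M : ℕ := ⌊X⌋₊ with hM
    have hMX : (M : ℝ) ≤ X := Nat.floor_le hX0.le
    have hsub : (range n).filter (fun d => d * 2 ^ j0 < n) ⊆ insert 0 (Ioc 0 M) := by
      intro d hd
      rw [Finset.mem_filter] at hd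
      rw [Finset.mem_insert, Finset.mem_Ioc]
      rcases Nat.eq_zero_or_pos d with h0 | h0
      · left; exact h0
      · right
        refine ⟨h0, ?_⟩
        apply Nat.le_floor
        rw [hX, le_div_iff₀ hm0r]
        have : d * m0 ≤ n := hd.2.le
        exact_mod_cast this
    calc ∑ d ∈ (range n).filter (fun d => d * 2 ^ j0 < n), ((n : ℝ) / (((max d 1 : ℕ) : ℝ) * m0)) ^ (1 - κ)
        ≤ ∑ d ∈ insert 0 (Ioc 0 M), ((n : ℝ) / (((max d 1 : ℕ) : ℝ) * m0)) ^ (1 - κ) := by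
          apply Finset.sum_le_sum_of_subset_of_nonneg hsub
          intro d _ _
          positivity
      _ = X ^ (1 - κ) + ∑ d ∈ Ioc 0 M, ((n : ℝ) / (((max d 1 : ℕ) : ℝ) * m0)) ^ (1 - κ) := by
          rw [Finset.sum_insert (by simp)]
          congr 2
          simp [hX]
      _ = X ^ (1 - κ) + ∑ d ∈ Ioc 0 M, X ^ (1 - κ) * (d : ℝ) ^ (κ - 1) := by
          congr 1
          apply Finset.sum_congr rfl
          intro d hd
          rw [Finset.mem_Ioc] at hd
          have hd0 : (0 : ℝ) < d := by exact_mod_cast hd.1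
          rw [max_eq_left (show 1 ≤ d from hd.1)]
          have e : (n : ℝ) / (d * m0) = X / d := by rw [hX]; field_simp
          rw [e, Real.div_rpow hX0.le hd0.le, div_eq_mul_inv, ← Real.rpow_neg hd0.le]
          congr 2
          ring
      _ = X ^ (1 - κ) + X ^ (1 - κ) * ∑ d ∈ Ioc 0 M, (d : ℝ) ^ (κ - 1) := by
          rw [Finset.mul_sum]
      _ ≤ X ^ (1 - κ) + X ^ (1 - κ) * ((M : ℝ) ^ κ / κ) := by
          have := sum_rpow_le hκ (by linarith : κ ≤ 1) M
          have h2 : 0 ≤ X ^ (1 - κ) := by positivity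
          nlinarith
      _ ≤ X ^ (1 - κ) + X ^ (1 - κ) * (X ^ κ / κ) := by
          have h3 : (M : ℝ) ^ κ ≤ X ^ κ := Real.rpow_le_rpow (Nat.cast_nonneg _) hMX hκ.le
          have h4 : (M : ℝ) ^ κ / κ ≤ X ^ κ / κ := div_le_div_of_nonneg_right h3 hκ.le
          have h2 : 0 ≤ X ^ (1 - κ) := by positivity
          nlinarith
      _ = X ^ (1 - κ) + X / κ := by
          have : X ^ (1 - κ) * X ^ κ = X := by
            rw [← Real.rpow_add hX0]
            norm_num
          rw [mul_div_assoc', this]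

end Pool.Agent.Helpers25.RM
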