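import Mathlib
import Pool.Agent.Helpers25.RMTrig
import Pool.Agent.Helpers25.RMMgf
import Pool.Agent.Helpers25.RMLowerA
import Pool.Agent.Helpers25.RMLowerB

/-! The lower bound: conclusion. -/

namespace Pool.Agent.Helpers25.RM

open Finset MeasureTheory ProbabilityTheory Filter
open scoped Topology

set_option linter.unusedSectionVars false
set_option maxHeartbeats 2000000

variable {Ω : Type*} [MeasurableSpace Ω] {μ : Measure Ω} [IsProbabilityMeasure μ]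

/-- second moment method, fixed `n`. -/
lemma second_moment {ξ : ℕ → Ω → ℝ} (hξ : ∀ k, Measurable (ξ k)) {κ b δ ρ r : ℝ} {j0 n : ℕ}
    (hκ : 0 < κ) (hκ1 : κ ≤ 1 / 2) (hb0 : 0 ≤ b) (hr : 0 ≤ r) (hr1 : r ≤ 1)
    (hρ : 0 < ρ) (hρ1 : ρ ≤ 1) (hδ : 0 < δ) (hδ1 : δ ≤ 1 / 2)
    (H : Hyp μ ξ (2 ^ j0) n r) (hn : 2 ^ j0 ≤ n)
    (hb : Real.exp (4 - κ * b) * (1 / (1 - Real.exp (-(κ ^ 2 / 8)))) ≤ δ / 2)
    (hn2 : Real.exp (4 - κ ^ 2 / 4 * hh (2 ^ j0) n) ≤ δ / 2)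
    (hE1 : 12 / (ρ * 2 ^ j0) + 3 * r ≤ δ)
    (hS : 2 / (n : ℝ) * (Real.exp 15 * (ρ * n + 1) +
      Real.exp (25 + 2 * b) * (((n : ℝ) / 2 ^ j0) ^ (1 - κ) + (n : ℝ) / 2 ^ j0 / κ)) ≤ 4 * δ) :
    μ.real {ω | ∀ θ : ℝ, SS ξ (2 ^ j0) n (fun k => Real.cos (k * θ)) ω <
      (1 - 3 * κ / 2) * hh (2 ^ j0) n} ≤ 8 * δ := by
  have hn0 : 0 < n := by
    have : 0 < 2 ^ j0 := by positivity
    omega
  have hnr : (0 : ℝ) < n := by exact_mod_cast hn0
  set γ : ℝ := 2 * (1 - κ) with hγdef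
  have hγ3 : |γ| ≤ 3 := by rw [abs_le]; constructor <;> linarith
  set f : ℕ → Ω → ℝ := fun i => (AA ξ κ b j0 n (1 + i / n)).indicator
        (WW μ ξ (2 ^ j0) n γ (1 + i / n)) with hf
  have hθ1 : ∀ i : ℕ, (1 : ℝ) ≤ 1 + i / n := by
    intro i
    have : 0 ≤ (i : ℝ) / n := by positivity
    linarith
  have hθ2 : ∀ i : ℕ, i < n → (1 : ℝ) + i / n ≤ 2 := by
    intro i hi
    have : (i : ℝ) / n ≤ 1 := by rw [div_le_one hnr]; exact_mod_cast hi.le
    linarith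
  have hfint : ∀ i, Integrable (f i) μ := fun i =>
    (WW_int H hγ3 _).1.indicator (AA_meas hξ _ _ _ _ _)
  have hfirst : ∀ i ∈ range n, 1 - δ ≤ ∫ ω, f i ω ∂μ := by
    intro i hi
    rw [Finset.mem_range] at hi
    exact first_moment hξ hκ hκ1 hr1 H hn hb hn2 (hθ1 i) (hθ2 i hi)
  set E1 : ℝ := Real.exp (12 / (ρ * 2 ^ j0) + 3 * r) with hE1def
  have hE1b : E1 ≤ 1 + 2 * δ := by
    have h1 : E1 ≤ Real.exp δ := Real.exp_le_exp.mpr hE1
    have h2 := Real.abs_exp_sub_one_sub_id_le (x := δ) (by rw [abs_of_pos hδ]; linarith)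
    have h3 := (abs_le.mp h2).2
    nlinarith
  have hpair : ∀ i ∈ range n, ∀ j ∈ range n, Integrable (fun ω => f i ω * f j ω) μ ∧
      ∫ ω, f i ω * f j ω ∂μ ≤ E1 + GG κ b ρ j0 n ((i - j) + (j - i)) := by
    intro i hi j hj
    rw [Finset.mem_range] at hi hj
    exact pair_bound hξ hκ hκ1 hb0 hr hr1 hρ hρ1 H hn hi hj
  -- the statistic
  set Z : Ω → ℝ := fun ω => (1 / (n : ℝ)) * ∑ i ∈ range n, f i ω with hZ
  have hZint : Integrable Z μ :=
    (integrable_finsetSum _ (fun i _ => hfint i)).const_mul _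
  have hZval : 1 - δ ≤ ∫ ω, Z ω ∂μ := by
    rw [hZ, integral_const_mul, integral_finsetSum _ (fun i _ => hfint i)]
    have : ∑ i ∈ range n, (1 - δ) ≤ ∑ i ∈ range n, ∫ ω, f i ω ∂μ := Finset.sum_le_sum hfirst
    rw [Finset.sum_const, Finset.card_range, nsmul_eq_mul] at this
    rw [one_div, ← div_eq_inv_mul, le_div_iff₀ hnr]
    linarith
  have hZ2 : ∀ ω, Z ω ^ 2 = (1 / (n : ℝ)) ^ 2 * ∑ i ∈ range n, ∑ j ∈ range n, f i ω * f j ω := by
    intro ω
    rw [hZ]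
    simp only
    rw [mul_pow, sq (∑ i ∈ range n, f i ω), Finset.sum_mul_sum]
  have hZ2int : Integrable (fun ω => Z ω ^ 2) μ := by
    simp only [hZ2]
    apply Integrable.const_mul
    exact integrable_finsetSum _ (fun i hi => integrable_finsetSum _ (fun j hj => (hpair i hi j hj).1))
  have hZ2val : ∫ ω, Z ω ^ 2 ∂μ ≤ 1 + 6 * δ := by
    simp only [hZ2]
    rw [integral_const_mul, integral_finsetSum _ (fun i hi => integrable_finsetSum _
      (fun j hj => (hpair i hi j hj).1))]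
    have h1 : ∀ i ∈ range n, ∫ ω, ∑ j ∈ range n, f i ω * f j ω ∂μ ≤
        n * E1 + 2 * ∑ d ∈ range n, GG κ b ρ j0 n d := by
      intro i hi
      rw [integral_finsetSum _ (fun j hj => (hpair i hi j hj).1)]
      calc ∑ j ∈ range n, ∫ ω, f i ω * f j ω ∂μ
          ≤ ∑ j ∈ range n, (E1 + GG κ b ρ j0 n ((i - j) + (j - i))) :=
            Finset.sum_le_sum (fun j hj => (hpair i hi j hj).2)
        _ = n * E1 + ∑ j ∈ range n, GG κ b ρ j0 n ((i - j) + (j - i)) := by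
            rw [Finset.sum_add_distrib, Finset.sum_const, Finset.card_range, nsmul_eq_mul]
        _ ≤ _ := by
            have := sum_dist_le (GG κ b ρ j0 n) (GG_nonneg κ b ρ j0 n) n i
              (Finset.mem_range.mp hi)
            linarith
    have h2 : ∑ i ∈ range n, ∫ ω, ∑ j ∈ range n, f i ω * f j ω ∂μ ≤
        n * (n * E1 + 2 * ∑ d ∈ range n, GG κ b ρ j0 n d) := by
      refine (Finset.sum_le_sum h1).trans ?_
      rw [Finset.sum_const, Finset.card_range, nsmul_eq_mul]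
    have h3 := sum_GG_le (b := b) hκ hκ1 hρ hn
    calc (1 / (n : ℝ)) ^ 2 * ∑ i ∈ range n, ∫ ω, ∑ j ∈ range n, f i ω * f j ω ∂μ
        ≤ (1 / (n : ℝ)) ^ 2 * (n * (n * E1 + 2 * ∑ d ∈ range n, GG κ b ρ j0 n d)) :=
          mul_le_mul_of_nonneg_left h2 (by positivity)
      _ = E1 + 2 / n * ∑ d ∈ range n, GG κ b ρ j0 n d := by
          field_simp
      _ ≤ E1 + 2 / n * (Real.exp 15 * (ρ * n + 1) +
            Real.exp (25 + 2 * b) * (((n : ℝ) / 2 ^ j0) ^ (1 - κ) + (n : ℝ) / 2 ^ j0 / κ)) := by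
          have : 2 / (n : ℝ) * ∑ d ∈ range n, GG κ b ρ j0 n d ≤ 2 / n * (Real.exp 15 * (ρ * n + 1) +
            Real.exp (25 + 2 * b) * (((n : ℝ) / 2 ^ j0) ^ (1 - κ) + (n : ℝ) / 2 ^ j0 / κ)) :=
            mul_le_mul_of_nonneg_left h3 (by positivity)
          linarith
      _ ≤ 1 + 6 * δ := by linarith
  -- the event
  set G : Set Ω := ⋃ i ∈ range n, AA ξ κ b j0 n (1 + i / n) with hG
  have hGm : MeasurableSet G := Finset.measurableSet_biUnion _ (fun i _ => AA_meas hξ _ _ _ _ _)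
  have hGsub : {ω | ∀ θ : ℝ, SS ξ (2 ^ j0) n (fun k => Real.cos (k * θ)) ω <
      (1 - 3 * κ / 2) * hh (2 ^ j0) n} ⊆ Gᶜ := by
    intro ω hω hωG
    rw [hG] at hωG
    simp only [Set.mem_iUnion] at hωG
    obtain ⟨i, _, hi⟩ := hωG
    exact absurd (hω _) (not_lt.mpr hi.2)
  have hptw : ∀ ω, 2 * Z ω - Z ω ^ 2 ≤ G.indicator (fun _ => (1 : ℝ)) ω := by
    intro ω
    by_cases hω : ω ∈ G
    · rw [Set.indicator_of_mem hω]
      nlinarith [sq_nonneg (1 - Z ω)]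
    · rw [Set.indicator_of_notMem hω]
      have : Z ω = 0 := by
        rw [hZ]
        simp only
        rw [Finset.sum_eq_zero, mul_zero]
        intro i hi
        rw [hf]
        simp only
        rw [Set.indicator_of_notMem]
        intro hcon
        apply hω
        rw [hG]
        simp only [Set.mem_iUnion]
        exact ⟨i, hi, hcon⟩
      rw [this]
      simp
  have hGreal : μ.real G = ∫ ω, G.indicator (fun _ => (1 : ℝ)) ω ∂μ := by
    rw [integral_indicator hGm]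
    simp [measureReal_def]
  have hI : Integrable (G.indicator (fun _ => (1 : ℝ))) μ :=
    (integrable_const (1 : ℝ)).indicator hGm
  have h5 : ∫ ω, (2 * Z ω - Z ω ^ 2) ∂μ ≤ ∫ ω, G.indicator (fun _ => (1 : ℝ)) ω ∂μ :=
    integral_mono ((hZint.const_mul 2).sub hZ2int) hI hptw
  rw [integral_sub (hZint.const_mul 2) hZ2int, integral_const_mul, ← hGreal] at h5
  have h6 : μ.real {ω | ∀ θ : ℝ, SS ξ (2 ^ j0) n (fun k => Real.cos (k * θ)) ω <
      (1 - 3 * κ / 2) * hh (2 ^ j0) n} ≤ μ.real Gᶜ :=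
    measureReal_mono hGsub (measure_ne_top _ _)
  rw [probReal_compl_eq_one_sub hGm] at h6
  linarith

theorem lower {ξ : ℕ → Ω → ℝ} (hξ : ∀ k, Measurable (ξ k)) (hG : GoodFam μ ξ) {κ δ : ℝ}
    (hκ : 0 < κ) (hκ1 : κ ≤ 1 / 2) (hδ : 0 < δ) (hδ1 : δ ≤ 1 / 2) :
    ∃ j0 : ℕ, ∀ᶠ n : ℕ in atTop, μ.real {ω | ∀ θ : ℝ,
      SS ξ (2 ^ j0) n (fun k => Real.cos (k * θ)) ω < (1 - 3 * κ / 2) * hh (2 ^ j0) n} ≤
      8 * δ := by
  set q : ℝ := Real.exp (-(κ ^ 2 / 8)) with hq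
  have hq0 : 0 < q := Real.exp_pos _
  have hq1 : q < 1 := by
    rw [hq, Real.exp_lt_one_iff]
    have : 0 < κ ^ 2 := by positivity
    linarith
  -- choice of b
  set b : ℝ := (4 - Real.log (δ * (1 - q) / 2)) / κ with hb
  have harg : 0 < δ * (1 - q) / 2 := by
    have : 0 < 1 - q := by linarith
    positivity
  have harg1 : δ * (1 - q) / 2 ≤ 1 := by nlinarith
  have hb0 : 0 ≤ b := by
    have := Real.log_nonpos harg.le harg1
    rw [hb]
    apply div_nonneg _ hκ.le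
    linarith
  have hbb : Real.exp (4 - κ * b) * (1 / (1 - q)) ≤ δ / 2 := by
    have e : 4 - κ * b = Real.log (δ * (1 - q) / 2) := by
      rw [hb]; field_simp; ring
    rw [e, Real.exp_log harg]
    have h1 : (1 - q) ≠ 0 := by linarith
    apply le_of_eq
    field_simp
  set ρ : ℝ := δ / (2 * Real.exp 15) with hρdef
  have h15 : 1 ≤ Real.exp 15 := Real.one_le_exp (by norm_num)
  have hρ : 0 < ρ := by positivity
  have hρ1 : ρ ≤ 1 := by
    rw [hρdef, div_le_one (by positivity)]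
    linarith
  set r : ℝ := δ / 6 with hrdef
  have hr : 0 < r := by positivity
  have hr1 : r ≤ 1 := by linarith
  obtain ⟨m1, hm1⟩ := hG r hr
  set K3 : ℝ := Real.exp (25 + 2 * b) with hK3
  have hK3pos : 0 < K3 := Real.exp_pos _
  obtain ⟨j0, hj0⟩ := exists_nat_gt (max (m1 : ℝ) (max (24 / (ρ * δ)) (2 * K3 / (κ * δ))))
  have h2j : (j0 : ℝ) < 2 ^ j0 := by exact_mod_cast Nat.lt_two_pow_self
  have hj1 : (m1 : ℝ) < 2 ^ j0 := ((le_max_left _ _).trans_lt hj0).trans h2j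
  have hj2 : 24 / (ρ * δ) < 2 ^ j0 :=
    (((le_max_left _ _).trans (le_max_right _ _)).trans_lt hj0).trans h2j
  have hj3 : 2 * K3 / (κ * δ) < 2 ^ j0 :=
    (((le_max_right _ _).trans (le_max_right _ _)).trans_lt hj0).trans h2j
  have hm1' : m1 ≤ 2 ^ j0 := by
    have : m1 < 2 ^ j0 := by exact_mod_cast hj1
    exact this.le
  have h2pos : (0 : ℝ) < 2 ^ j0 := by positivity
  have h2one : (1 : ℝ) ≤ 2 ^ j0 := one_le_pow₀ (by norm_num)
  refine ⟨j0, ?_⟩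
  have hE1 : 12 / (ρ * 2 ^ j0) + 3 * r ≤ δ := by
    have h1 : 12 / (ρ * 2 ^ j0) ≤ δ / 2 := by
      rw [div_le_iff₀ (by positivity)]
      rw [div_lt_iff₀ (by positivity)] at hj2
      nlinarith
    linarith
  -- eventual conditions
  have ev1 : ∀ᶠ n : ℕ in atTop, 2 ^ j0 ≤ n := eventually_ge_atTop _
  have ev2 : ∀ᶠ n : ℕ in atTop, Real.exp (4 - κ ^ 2 / 4 * hh (2 ^ j0) n) ≤ δ / 2 := by
    have hlog : Tendsto (fun n : ℕ => Real.log (n : ℝ)) atTop atTop :=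
      Real.tendsto_log_atTop.comp tendsto_natCast_atTop_atTop
    have := hlog.eventually_ge_atTop
      (Real.log ((2 ^ j0 : ℕ) : ℝ) + 1 + (4 - Real.log (δ / 2)) / (κ ^ 2 / 4))
    filter_upwards [this, ev1] with n hn1 hn2
    have hlow := hh_lower (m := 2 ^ j0) (n := n) (by positivity) hn2
    have hκ4 : 0 < κ ^ 2 / 4 := by positivity
    have h3 : (4 - Real.log (δ / 2)) / (κ ^ 2 / 4) ≤ hh (2 ^ j0) n := by linarith
    rw [div_le_iff₀ hκ4] at h3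
    calc Real.exp (4 - κ ^ 2 / 4 * hh (2 ^ j0) n) ≤ Real.exp (Real.log (δ / 2)) := by
          apply Real.exp_le_exp.mpr
          linarith
      _ = δ / 2 := Real.exp_log (by positivity)
  have ev3 : ∀ᶠ n : ℕ in atTop, 2 * Real.exp 15 / (n : ℝ) ≤ δ := by
    have ht : Tendsto (fun n : ℕ => 2 * Real.exp 15 / (n : ℝ)) atTop (𝓝 0) :=
      tendsto_const_nhds.div_atTop tendsto_natCast_atTop_atTop
    exact (ht.eventually (gt_mem_nhds hδ)).mono (fun n h => h.le)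
  have ev4 : ∀ᶠ n : ℕ in atTop, 2 * K3 * (n : ℝ) ^ (-κ) ≤ δ := by
    have ht : Tendsto (fun n : ℕ => 2 * K3 * (n : ℝ) ^ (-κ)) atTop (𝓝 (2 * K3 * 0)) :=
      ((tendsto_rpow_neg_atTop hκ).comp tendsto_natCast_atTop_atTop).const_mul _
    rw [mul_zero] at ht
    exact (ht.eventually (gt_mem_nhds hδ)).mono (fun n h => h.le)
  filter_upwards [ev1, ev2, ev3, ev4] with n hn1 hn2 hn3 hn4
  have hnr : (0 : ℝ) < n := by
    have : (0 : ℕ) < 2 ^ j0 := by positivity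
    exact_mod_cast (by omega : 0 < n)
  apply second_moment hξ hκ hκ1 hb0 hr.le hr1 hρ hρ1 hδ hδ1 (hm1 (2 ^ j0) hm1' n) hn1 hbb hn2 hE1
  have hpow : ((n : ℝ) / 2 ^ j0) ^ (1 - κ) ≤ (n : ℝ) ^ (-κ) * n := by
    calc ((n : ℝ) / 2 ^ j0) ^ (1 - κ) ≤ (n : ℝ) ^ (1 - κ) := by
          apply Real.rpow_le_rpow (by positivity) _ (by linarith)
          rw [div_le_iff₀ h2pos]
          nlinarith
      _ = (n : ℝ) ^ (-κ) * n := by
          rw [← Real.rpow_add_one hnr.ne']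
          congr 1
          ring
  have hA : 2 / (n : ℝ) * (Real.exp 15 * (ρ * n + 1)) = δ + 2 * Real.exp 15 / n := by
    rw [hρdef]
    field_simp
  have hB : 2 / (n : ℝ) * (K3 * ((n : ℝ) / 2 ^ j0) ^ (1 - κ)) ≤ δ := by
    calc 2 / (n : ℝ) * (K3 * ((n : ℝ) / 2 ^ j0) ^ (1 - κ))
        ≤ 2 / (n : ℝ) * (K3 * ((n : ℝ) ^ (-κ) * n)) := by
          apply mul_le_mul_of_nonneg_left _ (by positivity)
          exact mul_le_mul_of_nonneg_left hpow hK3pos.le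
      _ = 2 * K3 * (n : ℝ) ^ (-κ) := by field_simp
      _ ≤ δ := hn4
  have hC : 2 / (n : ℝ) * (K3 * ((n : ℝ) / 2 ^ j0 / κ)) ≤ δ := by
    have e : 2 / (n : ℝ) * (K3 * ((n : ℝ) / 2 ^ j0 / κ)) = 2 * K3 / (2 ^ j0 * κ) := by
      field_simp
    rw [e, div_le_iff₀ (by positivity)]
    rw [div_lt_iff₀ (by positivity)] at hj3
    nlinarith
  have e : 2 / (n : ℝ) * (Real.exp 15 * (ρ * n + 1) +
      K3 * (((n : ℝ) / 2 ^ j0) ^ (1 - κ) + (n : ℝ) / 2 ^ j0 / κ)) =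
      2 / (n : ℝ) * (Real.exp 15 * (ρ * n + 1)) + 2 / (n : ℝ) * (K3 * ((n : ℝ) / 2 ^ j0) ^ (1 - κ)) +
      2 / (n : ℝ) * (K3 * ((n : ℝ) / 2 ^ j0 / κ)) := by ring
  rw [e, hA]
  linarith

end Pool.Agent.Helpers25.RM
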