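import Mathlib
import Pool.Agent.Helpers25.RMTrig
import Pool.Agent.Helpers25.RMMgf
import Pool.Agent.Helpers25.RMUpper
import Pool.Agent.Helpers25.RMLowerC

/-! The law of large numbers for the maximum modulus of `∑ ξ_k z^k / √k`. -/

namespace Pool.Agent.Helpers25.RM

open Finset MeasureTheory ProbabilityTheory Filter
open scoped Topology

set_option linter.unusedSectionVars false
set_option maxHeartbeats 2000000

variable {Ω : Type*} [MeasurableSpace Ω] {μ : Measure Ω} [IsProbabilityMeasure μ]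

/-- `M_n = sup_{|z|=1} |∑_{k=1}^n ξ_k z^k / √k|`. -/
noncomputable def maxMod {Ω : Type*} (ξ : ℕ → Ω → ℝ) (n : ℕ) (ω : Ω) : ℝ :=
  ⨆ z : Circle, ‖∑ k ∈ Icc 1 n, ((ξ k ω / √(k : ℝ) : ℝ) : ℂ) * (z : ℂ) ^ k‖

lemma norm_sum_le_DD (ξ : ℕ → Ω → ℝ) (m : ℕ) (ω : Ω) {z : ℂ} (hz : ‖z‖ = 1) :
    ‖∑ k ∈ Ioc 0 m, ((ξ k ω / √(k : ℝ) : ℝ) : ℂ) * z ^ k‖ ≤ ∑ k ∈ Ioc 0 m, |ξ k ω| := by
  refine (norm_sum_le _ _).trans (Finset.sum_le_sum ?_)
  intro k hk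
  rw [Finset.mem_Ioc] at hk
  rw [norm_mul, norm_pow, hz, one_pow, mul_one, Complex.norm_real, Real.norm_eq_abs, abs_div,
    abs_of_nonneg (Real.sqrt_nonneg _)]
  have h1 : (1 : ℝ) ≤ √(k : ℝ) := by
    rw [Real.one_le_sqrt]
    exact_mod_cast hk.1
  exact div_le_self (abs_nonneg _) h1

lemma maxMod_le (ξ : ℕ → Ω → ℝ) {m n : ℕ} (hmn : m ≤ n) (ω : Ω) {B : ℝ}
    (hB : ∀ z : ℂ, ‖z‖ = 1 → ‖∑ k ∈ Ioc m n, ((ξ k ω / √(k : ℝ) : ℝ) : ℂ) * z ^ k‖ ≤ B) :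
    maxMod ξ n ω ≤ B + ∑ k ∈ Ioc 0 m, |ξ k ω| := by
  apply ciSup_le
  intro z
  have hz : ‖(z : ℂ)‖ = 1 := Circle.norm_coe z
  have e : Icc 1 n = Ioc 0 n := by
    ext k; simp only [Finset.mem_Icc, Finset.mem_Ioc]; omega
  rw [e, ← Finset.sum_Ioc_consecutive _ (Nat.zero_le m) hmn]
  have h1 := norm_add_le (∑ k ∈ Ioc 0 m, ((ξ k ω / √(k : ℝ) : ℝ) : ℂ) * (z : ℂ) ^ k)
    (∑ k ∈ Ioc m n, ((ξ k ω / √(k : ℝ) : ℝ) : ℂ) * (z : ℂ) ^ k)
  have h2 := norm_sum_le_DD ξ m ω hz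
  have h3 := hB z hz
  linarith

lemma le_maxMod (ξ : ℕ → Ω → ℝ) {m n : ℕ} (hmn : m ≤ n) (ω : Ω) {z : ℂ} (hz : ‖z‖ = 1) :
    ‖∑ k ∈ Ioc m n, ((ξ k ω / √(k : ℝ) : ℝ) : ℂ) * z ^ k‖ - ∑ k ∈ Ioc 0 m, |ξ k ω| ≤
      maxMod ξ n ω := by
  have e : Icc 1 n = Ioc 0 n := by
    ext k; simp only [Finset.mem_Icc, Finset.mem_Ioc]; omega
  have hbdd : BddAbove (Set.range (fun z : Circle =>
      ‖∑ k ∈ Icc 1 n, ((ξ k ω / √(k : ℝ) : ℝ) : ℂ) * (z : ℂ) ^ k‖)) := by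
    refine ⟨∑ k ∈ Ioc 0 n, |ξ k ω|, ?_⟩
    rintro _ ⟨w, rfl⟩
    simp only
    rw [e]
    exact norm_sum_le_DD ξ n ω (Circle.norm_coe w)
  have h1 := le_ciSup hbdd (⟨z, mem_sphere_zero_iff_norm.mpr hz⟩ : Circle)
  simp only at h1
  rw [e, ← Finset.sum_Ioc_consecutive _ (Nat.zero_le m) hmn] at h1
  have h2 := norm_sum_le_DD ξ m ω hz
  have h3 : ‖∑ k ∈ Ioc m n, ((ξ k ω / √(k : ℝ) : ℝ) : ℂ) * z ^ k‖ ≤
      ‖(∑ k ∈ Ioc 0 m, ((ξ k ω / √(k : ℝ) : ℝ) : ℂ) * z ^ k) +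
        ∑ k ∈ Ioc m n, ((ξ k ω / √(k : ℝ) : ℝ) : ℂ) * z ^ k‖ +
      ‖∑ k ∈ Ioc 0 m, ((ξ k ω / √(k : ℝ) : ℝ) : ℂ) * z ^ k‖ := by
    calc ‖∑ k ∈ Ioc m n, ((ξ k ω / √(k : ℝ) : ℝ) : ℂ) * z ^ k‖ =
        ‖((∑ k ∈ Ioc 0 m, ((ξ k ω / √(k : ℝ) : ℝ) : ℂ) * z ^ k) +
        ∑ k ∈ Ioc m n, ((ξ k ω / √(k : ℝ) : ℝ) : ℂ) * z ^ k) -
        ∑ k ∈ Ioc 0 m, ((ξ k ω / √(k : ℝ) : ℝ) : ℂ) * z ^ k‖ := by rw [add_sub_cancel_left]
      _ ≤ _ := norm_sub_le _ _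
  have h4 : ‖(∑ k ∈ Ioc 0 m, ((ξ k ω / √(k : ℝ) : ℝ) : ℂ) * z ^ k) +
        ∑ k ∈ Ioc m n, ((ξ k ω / √(k : ℝ) : ℝ) : ℂ) * z ^ k‖ ≤ maxMod ξ n ω := h1
  linarith

/-- the first `m` coefficients are negligible. -/
lemma small_part {ξ : ℕ → Ω → ℝ} (hint : ∀ k, Integrable (ξ k) μ) (m : ℕ) {ε : ℝ} (hε : 0 < ε) :
    Tendsto (fun n : ℕ => μ.real {ω | ε * Real.log n ≤ ∑ k ∈ Ioc 0 m, |ξ k ω|}) atTop (𝓝 0) := by
  set D : Ω → ℝ := fun ω => ∑ k ∈ Ioc 0 m, |ξ k ω| with hD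
  have hDint : Integrable D μ := integrable_finsetSum _ (fun k _ => (hint k).abs)
  have hD0 : 0 ≤ᵐ[μ] D := ae_of_all _ (fun ω => Finset.sum_nonneg (fun _ _ => abs_nonneg _))
  have hlog : Tendsto (fun n : ℕ => Real.log (n : ℝ)) atTop atTop :=
    Real.tendsto_log_atTop.comp tendsto_natCast_atTop_atTop
  have hlim : Tendsto (fun n : ℕ => (∫ ω, D ω ∂μ) / (ε * Real.log n)) atTop (𝓝 0) :=
    tendsto_const_nhds.div_atTop (hlog.const_mul_atTop hε)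
  refine squeeze_zero' (Eventually.of_forall fun n => measureReal_nonneg) ?_ hlim
  filter_upwards [eventually_ge_atTop 2] with n hn
  have hl : 0 < Real.log n := Real.log_pos (by exact_mod_cast hn)
  rw [le_div_iff₀ (by positivity), mul_comm]
  exact mul_meas_ge_le_integral_of_nonneg hD0 hDint _

theorem lln_of_goodFam {ξ : ℕ → Ω → ℝ} (hξ : ∀ k, Measurable (ξ k))
    (hint : ∀ k, Integrable (ξ k) μ) (hG : GoodFam μ ξ) :
    TendstoInMeasure μ (fun n ω => maxMod ξ n ω / Real.log n) atTop (fun _ => (1 : ℝ)) := by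
  rw [tendstoInMeasure_iff_measureReal_dist]
  intro ε₀ hε₀
  set ε : ℝ := min (ε₀ / 16) (1 / 2) with hεdef
  have hε : 0 < ε := by positivity
  have hε1 : ε ≤ 1 / 2 := min_le_right _ _
  have hε2 : ε ≤ ε₀ / 16 := min_le_left _ _
  obtain ⟨mU, hU⟩ := upper hG hε hε1
  have hDU := small_part hint mU hε
  rw [Metric.tendsto_atTop]
  intro δ' hδ'
  set δ : ℝ := min (δ' / 64) (1 / 2) with hδdef
  have hδ : 0 < δ := by positivity
  have hδ1 : δ ≤ 1 / 2 := min_le_right _ _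
  have hδ2 : δ ≤ δ' / 64 := min_le_left _ _
  obtain ⟨j0, hL⟩ := lower hξ hG hε hε1 hδ hδ1
  have hDL := small_part hint (2 ^ j0) hε
  have hlog : Tendsto (fun n : ℕ => Real.log (n : ℝ)) atTop atTop :=
    Real.tendsto_log_atTop.comp tendsto_natCast_atTop_atTop
  have evU := hU.eventually (gt_mem_nhds (by positivity : (0 : ℝ) < δ' / 8))
  have evDU := hDU.eventually (gt_mem_nhds (by positivity : (0 : ℝ) < δ' / 8))
  have evDL := hDL.eventually (gt_mem_nhds (by positivity : (0 : ℝ) < δ' / 8))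
  have evlog := hlog.eventually_ge_atTop ((Real.log ((2 ^ j0 : ℕ) : ℝ) + 1) / ε)
  have hall := ((((evU.and evDU).and evDL).and (hL.and evlog)).and
    ((eventually_ge_atTop 2).and ((eventually_ge_atTop mU).and (eventually_ge_atTop (2 ^ j0)))))
  obtain ⟨N, hN⟩ := Filter.eventually_atTop.mp hall
  refine ⟨N, fun n hn => ?_⟩
  obtain ⟨⟨⟨⟨h1, h2⟩, h3⟩, h4, h5⟩, h6, h7, h8⟩ := hN n hn
  rw [Real.dist_eq, sub_zero, abs_of_nonneg measureReal_nonneg]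
  have hl : 0 < Real.log n := Real.log_pos (by exact_mod_cast h6)
  set sU := {ω | ∃ z : ℂ, ‖z‖ = 1 ∧ (1 + ε) ^ 3 * Real.log n <
      ‖∑ k ∈ Ioc mU n, ((ξ k ω / √(k : ℝ) : ℝ) : ℂ) * z ^ k‖} with hsU
  set sDU := {ω | ε * Real.log n ≤ ∑ k ∈ Ioc 0 mU, |ξ k ω|} with hsDU
  set sDL := {ω | ε * Real.log n ≤ ∑ k ∈ Ioc 0 (2 ^ j0), |ξ k ω|} with hsDL
  set sL := {ω | ∀ θ : ℝ, SS ξ (2 ^ j0) n (fun k => Real.cos (k * θ)) ω <
      (1 - 3 * ε / 2) * hh (2 ^ j0) n} with hsL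
  have hsub : {x | ε₀ ≤ dist (maxMod ξ n x / Real.log n) 1} ⊆ (sU ∪ sDU) ∪ (sDL ∪ sL) := by
    intro ω hω
    by_contra hcon
    simp only [Set.mem_union, not_or] at hcon
    obtain ⟨⟨c1, c2⟩, c3, c4⟩ := hcon
    have c1' : ∀ z : ℂ, ‖z‖ = 1 → ‖∑ k ∈ Ioc mU n, ((ξ k ω / √(k : ℝ) : ℝ) : ℂ) * z ^ k‖ ≤
        (1 + ε) ^ 3 * Real.log n := by
      intro z hz
      by_contra hlt
      exact c1 ⟨z, hz, not_le.mp hlt⟩
    have c2' : ∑ k ∈ Ioc 0 mU, |ξ k ω| < ε * Real.log n := not_le.mp c2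
    have c3' : ∑ k ∈ Ioc 0 (2 ^ j0), |ξ k ω| < ε * Real.log n := not_le.mp c3
    have hup := maxMod_le ξ h7 ω c1'
    have hup2 : maxMod ξ n ω < (1 + ε₀) * Real.log n := by
      have h9 : (1 + ε) ^ 3 + ε ≤ 1 + 6 * ε := by
        have q1 : ε ^ 2 ≤ ε / 2 := by nlinarith
        have q2 : ε ^ 3 ≤ ε / 4 := by
          have : ε ^ 3 = ε ^ 2 * ε := by ring
          rw [this]
          nlinarith
        have q3 : (1 + ε) ^ 3 = 1 + 3 * ε + 3 * ε ^ 2 + ε ^ 3 := by ring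
        linarith
      have h10 : ((1 + ε) ^ 3 + ε) * Real.log n ≤ (1 + 6 * ε) * Real.log n :=
        mul_le_mul_of_nonneg_right h9 hl.le
      have h11 : (1 + 6 * ε) * Real.log n < (1 + ε₀) * Real.log n :=
        mul_lt_mul_of_pos_right (by linarith) hl
      linarith
    have c4' : ∃ θ : ℝ, (1 - 3 * ε / 2) * hh (2 ^ j0) n ≤
        SS ξ (2 ^ j0) n (fun k => Real.cos (k * θ)) ω := by
      by_contra hcon2
      push Not at hcon2
      exact c4 hcon2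
    obtain ⟨θ, hθ⟩ := c4'
    have hre := re_eq_SS ξ (2 ^ j0) n θ 0 ω
    simp only [Complex.ofReal_zero, zero_mul, Complex.exp_zero, map_one, one_mul, sub_zero] at hre
    have hz1 : ‖Complex.exp (θ * Complex.I)‖ = 1 := Complex.norm_exp_ofReal_mul_I θ
    have hlow := le_maxMod ξ h8 ω hz1
    have hnorm : SS ξ (2 ^ j0) n (fun k => Real.cos (k * θ)) ω ≤
        ‖∑ k ∈ Ioc (2 ^ j0) n, ((ξ k ω / √(k : ℝ) : ℝ) : ℂ) * Complex.exp (θ * Complex.I) ^ k‖ := by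
      rw [← hre]
      exact (le_abs_self _).trans (Complex.abs_re_le_norm _)
    have hhlow := hh_lower (m := 2 ^ j0) (n := n) (by positivity) h8
    rw [div_le_iff₀ hε] at h5
    have hlow2 : (1 - ε₀) * Real.log n < maxMod ξ n ω := by
      have h9 : (1 - ε) * Real.log n ≤ hh (2 ^ j0) n := by linarith
      have h10 : (1 - 3 * ε / 2) * ((1 - ε) * Real.log n) ≤ (1 - 3 * ε / 2) * hh (2 ^ j0) n :=
        mul_le_mul_of_nonneg_left h9 (by linarith)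
      have h11 : (1 - 3 * ε / 2) * ((1 - ε) * Real.log n) - ε * Real.log n =
          (1 - 7 / 2 * ε + 3 / 2 * ε ^ 2) * Real.log n := by ring
      have h12 : (1 - ε₀) * Real.log n < (1 - 7 / 2 * ε + 3 / 2 * ε ^ 2) * Real.log n :=
        mul_lt_mul_of_pos_right (by nlinarith) hl
      linarith
    have hω' : ε₀ ≤ |maxMod ξ n ω / Real.log n - 1| := by
      have := hω
      rw [Set.mem_ofPred_eq, Real.dist_eq] at this
      exact this
    have hdiv : maxMod ξ n ω / Real.log n - 1 = (maxMod ξ n ω - Real.log n) / Real.log n := by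
      field_simp
    rw [hdiv, abs_div, abs_of_pos hl, le_div_iff₀ hl] at hω'
    have : |maxMod ξ n ω - Real.log n| < ε₀ * Real.log n := by
      rw [abs_lt]
      constructor <;> linarith
    linarith
  calc μ.real {x | ε₀ ≤ dist (maxMod ξ n x / Real.log n) 1}
      ≤ μ.real ((sU ∪ sDU) ∪ (sDL ∪ sL)) := measureReal_mono hsub (measure_ne_top _ _)
    _ ≤ μ.real (sU ∪ sDU) + μ.real (sDL ∪ sL) := measureReal_union_le _ _
    _ ≤ (μ.real sU + μ.real sDU) + (μ.real sDL + μ.real sL) :=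
        add_le_add (measureReal_union_le _ _) (measureReal_union_le _ _)
    _ < δ' := by linarith

/-- **Main theorem**: `M_n / log n → 1` in probability. -/
theorem main (μ : Measure Ω) [IsProbabilityMeasure μ] (ξ : ℕ → Ω → ℝ)
    (hm : ∀ k, Measurable (ξ (k + 1))) (hind : iIndepFun (fun k => ξ (k + 1)) μ)
    (hid : ∀ k, IdentDistrib (ξ (k + 1)) (ξ 1) μ μ)
    (h1 : ∫ ω, ξ 1 ω ∂μ = 0) (h2 : ∫ ω, ξ 1 ω ^ 2 ∂μ = 1)
    (hexp : ∃ c > 0, Integrable (fun ω => Real.exp (c * |ξ 1 ω|)) μ) :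
    TendstoInMeasure μ (fun n ω => maxMod ξ n ω / Real.log n) atTop (fun _ => (1 : ℝ)) := by
  obtain ⟨c, hc, hint⟩ := hexp
  set ξ' : ℕ → Ω → ℝ := fun k => if k = 0 then (fun _ => 0) else ξ k with hξ'
  have e : ∀ k, ξ' (k + 1) = ξ (k + 1) := by
    intro k
    rw [hξ']
    simp
  have e1 : ξ' 1 = ξ 1 := e 0
  have hmax : ∀ n ω, maxMod ξ n ω = maxMod ξ' n ω := by
    intro n ω
    unfold maxMod
    congr 1
    funext z
    congr 1
    apply Finset.sum_congr rfl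
    intro k hk
    rw [Finset.mem_Icc] at hk
    have : ξ' k = ξ k := by
      rw [hξ']
      simp only
      rw [if_neg (by omega)]
    rw [this]
  have hm' : ∀ k, Measurable (ξ' k) := by
    intro k
    rcases Nat.eq_zero_or_pos k with h0 | h0
    · rw [hξ']
      simp only
      rw [if_pos h0]
      exact measurable_const
    · obtain ⟨k', rfl⟩ : ∃ k', k = k' + 1 := ⟨k - 1, by omega⟩
      rw [e]
      exact hm k'
  have hG : GoodFam μ ξ' := by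
    apply goodFam_of_iid (c := c)
    · intro k; exact hm' _
    · simpa only [e] using hind
    · intro k; rw [e, e1]; exact hid k
    · exact hc
    · rw [e1]; exact hint
    · rw [e1]; exact h1
    · rw [e1]; exact h2
  have hint1 : Integrable (ξ 1) μ := by
    refine Integrable.mono' (hint.const_mul (1 / c)) (hm 0).aestronglyMeasurable ?_
    filter_upwards with ω
    rw [Real.norm_eq_abs]
    have := Real.add_one_le_exp (c * |ξ 1 ω|)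
    rw [div_mul_eq_mul_div, le_div_iff₀ hc]
    linarith
  have hintk : ∀ k, Integrable (ξ' k) μ := by
    intro k
    rcases Nat.eq_zero_or_pos k with h0 | h0
    · rw [hξ']
      simp only
      rw [if_pos h0]
      exact integrable_const _
    · obtain ⟨k', rfl⟩ : ∃ k', k = k' + 1 := ⟨k - 1, by omega⟩
      rw [e]
      exact (hid k').integrable_iff.mpr hint1
  have := lln_of_goodFam hm' hintk hG
  simp only [hmax]
  exact this

end Pool.Agent.Helpers25.RM
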