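import Pool.Agent.Helpers25.SGOre

open Multiplicative

set_option linter.unusedSectionVars false

namespace Pool.Agent.Helpers25.SG

/-- The coefficient field: Laurent series over `ℂ`. -/
def EE : Type := HahnSeries ℤ ℂ

noncomputable instance : Field EE := inferInstanceAs (Field (HahnSeries ℤ ℂ))

/-- Coefficients of a Laurent series. -/
def lc (x : EE) (n : ℤ) : ℂ := HahnSeries.coeff (Γ := ℤ) (R := ℂ) x n

/-- The monomial `z X^n`. -/
noncomputable def mono (n : ℤ) (z : ℂ) : EE := HahnSeries.single (Γ := ℤ) (R := ℂ) n z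

theorem mono_mul (m n : ℤ) (z w : ℂ) : mono m z * mono n w = mono (m + n) (z * w) :=
  HahnSeries.single_mul_single

theorem mono_add (m : ℤ) (z w : ℂ) : mono m z + mono m w = mono m (z + w) :=
  (HahnSeries.single_add (Γ := ℤ) (R := ℂ) m z w).symm

theorem mono_one : mono 0 1 = 1 := rfl

theorem lc_mono_mul (m : ℤ) (z : ℂ) (x : EE) (n : ℤ) : lc (mono m z * x) n = z * lc x (n - m) :=
  HahnSeries.coeff_single_mul

theorem lc_add (x y : EE) (n : ℤ) : lc (x + y) n = lc x n + lc y n := rfl

theorem lc_zero (n : ℤ) : lc 0 n = 0 := rfl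

theorem lc_ext {x y : EE} (h : ∀ n, lc x n = lc y n) : x = y :=
  HahnSeries.ext (funext h)

theorem lc_sum {ι : Type} (s : Finset ι) (f : ι → EE) (n : ℤ) :
    lc (∑ i ∈ s, f i) n = ∑ i ∈ s, lc (f i) n := by
  classical
  induction s using Finset.induction_on with
  | empty => simp [lc_zero]
  | insert a s ha ih => rw [Finset.sum_insert ha, Finset.sum_insert ha, lc_add, ih]

/-- Multiplication by `200` on exponents. -/
def mulQ : ℤ →+ ℤ where
  toFun n := 200 * n
  map_zero' := by norm_num
  map_add' := by intro a b; ring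

theorem mulQ_inj : Function.Injective mulQ := by
  intro a b h
  change 200 * a = 200 * b at h
  omega

theorem mulQ_le (g g' : ℤ) : mulQ g ≤ mulQ g' ↔ g ≤ g' := by
  change 200 * g ≤ 200 * g' ↔ g ≤ g'
  omega

/-- Coefficientwise conjugation. -/
noncomputable def conjH : HahnSeries ℤ ℂ →+* HahnSeries ℤ ℂ where
  toFun x := x.map (starRingEnd ℂ)
  map_one' := by
    ext n
    rw [HahnSeries.map_coeff, HahnSeries.coeff_one]
    split_ifs <;> simp
  map_zero' := by
    ext n
    simp
  map_add' x y := by
    ext n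
    simp
  map_mul' x y := HahnSeries.map_mul (starRingEnd ℂ : ℂ →ₙ+* ℂ)

/-- The endomorphism `X ↦ X^200`, `z ↦ conj z`. -/
noncomputable def sig : EE →+* EE :=
  (HahnSeries.embDomainRingHom mulQ mulQ_inj mulQ_le).comp conjH

theorem sig_coeff (x : EE) (n : ℤ) : lc (sig x) (200 * n) = (starRingEnd ℂ) (lc x n) := by
  have := HahnSeries.embDomain_mk_coeff (f := mulQ) mulQ_inj mulQ_le (x := conjH x) (a := n)
  exact this

theorem sig_coeff_ne (x : EE) (n : ℤ) (h : ¬ (200 : ℤ) ∣ n) : lc (sig x) n = 0 := by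
  refine HahnSeries.embDomain_of_notMem_range ?_
  rintro ⟨m, hm⟩
  exact h ⟨m, hm.symm⟩

theorem sig_mono (n : ℤ) (z : ℂ) : sig (mono n z) = mono (200 * n) ((starRingEnd ℂ) z) := by
  apply lc_ext
  intro k
  by_cases hk : (200 : ℤ) ∣ k
  · obtain ⟨m, rfl⟩ := hk
    rw [sig_coeff]
    unfold lc mono
    by_cases hm : m = n
    · subst hm; simp
    · rw [HahnSeries.coeff_single_of_ne hm, HahnSeries.coeff_single_of_ne (by omega), map_zero]
  · rw [sig_coeff_ne _ _ hk]
    unfold lc mono
    rw [HahnSeries.coeff_single_of_ne]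
    rintro rfl
    exact hk ⟨n, rfl⟩

noncomputable instance : MulSemiringAction (Multiplicative ℕ) EE where
  smul n x := (sig ^ (toAdd n)) x
  one_smul x := by
    change (sig ^ 0) x = x
    rw [pow_zero]; rfl
  mul_smul m n x := by
    change (sig ^ (toAdd m + toAdd n)) x = (sig ^ (toAdd m)) ((sig ^ (toAdd n)) x)
    rw [pow_add]; rfl
  smul_zero n := map_zero _
  smul_add n x y := map_add _ x y
  smul_one n := map_one _
  smul_mul n x y := map_mul _ x y

theorem smul_one' (x : EE) : (ofAdd 1 : Multiplicative ℕ) • x = sig x := by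
  change (sig ^ 1) x = sig x
  rw [pow_one]

/-- The skew polynomial ring. -/
abbrev RR := SkewMonoidAlgebra EE (Multiplicative ℕ)

/-- Constants. -/
noncomputable def CC : EE →+* RR where
  toFun a := SkewMonoidAlgebra.single 1 a
  map_one' := rfl
  map_zero' := SkewMonoidAlgebra.single_zero _
  map_add' a b := SkewMonoidAlgebra.single_add _ _ _
  map_mul' a b := by
    rw [SkewMonoidAlgebra.single_mul_single, one_mul, one_smul]

/-- The variable. -/
noncomputable def tt : RR := SkewMonoidAlgebra.single (ofAdd 1) 1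

theorem tt_CC (a : EE) : tt * CC a = CC (sig a) * tt := by
  change SkewMonoidAlgebra.single (ofAdd 1) 1 * SkewMonoidAlgebra.single 1 a =
    SkewMonoidAlgebra.single 1 (sig a) * SkewMonoidAlgebra.single (ofAdd 1) 1
  rw [SkewMonoidAlgebra.single_mul_single, SkewMonoidAlgebra.single_mul_single, smul_one', one_mul,
    mul_one, one_smul, one_mul, mul_one]

theorem cf_CC_mul (a : EE) (f : RR) (n : ℕ) : cf (CC a * f) n = a * cf f n :=
  SkewMonoidAlgebra.coeff_single_one_mul f a (ofAdd n)

theorem cf_tt_mul_succ (f : RR) (n : ℕ) : cf (tt * f) (n + 1) = sig (cf f n) := by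
  have h : ∀ a : Multiplicative ℕ, ofAdd 1 * a = ofAdd (n + 1) ↔ a = ofAdd n := by
    intro a
    constructor
    · intro h
      have h2 : 1 + toAdd a = n + 1 := congrArg toAdd h
      have h3 : toAdd a = n := by omega
      rw [← h3]; rfl
    · intro h
      rw [h, ← ofAdd_add, add_comm]
  have := SkewMonoidAlgebra.coeff_single_mul_aux (k := EE) f (r := 1) h
  unfold cf tt
  rw [this, one_mul, smul_one']

theorem cf_tt_mul_zero (f : RR) : cf (tt * f) 0 = 0 := by
  have h : ¬ ∃ d : Multiplicative ℕ, (ofAdd 0 : Multiplicative ℕ) = ofAdd 1 * d := by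
    rintro ⟨d, hd⟩
    have h2 : 0 = 1 + toAdd d := congrArg toAdd hd
    omega
  exact SkewMonoidAlgebra.coeff_single_mul_of_not_exists_mul (k := EE) 1 f h

theorem tt_cancel (f : RR) (h : tt * f = 0) : f = 0 := by
  apply cf_ext
  intro n
  have h1 := cf_tt_mul_succ f n
  rw [h, cf_zero] at h1
  rw [cf_zero]
  exact (map_eq_zero sig).mp h1.symm

/-- The key independence lemma. -/
theorem key (r r' : ℕ → RR) (c : RR) (hc : ∀ n, 0 < n → cf c n = 0)
    (h : c + ∑ n ∈ Finset.range 100, (CC (mono n 1) * (tt * r n) +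
      CC (mono (n + 100) 1) * (tt * r' n)) = 0) :
    cf c 0 = 0 ∧ ∀ n < 100, r n = 0 ∧ r' n = 0 := by
  constructor
  · have h0 := congrArg (fun f => cf f 0) h
    simp only [cf_add, cf_sum, cf_CC_mul, cf_tt_mul_zero, mul_zero, cf_zero, add_zero,
      Finset.sum_const_zero] at h0
    exact h0
  · have h1 : ∀ k : ℕ, ∑ n ∈ Finset.range 100, (mono n 1 * sig (cf (r n) k) +
        mono (n + 100) 1 * sig (cf (r' n) k)) = 0 := by
      intro k
      have h0 := congrArg (fun f => cf f (k + 1)) h
      simp only [cf_add, cf_sum, cf_CC_mul, cf_tt_mul_succ, cf_zero] at h0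
      rw [hc (k + 1) (Nat.succ_pos k), zero_add] at h0
      exact h0
    intro n0 hn0
    constructor
    · apply cf_ext
      intro k
      rw [cf_zero]
      apply lc_ext
      intro i
      have h2 := congrArg (fun x => lc x ((n0 : ℤ) + 200 * i)) (h1 k)
      simp only [lc_sum, lc_add, lc_mono_mul, lc_zero, one_mul] at h2
      rw [Finset.sum_eq_single n0] at h2
      · have e1 : (n0 : ℤ) + 200 * i - n0 = 200 * i := by ring
        rw [e1, sig_coeff, sig_coeff_ne _ _ (by omega), add_zero] at h2
        rw [lc_zero]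
        exact (map_eq_zero _).mp h2
      · intro n hn hne
        rw [Finset.mem_range] at hn
        rw [sig_coeff_ne _ _ (by omega), sig_coeff_ne _ _ (by omega), add_zero]
      · intro hn
        exact absurd (Finset.mem_range.mpr hn0) hn
    · apply cf_ext
      intro k
      rw [cf_zero]
      apply lc_ext
      intro i
      have h2 := congrArg (fun x => lc x ((n0 : ℤ) + 100 + 200 * i)) (h1 k)
      simp only [lc_sum, lc_add, lc_mono_mul, lc_zero, one_mul] at h2
      rw [Finset.sum_eq_single n0] at h2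
      · have e1 : (n0 : ℤ) + 100 + 200 * i - (n0 + 100) = 200 * i := by ring
        rw [e1, sig_coeff, sig_coeff_ne _ _ (by omega), zero_add] at h2
        rw [lc_zero]
        exact (map_eq_zero _).mp h2
      · intro n hn hne
        rw [Finset.mem_range] at hn
        rw [sig_coeff_ne _ _ (by omega), sig_coeff_ne _ _ (by omega), add_zero]
      · intro hn
        exact absurd (Finset.mem_range.mpr hn0) hn

end Pool.Agent.Helpers25.SG
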