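import Pool.Agent.Helpers25.SGSemi

open Multiplicative

set_option linter.unusedSectionVars false
set_option maxRecDepth 20000

namespace Pool.Agent.Helpers25.SG

theorem TT_le {m n : ℕ} (h : m ≤ n) : TT m ⊆ TT n := by
  induction h with
  | refl => exact Finset.Subset.refl _
  | step _ ih => exact ih.trans (TT_mono _)

theorem psi_apply (F : MonoidAlgebra ℝ SS) :
    psi F = ∑ s ∈ F.coeff.support, KR (F.coeff s) * PH s := by
  change MonoidAlgebra.liftNC (KR : ℝ →+ RR) PHhom F = _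
  conv_lhs => rw [← MonoidAlgebra.sum_coeff_single F]
  rw [map_finsuppSum, Finsupp.sum]
  refine Finset.sum_congr rfl fun s _ => ?_
  rw [MonoidAlgebra.liftNC_single]
  rfl

theorem word_ok (s : SS) : ∀ x ∈ word s, ok x := by
  intro x hx
  unfold word at hx
  rcases List.mem_cons.mp hx with h | h
  · rw [h]; exact ok_Rho _ s.ha
  · rcases List.mem_append.mp h with h | h
    · exact s.hm x h
    · rw [List.mem_singleton] at h
      rw [h]; exact ok_Lam _ s.hb

theorem psi_inj : Function.Injective psi := by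
  rw [injective_iff_map_eq_zero]
  intro F hF
  have h1 : ∑ s ∈ F.coeff.support, KR (F.coeff s) * QQ (word s) = 0 := by
    have h2 : psi F * YY = 0 := by rw [hF, zero_mul]
    rw [psi_apply, Finset.sum_mul] at h2
    rw [← h2]
    refine Finset.sum_congr rfl fun s _ => ?_
    rw [mul_assoc, PH_YY]
  classical
  let f : List GG → ℝ := Function.extend word F.coeff 0
  have hf : ∀ s, f (word s) = F.coeff s := fun s => word_inj.extend_apply _ _ _
  let N : ℕ := (F.coeff.support.image word).sup List.length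
  have hsub : F.coeff.support.image word ⊆ TT N := by
    intro w hw
    have hl : w.length ≤ N := Finset.le_sup (f := List.length) hw
    apply TT_le hl
    obtain ⟨s, -, rfl⟩ := Finset.mem_image.mp hw
    exact mem_TT _ (word_ok s)
  have h3 : ∑ w ∈ TT N, KR (f w) * QQ w = 0 := by
    rw [← Finset.sum_subset hsub, Finset.sum_image (fun a _ b _ h => word_inj h)]
    · rw [← h1]
      refine Finset.sum_congr rfl fun s _ => ?_
      rw [hf]
    · intro w _ hw
      have : f w = 0 := by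
        by_cases h4 : ∃ s, word s = w
        · obtain ⟨s, rfl⟩ := h4
          rw [hf]
          by_contra h5
          exact hw (Finset.mem_image_of_mem _ (Finsupp.mem_support_iff.mpr h5))
        · exact Function.extend_apply' _ _ _ h4
      rw [this, map_zero, zero_mul]
  have h4 := indep N f h3
  have h5 : F.coeff = 0 := by
    ext s
    by_contra h6
    have h7 : word s ∈ TT N := hsub (Finset.mem_image_of_mem _ (Finsupp.mem_support_iff.mpr h6))
    have h8 := h4 _ h7
    rw [hf] at h8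
    exact h6 h8
  rw [← MonoidAlgebra.sum_coeff_single F, h5, Finsupp.sum_zero_index]

theorem embed_real : ∃ (D : Type) (_ : DivisionRing D) (f : MonoidAlgebra ℝ SS →ₙ+* D),
    Function.Injective f := by
  obtain ⟨D, hD, f, hf⟩ := exists_divisionRing (E := EE)
  exact ⟨D, hD, (f : RR →ₙ+* D).comp psi, hf.comp psi_inj⟩

/-- The forced torsion relation. -/
theorem forced {D : Type} [DivisionRing D]
    (a0 a1 a2 a3 a4 a5 a6 c1 c2 z1 z2 z3 z4 z5 z6 al al' t1 be be' t2 ga ga' t3 : D)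
    (n0 : a0 ≠ 0) (nc1 : c1 ≠ 0) (nc2 : c2 ≠ 0) (nz : z1 ≠ 0) (nal : al ≠ 0) (nbe : be ≠ 0)
    (nga : ga ≠ 0)
    (h1 : a0 * z1 = a1 * z2) (h2 : a0 * z2 = a2 * z3) (h3 : a0 * z3 = a3 * z4)
    (h4 : a0 * z4 = a4 * z5) (h5 : a0 * z5 = a5 * z6) (h6 : a0 * z6 = a6 * z1)
    (k1 : a0 * al = a1 * t1) (k2 : a0 * t1 = a2 * be') (k3 : a0 * be = a3 * t2)
    (k4 : a0 * t2 = a4 * ga') (k5 : a0 * ga = a5 * t3) (k6 : a0 * t3 = a6 * al')
    (m1 : a0 * al = c1 * be) (m2 : a0 * al' = c1 * be')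
    (m3 : a0 * be = c2 * ga) (m4 : a0 * be' = c2 * ga') :
    (al⁻¹ * al') ^ 3 = 1 := by
  have inv : ∀ {p q r : D}, a0 * p = q * r → p = a0⁻¹ * q * r := by
    intro p q r h
    rw [mul_assoc, ← h, ← mul_assoc, inv_mul_cancel₀ n0, one_mul]
  have e1 := inv h1
  have e2 := inv h2
  have e3 := inv h3
  have e4 := inv h4
  have e5 := inv h5
  have e6 := inv h6
  have f1 := inv k1
  have f2 := inv k2
  have f3 := inv k3
  have f4 := inv k4
  have f5 := inv k5
  have f6 := inv k6
  set G1 := a0⁻¹ * a1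
  set G2 := a0⁻¹ * a2
  set G3 := a0⁻¹ * a3
  set G4 := a0⁻¹ * a4
  set G5 := a0⁻¹ * a5
  set G6 := a0⁻¹ * a6
  have hG : G1 * (G2 * (G3 * (G4 * (G5 * G6)))) = 1 := by
    apply mul_right_cancel₀ nz
    rw [one_mul]
    conv_rhs => rw [e1, e2, e3, e4, e5, e6]
    simp only [mul_assoc]
  -- the ratios agree
  have hx : ∀ {p p' q q' c : D}, c ≠ 0 → p ≠ 0 → q ≠ 0 → a0 * p = c * q → a0 * p' = c * q' →
      q⁻¹ * q' = p⁻¹ * p' := by
    intro p p' q q' c hc hp hq g1 g2
    have g3 : q = c⁻¹ * a0 * p := by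
      rw [mul_assoc, g1, ← mul_assoc, inv_mul_cancel₀ hc, one_mul]
    have g4 : q' = c⁻¹ * a0 * p' := by
      rw [mul_assoc, g2, ← mul_assoc, inv_mul_cancel₀ hc, one_mul]
    have hc0 : c⁻¹ * a0 ≠ 0 := mul_ne_zero (inv_ne_zero hc) n0
    rw [g3, g4, mul_inv_rev, mul_assoc, ← mul_assoc (c⁻¹ * a0)⁻¹, inv_mul_cancel₀ hc0, one_mul]
  have x1 := hx nc1 nal nbe m1 m2
  have x2 := hx nc2 nbe nga m3 m4
  set x := al⁻¹ * al' with hxdef
  have ha : al' = al * x := by rw [hxdef, ← mul_assoc, mul_inv_cancel₀ nal, one_mul]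
  have hb : be' = be * x := by rw [← x1, ← mul_assoc, mul_inv_cancel₀ nbe, one_mul]
  have hg : ga' = ga * x := by
    rw [← x1, ← x2, ← mul_assoc, mul_inv_cancel₀ nga, one_mul]
  have hfin : al = al * x ^ 3 := by
    calc al = G1 * (G2 * (be * x)) := by rw [← hb, ← f2, ← f1]
      _ = G1 * (G2 * ((G3 * (G4 * (ga * x))) * x)) := by rw [← hg, ← f4, ← f3]
      _ = G1 * (G2 * ((G3 * (G4 * ((G5 * (G6 * (al * x))) * x))) * x)) := by
          rw [← ha, ← f6, ← f5]
      _ = (G1 * (G2 * (G3 * (G4 * (G5 * G6))))) * (al * x ^ 3) := by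
          rw [pow_succ, pow_two]; simp only [mul_assoc]
      _ = al * x ^ 3 := by rw [hG, one_mul]
  have : al * x ^ 3 = al * 1 := by rw [← hfin, mul_one]
  exact mul_left_cancel₀ nal this

/-- Elements `(ρ, o)`. -/
def sA (r : GG) (hr : r ∈ Rho) : SS := ⟨r, [], (0, 16), hr, by simp, by decide⟩

/-- Elements `(z₁, λ)`. -/
def sL (l : GG) (hl : l ∈ Lam) : SS := ⟨(0, 44), [], l, by decide, by simp, hl⟩

theorem sL_mul_sA (l l' r r' : GG) (hl : l ∈ Lam) (hl' : l' ∈ Lam) (hr : r ∈ Rho) (hr' : r' ∈ Rho)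
    (h : l + r = l' + r') : sL l hl * sA r hr = sL l' hl' * sA r' hr' := by
  refine SS.ext' rfl ?_ rfl
  rw [mul_m, mul_m]
  change [] ++ (l + r) :: [] = [] ++ (l' + r') :: []
  rw [h]

theorem no_embed {D : Type} [DivisionRing D] (f : MonoidAlgebra (ZMod 3) SS →ₙ+* D)
    (hf : Function.Injective f) : False := by
  let G : SS → D := fun s => f (MonoidAlgebra.single s 1)
  have hG0 : ∀ s, G s ≠ 0 := by
    intro s h
    have h1 : MonoidAlgebra.single s (1 : ZMod 3) = 0 := by
      apply hf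
      rw [map_zero]; exact h
    have h2 : (1 : ZMod 3) = 0 := by
      have := congrArg (fun F => F.coeff s) h1
      simpa using this
    exact one_ne_zero h2
  have hGm : ∀ s t, G (s * t) = G s * G t := by
    intro s t
    change f _ = f _ * f _
    rw [← map_mul, MonoidAlgebra.single_mul_single, one_mul]
  have h3 : (3 : D) = 0 := by
    let s : SS := sL (0, 16) (by decide)
    have h1 : (3 : D) * G s = 0 := by
      have h2 : (3 : ℕ) • (MonoidAlgebra.single s (1 : ZMod 3)) = 0 := by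
        rw [MonoidAlgebra.smul_single]
        have : (3 : ℕ) • (1 : ZMod 3) = 0 := by decide
        rw [this, MonoidAlgebra.single_zero]
      have h4 : (3 : ℕ) • G s = 0 := by
        change (3 : ℕ) • f _ = 0
        rw [← map_nsmul, h2, map_zero]
      rw [nsmul_eq_mul] at h4
      exact_mod_cast h4
    rcases mul_eq_zero.mp h1 with h5 | h5
    · exact h5
    · exact absurd h5 (hG0 s)
  have rel : ∀ (l l' r r' : GG) (hl : l ∈ Lam) (hl' : l' ∈ Lam) (hr : r ∈ Rho) (hr' : r' ∈ Rho),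
      l + r = l' + r' → G (sL l hl) * G (sA r hr) = G (sL l' hl') * G (sA r' hr') := by
    intro l l' r r' hl hl' hr hr' h
    rw [← hGm, ← hGm, sL_mul_sA l l' r r' hl hl' hr hr' h]
  have key3 := forced
    (G (sL (0, 16) (by decide))) (G (sL (0, 2) (by decide))) (G (sL (0, 27) (by decide)))
    (G (sL (0, 20) (by decide))) (G (sL (0, 18) (by decide))) (G (sL (0, 4) (by decide)))
    (G (sL (0, 25) (by decide))) (G (sL (1, 13) (by decide))) (G (sL (1, 22) (by decide)))
    (G (sA (0, 44) (by decide))) (G (sA (0, 58) (by decide))) (G (sA (0, 47) (by decide)))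
    (G (sA (0, 43) (by decide))) (G (sA (0, 41) (by decide))) (G (sA (0, 53) (by decide)))
    (G (sA (0, 4) (by decide))) (G (sA (1, 4) (by decide))) (G (sA (0, 18) (by decide)))
    (G (sA (2, 7) (by decide))) (G (sA (0, 7) (by decide))) (G (sA (2, 3) (by decide)))
    (G (sA (1, 1) (by decide))) (G (sA (2, 1) (by decide))) (G (sA (1, 13) (by decide)))
    (hG0 _) (hG0 _) (hG0 _) (hG0 _) (hG0 _) (hG0 _) (hG0 _)
    (rel _ _ _ _ _ _ _ _ (by decide)) (rel _ _ _ _ _ _ _ _ (by decide))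
    (rel _ _ _ _ _ _ _ _ (by decide)) (rel _ _ _ _ _ _ _ _ (by decide))
    (rel _ _ _ _ _ _ _ _ (by decide)) (rel _ _ _ _ _ _ _ _ (by decide))
    (rel _ _ _ _ _ _ _ _ (by decide)) (rel _ _ _ _ _ _ _ _ (by decide))
    (rel _ _ _ _ _ _ _ _ (by decide)) (rel _ _ _ _ _ _ _ _ (by decide))
    (rel _ _ _ _ _ _ _ _ (by decide)) (rel _ _ _ _ _ _ _ _ (by decide))
    (rel _ _ _ _ _ _ _ _ (by decide)) (rel _ _ _ _ _ _ _ _ (by decide))
    (rel _ _ _ _ _ _ _ _ (by decide)) (rel _ _ _ _ _ _ _ _ (by decide))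
  set x := (G (sA (0, 4) (by decide)))⁻¹ * G (sA (1, 4) (by decide)) with hx
  have h4 : (x - 1) ^ 3 = 0 := by
    have : (x - 1) ^ 3 = x ^ 3 - 3 * (x ^ 2 - x) - 1 := by noncomm_ring
    rw [this, key3, h3, zero_mul, sub_zero, sub_self]
  have h5 : x = 1 := by
    have := pow_eq_zero_iff (n := 3) (by norm_num) |>.mp h4
    exact sub_eq_zero.mp this
  have h6 : G (sA (1, 4) (by decide)) = G (sA (0, 4) (by decide)) := by
    have h7 : G (sA (0, 4) (by decide)) * x = G (sA (1, 4) (by decide)) := by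
      rw [hx, ← mul_assoc, mul_inv_cancel₀ (hG0 _), one_mul]
    rw [← h7, h5, mul_one]
  have h8 := hf h6
  have h9 : sA (1, 4) (by decide) = sA (0, 4) (by decide) :=
    MonoidAlgebra.single_left_injective one_ne_zero h8
  have h10 : ((1, 4) : GG) = (0, 4) := congrArg SS.a h9
  exact absurd h10 (by decide)

end Pool.Agent.Helpers25.SG
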