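import Mathlib

open Multiplicative

set_option linter.unusedSectionVars false

namespace Pool.Agent.Helpers25.SG

section Ore

variable {E : Type} [Field E] [MulSemiringAction (Multiplicative ℕ) E]

/-- Coefficients of a skew polynomial. -/
def cf (f : SkewMonoidAlgebra E (Multiplicative ℕ)) (n : ℕ) : E := f.coeff (ofAdd n)

theorem cf_ext {f g : SkewMonoidAlgebra E (Multiplicative ℕ)} (h : ∀ n, cf f n = cf g n) :
    f = g := by
  refine SkewMonoidAlgebra.ext fun a => ?_
  have := h (toAdd a)
  simpa [cf] using this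

theorem cf_zero (n : ℕ) : cf (0 : SkewMonoidAlgebra E (Multiplicative ℕ)) n = 0 := by
  simp [cf]

theorem cf_add (f g : SkewMonoidAlgebra E (Multiplicative ℕ)) (n : ℕ) :
    cf (f + g) n = cf f n + cf g n := by
  simp [cf]

theorem cf_sub (f g : SkewMonoidAlgebra E (Multiplicative ℕ)) (n : ℕ) :
    cf (f - g) n = cf f n - cf g n := by
  simp [cf]

theorem cf_smul (a : E) (f : SkewMonoidAlgebra E (Multiplicative ℕ)) (n : ℕ) :
    cf (a • f) n = a * cf f n := by
  simp [cf]

theorem cf_sum {ι : Type} (s : Finset ι) (f : ι → SkewMonoidAlgebra E (Multiplicative ℕ)) (n : ℕ) :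
    cf (∑ i ∈ s, f i) n = ∑ i ∈ s, cf (f i) n := by
  classical
  induction s using Finset.induction_on with
  | empty => simp [cf_zero]
  | insert a s ha ih => rw [Finset.sum_insert ha, Finset.sum_insert ha, cf_add, ih]

theorem cf_mul (f g : SkewMonoidAlgebra E (Multiplicative ℕ)) (n : ℕ) :
    cf (f * g) n = ∑ p ∈ Finset.HasAntidiagonal.antidiagonal n, cf f p.1 * (ofAdd p.1) • cf g p.2 := by
  unfold cf
  rw [SkewMonoidAlgebra.coeff_mul_antidiagonal_of_finset f g (ofAdd n)
    ((Finset.HasAntidiagonal.antidiagonal n).image fun p => (ofAdd p.1, ofAdd p.2))]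
  · rw [Finset.sum_image]
    rintro ⟨a, b⟩ - ⟨c, d⟩ - h
    simpa using h
  · rintro ⟨a, b⟩
    simp only [Finset.mem_image, Finset.HasAntidiagonal.mem_antidiagonal, Prod.mk.injEq, Prod.exists]
    constructor
    · rintro ⟨c, d, h, rfl, rfl⟩
      rw [← h]; rfl
    · intro h
      refine ⟨toAdd a, toAdd b, ?_, rfl, rfl⟩
      have := congrArg toAdd h
      simpa using this

theorem smul_eq_zero' (n : ℕ) (x : E) (h : (ofAdd n : Multiplicative ℕ) • x = 0) : x = 0 := by
  have hi : Function.Injective (MulSemiringAction.toRingHom (Multiplicative ℕ) E (ofAdd n)) :=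
    RingHom.injective _
  apply hi
  simpa using h

theorem exists_deg (f : SkewMonoidAlgebra E (Multiplicative ℕ)) (hf : f ≠ 0) :
    ∃ n, cf f n ≠ 0 ∧ ∀ m, n < m → cf f m = 0 := by
  have hs : f.support.Nonempty := by
    rw [Finset.nonempty_iff_ne_empty, Ne, SkewMonoidAlgebra.support_eq_empty]
    exact hf
  refine ⟨toAdd (f.support.max' hs), ?_, ?_⟩
  · have := f.support.max'_mem hs
    rw [SkewMonoidAlgebra.mem_support_iff] at this
    simpa [cf] using this
  · intro m hm
    by_contra hne
    have h1 : ofAdd m ∈ f.support := by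
      rw [SkewMonoidAlgebra.mem_support_iff]; exact hne
    have h2 := f.support.le_max' _ h1
    have h3 : m ≤ toAdd (f.support.max' hs) := h2
    omega

theorem bound_exists (f : SkewMonoidAlgebra E (Multiplicative ℕ)) :
    ∃ n, ∀ m, n < m → cf f m = 0 := by
  by_cases hf : f = 0
  · exact ⟨0, fun m _ => by rw [hf, cf_zero]⟩
  · obtain ⟨n, -, h⟩ := exists_deg f hf
    exact ⟨n, h⟩

theorem cf_mul_top (f g : SkewMonoidAlgebra E (Multiplicative ℕ)) (m n : ℕ)
    (hf : ∀ k, m < k → cf f k = 0) (hg : ∀ k, n < k → cf g k = 0) :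
    cf (f * g) (m + n) = cf f m * (ofAdd m) • cf g n := by
  rw [cf_mul, Finset.sum_eq_single (m, n)]
  · rintro ⟨a, b⟩ hab hne
    rw [Finset.HasAntidiagonal.mem_antidiagonal] at hab
    simp only at hab
    rcases lt_or_ge m a with h | h
    · rw [hf a h, zero_mul]
    · have : n < b ∨ (a = m ∧ b = n) := by omega
      rcases this with h' | ⟨rfl, rfl⟩
      · rw [hg b h', smul_zero, mul_zero]
      · exact absurd rfl hne
  · intro h
    exact absurd (Finset.HasAntidiagonal.mem_antidiagonal.mpr (show m + n = m + n from rfl)) h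

theorem cf_mul_above (f g : SkewMonoidAlgebra E (Multiplicative ℕ)) (m n k : ℕ)
    (hf : ∀ k, m < k → cf f k = 0) (hg : ∀ k, n < k → cf g k = 0) (hk : m + n < k) :
    cf (f * g) k = 0 := by
  rw [cf_mul]
  refine Finset.sum_eq_zero ?_
  rintro ⟨a, b⟩ hab
  rw [Finset.HasAntidiagonal.mem_antidiagonal] at hab
  simp only at hab
  rcases lt_or_ge m a with h | h
  · rw [hf a h, zero_mul]
  · rw [hg b (by omega), smul_zero, mul_zero]

instance noZD : NoZeroDivisors (SkewMonoidAlgebra E (Multiplicative ℕ)) where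
  eq_zero_or_eq_zero_of_mul_eq_zero := by
    intro f g hfg
    by_contra hcon
    push Not at hcon
    obtain ⟨hf, hg⟩ := hcon
    obtain ⟨m, hm, hm'⟩ := exists_deg f hf
    obtain ⟨n, hn, hn'⟩ := exists_deg g hg
    have h := cf_mul_top f g m n hm' hn'
    rw [hfg, cf_zero] at h
    rcases mul_eq_zero.mp h.symm with h1 | h1
    · exact hm h1
    · exact hn (smul_eq_zero' _ _ h1)

/-- The skew polynomial with given coefficients. -/
noncomputable def mk (n : ℕ) (a : Fin n → E) : SkewMonoidAlgebra E (Multiplicative ℕ) :=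
  ∑ i : Fin n, a i • SkewMonoidAlgebra.single (ofAdd (i : ℕ)) (1 : E)

theorem cf_mk (n : ℕ) (a : Fin n → E) (i : Fin n) : cf (mk n a) i = a i := by
  classical
  unfold mk
  rw [cf_sum, Finset.sum_eq_single i]
  · rw [cf_smul]
    simp [cf]
  · intro j _ hj
    rw [cf_smul]
    have : (ofAdd (j : ℕ)) ≠ ofAdd (i : ℕ) := by
      intro h
      exact hj (Fin.ext (by simpa using h))
    simp only [cf, SkewMonoidAlgebra.coeff_single]
    rw [Finsupp.single_apply, if_neg this, mul_zero]
  · intro h; exact absurd (Finset.mem_univ _) h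

theorem cf_mk_above (n : ℕ) (a : Fin n → E) (k : ℕ) (hk : n ≤ k) : cf (mk n a) k = 0 := by
  unfold mk
  rw [cf_sum]
  refine Finset.sum_eq_zero fun i _ => ?_
  rw [cf_smul]
  have : (ofAdd (i : ℕ)) ≠ ofAdd k := by
    intro h
    have : (i : ℕ) = k := by simpa using h
    have := i.2
    omega
  simp only [cf, SkewMonoidAlgebra.coeff_single]
  rw [Finsupp.single_apply, if_neg this, mul_zero]

theorem mk_add (n : ℕ) (a b : Fin n → E) : mk n (a + b) = mk n a + mk n b := by
  unfold mk
  rw [← Finset.sum_add_distrib]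
  refine Finset.sum_congr rfl fun i _ => ?_
  rw [Pi.add_apply, add_smul]

theorem mk_smul (n : ℕ) (c : E) (a : Fin n → E) : mk n (c • a) = c • mk n a := by
  unfold mk
  rw [Finset.smul_sum]
  refine Finset.sum_congr rfl fun i _ => ?_
  rw [Pi.smul_apply, smul_eq_mul, mul_smul]

theorem ore_exists (r s : SkewMonoidAlgebra E (Multiplicative ℕ)) (hs : s ≠ 0) :
    ∃ a b : SkewMonoidAlgebra E (Multiplicative ℕ), a ≠ 0 ∧ a * r = b * s := by
  obtain ⟨d1, hd1⟩ := bound_exists r
  obtain ⟨d2, hd2⟩ := bound_exists s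
  let d := max d1 d2
  have hr : ∀ k, d < k → cf r k = 0 := fun k hk => hd1 k (by omega)
  have hs' : ∀ k, d < k → cf s k = 0 := fun k hk => hd2 k (by omega)
  -- the linear map
  let T : ((Fin (d + 1) → E) × (Fin (d + 1) → E)) →ₗ[E] (Fin (2 * d + 1) → E) :=
    { toFun := fun p i => cf (mk (d + 1) p.1 * r - mk (d + 1) p.2 * s) i
      map_add' := by
        intro p q
        funext i
        simp only [Prod.fst_add, Prod.snd_add, mk_add, add_mul, cf_sub, cf_add, Pi.add_apply]
        ring
      map_smul' := by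
        intro c p
        funext i
        simp only [Prod.smul_fst, Prod.smul_snd, mk_smul, RingHom.id_apply, Pi.smul_apply,
          smul_mul_assoc, cf_sub, cf_smul, smul_eq_mul]
        ring }
  have hlt : Module.finrank E (Fin (2 * d + 1) → E) <
      Module.finrank E ((Fin (d + 1) → E) × (Fin (d + 1) → E)) := by
    simp
    omega
  have hker := LinearMap.ker_ne_bot_of_finrank_lt hlt (f := T)
  obtain ⟨p, hp, hp0⟩ := Submodule.exists_mem_ne_zero_of_ne_bot hker
  have hT : mk (d + 1) p.1 * r = mk (d + 1) p.2 * s := by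
    rw [← sub_eq_zero]
    apply cf_ext
    intro n
    rw [cf_zero]
    rcases lt_or_ge n (2 * d + 1) with h | h
    · have := congrFun (LinearMap.mem_ker.mp hp) ⟨n, h⟩
      exact this
    · rw [cf_sub, cf_mul_above _ r d d n (fun k hk => cf_mk_above _ _ k (by omega)) hr (by omega),
        cf_mul_above _ s d d n (fun k hk => cf_mk_above _ _ k (by omega)) hs' (by omega), sub_zero]
  have hmk0 : ∀ a : Fin (d + 1) → E, mk (d + 1) a = 0 → a = 0 := by
    intro a ha
    funext i
    rw [← cf_mk (d + 1) a i, ha, cf_zero]; rfl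
  refine ⟨mk (d + 1) p.1, mk (d + 1) p.2, ?_, hT⟩
  intro h
  rw [h, zero_mul] at hT
  have h2 : mk (d + 1) p.2 = 0 := by
    rcases mul_eq_zero.mp hT.symm with h3 | h3
    · exact h3
    · exact absurd h3 hs
  exact hp0 (Prod.ext (hmk0 _ h) (hmk0 _ h2))

open nonZeroDivisors in
/-- The Ore condition. -/
noncomputable instance oreSet :
    OreLocalization.OreSet (nonZeroDivisors (SkewMonoidAlgebra E (Multiplicative ℕ))) where
  ore_right_cancel := by
    intro r₁ r₂ s h
    refine ⟨1, ?_⟩
    have hs : (s : SkewMonoidAlgebra E (Multiplicative ℕ)) ≠ 0 := nonZeroDivisors.ne_zero s.2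
    have h2 : (r₁ - r₂) * (s : SkewMonoidAlgebra E (Multiplicative ℕ)) = 0 := by
      rw [sub_mul, h, sub_self]
    rcases mul_eq_zero.mp h2 with h3 | h3
    · rw [sub_eq_zero.mp h3]
    · exact absurd h3 hs
  oreNum := fun r s => (ore_exists r s (nonZeroDivisors.ne_zero s.2)).choose_spec.choose
  oreDenom := fun r s => ⟨(ore_exists r s (nonZeroDivisors.ne_zero s.2)).choose,
    mem_nonZeroDivisors_of_ne_zero
      (ore_exists r s (nonZeroDivisors.ne_zero s.2)).choose_spec.choose_spec.1⟩
  ore_eq := fun r s => (ore_exists r s (nonZeroDivisors.ne_zero s.2)).choose_spec.choose_spec.2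

/-- The skew polynomial ring embeds in a division ring. -/
theorem exists_divisionRing : ∃ (D : Type) (_ : DivisionRing D)
    (f : SkewMonoidAlgebra E (Multiplicative ℕ) →+* D), Function.Injective f := by
  refine ⟨OreLocalization (nonZeroDivisors (SkewMonoidAlgebra E (Multiplicative ℕ)))
    (SkewMonoidAlgebra E (Multiplicative ℕ)), inferInstance, OreLocalization.numeratorRingHom, ?_⟩
  exact OreLocalization.numeratorHom_inj (fun x hx => by
    rw [mem_nonZeroDivisors_iff] at hx
    exact fun y hy => hx.1 y hy)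

end Ore

end Pool.Agent.Helpers25.SG
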