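import Pool.Agent.Helpers25.SGField

open Multiplicative

set_option linter.unusedSectionVars false
set_option maxRecDepth 20000

namespace Pool.Agent.Helpers25.SG

/-- The letters: pairs (residue mod 3, position). -/
abbrev GG := ZMod 3 × ℕ

/-- The missing residue at each position. -/
def hh (n : ℕ) : ZMod 3 :=
  if n ∈ [7, 9, 11, 14, 23, 25, 27, 30, 32, 34, 35] then 1
  else if n ∈ [1, 3, 5, 17, 19, 21, 26, 28] then 0 else 2

/-- Left coordinates `Λ`. -/
def Lam : List GG := [(0, 16), (0, 2), (0, 27), (0, 20), (0, 18), (0, 4), (0, 25), (1, 13), (1, 22)]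

/-- Right coordinates `Ρ`. -/
def Rho : List GG := [(0, 44), (0, 58), (0, 47), (0, 43), (0, 41), (0, 53),
  (0, 4), (1, 4), (0, 18), (2, 7), (0, 7), (2, 3), (1, 1), (2, 1), (1, 13)]

/-- Admissible letters. -/
def ok (x : GG) : Prop := x.2 < 100 ∧ x.1 ≠ hh x.2

instance (x : GG) : Decidable (ok x) := by unfold ok; infer_instance

theorem ok_Lam : ∀ x ∈ Lam, ok x := by decide

theorem ok_Rho : ∀ x ∈ Rho, ok x := by decide

theorem ok_sum : ∀ x ∈ Lam, ∀ y ∈ Rho, ok (x + y) := by decide

theorem Lam_inj : ∀ x ∈ Lam, ∀ y ∈ Lam, x.2 = y.2 → x = y := by decide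

/-- The semigroup `S`. -/
structure SS where
  a : GG
  m : List GG
  b : GG
  ha : a ∈ Rho
  hm : ∀ x ∈ m, ok x
  hb : b ∈ Lam

theorem SS.ext' {s t : SS} (h1 : s.a = t.a) (h2 : s.m = t.m) (h3 : s.b = t.b) : s = t := by
  cases s; cases t; simp_all

/-- Multiplication. -/
def SS.mul' (s t : SS) : SS where
  a := s.a
  m := s.m ++ (s.b + t.a) :: t.m
  b := t.b
  ha := s.ha
  hm := by
    intro x hx
    rcases List.mem_append.mp hx with h | h
    · exact s.hm x h
    · rcases List.mem_cons.mp h with h | h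
      · rw [h]; exact ok_sum _ s.hb _ t.ha
      · exact t.hm x h
  hb := t.hb

instance : Semigroup SS where
  mul := SS.mul'
  mul_assoc := by
    intro s t u
    refine SS.ext' rfl ?_ rfl
    change (s.m ++ (s.b + t.a) :: t.m) ++ (t.b + u.a) :: u.m =
      s.m ++ (s.b + t.a) :: (t.m ++ (t.b + u.a) :: u.m)
    simp

theorem mul_a (s t : SS) : (s * t).a = s.a := rfl
theorem mul_m (s t : SS) : (s * t).m = s.m ++ (s.b + t.a) :: t.m := rfl
theorem mul_b (s t : SS) : (s * t).b = t.b := rfl

/-- Total position. -/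
def pos (s : SS) : ℤ := s.a.2 + (s.m.map fun x => (x.2 : ℤ)).sum + s.b.2

/-- Length. -/
def len (s : SS) : ℤ := s.m.length + 1

theorem pos_mul (s t : SS) : pos (s * t) = pos s + pos t := by
  unfold pos
  rw [mul_a, mul_m, mul_b, List.map_append, List.map_cons, List.sum_append, List.sum_cons]
  push_cast [Prod.snd_add]
  ring

theorem len_mul (s t : SS) : len (s * t) = len s + len t := by
  unfold len
  rw [mul_m, List.length_append, List.length_cons]
  push_cast
  ring

/-- The grading homomorphism. -/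
def grad : SS →ₙ* Multiplicative ℤ × Multiplicative ℤ where
  toFun s := (ofAdd (pos s), ofAdd (len s))
  map_mul' s t := by rw [pos_mul, len_mul]; rfl

theorem SS_up : UniqueProds SS := by
  refine UniqueProds.of_mulHom grad ?_
  intro a b c d h hh
  obtain ⟨h1, h2⟩ := hh
  have e1 : pos a = pos c := by
    have := congrArg (fun x => toAdd x.1) h1
    exact this
  have e2 : len a = len c := by
    have := congrArg (fun x => toAdd x.2) h1
    exact this
  have ha : a.a = c.a := by rw [← mul_a a b, h, mul_a]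
  have hb : b.b = d.b := by rw [← mul_b a b, h, mul_b]
  have hm : a.m ++ (a.b + b.a) :: b.m = c.m ++ (c.b + d.a) :: d.m := by
    rw [← mul_m a b, h, mul_m]
  have hl : a.m.length = c.m.length := by
    unfold len at e2; omega
  obtain ⟨hm1, hm2⟩ := List.append_inj hm hl
  rw [List.cons.injEq] at hm2
  obtain ⟨hm3, hm4⟩ := hm2
  have hab : a.b = c.b := by
    apply Lam_inj _ a.hb _ c.hb
    unfold pos at e1
    rw [ha, hm1] at e1
    omega
  have hba : b.a = d.a := by
    rw [hab] at hm3
    exact add_left_cancel hm3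
  exact ⟨SS.ext' ha hm1 hab, SS.ext' hba hm4 hb⟩

theorem SS_domain (F : Type) [Field F] : NoZeroDivisors (MonoidAlgebra F SS) := by
  have := SS_up
  infer_instance

/-! ### The embedding in characteristic zero -/

/-- A primitive cube root of unity. -/
noncomputable def om : ℂ := ⟨-1 / 2, Real.sqrt 3 / 2⟩

theorem om3 : om ^ 3 = 1 := by
  have h3 : Real.sqrt 3 * Real.sqrt 3 = 3 := Real.mul_self_sqrt (by norm_num)
  have : om ^ 3 = om * om * om := by ring
  rw [this]
  apply Complex.ext
  · simp only [om, Complex.mul_re, Complex.mul_im, Complex.one_re]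
    nlinarith
  · simp only [om, Complex.mul_re, Complex.mul_im, Complex.one_im]
    linear_combination (-(Real.sqrt 3) / 8) * h3

/-- The character. -/
noncomputable def chi (e : ZMod 3) : ℂ := om ^ e.val

theorem chi_add (a b : ZMod 3) : chi (a + b) = chi a * chi b := by
  unfold chi
  rw [← pow_add, ZMod.val_add]
  conv_rhs => rw [← Nat.div_add_mod (a.val + b.val) 3, pow_add, pow_mul, om3, one_pow, one_mul]

theorem chi_ne (a : ZMod 3) : chi a ≠ 0 := by
  intro h
  have h1 : chi a * chi (-a) = 1 := by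
    rw [← chi_add, add_neg_cancel]; simp [chi]
  rw [h, zero_mul] at h1
  exact zero_ne_one h1

/-- Image of a letter. -/
noncomputable def phi (x : GG) : EE := mono x.2 (chi x.1)

theorem phi_add (x y : GG) : phi (x + y) = phi x * phi y := by
  unfold phi
  rw [mono_mul, Prod.fst_add, Prod.snd_add, chi_add]
  push_cast; rfl

/-- The complex constants. -/
noncomputable def KK : ℂ →+* RR := CC.comp (HahnSeries.C : ℂ →+* HahnSeries ℤ ℂ)

theorem KK_eq (z : ℂ) : KK z = CC (mono 0 z) := rfl

theorem tt_KK (z : ℂ) : tt * KK z = KK ((starRingEnd ℂ) z) * tt := by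
  rw [KK_eq, KK_eq, tt_CC, sig_mono, mul_zero]

/-- The special element `Y = t + X^100 t^2`. -/
noncomputable def YY : RR := tt + CC (mono 100 1) * (tt * tt)

/-- Real constants. -/
noncomputable def KR : ℝ →+* RR := KK.comp Complex.ofRealHom

theorem KR_eq (a : ℝ) : KR a = KK (a : ℂ) := rfl

theorem CC_comm (a b : EE) : CC a * CC b = CC b * CC a := by
  rw [← map_mul, mul_comm, map_mul]

theorem KR_tt (a : ℝ) : Commute (KR a) tt := by
  unfold Commute SemiconjBy
  rw [KR_eq, tt_KK, Complex.conj_ofReal]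

theorem KR_CC (a : ℝ) (b : EE) : Commute (KR a) (CC b) := CC_comm _ _

theorem KR_YY (a : ℝ) : Commute (KR a) YY := by
  unfold YY
  exact (KR_tt a).add_right ((KR_CC a _).mul_right ((KR_tt a).mul_right (KR_tt a)))

/-- Product over a word, each letter followed by `Y`. -/
noncomputable def QQ : List GG → RR
  | [] => 1
  | x :: w => CC (phi x) * YY * QQ w

theorem QQ_append (u v : List GG) : QQ (u ++ v) = QQ u * QQ v := by
  induction u with
  | nil => simp [QQ]
  | cons x u ih => simp only [List.cons_append, QQ, ih, mul_assoc]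

theorem KR_QQ (a : ℝ) (w : List GG) : Commute (KR a) (QQ w) := by
  induction w with
  | nil => exact Commute.one_right _
  | cons x w ih => exact ((KR_CC a _).mul_right (KR_YY a)).mul_right ih

/-- Image of an element of `S`. -/
noncomputable def PH (s : SS) : RR := CC (phi s.a) * YY * QQ s.m * CC (phi s.b)

theorem PH_mul (s t : SS) : PH (s * t) = PH s * PH t := by
  unfold PH
  rw [mul_a, mul_m, mul_b, QQ_append]
  simp only [QQ, phi_add, map_mul, mul_assoc]

theorem KR_PH (a : ℝ) (s : SS) : Commute (KR a) (PH s) :=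
  (((KR_CC a _).mul_right (KR_YY a)).mul_right (KR_QQ a _)).mul_right (KR_CC a _)

/-- The word of an element. -/
def word (s : SS) : List GG := s.a :: (s.m ++ [s.b])

theorem PH_YY (s : SS) : PH s * YY = QQ (word s) := by
  unfold PH word
  rw [QQ, QQ_append, QQ, QQ, mul_one]
  simp only [mul_assoc]

theorem word_inj : Function.Injective word := by
  intro s t h
  unfold word at h
  rw [List.cons.injEq] at h
  obtain ⟨h1, h2⟩ := h
  have h3 := List.append_inj' h2 rfl
  refine SS.ext' h1 h3.1 ?_
  have := h3.2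
  simpa using this

/-- `PH` as a homomorphism. -/
noncomputable def PHhom : SS →ₙ* RR where
  toFun := PH
  map_mul' := PH_mul

/-- The homomorphism from the semigroup algebra. -/
noncomputable def psi : MonoidAlgebra ℝ SS →ₙ+* RR where
  toFun := MonoidAlgebra.liftNC (KR : ℝ →+ RR) PHhom
  map_mul' a b := MonoidAlgebra.liftNC_mul KR PHhom a b (fun {_ _} _ => KR_PH _ _)
  map_zero' := map_zero _
  map_add' := map_add _

/-- The words of length at most `N`. -/
noncomputable def TT : ℕ → Finset (List GG)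
  | 0 => {[]}
  | N + 1 => insert [] (((Finset.range 100 ×ˢ ({1, 2} : Finset (ZMod 3))) ×ˢ TT N).image
      fun p => ((hh p.1.1 + p.1.2, p.1.1) : GG) :: p.2)

theorem TT_sum (N : ℕ) (G : List GG → RR) :
    ∑ w ∈ TT (N + 1), G w = G [] + ∑ n ∈ Finset.range 100, ∑ i ∈ ({1, 2} : Finset (ZMod 3)),
      ∑ w ∈ TT N, G (((hh n + i, n) : GG) :: w) := by
  classical
  rw [TT, Finset.sum_insert, Finset.sum_image, Finset.sum_product, Finset.sum_product]
  · rintro ⟨⟨n, i⟩, w⟩ - ⟨⟨n', i'⟩, w'⟩ - h
    simp only [List.cons.injEq, Prod.mk.injEq] at h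
    obtain ⟨⟨h1, h2⟩, h3⟩ := h
    subst h2; subst h3
    have := add_left_cancel h1
    subst this; rfl
  · intro h
    simp at h

theorem TT_mono (N : ℕ) : TT N ⊆ TT (N + 1) := by
  induction N with
  | zero =>
    intro w hw
    rw [TT, Finset.mem_singleton] at hw
    rw [hw, TT]
    exact Finset.mem_insert_self _ _
  | succ N ih =>
    intro w hw
    rw [TT] at hw ⊢
    rw [Finset.mem_insert] at hw ⊢
    rcases hw with hw | hw
    · exact Or.inl hw
    · right
      rw [Finset.mem_image] at hw ⊢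
      obtain ⟨p, hp, hpw⟩ := hw
      refine ⟨p, ?_, hpw⟩
      rw [Finset.mem_product] at hp ⊢
      exact ⟨hp.1, ih hp.2⟩

theorem ok_form (x : GG) (hx : ok x) : ∃ i ∈ ({1, 2} : Finset (ZMod 3)), x = (hh x.2 + i, x.2) := by
  obtain ⟨e, n⟩ := x
  have h2 : e ≠ hh n := hx.2
  refine ⟨e - hh n, ?_, by simp⟩
  have h3 : e - hh n ≠ 0 := sub_ne_zero.mpr h2
  revert h3
  generalize e - hh n = j
  revert j
  decide

theorem mem_TT (w : List GG) (hw : ∀ x ∈ w, ok x) : w ∈ TT w.length := by
  induction w with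
  | nil => simp [TT]
  | cons x w ih =>
    rw [List.length_cons, TT, Finset.mem_insert]
    right
    obtain ⟨i, hi, hx⟩ := ok_form x (hw x (by simp))
    rw [Finset.mem_image]
    refine ⟨((x.2, i), w), ?_, ?_⟩
    · rw [Finset.mem_product, Finset.mem_product]
      exact ⟨⟨Finset.mem_range.mpr (hw x (by simp)).1, hi⟩,
        ih fun y hy => hw y (List.mem_cons_of_mem _ hy)⟩
    · simp only
      rw [← hx]

theorem real_indep (n : ℕ) (a b : ℝ)
    (h : (a : ℂ) * chi (hh n + 1) + (b : ℂ) * chi (hh n + 2) = 0) : a = 0 ∧ b = 0 := by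
  rw [chi_add, chi_add] at h
  have h1 : (a : ℂ) * chi 1 + (b : ℂ) * chi 2 = 0 := by
    have : chi (hh n) * ((a : ℂ) * chi 1 + (b : ℂ) * chi 2) = 0 := by
      rw [← h]; ring
    rcases mul_eq_zero.mp this with h2 | h2
    · exact absurd h2 (chi_ne _)
    · exact h2
  have hs : Real.sqrt 3 > 0 := Real.sqrt_pos.mpr (by norm_num)
  have h3 : Real.sqrt 3 * Real.sqrt 3 = 3 := Real.mul_self_sqrt (by norm_num)
  have c1 : chi 1 = om := by
    unfold chi
    have : (1 : ZMod 3).val = 1 := rfl
    rw [this, pow_one]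
  have c2 : chi 2 = om * om := by
    unfold chi
    have : (2 : ZMod 3).val = 2 := rfl
    rw [this, pow_two]
  rw [c1, c2] at h1
  have hre := congrArg Complex.re h1
  have him := congrArg Complex.im h1
  simp only [om, Complex.add_re, Complex.add_im, Complex.mul_re, Complex.mul_im, Complex.ofReal_re,
    Complex.ofReal_im, Complex.zero_re, Complex.zero_im, zero_mul, sub_zero, add_zero] at hre him
  have h8 : Real.sqrt 3 / 2 * (Real.sqrt 3 / 2) = 3 / 4 := by linear_combination h3 / 4
  rw [h8] at hre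
  have e1 : a + b = 0 := by linarith
  have e2 : (a - b) * Real.sqrt 3 = 0 := by nlinarith
  have e3 : a - b = 0 := by
    rcases mul_eq_zero.mp e2 with h4 | h4
    · exact h4
    · exact absurd h4 hs.ne'
  constructor <;> linarith

theorem letter_expand (f : ℝ) (e : ZMod 3) (n : ℕ) (Z : RR) :
    KR f * (CC (phi ((e, n) : GG)) * YY * Z) =
      CC (mono n 1) * (tt * (KK ((starRingEnd ℂ) ((f : ℂ) * chi e)) * Z)) +
      CC (mono (n + 100) 1) * (tt * (tt * (KK ((f : ℂ) * chi e) * Z))) := by
  have h1 : CC (phi ((e, n) : GG)) = CC (mono n 1) * KK (chi e) := by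
    rw [KK_eq, ← map_mul, mono_mul]
    simp [phi]
  have h2 : mono ((n : ℤ) + 100) 1 = mono n 1 * mono 100 1 := by
    rw [mono_mul, mul_one]
  have h3 : ∀ z : ℂ, tt * KK ((starRingEnd ℂ) z) = KK z * tt := by
    intro z; rw [tt_KK, Complex.conj_conj]
  have h4 : KR f * CC (mono n 1) = CC (mono n 1) * KR f := KR_CC f _
  have h5 : KR f * KK (chi e) = KK ((f : ℂ) * chi e) := by rw [KR_eq, ← map_mul]
  have h6 : ∀ z : ℂ, KK z * CC (mono 100 1) = CC (mono 100 1) * KK z := fun z => CC_comm _ _
  have h7 : ∀ z : ℂ, tt * (tt * KK z) = KK z * (tt * tt) := by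
    intro z
    rw [tt_KK, ← mul_assoc, tt_KK, Complex.conj_conj, mul_assoc]
  calc KR f * (CC (phi ((e, n) : GG)) * YY * Z)
      = (KR f * CC (mono n 1)) * KK (chi e) * YY * Z := by rw [h1]; simp only [mul_assoc]
    _ = CC (mono n 1) * (KR f * KK (chi e)) * YY * Z := by rw [h4]; simp only [mul_assoc]
    _ = CC (mono n 1) * KK ((f : ℂ) * chi e) * YY * Z := by rw [h5]
    _ = CC (mono n 1) * (KK ((f : ℂ) * chi e) * tt) * Z +
        CC (mono n 1) * ((KK ((f : ℂ) * chi e) * CC (mono 100 1)) * (tt * tt)) * Z := by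
        unfold YY; simp only [mul_add, add_mul, mul_assoc]
    _ = CC (mono n 1) * (tt * KK ((starRingEnd ℂ) ((f : ℂ) * chi e))) * Z +
        CC (mono n 1) * (CC (mono 100 1) * (KK ((f : ℂ) * chi e) * (tt * tt))) * Z := by
        rw [h3, h6, mul_assoc (CC (mono 100 1))]
    _ = _ := by rw [← h7, h2, map_mul CC (mono n 1) (mono 100 1)]; simp only [mul_assoc]

theorem indep (N : ℕ) : ∀ f : List GG → ℝ, ∑ w ∈ TT N, KR (f w) * QQ w = 0 →
    ∀ w ∈ TT N, f w = 0 := by
  have hKR0 : ∀ a : ℝ, cf (KR a) 0 = 0 → a = 0 := by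
    intro a ha
    have h1 : cf (KR a) 0 = mono 0 (a : ℂ) := by
      have := cf_CC_mul (mono 0 (a : ℂ)) 1 0
      rw [mul_one] at this
      rw [KR_eq, KK_eq, this]
      have h2 : cf (1 : RR) 0 = 1 := by
        unfold cf
        rw [SkewMonoidAlgebra.coeff_one]; exact Finsupp.single_eq_same
      rw [h2, mul_one]
    rw [h1] at ha
    have h3 : lc (mono 0 (a : ℂ)) 0 = 0 := by rw [ha]; rfl
    have h4 : lc (mono 0 (a : ℂ)) 0 = (a : ℂ) := by
      unfold lc mono; simp
    rw [h4] at h3
    exact_mod_cast h3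
  induction N with
  | zero =>
    intro f h w hw
    rw [TT, Finset.sum_singleton] at h
    rw [TT, Finset.mem_singleton] at hw
    rw [hw]
    apply hKR0
    rw [QQ, mul_one] at h
    rw [h, cf_zero]
  | succ N ih =>
    intro f h
    rw [TT_sum] at h
    -- the complex coefficients
    let g : ℕ → List GG → ℂ := fun n w => ∑ i ∈ ({1, 2} : Finset (ZMod 3)),
      (f (((hh n + i, n) : GG) :: w) : ℂ) * chi (hh n + i)
    have h1 : KR (f []) + ∑ n ∈ Finset.range 100,
        (CC (mono n 1) * (tt * ∑ w ∈ TT N, KK ((starRingEnd ℂ) (g n w)) * QQ w) +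
          CC (mono (n + 100) 1) * (tt * (tt * ∑ w ∈ TT N, KK (g n w) * QQ w))) = 0 := by
      rw [← h]
      congr 1
      · rw [QQ, mul_one]
      · refine Finset.sum_congr rfl fun n _ => ?_
        have e1 : ∀ i w, KR (f (((hh n + i, n) : GG) :: w)) * QQ (((hh n + i, n) : GG) :: w) =
            CC (mono n 1) * (tt * (KK ((starRingEnd ℂ)
              ((f (((hh n + i, n) : GG) :: w) : ℂ) * chi (hh n + i))) * QQ w)) +
            CC (mono (n + 100) 1) * (tt * (tt * (KK
              ((f (((hh n + i, n) : GG) :: w) : ℂ) * chi (hh n + i)) * QQ w))) := by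
          intro i w
          rw [QQ]
          exact letter_expand _ _ _ _
        simp_rw [e1]
        rw [Finset.sum_comm]
        simp only [g, map_sum, Finset.sum_mul, Finset.mul_sum, Finset.sum_add_distrib]
    have hc : ∀ n, 0 < n → cf (KR (f [])) n = 0 := by
      intro n hn
      have h2 := cf_CC_mul (mono 0 (f [] : ℂ)) 1 n
      rw [mul_one] at h2
      rw [KR_eq, KK_eq, h2]
      have h3 : cf (1 : RR) n = 0 := by
        unfold cf
        rw [SkewMonoidAlgebra.coeff_one, Finsupp.single_apply, if_neg]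
        intro h4
        have : (0 : ℕ) = n := congrArg toAdd h4
        omega
      rw [h3, mul_zero]
    have h2 := key (fun n => ∑ w ∈ TT N, KK ((starRingEnd ℂ) (g n w)) * QQ w)
      (fun n => tt * ∑ w ∈ TT N, KK (g n w) * QQ w) (KR (f [])) hc h1
    have hnil : f [] = 0 := hKR0 _ h2.1
    have hg : ∀ n < 100, ∀ w ∈ TT N, g n w = 0 := by
      intro n hn
      obtain ⟨h3, h4⟩ := h2.2 n hn
      have h5 := tt_cancel _ h4
      have hre : ∑ w ∈ TT N, KR ((g n w).re) * QQ w = 0 := by
        have e : ∀ w, KR ((g n w).re) * QQ w = KK (1 / 2) * (KK (g n w) * QQ w +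
            KK ((starRingEnd ℂ) (g n w)) * QQ w) := by
          intro w
          rw [← add_mul, ← map_add, ← mul_assoc, ← map_mul, KR_eq, Complex.add_conj]
          congr 2
          push_cast; ring
        simp_rw [e]
        rw [← Finset.mul_sum, Finset.sum_add_distrib, h3, h5, add_zero, mul_zero]
      have him : ∑ w ∈ TT N, KR ((g n w).im) * QQ w = 0 := by
        have e : ∀ w, KR ((g n w).im) * QQ w = KK (1 / (2 * Complex.I)) * (KK (g n w) * QQ w -
            KK ((starRingEnd ℂ) (g n w)) * QQ w) := by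
          intro w
          rw [← sub_mul, ← map_sub, ← mul_assoc, ← map_mul, KR_eq, Complex.sub_conj]
          congr 2
          push_cast
          field_simp
        simp_rw [e]
        rw [← Finset.mul_sum, Finset.sum_sub_distrib, h3, h5, sub_zero, mul_zero]
      intro w hw
      apply Complex.ext
      · exact ih _ hre w hw
      · exact ih _ him w hw
    intro w hw
    rw [TT, Finset.mem_insert] at hw
    rcases hw with rfl | hw
    · exact hnil
    · rw [Finset.mem_image] at hw
      obtain ⟨⟨⟨n, i⟩, w'⟩, hp, rfl⟩ := hw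
      rw [Finset.mem_product, Finset.mem_product] at hp
      obtain ⟨⟨hn, hi⟩, hw'⟩ := hp
      have h3 : ∑ i ∈ ({1, 2} : Finset (ZMod 3)),
          (f (((hh n + i, n) : GG) :: w') : ℂ) * chi (hh n + i) = 0 :=
        hg n (Finset.mem_range.mp hn) w' hw'
      have h12 : (1 : ZMod 3) ≠ 2 := by decide
      rw [Finset.sum_pair h12] at h3
      obtain ⟨h4, h5⟩ := real_indep _ _ _ h3
      simp only [Finset.mem_insert, Finset.mem_singleton] at hi
      rcases hi with rfl | rfl
      · exact h4
      · exact h5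

end Pool.Agent.Helpers25.SG
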