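import Pool.Agent.Helpers25.TFDWAnalysis

namespace Pool.Agent.Helpers25.TFSob

open MeasureTheory Filter Topology Convolution ContinuousLinearMap
open Pool.Agent.Helpers25.TFDWCore
open scoped ENNReal

theorem hgrad (ψ : E3 → ℝ) (g : E3 → E3) (hψ : MemLp ψ 2 volume) (hg : MemLp g 2 volume)
    (hw : WeakGrad ψ g) (n : ℕ) (x : E3) :
    ‖fderiv ℝ (moll n ψ) x‖ ^ 2 ≤ moll n (fun y => ‖g y‖ ^ 2) x := by
  have hψl : LocallyIntegrable ψ volume := hψ.locallyIntegrable (by norm_num)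
  have hg2 : Integrable (fun x => ‖g x‖ ^ 2) := hg.integrable_norm_pow (by norm_num)
  have hnn : 0 ≤ moll n (fun y => ‖g y‖ ^ 2) x := by
    rw [moll_apply]
    exact integral_nonneg (fun t => mul_nonneg (eta_nonneg n t) (sq_nonneg _))
  have hle : ‖fderiv ℝ (moll n ψ) x‖ ≤ Real.sqrt (moll n (fun y => ‖g y‖ ^ 2) x) := by
    apply ContinuousLinearMap.opNorm_le_bound _ (Real.sqrt_nonneg _)
    intro v
    rw [fderiv_moll n ψ g hψl hw x v, Real.norm_eq_abs]
    have hi : MemLp (fun y => inner ℝ (g y) v) 2 volume := by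
      refine MemLp.of_le_mul (c := ‖v‖) hg ?_ ?_
      · exact hg.1.inner aestronglyMeasurable_const
      · apply Eventually.of_forall
        intro y
        rw [mul_comm]
        exact norm_inner_le_norm _ _
    have h1 := jensen n (fun y => inner ℝ (g y) v) (hi.locallyIntegrable (by norm_num))
      hi.integrable_sq.locallyIntegrable x
    have h2 : moll n (fun y => (inner ℝ (g y) v : ℝ) ^ 2) x ≤
        ‖v‖ ^ 2 * moll n (fun y => ‖g y‖ ^ 2) x := by
      rw [moll_apply, moll_apply, ← integral_const_mul]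
      apply integral_mono
      · exact conv_integrable n _ hi.integrable_sq.locallyIntegrable x
      · exact (conv_integrable n _ hg2.locallyIntegrable x).const_mul _
      · intro t
        simp only
        have h3 : (inner ℝ (g (x - t)) v : ℝ) ^ 2 ≤ ‖g (x - t)‖ ^ 2 * ‖v‖ ^ 2 := by
          rw [← sq_abs, ← mul_pow]
          exact pow_le_pow_left₀ (abs_nonneg _) (abs_real_inner_le_norm _ _) 2
        calc eta n t * (inner ℝ (g (x - t)) v : ℝ) ^ 2
            ≤ eta n t * (‖g (x - t)‖ ^ 2 * ‖v‖ ^ 2) :=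
              mul_le_mul_of_nonneg_left h3 (eta_nonneg n t)
          _ = ‖v‖ ^ 2 * (eta n t * ‖g (x - t)‖ ^ 2) := by ring
    rw [← Real.sqrt_sq_eq_abs]
    calc Real.sqrt ((moll n (fun y => inner ℝ (g y) v) x) ^ 2)
        ≤ Real.sqrt (‖v‖ ^ 2 * moll n (fun y => ‖g y‖ ^ 2) x) :=
          Real.sqrt_le_sqrt (h1.trans h2)
      _ = Real.sqrt (moll n (fun y => ‖g y‖ ^ 2) x) * ‖v‖ := by
          rw [Real.sqrt_mul (sq_nonneg _), Real.sqrt_sq (norm_nonneg _), mul_comm]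
  calc ‖fderiv ℝ (moll n ψ) x‖ ^ 2 ≤ (Real.sqrt (moll n (fun y => ‖g y‖ ^ 2) x)) ^ 2 :=
        pow_le_pow_left₀ (norm_nonneg _) hle 2
    _ = _ := Real.sq_sqrt hnn

/-- Fixed cutoff. -/
noncomputable def cutφ : ContDiffBump (0 : E3) where
  rIn := 1
  rOut := 2
  rIn_pos := one_pos
  rIn_lt_rOut := by norm_num

/-- The cutoff at scale `k + 1`. -/
noncomputable def cut (k : ℕ) (x : E3) : ℝ := cutφ (((k : ℝ) + 1)⁻¹ • x)

theorem cut_contDiff (k : ℕ) : ContDiff ℝ 1 (cut k) := by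
  unfold cut
  exact cutφ.contDiff.comp (show ContDiff ℝ 1 (fun x : E3 => ((k : ℝ) + 1)⁻¹ • x) by fun_prop)

theorem cut_nonneg (k : ℕ) (x : E3) : 0 ≤ cut k x := cutφ.nonneg
theorem cut_le_one (k : ℕ) (x : E3) : cut k x ≤ 1 := cutφ.le_one

theorem cut_supp (k : ℕ) : HasCompactSupport (cut k) := by
  have hk : ((k : ℝ) + 1)⁻¹ ≠ 0 := by positivity
  have := cutφ.hasCompactSupport.comp_homeomorph (Homeomorph.smulOfNeZero _ hk : E3 ≃ₜ E3)
  exact this

theorem cut_fderiv_bound : ∃ c : ℝ, 0 ≤ c ∧ ∀ (k : ℕ) (x : E3),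
    ‖fderiv ℝ (cut k) x‖ ≤ c / ((k : ℝ) + 1) := by
  have hc : Continuous (fderiv ℝ (cutφ : E3 → ℝ)) :=
    (cutφ.contDiff (n := 1)).continuous_fderiv (by norm_num)
  obtain ⟨c, hc'⟩ := (cutφ.hasCompactSupport.fderiv ℝ).exists_bound_of_continuous hc
  refine ⟨c, (norm_nonneg _).trans (hc' 0), fun k x => ?_⟩
  have hk : 0 < ((k : ℝ) + 1)⁻¹ := by positivity
  have h1 : HasFDerivAt (cut k)
      ((fderiv ℝ (cutφ : E3 → ℝ) (((k : ℝ) + 1)⁻¹ • x)).comp
        (((k : ℝ) + 1)⁻¹ • ContinuousLinearMap.id ℝ E3)) x := by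
    have h2 : HasFDerivAt (fun x : E3 => ((k : ℝ) + 1)⁻¹ • x)
        (((k : ℝ) + 1)⁻¹ • ContinuousLinearMap.id ℝ E3) x :=
      (((k : ℝ) + 1)⁻¹ • ContinuousLinearMap.id ℝ E3).hasFDerivAt
    have h3 : DifferentiableAt ℝ (cutφ : E3 → ℝ) (((k : ℝ) + 1)⁻¹ • x) :=
      (cutφ.contDiff (n := 1)).differentiable (by norm_num) _
    exact h3.hasFDerivAt.comp x h2
  rw [h1.fderiv, ContinuousLinearMap.comp_smul, norm_smul, Real.norm_eq_abs, abs_of_pos hk,
    ContinuousLinearMap.comp_id, div_eq_inv_mul]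
  exact mul_le_mul_of_nonneg_left (hc' _) hk.le

theorem cut_eventually (x : E3) : ∀ᶠ k : ℕ in atTop, cut k x = 1 := by
  obtain ⟨m, hm⟩ := exists_nat_gt ‖x‖
  filter_upwards [eventually_ge_atTop m] with k hk
  have hk' : (m : ℝ) ≤ k := by exact_mod_cast hk
  apply cutφ.one_of_mem_closedBall
  rw [Metric.mem_closedBall, dist_zero_right, norm_smul, norm_inv, Real.norm_eq_abs,
    abs_of_pos (by positivity), inv_mul_le_iff₀ (by positivity)]
  change ‖x‖ ≤ ((k : ℝ) + 1) * 1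
  linarith

/-- The constant. -/
noncomputable def C0 : ENNReal := lintegralPowLePowLIntegralFDerivConst (volume : Measure E3) (3 / 2)

theorem C0_ne_top : C0 ≠ ⊤ := ENNReal.coe_ne_top

theorem sob_smooth (f : E3 → ℝ) (hf : ContDiff ℝ 1 f) (B S : ℝ) (hB : 0 ≤ B) (hS : 0 ≤ S)
    (h1 : ∫⁻ x, ‖f x‖ₑ ≤ ENNReal.ofReal B) (h2 : ∫⁻ x, ‖fderiv ℝ f x‖ₑ ≤ ENNReal.ofReal S) :
    ∫⁻ x, ‖f x‖ₑ ^ (3 / 2 : ℝ) ≤ C0 * ENNReal.ofReal S ^ (3 / 2 : ℝ) := by
  obtain ⟨c, hc0, hc⟩ := cut_fderiv_bound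
  have hconj : Real.HolderConjugate (Module.finrank ℝ E3 : ℝ) (3 / 2) := by
    rw [finrank_euclideanSpace_fin]
    rw [Real.holderConjugate_iff]
    norm_num
  have hk : ∀ k : ℕ, ∫⁻ x, ‖cut k x * f x‖ₑ ^ (3 / 2 : ℝ) ≤
      C0 * ENNReal.ofReal (S + c / ((k : ℝ) + 1) * B) ^ (3 / 2 : ℝ) := by
    intro k
    have h3 := lintegral_pow_le_pow_lintegral_fderiv (μ := (volume : Measure E3))
      (u := fun x => cut k x * f x) ((cut_contDiff k).mul hf) ((cut_supp k).mul_right) hconj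
    refine h3.trans ?_
    unfold C0
    gcongr
    have hd : ∀ x, ‖fderiv ℝ (fun x => cut k x * f x) x‖ₑ ≤
        ‖fderiv ℝ f x‖ₑ + ENNReal.ofReal (c / ((k : ℝ) + 1)) * ‖f x‖ₑ := by
      intro x
      have h4 : DifferentiableAt ℝ (cut k) x := (cut_contDiff k).differentiable (by norm_num) _
      have h5 : DifferentiableAt ℝ f x := hf.differentiable (by norm_num) _
      rw [fderiv_fun_mul h4 h5]
      have h6 : ‖cut k x • fderiv ℝ f x + f x • fderiv ℝ (cut k) x‖ ≤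
          ‖fderiv ℝ f x‖ + c / ((k : ℝ) + 1) * ‖f x‖ := by
        refine (norm_add_le _ _).trans ?_
        rw [norm_smul, norm_smul]
        have h7 : ‖cut k x‖ ≤ 1 := by
          rw [Real.norm_eq_abs, abs_of_nonneg (cut_nonneg k x)]; exact cut_le_one k x
        have h8 := mul_le_mul_of_nonneg_right h7 (norm_nonneg (fderiv ℝ f x))
        have h9 := mul_le_mul_of_nonneg_left (hc k x) (norm_nonneg (f x))
        rw [one_mul] at h8
        rw [mul_comm (c / ((k : ℝ) + 1))]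
        linarith
      rw [← ofReal_norm, ← ofReal_norm, ← ofReal_norm, ← ENNReal.ofReal_mul (by positivity),
        ← ENNReal.ofReal_add (norm_nonneg _) (by positivity)]
      exact ENNReal.ofReal_le_ofReal h6
    calc ∫⁻ x, ‖fderiv ℝ (fun x => cut k x * f x) x‖ₑ
        ≤ ∫⁻ x, (‖fderiv ℝ f x‖ₑ + ENNReal.ofReal (c / ((k : ℝ) + 1)) * ‖f x‖ₑ) :=
          lintegral_mono hd
      _ = (∫⁻ x, ‖fderiv ℝ f x‖ₑ) + ENNReal.ofReal (c / ((k : ℝ) + 1)) * ∫⁻ x, ‖f x‖ₑ := by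
          rw [lintegral_add_left, lintegral_const_mul]
          · exact hf.continuous.enorm.measurable
          · exact (hf.continuous_fderiv (by norm_num)).enorm.measurable
      _ ≤ ENNReal.ofReal S + ENNReal.ofReal (c / ((k : ℝ) + 1)) * ENNReal.ofReal B := by
          gcongr
      _ = ENNReal.ofReal (S + c / ((k : ℝ) + 1) * B) := by
          rw [← ENNReal.ofReal_mul (by positivity), ← ENNReal.ofReal_add hS (by positivity)]
  have hlim : Tendsto (fun k : ℕ => C0 * ENNReal.ofReal (S + c / ((k : ℝ) + 1) * B) ^ (3 / 2 : ℝ))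
      atTop (𝓝 (C0 * ENNReal.ofReal S ^ (3 / 2 : ℝ))) := by
    apply ENNReal.Tendsto.const_mul _ (Or.inr C0_ne_top)
    apply (ENNReal.continuous_rpow_const.tendsto _).comp
    apply ENNReal.tendsto_ofReal
    have h4 : Tendsto (fun k : ℕ => S + c * (1 / ((k : ℝ) + 1)) * B) atTop
        (𝓝 (S + c * 0 * B)) :=
      ((tendsto_one_div_add_atTop_nhds_zero_nat.const_mul c).mul_const B).const_add S
    have e1 : (fun k : ℕ => S + c * (1 / ((k : ℝ) + 1)) * B) =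
        fun k : ℕ => S + c / ((k : ℝ) + 1) * B := by
      funext k; ring
    rw [e1] at h4
    simpa using h4
  have hfat : ∫⁻ x, ‖f x‖ₑ ^ (3 / 2 : ℝ) ≤
      liminf (fun k => ∫⁻ x, ‖cut k x * f x‖ₑ ^ (3 / 2 : ℝ)) atTop := by
    have h5 : ∀ x, ‖f x‖ₑ ^ (3 / 2 : ℝ) =
        liminf (fun k => ‖cut k x * f x‖ₑ ^ (3 / 2 : ℝ)) atTop := by
      intro x
      symm
      apply Tendsto.liminf_eq
      apply tendsto_const_nhds.congr'
      filter_upwards [cut_eventually x] with k hk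
      rw [hk, one_mul]
    simp_rw [h5]
    apply lintegral_liminf_le
    intro k
    exact (((cut_contDiff k).continuous.mul hf.continuous).enorm.measurable).pow_const _
  refine hfat.trans ?_
  rw [← hlim.liminf_eq]
  exact liminf_le_liminf (Eventually.of_forall hk)

/-- Gagliardo–Nirenberg type inequality for weakly differentiable functions. -/
theorem sob_weak (ψ : E3 → ℝ) (g : E3 → E3) (hψ : MemLp ψ 2 volume) (hg : MemLp g 2 volume)
    (hw : WeakGrad ψ g) (a : ℝ) (ha : 0 < a) :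
    ∫⁻ x, ‖ψ x‖ₑ ^ (3 : ℝ) ≤
      C0 * ENNReal.ofReal (a * (∫ x, ‖g x‖ ^ 2) + (1 / a) * ∫ x, ψ x ^ 2) ^ (3 / 2 : ℝ) := by
  have hψl : LocallyIntegrable ψ volume := hψ.locallyIntegrable (by norm_num)
  have hψ2 : Integrable (fun x => ψ x ^ 2) := hψ.integrable_sq
  have hg2 : Integrable (fun x => ‖g x‖ ^ 2) := hg.integrable_norm_pow (by norm_num)
  have hG0 : 0 ≤ ∫ x, ‖g x‖ ^ 2 := integral_nonneg fun _ => sq_nonneg _
  have hT0 : 0 ≤ ∫ x, ψ x ^ 2 := integral_nonneg fun _ => sq_nonneg _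
  have hmoll2 : ∀ n x, (moll n ψ x) ^ 2 ≤ moll n (fun y => ψ y ^ 2) x := fun n x =>
    jensen n ψ hψl hψ2.locallyIntegrable x
  have hn : ∀ n : ℕ, ∫⁻ x, ‖(moll n ψ x) ^ 2‖ₑ ^ (3 / 2 : ℝ) ≤
      C0 * ENNReal.ofReal (a * (∫ x, ‖g x‖ ^ 2) + (1 / a) * ∫ x, ψ x ^ 2) ^ (3 / 2 : ℝ) := by
    intro n
    apply sob_smooth (fun x => (moll n ψ x) ^ 2) ((moll_contDiff n ψ hψl).pow 2)
      (∫ x, ψ x ^ 2) _ hT0 (by positivity)
    · have h1 : ∫⁻ x, ‖(moll n ψ x) ^ 2‖ₑ ≤ ∫⁻ x, ENNReal.ofReal (moll n (fun y => ψ y ^ 2) x) := by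
        apply lintegral_mono
        intro x
        simp only
        rw [← ofReal_norm, Real.norm_eq_abs, abs_of_nonneg (sq_nonneg _)]
        exact ENNReal.ofReal_le_ofReal (hmoll2 n x)
      refine h1.trans ?_
      rw [← ofReal_integral_eq_lintegral_ofReal (moll_integrable n _ hψ2), moll_integral n _ hψ2]
      apply Eventually.of_forall
      intro x
      simp only [Pi.zero_apply]
      exact (sq_nonneg _).trans (hmoll2 n x)
    · have hd : ∀ x, fderiv ℝ (fun x => (moll n ψ x) ^ 2) x =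
          (2 * moll n ψ x) • fderiv ℝ (moll n ψ) x := by
        intro x
        have h4 : DifferentiableAt ℝ (moll n ψ) x :=
          (moll_contDiff n ψ hψl (k := 1)).differentiable (by norm_num) _
        have h5 := (h4.hasFDerivAt.pow 2).fderiv
        simp only [Nat.add_one_sub_one, pow_one] at h5
        rw [h5]
        norm_num
      have hb : ∀ x, ‖fderiv ℝ (fun x => (moll n ψ x) ^ 2) x‖ ≤
          a * moll n (fun y => ‖g y‖ ^ 2) x + (1 / a) * moll n (fun y => ψ y ^ 2) x := by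
        intro x
        rw [hd, norm_smul, Real.norm_eq_abs, abs_mul, abs_two]
        have h5 := hgrad ψ g hψ hg hw n x
        have h6 := hmoll2 n x
        set u := |moll n ψ x| with hu
        set v := ‖fderiv ℝ (moll n ψ) x‖ with hv
        have h7 : u ^ 2 = (moll n ψ x) ^ 2 := sq_abs _
        have h8 : 2 * u * v ≤ a * v ^ 2 + (1 / a) * u ^ 2 := by
          have h9 : a * v ^ 2 + (1 / a) * u ^ 2 - 2 * u * v = (a * v - u) ^ 2 / a := by
            field_simp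
            ring
          have h10 : 0 ≤ (a * v - u) ^ 2 / a := by positivity
          linarith
        have h11 := mul_le_mul_of_nonneg_left h5 ha.le
        have h12 : (1 / a) * u ^ 2 ≤ (1 / a) * moll n (fun y => ψ y ^ 2) x := by
          rw [h7]
          exact mul_le_mul_of_nonneg_left h6 (by positivity)
        linarith
      have h1 : ∫⁻ x, ‖fderiv ℝ (fun x => (moll n ψ x) ^ 2) x‖ₑ ≤
          ∫⁻ x, ENNReal.ofReal (a * moll n (fun y => ‖g y‖ ^ 2) x +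
            (1 / a) * moll n (fun y => ψ y ^ 2) x) := by
        apply lintegral_mono
        intro x
        simp only
        rw [← ofReal_norm]
        exact ENNReal.ofReal_le_ofReal (hb x)
      refine h1.trans ?_
      rw [← ofReal_integral_eq_lintegral_ofReal
        (f := fun x => a * moll n (fun y => ‖g y‖ ^ 2) x + (1 / a) * moll n (fun y => ψ y ^ 2) x)
        (((moll_integrable n _ hg2).const_mul a).add ((moll_integrable n _ hψ2).const_mul _)),
        integral_add ((moll_integrable n _ hg2).const_mul a)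
          ((moll_integrable n _ hψ2).const_mul _), integral_const_mul, integral_const_mul,
        moll_integral n _ hg2, moll_integral n _ hψ2]
      apply Eventually.of_forall
      intro x
      simp only [Pi.zero_apply]
      exact (norm_nonneg _).trans (hb x)
  have hpt : ∀ᵐ x, ‖ψ x‖ₑ ^ (3 : ℝ) =
      liminf (fun n => ‖(moll n ψ x) ^ 2‖ₑ ^ (3 / 2 : ℝ)) atTop := by
    filter_upwards [moll_tendsto ψ hψl] with x hx
    symm
    apply Tendsto.liminf_eq
    have h1 : Tendsto (fun n => ‖(moll n ψ x) ^ 2‖ₑ) atTop (𝓝 ‖(ψ x) ^ 2‖ₑ) :=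
      ((continuous_enorm (E := ℝ)).tendsto _).comp (hx.pow 2)
    have h2 := ((ENNReal.continuous_rpow_const (y := (3 / 2 : ℝ))).tendsto _).comp h1
    have h3 : ‖(ψ x) ^ 2‖ₑ ^ (3 / 2 : ℝ) = ‖ψ x‖ₑ ^ (3 : ℝ) := by
      rw [enorm_pow, ← ENNReal.rpow_natCast, ← ENNReal.rpow_mul]
      norm_num
    rw [h3] at h2
    exact h2
  rw [lintegral_congr_ae hpt]
  refine (lintegral_liminf_le' (fun n => ?_)).trans ?_
  · exact ((((moll_contDiff n ψ hψl (k := 0)).continuous.pow 2).enorm.measurable).pow_const _).aemeasurable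
  · apply Filter.liminf_le_of_frequently_le'
    exact (Eventually.of_forall hn).frequently

/-- The exchange term. -/
theorem exch (ψ : E3 → ℝ) (g : E3 → E3) (hψ : MemLp ψ 2 volume) (hg : MemLp g 2 volume)
    (hw : WeakGrad ψ g) (a : ℝ) (ha : 0 < a) :
    ∫⁻ x, ‖ψ x‖ₑ ^ (8 / 3 : ℝ) ≤
      C0 ^ (2 / 3 : ℝ) * ENNReal.ofReal (∫ x, ψ x ^ 2) ^ (1 / 3 : ℝ) *
        ENNReal.ofReal (a * (∫ x, ‖g x‖ ^ 2) + (1 / a) * ∫ x, ψ x ^ 2) := by
  have h1 := sob_weak ψ g hψ hg hw a ha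
  have hm : AEMeasurable (fun x => ‖ψ x‖ₑ) volume := hψ.1.enorm
  have hconj : Real.HolderConjugate 3 (3 / 2) := by
    rw [Real.holderConjugate_iff]
    norm_num
  have h2 := ENNReal.lintegral_mul_le_Lp_mul_Lq volume hconj
    (f := fun x => ‖ψ x‖ₑ ^ (2 / 3 : ℝ)) (g := fun x => ‖ψ x‖ₑ ^ (2 : ℝ))
    (hm.pow_const _) (hm.pow_const _)
  have e1 : ∀ x, ((fun x => ‖ψ x‖ₑ ^ (2 / 3 : ℝ)) * fun x => ‖ψ x‖ₑ ^ (2 : ℝ)) x =
      ‖ψ x‖ₑ ^ (8 / 3 : ℝ) := by
    intro x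
    simp only [Pi.mul_apply]
    rw [← ENNReal.rpow_add_of_nonneg _ _ (by norm_num) (by norm_num)]
    norm_num
  simp_rw [e1] at h2
  have e2 : ∀ x, (‖ψ x‖ₑ ^ (2 / 3 : ℝ)) ^ (3 : ℝ) = ‖ψ x‖ₑ ^ (2 : ℝ) := by
    intro x
    rw [← ENNReal.rpow_mul]; norm_num
  have e3 : ∀ x, (‖ψ x‖ₑ ^ (2 : ℝ)) ^ (3 / 2 : ℝ) = ‖ψ x‖ₑ ^ (3 : ℝ) := by
    intro x
    rw [← ENNReal.rpow_mul]; norm_num
  simp only [e2, e3] at h2
  have e4 : ∫⁻ x, ‖ψ x‖ₑ ^ (2 : ℝ) = ENNReal.ofReal (∫ x, ψ x ^ 2) := by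
    rw [ofReal_integral_eq_lintegral_ofReal hψ.integrable_sq
      (Eventually.of_forall fun x => sq_nonneg _)]
    apply lintegral_congr
    intro x
    rw [← ofReal_norm, ENNReal.ofReal_rpow_of_nonneg (norm_nonneg _) (by norm_num)]
    norm_num
  rw [e4] at h2
  refine h2.trans ?_
  calc ENNReal.ofReal (∫ x, ψ x ^ 2) ^ (1 / 3 : ℝ) * (∫⁻ x, ‖ψ x‖ₑ ^ (3 : ℝ)) ^ (1 / (3 / 2) : ℝ)
      ≤ ENNReal.ofReal (∫ x, ψ x ^ 2) ^ (1 / 3 : ℝ) *
        (C0 * ENNReal.ofReal (a * (∫ x, ‖g x‖ ^ 2) + (1 / a) * ∫ x, ψ x ^ 2) ^ (3 / 2 : ℝ)) ^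
          (1 / (3 / 2) : ℝ) := by gcongr
    _ = _ := by
      rw [ENNReal.mul_rpow_of_nonneg _ _ (by norm_num), ← ENNReal.rpow_mul]
      norm_num
      ring

end Pool.Agent.Helpers25.TFSob
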