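import Pool.Agent.Helpers25.TFConvDefs
import Pool.Agent.Helpers25.TFSob

namespace Pool.Agent.Helpers25.TFConv

open MeasureTheory Filter Topology
open Pool.Agent.Helpers25.TFDW
open Pool.Agent.Helpers25.TFSob (C0 C0_ne_top)
open scoped ENNReal

theorem wg_core {ψ : E3 → ℝ} {g : E3 → E3} (h : WeakGrad ψ g) : TFDWCore.WeakGrad ψ g :=
  fun φ h1 h2 v => h φ ⟨h1, h2⟩ v

theorem coul (ψ : E3 → ℝ) (g : E3 → E3) (hψ : MemLp ψ 2 volume) (hg : MemLp g 2 volume)
    (hw : WeakGrad ψ g) {a : ℝ} (ha : 0 < a) (R : E3) :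
    Integrable (fun x => ψ x ^ 2 / ‖x - R‖) ∧
    2 * ∫ x, ψ x ^ 2 / ‖x - R‖ ≤ a * (∫ x, ‖g x‖ ^ 2) + (1 / a) * ∫ x, ψ x ^ 2 := by
  have h := TFDWCore.key_ineq ψ g hψ hg (wg_core hw) ha (fun s => s ^ 2) (fun s => 2 * s)
    (fun s => by simpa using hasDerivAt_pow 2 s) (by fun_prop) (fun s => sq_nonneg s)
    (1 + 1 / a) (by positivity)
    (fun s => by
      have : 0 ≤ 1 / a * s ^ 2 := by positivity
      nlinarith)
    (fun s => by
      have e : (2 * s) ^ 2 / (4 * a) = 1 / a * s ^ 2 := by field_simp; ring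
      rw [e]
      nlinarith [sq_nonneg s]) R
  refine ⟨h.1, ?_⟩
  have e : ∀ x, (2 * ψ x) ^ 2 / (4 * a) = (1 / a) * ψ x ^ 2 := by
    intro x; field_simp; ring
  have h2 := h.2
  simp only [e] at h2
  rw [integral_const_mul] at h2
  exact h2

/-- The exchange constant. -/
noncomputable def c0 : ℝ := (C0 ^ (2 / 3 : ℝ)).toReal

theorem c0_nonneg : 0 ≤ c0 := ENNReal.toReal_nonneg

theorem sqrt_memLp {ρ : E3 → ℝ} (h0 : ∀ x, 0 ≤ ρ x) (h1 : InL 1 ρ) :
    MemLp (fun x => Real.sqrt (ρ x)) 2 volume := by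
  have hm : AEStronglyMeasurable (fun x => Real.sqrt (ρ x)) volume :=
    Real.continuous_sqrt.comp_aestronglyMeasurable h1.1
  rw [memLp_two_iff_integrable_sq hm]
  have hi : Integrable ρ := memLp_one_iff_integrable.mp h1
  refine hi.congr (Eventually.of_forall fun x => ?_)
  simp only
  rw [Real.sq_sqrt (h0 x)]

theorem exch_real {ρ : E3 → ℝ} {g : E3 → E3} (h0 : ∀ x, 0 ≤ ρ x) (h1 : InL 1 ρ) (hg : InL2 g)
    (hw : WeakGrad (fun x => Real.sqrt (ρ x)) g) {a : ℝ} (ha : 0 < a) :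
    Integrable (fun x => ρ x ^ (4 / 3 : ℝ)) ∧
    ∫ x, ρ x ^ (4 / 3 : ℝ) ≤ c0 * ((∫ x, ρ x) ^ (1 / 3 : ℝ) *
      (a * (∫ x, ‖g x‖ ^ 2) + (1 / a) * ∫ x, ρ x)) := by
  have hψ := sqrt_memLp h0 h1
  have hsq : ∀ x, Real.sqrt (ρ x) ^ 2 = ρ x := fun x => Real.sq_sqrt (h0 x)
  have h := TFSob.exch (fun x => Real.sqrt (ρ x)) g hψ hg (wg_core hw) a ha
  simp only [hsq] at h
  have hi : Integrable ρ := memLp_one_iff_integrable.mp h1
  have hT0 : 0 ≤ ∫ x, ρ x := integral_nonneg h0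
  have hG0 : 0 ≤ ∫ x, ‖g x‖ ^ 2 := integral_nonneg fun _ => sq_nonneg _
  have e1 : ∀ x, ‖Real.sqrt (ρ x)‖ₑ ^ (8 / 3 : ℝ) = ENNReal.ofReal (ρ x ^ (4 / 3 : ℝ)) := by
    intro x
    rw [← ofReal_norm, ENNReal.ofReal_rpow_of_nonneg (norm_nonneg _) (by norm_num),
      Real.norm_eq_abs, abs_of_nonneg (Real.sqrt_nonneg _), Real.sqrt_eq_rpow,
      ← Real.rpow_mul (h0 x)]
    norm_num
  simp only [e1] at h
  have hC : C0 ^ (2 / 3 : ℝ) = ENNReal.ofReal c0 := by
    unfold c0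
    rw [ENNReal.ofReal_toReal]
    exact ENNReal.rpow_ne_top_of_nonneg (by norm_num) C0_ne_top
  rw [hC, ENNReal.ofReal_rpow_of_nonneg hT0 (by norm_num), ← ENNReal.ofReal_mul c0_nonneg,
    ← ENNReal.ofReal_mul (mul_nonneg c0_nonneg (Real.rpow_nonneg hT0 _)), mul_assoc] at h
  have hnn : ∀ x, 0 ≤ ρ x ^ (4 / 3 : ℝ) := fun x => Real.rpow_nonneg (h0 x) _
  have hm : AEStronglyMeasurable (fun x => ρ x ^ (4 / 3 : ℝ)) volume :=
    (Real.continuous_rpow_const (by norm_num)).comp_aestronglyMeasurable h1.1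
  have hint : Integrable (fun x => ρ x ^ (4 / 3 : ℝ)) := by
    refine ⟨hm, ?_⟩
    rw [hasFiniteIntegral_iff_ofReal (Eventually.of_forall hnn)]
    exact lt_of_le_of_lt h ENNReal.ofReal_lt_top
  refine ⟨hint, ?_⟩
  rw [← ofReal_integral_eq_lintegral_ofReal hint (Eventually.of_forall hnn)] at h
  refine (ENNReal.ofReal_le_ofReal_iff ?_).1 h
  have := c0_nonneg
  positivity

theorem D_nonneg' {ρ : E3 → ℝ} (h0 : ∀ x, 0 ≤ ρ x) : 0 ≤ D ρ ρ := by
  unfold D integ dst
  apply mul_nonneg (by norm_num)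
  apply integral_nonneg
  intro x
  apply integral_nonneg
  intro y
  exact div_nonneg (mul_nonneg (h0 x) (h0 y)) (norm_nonneg _)

theorem lower {A γ Ce p : ℝ} (hγ : 0 < γ) (hCe : 0 < Ce) (hp : 4 / 3 < p) (N : Nuclei)
    {ρ : E3 → ℝ} {g : E3 → E3} {lam : ℝ} (hd : IsDensity p ρ g lam) {a a' : ℝ} (ha : 0 < a)
    (ha' : 0 < a') :
    N.U + A * (∫ x, ‖g x‖ ^ 2) - 3 * Ce / 4 * (c0 * (lam ^ (1 / 3 : ℝ) *
      (a * (∫ x, ‖g x‖ ^ 2) + (1 / a) * lam))) -
      N.Z / 2 * (a' * (∫ x, ‖g x‖ ^ 2) + (1 / a') * lam) ≤ TF A γ Ce p N ρ g := by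
  obtain ⟨h0, h1, hp', h6, hg, hw, hm⟩ := hd
  have hψ := sqrt_memLp h0 h1
  have hsq : ∀ x, Real.sqrt (ρ x) ^ 2 = ρ x := fun x => Real.sq_sqrt (h0 x)
  have hlam : ∫ x, ρ x = lam := hm
  obtain ⟨he1, he2⟩ := exch_real h0 h1 hg hw ha
  rw [hlam] at he2
  -- the potential
  have hcoul : ∀ R : E3, Integrable (fun x => ρ x / ‖x - R‖) ∧
      2 * ∫ x, ρ x / ‖x - R‖ ≤ a' * (∫ x, ‖g x‖ ^ 2) + (1 / a') * lam := by
    intro R
    have h := coul (fun x => Real.sqrt (ρ x)) g hψ hg hw ha' R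
    simp only [hsq] at h
    rw [hlam] at h
    exact h
  set T := a' * (∫ x, ‖g x‖ ^ 2) + (1 / a') * lam with hT
  have hV : ∫ x, N.V x * ρ x = ∑ j, N.z j * ∫ x, ρ x / ‖x - N.R j‖ := by
    have h1 : ∀ x, N.V x * ρ x = ∑ j, N.z j * (ρ x / ‖x - N.R j‖) := by
      intro x
      unfold Nuclei.V dst
      rw [Finset.sum_mul]
      apply Finset.sum_congr rfl
      intro j _
      ring
    simp only [h1]
    rw [integral_finsetSum _ (fun j _ => (hcoul (N.R j)).1.const_mul _)]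
    apply Finset.sum_congr rfl
    intro j _
    rw [integral_const_mul]
  have hVle : ∫ x, N.V x * ρ x ≤ N.Z / 2 * T := by
    rw [hV]
    have h1 : ∀ j, N.z j * ∫ x, ρ x / ‖x - N.R j‖ ≤ N.z j * (T / 2) := by
      intro j
      apply mul_le_mul_of_nonneg_left _ (N.z_pos j).le
      have := (hcoul (N.R j)).2
      linarith
    calc ∑ j, N.z j * ∫ x, ρ x / ‖x - N.R j‖ ≤ ∑ j, N.z j * (T / 2) :=
          Finset.sum_le_sum (fun j _ => h1 j)
      _ = N.Z * (T / 2) := by rw [← Finset.sum_mul]; rfl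
      _ = N.Z / 2 * T := by ring
  -- the local term
  have hρp : Integrable (fun x => ρ x ^ p) := by
    have hp0 : ENNReal.ofReal p ≠ 0 := by
      rw [Ne, ENNReal.ofReal_eq_zero, not_le]; linarith
    have h2 := MemLp.integrable_norm_rpow hp' hp0 ENNReal.ofReal_ne_top
    rw [ENNReal.toReal_ofReal (by linarith)] at h2
    refine h2.congr (Eventually.of_forall fun x => ?_)
    simp only
    rw [Real.norm_eq_abs, abs_of_nonneg (h0 x)]
  have hJ : - (3 * Ce / 4 * ∫ x, ρ x ^ (4 / 3 : ℝ)) ≤ ∫ x, J γ Ce p (ρ x) := by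
    unfold J
    rw [integral_sub (hρp.const_mul _) (he1.const_mul _), integral_const_mul, integral_const_mul]
    have h3 : 0 ≤ γ / p * ∫ x, ρ x ^ p :=
      mul_nonneg (by have : 0 < p := by linarith
                     positivity) (integral_nonneg fun x => Real.rpow_nonneg (h0 x) _)
    linarith
  have hD := D_nonneg' h0
  have h4 : 3 * Ce / 4 * ∫ x, ρ x ^ (4 / 3 : ℝ) ≤ 3 * Ce / 4 * (c0 * (lam ^ (1 / 3 : ℝ) *
      (a * (∫ x, ‖g x‖ ^ 2) + (1 / a) * lam))) :=
    mul_le_mul_of_nonneg_left he2 (by positivity)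
  unfold TF integ len
  linarith

/-! ### Trial densities -/

/-- The profile. -/
noncomputable def prof (x : E3) : ℝ := TFSob.cutφ x

theorem prof_contDiff : ContDiff ℝ 1 prof := TFSob.cutφ.contDiff
theorem prof_nonneg (x : E3) : 0 ≤ prof x := TFSob.cutφ.nonneg
theorem prof_supp : HasCompactSupport prof := TFSob.cutφ.hasCompactSupport

/-- The scaled profile. -/
noncomputable def pro (s : ℝ) (x : E3) : ℝ := s ^ 6 * prof (s ^ 3 • x)

theorem pro_contDiff (s : ℝ) : ContDiff ℝ 1 (pro s) := by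
  unfold pro
  exact contDiff_const.mul (prof_contDiff.comp
    (show ContDiff ℝ 1 (fun x : E3 => s ^ 3 • x) by fun_prop))

theorem pro_nonneg (s : ℝ) (x : E3) : 0 ≤ pro s x :=
  mul_nonneg (by positivity) (prof_nonneg _)

theorem pro_supp {s : ℝ} (hs : 0 < s) : HasCompactSupport (pro s) := by
  have hk : s ^ 3 ≠ 0 := by positivity
  have h1 : HasCompactSupport (fun x : E3 => prof (s ^ 3 • x)) :=
    prof_supp.comp_homeomorph (Homeomorph.smulOfNeZero _ hk : E3 ≃ₜ E3)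
  exact h1.mul_left

/-- The gradient. -/
noncomputable def gra (s : ℝ) (x : E3) : E3 :=
  (InnerProductSpace.toDual ℝ E3).symm (fderiv ℝ (pro s) x)

theorem gra_inner (s : ℝ) (x v : E3) : inner ℝ (gra s x) v = fderiv ℝ (pro s) x v := by
  unfold gra
  rw [InnerProductSpace.toDual_symm_apply]

theorem gra_norm (s : ℝ) (x : E3) : ‖gra s x‖ = ‖fderiv ℝ (pro s) x‖ := by
  unfold gra
  rw [LinearIsometryEquiv.norm_map]

theorem fderiv_pro {s : ℝ} (hs : 0 < s) (x : E3) :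
    ‖fderiv ℝ (pro s) x‖ = s ^ 9 * ‖fderiv ℝ prof (s ^ 3 • x)‖ := by
  have h1 : HasFDerivAt (pro s)
      (s ^ 6 • ((fderiv ℝ prof (s ^ 3 • x)).comp (s ^ 3 • ContinuousLinearMap.id ℝ E3))) x := by
    have h2 : HasFDerivAt (fun x : E3 => s ^ 3 • x) (s ^ 3 • ContinuousLinearMap.id ℝ E3) x :=
      (s ^ 3 • ContinuousLinearMap.id ℝ E3).hasFDerivAt
    have h3 : DifferentiableAt ℝ prof (s ^ 3 • x) := prof_contDiff.differentiable (by norm_num) _
    exact (h3.hasFDerivAt.comp x h2).const_mul (s ^ 6)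
  rw [h1.fderiv, norm_smul, ContinuousLinearMap.comp_smul, norm_smul,
    ContinuousLinearMap.comp_id, Real.norm_eq_abs, Real.norm_eq_abs, abs_of_pos (by positivity),
    abs_of_pos (by positivity)]
  ring

/-- The constants. -/
noncomputable def M0 : ℝ := ∫ x, prof x ^ 2
noncomputable def T0 : ℝ := ∫ x, ‖fderiv ℝ prof x‖ ^ 2
noncomputable def X0 : ℝ := ∫ x, (prof x ^ 2) ^ (4 / 3 : ℝ)
noncomputable def Y0 (p : ℝ) : ℝ := ∫ x, (prof x ^ 2) ^ p

theorem scale (F : E3 → ℝ) {s : ℝ} (hs : 0 < s) : ∫ x, F (s ^ 3 • x) = (s ^ 9)⁻¹ * ∫ x, F x := by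
  have h := Measure.integral_comp_smul (volume : Measure E3) F (s ^ 3)
  rw [h, finrank_euclideanSpace_fin, abs_of_pos (by positivity), smul_eq_mul]
  congr 2
  ring

theorem mass_pro {s : ℝ} (hs : 0 < s) : ∫ x, pro s x ^ 2 = s ^ 3 * M0 := by
  have e : ∀ x, pro s x ^ 2 = s ^ 12 * (fun y => prof y ^ 2) (s ^ 3 • x) := by
    intro x; simp only [pro]; ring
  simp_rw [e]
  rw [integral_const_mul, scale (fun y => prof y ^ 2) hs]
  unfold M0
  field_simp

theorem grad_pro {s : ℝ} (hs : 0 < s) : ∫ x, ‖gra s x‖ ^ 2 = s ^ 9 * T0 := by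
  have e : ∀ x, ‖gra s x‖ ^ 2 = s ^ 18 * (fun y => ‖fderiv ℝ prof y‖ ^ 2) (s ^ 3 • x) := by
    intro x
    rw [gra_norm, fderiv_pro hs]
    ring
  simp_rw [e]
  rw [integral_const_mul, scale (fun y => ‖fderiv ℝ prof y‖ ^ 2) hs]
  unfold T0
  field_simp

theorem rpow_pro {s : ℝ} (hs : 0 < s) (q : ℝ) :
    ∫ x, (pro s x ^ 2) ^ q = s ^ (12 * q - 9) * ∫ x, (prof x ^ 2) ^ q := by
  have e : ∀ x, (pro s x ^ 2) ^ q = s ^ (12 * q) * (fun y => (prof y ^ 2) ^ q) (s ^ 3 • x) := by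
    intro x
    have h1 : pro s x ^ 2 = s ^ 12 * prof (s ^ 3 • x) ^ 2 := by
      simp only [pro]; ring
    rw [h1, Real.mul_rpow (by positivity) (by positivity), ← Real.rpow_natCast,
      ← Real.rpow_mul hs.le]
    norm_num
  simp_rw [e]
  rw [integral_const_mul, scale (fun y => (prof y ^ 2) ^ q) hs, ← mul_assoc]
  congr 1
  rw [Real.rpow_sub hs, ← Real.rpow_natCast]
  norm_num
  field_simp

theorem pro_dens {s : ℝ} (hs : 0 < s) {p : ℝ} (hp : 4 / 3 < p) :
    IsDensity p (fun x => pro s x ^ 2) (gra s) (s ^ 3 * M0) := by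
  have hc := (pro_contDiff s).continuous
  have hsqrt : (fun x => Real.sqrt (pro s x ^ 2)) = pro s := by
    funext x
    exact Real.sqrt_sq (pro_nonneg s x)
  have hsupp2 : HasCompactSupport (fun x => pro s x ^ 2) := by
    have : (fun x => pro s x ^ 2) = fun x => pro s x * pro s x := by funext x; ring
    rw [this]; exact (pro_supp hs).mul_left
  have hfc : Continuous (fderiv ℝ (pro s)) := (pro_contDiff s).continuous_fderiv (by norm_num)
  have hgc : Continuous (gra s) := by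
    unfold gra
    exact (LinearIsometryEquiv.continuous _).comp hfc
  have hgs : HasCompactSupport (gra s) := by
    have h1 := (pro_supp hs).fderiv ℝ
    exact h1.comp_left (g := (InnerProductSpace.toDual ℝ E3).symm) (map_zero _)
  refine ⟨fun x => sq_nonneg _, ?_, ?_, ?_, ?_, ?_, mass_pro hs⟩
  · exact (hc.pow 2).memLp_of_hasCompactSupport hsupp2
  · exact (hc.pow 2).memLp_of_hasCompactSupport hsupp2
  · rw [hsqrt]; exact hc.memLp_of_hasCompactSupport (pro_supp hs)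
  · exact hgc.memLp_of_hasCompactSupport hgs
  · rw [hsqrt]
    intro φ hφ v
    unfold integ ddir dot
    simp only [gra_inner]
    have hφd : Differentiable ℝ φ := hφ.1.differentiable (by simp)
    have hφc : Continuous φ := hφ.1.continuous
    have hφ1 : Continuous (fderiv ℝ φ) := hφ.1.continuous_fderiv (by simp)
    apply integral_mul_fderiv_eq_neg_fderiv_mul_of_integrable
    · apply Continuous.integrable_of_hasCompactSupport
      · exact (hfc.clm_apply continuous_const).mul hφc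
      · exact hφ.2.mul_left
    · apply Continuous.integrable_of_hasCompactSupport
      · exact hc.mul (hφ1.clm_apply continuous_const)
      · exact (pro_supp hs).mul_right
    · apply Continuous.integrable_of_hasCompactSupport
      · exact hc.mul hφc
      · exact hφ.2.mul_left
    · exact fun x _ => (pro_contDiff s).differentiable (by norm_num) x
    · exact fun x _ => hφd x

theorem V_nonneg (N : Nuclei) (x : E3) : 0 ≤ N.V x := by
  unfold Nuclei.V dst
  exact Finset.sum_nonneg fun j _ => div_nonneg (N.z_pos j).le (norm_nonneg _)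

theorem M0_pos : 0 < M0 := by
  unfold M0
  have hc : Continuous (fun x => prof x ^ 2) := prof_contDiff.continuous.pow 2
  have hs : HasCompactSupport (fun x => prof x ^ 2) := by
    have : (fun x => prof x ^ 2) = fun x => prof x * prof x := by funext x; ring
    rw [this]; exact prof_supp.mul_left
  refine hc.integral_pos_of_hasCompactSupport_nonneg_nonzero hs (fun x => sq_nonneg _) (x := 0) ?_
  have : prof 0 = 1 := TFSob.cutφ.one_of_mem_closedBall (by simp [TFSob.cutφ])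
  rw [this]; norm_num

theorem X0_pos : 0 < X0 := by
  unfold X0
  have hc : Continuous (fun x => (prof x ^ 2) ^ (4 / 3 : ℝ)) :=
    (prof_contDiff.continuous.pow 2).rpow_const fun _ => Or.inr (by norm_num)
  have hs : HasCompactSupport (fun x => (prof x ^ 2) ^ (4 / 3 : ℝ)) :=
    prof_supp.comp_left (g := fun t : ℝ => (t ^ 2) ^ (4 / 3 : ℝ)) (by norm_num)
  refine hc.integral_pos_of_hasCompactSupport_nonneg_nonzero hs
    (fun x => Real.rpow_nonneg (sq_nonneg _) _) (x := 0) ?_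
  have : prof 0 = 1 := TFSob.cutφ.one_of_mem_closedBall (by simp [TFSob.cutφ])
  rw [this]; norm_num

theorem upper {A γ Ce p : ℝ} (hp : 4 / 3 < p) (N : Nuclei) {s : ℝ} (hs : 0 < s) :
    TF A γ Ce p N (fun x => pro s x ^ 2) (gra s) ≤
      N.U + A * (s ^ 9 * T0) + γ / p * (s ^ (12 * p - 9) * Y0 p) -
        3 * Ce / 4 * (s ^ 7 * X0) + 1 / 4 * (s ^ 9 * (M0 * (T0 + M0))) := by
  obtain ⟨h0, h1, hp', h6, hg, hw, hm⟩ := pro_dens hs hp
  have hc := (pro_contDiff s).continuous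
  have hi : Integrable (fun x => pro s x ^ 2) := memLp_one_iff_integrable.mp h1
  have hint : ∀ q : ℝ, 0 < q → Integrable (fun x => (pro s x ^ 2) ^ q) := by
    intro q hq
    apply Continuous.integrable_of_hasCompactSupport
    · exact (hc.pow 2).rpow_const fun _ => Or.inr hq.le
    · exact (pro_supp hs).comp_left (g := fun t : ℝ => (t ^ 2) ^ q) (by
        simp [Real.zero_rpow hq.ne'])
  have hJ : ∫ x, J γ Ce p (pro s x ^ 2) =
      γ / p * (s ^ (12 * p - 9) * Y0 p) - 3 * Ce / 4 * (s ^ 7 * X0) := by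
    unfold J
    rw [integral_sub ((hint p (by linarith)).const_mul _) ((hint (4 / 3) (by norm_num)).const_mul _),
      integral_const_mul, integral_const_mul, rpow_pro hs, rpow_pro hs]
    unfold Y0 X0
    have e : s ^ (12 * (4 / 3 : ℝ) - 9) = s ^ 7 := by
      rw [← Real.rpow_natCast]; norm_num
    rw [e]
  have hV : 0 ≤ ∫ x, N.V x * pro s x ^ 2 :=
    integral_nonneg fun x => mul_nonneg (V_nonneg N x) (sq_nonneg _)
  have hs3 : 0 < (s ^ 3)⁻¹ := by positivity
  have hin : ∀ x, ∫ y, pro s x ^ 2 * pro s y ^ 2 / ‖x - y‖ ≤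
      pro s x ^ 2 * (1 / 2 * (s ^ 6 * (T0 + M0))) := by
    intro x
    have h2 := (coul (pro s) (gra s) (hc.memLp_of_hasCompactSupport (pro_supp hs)) hg
      (by
        have hsqrt : (fun x => Real.sqrt (pro s x ^ 2)) = pro s := by
          funext x; exact Real.sqrt_sq (pro_nonneg s x)
        rw [hsqrt] at hw; exact hw) hs3 x).2
    rw [grad_pro hs, mass_pro hs] at h2
    have e1 : ∀ y, pro s x ^ 2 * pro s y ^ 2 / ‖x - y‖ = pro s x ^ 2 * (pro s y ^ 2 / ‖y - x‖) := by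
      intro y
      rw [norm_sub_rev]; ring
    simp_rw [e1]
    rw [integral_const_mul]
    apply mul_le_mul_of_nonneg_left _ (sq_nonneg _)
    have e2 : (s ^ 3)⁻¹ * (s ^ 9 * T0) + 1 / (s ^ 3)⁻¹ * (s ^ 3 * M0) = s ^ 6 * (T0 + M0) := by
      field_simp
    rw [e2] at h2
    linarith
  have hD : D (fun x => pro s x ^ 2) (fun x => pro s x ^ 2) ≤
      1 / 4 * (s ^ 9 * (M0 * (T0 + M0))) := by
    unfold D integ dst
    have h3 : ∫ x, ∫ y, pro s x ^ 2 * pro s y ^ 2 / ‖x - y‖ ≤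
        ∫ x, pro s x ^ 2 * (1 / 2 * (s ^ 6 * (T0 + M0))) := by
      apply integral_mono_of_nonneg
      · exact Eventually.of_forall fun x => integral_nonneg fun y =>
          div_nonneg (mul_nonneg (sq_nonneg _) (sq_nonneg _)) (norm_nonneg _)
      · exact hi.mul_const _
      · exact Eventually.of_forall hin
    rw [integral_mul_const, mass_pro hs] at h3
    have e3 : 1 / 2 * (s ^ 3 * M0 * (1 / 2 * (s ^ 6 * (T0 + M0)))) =
        1 / 4 * (s ^ 9 * (M0 * (T0 + M0))) := by ring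
    linarith
  unfold TF
  have hG : integ (fun x => len (gra s x) ^ 2) = s ^ 9 * T0 := grad_pro hs
  have hJ' : integ (fun x => J γ Ce p (pro s x ^ 2)) =
      γ / p * (s ^ (12 * p - 9) * Y0 p) - 3 * Ce / 4 * (s ^ 7 * X0) := hJ
  have hV' : 0 ≤ integ (fun x => N.V x * pro s x ^ 2) := hV
  rw [hG, hJ']
  linarith

theorem exists_s {A γ Ce p : ℝ} (hCe : 0 < Ce) (hp : 4 / 3 < p) :
    ∃ s κ : ℝ, 0 < s ∧ 0 < κ ∧ ∀ N : Nuclei,
      TF A γ Ce p N (fun x => pro s x ^ 2) (gra s) ≤ N.U - κ := by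
  let B : ℝ → ℝ := fun s => -(3 * Ce / 4 * X0) + s ^ 2 * (A * T0 + 1 / 4 * (M0 * (T0 + M0))) +
    γ / p * Y0 p * s ^ (12 * p - 16)
  have hB : Tendsto B (𝓝[>] 0) (𝓝 (-(3 * Ce / 4 * X0))) := by
    have h1 : Tendsto (fun s : ℝ => s ^ 2) (𝓝[>] 0) (𝓝 0) := by
      have : Tendsto (fun s : ℝ => s ^ 2) (𝓝 0) (𝓝 (0 ^ 2)) := (continuous_pow 2).tendsto _
      rw [zero_pow two_ne_zero] at this
      exact this.mono_left nhdsWithin_le_nhds
    have h2 : Tendsto (fun s : ℝ => s ^ (12 * p - 16)) (𝓝[>] 0) (𝓝 0) := by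
      have h3 : Continuous fun s : ℝ => s ^ (12 * p - 16) :=
        Real.continuous_rpow_const (by linarith)
      have h4 := h3.tendsto 0
      rw [Real.zero_rpow (by linarith)] at h4
      exact h4.mono_left nhdsWithin_le_nhds
    have h5 := ((h1.mul_const (A * T0 + 1 / 4 * (M0 * (T0 + M0)))).const_add
      (-(3 * Ce / 4 * X0))).add (h2.const_mul (γ / p * Y0 p))
    simpa [B] using h5
  have hneg : -(3 * Ce / 4 * X0) < 0 := by
    have := X0_pos
    have : 0 < 3 * Ce / 4 * X0 := by positivity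
    linarith
  have hev : ∀ᶠ s in 𝓝[>] (0 : ℝ), B s < 0 := hB.eventually_lt_const hneg
  obtain ⟨s, hs1, hs2⟩ := (hev.and self_mem_nhdsWithin).exists
  have hs : 0 < s := hs2
  refine ⟨s, -(s ^ 7 * B s), hs, by
    have : 0 < s ^ 7 * (-B s) := mul_pos (by positivity) (by linarith)
    linarith, fun N => ?_⟩
  refine (upper hp N hs).trans ?_
  have e : s ^ (12 * p - 9) = s ^ 7 * s ^ (12 * p - 16) := by
    rw [← Real.rpow_natCast s 7, ← Real.rpow_add hs]
    norm_num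
    ring_nf
  rw [e]
  apply le_of_eq
  simp only [B]
  ring

end Pool.Agent.Helpers25.TFConv
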