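import Pool.Agent.Helpers25.TFConvA

namespace Pool.Agent.Helpers25.TFConv

open MeasureTheory Filter Topology
open Pool.Agent.Helpers25.TFDW

theorem zero_dens (p : ℝ) : IsDensity p (fun _ => 0) (fun _ => 0) 0 := by
  refine ⟨fun _ => le_rfl, MemLp.zero', MemLp.zero', ?_, MemLp.zero', ?_, ?_⟩
  · simp only [Real.sqrt_zero]; exact MemLp.zero'
  · intro φ _ v
    simp [integ, dot]
  · simp [integ]

theorem TF_zero {A γ Ce p : ℝ} (hp : 4 / 3 < p) (N : Nuclei) :
    TF A γ Ce p N (fun _ => 0) (fun _ => 0) = N.U := by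
  have hJ : J γ Ce p 0 = 0 := by
    unfold J
    rw [Real.zero_rpow (by linarith), Real.zero_rpow (by norm_num)]
    ring
  simp [TF, integ, len, D, hJ]

theorem Z_pos (N : Nuclei) : 0 < N.Z := by
  unfold Nuclei.Z
  have : (Finset.univ : Finset (Fin N.k)).Nonempty :=
    ⟨⟨0, N.one_le_k⟩, Finset.mem_univ _⟩
  exact Finset.sum_pos (fun j _ => N.z_pos j) this

/-- Real lower bound for all masses. -/
theorem lower_fin {A γ Ce p : ℝ} (hA : 0 < A) (hγ : 0 < γ) (hCe : 0 < Ce) (hp : 4 / 3 < p)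
    (N : Nuclei) (lam : ℝ) (hlam : 0 ≤ lam) :
    ∃ b : ℝ, ∀ ρ g, IsDensity p ρ g lam → b ≤ TF A γ Ce p N ρ g := by
  have hZ := Z_pos N
  set c := 3 * Ce / 4 * (c0 * lam ^ (1 / 3 : ℝ)) with hc
  have hc0 : 0 ≤ c := by
    have := c0_nonneg
    positivity
  have ha : 0 < A / (2 * (c + 1)) := by positivity
  have ha' : 0 < A / N.Z := by positivity
  refine ⟨N.U - c * ((1 / (A / (2 * (c + 1)))) * lam) - N.Z / 2 * ((1 / (A / N.Z)) * lam), ?_⟩
  intro ρ g hd
  refine le_trans ?_ (lower hγ hCe hp N hd ha ha')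
  set G := ∫ x, ‖g x‖ ^ 2 with hG
  have hG0 : 0 ≤ G := integral_nonneg fun _ => sq_nonneg _
  have e1 : 3 * Ce / 4 * (c0 * (lam ^ (1 / 3 : ℝ) *
      (A / (2 * (c + 1)) * G + (1 / (A / (2 * (c + 1)))) * lam))) =
      c * (A / (2 * (c + 1))) * G + c * ((1 / (A / (2 * (c + 1)))) * lam) := by
    rw [hc]; ring
  have e2 : N.Z / 2 * (A / N.Z * G + (1 / (A / N.Z)) * lam) =
      A / 2 * G + N.Z / 2 * ((1 / (A / N.Z)) * lam) := by
    have : N.Z / 2 * (A / N.Z * G) = A / 2 * G := by field_simp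
    rw [mul_add, this]
  have e3 : c * (A / (2 * (c + 1))) ≤ A / 2 := by
    rw [mul_div_assoc', div_le_iff₀ (by positivity)]
    nlinarith
  rw [e1, e2]
  have := mul_le_mul_of_nonneg_right e3 hG0
  linarith

theorem E_le {A γ Ce p : ℝ} (N : Nuclei) {lam : ℝ} {ρ : E3 → ℝ} {g : E3 → E3}
    (hd : IsDensity p ρ g lam) : E A γ Ce p N lam ≤ (TF A γ Ce p N ρ g : EReal) := by
  unfold E
  exact iInf_le_of_le ρ (iInf_le_of_le g (iInf_le_of_le hd le_rfl))

theorem le_E {A γ Ce p : ℝ} (N : Nuclei) {lam b : ℝ}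
    (h : ∀ ρ g, IsDensity p ρ g lam → b ≤ TF A γ Ce p N ρ g) :
    (b : EReal) ≤ E A γ Ce p N lam := by
  unfold E
  refine le_iInf fun ρ => le_iInf fun g => le_iInf fun hd => ?_
  exact_mod_cast h ρ g hd

theorem exists_dens {p : ℝ} (hp : 4 / 3 < p) {lam : ℝ} (hlam : 0 ≤ lam) :
    ∃ ρ g, IsDensity p ρ g lam := by
  rcases hlam.eq_or_lt with h | h
  · rw [← h]; exact ⟨_, _, zero_dens p⟩
  · have hM := M0_pos
    have hs : 0 < (lam / M0) ^ (1 / 3 : ℝ) := by positivity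
    have h2 := pro_dens hs hp
    have e : ((lam / M0) ^ (1 / 3 : ℝ)) ^ 3 * M0 = lam := by
      rw [← Real.rpow_natCast, ← Real.rpow_mul (by positivity)]
      norm_num
      field_simp
    rw [e] at h2
    exact ⟨_, _, h2⟩

theorem E_real {A γ Ce p : ℝ} (hA : 0 < A) (hγ : 0 < γ) (hCe : 0 < Ce) (hp : 4 / 3 < p)
    (N : Nuclei) : ∃ e : ℝ → ℝ, ∀ lam, 0 ≤ lam → E A γ Ce p N lam = (e lam : EReal) := by
  refine ⟨fun lam => (E A γ Ce p N lam).toReal, fun lam hlam => ?_⟩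
  rw [EReal.coe_toReal]
  · obtain ⟨ρ, g, hd⟩ := exists_dens hp hlam
    exact ((E_le N hd).trans_lt (EReal.coe_lt_top _)).ne
  · obtain ⟨b, hb⟩ := lower_fin hA hγ hCe hp N lam hlam
    exact ((EReal.bot_lt_coe b).trans_le (le_E N hb)).ne'

theorem main {A γ Ce p : ℝ} (hA : 0 < A) (hγ : 0 < γ) (hCe : 0 < Ce) (hp : 4 / 3 < p) :
    ∃ Z0 : ℝ, 0 < Z0 ∧ ∀ N : Nuclei, N.Z < Z0 → ∀ e : ℝ → ℝ,
      (∀ lam, 0 ≤ lam → E A γ Ce p N lam = (e lam : EReal)) → ¬ ConvexOn ℝ (Set.Ici 0) e := by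
  obtain ⟨s, κ, hs, hκ, hup⟩ := exists_s (A := A) (γ := γ) hCe hp
  have hM := M0_pos
  set L := s ^ 3 * M0 with hL
  have hLpos : 0 < L := by positivity
  refine ⟨Real.sqrt (A * κ / L), Real.sqrt_pos.mpr (by positivity), ?_⟩
  intro N hN e he hconv
  have hZ := Z_pos N
  have hZ2 : N.Z ^ 2 < A * κ / L := by
    have := Real.lt_sqrt hZ.le |>.mp hN
    exact this
  -- small t
  set K := 3 * Ce / 4 * c0 with hK
  have hK0 : 0 ≤ K := by
    have := c0_nonneg
    positivity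
  obtain ⟨t, ht0, ht1, htK⟩ : ∃ t : ℝ, 0 < t ∧ t < 1 ∧
      K * (t * L) ^ (1 / 3 : ℝ) ≤ min (A / 2) (κ / (4 * L)) := by
    have hlim : Tendsto (fun t : ℝ => K * (t * L) ^ (1 / 3 : ℝ)) (𝓝[>] 0) (𝓝 0) := by
      have h3 : Continuous fun t : ℝ => K * (t * L) ^ (1 / 3 : ℝ) :=
        continuous_const.mul ((Real.continuous_rpow_const (by norm_num)).comp
          (continuous_id.mul continuous_const))
      have h4 := h3.tendsto 0
      rw [zero_mul, Real.zero_rpow (by norm_num), mul_zero] at h4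
      exact h4.mono_left nhdsWithin_le_nhds
    have hpos : 0 < min (A / 2) (κ / (4 * L)) := lt_min (by positivity) (by positivity)
    have h5 := hlim.eventually_lt_const hpos
    have h6 : ∀ᶠ t in 𝓝[>] (0 : ℝ), t < 1 :=
      nhdsWithin_le_nhds (gt_mem_nhds one_pos)
    obtain ⟨t, h7, h8, h9⟩ := (h5.and (h6.and self_mem_nhdsWithin)).exists
    exact ⟨t, h9, h8, h7.le⟩
  -- the three values
  have h0 : e 0 ≤ N.U := by
    have h1 := E_le (A := A) (γ := γ) (Ce := Ce) N (zero_dens p)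
    rw [he 0 le_rfl, TF_zero hp] at h1
    exact_mod_cast h1
  have h1 : e L ≤ N.U - κ := by
    have h2 := E_le (A := A) (γ := γ) (Ce := Ce) N (pro_dens hs hp)
    rw [he _ hLpos.le] at h2
    have h3 : e L ≤ TF A γ Ce p N (fun x => pro s x ^ 2) (gra s) := by exact_mod_cast h2
    exact h3.trans (hup N)
  have hmid : N.U - 3 / 4 * κ * t ≤ e (t * L) := by
    have h2 : ((N.U - 3 / 4 * κ * t : ℝ) : EReal) ≤ E A γ Ce p N (t * L) := by
      apply le_E
      intro ρ g hd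
      have ha' : 0 < A / N.Z := by positivity
      refine le_trans ?_ (lower hγ hCe hp N hd one_pos ha')
      set G := ∫ x, ‖g x‖ ^ 2 with hG
      have hG0 : 0 ≤ G := integral_nonneg fun _ => sq_nonneg _
      have e1 : 3 * Ce / 4 * (c0 * ((t * L) ^ (1 / 3 : ℝ) * (1 * G + (1 / 1) * (t * L)))) =
          (K * (t * L) ^ (1 / 3 : ℝ)) * G + (K * (t * L) ^ (1 / 3 : ℝ)) * (t * L) := by
        rw [hK]; ring
      have e2 : N.Z / 2 * (A / N.Z * G + (1 / (A / N.Z)) * (t * L)) =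
          A / 2 * G + N.Z ^ 2 / (2 * A) * (t * L) := by
        field_simp
      have e3 := mul_le_mul_of_nonneg_right (htK.trans (min_le_left _ _)) hG0
      have htL : 0 ≤ t * L := by positivity
      have e4 := mul_le_mul_of_nonneg_right (htK.trans (min_le_right _ _)) htL
      have e5 : κ / (4 * L) * (t * L) = κ / 4 * t := by field_simp
      have e6 : N.Z ^ 2 / (2 * A) * (t * L) ≤ κ / 2 * t := by
        have e7 : N.Z ^ 2 * L ≤ A * κ := by
          rw [lt_div_iff₀ hLpos] at hZ2; linarith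
        rw [div_mul_eq_mul_div, div_le_iff₀ (by positivity)]
        have := mul_le_mul_of_nonneg_right e7 ht0.le
        linarith
      rw [e5] at e4
      rw [e1, e2]
      linarith
    rw [he _ (by positivity)] at h2
    exact_mod_cast h2
  -- violation of convexity
  have hcv := hconv.2 (Set.mem_Ici.mpr hLpos.le : L ∈ Set.Ici (0 : ℝ))
    (Set.mem_Ici.mpr le_rfl : (0 : ℝ) ∈ Set.Ici (0 : ℝ)) ht0.le (by linarith : 0 ≤ 1 - t) (by ring)
  simp only [smul_eq_mul, mul_zero, add_zero] at hcv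
  have h3 := mul_le_mul_of_nonneg_left h1 ht0.le
  have h4 := mul_le_mul_of_nonneg_left h0 (by linarith : 0 ≤ 1 - t)
  have h5 : 0 < κ * t := by positivity
  nlinarith

end Pool.Agent.Helpers25.TFConv
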