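import Pool.Agent.Helpers25.TFDWDefs

namespace Pool.Agent.Helpers25.TFConv

open Pool.Agent.Helpers25.TFDW

/-- `J(ρ) = (γ/p) ρ^p - (3 C_e/4) ρ^(4/3)`. -/
noncomputable def J (γ Ce p ρ : ℝ) : ℝ := γ / p * ρ ^ p - 3 * Ce / 4 * ρ ^ (4 / 3 : ℝ)

/-- `ρ` is an admissible density of total mass `lam` and `g` is the gradient of `ψ = ρ^(1/2)`. -/
def IsDensity (p : ℝ) (ρ : E3 → ℝ) (g : E3 → E3) (lam : ℝ) : Prop :=
  (∀ x, 0 ≤ ρ x) ∧ InL 1 ρ ∧ InL (ENNReal.ofReal p) ρ ∧ InL 6 (fun x => Real.sqrt (ρ x)) ∧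
    InL2 g ∧ WeakGrad (fun x => Real.sqrt (ρ x)) g ∧ integ ρ = lam

/-- The Thomas-Fermi-Dirac-von Weizsaecker energy of `ρ`, where `g = ∇ρ^(1/2)`. -/
noncomputable def TF (A γ Ce p : ℝ) (N : Nuclei) (ρ : E3 → ℝ) (g : E3 → E3) : ℝ :=
  A * integ (fun x => len (g x) ^ 2) + integ (fun x => J γ Ce p (ρ x)) -
    integ (fun x => N.V x * ρ x) + D ρ ρ + N.U

/-- `E(λ)`, the infimum of the energies of the admissible densities of mass `λ`. -/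
noncomputable def E (A γ Ce p : ℝ) (N : Nuclei) (lam : ℝ) : EReal :=
  ⨅ (ρ : E3 → ℝ) (g : E3 → E3) (_ : IsDensity p ρ g lam), (TF A γ Ce p N ρ g : EReal)

end Pool.Agent.Helpers25.TFConv
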