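import Mathlib

namespace Pool.Agent.Helpers25.TFDWCore

open MeasureTheory

/-- Three-dimensional Euclidean space. -/
abbrev E3 := EuclideanSpace ℝ (Fin 3)

/-- `g` is the weak (distributional) gradient of `ψ`: for every smooth compactly supported test
function `φ` and every direction `v`, `∫ ψ ∂_v φ = - ∫ ⟨g, v⟩ φ`. -/
def WeakGrad (ψ : E3 → ℝ) (g : E3 → E3) : Prop :=
  ∀ φ : E3 → ℝ, ContDiff ℝ ((⊤ : ℕ∞) : WithTop ℕ∞) φ → HasCompactSupport φ → ∀ v : E3,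
    ∫ x, ψ x * fderiv ℝ φ x v = - ∫ x, inner ℝ (g x) v * φ x

/-- Finitely many (at least one) nuclei at distinct points with positive charges. -/
structure Nuclei where
  k : ℕ
  one_le_k : 1 ≤ k
  R : Fin k → E3
  R_injective : Function.Injective R
  z : Fin k → ℝ
  z_pos : ∀ j, 0 < z j

namespace Nuclei

variable (N : Nuclei)

/-- Total nuclear charge `Z`. -/
noncomputable def Z : ℝ := ∑ j, N.z j

/-- The attraction potential `V(x) = ∑ z_j / |x - R_j|`. -/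
noncomputable def V (x : E3) : ℝ := ∑ j, N.z j / ‖x - N.R j‖

/-- The repulsion of the nuclei `U = ∑_{i<j} z_i z_j / |R_i - R_j|`. -/
noncomputable def U : ℝ := ∑ i, ∑ j, if i < j then N.z i * N.z j / ‖N.R i - N.R j‖ else 0

end Nuclei

/-- The Coulomb energy `D(f, g) = 1/2 ∫∫ f(x) g(y) / |x - y|`. -/
noncomputable def D (f g : E3 → ℝ) : ℝ := (1 / 2) * ∫ x, ∫ y, f x * g y / ‖x - y‖

/-- `ρ₀`, where `ρ₀ ^ (p - 4/3) = C_e p / (4 γ (p - 1))`. -/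
noncomputable def rho0 (γ Ce p : ℝ) : ℝ := (Ce * p / (4 * γ * (p - 1))) ^ (1 / (p - 4 / 3))

/-- `α = (3 p - 4) / (4 (p - 1)) * ρ₀ ^ (1/3) * C_e`. -/
noncomputable def alpha (γ Ce p : ℝ) : ℝ :=
  (3 * p - 4) / (4 * (p - 1)) * rho0 γ Ce p ^ (1 / 3 : ℝ) * Ce

/-- `J_α(ρ) = (γ/p) ρ^p - (3 C_e/4) ρ^(4/3) + α ρ`. -/
noncomputable def Jalpha (γ Ce p ρ : ℝ) : ℝ :=
  γ / p * ρ ^ p - 3 * Ce / 4 * ρ ^ (4 / 3 : ℝ) + alpha γ Ce p * ρ

/-- `ψ ∈ L² ∩ L^(2p)` with weak gradient `g ∈ L²`. -/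
def Admissible (p : ℝ) (ψ : E3 → ℝ) (g : E3 → E3) : Prop :=
  MemLp ψ 2 volume ∧ MemLp ψ (ENNReal.ofReal (2 * p)) volume ∧ MemLp g 2 volume ∧ WeakGrad ψ g

/-- The TFDW energy `𝓔_α(ρ)` of the density `ρ = ψ ^ 2`, where `g = ∇ψ`. -/
noncomputable def energy (A γ Ce p : ℝ) (N : Nuclei) (ψ : E3 → ℝ) (g : E3 → E3) : ℝ :=
  A * (∫ x, ‖g x‖ ^ 2) + (∫ x, Jalpha γ Ce p (ψ x ^ 2)) - (∫ x, N.V x * ψ x ^ 2) +
    D (fun x => ψ x ^ 2) (fun x => ψ x ^ 2) + N.U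

/-- `E_α(λ)`, the infimum of the energies of the admissible densities of mass `λ`. -/
noncomputable def Emin (A γ Ce p : ℝ) (N : Nuclei) (lam : ℝ) : EReal :=
  ⨅ (ψ : E3 → ℝ) (g : E3 → E3) (_ : Admissible p ψ g) (_ : ∫ x, ψ x ^ 2 = lam),
    (energy A γ Ce p N ψ g : EReal)

/-- `λ` is an absolute-minimum point of `λ ↦ E_α(λ)` on `[0, ∞)`. -/
def IsAbsMin (A γ Ce p : ℝ) (N : Nuclei) (lam : ℝ) : Prop :=
  0 ≤ lam ∧ Emin A γ Ce p N lam = ⨅ (l : ℝ) (_ : 0 ≤ l), Emin A γ Ce p N l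

end Pool.Agent.Helpers25.TFDWCore
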