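import Mathlib
import Pool.Agent.Helpers25.TFDWCore

namespace Pool.Agent.Helpers25.TFDWCore

open MeasureTheory Filter Topology Convolution ContinuousLinearMap

/-- Radial function. -/
noncomputable def rd (R : E3) (δ : ℝ) (x : E3) : ℝ := Real.sqrt (‖x - R‖ ^ 2 + δ ^ 2)

theorem rd_pos (R : E3) {δ : ℝ} (hδ : 0 < δ) (x : E3) : 0 < rd R δ x :=
  Real.sqrt_pos.2 (by positivity)

theorem rd_sq (R : E3) {δ : ℝ} (hδ : 0 < δ) (x : E3) : rd R δ x ^ 2 = ‖x - R‖ ^ 2 + δ ^ 2 :=
  Real.sq_sqrt (by positivity)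

theorem rd_ge (R : E3) {δ : ℝ} (hδ : 0 < δ) (x : E3) : δ ≤ rd R δ x := by
  apply Real.le_sqrt_of_sq_le
  nlinarith [sq_nonneg ‖x - R‖]

theorem norm_le_rd (R : E3) {δ : ℝ} (x : E3) : ‖x - R‖ ≤ rd R δ x := by
  apply Real.le_sqrt_of_sq_le
  nlinarith [sq_nonneg δ]

theorem rd_continuous (R : E3) (δ : ℝ) : Continuous (rd R δ) := by
  unfold rd; fun_prop

theorem norm_sq_coord (y : E3) : ‖y‖ ^ 2 = ∑ i, (y i) ^ 2 := by
  rw [EuclideanSpace.norm_sq_eq]
  simp

theorem lineDeriv_X (R : E3) {δ : ℝ} (hδ : 0 < δ) (i : Fin 3) (x : E3) :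
    HasLineDerivAt ℝ (fun x : E3 => (x - R) i / rd R δ x)
      (1 / rd R δ x - ((x - R) i) ^ 2 / rd R δ x ^ 3) x (EuclideanSpace.single i (1 : ℝ)) := by
  unfold HasLineDerivAt
  have h1 : ∀ t : ℝ, (x + t • (EuclideanSpace.single i (1 : ℝ) : E3) - R) i = (x - R) i + t := by
    intro t
    simp
    ring
  have h2 : ∀ t : ℝ, rd R δ (x + t • (EuclideanSpace.single i (1 : ℝ) : E3)) =
      Real.sqrt (rd R δ x ^ 2 + 2 * t * (x - R) i + t ^ 2) := by
    intro t
    rw [rd_sq R hδ]
    unfold rd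
    congr 1
    rw [show x + t • (EuclideanSpace.single i (1 : ℝ) : E3) - R =
      (x - R) + t • (EuclideanSpace.single i (1 : ℝ) : E3) by abel]
    rw [norm_add_sq_real, norm_smul, inner_smul_right, EuclideanSpace.inner_single_right]
    simp
    ring
  have hb : 0 < rd R δ x ^ 2 := by
    have := rd_pos R hδ x
    positivity
  have h3 : HasDerivAt (fun t : ℝ => rd R δ x ^ 2 + 2 * t * (x - R) i + t ^ 2)
      (2 * (x - R) i) 0 := by
    have e1 : HasDerivAt (fun t : ℝ => 2 * t * (x - R) i) (2 * 1 * (x - R) i) 0 :=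
      ((hasDerivAt_id (0 : ℝ)).const_mul 2).mul_const _
    have e2 : HasDerivAt (fun t : ℝ => t ^ 2) (2 * 0) 0 := by
      simpa using hasDerivAt_pow 2 (0 : ℝ)
    have e3 := (e1.const_add (rd R δ x ^ 2)).add e2
    have e4 : 2 * (x - R) i = 2 * 1 * (x - R) i + 2 * 0 := by ring
    rw [e4]
    exact e3
  have h4 : HasDerivAt (fun t : ℝ => Real.sqrt (rd R δ x ^ 2 + 2 * t * (x - R) i + t ^ 2))
      (2 * (x - R) i / (2 * Real.sqrt (rd R δ x ^ 2 + 2 * 0 * (x - R) i + 0 ^ 2))) 0 := by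
    apply h3.sqrt
    simpa using hb.ne'
  have h5 : HasDerivAt (fun t : ℝ => (x - R) i + t) 1 0 := by
    simpa using (hasDerivAt_id (0 : ℝ)).const_add ((x - R) i)
  have hs : Real.sqrt (rd R δ x ^ 2 + 2 * 0 * (x - R) i + 0 ^ 2) = rd R δ x := by
    rw [show rd R δ x ^ 2 + 2 * 0 * (x - R) i + 0 ^ 2 = rd R δ x ^ 2 by ring]
    exact Real.sqrt_sq (rd_pos R hδ x).le
  have h6 := h5.div h4 (by rw [hs]; exact (rd_pos R hδ x).ne')
  have hpos := rd_pos R hδ x
  rw [hs] at h6
  have h7 : (fun t : ℝ => (x + t • (EuclideanSpace.single i (1 : ℝ) : E3) - R) i /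
      rd R δ (x + t • (EuclideanSpace.single i (1 : ℝ) : E3))) =
      (fun t : ℝ => ((x - R) i + t) /
        Real.sqrt (rd R δ x ^ 2 + 2 * t * (x - R) i + t ^ 2)) := by
    funext t
    rw [h1, h2]
  rw [h7]
  have h8 : 1 / rd R δ x - ((x - R) i) ^ 2 / rd R δ x ^ 3 =
      (1 * rd R δ x - ((x - R) i + 0) * (2 * (x - R) i / (2 * rd R δ x))) / rd R δ x ^ 2 := by
    field_simp
    ring
  rw [h8]
  exact h6

theorem smooth_ineq (f : E3 → ℝ) (hf : Differentiable ℝ f) (hf0 : ∀ x, 0 ≤ f x)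
    (hfi : Integrable f) (hfd : Integrable (fun x => fderiv ℝ f x)) (R : E3) {δ : ℝ}
    (hδ : 0 < δ) :
    2 * ∫ x, f x / rd R δ x ≤ ∫ x, ‖fderiv ℝ f x‖ := by
  have hrc := rd_continuous R δ
  have hrpos := rd_pos R hδ
  let X : Fin 3 → E3 → ℝ := fun i x => (x - R) i / rd R δ x
  let X' : Fin 3 → E3 → ℝ := fun i x => 1 / rd R δ x - ((x - R) i) ^ 2 / rd R δ x ^ 3
  have hcoord : ∀ (i : Fin 3) (x : E3), |(x - R) i| ≤ rd R δ x := by
    intro i x
    have h1 : |(x - R) i| ≤ ‖x - R‖ := by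
      have := PiLp.norm_apply_le (x - R) i
      simpa using this
    exact h1.trans (norm_le_rd R x)
  have hXc : ∀ i, Continuous (X i) := by
    intro i
    apply Continuous.div _ hrc (fun x => (hrpos x).ne')
    fun_prop
  have hX'c : ∀ i, Continuous (X' i) := by
    intro i
    apply Continuous.sub
    · exact continuous_const.div hrc (fun x => (hrpos x).ne')
    · apply Continuous.div _ (hrc.pow 3) (fun x => (pow_pos (hrpos x) 3).ne')
      fun_prop
  have hXb : ∀ i x, ‖X i x‖ ≤ 1 := by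
    intro i x
    simp only [X, Real.norm_eq_abs, abs_div, abs_of_pos (hrpos x)]
    exact (div_le_one (hrpos x)).2 (hcoord i x)
  have hX'b : ∀ i x, ‖X' i x‖ ≤ 1 / δ := by
    intro i x
    have h1 : ((x - R) i) ^ 2 ≤ rd R δ x ^ 2 := by
      rw [← sq_abs]
      exact pow_le_pow_left₀ (abs_nonneg _) (hcoord i x) 2
    have h2 : ((x - R) i) ^ 2 / rd R δ x ^ 3 ≤ 1 / rd R δ x := by
      rw [div_le_div_iff₀ (pow_pos (hrpos x) 3) (hrpos x)]
      nlinarith [hrpos x]
    have h3 : 0 ≤ ((x - R) i) ^ 2 / rd R δ x ^ 3 := by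
      have := hrpos x
      positivity
    have h4 : 1 / rd R δ x ≤ 1 / δ := one_div_le_one_div_of_le hδ (rd_ge R hδ x)
    rw [Real.norm_eq_abs, abs_of_nonneg (by simp only [X']; linarith)]
    simp only [X']
    linarith
  have hibp : ∀ i, ∫ x, f x * X' i x = - ∫ x, fderiv ℝ f x (EuclideanSpace.single i 1) * X i x := by
    intro i
    have := integral_bilinear_hasLineDerivAt_right_eq_neg_left_of_integrable (μ := volume)
      (B := ContinuousLinearMap.mul ℝ ℝ) (f := f)
      (f' := fun x => fderiv ℝ f x (EuclideanSpace.single i 1)) (g := X i) (g' := X' i)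
      (v := EuclideanSpace.single i (1 : ℝ)) ?_ ?_ ?_ ?_ ?_
    · simpa using this
    · simp only [ContinuousLinearMap.mul_apply']
      apply Integrable.mul_bdd (c := 1)
      · exact (ContinuousLinearMap.apply ℝ ℝ (EuclideanSpace.single i (1 : ℝ))).integrable_comp hfd
      · exact (hXc i).aestronglyMeasurable
      · exact Eventually.of_forall (hXb i)
    · simp only [ContinuousLinearMap.mul_apply']
      apply Integrable.mul_bdd (c := 1 / δ) hfi
      · exact (hX'c i).aestronglyMeasurable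
      · exact Eventually.of_forall (hX'b i)
    · simp only [ContinuousLinearMap.mul_apply']
      apply Integrable.mul_bdd (c := 1) hfi
      · exact (hXc i).aestronglyMeasurable
      · exact Eventually.of_forall (hXb i)
    · intro x _
      exact (hf x).hasFDerivAt.hasLineDerivAt _
    · intro x _
      exact lineDeriv_X R hδ i x
  have hi1 : ∀ i, Integrable (fun x => f x * X' i x) := fun i =>
    Integrable.mul_bdd (c := 1 / δ) hfi (hX'c i).aestronglyMeasurable
      (Eventually.of_forall (hX'b i))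
  have hi2 : ∀ i, Integrable (fun x => fderiv ℝ f x (EuclideanSpace.single i 1) * X i x) :=
    fun i => Integrable.mul_bdd (c := 1)
      ((ContinuousLinearMap.apply ℝ ℝ (EuclideanSpace.single i (1 : ℝ))).integrable_comp hfd)
      (hXc i).aestronglyMeasurable (Eventually.of_forall (hXb i))
  have hsum : ∫ x, ∑ i, f x * X' i x =
      - ∫ x, ∑ i, fderiv ℝ f x (EuclideanSpace.single i 1) * X i x := by
    rw [integral_finsetSum _ (fun i _ => hi1 i), integral_finsetSum _ (fun i _ => hi2 i),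
      ← Finset.sum_neg_distrib]
    exact Finset.sum_congr rfl (fun i _ => hibp i)
  have hpt1 : ∀ x, 2 * (f x / rd R δ x) ≤ ∑ i, f x * X' i x := by
    intro x
    rw [← Finset.mul_sum]
    have h1 : ∑ i, X' i x = 3 / rd R δ x - ‖x - R‖ ^ 2 / rd R δ x ^ 3 := by
      simp only [X']
      rw [Finset.sum_sub_distrib, ← Finset.sum_div, ← Finset.sum_div, ← norm_sq_coord]
      simp
    have h2 : 2 / rd R δ x ≤ ∑ i, X' i x := by
      rw [h1]
      have h3 : ‖x - R‖ ^ 2 / rd R δ x ^ 3 ≤ 1 / rd R δ x := by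
        rw [div_le_div_iff₀ (pow_pos (hrpos x) 3) (hrpos x)]
        have := pow_le_pow_left₀ (norm_nonneg _) (norm_le_rd R (δ := δ) x) 2
        nlinarith [hrpos x]
      have h4 : 3 / rd R δ x = 2 / rd R δ x + 1 / rd R δ x := by ring
      linarith
    calc 2 * (f x / rd R δ x) = f x * (2 / rd R δ x) := by ring
      _ ≤ f x * ∑ i, X' i x := mul_le_mul_of_nonneg_left h2 (hf0 x)
  have hpt2 : ∀ x, -(∑ i, fderiv ℝ f x (EuclideanSpace.single i 1) * X i x) ≤
      ‖fderiv ℝ f x‖ := by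
    intro x
    have h1 : ∑ i, fderiv ℝ f x (EuclideanSpace.single i 1) * X i x =
        fderiv ℝ f x ((rd R δ x)⁻¹ • (x - R)) := by
      have h2 : (x - R) = ∑ i, (x - R) i • (EuclideanSpace.single i (1 : ℝ) : E3) := by
        ext j
        simp [Finset.sum_apply, Pi.single_apply]
      conv_rhs => rw [h2]
      rw [map_smul, map_sum, smul_eq_mul, Finset.mul_sum]
      apply Finset.sum_congr rfl
      intro i _
      rw [map_smul, smul_eq_mul]
      simp only [X]
      ring
    rw [h1]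
    have h3 : ‖(rd R δ x)⁻¹ • (x - R)‖ ≤ 1 := by
      rw [norm_smul, norm_inv, Real.norm_eq_abs, abs_of_pos (hrpos x), inv_mul_le_iff₀ (hrpos x),
        mul_one]
      exact norm_le_rd R x
    calc -(fderiv ℝ f x ((rd R δ x)⁻¹ • (x - R))) ≤ ‖fderiv ℝ f x ((rd R δ x)⁻¹ • (x - R))‖ := by
          rw [Real.norm_eq_abs]; exact neg_le_abs _
      _ ≤ ‖fderiv ℝ f x‖ * ‖(rd R δ x)⁻¹ • (x - R)‖ := ContinuousLinearMap.le_opNorm _ _
      _ ≤ ‖fderiv ℝ f x‖ * 1 := by gcongr
      _ = ‖fderiv ℝ f x‖ := mul_one _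
  have hi3 : Integrable (fun x => f x / rd R δ x) := by
    have := Integrable.mul_bdd (c := 1 / δ) hfi (g := fun x => 1 / rd R δ x)
      (continuous_const.div hrc (fun x => (hrpos x).ne')).aestronglyMeasurable
      (Eventually.of_forall (fun x => by
        rw [Real.norm_eq_abs, abs_of_pos (by have := hrpos x; positivity)]
        exact one_div_le_one_div_of_le hδ (rd_ge R hδ x)))
    refine this.congr (Eventually.of_forall (fun x => ?_))
    simp only
    ring
  calc 2 * ∫ x, f x / rd R δ x = ∫ x, 2 * (f x / rd R δ x) := by rw [integral_const_mul]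
    _ ≤ ∫ x, ∑ i, f x * X' i x :=
        integral_mono (hi3.const_mul 2) (integrable_finsetSum _ (fun i _ => hi1 i)) hpt1
    _ = ∫ x, -(∑ i, fderiv ℝ f x (EuclideanSpace.single i 1) * X i x) := by
        rw [hsum, integral_neg]
    _ ≤ ∫ x, ‖fderiv ℝ f x‖ :=
        integral_mono (integrable_finsetSum _ (fun i _ => hi2 i)).neg hfd.norm hpt2

/-! ### Mollification -/

/-- The bump functions. -/
noncomputable def bump (n : ℕ) : ContDiffBump (0 : E3) where
  rIn := 1 / (2 * ((n : ℝ) + 1))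
  rOut := 1 / ((n : ℝ) + 1)
  rIn_pos := by positivity
  rIn_lt_rOut := by
    apply one_div_lt_one_div_of_lt <;> [positivity; skip]
    have : (0 : ℝ) ≤ n := Nat.cast_nonneg n
    linarith

/-- The normalised bump functions. -/
noncomputable def eta (n : ℕ) : E3 → ℝ := (bump n).normed volume

theorem eta_nonneg (n : ℕ) (x : E3) : 0 ≤ eta n x := (bump n).nonneg_normed x
theorem eta_integral (n : ℕ) : ∫ x, eta n x = 1 := (bump n).integral_normed
theorem eta_integrable (n : ℕ) : Integrable (eta n) := (bump n).integrable_normed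
theorem eta_contDiff (n : ℕ) {k : ℕ∞} : ContDiff ℝ k (eta n) := (bump n).contDiff_normed
theorem eta_supp (n : ℕ) : HasCompactSupport (eta n) := (bump n).hasCompactSupport_normed

/-- Mollification. -/
noncomputable def moll (n : ℕ) (F : E3 → ℝ) : E3 → ℝ := (eta n) ⋆[lsmul ℝ ℝ, volume] F

theorem moll_apply (n : ℕ) (F : E3 → ℝ) (x : E3) :
    moll n F x = ∫ t, eta n t * F (x - t) := by
  simp [moll, convolution_def]

theorem moll_tendsto (F : E3 → ℝ) (hF : LocallyIntegrable F volume) :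
    ∀ᵐ x, Tendsto (fun n => moll n F x) atTop (𝓝 (F x)) := by
  apply ContDiffBump.ae_convolution_tendsto_right_of_locallyIntegrable (K := 2) _ _ hF
  · exact tendsto_one_div_add_atTop_nhds_zero_nat
  · apply Eventually.of_forall
    intro n
    show 1 / ((n : ℝ) + 1) ≤ 2 * (1 / (2 * ((n : ℝ) + 1)))
    apply le_of_eq
    field_simp

theorem moll_contDiff (n : ℕ) (F : E3 → ℝ) (hF : LocallyIntegrable F volume) {k : ℕ∞} :
    ContDiff ℝ k (moll n F) :=
  (eta_supp n).contDiff_convolution_left _ (eta_contDiff n) hF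

theorem moll_integrable (n : ℕ) (F : E3 → ℝ) (hF : Integrable F) : Integrable (moll n F) :=
  (eta_integrable n).integrable_convolution _ hF

theorem moll_integral (n : ℕ) (F : E3 → ℝ) (hF : Integrable F) :
    ∫ x, moll n F x = ∫ x, F x := by
  unfold moll
  rw [integral_convolution _ (eta_integrable n) hF]
  simp [eta_integral]

/-- Integrability of `η(t) F(x - t)` for locally integrable `F`. -/
theorem conv_integrable (n : ℕ) (F : E3 → ℝ) (hF : LocallyIntegrable F volume) (x : E3) :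
    Integrable (fun t => eta n t * F (x - t)) := by
  have := (eta_supp n).convolutionExists_left (lsmul ℝ ℝ)
    (eta_contDiff n (k := 0)).continuous hF x
  simpa [ConvolutionExistsAt] using this

theorem jensen (n : ℕ) (F : E3 → ℝ) (hF : LocallyIntegrable F volume)
    (hF2 : LocallyIntegrable (fun x => F x ^ 2) volume) (x : E3) :
    (moll n F x) ^ 2 ≤ moll n (fun x => F x ^ 2) x := by
  have h1 := conv_integrable n F hF x
  have h2 := conv_integrable n _ hF2 x
  have h0 := eta_integrable n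
  set c := moll n F x with hc
  have h3 : 0 ≤ ∫ t, eta n t * (F (x - t) - c) ^ 2 :=
    integral_nonneg (fun t => mul_nonneg (eta_nonneg n t) (sq_nonneg _))
  have h4 : ∫ t, eta n t * (F (x - t) - c) ^ 2 =
      (∫ t, eta n t * F (x - t) ^ 2) - 2 * c * (∫ t, eta n t * F (x - t)) +
        c ^ 2 * ∫ t, eta n t := by
    have hs : Integrable (fun t => eta n t * F (x - t) ^ 2 - 2 * c * (eta n t * F (x - t))) :=
      h2.sub (h1.const_mul _)
    have he : ∫ t, eta n t * (F (x - t) - c) ^ 2 =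
        ∫ t, ((eta n t * F (x - t) ^ 2 - 2 * c * (eta n t * F (x - t))) + c ^ 2 * eta n t) := by
      apply integral_congr_ae
      apply Eventually.of_forall
      intro t
      simp only
      ring
    rw [he, integral_add hs (h0.const_mul _), integral_sub h2 (h1.const_mul _),
      integral_const_mul, integral_const_mul]
  rw [h4, eta_integral, ← moll_apply, ← moll_apply n (fun x => F x ^ 2), ← hc] at h3
  nlinarith

theorem fderiv_moll (n : ℕ) (ψ : E3 → ℝ) (g : E3 → E3) (hψ : LocallyIntegrable ψ volume)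
    (hw : WeakGrad ψ g) (x v : E3) :
    fderiv ℝ (moll n ψ) x v = moll n (fun y => inner ℝ (g y) v) x := by
  have h1 := (eta_supp n).hasFDerivAt_convolution_left (lsmul ℝ ℝ)
    (eta_contDiff n (k := 1)) hψ x
  have h2 : HasFDerivAt (moll n ψ) _ x := h1
  rw [h2.fderiv, moll_apply]
  have h3 : Integrable (fun t => ψ (x - t) • fderiv ℝ (eta n) t) := by
    have := ((eta_supp n).fderiv ℝ).convolutionExists_left ((lsmul ℝ ℝ : ℝ →L[ℝ] ℝ →L[ℝ] ℝ).precompL E3)
      ((eta_contDiff n (k := 1)).continuous_fderiv (by norm_num)) hψ x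
    unfold ConvolutionExistsAt at this
    refine this.congr (Eventually.of_forall (fun t => ?_))
    ext w
    simp [ContinuousLinearMap.precompL_apply]
    ring
  have h4 : ((fderiv ℝ (eta n) ⋆[(lsmul ℝ ℝ : ℝ →L[ℝ] ℝ →L[ℝ] ℝ).precompL E3, volume] ψ) x) v =
      ∫ t, ψ (x - t) * fderiv ℝ (eta n) t v := by
    have h5 : ((fderiv ℝ (eta n) ⋆[(lsmul ℝ ℝ : ℝ →L[ℝ] ℝ →L[ℝ] ℝ).precompL E3, volume] ψ) x) =
        ∫ t, ψ (x - t) • fderiv ℝ (eta n) t := by
      rw [convolution_def]
      apply integral_congr_ae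
      apply Eventually.of_forall
      intro t
      ext w
      simp [ContinuousLinearMap.precompL_apply]
      ring
    rw [h5, ContinuousLinearMap.integral_apply h3]
    simp
  rw [h4]
  have h6 := hw (fun y => eta n (x - y)) ?_ ?_ v
  · have h7 : ∀ y, fderiv ℝ (fun y => eta n (x - y)) y v = - fderiv ℝ (eta n) (x - y) v := by
      intro y
      have h8 : HasFDerivAt (fun y => eta n (x - y))
          ((fderiv ℝ (eta n) (x - y)).comp (-(ContinuousLinearMap.id ℝ E3))) y := by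
        have h9 : HasFDerivAt (fun y : E3 => x - y) (-(ContinuousLinearMap.id ℝ E3)) y :=
          (hasFDerivAt_id y).const_sub x
        have h10 : DifferentiableAt ℝ (eta n) (x - y) :=
          (eta_contDiff n (k := 1)).differentiable (by norm_num) _
        exact h10.hasFDerivAt.comp y h9
      rw [h8.fderiv]
      simp
    simp only [h7] at h6
    have h11 : ∫ t, ψ (x - t) * fderiv ℝ (eta n) t v =
        ∫ y, ψ y * fderiv ℝ (eta n) (x - y) v := by
      rw [← integral_sub_left_eq_self (fun y => ψ y * fderiv ℝ (eta n) (x - y) v) volume x]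
      simp
    have h12 : ∫ t, eta n t * inner ℝ (g (x - t)) v = ∫ y, inner ℝ (g y) v * eta n (x - y) := by
      rw [← integral_sub_left_eq_self (fun y => inner ℝ (g y) v * eta n (x - y)) volume x]
      simp [mul_comm]
    rw [h11, h12]
    have h13 : ∫ y, ψ y * -fderiv ℝ (eta n) (x - y) v = - ∫ y, ψ y * fderiv ℝ (eta n) (x - y) v := by
      rw [← integral_neg]
      simp
    rw [h13] at h6
    linarith
  · exact (eta_contDiff n).comp (contDiff_const.sub contDiff_id)
  · exact (eta_supp n).comp_homeomorph (Homeomorph.subLeft x)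

/-! ### The key inequality -/

theorem key_ineq (ψ : E3 → ℝ) (g : E3 → E3) (hψ : MemLp ψ 2 volume) (hg : MemLp g 2 volume)
    (hw : WeakGrad ψ g) {A : ℝ} (hA : 0 < A) (h h' : ℝ → ℝ) (hh : ∀ s, HasDerivAt h (h' s) s)
    (hc' : Continuous h') (hh0 : ∀ s, 0 ≤ h s) (C : ℝ) (hC : 0 ≤ C) (h_le : ∀ s, h s ≤ C * s ^ 2)
    (h'_le : ∀ s, (h' s) ^ 2 / (4 * A) ≤ C * s ^ 2) (R : E3) :
    Integrable (fun x => h (ψ x) / ‖x - R‖) ∧
    2 * ∫ x, h (ψ x) / ‖x - R‖ ≤ A * (∫ x, ‖g x‖ ^ 2) + ∫ x, (h' (ψ x)) ^ 2 / (4 * A) := by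
  have hhc : Continuous h := continuous_iff_continuousAt.2 (fun s => (hh s).continuousAt)
  have hψl : LocallyIntegrable ψ volume := hψ.locallyIntegrable (by norm_num)
  have hψ2 : Integrable (fun x => ψ x ^ 2) := hψ.integrable_sq
  have hg2 : Integrable (fun x => ‖g x‖ ^ 2) := hg.integrable_norm_pow (by norm_num)
  have hψm : AEStronglyMeasurable ψ volume := hψ.1
  -- bound for the gradient of the mollification
  have hgrad : ∀ n x, ‖fderiv ℝ (moll n ψ) x‖ ^ 2 ≤ moll n (fun y => ‖g y‖ ^ 2) x := by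
    intro n x
    have hnn : 0 ≤ moll n (fun y => ‖g y‖ ^ 2) x := by
      rw [moll_apply]
      exact integral_nonneg (fun t => mul_nonneg (eta_nonneg n t) (sq_nonneg _))
    have hle : ‖fderiv ℝ (moll n ψ) x‖ ≤ Real.sqrt (moll n (fun y => ‖g y‖ ^ 2) x) := by
      apply ContinuousLinearMap.opNorm_le_bound _ (Real.sqrt_nonneg _)
      intro v
      rw [fderiv_moll n ψ g hψl hw x v, Real.norm_eq_abs]
      have hi : MemLp (fun y => inner ℝ (g y) v) 2 volume := by
        refine MemLp.of_le_mul (c := ‖v‖) hg ?_ ?_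
        · exact hg.1.inner aestronglyMeasurable_const
        · apply Eventually.of_forall
          intro y
          rw [mul_comm]
          exact norm_inner_le_norm _ _
      have h1 := jensen n (fun y => inner ℝ (g y) v) (hi.locallyIntegrable (by norm_num))
        hi.integrable_sq.locallyIntegrable x
      have h2 : moll n (fun y => (inner ℝ (g y) v : ℝ) ^ 2) x ≤
          ‖v‖ ^ 2 * moll n (fun y => ‖g y‖ ^ 2) x := by
        rw [moll_apply, moll_apply, ← integral_const_mul]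
        apply integral_mono
        · exact conv_integrable n _ hi.integrable_sq.locallyIntegrable x
        · exact (conv_integrable n _ hg2.locallyIntegrable x).const_mul _
        · intro t
          simp only
          have h3 : (inner ℝ (g (x - t)) v : ℝ) ^ 2 ≤ ‖g (x - t)‖ ^ 2 * ‖v‖ ^ 2 := by
            rw [← sq_abs, ← mul_pow]
            exact pow_le_pow_left₀ (abs_nonneg _) (abs_real_inner_le_norm _ _) 2
          calc eta n t * (inner ℝ (g (x - t)) v : ℝ) ^ 2
              ≤ eta n t * (‖g (x - t)‖ ^ 2 * ‖v‖ ^ 2) :=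
                mul_le_mul_of_nonneg_left h3 (eta_nonneg n t)
            _ = ‖v‖ ^ 2 * (eta n t * ‖g (x - t)‖ ^ 2) := by ring
      rw [← Real.sqrt_sq_eq_abs]
      calc Real.sqrt ((moll n (fun y => inner ℝ (g y) v) x) ^ 2)
          ≤ Real.sqrt (‖v‖ ^ 2 * moll n (fun y => ‖g y‖ ^ 2) x) :=
            Real.sqrt_le_sqrt (h1.trans h2)
        _ = Real.sqrt (moll n (fun y => ‖g y‖ ^ 2) x) * ‖v‖ := by
            rw [Real.sqrt_mul (sq_nonneg _), Real.sqrt_sq (norm_nonneg _), mul_comm]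
    calc ‖fderiv ℝ (moll n ψ) x‖ ^ 2 ≤ (Real.sqrt (moll n (fun y => ‖g y‖ ^ 2) x)) ^ 2 :=
          pow_le_pow_left₀ (norm_nonneg _) hle 2
      _ = _ := Real.sq_sqrt hnn
  have hmoll2 : ∀ n x, (moll n ψ x) ^ 2 ≤ moll n (fun y => ψ y ^ 2) x := fun n x =>
    jensen n ψ hψl hψ2.locallyIntegrable x
  -- the functions entering Fatou
  let δ : ℕ → ℝ := fun n => 1 / ((n : ℝ) + 1)
  have hδ : ∀ n, 0 < δ n := fun n => by simp only [δ]; positivity
  let W : ℝ → ℝ := fun s => C * s ^ 2 - (h' s) ^ 2 / (4 * A)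
  have hW0 : ∀ s, 0 ≤ W s := fun s => by simp only [W]; linarith [h'_le s]
  have hWc : Continuous W := by simp only [W]; fun_prop
  let F : ℕ → E3 → ℝ := fun n x => 2 * (h (moll n ψ x) / rd R (δ n) x) + W (moll n ψ x)
  have hcont : ∀ n, Continuous (moll n ψ) := fun n =>
    (moll_contDiff n ψ hψl (k := 0)).continuous
  have hdiff : ∀ n, Differentiable ℝ (moll n ψ) := fun n =>
    (moll_contDiff n ψ hψl (k := 1)).differentiable (by norm_num)
  have hsqint : ∀ n, Integrable (fun x => (moll n ψ x) ^ 2) := by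
    intro n
    apply (moll_integrable n _ hψ2).mono' ((hcont n).pow 2).aestronglyMeasurable
    apply Eventually.of_forall
    intro x
    rw [Real.norm_eq_abs, abs_of_nonneg (sq_nonneg _)]
    exact hmoll2 n x
  have hwint : ∀ n, Integrable (fun x => (h' (moll n ψ x)) ^ 2 / (4 * A)) := by
    intro n
    apply ((hsqint n).const_mul C).mono' _
    · apply Eventually.of_forall
      intro x
      rw [Real.norm_eq_abs, abs_of_nonneg (by positivity)]
      exact h'_le _
    · exact (((hc'.comp (hcont n)).pow 2).div_const _).aestronglyMeasurable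
  have hmain : ∀ n, Integrable (F n) ∧ ∫ x, F n x ≤ A * (∫ x, ‖g x‖ ^ 2) + C * ∫ x, ψ x ^ 2 := by
    intro n
    let f : E3 → ℝ := fun x => h (moll n ψ x)
    have hfd : ∀ x, HasFDerivAt f (h' (moll n ψ x) • fderiv ℝ (moll n ψ) x) x := fun x =>
      (hh (moll n ψ x)).comp_hasFDerivAt x (hdiff n x).hasFDerivAt
    have hfint : Integrable f := by
      apply ((hsqint n).const_mul C).mono' (hhc.comp (hcont n)).aestronglyMeasurable
      apply Eventually.of_forall
      intro x
      show ‖h (moll n ψ x)‖ ≤ _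
      rw [Real.norm_eq_abs, abs_of_nonneg (hh0 _)]
      exact h_le _
    have hbd : ∀ x, ‖fderiv ℝ f x‖ ≤ A * moll n (fun y => ‖g y‖ ^ 2) x +
        (h' (moll n ψ x)) ^ 2 / (4 * A) := by
      intro x
      rw [(hfd x).fderiv, norm_smul, Real.norm_eq_abs]
      have h1 := hgrad n x
      have h2 : |h' (moll n ψ x)| * ‖fderiv ℝ (moll n ψ) x‖ ≤
          A * ‖fderiv ℝ (moll n ψ) x‖ ^ 2 + (h' (moll n ψ x)) ^ 2 / (4 * A) := by
        rw [← sq_abs (h' (moll n ψ x))]
        set a := |h' (moll n ψ x)|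
        set b := ‖fderiv ℝ (moll n ψ) x‖
        have h3 : A * b ^ 2 + a ^ 2 / (4 * A) - a * b = (2 * A * b - a) ^ 2 / (4 * A) := by
          field_simp
          ring
        have h4 : 0 ≤ (2 * A * b - a) ^ 2 / (4 * A) := by positivity
        linarith
      have h5 := mul_le_mul_of_nonneg_left h1 hA.le
      linarith
    have hgint : Integrable (fun x => A * moll n (fun y => ‖g y‖ ^ 2) x +
        (h' (moll n ψ x)) ^ 2 / (4 * A)) :=
      ((moll_integrable n _ hg2).const_mul A).add (hwint n)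
    have hfdi : Integrable (fun x => fderiv ℝ f x) := by
      apply hgint.mono' _ (Eventually.of_forall hbd)
      have : fderiv ℝ f = fun x => h' (moll n ψ x) • fderiv ℝ (moll n ψ) x := by
        funext x; exact (hfd x).fderiv
      rw [this]
      apply Continuous.aestronglyMeasurable
      exact (hc'.comp (hcont n)).smul
        ((moll_contDiff n ψ hψl (k := 1)).continuous_fderiv (by norm_num))
    have h1 := smooth_ineq f (fun x => (hfd x).differentiableAt) (fun x => hh0 _) hfint hfdi R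
      (hδ n)
    have h2 : ∫ x, ‖fderiv ℝ f x‖ ≤ A * (∫ x, ‖g x‖ ^ 2) +
        ∫ x, (h' (moll n ψ x)) ^ 2 / (4 * A) := by
      calc ∫ x, ‖fderiv ℝ f x‖ ≤ ∫ x, (A * moll n (fun y => ‖g y‖ ^ 2) x +
            (h' (moll n ψ x)) ^ 2 / (4 * A)) := integral_mono hfdi.norm hgint hbd
        _ = _ := by
            rw [integral_add ((moll_integrable n _ hg2).const_mul A) (hwint n),
              integral_const_mul, moll_integral n _ hg2]
    have hi1 : Integrable (fun x => h (moll n ψ x) / rd R (δ n) x) := by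
      have := Integrable.mul_bdd (c := 1 / δ n) hfint (g := fun x => 1 / rd R (δ n) x)
        (continuous_const.div (rd_continuous R (δ n))
          (fun x => (rd_pos R (hδ n) x).ne')).aestronglyMeasurable
        (Eventually.of_forall (fun x => by
          rw [Real.norm_eq_abs, abs_of_pos (by have := rd_pos R (hδ n) x; positivity)]
          exact one_div_le_one_div_of_le (hδ n) (rd_ge R (hδ n) x)))
      refine this.congr (Eventually.of_forall (fun x => ?_))
      simp only [f]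
      ring
    have hi2 : Integrable (fun x => W (moll n ψ x)) := ((hsqint n).const_mul C).sub (hwint n)
    refine ⟨(hi1.const_mul 2).add hi2, ?_⟩
    have h3 : ∫ x, F n x = 2 * (∫ x, h (moll n ψ x) / rd R (δ n) x) +
        (C * (∫ x, (moll n ψ x) ^ 2) - ∫ x, (h' (moll n ψ x)) ^ 2 / (4 * A)) := by
      simp only [F]
      rw [integral_add (hi1.const_mul 2) hi2, integral_const_mul]
      congr 1
      simp only [W]
      rw [integral_sub ((hsqint n).const_mul C) (hwint n), integral_const_mul]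
    have h4 : ∫ x, (moll n ψ x) ^ 2 ≤ ∫ x, ψ x ^ 2 := by
      rw [← moll_integral n _ hψ2]
      exact integral_mono (hsqint n) (moll_integrable n _ hψ2) (hmoll2 n)
    have h5 := mul_le_mul_of_nonneg_left h4 hC
    rw [h3]
    linarith
  -- pointwise limit
  let G : E3 → ℝ := fun x => 2 * (h (ψ x) / ‖x - R‖) + W (ψ x)
  have hG0 : ∀ x, 0 ≤ G x := fun x => by
    have := hh0 (ψ x)
    have := hW0 (ψ x)
    simp only [G]
    positivity
  have hF0 : ∀ n x, 0 ≤ F n x := fun n x => by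
    have := hh0 (moll n ψ x)
    have := hW0 (moll n ψ x)
    have := rd_pos R (hδ n) x
    simp only [F]
    positivity
  have hlim : ∀ᵐ x, Tendsto (fun n => F n x) atTop (𝓝 (G x)) := by
    have hR : ∀ᵐ x : E3, x ≠ R := by
      rw [ae_iff]
      simp
    filter_upwards [moll_tendsto ψ hψl, hR] with x hx hxR
    have hn : ‖x - R‖ ≠ 0 := norm_ne_zero_iff.2 (sub_ne_zero.2 hxR)
    have h1 : Tendsto (fun n => rd R (δ n) x) atTop (𝓝 ‖x - R‖) := by
      have h2 : Tendsto (fun n => ‖x - R‖ ^ 2 + δ n ^ 2) atTop (𝓝 (‖x - R‖ ^ 2 + 0 ^ 2)) :=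
        (tendsto_one_div_add_atTop_nhds_zero_nat.pow 2).const_add _
      have h3 := (Real.continuous_sqrt.tendsto _).comp h2
      have h4 : Real.sqrt (‖x - R‖ ^ 2 + 0 ^ 2) = ‖x - R‖ := by
        rw [show ‖x - R‖ ^ 2 + 0 ^ 2 = ‖x - R‖ ^ 2 by ring]
        exact Real.sqrt_sq (norm_nonneg _)
      rw [h4] at h3
      exact h3
    have h5 : Tendsto (fun n => h (moll n ψ x)) atTop (𝓝 (h (ψ x))) :=
      (hhc.tendsto _).comp hx
    have h6 : Tendsto (fun n => W (moll n ψ x)) atTop (𝓝 (W (ψ x))) :=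
      (hWc.tendsto _).comp hx
    exact ((h5.div h1 hn).const_mul 2).add h6
  have hGm : AEStronglyMeasurable G volume := by
    simp only [G]
    apply AEStronglyMeasurable.add
    · apply AEStronglyMeasurable.const_mul
      apply AEStronglyMeasurable.div₀
      · exact hhc.comp_aestronglyMeasurable hψm
      · exact (by fun_prop : Continuous fun x : E3 => ‖x - R‖).aestronglyMeasurable
    · exact hWc.comp_aestronglyMeasurable hψm
  have hfatou : ∫⁻ x, ENNReal.ofReal (G x) ≤
      ENNReal.ofReal (A * (∫ x, ‖g x‖ ^ 2) + C * ∫ x, ψ x ^ 2) := by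
    have h1 : ∫⁻ x, ENNReal.ofReal (G x) = ∫⁻ x, liminf (fun n => ENNReal.ofReal (F n x)) atTop := by
      apply lintegral_congr_ae
      filter_upwards [hlim] with x hx
      exact ((ENNReal.continuous_ofReal.tendsto _).comp hx).liminf_eq.symm
    rw [h1]
    refine (lintegral_liminf_le' (fun n => ?_)).trans ?_
    · exact (hmain n).1.1.aemeasurable.ennreal_ofReal
    · apply Filter.liminf_le_of_frequently_le'
      apply Eventually.frequently
      apply Eventually.of_forall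
      intro n
      rw [← ofReal_integral_eq_lintegral_ofReal (hmain n).1 (Eventually.of_forall (hF0 n))]
      exact ENNReal.ofReal_le_ofReal (hmain n).2
  have hGi : Integrable G := by
    refine ⟨hGm, ?_⟩
    rw [hasFiniteIntegral_iff_ofReal (Eventually.of_forall hG0)]
    exact lt_of_le_of_lt hfatou ENNReal.ofReal_lt_top
  have hGle : ∫ x, G x ≤ A * (∫ x, ‖g x‖ ^ 2) + C * ∫ x, ψ x ^ 2 := by
    rw [← ofReal_integral_eq_lintegral_ofReal hGi (Eventually.of_forall hG0)] at hfatou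
    apply (ENNReal.ofReal_le_ofReal_iff _).1 hfatou
    have h1 : 0 ≤ ∫ x, ‖g x‖ ^ 2 := integral_nonneg (fun x => sq_nonneg _)
    have h2 : 0 ≤ ∫ x, ψ x ^ 2 := integral_nonneg (fun x => sq_nonneg _)
    positivity
  have hwψ : Integrable (fun x => (h' (ψ x)) ^ 2 / (4 * A)) := by
    apply (hψ2.const_mul C).mono' _
    · apply Eventually.of_forall
      intro x
      rw [Real.norm_eq_abs, abs_of_nonneg (by positivity)]
      exact h'_le _
    · exact (((hc'.pow 2).div_const (4 * A)).comp_aestronglyMeasurable hψm)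
  have hWψ : Integrable (fun x => W (ψ x)) := (hψ2.const_mul C).sub hwψ
  have hres : Integrable (fun x => h (ψ x) / ‖x - R‖) := by
    have h1 : Integrable (fun x => (1 / 2 : ℝ) * (G x - W (ψ x))) := (hGi.sub hWψ).const_mul _
    refine h1.congr (Eventually.of_forall (fun x => ?_))
    simp only [G]
    ring
  refine ⟨hres, ?_⟩
  have h1 : ∫ x, G x = 2 * (∫ x, h (ψ x) / ‖x - R‖) +
      (C * (∫ x, ψ x ^ 2) - ∫ x, (h' (ψ x)) ^ 2 / (4 * A)) := by
    simp only [G]
    rw [integral_add (hres.const_mul 2) hWψ, integral_const_mul]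
    congr 1
    simp only [W]
    rw [integral_sub (hψ2.const_mul C) hwψ, integral_const_mul]
  rw [h1] at hGle
  linarith

/-! ### The local term -/

/-- `Ψ(y) = y^M - M y + M - 1`. -/
noncomputable def Psi (M y : ℝ) : ℝ := y ^ M - M * y + M - 1

theorem Psi_nonneg {M : ℝ} (hM : 1 < M) {y : ℝ} (hy : 0 ≤ y) : 0 ≤ Psi M y := by
  have h := one_add_mul_self_le_rpow_one_add (s := y - 1) (by linarith) hM.le
  unfold Psi
  rw [show 1 + (y - 1) = y by ring] at h
  linarith

theorem Psi_pos {M : ℝ} (hM : 1 < M) {y : ℝ} (hy : 0 ≤ y) (hy1 : y ≠ 1) : 0 < Psi M y := by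
  have h := one_add_mul_self_lt_rpow_one_add (s := y - 1) (by linarith) (sub_ne_zero.2 hy1) hM
  unfold Psi
  rw [show 1 + (y - 1) = y by ring] at h
  linarith

theorem Psi_ge_two {M : ℝ} (hM : 1 < M) {y : ℝ} (hy : 2 ≤ y) : Psi M 2 ≤ Psi M y := by
  have h := one_add_mul_self_le_rpow_one_add (s := y / 2 - 1) (by linarith) hM.le
  rw [show 1 + (y / 2 - 1) = y / 2 by ring, Real.div_rpow (by linarith) (by norm_num)] at h
  have h2 : (0 : ℝ) < 2 ^ M := by positivity
  rw [le_div_iff₀ h2] at h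
  have h3 : (2 : ℝ) ≤ 2 ^ M := by
    calc (2 : ℝ) = 2 ^ (1 : ℝ) := (Real.rpow_one 2).symm
      _ ≤ 2 ^ M := Real.rpow_le_rpow_of_exponent_le (by norm_num) hM.le
  unfold Psi
  nlinarith [mul_nonneg (by linarith : (0 : ℝ) ≤ M) (by linarith : (0 : ℝ) ≤ y - 2)]

theorem Psi_le_half {M : ℝ} (hM : 1 < M) {y : ℝ} (hy0 : 0 ≤ y) (hy : y ≤ 1 / 2) :
    Psi M (1 / 2) ≤ Psi M y := by
  have h := one_add_mul_self_le_rpow_one_add (s := 2 * y - 1) (by linarith) hM.le
  rw [show 1 + (2 * y - 1) = 2 * y by ring, Real.mul_rpow (by norm_num) hy0] at h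
  have h2 : (0 : ℝ) < 2 ^ M := by positivity
  have h3 : (2 : ℝ) ≤ 2 ^ M := by
    calc (2 : ℝ) = 2 ^ (1 : ℝ) := (Real.rpow_one 2).symm
      _ ≤ 2 ^ M := Real.rpow_le_rpow_of_exponent_le (by norm_num) hM.le
  have h4 : (1 / 2 : ℝ) ^ M = (2 ^ M)⁻¹ := by
    rw [one_div, Real.inv_rpow (by norm_num)]
  have h5 : (2 ^ M)⁻¹ * (1 + M * (2 * y - 1)) ≤ y ^ M := by
    rw [inv_mul_le_iff₀ h2]
    exact h
  have h6 : (2 ^ M : ℝ)⁻¹ ≤ 1 / 2 := by
    rw [one_div]
    exact inv_anti₀ (by norm_num) h3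
  unfold Psi
  rw [h4]
  nlinarith [mul_nonneg (by linarith : (0 : ℝ) ≤ M) (by linarith : (0 : ℝ) ≤ 1 - 2 * y)]

/-- `J_α` in terms of `Ψ`. -/
theorem Jalpha_eq {γ Ce p : ℝ} (hγ : 0 < γ) (hCe : 0 < Ce) (hp : 4 / 3 < p) :
    ∃ u0 K0 : ℝ, 0 < u0 ∧ 0 < K0 ∧ ∀ t : ℝ, 0 ≤ t →
      Jalpha γ Ce p t = t * (K0 * Psi (3 * (p - 1)) (t ^ (1 / 3 : ℝ) / u0)) := by
  have hp1 : 0 < p - 1 := by linarith
  have hp4 : 0 < p - 4 / 3 := by linarith
  have hbase : 0 < Ce * p / (4 * γ * (p - 1)) := by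
    have : 0 < p := by linarith
    positivity
  have hr0 : 0 < rho0 γ Ce p := Real.rpow_pos_of_pos hbase _
  set u0 := rho0 γ Ce p ^ (1 / 3 : ℝ) with hu0
  have hu0pos : 0 < u0 := Real.rpow_pos_of_pos hr0 _
  have hpow : u0 ^ (3 * p - 4) = Ce * p / (4 * γ * (p - 1)) := by
    rw [hu0, ← Real.rpow_mul hr0.le]
    unfold rho0
    rw [← Real.rpow_mul hbase.le]
    rw [show 1 / (p - 4 / 3) * (1 / 3 * (3 * p - 4)) = 1 by
      rw [show 1 / 3 * (3 * p - 4) = p - 4 / 3 by ring, one_div, inv_mul_cancel₀ hp4.ne']]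
    exact Real.rpow_one _
  refine ⟨u0, Ce * u0 / (4 * (p - 1)), hu0pos, by positivity, ?_⟩
  intro t ht
  rcases ht.eq_or_lt with rfl | htpos
  · unfold Jalpha
    rw [Real.zero_rpow (by linarith), Real.zero_rpow (by norm_num)]
    ring
  set u := t ^ (1 / 3 : ℝ) with hu
  have hupos : 0 < u := Real.rpow_pos_of_pos htpos _
  have e1 : t ^ p = t * u ^ (3 * (p - 1)) := by
    rw [hu, ← Real.rpow_mul ht]
    rw [show 1 / 3 * (3 * (p - 1)) = p - 1 by ring]
    rw [Real.rpow_sub htpos, Real.rpow_one]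
    field_simp
  have e2 : t ^ (4 / 3 : ℝ) = t * u := by
    rw [hu]
    nth_rewrite 2 [← Real.rpow_one t]
    rw [← Real.rpow_add htpos]
    norm_num
  have e3 : u0 ^ (3 * (p - 1)) = u0 * (Ce * p / (4 * γ * (p - 1))) := by
    rw [← hpow]
    nth_rewrite 2 [← Real.rpow_one u0]
    rw [← Real.rpow_add hu0pos]
    congr 1
    ring
  have hal : alpha γ Ce p = (3 * p - 4) / (4 * (p - 1)) * u0 * Ce := rfl
  unfold Jalpha Psi
  rw [e1, e2, hal, Real.div_rpow hupos.le hu0pos.le, e3]
  have hp0 : p ≠ 0 := by linarith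
  field_simp
  ring

/-- The auxiliary function `h`. -/
theorem exists_h {A γ Ce p : ℝ} (hA : 0 < A) (hγ : 0 < γ) (hCe : 0 < Ce) (hp : 4 / 3 < p) :
    ∃ (κ C : ℝ) (h h' : ℝ → ℝ), 0 < κ ∧ 0 ≤ C ∧ (∀ s, HasDerivAt h (h' s) s) ∧ Continuous h' ∧
      (∀ s, 0 ≤ h s) ∧ (∀ s, h s ≤ C * s ^ 2) ∧ (∀ s, (h' s) ^ 2 / (4 * A) ≤ C * s ^ 2) ∧
      (∀ s, κ * s ^ 2 ≤ h s) ∧ (∀ s, (h' s) ^ 2 / (4 * A) ≤ Jalpha γ Ce p (s ^ 2)) := by
  obtain ⟨u0, K0, hu0, hK0, hJ⟩ := Jalpha_eq hγ hCe hp
  set M := 3 * (p - 1) with hM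
  have hM1 : 1 < M := by rw [hM]; linarith
  set m := min (Psi M (1 / 2)) (Psi M 2) with hm
  have hmpos : 0 < m := lt_min (Psi_pos hM1 (by norm_num) (by norm_num))
    (Psi_pos hM1 (by norm_num) (by norm_num))
  let y : ℝ → ℝ := fun r => |r| ^ (1 / 3 : ℝ) / u0
  let η : ℝ → ℝ := fun r => min 1 (Psi M (y r) / m)
  have hy0 : ∀ r, 0 ≤ y r := fun r => by simp only [y]; positivity
  have hyc : Continuous y := by
    simp only [y]
    exact (continuous_abs.rpow_const (fun _ => Or.inr (by norm_num))).div_const _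
  have hηc : Continuous η := by
    simp only [η]
    apply continuous_const.min
    apply Continuous.div_const
    unfold Psi
    exact ((((hyc.rpow_const (fun _ => Or.inr (by linarith))).sub
      (continuous_const.mul hyc)).add continuous_const).sub continuous_const)
  have hη0 : ∀ r, 0 ≤ η r := fun r => le_min zero_le_one
    (div_nonneg (Psi_nonneg hM1 (hy0 r)) hmpos.le)
  have hη1 : ∀ r, η r ≤ 1 := fun r => min_le_left _ _
  have hηΨ : ∀ r, η r ≤ Psi M (y r) / m := fun r => min_le_right _ _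
  have hηeq : ∀ r, (y r ≤ 1 / 2 ∨ 2 ≤ y r) → η r = 1 := by
    intro r hr
    apply min_eq_left
    rw [le_div_iff₀ hmpos, one_mul]
    rcases hr with h | h
    · exact (min_le_left _ _).trans (Psi_le_half hM1 (hy0 r) h)
    · exact (min_le_right _ _).trans (Psi_ge_two hM1 h)
  let t1 : ℝ := (u0 / 2) ^ 3
  let t2 : ℝ := (2 * u0) ^ 3
  have ht1 : 0 < t1 := by positivity
  have ht12 : t2 = 64 * t1 := by simp only [t1, t2]; ring
  have hcube : ∀ a : ℝ, 0 ≤ a → (a ^ 3) ^ (1 / 3 : ℝ) = a := by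
    intro a ha
    rw [← Real.rpow_natCast, ← Real.rpow_mul ha]
    norm_num
  have hr1 : ∀ r, 0 ≤ r → r ≤ t1 → η r = 1 := by
    intro r hr0 hr
    apply hηeq
    left
    simp only [y]
    rw [abs_of_nonneg hr0, div_le_iff₀ hu0]
    calc r ^ (1 / 3 : ℝ) ≤ t1 ^ (1 / 3 : ℝ) := Real.rpow_le_rpow hr0 hr (by norm_num)
      _ = u0 / 2 := hcube _ (by positivity)
      _ = 1 / 2 * u0 := by ring
  have hr2 : ∀ r, t2 ≤ r → η r = 1 := by
    intro r hr
    have hr0 : 0 ≤ r := by
      have : 0 ≤ t2 := by simp only [t2]; positivity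
      linarith
    apply hηeq
    right
    simp only [y]
    rw [abs_of_nonneg hr0, le_div_iff₀ hu0]
    calc 2 * u0 = t2 ^ (1 / 3 : ℝ) := (hcube _ (by positivity)).symm
      _ ≤ r ^ (1 / 3 : ℝ) := Real.rpow_le_rpow (by simp only [t2]; positivity) hr (by norm_num)
  let H : ℝ → ℝ := fun t => ∫ r in (0 : ℝ)..t, η r
  have hHd : ∀ t, HasDerivAt H (η t) t := fun t =>
    intervalIntegral.integral_hasDerivAt_right (hηc.intervalIntegrable _ _)
      (hηc.stronglyMeasurableAtFilter _ _) hηc.continuousAt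
  have hint : ∀ a b : ℝ, IntervalIntegrable η volume a b := fun a b => hηc.intervalIntegrable _ _
  have hH0 : ∀ t, 0 ≤ t → 0 ≤ H t := fun t ht =>
    intervalIntegral.integral_nonneg ht (fun r _ => hη0 r)
  have hHle : ∀ t, 0 ≤ t → H t ≤ t := by
    intro t ht
    have : H t ≤ ∫ r in (0 : ℝ)..t, (1 : ℝ) :=
      intervalIntegral.integral_mono_on ht (hint _ _) (by simp) (fun r _ => hη1 r)
    simpa using this
  have hHone : ∀ a b : ℝ, a ≤ b → (∀ r ∈ Set.Icc a b, η r = 1) → ∫ r in a..b, η r = b - a := by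
    intro a b hab h1
    have : ∫ r in a..b, η r = ∫ r in a..b, (1 : ℝ) := by
      apply intervalIntegral.integral_congr
      intro r hr
      rw [Set.uIcc_of_le hab] at hr
      exact h1 r hr
    rw [this]
    simp
  have hHge : ∀ t, 0 ≤ t → t / 64 ≤ H t := by
    intro t ht
    by_cases c1 : t ≤ t1
    · have : H t = t - 0 := hHone 0 t ht (fun r hr => hr1 r hr.1 (hr.2.trans c1))
      rw [this]
      linarith
    push Not at c1
    have e1 : ∫ r in (0 : ℝ)..t1, η r = t1 - 0 := hHone 0 t1 ht1.le (fun r hr => hr1 r hr.1 hr.2)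
    by_cases c2 : t ≤ t2
    · have e2 : H t = (∫ r in (0 : ℝ)..t1, η r) + ∫ r in t1..t, η r :=
        (intervalIntegral.integral_add_adjacent_intervals (hint _ _) (hint _ _)).symm
      have e3 : 0 ≤ ∫ r in t1..t, η r :=
        intervalIntegral.integral_nonneg c1.le (fun r _ => hη0 r)
      rw [e2, e1]
      linarith
    · push Not at c2
      have e2 : H t = (∫ r in (0 : ℝ)..t1, η r) + ∫ r in t1..t, η r :=
        (intervalIntegral.integral_add_adjacent_intervals (hint _ _) (hint _ _)).symm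
      have e4 : ∫ r in t1..t, η r = (∫ r in t1..t2, η r) + ∫ r in t2..t, η r :=
        (intervalIntegral.integral_add_adjacent_intervals (hint _ _) (hint _ _)).symm
      have e3 : 0 ≤ ∫ r in t1..t2, η r :=
        intervalIntegral.integral_nonneg (by linarith) (fun r _ => hη0 r)
      have e5 : ∫ r in t2..t, η r = t - t2 := hHone t2 t c2.le (fun r hr => hr2 r hr.1)
      rw [e2, e1, e4, e5]
      linarith
  set κ := Real.sqrt (A * m * K0) with hκ
  have hκpos : 0 < κ := Real.sqrt_pos.2 (by positivity)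
  have hκsq : κ ^ 2 = A * m * K0 := Real.sq_sqrt (by positivity)
  refine ⟨κ / 64, κ + κ ^ 2 / A, fun s => κ * H (s ^ 2), fun s => κ * (η (s ^ 2) * (2 * s)),
    by positivity, by positivity, ?_, ?_, ?_, ?_, ?_, ?_, ?_⟩
  · intro s
    have h1 : HasDerivAt (fun s : ℝ => s ^ 2) (2 * s) s := by
      simpa using hasDerivAt_pow 2 s
    exact ((hHd (s ^ 2)).comp s h1).const_mul κ
  · exact continuous_const.mul ((hηc.comp (continuous_pow 2)).mul (continuous_const.mul continuous_id))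
  · intro s
    exact mul_nonneg hκpos.le (hH0 _ (sq_nonneg s))
  · intro s
    have h1 := mul_le_mul_of_nonneg_left (hHle _ (sq_nonneg s)) hκpos.le
    have h2 : 0 ≤ κ ^ 2 / A * s ^ 2 := by positivity
    simp only
    nlinarith
  · intro s
    have h1 : (κ * (η (s ^ 2) * (2 * s))) ^ 2 / (4 * A) = κ ^ 2 / A * (η (s ^ 2) ^ 2 * s ^ 2) := by
      field_simp
      ring
    have h2 : η (s ^ 2) ^ 2 ≤ 1 := pow_le_one₀ (hη0 _) (hη1 _)
    have h3 : η (s ^ 2) ^ 2 * s ^ 2 ≤ 1 * s ^ 2 := mul_le_mul_of_nonneg_right h2 (sq_nonneg s)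
    have h4 := mul_le_mul_of_nonneg_left h3 (by positivity : 0 ≤ κ ^ 2 / A)
    have h5 : 0 ≤ κ * s ^ 2 := by positivity
    simp only
    rw [h1]
    nlinarith
  · intro s
    have h1 := mul_le_mul_of_nonneg_left (hHge _ (sq_nonneg s)) hκpos.le
    simp only
    linarith
  · intro s
    have h1 : (κ * (η (s ^ 2) * (2 * s))) ^ 2 / (4 * A) = κ ^ 2 / A * (η (s ^ 2) ^ 2 * s ^ 2) := by
      field_simp
      ring
    simp only
    rw [h1, hJ _ (sq_nonneg s), hκsq]
    have h2 : η (s ^ 2) ^ 2 ≤ Psi M (y (s ^ 2)) / m := by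
      have := hη1 (s ^ 2)
      have := hη0 (s ^ 2)
      have := hηΨ (s ^ 2)
      nlinarith
    have h3 : y (s ^ 2) = (s ^ 2) ^ (1 / 3 : ℝ) / u0 := by
      simp only [y]
      rw [abs_of_nonneg (sq_nonneg s)]
    rw [h3] at h2
    set P := Psi M ((s ^ 2) ^ (1 / 3 : ℝ) / u0)
    calc A * m * K0 / A * (η (s ^ 2) ^ 2 * s ^ 2) = (m * K0) * (η (s ^ 2) ^ 2 * s ^ 2) := by
          field_simp
      _ ≤ (m * K0) * (P / m * s ^ 2) := by
          apply mul_le_mul_of_nonneg_left _ (by positivity)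
          exact mul_le_mul_of_nonneg_right h2 (sq_nonneg s)
      _ = s ^ 2 * (K0 * P) := by field_simp

/-! ### The energy -/

theorem Jalpha_integrable {γ Ce p : ℝ} (hγ : 0 < γ) (hCe : 0 < Ce) (hp : 4 / 3 < p)
    (ψ : E3 → ℝ) (hψ : MemLp ψ 2 volume) (hψp : MemLp ψ (ENNReal.ofReal (2 * p)) volume) :
    Integrable (fun x => Jalpha γ Ce p (ψ x ^ 2)) := by
  obtain ⟨u0, K0, hu0, hK0, hJ⟩ := Jalpha_eq hγ hCe hp
  have hM1 : 1 < 3 * (p - 1) := by linarith
  have hJ0 : ∀ t, 0 ≤ t → 0 ≤ Jalpha γ Ce p t := by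
    intro t ht
    rw [hJ t ht]
    have := Psi_nonneg hM1 (y := t ^ (1 / 3 : ℝ) / u0) (by positivity)
    positivity
  have h1 : Integrable (fun x => ‖ψ x‖ ^ (2 * p)) := by
    have := hψp.integrable_norm_rpow (by simp; linarith) ENNReal.ofReal_ne_top
    rwa [ENNReal.toReal_ofReal (by linarith)] at this
  have h2 : Integrable (fun x => ψ x ^ 2) := hψ.integrable_sq
  have h3 : Integrable (fun x => γ / p * ‖ψ x‖ ^ (2 * p) + |alpha γ Ce p| * ψ x ^ 2) :=
    (h1.const_mul _).add (h2.const_mul _)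
  refine h3.mono' ?_ ?_
  · have hc : Continuous (fun s : ℝ => Jalpha γ Ce p (s ^ 2)) := by
      unfold Jalpha
      apply Continuous.add
      · apply Continuous.sub
        · exact continuous_const.mul ((continuous_pow 2).rpow_const
            (fun _ => Or.inr (by linarith)))
        · exact continuous_const.mul ((continuous_pow 2).rpow_const
            (fun _ => Or.inr (by norm_num)))
      · exact continuous_const.mul (continuous_pow 2)
    exact hc.comp_aestronglyMeasurable hψ.1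
  · apply Eventually.of_forall
    intro x
    rw [Real.norm_eq_abs, abs_of_nonneg (hJ0 _ (sq_nonneg _))]
    have h4 : (ψ x ^ 2) ^ p = ‖ψ x‖ ^ (2 * p) := by
      rw [Real.norm_eq_abs, ← sq_abs, ← Real.rpow_natCast, ← Real.rpow_mul (abs_nonneg _)]
      norm_num
    unfold Jalpha
    rw [h4]
    have h5 : 0 ≤ 3 * Ce / 4 * (ψ x ^ 2) ^ (4 / 3 : ℝ) := by positivity
    have h6 : alpha γ Ce p * ψ x ^ 2 ≤ |alpha γ Ce p| * ψ x ^ 2 :=
      mul_le_mul_of_nonneg_right (le_abs_self _) (sq_nonneg _)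
    linarith

theorem D_nonneg (f : E3 → ℝ) (hf : ∀ x, 0 ≤ f x) : 0 ≤ D f f := by
  unfold D
  apply mul_nonneg (by norm_num)
  apply integral_nonneg
  intro x
  apply integral_nonneg
  intro y
  exact div_nonneg (mul_nonneg (hf x) (hf y)) (norm_nonneg _)

/-- Lower bound of the energy for small total charge. -/
theorem energy_ge {A γ Ce p : ℝ} (hA : 0 < A) (hγ : 0 < γ) (hCe : 0 < Ce) (hp : 4 / 3 < p) :
    ∃ Z0 : ℝ, 0 < Z0 ∧ ∀ N : Nuclei, N.Z < Z0 → ∀ ψ g, Admissible p ψ g →
      N.U ≤ energy A γ Ce p N ψ g := by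
  obtain ⟨κ, C, h, h', hκ, hC, hh, hc', hh0, h_le, h'_le, hκh, hJ⟩ := exists_h hA hγ hCe hp
  refine ⟨2 * κ, by positivity, ?_⟩
  rintro N hN ψ g ⟨hψ, hψp, hg, hw⟩
  have hJi := Jalpha_integrable hγ hCe hp ψ hψ hψp
  have hψ2 : Integrable (fun x => ψ x ^ 2) := hψ.integrable_sq
  set T := A * (∫ x, ‖g x‖ ^ 2) + ∫ x, Jalpha γ Ce p (ψ x ^ 2) with hT
  have hkey : ∀ R : E3, Integrable (fun x => ψ x ^ 2 / ‖x - R‖) ∧
      2 * κ * ∫ x, ψ x ^ 2 / ‖x - R‖ ≤ T := by
    intro R
    obtain ⟨h1, h2⟩ := key_ineq ψ g hψ hg hw hA h h' hh hc' hh0 C hC h_le h'_le R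
    have h3 : Integrable (fun x => ψ x ^ 2 / ‖x - R‖) := by
      refine (h1.const_mul κ⁻¹).mono' ?_ ?_
      · apply AEStronglyMeasurable.div₀
        · exact (continuous_pow 2).comp_aestronglyMeasurable hψ.1
        · exact (by fun_prop : Continuous fun x : E3 => ‖x - R‖).aestronglyMeasurable
      · apply Eventually.of_forall
        intro x
        rw [Real.norm_eq_abs, abs_of_nonneg (by positivity), ← mul_div_assoc]
        apply div_le_div_of_nonneg_right _ (norm_nonneg _)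
        rw [le_inv_mul_iff₀ hκ]
        exact hκh _
    refine ⟨h3, ?_⟩
    have h4 : κ * ∫ x, ψ x ^ 2 / ‖x - R‖ ≤ ∫ x, h (ψ x) / ‖x - R‖ := by
      rw [← integral_const_mul]
      apply integral_mono (h3.const_mul κ) h1
      intro x
      simp only
      rw [← mul_div_assoc]
      exact div_le_div_of_nonneg_right (hκh _) (norm_nonneg _)
    have h5 : ∫ x, (h' (ψ x)) ^ 2 / (4 * A) ≤ ∫ x, Jalpha γ Ce p (ψ x ^ 2) := by
      apply integral_mono _ hJi (fun x => hJ (ψ x))
      refine (hψ2.const_mul C).mono' ?_ ?_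
      · exact (((hc'.pow 2).div_const (4 * A)).comp_aestronglyMeasurable hψ.1)
      · apply Eventually.of_forall
        intro x
        rw [Real.norm_eq_abs, abs_of_nonneg (by positivity)]
        exact h'_le _
    linarith
  have hT0 : 0 ≤ T := by
    have h1 := (hkey 0).2
    have h2 : 0 ≤ ∫ x, ψ x ^ 2 / ‖x - (0 : E3)‖ := integral_nonneg (fun x => by positivity)
    have h3 : 0 ≤ 2 * κ * ∫ x, ψ x ^ 2 / ‖x - (0 : E3)‖ := by positivity
    linarith
  have hV : ∫ x, N.V x * ψ x ^ 2 = ∑ j, N.z j * ∫ x, ψ x ^ 2 / ‖x - N.R j‖ := by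
    have h1 : ∀ x, N.V x * ψ x ^ 2 = ∑ j, N.z j * (ψ x ^ 2 / ‖x - N.R j‖) := by
      intro x
      unfold Nuclei.V
      rw [Finset.sum_mul]
      apply Finset.sum_congr rfl
      intro j _
      ring
    simp only [h1]
    rw [integral_finsetSum _ (fun j _ => (hkey (N.R j)).1.const_mul _)]
    apply Finset.sum_congr rfl
    intro j _
    rw [integral_const_mul]
  have hVle : ∫ x, N.V x * ψ x ^ 2 ≤ T := by
    rw [hV]
    have h1 : ∀ j, N.z j * ∫ x, ψ x ^ 2 / ‖x - N.R j‖ ≤ N.z j * (T / (2 * κ)) := by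
      intro j
      apply mul_le_mul_of_nonneg_left _ (N.z_pos j).le
      rw [le_div_iff₀ (by positivity)]
      have := (hkey (N.R j)).2
      linarith
    calc ∑ j, N.z j * ∫ x, ψ x ^ 2 / ‖x - N.R j‖ ≤ ∑ j, N.z j * (T / (2 * κ)) :=
          Finset.sum_le_sum (fun j _ => h1 j)
      _ = N.Z * (T / (2 * κ)) := by rw [← Finset.sum_mul]; rfl
      _ ≤ 2 * κ * (T / (2 * κ)) := mul_le_mul_of_nonneg_right hN.le (by positivity)
      _ = T := by field_simp
  have hD := D_nonneg (fun x => ψ x ^ 2) (fun x => sq_nonneg _)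
  unfold energy
  linarith

theorem admissible_zero (p : ℝ) : Admissible p (fun _ => 0) (fun _ => 0) := by
  refine ⟨MemLp.zero', MemLp.zero', MemLp.zero', ?_⟩
  intro φ _ _ v
  simp

theorem energy_zero {A γ Ce p : ℝ} (hp : 4 / 3 < p) (N : Nuclei) :
    energy A γ Ce p N (fun _ => 0) (fun _ => 0) = N.U := by
  have hJ : Jalpha γ Ce p 0 = 0 := by
    unfold Jalpha
    rw [Real.zero_rpow (by linarith), Real.zero_rpow (by norm_num)]
    ring
  simp [energy, D, hJ]

theorem main {A γ Ce p : ℝ} (hA : 0 < A) (hγ : 0 < γ) (hCe : 0 < Ce) (hp : 4 / 3 < p) :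
    ∃ Z0 : ℝ, 0 < Z0 ∧ ∀ N : Nuclei, N.Z < Z0 →
      Emin A γ Ce p N 0 = (N.U : EReal) ∧ (∀ lam : ℝ, (N.U : EReal) ≤ Emin A γ Ce p N lam) ∧
      IsAbsMin A γ Ce p N 0 := by
  obtain ⟨Z0, hZ0, hmain⟩ := energy_ge hA hγ hCe hp
  refine ⟨Z0, hZ0, ?_⟩
  intro N hN
  have h1 : ∀ lam : ℝ, (N.U : EReal) ≤ Emin A γ Ce p N lam := by
    intro lam
    unfold Emin
    refine le_iInf fun ψ => le_iInf fun g => le_iInf fun hadm => le_iInf fun _ => ?_
    exact_mod_cast hmain N hN ψ g hadm
  have h2 : Emin A γ Ce p N 0 ≤ (N.U : EReal) := by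
    unfold Emin
    refine iInf_le_of_le (fun _ => 0) (iInf_le_of_le (fun _ => 0)
      (iInf_le_of_le (admissible_zero p) (iInf_le_of_le (by simp) ?_)))
    rw [energy_zero hp]
  have h3 : Emin A γ Ce p N 0 = (N.U : EReal) := le_antisymm h2 (h1 0)
  refine ⟨h3, h1, le_rfl, ?_⟩
  apply le_antisymm
  · rw [h3]
    exact le_iInf fun l => le_iInf fun _ => h1 l
  · exact iInf_le_of_le 0 (iInf_le_of_le le_rfl le_rfl)

end Pool.Agent.Helpers25.TFDWCore
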