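import Pool.Agent.Helpers25.TFDWDefs
import Pool.Agent.Helpers25.TFDWAnalysis

namespace Pool.Agent.Helpers25.TFDW

open MeasureTheory

/-- The same nuclei for the helper file. -/
noncomputable def core (N : Nuclei) : TFDWCore.Nuclei where
  k := N.k
  one_le_k := N.one_le_k
  R := N.R
  R_injective := N.R_injective
  z := N.z
  z_pos := N.z_pos

theorem adm_iff (p : ℝ) (ψ : E3 → ℝ) (g : E3 → E3) :
    Admissible p ψ g ↔ TFDWCore.Admissible p ψ g := by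
  unfold Admissible TFDWCore.Admissible WeakGrad TFDWCore.WeakGrad
  constructor
  · rintro ⟨h1, h2, h3, h4⟩
    exact ⟨h1, h2, h3, fun φ a b v => h4 φ ⟨a, b⟩ v⟩
  · rintro ⟨h1, h2, h3, h4⟩
    exact ⟨h1, h2, h3, fun φ a v => h4 φ a.1 a.2 v⟩

theorem Emin_eq (A γ Ce p : ℝ) (N : Nuclei) (lam : ℝ) :
    Emin A γ Ce p N lam = TFDWCore.Emin A γ Ce p (core N) lam := by
  unfold Emin TFDWCore.Emin
  refine iInf_congr fun ψ => iInf_congr fun g => ?_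
  refine iInf_congr_Prop (adm_iff p ψ g) fun _ => ?_
  rfl

theorem main {A γ Ce p : ℝ} (hA : 0 < A) (hγ : 0 < γ) (hCe : 0 < Ce) (hp : 4 / 3 < p) :
    ∃ Z0 : ℝ, 0 < Z0 ∧ ∀ N : Nuclei, N.Z < Z0 →
        Emin A γ Ce p N 0 = (N.U : EReal) ∧ (∀ lam : ℝ, (N.U : EReal) ≤ Emin A γ Ce p N lam) ∧
        IsAbsMin A γ Ce p N 0 := by
  obtain ⟨Z0, hZ0, h⟩ := TFDWCore.main hA hγ hCe hp
  refine ⟨Z0, hZ0, fun N hN => ?_⟩
  obtain ⟨h1, h2, h3⟩ := h (core N) hN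
  refine ⟨?_, ?_, ?_⟩
  · rw [Emin_eq]; exact h1
  · intro lam
    rw [Emin_eq]; exact h2 lam
  · refine ⟨le_rfl, ?_⟩
    have := h3.2
    rw [Emin_eq]
    simp only [Emin_eq]
    exact this

end Pool.Agent.Helpers25.TFDW
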