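import Pool.Agent.H18.TauDefs

set_option autoImplicit false
open Complex MeasureTheory Filter Topology Set

namespace Pool.Agent.H18.Tau

lemma riesz_Q_eq (z w : ℂ) (r : ℝ) (hz : ‖z‖ = 1) (hw : ‖w - z‖ = r) :
    w ^ 2 - (2 - (r : ℂ) ^ 2) * z * w + z ^ 2 = (w - z) * z * ((‖w‖ : ℂ) ^ 2 - 1) := by
  have h1 : z * (starRingEnd ℂ) z = 1 := by
    rw [Complex.mul_conj', hz]; simp
  have h2 : (r : ℂ) ^ 2 = (w - z) * ((starRingEnd ℂ) w - (starRingEnd ℂ) z) := by
    rw [← map_sub, Complex.mul_conj', hw]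
  have h3 : (‖w‖ : ℂ) ^ 2 = w * (starRingEnd ℂ) w := by
    rw [Complex.mul_conj']
  rw [h2, h3]
  linear_combination (-(w - z) * w) * h1

lemma riesz_Q_norm (z w : ℂ) (r : ℝ) (hz : ‖z‖ = 1) (hw : ‖w - z‖ = r) :
    ‖w ^ 2 - (2 - (r : ℂ) ^ 2) * z * w + z ^ 2‖ = r * |‖w‖ ^ 2 - 1| := by
  rw [riesz_Q_eq z w r hz hw, norm_mul, norm_mul, hw, hz]
  have : ((‖w‖ : ℂ) ^ 2 - 1) = ((‖w‖ ^ 2 - 1 : ℝ) : ℂ) := by push_cast; ring
  rw [this, Complex.norm_real, Real.norm_eq_abs, mul_one]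

lemma riesz_summable (a : ℕ → ℂ) (A : ℝ) (hA : ∀ n, ‖a n‖ ≤ A) (w : ℂ) (hw : ‖w‖ < 1) :
    Summable (fun n => a n * w ^ n) := by
  have h0 : 0 ≤ A := le_trans (norm_nonneg _) (hA 0)
  refine Summable.of_norm_bounded (g := fun n => A * ‖w‖ ^ n) ?_ ?_
  · exact (summable_geometric_of_lt_one (norm_nonneg _) hw).mul_left A
  · intro n
    rw [norm_mul, norm_pow]
    exact mul_le_mul_of_nonneg_right (hA n) (by positivity)

lemma riesz_inside (a : ℕ → ℂ) (A : ℝ) (hA : ∀ n, ‖a n‖ ≤ A) (w : ℂ) (hw : ‖w‖ < 1)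
    (N : ℕ) (e : ℝ) (he : ∀ n, N ≤ n → ‖a n‖ ≤ e) :
    ‖(∑' n, a n * w ^ n) - ∑ n ∈ Finset.range N, a n * w ^ n‖ ≤ e * ‖w‖ ^ N / (1 - ‖w‖) := by
  have hs := riesz_summable a A hA w hw
  rw [← hs.sum_add_tsum_nat_add N, add_sub_cancel_left]
  have hgeo : HasSum (fun k : ℕ => e * ‖w‖ ^ N * ‖w‖ ^ k) (e * ‖w‖ ^ N * (1 - ‖w‖)⁻¹) :=
    (hasSum_geometric_of_lt_one (norm_nonneg _) hw).mul_left _
  rw [div_eq_mul_inv]
  refine tsum_of_norm_bounded hgeo ?_
  intro k
  rw [norm_mul, norm_pow, pow_add]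
  have := he (k + N) (by omega)
  calc ‖a (k + N)‖ * (‖w‖ ^ k * ‖w‖ ^ N) ≤ e * (‖w‖ ^ k * ‖w‖ ^ N) :=
        mul_le_mul_of_nonneg_right this (by positivity)
    _ = e * ‖w‖ ^ N * ‖w‖ ^ k := by ring

lemma riesz_bern (s : ℝ) (hs : 1 ≤ s) (m : ℕ) : (m : ℝ) * (s - 1) ≤ s ^ m := by
  have h := one_add_mul_le_pow (a := s - 1) (by linarith) m
  have h2 : (1 + (s - 1)) = s := by ring
  rw [h2] at h
  linarith

/-- the outside sum -/
lemma riesz_outside (b : ℕ → ℝ) (A e : ℝ) (hb0 : ∀ n, 0 ≤ b n) (hA : ∀ n, b n ≤ A) (n0 N : ℕ) (hN : n0 < N)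
    (he0 : 0 ≤ e) (he : ∀ n, n0 ≤ n → b n ≤ e) (s : ℝ) (hs : 1 ≤ s) :
    (s - 1) * ∑ j ∈ Finset.range N, b j * s ^ j ≤ s ^ N * (e + A * n0 / ((N : ℝ) - n0)) := by
  have hA0 : 0 ≤ A := le_trans (hb0 0) (hA 0)
  have hNn : (0 : ℝ) < (N : ℝ) - n0 := by
    have : (n0 : ℝ) < N := by exact_mod_cast hN
    linarith
  have hterm : ∀ j ∈ Finset.range N, (s - 1) * (b j * s ^ j) ≤
      e * (s ^ (j + 1) - s ^ j) + (if j < n0 then A * s ^ N / ((N : ℝ) - n0) else 0) := by
    intro j hj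
    have hjN : j < N := Finset.mem_range.mp hj
    have hsj : 0 < s ^ j := by positivity
    split_ifs with h
    · have h1 : (s - 1) * (b j * s ^ j) ≤ (s - 1) * (A * s ^ j) :=
        mul_le_mul_of_nonneg_left (mul_le_mul_of_nonneg_right (hA j) hsj.le) (by linarith)
      have h2 : (s - 1) * (A * s ^ j) ≤ A * s ^ N / ((N : ℝ) - n0) := by
        rw [le_div_iff₀ hNn]
        have h3 := riesz_bern s hs (N - j)
        have h4 : s ^ N = s ^ (N - j) * s ^ j := by
          rw [← pow_add]; congr 1; omega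
        have h5 : ((N : ℝ) - n0) ≤ ((N - j : ℕ) : ℝ) := by
          rw [Nat.cast_sub hjN.le]
          have : (j : ℝ) < n0 := by exact_mod_cast h
          linarith
        calc (s - 1) * (A * s ^ j) * ((N : ℝ) - n0) = (A * s ^ j) * (((N : ℝ) - n0) * (s - 1)) := by ring
          _ ≤ (A * s ^ j) * (((N - j : ℕ) : ℝ) * (s - 1)) := by
              apply mul_le_mul_of_nonneg_left _ (by positivity)
              exact mul_le_mul_of_nonneg_right h5 (by linarith)
          _ ≤ (A * s ^ j) * s ^ (N - j) := mul_le_mul_of_nonneg_left h3 (by positivity)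
          _ = A * s ^ N := by rw [h4]; ring
      have h6 : 0 ≤ e * (s ^ (j + 1) - s ^ j) := by
        apply mul_nonneg he0
        rw [pow_succ]
        nlinarith
      linarith
    · have hbj := he j (by omega)
      calc (s - 1) * (b j * s ^ j) ≤ (s - 1) * (e * s ^ j) :=
            mul_le_mul_of_nonneg_left (mul_le_mul_of_nonneg_right hbj hsj.le) (by linarith)
        _ = e * (s ^ (j + 1) - s ^ j) + 0 := by rw [pow_succ]; ring
  have hsum : (s - 1) * ∑ j ∈ Finset.range N, b j * s ^ j ≤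
      ∑ j ∈ Finset.range N, (e * (s ^ (j + 1) - s ^ j) + (if j < n0 then A * s ^ N / ((N : ℝ) - n0) else 0)) := by
    rw [Finset.mul_sum]
    exact Finset.sum_le_sum hterm
  rw [Finset.sum_add_distrib, ← Finset.mul_sum, Finset.sum_range_sub (fun j => s ^ j)] at hsum
  have hcount : ∑ j ∈ Finset.range N, (if j < n0 then A * s ^ N / ((N : ℝ) - n0) else 0)
      = n0 * (A * s ^ N / ((N : ℝ) - n0)) := by
    rw [← Finset.sum_filter]
    have : Finset.filter (fun j => j < n0) (Finset.range N) = Finset.range n0 := by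
      ext j; simp; omega
    rw [this, Finset.sum_const, Finset.card_range, nsmul_eq_mul]
  rw [hcount] at hsum
  have hfin : e * (s ^ N - s ^ 0) + n0 * (A * s ^ N / ((N : ℝ) - n0)) ≤ s ^ N * (e + A * n0 / ((N : ℝ) - n0)) := by
    have : s ^ N * (e + A * n0 / ((N : ℝ) - n0)) = e * s ^ N + n0 * (A * s ^ N / ((N : ℝ) - n0)) := by ring
    rw [this, pow_zero]
    nlinarith
  linarith

theorem fatou_riesz (a : ℕ → ℂ) (ha : Tendsto a atTop (𝓝 0)) (z : ℂ) (hz : ‖z‖ = 1) (rho : ℝ) (hrho : 0 < rho)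
    (g : ℂ → ℂ) (hg : DifferentiableOn ℂ g (Metric.ball z rho))
    (hgF : ∀ w ∈ Metric.ball z rho, ‖w‖ < 1 → g w = ∑' n, a n * w ^ n) :
    Tendsto (fun N : ℕ => ∑ n ∈ Finset.range N, a n * z ^ n) atTop (𝓝 (g z)) := by
  obtain ⟨r, hr0, hr1, hrr⟩ : ∃ r : ℝ, 0 < r ∧ r < 1 ∧ r < rho := by
    refine ⟨min rho 1 / 2, by positivity, ?_, ?_⟩
    · have := min_le_right rho 1; linarith
    · have := min_le_left rho 1; have h := lt_min hrho one_pos; linarith
  have hsub : Metric.closedBall z r ⊆ Metric.ball z rho := Metric.closedBall_subset_ball hrr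
  have hgc : ContinuousOn g (Metric.closedBall z r) := (hg.mono hsub).continuousOn
  obtain ⟨C, hC⟩ := (isCompact_closedBall z r).exists_bound_of_continuousOn hgc
  have hC0 : 0 ≤ C := le_trans (norm_nonneg _) (hC z (Metric.mem_closedBall_self hr0.le))
  obtain ⟨A, hA⟩ : ∃ A : ℝ, ∀ n, ‖a n‖ ≤ A := by
    obtain ⟨A, hA⟩ := (Metric.isBounded_range_of_tendsto a ha).exists_norm_le
    exact ⟨A, fun n => hA _ ⟨n, rfl⟩⟩
  have hA0 : 0 ≤ A := le_trans (norm_nonneg _) (hA 0)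
  have hne : ∀ w ∈ Metric.closedBall z r, w ≠ 0 := by
    intro w hw h
    rw [h, Metric.mem_closedBall, dist_comm, dist_zero_right, hz] at hw
    linarith
  -- main bound
  have main : ∀ (e : ℝ) (n0 : ℕ), 0 ≤ e → (∀ n, n0 ≤ n → ‖a n‖ ≤ e) → ∀ N : ℕ, n0 < N →
      r ^ 2 * ‖g z - ∑ n ∈ Finset.range N, a n * z ^ n‖ ≤
        2 * e + 3 * C / N + 3 * (e + A * n0 / ((N : ℝ) - n0)) := by
    intro e n0 he0 he N hN
    have hNpos : (0 : ℝ) < N := by
      have : 0 < N := by omega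
      exact_mod_cast this
    have hNn : (0 : ℝ) < (N : ℝ) - n0 := by
      have : (n0 : ℝ) < N := by exact_mod_cast hN
      linarith
    set B : ℝ := 2 * e + 3 * C / N + 3 * (e + A * n0 / ((N : ℝ) - n0)) with hB
    have ht1 : 0 ≤ 3 * C / N := by positivity
    have ht2 : 0 ≤ 3 * (e + A * n0 / ((N : ℝ) - n0)) := by positivity
    let G : ℂ → ℂ := fun w => (g w - ∑ n ∈ Finset.range N, a n * w ^ n) *
      (w ^ 2 - (2 - (r : ℂ) ^ 2) * z * w + z ^ 2) / w ^ N
    have hGd : DifferentiableOn ℂ G (Metric.closedBall z r) := by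
      apply DifferentiableOn.div
      · apply DifferentiableOn.mul
        · apply DifferentiableOn.sub (hg.mono hsub)
          fun_prop
        · fun_prop
      · fun_prop
      · intro w hw
        exact pow_ne_zero _ (hne w hw)
    have hGc : DiffContOnCl ℂ G (Metric.ball z r) := hGd.diffContOnCl_ball subset_rfl
    have hfr : ∀ w ∈ frontier (Metric.ball z r), ‖G w‖ ≤ B := by
      intro w hw
      rw [frontier_ball z hr0.ne'] at hw
      have hwr : ‖w - z‖ = r := by rw [← dist_eq_norm]; exact hw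
      have hwc : w ∈ Metric.closedBall z r := Metric.sphere_subset_closedBall hw
      have hw0 : w ≠ 0 := hne w hwc
      have hwn : 0 < ‖w‖ := norm_pos_iff.mpr hw0
      have hQ := riesz_Q_norm z w r hz hwr
      have hGn : ‖G w‖ = ‖g w - ∑ n ∈ Finset.range N, a n * w ^ n‖ * (r * |‖w‖ ^ 2 - 1|) / ‖w‖ ^ N := by
        simp only [G]
        rw [norm_div, norm_mul, norm_pow, hQ]
      have hw2 : ‖w‖ ≤ 2 := by
        have h1 : ‖w‖ ≤ ‖w - z‖ + ‖z‖ := by
          have := norm_add_le (w - z) z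
          simpa using this
        rw [hwr, hz] at h1; linarith
      rw [hGn]
      rcases lt_trichotomy ‖w‖ 1 with h | h | h
      · -- inside
        have hin := riesz_inside a A hA w h N e (fun n hn => he n (by omega))
        rw [← hgF w (hsub hwc) h] at hin
        have h1w : 0 < 1 - ‖w‖ := by linarith
        have habs : |‖w‖ ^ 2 - 1| = (1 - ‖w‖) * (1 + ‖w‖) := by
          rw [abs_of_nonpos (by nlinarith)]; ring
        rw [habs]
        have hwN : 0 < ‖w‖ ^ N := by positivity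
        calc ‖g w - ∑ n ∈ Finset.range N, a n * w ^ n‖ * (r * ((1 - ‖w‖) * (1 + ‖w‖))) / ‖w‖ ^ N
            ≤ (e * ‖w‖ ^ N / (1 - ‖w‖)) * (r * ((1 - ‖w‖) * (1 + ‖w‖))) / ‖w‖ ^ N := by
              gcongr
          _ = e * (r * (1 + ‖w‖)) := by
              field_simp
          _ ≤ e * (1 * (1 + 1)) := by
              gcongr
          _ ≤ B := by rw [hB]; linarith
      · rw [h]
        simp
        rw [hB]; linarith
      · -- outside
        have hs1 : 1 ≤ ‖w‖ := h.le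
        have habs : |‖w‖ ^ 2 - 1| = (‖w‖ - 1) * (‖w‖ + 1) := by
          rw [abs_of_nonneg (by nlinarith)]; ring
        rw [habs]
        have hwN : 0 < ‖w‖ ^ N := by positivity
        have hS : ‖∑ n ∈ Finset.range N, a n * w ^ n‖ ≤ ∑ n ∈ Finset.range N, ‖a n‖ * ‖w‖ ^ n := by
          refine (norm_sum_le _ _).trans (le_of_eq ?_)
          apply Finset.sum_congr rfl
          intro n _
          rw [norm_mul, norm_pow]
        have hout := riesz_outside (fun n => ‖a n‖) A e (fun n => norm_nonneg _) hA n0 N hN he0 he ‖w‖ hs1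
        have hbern := riesz_bern ‖w‖ hs1 N
        have hsub1 : ‖g w - ∑ n ∈ Finset.range N, a n * w ^ n‖ ≤ C + ∑ n ∈ Finset.range N, ‖a n‖ * ‖w‖ ^ n :=
          (norm_sub_le _ _).trans (add_le_add (hC w hwc) hS)
        rw [div_le_iff₀ hwN]
        have hsum0 : 0 ≤ ∑ n ∈ Finset.range N, ‖a n‖ * ‖w‖ ^ n := by positivity
        have hwm : 0 ≤ ‖w‖ - 1 := by linarith
        have e1 : C * (‖w‖ - 1) ≤ (C / N) * ‖w‖ ^ N := by
          rw [div_mul_eq_mul_div, le_div_iff₀ hNpos]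
          calc C * (‖w‖ - 1) * N = C * (N * (‖w‖ - 1)) := by ring
            _ ≤ C * ‖w‖ ^ N := mul_le_mul_of_nonneg_left hbern hC0
        calc ‖g w - ∑ n ∈ Finset.range N, a n * w ^ n‖ * (r * ((‖w‖ - 1) * (‖w‖ + 1)))
            ≤ (C + ∑ n ∈ Finset.range N, ‖a n‖ * ‖w‖ ^ n) * (1 * ((‖w‖ - 1) * 3)) := by
              gcongr
              linarith
          _ = 3 * (C * (‖w‖ - 1)) + 3 * ((‖w‖ - 1) * ∑ n ∈ Finset.range N, ‖a n‖ * ‖w‖ ^ n) := by ring
          _ ≤ 3 * ((C / N) * ‖w‖ ^ N) + 3 * (‖w‖ ^ N * (e + A * n0 / ((N : ℝ) - n0))) := by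
              gcongr
          _ = (3 * C / N + 3 * (e + A * n0 / ((N : ℝ) - n0))) * ‖w‖ ^ N := by ring
          _ ≤ B * ‖w‖ ^ N := by
              apply mul_le_mul_of_nonneg_right _ hwN.le
              rw [hB]; linarith
    have hmax := Complex.norm_le_of_forall_mem_frontier_norm_le Metric.isBounded_ball hGc hfr
      (subset_closure (Metric.mem_ball_self hr0))
    have hGz : ‖G z‖ = r ^ 2 * ‖g z - ∑ n ∈ Finset.range N, a n * z ^ n‖ := by
      simp only [G]
      have hq : z ^ 2 - (2 - (r : ℂ) ^ 2) * z * z + z ^ 2 = (r : ℂ) ^ 2 * z ^ 2 := by ring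
      rw [hq, norm_div, norm_mul, norm_mul, norm_pow, norm_pow, norm_pow, hz, Complex.norm_real,
        Real.norm_eq_abs, abs_of_pos hr0]
      simp [mul_comm]
    rw [← hGz]
    exact hmax
  rw [Metric.tendsto_atTop]
  intro eps heps
  have hr2 : 0 < r ^ 2 := by positivity
  set e : ℝ := r ^ 2 * eps / 20 with he_def
  have he : 0 < e := by positivity
  obtain ⟨n0, hn0⟩ := (Metric.tendsto_atTop.mp ha) e he
  have hn0' : ∀ n, n0 ≤ n → ‖a n‖ ≤ e := by
    intro n hn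
    have := hn0 n hn
    rw [dist_zero_right] at this
    exact this.le
  have hlim : Tendsto (fun N : ℕ => 2 * e + 3 * C / N + 3 * (e + A * n0 / ((N : ℝ) - n0))) atTop
      (𝓝 (2 * e + 0 + 3 * (e + 0))) := by
    have hN : Tendsto (fun N : ℕ => (N : ℝ)) atTop atTop := tendsto_natCast_atTop_atTop
    have hN2 : Tendsto (fun N : ℕ => (N : ℝ) - n0) atTop atTop := by
      simpa [sub_eq_add_neg] using tendsto_atTop_add_const_right atTop (-(n0 : ℝ)) hN
    refine Tendsto.add (Tendsto.add tendsto_const_nhds ?_) (Tendsto.const_mul _ (Tendsto.add tendsto_const_nhds ?_))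
    · exact Tendsto.div_atTop tendsto_const_nhds hN
    · exact Tendsto.div_atTop tendsto_const_nhds hN2
  have hev : ∀ᶠ N : ℕ in atTop, 2 * e + 3 * C / N + 3 * (e + A * n0 / ((N : ℝ) - n0)) < 6 * e := by
    apply hlim.eventually_lt_const
    linarith
  obtain ⟨N1, hN1⟩ := (hev.and (eventually_gt_atTop n0)).exists_forall_of_atTop
  refine ⟨N1, fun N hN => ?_⟩
  obtain ⟨h1, h2⟩ := hN1 N hN
  have h3 := main e n0 he.le hn0' N h2
  rw [dist_eq_norm, norm_sub_rev]
  have h4 : r ^ 2 * ‖g z - ∑ n ∈ Finset.range N, a n * z ^ n‖ < r ^ 2 * eps := by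
    calc r ^ 2 * ‖g z - ∑ n ∈ Finset.range N, a n * z ^ n‖ < 6 * e := lt_of_le_of_lt h3 h1
      _ < r ^ 2 * eps := by rw [he_def]; nlinarith [mul_pos hr2 heps]
  exact lt_of_mul_lt_mul_left h4 hr2.le

end Pool.Agent.H18.Tau
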