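import Mathlib

namespace Pool.Agent.Helpers25.Transport

open scoped ENNReal

/-- A deterministic online algorithm for `m` sites. It is given the metric space, the positions of
the sites and the list of the requests revealed so far (the last one is the current request), and
it names the site that serves the current request. -/
def OnlineAlg (m : ℕ) : Type 1 :=
  ∀ (N : Type) [MetricSpace N], (Fin m → N) → List N → Fin m

/-- The list of the sites that serve the requests `r`. -/
def OnlineAlg.run {m : ℕ} (A : OnlineAlg m) {N : Type} [MetricSpace N] (s : Fin m → N)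
    (r : List N) : List (Fin m) :=
  (List.range r.length).map fun j => A N s (r.take (j + 1))

/-- `f` (the list of the sites that serve the requests) uses at most `b i` servers at site `i`. -/
def WithinCapacity {m : ℕ} (b : Fin m → ℕ) (f : List (Fin m)) : Prop :=
  ∀ i, f.count i ≤ b i

/-- The cost of serving the requests `r` by the sites `f`. -/
noncomputable def cost {m : ℕ} {N : Type} [MetricSpace N] (s : Fin m → N) (f : List (Fin m))
    (r : List N) : ℝ :=
  (List.zipWith (fun i x => dist (s i) x) f r).sum

/-- The minimum cost of an offline assignment that uses at most `a i` servers at site `i`. -/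
noncomputable def opt {m : ℕ} (a : Fin m → ℕ) {N : Type} [MetricSpace N] (s : Fin m → N)
    (r : List N) : ℝ≥0∞ :=
  ⨅ (f : List (Fin m)) (_ : f.length = r.length) (_ : WithinCapacity a f),
    ENNReal.ofReal (cost s f r)

/-- The algorithm respects the capacities `c` on all instances with at most `∑ a i` requests. -/
def OnlineAlg.Respects {m : ℕ} (A : OnlineAlg m) (a c : Fin m → ℕ) : Prop :=
  ∀ (N : Type) [MetricSpace N] (s : Fin m → N), Function.Injective s → ∀ r : List N,
    r.length ≤ ∑ i, a i → WithinCapacity c (A.run s r)

/-- The weak competitive ratio of `A` (distinct sites, at most `∑ a i` requests). -/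
noncomputable def OnlineAlg.ratio {m : ℕ} (A : OnlineAlg m) (a : Fin m → ℕ) : ℝ≥0∞ :=
  ⨆ (N : Type) (_ : MetricSpace N) (s : Fin m → N) (_ : Function.Injective s) (r : List N)
    (_ : r.length ≤ ∑ i, a i), ENNReal.ofReal (cost s (A.run s r) r) / opt a s r

/-- The optimal weak competitive ratio `R*(a, c)`. -/
noncomputable def Rstar {m : ℕ} (a c : Fin m → ℕ) : ℝ≥0∞ :=
  ⨅ (A : OnlineAlg m) (_ : A.Respects a c), A.ratio a

end Pool.Agent.Helpers25.Transport
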