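import Pool.Agent.Helpers25.TransportDefs

namespace Pool.Agent.Helpers25.Transport

open scoped ENNReal

/-! ### Lists -/

theorem sum_count {m : ℕ} (L : List (Fin m)) : ∑ i, L.count i = L.length := by
  induction L with
  | nil => simp
  | cons x L ih => simp [List.count_cons, Finset.sum_add_distrib, ih]

section
variable {m : ℕ} {N : Type} [MetricSpace N]

theorem length_run (A : OnlineAlg m) (s : Fin m → N) (r : List N) :
    (A.run s r).length = r.length := by
  simp [OnlineAlg.run]

theorem run_append (A : OnlineAlg m) (s : Fin m → N) (r t : List N) :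
    ∃ L : List (Fin m), L.length = t.length ∧ A.run s (r ++ t) = A.run s r ++ L := by
  refine ⟨(List.range t.length).map fun j => A N s ((r ++ t).take (r.length + j + 1)), by simp, ?_⟩
  unfold OnlineAlg.run
  rw [List.length_append, List.range_add, List.map_append, List.map_map]
  congr 1
  apply List.map_congr_left
  intro j hj
  rw [List.mem_range] at hj
  congr 1
  rw [List.take_append_of_le_length (by omega)]

theorem cost_append (s : Fin m → N) (f g : List (Fin m)) (r t : List N)
    (h : f.length = r.length) : cost s (f ++ g) (r ++ t) = cost s f r + cost s g t := by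
  unfold cost
  rw [List.zipWith_append h, List.sum_append]

theorem cost_replicate (s : Fin m → N) (L : List (Fin m)) (x : N) :
    cost s L (List.replicate L.length x) = (L.map fun i => dist (s i) x).sum := by
  induction L with
  | nil => simp [cost]
  | cons i L ih =>
    simp only [List.length_cons, List.replicate_succ, List.map_cons, List.sum_cons]
    rw [← ih]
    simp [cost]

end

/-! ### The star metric -/

/-- The weight of a point. -/
def wt {m : ℕ} : Option (Fin m) → ℝ
  | none => 0
  | some _ => 1

theorem wt_nonneg {m : ℕ} (x : Option (Fin m)) : 0 ≤ wt x := by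
  cases x <;> simp [wt]

/-- The distance of the star. -/
noncomputable def sdist {m : ℕ} (x y : Option (Fin m)) : ℝ := if x = y then 0 else wt x + wt y

/-- The star with `m` leaves `some i` at distance `1` from the center `none`. -/
noncomputable def starSpace (m : ℕ) : MetricSpace (Option (Fin m)) where
  dist := sdist
  dist_self x := by simp [sdist]
  dist_comm x y := by
    unfold sdist
    by_cases h : x = y
    · simp [h]
    · rw [if_neg h, if_neg (Ne.symm h), add_comm]
  dist_triangle x y z := by
    unfold sdist
    have h1 := wt_nonneg x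
    have h2 := wt_nonneg y
    have h3 := wt_nonneg z
    by_cases hxz : x = z
    · subst hxz
      by_cases hxy : x = y
      · simp [hxy]
      · rw [if_pos rfl, if_neg hxy, if_neg (Ne.symm hxy)]
        linarith
    · rw [if_neg hxz]
      by_cases hxy : x = y
      · subst hxy
        rw [if_pos rfl, if_neg hxz]
        linarith
      · rw [if_neg hxy]
        by_cases hyz : y = z
        · subst hyz
          rw [if_pos rfl]
          linarith
        · rw [if_neg hyz]
          linarith
  eq_of_dist_eq_zero := by
    intro x y h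
    by_contra hne
    have h' : sdist x y = 0 := h
    unfold sdist at h'
    rw [if_neg hne] at h'
    cases x <;> cases y <;> simp_all [wt] <;> linarith

section
variable {m : ℕ}

attribute [local instance] starSpace

theorem dist_none (i : Fin m) : dist (some i : Option (Fin m)) none = 1 := by
  change sdist _ _ = 1
  simp [sdist, wt]

theorem dist_some (i j : Fin m) :
    dist (some i : Option (Fin m)) (some j) = if i = j then 0 else 2 := by
  change sdist _ _ = _
  unfold sdist
  by_cases h : i = j
  · simp [h]
  · rw [if_neg h, if_neg (by simpa using h)]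
    norm_num [wt]

theorem cost_center (L : List (Fin m)) :
    cost (some : Fin m → Option (Fin m)) L (List.replicate L.length none) = L.length := by
  rw [cost_replicate]
  simp [dist_none]

theorem cost_leaf (L : List (Fin m)) (i : Fin m) :
    cost (some : Fin m → Option (Fin m)) L (List.replicate L.length (some i)) =
      2 * ((L.length : ℝ) - L.count i) := by
  rw [cost_replicate]
  induction L with
  | nil => simp
  | cons j L ih =>
    rw [List.map_cons, List.sum_cons, ih, dist_some, List.length_cons, List.count_cons]
    by_cases h : j = i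
    · simp [h]
    · simp [h]
      ring

/-- The adversary. -/
theorem adversary (A : OnlineAlg m) (a c : Fin m → ℕ) (hA : A.Respects a c) (k q : ℕ)
    (hq : 1 ≤ q) (hka : ∀ i, k ≤ q * a i) (t : ℕ) (ht : q + t ≤ m) :
    ∃ (P : Finset (Fin m)) (r1 : List (Option (Fin m))) (f1 : List (Fin m)),
      P.card = m - t ∧ f1.length = r1.length ∧
      cost (some : Fin m → Option (Fin m)) f1 r1 = 0 ∧
      (∀ i ∈ P, f1.count i = 0) ∧ (∀ i, i ∉ P → f1.count i = a i) ∧
      (k : ℝ) + 2 * (k - ∑ i, ((c i : ℝ) - a i)) *
          (((harmonic m : ℚ) : ℝ) - ((harmonic (m - t) : ℚ) : ℝ)) ≤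
        cost (some : Fin m → Option (Fin m))
          (A.run (some : Fin m → Option (Fin m)) (List.replicate k none ++ r1))
          (List.replicate k none ++ r1) := by
  classical
  have hsum : ∀ P : Finset (Fin m), q ≤ P.card → k ≤ ∑ i ∈ P, a i := by
    intro P hP
    have h1 : P.card * k ≤ q * ∑ i ∈ P, a i := by
      rw [Finset.mul_sum]
      calc P.card * k = ∑ i ∈ P, k := by simp
        _ ≤ _ := Finset.sum_le_sum fun i _ => hka i
    have h2 : q * k ≤ q * ∑ i ∈ P, a i := le_trans (Nat.mul_le_mul_right k hP) h1
    exact Nat.le_of_mul_le_mul_left h2 (by omega)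
  have hlen : ∀ (P : Finset (Fin m)) (r1 : List (Option (Fin m))) (f1 : List (Fin m)),
      q ≤ P.card → f1.length = r1.length → (∀ i ∈ P, f1.count i = 0) →
      (∀ i, i ∉ P → f1.count i = a i) →
      (List.replicate k (none : Option (Fin m)) ++ r1).length ≤ ∑ i, a i := by
    intro P r1 f1 hP hl h0 h1
    have h2 : f1.length = ∑ i ∈ Pᶜ, a i := by
      rw [← sum_count, ← Finset.sum_add_sum_compl P, Finset.sum_congr rfl h0]
      simp only [Finset.sum_const_zero, zero_add]
      exact Finset.sum_congr rfl fun i hi => h1 i (Finset.mem_compl.mp hi)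
    rw [List.length_append, List.length_replicate, ← hl, h2, ← Finset.sum_add_sum_compl P]
    exact Nat.add_le_add_right (hsum P hP) _
  induction t with
  | zero =>
    refine ⟨Finset.univ, [], [], by simp, rfl, by simp [cost], by simp, by simp, ?_⟩
    rw [List.append_nil]
    have h1 : (A.run (some : Fin m → Option (Fin m)) (List.replicate k none)).length = k := by
      rw [length_run, List.length_replicate]
    have h2 := cost_center (A.run (some : Fin m → Option (Fin m)) (List.replicate k none))
    rw [h1] at h2
    rw [h2]
    simp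
  | succ t ih =>
    obtain ⟨P, r1, f1, hP, hl, h0, hz, ha, hc⟩ := ih (by omega)
    set r := List.replicate k (none : Option (Fin m)) ++ r1 with hr
    set U := A.run (some : Fin m → Option (Fin m)) r with hU
    have hPc : q ≤ P.card := by omega
    have hPne : P.Nonempty := by
      rw [← Finset.card_pos]; omega
    have hcap : WithinCapacity c U :=
      hA _ _ (Option.some_injective _) _ (hlen P r1 f1 hPc hl hz ha)
    have hf1 : f1.length = ∑ i ∈ Pᶜ, a i := by
      rw [← sum_count, ← Finset.sum_add_sum_compl P, Finset.sum_congr rfl hz]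
      simp only [Finset.sum_const_zero, zero_add]
      exact Finset.sum_congr rfl fun i hi => ha i (Finset.mem_compl.mp hi)
    have hUlen : U.length = k + ∑ i ∈ Pᶜ, a i := by
      rw [hU, length_run, hr, List.length_append, List.length_replicate, ← hl, hf1]
    -- pigeonhole
    have hsumU : (∑ i ∈ P, (U.count i : ℝ)) + ∑ i ∈ Pᶜ, (U.count i : ℝ) =
        k + ∑ i ∈ Pᶜ, (a i : ℝ) := by
      rw [Finset.sum_add_sum_compl]
      have := sum_count U
      rw [hUlen] at this
      exact_mod_cast this
    have hover : (k : ℝ) - ∑ i, ((c i : ℝ) - a i) ≤ ∑ i ∈ P, ((U.count i : ℝ) - (c i - a i)) := by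
      have h1 : ∑ i ∈ Pᶜ, (U.count i : ℝ) ≤ ∑ i ∈ Pᶜ, (c i : ℝ) :=
        Finset.sum_le_sum fun i _ => by exact_mod_cast hcap i
      rw [← Finset.sum_add_sum_compl P (fun i => (c i : ℝ) - a i)]
      simp only [Finset.sum_sub_distrib]
      linarith
    have hcard : (P.card : ℝ) = ((m - t : ℕ) : ℝ) := by rw [hP]
    have hpos : (0 : ℝ) < P.card := by exact_mod_cast hPne.card_pos
    obtain ⟨i, hi, hile⟩ : ∃ i ∈ P, ((k : ℝ) - ∑ i, ((c i : ℝ) - a i)) / P.card ≤
        (U.count i : ℝ) - (c i - a i) := by
      apply Finset.exists_le_of_sum_le hPne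
      rw [Finset.sum_const, nsmul_eq_mul, mul_div_cancel₀ _ hpos.ne']
      exact hover
    obtain ⟨L, hL, hrun⟩ := run_append A (some : Fin m → Option (Fin m)) r
      (List.replicate (a i) (some i))
    rw [List.length_replicate] at hL
    have hP' : (P.erase i).card = m - (t + 1) := by
      rw [Finset.card_erase_of_mem hi, hP]; omega
    have hf2 : (f1 ++ List.replicate (a i) i).length =
        (r1 ++ List.replicate (a i) (some i)).length := by
      simp [hl]
    have hz2 : ∀ j ∈ P.erase i, (f1 ++ List.replicate (a i) i).count j = 0 := by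
      intro j hj
      obtain ⟨hne, hj⟩ := Finset.mem_erase.mp hj
      rw [List.count_append, hz j hj, List.count_replicate]
      simp [Ne.symm hne]
    have ha2 : ∀ j, j ∉ P.erase i → (f1 ++ List.replicate (a i) i).count j = a j := by
      intro j hj
      rw [Finset.mem_erase, not_and_or, not_not] at hj
      rw [List.count_append, List.count_replicate]
      by_cases hji : j = i
      · subst hji
        rw [hz j hi]
        simp
      · have hj' : j ∉ P := hj.resolve_left hji
        rw [ha j hj']
        simp [Ne.symm hji]
    have hcap2 : WithinCapacity c (A.run (some : Fin m → Option (Fin m))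
        (List.replicate k none ++ (r1 ++ List.replicate (a i) (some i)))) :=
      hA _ _ (Option.some_injective _) _ (hlen (P.erase i) _ _ (by omega) hf2 hz2 ha2)
    refine ⟨P.erase i, r1 ++ List.replicate (a i) (some i), f1 ++ List.replicate (a i) i, hP', hf2,
      ?_, hz2, ha2, ?_⟩
    · rw [cost_append _ _ _ _ _ hl, h0, zero_add]
      have h1 := cost_leaf (List.replicate (a i) i) i
      simp only [List.length_replicate, List.count_replicate_self, sub_self, mul_zero] at h1
      exact h1
    · rw [← List.append_assoc, ← hr, hrun, cost_append _ _ _ _ _ (length_run _ _ _)]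
      have h1 := cost_leaf L i
      rw [hL] at h1
      rw [h1]
      have h2 := hcap2 i
      rw [← List.append_assoc, ← hr, hrun, List.count_append] at h2
      have h3 : (U.count i : ℝ) + L.count i ≤ c i := by exact_mod_cast h2
      have h4 : harmonic (m - t) = harmonic (m - (t + 1)) + ((m - t : ℕ) : ℚ)⁻¹ := by
        have : m - t = (m - (t + 1)) + 1 := by omega
        rw [this, harmonic_succ]
      have h5 : ((harmonic (m - t) : ℚ) : ℝ) =
          ((harmonic (m - (t + 1)) : ℚ) : ℝ) + ((m - t : ℕ) : ℝ)⁻¹ := by
        rw [h4]; push_cast; ring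
      rw [hcard, div_eq_mul_inv] at hile
      rw [h5] at hc
      nlinarith [hc, h3, hile]

/-- The lower bound. -/
theorem lower (a c : Fin m → ℕ) (k q : ℕ) (hq : 1 ≤ q) (hqm : q ≤ m) (hk : 1 ≤ k)
    (hka : ∀ i, k ≤ q * a i) :
    ENNReal.ofReal (1 + 2 * (1 - (∑ i, ((c i : ℝ) - a i)) / k) *
      (((harmonic m : ℚ) : ℝ) - ((harmonic q : ℚ) : ℝ))) ≤ Rstar a c := by
  classical
  refine le_iInf₂ fun A hA => ?_
  obtain ⟨P, r1, f1, hP, hl, h0, hz, ha, hc⟩ := adversary A a c hA k q hq hka (m - q) (by omega)
  have hPq : P.card = q := by omega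
  have hmq : m - (m - q) = q := by omega
  rw [hmq] at hc
  have hf1 : f1.length = ∑ i ∈ Pᶜ, a i := by
    rw [← sum_count, ← Finset.sum_add_sum_compl P, Finset.sum_congr rfl hz]
    simp only [Finset.sum_const_zero, zero_add]
    exact Finset.sum_congr rfl fun i hi => ha i (Finset.mem_compl.mp hi)
  have hksum : k ≤ ∑ i ∈ P, a i := by
    have h1 : P.card * k ≤ q * ∑ i ∈ P, a i := by
      rw [Finset.mul_sum]
      calc P.card * k = ∑ i ∈ P, k := by simp
        _ ≤ _ := Finset.sum_le_sum fun i _ => hka i
    rw [hPq] at h1
    exact Nat.le_of_mul_le_mul_left h1 (by omega)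
  -- an assignment of the requests at the center
  obtain ⟨g, hglen, hg0, hga⟩ : ∃ g : List (Fin m), g.length = k ∧ (∀ i, i ∉ P → g.count i = 0) ∧
      ∀ i, g.count i ≤ a i := by
    let G : List (Fin m) := P.toList.flatMap fun i => List.replicate (a i) i
    have hGlen : G.length = ∑ i ∈ P, a i := by
      simp [G, List.length_flatMap, Finset.sum_toList]
    have hGc : ∀ i, G.count i = if i ∈ P then a i else 0 := by
      intro i
      simp only [G, List.count_flatMap, Function.comp_def, List.count_replicate]
      rw [Finset.sum_map_toList]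
      simp
    refine ⟨G.take k, ?_, fun i hi => ?_, fun i => ?_⟩
    · rw [List.length_take, hGlen]; omega
    · have h1 := (List.take_sublist k G).count_le i
      rw [hGc, if_neg hi] at h1
      omega
    · have h1 := (List.take_sublist k G).count_le i
      rw [hGc] at h1
      split_ifs at h1 <;> omega
  have hopt : opt a (some : Fin m → Option (Fin m)) (List.replicate k none ++ r1) ≤
      ENNReal.ofReal k := by
    refine le_trans (iInf_le_of_le (g ++ f1) (iInf_le_of_le ?_ (iInf_le_of_le ?_ le_rfl))) ?_
    · simp [hglen, hl]
    · intro i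
      rw [List.count_append]
      by_cases hi : i ∈ P
      · rw [hz i hi]; simpa using hga i
      · rw [hg0 i hi, ha i hi]; simp
    · rw [cost_append _ _ _ _ _ (by simp [hglen]), h0, add_zero]
      have := cost_center g
      rw [hglen] at this
      rw [this]
  have hlen : (List.replicate k (none : Option (Fin m)) ++ r1).length ≤ ∑ i, a i := by
    rw [List.length_append, List.length_replicate, ← hl, hf1, ← Finset.sum_add_sum_compl P]
    exact Nat.add_le_add_right hksum _
  refine le_trans ?_ (le_iSup_of_le (Option (Fin m)) (le_iSup_of_le (starSpace m)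
    (le_iSup_of_le some (le_iSup_of_le (Option.some_injective _)
      (le_iSup_of_le (List.replicate k none ++ r1) (le_iSup_of_le hlen le_rfl))))))
  have hk0 : (0 : ℝ) < k := by exact_mod_cast hk
  have hkey : (1 + 2 * (1 - (∑ i, ((c i : ℝ) - a i)) / k) *
        (((harmonic m : ℚ) : ℝ) - ((harmonic q : ℚ) : ℝ))) * k ≤
      cost (some : Fin m → Option (Fin m))
          (A.run (some : Fin m → Option (Fin m)) (List.replicate k none ++ r1))
          (List.replicate k none ++ r1) := by
    refine le_trans (le_of_eq ?_) hc
    field_simp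
  rcases le_or_gt (1 + 2 * (1 - (∑ i, ((c i : ℝ) - a i)) / k) *
        (((harmonic m : ℚ) : ℝ) - ((harmonic q : ℚ) : ℝ))) 0 with hb | hb
  · rw [ENNReal.ofReal_eq_zero.mpr hb]
    exact zero_le
  rw [ENNReal.le_div_iff_mul_le]
  · calc _ ≤ ENNReal.ofReal (1 + 2 * (1 - (∑ i, ((c i : ℝ) - a i)) / k) *
        (((harmonic m : ℚ) : ℝ) - ((harmonic q : ℚ) : ℝ))) * ENNReal.ofReal k := by gcongr
      _ = ENNReal.ofReal ((1 + 2 * (1 - (∑ i, ((c i : ℝ) - a i)) / k) *
        (((harmonic m : ℚ) : ℝ) - ((harmonic q : ℚ) : ℝ))) * k) := by
          rw [ENNReal.ofReal_mul' hk0.le]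
      _ ≤ _ := ENNReal.ofReal_le_ofReal hkey
  · right
    rw [Ne, ENNReal.ofReal_eq_zero, not_le]
    exact lt_of_lt_of_le (mul_pos hb hk0) hkey
  · left
    exact ne_top_of_le_ne_top ENNReal.ofReal_ne_top hopt

end

end Pool.Agent.Helpers25.Transport
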